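import Mathlib

/-!
# Hessian, number of negative coefficients
-/

set_option autoImplicit false

open Module QuadraticForm

namespace Pool.Agent.H47.QG

/-- The Hessian of `f` at `x` as a quadratic form: `v ↦ D^2 f(x)(v, v)`. -/
noncomputable def hess {E : Type*} [NormedAddCommGroup E] [NormedSpace ℝ E] (f : E → ℝ) (x : E) :
    QuadraticForm ℝ E :=
  LinearMap.BilinMap.toQuadraticMap (fderiv ℝ (fderiv ℝ f) x).toLinearMap₁₂

theorem hess_apply {E : Type*} [NormedAddCommGroup E] [NormedSpace ℝ E] (f : E → ℝ) (x v : E) :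
    hess f x v = fderiv ℝ (fderiv ℝ f) x v v := rfl

/-- number of negative coefficients -/
noncomputable def neg {ι : Type*} (c : ι → ℝ) : ℕ := Nat.card {i // c i < 0}

/-- `g` is a perturbation of `f` in the ball of radius `r / 2` about `z`, with finitely many
critical points `X` in the ball of radius `r`, all nondegenerate, with indices between
`index` and `index + nullity` of `z`. -/
structure LD {ι : Type*} [Fintype ι] (f : (ι → ℝ) → ℝ) (z : ι → ℝ) (r : ℝ) (g : (ι → ℝ) → ℝ)
    (X : Finset (ι → ℝ)) : Prop where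
  smooth : ContDiff ℝ 2 g
  eq : ∀ y, y ∉ Metric.closedBall z (r / 2) → g y = f y
  crit : ∀ y ∈ Metric.closedBall z r, (fderiv ℝ g y = 0 ↔ y ∈ X)
  mem : ∀ y ∈ X, y ∈ Metric.ball z (r / 2)
  nd : ∀ y ∈ X, sigNeg (hess g y) + sigPos (hess g y) = Fintype.card ι
  lo : ∀ y ∈ X, sigNeg (hess f z) ≤ sigNeg (hess g y)
  hi : ∀ y ∈ X, sigNeg (hess g y) + sigPos (hess f z) ≤ Fintype.card ι

end Pool.Agent.H47.QG
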