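import Pool.Agent.H47.QG.PerZ
import Pool.Agent.H47.QG.Idx

/-!
# The discrete action functional
-/

set_option autoImplicit false

open Module QuadraticForm

namespace Pool.Agent.H47.QG

/-- Points `(x, y)` of `ℝ^{2n}`. -/
abbrev Pt (n : ℕ) := (Fin n → ℝ) × (Fin n → ℝ)

/-- `f` is the map with generating function `S`: `f (x, y) = (x', y')` if and only if
`x' = x + ∂S/∂y (x', y)` and `y' = y - ∂S/∂x (x', y)`. The function `S` is `C^2`,
`ℤ^{2n}`-periodic, and the matrix `1 - ∂²S/∂x∂y` is invertible everywhere. -/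
structure Gen {n : ℕ} (S : Pt n → ℝ) (f : Pt n → Pt n) : Prop where
  smooth : ContDiff ℝ 2 S
  periodic : ∀ (z : Pt n) (a b : Fin n → ℤ),
    S (z.1 + (fun i => (a i : ℝ)), z.2 + (fun i => (b i : ℝ))) = S z
  rel : ∀ z z' : Pt n, f z = z' ↔ ∀ i,
    z'.1 i = z.1 i + fderiv ℝ S (z'.1, z.2) (0, Pi.single i 1) ∧
    z'.2 i = z.2 i - fderiv ℝ S (z'.1, z.2) (Pi.single i 1, 0)
  inv : ∀ (z : Pt n) (v : Fin n → ℝ),
    (∀ i, v i = fderiv ℝ (fderiv ℝ S) z (v, 0) (0, Pi.single i 1)) → v = 0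

/-- The discrete action of a `K`-periodic sequence. -/
noncomputable def action {n : ℕ} (S : ℕ → Pt n → ℝ) (K : ℕ) [NeZero K] (z : Fin K → Pt n) : ℝ :=
  ∑ j : Fin K, (∑ i, (z j).2 i * ((z (j + 1)).1 i - (z j).1 i) - S j ((z (j + 1)).1, (z j).2))

/-- `flw f j = f (j - 1) ∘ ⋯ ∘ f 0`. -/
def flw {n : ℕ} (f : ℕ → Pt n → Pt n) : ℕ → Pt n → Pt n
  | 0 => id
  | j + 1 => f j ∘ flw f j

/-- The sequence `w, f_0 w, f_1 f_0 w, …` of length `K`. -/
def oseq {n : ℕ} (f : ℕ → Pt n → Pt n) (K : ℕ) (w : Pt n) : Fin K → Pt n := fun j => flw f j w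

variable {n : ℕ}

/-- coordinates of the sequence space: circle coordinates `(x_0, y_{K-1})`, `up` coordinates `u`,
`dn` coordinates `w`. -/
abbrev Ix (n K : ℕ) := (Fin n ⊕ Fin n) ⊕ ((Fin (K - 1) × Fin n) ⊕ (Fin (K - 1) × Fin n))

/-- kinds of the coordinates -/
def kdx (n K : ℕ) : Ix n K → Kind
  | Sum.inl _ => Kind.th
  | Sum.inr (Sum.inl _) => Kind.up
  | Sum.inr (Sum.inr _) => Kind.dn

/-- the coordinate change: `x_0 = θ`, `x_{j+1} - x_j = w_j - u_j`, `y_{K-1} = θ'`,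
`y_j - y_{K-1} = w_j + u_j` for `j < K - 1`. -/
noncomputable def psi (n K : ℕ) (t : Ix n K → ℝ) : Fin K → Pt n := fun j =>
  (fun i => t (Sum.inl (Sum.inl i)) + ∑ l : Fin (K - 1), if (l : ℕ) < j then
      t (Sum.inr (Sum.inr (l, i))) - t (Sum.inr (Sum.inl (l, i))) else 0,
   fun i => t (Sum.inl (Sum.inr i)) + if h : (j : ℕ) < K - 1 then
      t (Sum.inr (Sum.inr (⟨j, h⟩, i))) + t (Sum.inr (Sum.inl (⟨j, h⟩, i))) else 0)

/-- the forward shift by `N` steps (cyclic) -/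
def shiftN (n K : ℕ) [NeZero K] (N : ℕ) : (Fin K → Pt n) →ₗ[ℝ] (Fin K → Pt n) where
  toFun z j := z (j + Fin.ofNat K N)
  map_add' _ _ := rfl
  map_smul' _ _ := rfl

end Pool.Agent.H47.QG
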