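
import Pool.Agent.H47.QG.Act

/-!
# The action in the coordinates
-/

set_option autoImplicit false

open Module QuadraticForm

namespace Pool.Agent.H47.QG

variable {n : ℕ}

theorem ActC_tel {m : ℕ} (a : Fin m → ℝ) (k : Fin m) :
    (∑ l : Fin m, if (l : ℕ) < (k : ℕ) + 1 then a l else 0) -
      (∑ l : Fin m, if (l : ℕ) < (k : ℕ) then a l else 0) = a k := by
  rw [← Finset.sum_sub_distrib, Finset.sum_eq_single k]
  · simp
  · intro b _ hb
    have hbk : (b : ℕ) ≠ k := fun h => hb (Fin.ext h)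
    by_cases h : (b : ℕ) < k
    · have h2 : (b : ℕ) < (k : ℕ) + 1 := by omega
      simp [h, h2]
    · have h2 : ¬ (b : ℕ) < (k : ℕ) + 1 := by omega
      simp [h, h2]
  · simp

/-- `psi` as a linear map -/
noncomputable def ActC_psiL (n K : ℕ) : (Ix n K → ℝ) →ₗ[ℝ] (Fin K → Pt n) where
  toFun := psi n K
  map_add' s t := by
    funext j
    ext i
    · simp only [psi, Pi.add_apply, Prod.fst_add]
      rw [add_add_add_comm, ← Finset.sum_add_distrib]
      congr 1
      refine Finset.sum_congr rfl fun l _ => ?_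
      split_ifs
      · ring
      · simp
    · simp only [psi, Pi.add_apply, Prod.snd_add]
      rw [add_add_add_comm]
      congr 1
      split_ifs
      · ring
      · simp
  map_smul' c t := by
    funext j
    ext i
    · simp only [psi, Pi.smul_apply, smul_eq_mul, RingHom.id_apply, Prod.smul_fst]
      rw [mul_add, Finset.mul_sum]
      congr 1
      refine Finset.sum_congr rfl fun l _ => ?_
      split_ifs
      · ring
      · simp
    · simp only [psi, Pi.smul_apply, smul_eq_mul, RingHom.id_apply, Prod.smul_snd]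
      rw [mul_add]
      congr 1
      split_ifs
      · ring
      · simp

theorem ActC_inj (n m : ℕ) : Function.Injective (ActC_psiL n (m + 1)) := by
  rw [← LinearMap.ker_eq_bot, LinearMap.ker_eq_bot']
  intro t ht
  have h0 : ∀ j : Fin (m + 1), psi n (m + 1) t j = 0 := fun j => congrFun ht j
  have hx : ∀ (j : Fin (m + 1)) (i : Fin n), t (Sum.inl (Sum.inl i)) +
      (∑ l : Fin m, if (l : ℕ) < (j : ℕ) then
        t (Sum.inr (Sum.inr (l, i))) - t (Sum.inr (Sum.inl (l, i))) else 0) = 0 :=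
    fun j i => congrFun (congrArg Prod.fst (h0 j)) i
  have hy : ∀ (j : Fin (m + 1)) (i : Fin n), t (Sum.inl (Sum.inr i)) +
      (if h : (j : ℕ) < m then
        t (Sum.inr (Sum.inr ((⟨j, h⟩ : Fin m), i))) + t (Sum.inr (Sum.inl ((⟨j, h⟩ : Fin m), i)))
        else 0) = 0 :=
    fun j i => congrFun (congrArg Prod.snd (h0 j)) i
  have hth : ∀ i, t (Sum.inl (Sum.inl i)) = 0 := by
    intro i
    have := hx 0 i
    simpa using this
  have hth' : ∀ i, t (Sum.inl (Sum.inr i)) = 0 := by
    intro i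
    have := hy (Fin.last m) i
    simpa using this
  have hd : ∀ (k : Fin m) (i : Fin n),
      t (Sum.inr (Sum.inr (k, i))) - t (Sum.inr (Sum.inl (k, i))) = 0 := by
    intro k i
    have h1 := hx k.succ i
    have h2 := hx k.castSucc i
    have h3 := ActC_tel (fun l : Fin m =>
      t (Sum.inr (Sum.inr (l, i))) - t (Sum.inr (Sum.inl (l, i)))) k
    simp only [Fin.val_succ, Fin.val_castSucc] at h1 h2
    rw [← h3]
    linarith
  have hs : ∀ (k : Fin m) (i : Fin n),
      t (Sum.inr (Sum.inr (k, i))) + t (Sum.inr (Sum.inl (k, i))) = 0 := by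
    intro k i
    have h1 := hy k.castSucc i
    rw [dif_pos (show ((k.castSucc : Fin (m + 1)) : ℕ) < m from k.2)] at h1
    have h2 := hth' i
    rw [h2, zero_add] at h1
    exact h1
  funext s
  rcases s with (i | i) | (⟨k, i⟩ | ⟨k, i⟩)
  · exact hth i
  · exact hth' i
  · have h1 := hd k i
    have h2 := hs k i
    show t (Sum.inr (Sum.inl (k, i))) = 0
    linarith
  · have h1 := hd k i
    have h2 := hs k i
    show t (Sum.inr (Sum.inr (k, i))) = 0
    linarith

theorem ActC_finrank (n m : ℕ) :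
    finrank ℝ (Ix n (m + 1) → ℝ) = finrank ℝ (Fin (m + 1) → Pt n) := by
  rw [Module.finrank_fintype_fun_eq_card, Module.finrank_pi_fintype]
  simp only [Module.finrank_prod, Module.finrank_fintype_fun_eq_card, Fintype.card_fin,
    Fintype.card_sum, Fintype.card_prod, Finset.sum_const, Finset.card_univ, smul_eq_mul,
    Nat.add_sub_cancel]
  ring

/-- the coordinate change is a linear isomorphism -/
theorem exists_psi (n K : ℕ) [NeZero K] :
    ∃ e : (Ix n K → ℝ) ≃L[ℝ] (Fin K → Pt n), ∀ t, e t = psi n K t := by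
  obtain ⟨m, rfl⟩ : ∃ m, K = m + 1 := ⟨K - 1, by have := NeZero.pos K; omega⟩
  refine ⟨(LinearMap.linearEquivOfInjective (ActC_psiL n (m + 1)) (ActC_inj n m)
    (ActC_finrank n m)).toContinuousLinearEquiv, fun t => ?_⟩
  rfl

theorem ActC_key {m : ℕ} (y0 : ℝ) (x0 : ℝ) (w u : Fin m → ℝ)
    (X Y : Fin (m + 1) → ℝ)
    (hX : ∀ j, X j = x0 + ∑ l : Fin m, if (l : ℕ) < (j : ℕ) then w l - u l else 0)
    (hY : ∀ j : Fin (m + 1), Y j = y0 + if h : (j : ℕ) < m then w ⟨j, h⟩ + u ⟨j, h⟩ else 0) :
    ∑ j : Fin (m + 1), Y j * (X (j + 1) - X j) = ∑ l : Fin m, (w l ^ 2 - u l ^ 2) := by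
  rw [Fin.sum_univ_castSucc]
  have h1 : ∀ k : Fin m, Y k.castSucc * (X (k.castSucc + 1) - X k.castSucc) =
      (w k ^ 2 - u k ^ 2) + y0 * (w k - u k) := by
    intro k
    have e1 : (k.castSucc + 1 : Fin (m + 1)) = k.succ := Fin.coeSucc_eq_succ
    have e2 : X k.succ - X k.castSucc = w k - u k := by
      rw [hX, hX]
      have h3 := ActC_tel (fun l : Fin m => w l - u l) k
      simp only [Fin.val_succ, Fin.val_castSucc]
      linarith
    have e3 : Y k.castSucc = y0 + (w k + u k) := by
      rw [hY, dif_pos (show ((k.castSucc : Fin (m + 1)) : ℕ) < m from k.2)]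
      rfl
    rw [e1, e2, e3]
    ring
  have h2 : Y (Fin.last m) * (X (Fin.last m + 1) - X (Fin.last m)) =
      - (y0 * ∑ l : Fin m, (w l - u l)) := by
    have e1 : (Fin.last m + 1 : Fin (m + 1)) = 0 := by simp
    have e2 : Y (Fin.last m) = y0 := by
      rw [hY, dif_neg (by simp)]
      simp
    have e3 : X (Fin.last m) = x0 + ∑ l : Fin m, (w l - u l) := by
      rw [hX]
      congr 1
      refine Finset.sum_congr rfl fun l _ => ?_
      rw [if_pos (by simp)]
    have e4 : X 0 = x0 := by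
      rw [hX]
      simp
    rw [e1, e2, e3, e4]
    ring
  rw [h2, Finset.sum_congr rfl (fun k _ => h1 k), Finset.sum_add_distrib, ← Finset.mul_sum]
  ring

/-- the action in the new coordinates -/
theorem action_psi (S : ℕ → Pt n → ℝ) (K : ℕ) [NeZero K] (t : Ix n K → ℝ) :
    action S K (psi n K t) = ∑ l : Fin (K - 1) × Fin n,
      (t (Sum.inr (Sum.inr l)) ^ 2 - t (Sum.inr (Sum.inl l)) ^ 2) -
      ∑ j : Fin K, S j ((psi n K t (j + 1)).1, (psi n K t j).2) := by
  obtain ⟨m, rfl⟩ : ∃ m, K = m + 1 := ⟨K - 1, by have := NeZero.pos K; omega⟩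
  unfold action
  rw [Finset.sum_sub_distrib]
  congr 1
  rw [Finset.sum_comm, Fintype.sum_prod_type_right]
  refine Finset.sum_congr rfl fun i _ => ?_
  exact ActC_key (t (Sum.inl (Sum.inr i))) (t (Sum.inl (Sum.inl i)))
    (fun l : Fin m => t (Sum.inr (Sum.inr (l, i)))) (fun l : Fin m => t (Sum.inr (Sum.inl (l, i))))
    (fun j => (psi n (m + 1) t j).1 i) (fun j => (psi n (m + 1) t j).2 i)
    (fun j => rfl) (fun j => rfl)

end Pool.Agent.H47.QG
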