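import Pool.Agent.H47.QG.Idx

/-!
# Index of quadratic forms: algebra
-/

set_option autoImplicit false

open Module QuadraticForm

namespace Pool.Agent.H47.QG

section alg

variable {E F : Type*} [AddCommGroup E] [Module ℝ E] [FiniteDimensional ℝ E]
  [AddCommGroup F] [Module ℝ F] [FiniteDimensional ℝ F]

/-- negative definite subspaces bound the index from below -/
theorem le_sigNeg (Q : QuadraticForm ℝ E) (W : Submodule ℝ E)
    (h : ∀ v ∈ W, v ≠ 0 → Q v < 0) : finrank ℝ W ≤ sigNeg Q := by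
  apply le_sigNeg_of_negDef
  intro v hv
  have hv' : (v : E) ≠ 0 := fun h0 => hv (Subtype.ext h0)
  have h1 := h v v.2 hv'
  rw [QuadraticMap.restrict_apply, QuadraticMap.neg_apply]
  linarith

theorem exists_sigNeg (Q : QuadraticForm ℝ E) :
    ∃ W : Submodule ℝ E, finrank ℝ W = sigNeg Q ∧ ∀ v ∈ W, v ≠ 0 → Q v < 0 := by
  obtain ⟨W, hW, hd⟩ := exists_finrank_eq_sigNeg_and_negDef Q
  refine ⟨W, hW, fun v hv hne => ?_⟩
  have h1 := hd ⟨v, hv⟩ (fun h0 => hne (congrArg Subtype.val h0))
  rw [QuadraticMap.restrict_apply, QuadraticMap.neg_apply] at h1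
  linarith

/-- restriction along an injective linear map -/
theorem sigNeg_comp_le (Q : QuadraticForm ℝ E) (i : F →ₗ[ℝ] E) (hi : Function.Injective i) :
    sigNeg (Q.comp i) ≤ sigNeg Q := by
  obtain ⟨W, hW, hd⟩ := exists_sigNeg (Q.comp i)
  rw [← hW, (Submodule.equivMapOfInjective i hi W).finrank_eq]
  apply le_sigNeg
  rintro _ ⟨v, hv, rfl⟩ hne
  have hv0 : v ≠ 0 := by
    intro h0
    rw [h0, map_zero] at hne
    exact hne rfl
  exact hd v hv hv0

theorem sigNeg_le_comp (Q : QuadraticForm ℝ E) (i : F →ₗ[ℝ] E) (hi : Function.Injective i) :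
    sigNeg Q + finrank ℝ F ≤ sigNeg (Q.comp i) + finrank ℝ E := by
  obtain ⟨W, hW, hd⟩ := exists_sigNeg Q
  have h1 : finrank ℝ (W.comap i) ≤ sigNeg (Q.comp i) := by
    apply le_sigNeg
    intro v hv hne
    have h2 : i v ≠ 0 := by
      intro h0
      exact hne (hi (by rw [h0, map_zero]))
    exact hd (i v) hv h2
  have h2 : finrank ℝ (W.comap i) = finrank ℝ (LinearMap.range i ⊓ W : Submodule ℝ E) := by
    rw [(Submodule.equivMapOfInjective i hi (W.comap i)).finrank_eq, Submodule.map_comap_eq]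
  have h3 := Submodule.finrank_sup_add_finrank_inf_eq (LinearMap.range i) W
  have h4 : finrank ℝ (LinearMap.range i) = finrank ℝ F := LinearMap.finrank_range_of_inj hi
  have h5 : finrank ℝ (LinearMap.range i ⊔ W : Submodule ℝ E) ≤ finrank ℝ E :=
    Submodule.finrank_le _
  omega

/-- dimension of products of subspaces -/
theorem IdxA_finrank_prod (W : Submodule ℝ E) (W' : Submodule ℝ F) :
    finrank ℝ (W.prod W') = finrank ℝ W + finrank ℝ W' := by
  have h1 : LinearMap.range (W.subtype.prodMap W'.subtype) = W.prod W' := by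
    rw [LinearMap.range_prodMap, Submodule.range_subtype, Submodule.range_subtype]
  have h2 : Function.Injective (W.subtype.prodMap W'.subtype) := by
    rintro ⟨a, b⟩ ⟨c, d⟩ h
    have h3 := Prod.ext_iff.1 h
    exact Prod.ext (Subtype.ext h3.1) (Subtype.ext h3.2)
  rw [← h1, LinearMap.finrank_range_of_inj h2, Module.finrank_prod]

theorem IdxA_sigNeg_prod_ge (Q : QuadraticForm ℝ E) (Q' : QuadraticForm ℝ F) :
    sigNeg Q + sigNeg Q' ≤ sigNeg (QuadraticMap.prod Q Q') := by
  obtain ⟨W, hW, hd⟩ := exists_sigNeg Q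
  obtain ⟨W', hW', hd'⟩ := exists_sigNeg Q'
  rw [← hW, ← hW', ← IdxA_finrank_prod]
  apply le_sigNeg
  rintro ⟨v, w⟩ ⟨hv, hw⟩ hne
  rw [QuadraticMap.prod_apply]
  have h1 : Q v ≤ 0 := by
    by_cases h : v = 0
    · rw [h, QuadraticMap.map_zero]
    · exact (hd v hv h).le
  have h2 : Q' w ≤ 0 := by
    by_cases h : w = 0
    · rw [h, QuadraticMap.map_zero]
    · exact (hd' w hw h).le
  by_cases h : v = 0
  · have h3 : w ≠ 0 := by
      intro h4
      exact hne (by rw [h, h4]; rfl)
    have h5 := hd' w hw h3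
    show Q v + Q' w < 0
    linarith
  · have h5 := hd v hv h
    show Q v + Q' w < 0
    linarith

/-- direct sums -/
theorem sigNeg_prod (Q : QuadraticForm ℝ E) (Q' : QuadraticForm ℝ F) :
    sigNeg (QuadraticMap.prod Q Q') = sigNeg Q + sigNeg Q' := by
  have h1 := IdxA_sigNeg_prod_ge Q Q'
  have h2 : sigPos Q + sigPos Q' ≤ sigPos (QuadraticMap.prod Q Q') := by
    have h3 := IdxA_sigNeg_prod_ge (-Q) (-Q')
    have h4 : QuadraticMap.prod (-Q) (-Q') = -QuadraticMap.prod Q Q' := by
      ext ⟨v, w⟩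
      rw [QuadraticMap.prod_apply, QuadraticMap.neg_apply, QuadraticMap.neg_apply,
        QuadraticMap.neg_apply, QuadraticMap.prod_apply, neg_add]
    rwa [h4, sigNeg_neg, sigNeg_neg, sigNeg_neg] at h3
  have h3 : finrank ℝ Q.radical + finrank ℝ Q'.radical ≤
      finrank ℝ (QuadraticMap.prod Q Q').radical := by
    rw [← IdxA_finrank_prod]
    apply Submodule.finrank_mono
    rintro ⟨v, w⟩ ⟨hv, hw⟩
    have hv' := QuadraticMap.mem_radical_iff'.1 hv
    have hw' := QuadraticMap.mem_radical_iff'.1 hw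
    refine QuadraticMap.mem_radical_iff'.2 ⟨?_, ?_⟩
    · rw [QuadraticMap.prod_apply, hv'.1, hw'.1, add_zero]
    · rintro ⟨a, b⟩
      rw [Prod.mk_add_mk, QuadraticMap.prod_apply, QuadraticMap.prod_apply]
      show Q (v + a) + Q' (w + b) = Q a + Q' b
      rw [hv'.2, hw'.2]
  have e1 := QuadraticForm.sigPos_add_sigNeg_add_radical (Q := Q)
  have e2 := QuadraticForm.sigPos_add_sigNeg_add_radical (Q := Q')
  have e3 := QuadraticForm.sigPos_add_sigNeg_add_radical (Q := QuadraticMap.prod Q Q')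
  rw [Module.finrank_prod] at e3
  omega

/-- positive multiples -/
theorem sigNeg_smul (Q : QuadraticForm ℝ E) (c : ℝ) (hc : 0 < c) : sigNeg (c • Q) = sigNeg Q := by
  apply le_antisymm
  · obtain ⟨W, hW, hd⟩ := exists_sigNeg (c • Q)
    rw [← hW]
    apply le_sigNeg
    intro v hv hne
    have h1 := hd v hv hne
    rw [QuadraticMap.smul_apply, smul_eq_mul] at h1
    by_contra h2
    rw [not_lt] at h2
    have h3 := mul_nonneg hc.le h2
    linarith
  · obtain ⟨W, hW, hd⟩ := exists_sigNeg Q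
    rw [← hW]
    apply le_sigNeg
    intro v hv hne
    rw [QuadraticMap.smul_apply, smul_eq_mul]
    exact mul_neg_of_pos_of_neg hc (hd v hv hne)

end alg

end Pool.Agent.H47.QG
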