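import Pool.Agent.H47.QG.IdxA

/-!
# Index of quadratic forms: semicontinuity
-/

set_option autoImplicit false

open Module QuadraticForm

namespace Pool.Agent.H47.QG

/-- a quadratic form on a finite dimensional normed space is continuous -/
theorem IdxS_continuous {E : Type*} [NormedAddCommGroup E] [NormedSpace ℝ E]
    [FiniteDimensional ℝ E] (Q : QuadraticForm ℝ E) : Continuous fun v => Q v := by
  have h1 : ∀ v, Q v = (QuadraticMap.associated (R := ℝ) Q).toContinuousBilinearMap v v := by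
    intro v
    rw [LinearMap.toContinuousBilinearMap_apply]
    exact (QuadraticMap.associated_eq_self_apply ℝ Q v).symm
  have h2 : (fun v => Q v) =
      fun v => (QuadraticMap.associated (R := ℝ) Q).toContinuousBilinearMap v v := funext h1
  rw [h2]
  fun_prop

/-- the negative half of the semicontinuity -/
theorem IdxS_neg {E : Type*} [NormedAddCommGroup E] [NormedSpace ℝ E]
    [FiniteDimensional ℝ E] (Q : QuadraticForm ℝ E) :
    ∃ δ > 0, ∀ Q' : QuadraticForm ℝ E, (∀ v, |Q' v - Q v| ≤ δ * ‖v‖ ^ 2) →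
      sigNeg Q ≤ sigNeg Q' := by
  obtain ⟨W, hW, hd⟩ := exists_sigNeg Q
  -- a bound on the unit sphere of `W`
  have h1 : ∃ c > 0, ∀ w : W, ‖w‖ = 1 → Q (w : E) ≤ -c := by
    have hK : IsCompact (Metric.sphere (0 : W) 1) := isCompact_sphere 0 1
    have hc : Continuous fun w : W => Q (w : E) :=
      (IdxS_continuous Q).comp continuous_subtype_val
    by_cases hne : (Metric.sphere (0 : W) 1).Nonempty
    · obtain ⟨w₀, hw₀, hm⟩ := hK.exists_isMaxOn hne hc.continuousOn
      have hw1 : ‖w₀‖ = 1 := by simpa using hw₀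
      have hw2 : (w₀ : E) ≠ 0 := by
        intro h0
        have h3 : w₀ = 0 := Subtype.ext h0
        rw [h3, norm_zero] at hw1
        exact zero_ne_one hw1
      refine ⟨-Q (w₀ : E), by linarith [hd w₀ w₀.2 hw2], fun w hw => ?_⟩
      have h4 : Q (w : E) ≤ Q (w₀ : E) := hm (by simpa using hw)
      linarith
    · refine ⟨1, one_pos, fun w hw => ?_⟩
      exact absurd ⟨w, by simpa using hw⟩ hne
  obtain ⟨c, hc, hcw⟩ := h1
  refine ⟨c / 2, half_pos hc, fun Q' hQ' => ?_⟩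
  rw [← hW]
  apply le_sigNeg
  intro v hv hne
  have hn : 0 < ‖v‖ := norm_pos_iff.2 hne
  have h2 : Q (‖v‖⁻¹ • v) ≤ -c := by
    have h3 := hcw ⟨‖v‖⁻¹ • v, W.smul_mem _ hv⟩ (by
      show ‖‖v‖⁻¹ • v‖ = 1
      rw [norm_smul, norm_inv, norm_norm, inv_mul_cancel₀ hn.ne'])
    exact h3
  rw [QuadraticMap.map_smul, smul_eq_mul] at h2
  have h4 : Q v ≤ -c * ‖v‖ ^ 2 := by
    have h5 : Q v = (‖v‖⁻¹ * ‖v‖⁻¹ * Q v) * ‖v‖ ^ 2 := by
      field_simp
    rw [h5]
    exact mul_le_mul_of_nonneg_right h2 (by positivity)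
  have h6 := (abs_le.1 (hQ' v)).2
  have h7 : 0 < c * ‖v‖ ^ 2 := by positivity
  nlinarith

/-- **Semicontinuity of the index.** -/
theorem sigNeg_semicont {E : Type*} [NormedAddCommGroup E] [NormedSpace ℝ E]
    [FiniteDimensional ℝ E] (Q : QuadraticForm ℝ E) :
    ∃ δ > 0, ∀ Q' : QuadraticForm ℝ E, (∀ v, |Q' v - Q v| ≤ δ * ‖v‖ ^ 2) →
      sigNeg Q ≤ sigNeg Q' ∧ sigPos Q ≤ sigPos Q' := by
  obtain ⟨δ₁, hδ₁, h1⟩ := IdxS_neg Q
  obtain ⟨δ₂, hδ₂, h2⟩ := IdxS_neg (-Q)
  refine ⟨min δ₁ δ₂, lt_min hδ₁ hδ₂, fun Q' hQ' => ⟨?_, ?_⟩⟩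
  · refine h1 Q' fun v => (hQ' v).trans ?_
    exact mul_le_mul_of_nonneg_right (min_le_left _ _) (by positivity)
  · have h3 := h2 (-Q') fun v => by
      rw [QuadraticMap.neg_apply, QuadraticMap.neg_apply]
      have h4 : -Q' v - -Q v = -(Q' v - Q v) := by ring
      rw [h4, abs_neg]
      exact (hQ' v).trans (mul_le_mul_of_nonneg_right (min_le_right _ _) (by positivity))
    rwa [sigNeg_neg, sigNeg_neg] at h3

/-- Hessian of a composition with an affine map. -/
theorem hess_comp {E F : Type*} [NormedAddCommGroup E] [NormedSpace ℝ E] [NormedAddCommGroup F]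
    [NormedSpace ℝ F] (f : F → ℝ) (hf : ContDiff ℝ 2 f) (A : E →L[ℝ] F) (b : F) (x v : E) :
    hess (fun y => f (A y + b)) x v = hess f (A x + b) (A v) := by
  have ha : ∀ y, HasFDerivAt (fun y => A y + b) A y := fun y => A.hasFDerivAt.add_const b
  have h1 : fderiv ℝ (fun y => f (A y + b)) = fun y => (fderiv ℝ f (A y + b)).comp A := by
    funext y
    have h2 : HasFDerivAt f (fderiv ℝ f (A y + b)) (A y + b) :=
      (hf.differentiable (by norm_num) _).hasFDerivAt
    exact (h2.comp y (ha y)).fderiv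
  have h3 : HasFDerivAt (fderiv ℝ f) (fderiv ℝ (fderiv ℝ f) (A x + b)) (A x + b) := by
    have h4 : ContDiff ℝ 1 (fderiv ℝ f) := hf.fderiv_right (by norm_num)
    exact (h4.differentiable (by norm_num) _).hasFDerivAt
  have h5 : HasFDerivAt (fun y => fderiv ℝ f (A y + b))
      ((fderiv ℝ (fderiv ℝ f) (A x + b)).comp A) x := h3.comp x (ha x)
  have h6 : HasFDerivAt (fun y => (fderiv ℝ f (A y + b)).comp A)
      ((((ContinuousLinearMap.compL ℝ E F ℝ).flip A)).comp
        ((fderiv ℝ (fderiv ℝ f) (A x + b)).comp A)) x :=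
    (((ContinuousLinearMap.compL ℝ E F ℝ).flip A).hasFDerivAt).comp x h5
  rw [hess_apply, hess_apply, h1, h6.fderiv]
  rfl

end Pool.Agent.H47.QG
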