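import Pool.Agent.H47.QG.IdxS

/-!
# Invariant functions near a fixed point of the symmetry: Hessian, bump functions
-/

set_option autoImplicit false

open Module QuadraticForm

namespace Pool.Agent.H47.QG

variable {ι : Type*} [Fintype ι] [DecidableEq ι]

/-- the sum of the powers -/
noncomputable def EqB_N (T : (ι → ℝ) →ₗ[ℝ] (ι → ℝ)) (p : ℕ) : (ι → ℝ) →ₗ[ℝ] (ι → ℝ) :=
  ∑ j ∈ Finset.range p, T ^ j

omit [Fintype ι] [DecidableEq ι] in
theorem EqB_TN (T : (ι → ℝ) →ₗ[ℝ] (ι → ℝ)) (p : ℕ) (hT : T ^ p = 1) (v : ι → ℝ) :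
    T (EqB_N T p v) = EqB_N T p v := by
  have h := mul_geom_sum T p
  rw [hT, sub_self] at h
  have h1 := LinearMap.congr_fun h v
  have h2 : T (EqB_N T p v) - EqB_N T p v = 0 := h1
  exact sub_eq_zero.1 h2

omit [Fintype ι] [DecidableEq ι] in
theorem EqB_avg (T : (ι → ℝ) →ₗ[ℝ] (ι → ℝ)) (p : ℕ) (φ : (ι → ℝ) →ₗ[ℝ] ℝ)
    (h : ∀ w, φ (T w) = φ w) (w : ι → ℝ) : φ (EqB_N T p w) = p * φ w := by
  have h1 : ∀ j : ℕ, φ ((T ^ j) w) = φ w := by
    intro j
    induction j with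
    | zero => rfl
    | succ j ih =>
      rw [pow_succ', Module.End.mul_apply, h, ih]
  unfold EqB_N
  rw [LinearMap.sum_apply, map_sum, Finset.sum_congr rfl (fun j _ => h1 j)]
  simp

omit [Fintype ι] [DecidableEq ι] in
theorem EqB_Nfix (T : (ι → ℝ) →ₗ[ℝ] (ι → ℝ)) (p : ℕ) (u : ι → ℝ) (hu : T u = u) :
    EqB_N T p u = (p : ℝ) • u := by
  have h1 : ∀ j : ℕ, (T ^ j) u = u := by
    intro j
    induction j with
    | zero => rfl
    | succ j ih =>
      rw [pow_succ', Module.End.mul_apply, ih, hu]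
  unfold EqB_N
  rw [LinearMap.sum_apply, Finset.sum_congr rfl (fun j _ => h1 j)]
  rw [Finset.sum_const, Finset.card_range, Nat.cast_smul_eq_nsmul]

/-- the projection to the fixed space -/
noncomputable def EqB_P (T : (ι → ℝ) →ₗ[ℝ] (ι → ℝ)) (p : ℕ) : (ι → ℝ) →L[ℝ] (ι → ℝ) :=
  LinearMap.toContinuousLinearMap ((p : ℝ)⁻¹ • EqB_N T p)

omit [DecidableEq ι] in
theorem EqB_P_apply (T : (ι → ℝ) →ₗ[ℝ] (ι → ℝ)) (p : ℕ) (v : ι → ℝ) :
    EqB_P T p v = (p : ℝ)⁻¹ • EqB_N T p v := rfl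

omit [DecidableEq ι] in
theorem EqB_TP (T : (ι → ℝ) →ₗ[ℝ] (ι → ℝ)) (p : ℕ) (hT : T ^ p = 1) (v : ι → ℝ) :
    T (EqB_P T p v) = EqB_P T p v := by
  rw [EqB_P_apply, map_smul, EqB_TN T p hT]

omit [DecidableEq ι] in
theorem EqB_Pfix (T : (ι → ℝ) →ₗ[ℝ] (ι → ℝ)) (p : ℕ) (hp : 0 < p) (v : ι → ℝ) (hv : T v = v) :
    EqB_P T p v = v := by
  rw [EqB_P_apply, EqB_Nfix T p v hv, smul_smul, inv_mul_cancel₀, one_smul]
  exact_mod_cast hp.ne'

omit [DecidableEq ι] in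
theorem EqB_Pavg (T : (ι → ℝ) →ₗ[ℝ] (ι → ℝ)) (p : ℕ) (hp : 0 < p) (φ : (ι → ℝ) →ₗ[ℝ] ℝ)
    (h : ∀ w, φ (T w) = φ w) (w : ι → ℝ) : φ (EqB_P T p w) = φ w := by
  rw [EqB_P_apply, map_smul, EqB_avg T p φ h, smul_eq_mul, ← mul_assoc, inv_mul_cancel₀, one_mul]
  exact_mod_cast hp.ne'

omit [DecidableEq ι] in
/-- derivative of an invariant function -/
theorem EqB_fd (f : (ι → ℝ) → ℝ) (hf : ContDiff ℝ 2 f) (T : (ι → ℝ) →ₗ[ℝ] (ι → ℝ))
    (hTf : ∀ x, f (T x) = f x) (x u : ι → ℝ) : fderiv ℝ f (T x) (T u) = fderiv ℝ f x u := by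
  have hd : Differentiable ℝ f := hf.differentiable (by norm_num)
  have h1 : f = fun y => f (LinearMap.toContinuousLinearMap T y) := by
    funext y
    exact (hTf y).symm
  have h2 : HasFDerivAt (fun y => f (LinearMap.toContinuousLinearMap T y))
      ((fderiv ℝ f (T x)).comp (LinearMap.toContinuousLinearMap T)) x :=
    (hd (T x)).hasFDerivAt.comp x (LinearMap.toContinuousLinearMap T).hasFDerivAt
  rw [← h1] at h2
  rw [h2.fderiv]
  rfl

omit [DecidableEq ι] in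
/-- second derivative of an invariant function -/
theorem EqB_fd2 (f : (ι → ℝ) → ℝ) (hf : ContDiff ℝ 2 f) (T : (ι → ℝ) →ₗ[ℝ] (ι → ℝ))
    (hTf : ∀ x, f (T x) = f x) (x v u : ι → ℝ) :
    fderiv ℝ (fderiv ℝ f) (T x) (T v) (T u) = fderiv ℝ (fderiv ℝ f) x v u := by
  have hd : Differentiable ℝ (fderiv ℝ f) :=
    (hf.fderiv_right (m := 1) (by norm_num)).differentiable (by norm_num)
  have h1 : (fun y => fderiv ℝ f y u) =
      fun y => fderiv ℝ f (LinearMap.toContinuousLinearMap T y) (T u) := by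
    funext y
    exact (EqB_fd f hf T hTf y u).symm
  have h0 : HasFDerivAt (fun y => fderiv ℝ f (LinearMap.toContinuousLinearMap T y))
      ((fderiv ℝ (fderiv ℝ f) (T x)).comp (LinearMap.toContinuousLinearMap T)) x :=
    (hd (T x)).hasFDerivAt.comp x (LinearMap.toContinuousLinearMap T).hasFDerivAt
  have h2 := h0.clm_apply (hasFDerivAt_const (T u) x)
  have h3 := (hd x).hasFDerivAt.clm_apply (hasFDerivAt_const u x)
  rw [h1] at h3
  have h4 := h2.unique h3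
  have h5 := congrArg (fun L => L v) h4
  simpa using h5

omit [DecidableEq ι] in
/-- at a fixed point the Hessian only sees the fixed parts -/
theorem EqB_orth (f : (ι → ℝ) → ℝ) (hf : ContDiff ℝ 2 f) (T : (ι → ℝ) →ₗ[ℝ] (ι → ℝ)) (p : ℕ)
    (hp : 0 < p) (hTf : ∀ x, f (T x) = f x) (y : ι → ℝ) (hy : T y = y)
    (u v : ι → ℝ) (hu : T u = u) :
    fderiv ℝ (fderiv ℝ f) y (EqB_P T p v) u = fderiv ℝ (fderiv ℝ f) y v u ∧
    fderiv ℝ (fderiv ℝ f) y u (EqB_P T p v) = fderiv ℝ (fderiv ℝ f) y u v := by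
  constructor
  · have h := EqB_Pavg T p hp
      ({ toFun := fun w => fderiv ℝ (fderiv ℝ f) y w u
         map_add' := by intro a b; simp
         map_smul' := by intro a b; simp } : (ι → ℝ) →ₗ[ℝ] ℝ) (by
        intro w
        show fderiv ℝ (fderiv ℝ f) y (T w) u = fderiv ℝ (fderiv ℝ f) y w u
        have h1 := EqB_fd2 f hf T hTf y w u
        rw [hy, hu] at h1
        exact h1) v
    exact h
  · have h := EqB_Pavg T p hp (fderiv ℝ (fderiv ℝ f) y u : (ι → ℝ) →L[ℝ] ℝ).toLinearMap (by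
        intro w
        show fderiv ℝ (fderiv ℝ f) y u (T w) = fderiv ℝ (fderiv ℝ f) y u w
        have h1 := EqB_fd2 f hf T hTf y u w
        rw [hy, hu] at h1
        exact h1) v
    exact h

/-- scalar product of the fixed parts -/
noncomputable def EqB_S (P : (ι → ℝ) →L[ℝ] (ι → ℝ)) : (ι → ℝ) →L[ℝ] (ι → ℝ) →L[ℝ] ℝ :=
  ∑ i, ((ContinuousLinearMap.proj i).comp P).smulRight ((ContinuousLinearMap.proj i).comp P)

omit [DecidableEq ι] in
theorem EqB_S_apply (P : (ι → ℝ) →L[ℝ] (ι → ℝ)) (v u : ι → ℝ) :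
    EqB_S P v u = ∑ i, P v i * P u i := by
  unfold EqB_S
  simp

omit [DecidableEq ι] in
theorem EqB_S_zero (P : (ι → ℝ) →L[ℝ] (ι → ℝ)) (v u : ι → ℝ) (h : P u = P v)
    (h0 : EqB_S P v u = 0) : P v = 0 := by
  rw [EqB_S_apply, h] at h0
  have h1 := (Finset.sum_eq_zero_iff_of_nonneg (fun i _ => mul_self_nonneg (P v i))).1 h0
  funext i
  exact mul_self_eq_zero.1 (h1 i (Finset.mem_univ i))

/-- At fixed points near `z` the Hessian is nondegenerate if its restriction to the fixed space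
is. -/
theorem nondeg_fixed (f : (ι → ℝ) → ℝ) (hf : ContDiff ℝ 2 f) (T : (ι → ℝ) →ₗ[ℝ] (ι → ℝ)) (p : ℕ)
    (hp : 0 < p) (hT : T ^ p = 1) (hTf : ∀ x, f (T x) = f x) (z : ι → ℝ) (hz : T z = z)
    (hadm : ∀ v, fderiv ℝ (fderiv ℝ f) z v = 0 → T v = v) :
    ∃ ρ > 0, ∀ y ∈ Metric.ball z ρ, T y = y →
      (∀ v, T v = v → (∀ u, T u = u → fderiv ℝ (fderiv ℝ f) y v u = 0) → v = 0) →
      ∀ v, fderiv ℝ (fderiv ℝ f) y v = 0 → v = 0 := by
  have hcont : Continuous (fderiv ℝ (fderiv ℝ f)) :=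
    (hf.fderiv_right (m := 1) (by norm_num)).continuous_fderiv (by norm_num)
  have hPP : ∀ v, EqB_P T p (EqB_P T p v) = EqB_P T p v := fun v =>
    EqB_Pfix T p hp _ (EqB_TP T p hT v)
  let C : ((ι → ℝ) →L[ℝ] ℝ) →L[ℝ] ((ι → ℝ) →L[ℝ] ℝ) :=
    (ContinuousLinearMap.compL ℝ (ι → ℝ) (ι → ℝ) ℝ).flip
      (ContinuousLinearMap.id ℝ (ι → ℝ) - EqB_P T p)
  let A : (ι → ℝ) → ((ι → ℝ) →L[ℝ] (ι → ℝ) →L[ℝ] ℝ) := fun y =>
    C.comp (fderiv ℝ (fderiv ℝ f) y) + EqB_S (EqB_P T p)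
  have hA : ∀ y v u, A y v u =
      fderiv ℝ (fderiv ℝ f) y v (u - EqB_P T p u) + EqB_S (EqB_P T p) v u := by
    intro y v u
    rfl
  have hAc : Continuous A := (continuous_const.clm_comp hcont).add continuous_const
  have hAz : Function.Injective (A z) := by
    intro v w hvw
    rw [← sub_eq_zero]
    have h0 : A z (v - w) = 0 := by
      rw [map_sub, hvw, sub_self]
    generalize v - w = x at h0
    have h1 : EqB_P T p x = 0 := by
      apply EqB_S_zero (EqB_P T p) x (EqB_P T p x) (hPP x)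
      have h2 := hA z x (EqB_P T p x)
      rw [h0, hPP, sub_self] at h2
      simpa using h2.symm
    have h3 : ∀ u, fderiv ℝ (fderiv ℝ f) z x u = 0 := by
      intro u
      have h4 := hA z x u
      rw [h0, EqB_S_apply, h1] at h4
      have h5 : fderiv ℝ (fderiv ℝ f) z x (u - EqB_P T p u) = 0 := by
        simpa using h4.symm
      have h6 := (EqB_orth f hf T p hp hTf z hz (EqB_P T p u) x (EqB_TP T p hT u)).1
      rw [h1] at h6
      rw [map_sub, ← h6] at h5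
      simpa using h5
    have h7 := EqB_Pfix T p hp x (hadm x (ContinuousLinearMap.ext h3))
    rw [← h7, h1]
  have hopen : IsOpen {y | Function.Injective (A y)} :=
    (ContinuousLinearMap.isOpen_injective (𝕜 := ℝ) (E := ι → ℝ)
      (F := (ι → ℝ) →L[ℝ] ℝ)).preimage hAc
  obtain ⟨ρ, hρ, hball⟩ := Metric.isOpen_iff.1 hopen z hAz
  refine ⟨ρ, hρ, ?_⟩
  intro y hy hTy hnd v hv
  have hinj : Function.Injective (A y) := hball hy
  have h1 : EqB_P T p v = 0 := by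
    apply hnd _ (EqB_TP T p hT v)
    intro u hu
    rw [(EqB_orth f hf T p hp hTf y hTy u v hu).1, hv]
    rfl
  apply hinj
  rw [map_zero]
  apply ContinuousLinearMap.ext
  intro u
  rw [hA, hv, EqB_S_apply, h1]
  simp

/-- At a fixed point, the derivative of an invariant function vanishes if its restriction to the
fixed space vanishes. -/
theorem deriv_fixed (g : (ι → ℝ) → ℝ) (hg : ContDiff ℝ 2 g) (T : (ι → ℝ) →ₗ[ℝ] (ι → ℝ)) (p : ℕ)
    (hp : 0 < p) (hT : T ^ p = 1) (hTg : ∀ x, g (T x) = g x) (y : ι → ℝ) (hy : T y = y)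
    (h : ∀ u, T u = u → fderiv ℝ g y u = 0) : fderiv ℝ g y = 0 := by
  apply ContinuousLinearMap.ext
  intro u
  have h1 := EqB_Pavg T p hp (fderiv ℝ g y).toLinearMap (by
    intro w
    show fderiv ℝ g y (T w) = fderiv ℝ g y w
    have h2 := EqB_fd g hg T hTg y w
    rw [hy] at h2
    exact h2) u
  have h3 : fderiv ℝ g y (EqB_P T p u) = fderiv ℝ g y u := h1
  rw [← h3, h _ (EqB_TP T p hT u)]
  rfl

/-- An invariant bump function. -/
theorem exists_bump (T : (ι → ℝ) →ₗ[ℝ] (ι → ℝ)) (p : ℕ) (hp : 0 < p) (hT : T ^ p = 1) (z : ι → ℝ)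
    (hz : T z = z) (r : ℝ) (hr : 0 < r) :
    ∃ χ : (ι → ℝ) → ℝ, ContDiff ℝ 2 χ ∧ (∀ x, χ (T x) = χ x) ∧
      (∀ x, x ∉ Metric.closedBall z r → χ x = 0) ∧ ∀ᶠ x in nhds z, χ x = 1 := by
  let q : (ι → ℝ) → ℝ := fun x => ∑ j ∈ Finset.range p, ∑ i, ((T ^ j) (x - z) i) ^ 2
  have hq : ContDiff ℝ 2 q := by
    apply ContDiff.sum
    intro j _
    apply ContDiff.sum
    intro i _
    have h1 : ContDiff ℝ 2 fun x : ι → ℝ => (LinearMap.toContinuousLinearMap (T ^ j)) (x - z) :=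
      (LinearMap.toContinuousLinearMap (T ^ j)).contDiff.comp (contDiff_id.sub contDiff_const)
    exact ((contDiff_pi.1 h1) i).pow 2
  have hqT : ∀ x, q (T x) = q x := by
    intro x
    have h1 : ∀ j, ∑ i, ((T ^ j) (T x - z) i) ^ 2 = ∑ i, ((T ^ (j + 1)) (x - z) i) ^ 2 := by
      intro j
      have h2 : T x - z = T (x - z) := by rw [map_sub, hz]
      rw [h2, pow_succ, Module.End.mul_apply]
    show ∑ j ∈ Finset.range p, ∑ i, ((T ^ j) (T x - z) i) ^ 2 =
      ∑ j ∈ Finset.range p, ∑ i, ((T ^ j) (x - z) i) ^ 2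
    rw [Finset.sum_congr rfl (fun j _ => h1 j)]
    have h3 := Finset.sum_range_succ (fun j => ∑ i, ((T ^ j) (x - z) i) ^ 2) p
    have h4 := Finset.sum_range_succ' (fun j => ∑ i, ((T ^ j) (x - z) i) ^ 2) p
    rw [h3, hT, pow_zero] at h4
    linarith
  have hq0 : q z = 0 := by
    show ∑ j ∈ Finset.range p, ∑ i, ((T ^ j) (z - z) i) ^ 2 = 0
    rw [sub_self]
    simp
  have hqn : ∀ x, ‖x - z‖ ^ 2 ≤ q x := by
    intro x
    have h1 : ∑ i, ((x - z) i) ^ 2 ≤ q x := by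
      have h2 : ∑ i, ((T ^ 0) (x - z) i) ^ 2 ≤ q x :=
        Finset.single_le_sum (f := fun j => ∑ i, ((T ^ j) (x - z) i) ^ 2)
          (fun j _ => Finset.sum_nonneg fun i _ => sq_nonneg _) (Finset.mem_range.2 hp)
      exact h2
    have h3 : 0 ≤ q x := le_trans (Finset.sum_nonneg fun i _ => sq_nonneg _) h1
    have h4 : ‖x - z‖ ≤ Real.sqrt (q x) := by
      rw [pi_norm_le_iff_of_nonneg (Real.sqrt_nonneg _)]
      intro i
      apply Real.le_sqrt_of_sq_le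
      rw [Real.norm_eq_abs, sq_abs]
      exact le_trans (Finset.single_le_sum (f := fun i => ((x - z) i) ^ 2)
        (fun i _ => sq_nonneg _) (Finset.mem_univ i)) h1
    calc ‖x - z‖ ^ 2 ≤ (Real.sqrt (q x)) ^ 2 := by gcongr
      _ = q x := Real.sq_sqrt h3
  refine ⟨fun x => Real.smoothTransition (2 - 2 * q x / r ^ 2), ?_, ?_, ?_, ?_⟩
  · exact Real.smoothTransition.contDiff.comp
      (contDiff_const.sub ((contDiff_const.mul hq).div_const _))
  · intro x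
    show Real.smoothTransition (2 - 2 * q (T x) / r ^ 2) = _
    rw [hqT]
  · intro x hx
    apply Real.smoothTransition.zero_of_nonpos
    have h1 : r < ‖x - z‖ := by
      rw [Metric.mem_closedBall, dist_eq_norm, not_le] at hx
      exact hx
    have h2 : r ^ 2 ≤ q x := le_trans (by gcongr) (hqn x)
    have h3 : 2 ≤ 2 * q x / r ^ 2 := by
      rw [le_div_iff₀ (by positivity)]
      linarith
    linarith
  · have h1 : Continuous fun x => 2 - 2 * q x / r ^ 2 :=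
      continuous_const.sub ((continuous_const.mul hq.continuous).div_const _)
    have h2 : (1 : ℝ) < 2 - 2 * q z / r ^ 2 := by
      rw [hq0]
      norm_num
    filter_upwards [h1.continuousAt.eventually_const_lt h2] with x hx
    exact Real.smoothTransition.one_of_one_le hx.le

end Pool.Agent.H47.QG
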