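import Pool.Agent.H47.QG.SardV
import Pool.Agent.H47.QG.IdxS

/-!
# Perturbation near an isolated critical point
-/

set_option autoImplicit false

open Module QuadraticForm

namespace Pool.Agent.H47.QG

section Sard

variable {ι : Type*} [Fintype ι] [DecidableEq ι]

/-- coordinates of a covector -/
noncomputable def SardP (ι : Type*) [Fintype ι] [DecidableEq ι] :
    ((ι → ℝ) →L[ℝ] ℝ) →L[ℝ] (ι → ℝ) :=
  ContinuousLinearMap.pi fun i => ContinuousLinearMap.apply ℝ ℝ (Pi.single i (1 : ℝ))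

theorem Sard_P_apply (L : (ι → ℝ) →L[ℝ] ℝ) (i : ι) : SardP ι L i = L (Pi.single i 1) := rfl

theorem Sard_P_inj {L L' : (ι → ℝ) →L[ℝ] ℝ} (h : SardP ι L = SardP ι L') : L = L' := by
  apply ContinuousLinearMap.coe_injective
  apply LinearMap.pi_ext'
  intro i
  ext
  exact congrFun h i

/-- the covector with given coordinates -/
noncomputable def SardL (a : ι → ℝ) : (ι → ℝ) →L[ℝ] ℝ :=
  ∑ i, a i • (ContinuousLinearMap.proj i : (ι → ℝ) →L[ℝ] ℝ)

omit [DecidableEq ι] in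
theorem Sard_L_apply (a v : ι → ℝ) : SardL a v = ∑ i, a i * v i := by
  unfold SardL
  rw [_root_.sum_apply]
  rfl

theorem Sard_P_L (a : ι → ℝ) : SardP ι (SardL a) = a := by
  ext i
  rw [Sard_P_apply, Sard_L_apply]
  simp [Pi.single_apply]

omit [DecidableEq ι] in
theorem Sard_L_norm (a : ι → ℝ) : ‖SardL a‖ ≤ Fintype.card ι * ‖a‖ := by
  apply ContinuousLinearMap.opNorm_le_bound _ (by positivity)
  intro v
  rw [Sard_L_apply, Real.norm_eq_abs]
  calc |∑ i, a i * v i| ≤ ∑ i, |a i * v i| := Finset.abs_sum_le_sum_abs _ _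
    _ ≤ ∑ _i : ι, ‖a‖ * ‖v‖ := by
        apply Finset.sum_le_sum
        intro i _
        rw [abs_mul]
        have h1 : |a i| ≤ ‖a‖ := norm_le_pi_norm a i
        have h2 : |v i| ≤ ‖v‖ := norm_le_pi_norm v i
        gcongr
    _ = Fintype.card ι * ‖a‖ * ‖v‖ := by
        rw [Finset.sum_const, Finset.card_univ, nsmul_eq_mul, mul_assoc]

/-- the gradient map -/
noncomputable def SardG (f : (ι → ℝ) → ℝ) (x : ι → ℝ) : ι → ℝ := SardP ι (fderiv ℝ f x)

omit [DecidableEq ι] in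
theorem Sard_contDiff_fderiv {f : (ι → ℝ) → ℝ} (hf : ContDiff ℝ 2 f) :
    ContDiff ℝ 1 (fderiv ℝ f) := hf.fderiv_right (m := 1) (by norm_num)

theorem Sard_contDiff_G {f : (ι → ℝ) → ℝ} (hf : ContDiff ℝ 2 f) : ContDiff ℝ 1 (SardG f) :=
  (SardP ι).contDiff.comp (Sard_contDiff_fderiv hf)

theorem Sard_hasFDerivAt_G {f : (ι → ℝ) → ℝ} (hf : ContDiff ℝ 2 f) (x : ι → ℝ) :
    HasFDerivAt (SardG f) ((SardP ι).comp (fderiv ℝ (fderiv ℝ f) x)) x :=
  (SardP ι).hasFDerivAt.comp x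
    ((Sard_contDiff_fderiv hf).differentiable one_ne_zero x).hasFDerivAt

theorem Sard_inj {f : (ι → ℝ) → ℝ} (hf : ContDiff ℝ 2 f) {x : ι → ℝ}
    (hdet : (fderiv ℝ (SardG f) x).det ≠ 0) :
    Function.Injective ((SardP ι).comp (fderiv ℝ (fderiv ℝ f) x)) := by
  rw [(Sard_hasFDerivAt_G hf x).fderiv] at hdet
  have h1 : LinearMap.ker (((SardP ι).comp (fderiv ℝ (fderiv ℝ f) x) :
      (ι → ℝ) →L[ℝ] (ι → ℝ)) : (ι → ℝ) →ₗ[ℝ] (ι → ℝ)) = ⊥ := by
    by_contra h
    exact hdet (LinearMap.det_eq_zero_iff_ker_ne_bot.2 h)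
  exact LinearMap.ker_eq_bot.1 h1

/-- level sets of the gradient at regular values are discrete -/
theorem Sard_isolated {f : (ι → ℝ) → ℝ} (hf : ContDiff ℝ 2 f) {x : ι → ℝ}
    (hdet : (fderiv ℝ (SardG f) x).det ≠ 0) (a : ι → ℝ) :
    ∀ᶠ y in nhdsWithin x {x}ᶜ, SardG f y ≠ a := by
  apply (Sard_hasFDerivAt_G hf x).eventually_ne
  have h := Sard_inj hf hdet
  obtain ⟨K, _, hK⟩ := LinearMap.exists_antilipschitzWith
    (((SardP ι).comp (fderiv ℝ (fderiv ℝ f) x) :
      (ι → ℝ) →L[ℝ] (ι → ℝ)) : (ι → ℝ) →ₗ[ℝ] (ι → ℝ)) (LinearMap.ker_eq_bot.2 h)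
  exact ⟨K, hK⟩

theorem Sard_finite {f : (ι → ℝ) → ℝ} (hf : ContDiff ℝ 2 f) {a : ι → ℝ}
    (ha : ∀ x, SardG f x = a → (fderiv ℝ (SardG f) x).det ≠ 0) {K : Set (ι → ℝ)}
    (hK : IsCompact K) : {y | y ∈ K ∧ SardG f y = a}.Finite := by
  by_contra h
  have hinf : {y | y ∈ K ∧ SardG f y = a}.Infinite := h
  obtain ⟨x, hxK, hx⟩ := hinf.exists_accPt_of_subset_isCompact hK (fun y hy => hy.1)
  have hcl : IsClosed {y | SardG f y = a} :=
    isClosed_singleton.preimage (Sard_contDiff_G hf).continuous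
  have hxa : SardG f x = a := by
    have h1 : AccPt x (Filter.principal {y | SardG f y = a}) :=
      hx.mono (Filter.principal_mono.2 fun y hy => hy.2)
    exact hcl.closure_subset_iff.2 (le_refl _) (mem_closure_iff_clusterPt.2 h1.clusterPt)
  have h2 := Sard_isolated hf (ha x hxa) a
  rw [accPt_iff_frequently] at hx
  apply hx
  rw [eventually_nhdsWithin_iff] at h2
  filter_upwards [h2] with y hy hcon
  exact hy hcon.1 hcon.2.2

/-- nondegeneracy -/
theorem Sard_nd {f : (ι → ℝ) → ℝ} (hf : ContDiff ℝ 2 f) {x : ι → ℝ}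
    (hdet : (fderiv ℝ (SardG f) x).det ≠ 0) :
    sigNeg (hess f x) + sigPos (hess f x) = Fintype.card ι := by
  have h1 := sigPos_add_sigNeg_add_radical (Q := hess f x)
  have h2 : (hess f x).radical = ⊥ := by
    rw [eq_bot_iff]
    intro v hv
    rw [Submodule.mem_bot]
    have hsym : ∀ v w, fderiv ℝ (fderiv ℝ f) x v w = fderiv ℝ (fderiv ℝ f) x w v := by
      have h := (hf.contDiffAt (x := x)).isSymmSndFDerivAt
        (by rw [minSmoothness_of_isRCLikeNormedField])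
      exact fun v w => h v w
    rw [QuadraticMap.mem_radical_iff'] at hv
    have h3 : ∀ w, fderiv ℝ (fderiv ℝ f) x v w = 0 := by
      intro w
      have h4 := hv.2 w
      have h5 := hv.1
      simp only [hess_apply, map_add, _root_.add_apply] at h4 h5
      have h6 := hsym v w
      linarith
    apply Sard_inj hf hdet
    have h7 : fderiv ℝ (fderiv ℝ f) x v = 0 := ContinuousLinearMap.ext h3
    simp [h7]
  rw [h2, finrank_bot, Module.finrank_fintype_fun_eq_card] at h1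
  omega

omit [DecidableEq ι] in
/-- the Hessian depends on the germ -/
theorem Sard_hess_sub {f g : (ι → ℝ) → ℝ} {x : ι → ℝ} {L : (ι → ℝ) →L[ℝ] ℝ}
    (h : ∀ᶠ y in nhds x, fderiv ℝ g y = fderiv ℝ f y - L) : hess g x = hess f x := by
  have h1 : fderiv ℝ (fderiv ℝ g) x = fderiv ℝ (fderiv ℝ f) x := by
    have h2 : fderiv ℝ g =ᶠ[nhds x] fun y => fderiv ℝ f y - L := h
    rw [h2.fderiv_eq, fderiv_sub_const]
  ext v
  rw [hess_apply, hess_apply, h1]

/-- continuity of the Hessian -/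
theorem Sard_hess_cont {E : Type*} [NormedAddCommGroup E] [NormedSpace ℝ E] {f : E → ℝ}
    (hf : ContDiff ℝ 2 f) (z : E) (δ : ℝ) (hδ : 0 < δ) :
    ∃ ρ > 0, ∀ y, dist y z < ρ → ∀ v, |hess f y v - hess f z v| ≤ δ * ‖v‖ ^ 2 := by
  have hc : Continuous (fderiv ℝ (fderiv ℝ f)) :=
    (hf.fderiv_right (m := 1) (by norm_num)).continuous_fderiv one_ne_zero
  have hc2 := @Metric.continuous_iff E (E →L[ℝ] E →L[ℝ] ℝ) _ _ (fderiv ℝ (fderiv ℝ f))
  obtain ⟨ρ, hρ, h⟩ := hc2.1 hc z δ hδ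
  refine ⟨ρ, hρ, fun y hy v => ?_⟩
  have h1 : ‖fderiv ℝ (fderiv ℝ f) y - fderiv ℝ (fderiv ℝ f) z‖ < δ :=
    lt_of_eq_of_lt (@dist_eq_norm (E →L[ℝ] E →L[ℝ] ℝ) _ _ _).symm (h y hy)
  rw [hess_apply, hess_apply]
  have h2 : fderiv ℝ (fderiv ℝ f) y v v - fderiv ℝ (fderiv ℝ f) z v v =
      (fderiv ℝ (fderiv ℝ f) y - fderiv ℝ (fderiv ℝ f) z) v v := rfl
  rw [h2, ← Real.norm_eq_abs]
  calc ‖(fderiv ℝ (fderiv ℝ f) y - fderiv ℝ (fderiv ℝ f) z) v v‖
      ≤ ‖fderiv ℝ (fderiv ℝ f) y - fderiv ℝ (fderiv ℝ f) z‖ * ‖v‖ * ‖v‖ :=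
        ContinuousLinearMap.le_opNorm₂ _ _ _
    _ ≤ δ * ‖v‖ * ‖v‖ := by gcongr
    _ = δ * ‖v‖ ^ 2 := by ring

omit [DecidableEq ι] in
/-- the derivative of the perturbed function -/
theorem Sard_fderiv {f χ : (ι → ℝ) → ℝ} (hf : ContDiff ℝ 2 f) (hχ : ContDiff ℝ 2 χ)
    (z a y : ι → ℝ) :
    fderiv ℝ (fun x => f x - χ x * SardL a (x - z)) y =
      fderiv ℝ f y - (χ y • SardL a + SardL a (y - z) • fderiv ℝ χ y) := by
  have h1 : HasFDerivAt f (fderiv ℝ f y) y := (hf.differentiable two_ne_zero y).hasFDerivAt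
  have h2 : HasFDerivAt χ (fderiv ℝ χ y) y := (hχ.differentiable two_ne_zero y).hasFDerivAt
  have h3 : HasFDerivAt (fun x => SardL a (x - z)) (SardL a) y := by
    have h4 := (SardL a).hasFDerivAt.comp y ((hasFDerivAt_id y).sub_const z)
    rwa [ContinuousLinearMap.comp_id] at h4
  exact (h1.sub (h2.mul h3)).fderiv

end Sard

/-- **Perturbation.** An isolated critical point `z` of a `C^2` function can be perturbed to
finitely many nondegenerate ones, by a `C^2` function supported in a small ball, with indices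
between `index` and `index + nullity` of `z`. -/
theorem perturb {ι : Type*} [Fintype ι] [DecidableEq ι] (f : (ι → ℝ) → ℝ) (hf : ContDiff ℝ 2 f)
    (z : ι → ℝ) (r : ℝ) (hr : 0 < r)
    (hz : ∀ x ∈ Metric.closedBall z r, fderiv ℝ f x = 0 → x = z) :
    ∃ (g : (ι → ℝ) → ℝ) (X : Finset (ι → ℝ)), LD f z r g X := by
  by_cases hcrit : fderiv ℝ f z = 0
  swap
  · refine ⟨f, ∅, hf, fun _ _ => rfl, fun y hy => ⟨fun h => ?_, fun h => ?_⟩, ?_, ?_, ?_, ?_⟩
    · rw [hz y hy h] at h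
      exact absurd h hcrit
    · simp at h
    all_goals simp
  obtain ⟨δ, hδ, hsemi⟩ := sigNeg_semicont (hess f z)
  obtain ⟨ρ₀, hρ₀, hcont⟩ := Sard_hess_cont hf z δ hδ
  -- the radius
  let ρ : ℝ := min ρ₀ (r / 8)
  have hρ : 0 < ρ := lt_min hρ₀ (by linarith)
  have hρ1 : ρ ≤ ρ₀ := min_le_left _ _
  have hρ2 : ρ ≤ r / 8 := min_le_right _ _
  -- cut-off function
  let χ : ContDiffBump z := ⟨r / 8, r / 4, by linarith, by linarith⟩
  have hχ : ContDiff ℝ 2 (χ : (ι → ℝ) → ℝ) := χ.contDiff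
  obtain ⟨C, hC⟩ := (isCompact_closedBall z r).exists_bound_of_continuousOn
    (hχ.continuous_fderiv two_ne_zero).continuousOn
  have hC0 : 0 ≤ C := (norm_nonneg _).trans (hC z (Metric.mem_closedBall_self hr.le))
  -- the lower bound on the shell
  obtain ⟨c, hc, hshell⟩ : ∃ c > 0, ∀ y ∈ Metric.closedBall z r, ρ ≤ dist y z →
      c ≤ ‖fderiv ℝ f y‖ := by
    let K : Set (ι → ℝ) := {y | y ∈ Metric.closedBall z r ∧ ρ ≤ dist y z}
    have hK : IsCompact K := (isCompact_closedBall z r).inter_right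
      (isClosed_le continuous_const (continuous_id.dist continuous_const))
    rcases K.eq_empty_or_nonempty with hE | hE
    · refine ⟨1, one_pos, fun y hy1 hy2 => ?_⟩
      have h1 : y ∈ K := ⟨hy1, hy2⟩
      rw [hE] at h1
      exact absurd h1 (Set.notMem_empty y)
    · obtain ⟨y₀, hy₀, hmin⟩ := hK.exists_isMinOn hE
        ((hf.continuous_fderiv two_ne_zero).norm.continuousOn)
      refine ⟨‖fderiv ℝ f y₀‖, ?_, fun y hy1 hy2 => hmin (a := y) ⟨hy1, hy2⟩⟩
      rw [gt_iff_lt, norm_pos_iff]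
      intro h0
      have h1 := hz y₀ hy₀.1 h0
      have h2 := hy₀.2
      rw [h1, dist_self] at h2
      linarith
  -- the regular value
  let D : ℝ := Fintype.card ι * (1 + r * C) + 1
  have hD : 0 < D := by positivity
  obtain ⟨a, ha1, ha2⟩ := exists_regular_value (SardG f) (Sard_contDiff_G hf) (c / D)
    (div_pos hc hD)
  have hal : ‖SardL a‖ * (1 + r * C) < c := by
    have h1 := Sard_L_norm a
    have h2 : (Fintype.card ι : ℝ) * (1 + r * C) * ‖a‖ ≤ D * ‖a‖ := by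
      have : (Fintype.card ι : ℝ) * (1 + r * C) ≤ D := by simp only [D]; linarith
      exact mul_le_mul_of_nonneg_right this (norm_nonneg a)
    have h3 : D * ‖a‖ < c := by
      rw [lt_div_iff₀ hD] at ha1
      linarith
    have h4 : ‖SardL a‖ * (1 + r * C) ≤ Fintype.card ι * ‖a‖ * (1 + r * C) :=
      mul_le_mul_of_nonneg_right h1 (by positivity)
    calc ‖SardL a‖ * (1 + r * C) ≤ Fintype.card ι * ‖a‖ * (1 + r * C) := h4
      _ = Fintype.card ι * (1 + r * C) * ‖a‖ := by ring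
      _ ≤ D * ‖a‖ := h2
      _ < c := h3
  let g : (ι → ℝ) → ℝ := fun x => f x - χ x * SardL a (x - z)
  have hg : ContDiff ℝ 2 g := by
    refine hf.sub (hχ.mul ?_)
    exact (SardL a).contDiff.comp (contDiff_id.sub contDiff_const)
  have hgd : ∀ y, fderiv ℝ g y =
      fderiv ℝ f y - (χ y • SardL a + SardL a (y - z) • fderiv ℝ χ y) :=
    Sard_fderiv hf hχ z a
  -- outside
  have hout : ∀ y ∈ Metric.closedBall z r, ρ ≤ dist y z → fderiv ℝ g y ≠ 0 := by
    intro y hy hy2 h0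
    rw [hgd, sub_eq_zero] at h0
    have h1 := hshell y hy hy2
    rw [h0] at h1
    have h2 : ‖χ y • SardL a + SardL a (y - z) • fderiv ℝ χ y‖ ≤ ‖SardL a‖ * (1 + r * C) := by
      refine (norm_add_le _ _).trans ?_
      rw [norm_smul, norm_smul]
      have h3 : ‖χ y‖ ≤ 1 := by
        rw [Real.norm_eq_abs, abs_of_nonneg χ.nonneg]
        exact χ.le_one
      have h4 : ‖SardL a (y - z)‖ ≤ ‖SardL a‖ * r := by
        refine ((SardL a).le_opNorm _).trans ?_
        rw [Metric.mem_closedBall, dist_eq_norm] at hy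
        gcongr
      have h5 := hC y hy
      calc ‖χ y‖ * ‖SardL a‖ + ‖SardL a (y - z)‖ * ‖fderiv ℝ χ y‖
          ≤ 1 * ‖SardL a‖ + (‖SardL a‖ * r) * C := by gcongr
        _ = ‖SardL a‖ * (1 + r * C) := by ring
    linarith
  -- inside
  have hin : ∀ y ∈ Metric.ball z ρ, fderiv ℝ g y = fderiv ℝ f y - SardL a := by
    intro y hy
    have h1 : (χ : (ι → ℝ) → ℝ) =ᶠ[nhds y] fun _ => (1 : ℝ) := by
      filter_upwards [Metric.isOpen_ball.mem_nhds hy] with w hw
      apply χ.one_of_mem_closedBall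
      rw [Metric.mem_ball] at hw
      rw [Metric.mem_closedBall]
      exact hw.le.trans hρ2
    have h2 : χ y = 1 := h1.self_of_nhds
    rw [hgd, h1.fderiv_eq, h2, fderiv_const_apply, one_smul, smul_zero, add_zero]
  have hhess : ∀ y ∈ Metric.ball z ρ, hess g y = hess f y := by
    intro y hy
    apply Sard_hess_sub (L := SardL a)
    filter_upwards [Metric.isOpen_ball.mem_nhds hy] with w hw
    exact hin w hw
  have hfin := Sard_finite hf ha2 (isCompact_closedBall z r)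
  have hX : {y | y ∈ Metric.ball z ρ ∧ SardG f y = a}.Finite := by
    apply hfin.subset
    intro y hy
    refine ⟨?_, hy.2⟩
    have h1 := hy.1
    rw [Metric.mem_ball] at h1
    rw [Metric.mem_closedBall]
    linarith
  have hmem : ∀ y, y ∈ hX.toFinset ↔ y ∈ Metric.ball z ρ ∧ SardG f y = a := by
    intro y
    rw [Set.Finite.mem_toFinset]
    rfl
  have hlo : ∀ y ∈ Metric.ball z ρ, sigNeg (hess f z) ≤ sigNeg (hess g y) ∧
      sigPos (hess f z) ≤ sigPos (hess g y) := by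
    intro y hy
    rw [hhess y hy]
    apply hsemi
    apply hcont
    rw [Metric.mem_ball] at hy
    linarith
  have hnd : ∀ y ∈ hX.toFinset, sigNeg (hess g y) + sigPos (hess g y) = Fintype.card ι := by
    intro y hy
    rw [hmem] at hy
    rw [hhess y hy.1]
    exact Sard_nd hf (ha2 y hy.2)
  refine ⟨g, hX.toFinset, hg, ?_, ?_, ?_, hnd, ?_, ?_⟩
  · intro y hy
    have h1 : χ y = 0 := by
      apply χ.zero_of_le_dist
      rw [Metric.mem_closedBall, not_le] at hy
      change r / 4 ≤ dist y z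
      linarith
    simp only [g]
    rw [h1, zero_mul, sub_zero]
  · intro y hy
    rw [hmem]
    constructor
    · intro h0
      have h1 : y ∈ Metric.ball z ρ := by
        by_contra h
        rw [Metric.mem_ball, not_lt] at h
        exact hout y hy h h0
      refine ⟨h1, ?_⟩
      rw [hin y h1, sub_eq_zero] at h0
      unfold SardG
      rw [h0, Sard_P_L]
    · rintro ⟨h1, h2⟩
      rw [hin y h1, sub_eq_zero]
      apply Sard_P_inj
      rw [Sard_P_L]
      exact h2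
  · intro y hy
    rw [hmem] at hy
    have h1 := hy.1
    rw [Metric.mem_ball] at h1 ⊢
    linarith
  · intro y hy
    exact (hlo y ((hmem y).1 hy).1).1
  · intro y hy
    have h1 := hnd y hy
    have h2 := (hlo y ((hmem y).1 hy).1).2
    omega

end Pool.Agent.H47.QG
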