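import Pool.Agent.H47.QG.EmL
import Pool.Agent.H47.QG.Sard

/-!
# The equivariant step
-/

set_option autoImplicit false
set_option linter.unusedSectionVars false

open Module QuadraticForm

namespace Pool.Agent.H47.QG

variable {ι : Type*} [Fintype ι] [DecidableEq ι]

/-- The lattice of integer translations of the circle coordinates. -/
def Lat (kd : ι → Kind) : AddSubgroup (ι → ℝ) where
  carrier := {e | ∀ i, (kd i = Kind.th → ∃ k : ℤ, e i = k) ∧ (kd i ≠ Kind.th → e i = 0)}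
  zero_mem' i := ⟨fun _ => ⟨0, by simp⟩, fun _ => rfl⟩
  add_mem' {a b} ha hb i := by
    refine ⟨fun h => ?_, fun h => ?_⟩
    · obtain ⟨k, hk⟩ := (ha i).1 h
      obtain ⟨l, hl⟩ := (hb i).1 h
      exact ⟨k + l, by rw [Pi.add_apply, hk, hl]; push_cast; ring⟩
    · rw [Pi.add_apply, (ha i).2 h, (hb i).2 h, add_zero]
  neg_mem' {a} ha i := by
    refine ⟨fun h => ?_, fun h => ?_⟩
    · obtain ⟨k, hk⟩ := (ha i).1 h
      exact ⟨-k, by rw [Pi.neg_apply, hk]; push_cast; ring⟩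
    · rw [Pi.neg_apply, (ha i).2 h, neg_zero]

/-- invariance under translations by lattice vectors -/
theorem em_per {kd : ι → Kind} {g : (ι → ℝ) → ℝ} (h : Per kd g) {e : ι → ℝ} (he : e ∈ Lat kd)
    (x : ι → ℝ) : g (x + e) = g x := by
  let P : AddSubgroup (ι → ℝ) :=
    { carrier := {e | ∀ x, g (x + e) = g x}
      zero_mem' := fun x => by simp
      add_mem' := fun {a b} ha hb x => by rw [← add_assoc, hb, ha]
      neg_mem' := fun {a} ha x => by rw [← ha (x + -a)]; simp }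
  have hs : e ∈ P := by
    rw [← Finset.univ_sum_single e]
    apply AddSubgroup.sum_mem
    intro i _
    by_cases hi : kd i = Kind.th
    · obtain ⟨k, hk⟩ := (he i).1 hi
      have h1 : (Pi.single i (1 : ℝ) : ι → ℝ) ∈ P := fun x => h x i hi
      have h2 : (Pi.single i (e i) : ι → ℝ) = k • (Pi.single i (1 : ℝ) : ι → ℝ) := by
        rw [← Pi.single_smul, hk]
        simp
      rw [h2]
      exact P.zsmul_mem h1 k
    · rw [(he i).2 hi, Pi.single_zero]
      exact P.zero_mem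
  exact hs x

/-- vectors supported in the circle coordinates are fixed -/
theorem em_fix {kd : ι → Kind} {T : (ι → ℝ) →ₗ[ℝ] (ι → ℝ)}
    (hTe : ∀ i, kd i = Kind.th → T (Pi.single i 1) = Pi.single i 1) {e : ι → ℝ}
    (he : ∀ i, kd i ≠ Kind.th → e i = 0) : T e = e := by
  have h : e = ∑ i, e i • (Pi.single i (1 : ℝ) : ι → ℝ) := by
    conv_lhs => rw [← Finset.univ_sum_single e]
    refine Finset.sum_congr rfl fun i _ => ?_
    rw [← Pi.single_smul]
    simp
  conv_lhs => rw [h]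
  conv_rhs => rw [h]
  rw [map_sum]
  refine Finset.sum_congr rfl fun i _ => ?_
  rw [map_smul]
  by_cases hi : kd i = Kind.th
  · rw [hTe i hi]
  · rw [he i hi, zero_smul, zero_smul]

theorem em_pow_fix {T : (ι → ℝ) →ₗ[ℝ] (ι → ℝ)} {e : ι → ℝ} (he : T e = e) (j : ℕ) :
    (T ^ j) e = e := by
  induction j with
  | zero => simp
  | succ j ih => rw [pow_succ, Module.End.mul_apply, he, ih]

theorem em_lat_zero {kd : ι → Kind} {e : ι → ℝ} (he : e ∈ Lat kd) (i : ι)
    (hi : kd i ≠ Kind.th) : e i = 0 := (he i).2 hi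

/-- the powers of `T` as continuous linear equivalences -/
theorem em_lin (T : (ι → ℝ) →ₗ[ℝ] (ι → ℝ)) (p : ℕ) (hp : p.Prime) (hT : T ^ p = 1) (j : ℕ) :
    ∃ L : (ι → ℝ) ≃L[ℝ] (ι → ℝ), ∀ x, L x = (T ^ j) x := by
  have h1 : T ^ j * T ^ ((p - 1) * j) = 1 := by
    rw [← pow_add]
    have : j + (p - 1) * j = p * j := by
      have := hp.pos
      obtain ⟨q, rfl⟩ : ∃ q, p = q + 1 := ⟨p - 1, by omega⟩
      simp
      ring
    rw [this, pow_mul, hT, one_pow]
  have h2 : T ^ ((p - 1) * j) * T ^ j = 1 := by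
    rw [← pow_add, add_comm, pow_add, h1]
  refine ⟨(LinearEquiv.ofLinearMap (T ^ j) (T ^ ((p - 1) * j)) h1 h2).toContinuousLinearEquiv, ?_⟩
  intro x
  rfl

/-- composition with an invertible affine map: Hessians are equivalent -/
theorem em_hess_equiv {g : (ι → ℝ) → ℝ} (hg : ContDiff ℝ 2 g) (L : (ι → ℝ) ≃L[ℝ] (ι → ℝ))
    (b x : ι → ℝ) :
    QuadraticMap.Equivalent (hess (fun y => g (L y + b)) x) (hess g (L x + b)) := by
  refine ⟨⟨L.toLinearEquiv, ?_⟩⟩
  intro v
  exact (hess_comp g hg (L : (ι → ℝ) →L[ℝ] (ι → ℝ)) b x v).symm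

theorem em_sigNeg {g : (ι → ℝ) → ℝ} (hg : ContDiff ℝ 2 g) (L : (ι → ℝ) ≃L[ℝ] (ι → ℝ))
    (b x : ι → ℝ) :
    sigNeg (hess (fun y => g (L y + b)) x) = sigNeg (hess g (L x + b)) :=
  (em_hess_equiv hg L b x).sigNeg_eq

theorem em_sigPos {g : (ι → ℝ) → ℝ} (hg : ContDiff ℝ 2 g) (L : (ι → ℝ) ≃L[ℝ] (ι → ℝ))
    (b x : ι → ℝ) :
    sigPos (hess (fun y => g (L y + b)) x) = sigPos (hess g (L x + b)) :=
  (em_hess_equiv hg L b x).sigPos_eq

/-- critical points of a composition with an invertible affine map -/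
theorem em_crit {g : (ι → ℝ) → ℝ} (hg : ContDiff ℝ 2 g) (L : (ι → ℝ) ≃L[ℝ] (ι → ℝ))
    (b x : ι → ℝ) :
    fderiv ℝ (fun y => g (L y + b)) x = 0 ↔ fderiv ℝ g (L x + b) = 0 := by
  have hd : DifferentiableAt ℝ g (L x + b) := (hg.differentiable (by norm_num)) _
  have hA : HasFDerivAt (fun y => L y + b) (L : (ι → ℝ) →L[ℝ] (ι → ℝ)) x :=
    (L.hasFDerivAt).add_const b
  have hc : fderiv ℝ (fun y => g (L y + b)) x =
      (fderiv ℝ g (L x + b)).comp (L : (ι → ℝ) →L[ℝ] (ι → ℝ)) :=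
    (hd.hasFDerivAt.comp x hA).fderiv
  rw [hc]
  constructor
  · intro h
    ext v
    have := congrArg (fun (M : (ι → ℝ) →L[ℝ] ℝ) => M (L.symm v)) h
    simpa using this
  · intro h
    rw [h]
    ext v
    simp

/-- the signed sum over a window -/
noncomputable def emSum (a₁ a₂ : ℕ) (g : (ι → ℝ) → ℝ) (X : Finset (ι → ℝ)) : ℤ :=
  ∑ y ∈ X.filter (fun y => a₁ ≤ sigNeg (hess g y) ∧ sigNeg (hess g y) < a₂),
    (-1 : ℤ) ^ sigNeg (hess g y)

/-- a translate by the inverse of an affine map -/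
theorem em_mem_image (L : (ι → ℝ) ≃L[ℝ] (ι → ℝ)) (b : ι → ℝ) (X : Finset (ι → ℝ)) (y : ι → ℝ) :
    y ∈ X.image (fun w => L.symm (w - b)) ↔ L y + b ∈ X := by
  rw [Finset.mem_image]
  constructor
  · rintro ⟨w, hw, rfl⟩
    simpa using hw
  · intro h
    exact ⟨_, h, by simp⟩

theorem em_sum_image (L : (ι → ℝ) ≃L[ℝ] (ι → ℝ)) (b : ι → ℝ) (X : Finset (ι → ℝ))
    (F : (ι → ℝ) → ℤ) :
    ∑ y ∈ X.image (fun w => L.symm (w - b)), F (L y + b) = ∑ y ∈ X, F y := by
  rw [Finset.sum_image]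
  · refine Finset.sum_congr rfl fun y _ => ?_
    simp
  · intro u _ v _ huv
    simpa using huv

/-- transport of the local data by an affine symmetry -/
theorem em_transport {f : (ι → ℝ) → ℝ} (hf : ContDiff ℝ 2 f) (L : (ι → ℝ) ≃L[ℝ] (ι → ℝ))
    (b z ρ : ι → ℝ) (hA : L z + b = ρ) (hfA : ∀ y, f (L y + b) = f y) (r r' : ℝ) (hr' : 0 < r')
    (hC : ‖(L.symm : (ι → ℝ) →L[ℝ] (ι → ℝ))‖ * r' < r)
    (hz : ∀ x ∈ Metric.closedBall z r, fderiv ℝ f x = 0 → x = z)
    {g : (ι → ℝ) → ℝ} {X : Finset (ι → ℝ)} (h : LD f ρ r' g X) (a₁ a₂ : ℕ) :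
    ∃ (U : Set (ι → ℝ)) (g' : (ι → ℝ) → ℝ) (X' : Finset (ι → ℝ)),
      (IsClosed U ∧ U ⊆ Metric.ball z r) ∧ ContDiff ℝ 2 g' ∧ (∀ y, y ∉ U → g' y = f y) ∧
      (∀ y ∈ Metric.closedBall z r, (fderiv ℝ g' y = 0 ↔ y ∈ X')) ∧
      (∀ y ∈ X', y ∈ Metric.ball z r) ∧
      (∀ y ∈ X', sigNeg (hess g' y) + sigPos (hess g' y) = Fintype.card ι ∧
        sigNeg (hess f z) ≤ sigNeg (hess g' y) ∧
        sigNeg (hess g' y) + sigPos (hess f z) ≤ Fintype.card ι) ∧
      emSum a₁ a₂ g' X' = emSum a₁ a₂ g X := by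
  have hLc : Continuous (fun y => L y + b) := by fun_prop
  have hUc : IsClosed ((fun y => L y + b) ⁻¹' Metric.closedBall ρ (r' / 2)) :=
    Metric.isClosed_closedBall.preimage hLc
  have hUb : (fun y => L y + b) ⁻¹' Metric.closedBall ρ (r' / 2) ⊆ Metric.ball z r := by
    intro y hy
    rw [Set.mem_preimage, Metric.mem_closedBall, dist_eq_norm] at hy
    rw [Metric.mem_ball, dist_eq_norm]
    have h1 : y - z = (L.symm : (ι → ℝ) →L[ℝ] (ι → ℝ)) (L y + b - ρ) := by
      rw [← hA]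
      have : L y + b - (L z + b) = L (y - z) := by rw [map_sub]; abel
      rw [this]
      simp
    rw [h1]
    have h2 := ContinuousLinearMap.le_opNorm (L.symm : (ι → ℝ) →L[ℝ] (ι → ℝ)) (L y + b - ρ)
    have h3 : ‖(L.symm : (ι → ℝ) →L[ℝ] (ι → ℝ))‖ * ‖L y + b - ρ‖ ≤
        ‖(L.symm : (ι → ℝ) →L[ℝ] (ι → ℝ))‖ * r' :=
      mul_le_mul_of_nonneg_left (by linarith) (norm_nonneg _)
    linarith
  have hcr : ∀ y, L y + b ∈ Metric.closedBall ρ (r' / 2) →
      L y + b ∈ Metric.closedBall ρ r' := fun y hy =>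
    Metric.closedBall_subset_closedBall (by linarith) hy
  have hfe : (fun y => f (L y + b)) = f := funext hfA
  refine ⟨_, fun y => g (L y + b), X.image (fun w => L.symm (w - b)), ⟨hUc, hUb⟩, ?_, ?_, ?_, ?_,
    ?_, ?_⟩
  · exact h.smooth.comp (L.contDiff.add contDiff_const)
  · intro y hy
    rw [← hfA y]
    exact h.eq _ hy
  · intro y hy
    rw [em_crit h.smooth, em_mem_image]
    by_cases hyU : L y + b ∈ Metric.closedBall ρ (r' / 2)
    · exact h.crit _ (hcr y hyU)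
    · constructor
      · intro h0
        exfalso
        have hev : g =ᶠ[nhds (L y + b)] f := by
          have : (Metric.closedBall ρ (r' / 2))ᶜ ∈ nhds (L y + b) :=
            Metric.isClosed_closedBall.isOpen_compl.mem_nhds hyU
          filter_upwards [this] with w hw
          exact h.eq w hw
        rw [hev.fderiv_eq, ← em_crit hf, hfe] at h0
        have hyz := hz y hy h0
        apply hyU
        rw [hyz, hA]
        exact Metric.mem_closedBall_self (by linarith)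
      · intro h0
        exact absurd (Metric.ball_subset_closedBall (h.mem _ h0)) hyU
  · intro y hy
    rw [em_mem_image] at hy
    exact hUb (Metric.ball_subset_closedBall (h.mem _ hy))
  · intro y hy
    rw [em_mem_image] at hy
    have e1 : sigNeg (hess f z) = sigNeg (hess f ρ) := by
      conv_lhs => rw [← hfe]
      rw [em_sigNeg hf, hA]
    have e2 : sigPos (hess f z) = sigPos (hess f ρ) := by
      conv_lhs => rw [← hfe]
      rw [em_sigPos hf, hA]
    rw [em_sigNeg h.smooth, em_sigPos h.smooth, e1, e2]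
    exact ⟨h.nd _ hy, h.lo _ hy, h.hi _ hy⟩
  · unfold emSum
    rw [Finset.sum_filter, Finset.sum_filter]
    rw [← em_sum_image L b X]
    refine Finset.sum_congr rfl fun y _ => ?_
    rw [em_sigNeg h.smooth]

/-- counting modulo `p` -/
theorem em_count {α : Type*} [Fintype α] [DecidableEq α] (p : ℕ) (hp : p.Prime) (σ : α → α)
    (hσ : ∀ x, σ^[p] x = x) (n : α → ℤ) (hn : ∀ x, n (σ x) = n x) :
    (p : ℤ) ∣ ∑ x, n x - ∑ x ∈ Finset.univ.filter (fun x => σ x = x), n x := by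
  classical
  have : Fact p.Prime := ⟨hp⟩
  have key : ∀ v : ℤ, (p : ℤ) ∣ ((Finset.univ.filter fun x => n x = v).card : ℤ) -
      ((Finset.univ.filter fun x => σ x = x ∧ n x = v).card : ℤ) := by
    intro v
    let β := {x : α // n x = v}
    let τ : Function.End β := fun x => ⟨σ x.1, by rw [hn]; exact x.2⟩
    have hτk : ∀ k : ℕ, ∀ x : β, ((τ ^ k) x).1 = σ^[k] x.1 := by
      intro k
      induction k with
      | zero => intro x; rfl
      | succ k ih =>
        intro x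
        rw [pow_succ']
        show σ ((τ ^ k) x).1 = _
        rw [ih, Function.iterate_succ_apply']
    have hτ : τ ^ p ^ 1 = 1 := by
      funext x
      apply Subtype.ext
      rw [pow_one, hτk, hσ]
      rfl
    have h1 := Equiv.Perm.card_fixedPoints_modEq (p := p) (n := 1) hτ
    have h2 : Fintype.card β = (Finset.univ.filter fun x => n x = v).card :=
      Fintype.card_subtype _
    have h3 : Fintype.card (Function.fixedPoints τ) =
        (Finset.univ.filter fun x => σ x = x ∧ n x = v).card := by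
      rw [← Fintype.card_subtype]
      refine Fintype.card_congr ⟨fun x => ⟨x.1.1, ?_, x.1.2⟩, fun x => ⟨⟨x.1, x.2.2⟩, ?_⟩, ?_, ?_⟩
      · have := x.2
        exact congrArg Subtype.val this
      · apply Subtype.ext
        exact x.2.1
      · intro x; rfl
      · intro x; rfl
    rw [← h2, ← h3]
    have := (Nat.modEq_iff_dvd.mp h1.symm)
    exact this
  have hs1 : ∑ x, n x = ∑ v ∈ Finset.univ.image n,
      ((Finset.univ.filter fun x => n x = v).card : ℤ) * v := by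
    rw [← Finset.sum_fiberwise_of_maps_to (g := n) (t := Finset.univ.image n)
      (fun x _ => Finset.mem_image_of_mem n (Finset.mem_univ x))]
    refine Finset.sum_congr rfl fun v _ => ?_
    rw [Finset.sum_congr rfl (g := fun _ => v) (fun x hx => (Finset.mem_filter.mp hx).2)]
    simp
  have hs2 : ∑ x ∈ Finset.univ.filter (fun x => σ x = x), n x = ∑ v ∈ Finset.univ.image n,
      ((Finset.univ.filter fun x => σ x = x ∧ n x = v).card : ℤ) * v := by
    rw [← Finset.sum_fiberwise_of_maps_to (g := n) (t := Finset.univ.image n)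
      (fun x _ => Finset.mem_image_of_mem n (Finset.mem_univ x))]
    refine Finset.sum_congr rfl fun v _ => ?_
    rw [Finset.sum_congr rfl (g := fun _ => v) (fun x hx => (Finset.mem_filter.mp hx).2),
      Finset.filter_filter]
    simp
  rw [hs1, hs2, ← Finset.sum_sub_distrib]
  apply Finset.dvd_sum
  intro v _
  rw [← sub_mul]
  exact Dvd.dvd.mul_right (key v) v

theorem em_window {f : (ι → ℝ) → ℝ} {z : ι → ℝ} {r : ℝ} {g : (ι → ℝ) → ℝ}
    {X : Finset (ι → ℝ)} (h : LD f z r g X) (a₁ a₂ : ℕ)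
    (ha₁ : a₁ = 0 ∨ ¬ (sigNeg (hess f z) ≤ a₁ ∧ a₁ + sigPos (hess f z) ≤ Fintype.card ι))
    (ha₂ : ¬ (sigNeg (hess f z) ≤ a₂ ∧ a₂ + sigPos (hess f z) ≤ Fintype.card ι)) :
    emSum a₁ a₂ g X = if a₁ ≤ sigNeg (hess f z) ∧ sigNeg (hess f z) < a₂ then
      ∑ y ∈ X, (-1 : ℤ) ^ sigNeg (hess g y) else 0 := by
  unfold emSum
  split_ifs with hw
  · rw [Finset.filter_true_of_mem]
    intro y hy
    have h1 := h.lo y hy
    have h2 := h.hi y hy
    constructor
    · omega
    · by_contra hcon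
      exact ha₂ ⟨by omega, by omega⟩
  · rw [Finset.filter_false_of_mem, Finset.sum_empty]
    intro y hy hcon
    have h1 := h.lo y hy
    have h2 := h.hi y hy
    apply hw
    constructor
    · rcases ha₁ with h0 | h0
      · omega
      · by_contra hlt
        exact h0 ⟨by omega, by omega⟩
    · omega

theorem em_unique {kd : ι → Kind} {x y : ι → ℝ}
    (hx : ∀ i, kd i = Kind.th → x i ∈ Set.Ico (0 : ℝ) 1)
    (hy : ∀ i, kd i = Kind.th → y i ∈ Set.Ico (0 : ℝ) 1) (h : x - y ∈ Lat kd) : x = y := by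
  funext i
  by_cases hi : kd i = Kind.th
  · obtain ⟨k, hk⟩ := (h i).1 hi
    rw [Pi.sub_apply] at hk
    have h1 := hx i hi
    have h2 := hy i hi
    have hk1 : (k : ℝ) < ((1 : ℤ) : ℝ) := by
      rw [← hk]
      push_cast
      linarith [h1.2, h2.1]
    have hk2 : ((-1 : ℤ) : ℝ) < (k : ℝ) := by
      rw [← hk]
      push_cast
      linarith [h1.1, h2.2]
    have hk1' : k < 1 := by exact_mod_cast hk1
    have hk2' : -1 < k := by exact_mod_cast hk2
    have hk0 : k = 0 := by omega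
    rw [hk0] at hk
    push_cast at hk
    linarith
  · have h3 := (h i).2 hi
    rw [Pi.sub_apply] at h3
    linarith

/-- a good radius -/
theorem em_radius (kd : ι → Kind) (Z : Finset (ι → ℝ))
    (hZ1 : ∀ z ∈ Z, ∀ i, kd i = Kind.th → z i ∈ Set.Ioo (0 : ℝ) 1) :
    ∃ r : ℝ, 0 < r ∧ (∀ z ∈ Z, ∀ i, kd i = Kind.th → r < z i ∧ z i < 1 - r) ∧
      (∀ z ∈ Z, ∀ z' ∈ Z, z ≠ z' →
        Disjoint (Metric.closedBall z r) (Metric.closedBall z' r)) := by
  have h1 : ∀ᶠ r : ℝ in nhdsWithin 0 (Set.Ioi 0), ∀ z ∈ Z, ∀ i, kd i = Kind.th →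
      r < z i ∧ z i < 1 - r := by
    rw [Filter.eventually_all_finset]
    intro z hz
    rw [Filter.eventually_all]
    intro i
    by_cases hi : kd i = Kind.th
    · have h := hZ1 z hz i hi
      have h2 : ∀ᶠ r : ℝ in nhdsWithin 0 (Set.Ioi 0), r < min (z i) (1 - z i) :=
        (eventually_lt_nhds (lt_min h.1 (by linarith [h.2]))).filter_mono nhdsWithin_le_nhds
      filter_upwards [h2] with r hr _
      rw [lt_min_iff] at hr
      exact ⟨hr.1, by linarith [hr.2]⟩
    · filter_upwards with r h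
      exact absurd h hi
  have h2 : ∀ᶠ r : ℝ in nhdsWithin 0 (Set.Ioi 0), ∀ z ∈ Z, ∀ z' ∈ Z, z ≠ z' →
      Disjoint (Metric.closedBall z r) (Metric.closedBall z' r) := by
    rw [Filter.eventually_all_finset]
    intro z _
    rw [Filter.eventually_all_finset]
    intro z' _
    by_cases hne : z = z'
    · filter_upwards with r h
      exact absurd hne h
    · have hd : 0 < dist z z' / 2 := by
        have := dist_pos.mpr hne
        linarith
      have h3 : ∀ᶠ r : ℝ in nhdsWithin 0 (Set.Ioi 0), r < dist z z' / 2 :=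
        (eventually_lt_nhds hd).filter_mono nhdsWithin_le_nhds
      filter_upwards [h3] with r hr _
      apply Metric.closedBall_disjoint_closedBall
      linarith
  have h3 : ∀ᶠ r : ℝ in nhdsWithin 0 (Set.Ioi 0), 0 < r := self_mem_nhdsWithin
  obtain ⟨r, hr1, hr2, hr3⟩ := (h1.and (h2.and h3)).exists
  exact ⟨r, hr3, hr1, hr2⟩

/-- the equivariant step if all representatives have their circle coordinates in `(0, 1)` -/
theorem em_aux (kd : ι → Kind) (hth : ∃ i, kd i = Kind.th) (f : (ι → ℝ) → ℝ)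
    (hf : ContDiff ℝ 2 f) (hper : Per kd f) (hq : QuadInf kd f)
    (T : (ι → ℝ) →ₗ[ℝ] (ι → ℝ)) (p : ℕ) (hp : p.Prime) (hT : T ^ p = 1)
    (hTf : ∀ x, f (T x) = f x) (hTe : ∀ i, kd i = Kind.th → T (Pi.single i 1) = Pi.single i 1)
    (Z : Finset (ι → ℝ)) (hZ : ∀ x, fderiv ℝ f x = 0 ↔ ∃ z ∈ Z, x - z ∈ Lat kd)
    (hZ1 : ∀ z ∈ Z, ∀ i, kd i = Kind.th → z i ∈ Set.Ioo (0 : ℝ) 1)
    (a₁ a₂ : ℕ) (h12 : a₁ < a₂)
    (ha : ∀ a, (a = a₁ ∨ a = a₂) → a = 0 ∨
      ((a < nk kd Kind.up ∨ nk kd Kind.up + nk kd Kind.th < a) ∧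
      ∀ z ∈ Z, ¬ (sigNeg (hess f z) ≤ a ∧ a + sigPos (hess f z) ≤ Fintype.card ι)))
    (s : (ι → ℝ) → ℤ)
    (hfix : ∀ z ∈ Z, T z = z → a₁ ≤ sigNeg (hess f z) → sigNeg (hess f z) < a₂ →
      ∀ r > 0, (∀ x ∈ Metric.closedBall z r, fderiv ℝ f x = 0 → x = z) →
      ∃ (g : (ι → ℝ) → ℝ) (X : Finset (ι → ℝ)), LD f z r g X ∧
        ∑ y ∈ X, (-1 : ℤ) ^ sigNeg (hess g y) = s z) :
    (p : ℤ) ∣ ∑ z ∈ Z.filter (fun z => T z = z ∧ a₁ ≤ sigNeg (hess f z) ∧
      sigNeg (hess f z) < a₂), s z := by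
  classical
  have hTj : ∀ (j : ℕ) (y : ι → ℝ), f ((T ^ j) y) = f y := by
    intro j
    induction j with
    | zero => intro y; simp
    | succ j ih => intro y; rw [pow_succ', Module.End.mul_apply, hTf, ih]
  have hlat : ∀ e ∈ Lat kd, ∀ j : ℕ, (T ^ j) e = e := fun e he j =>
    em_pow_fix (em_fix hTe (fun i hi => (he i).2 hi)) j
  have hlat1 : ∀ e ∈ Lat kd, T e = e := fun e he => em_fix hTe (fun i hi => (he i).2 hi)
  have hcritT : ∀ z, fderiv ℝ f z = 0 → fderiv ℝ f (T z) = 0 := by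
    intro z hz
    obtain ⟨L, hL⟩ := em_lin T p hp hT 1
    have h1 := em_crit hf L 0 z
    have h2 : (fun y => f (L y + 0)) = f := by
      funext y
      rw [add_zero, hL, hTj]
    rw [h2, add_zero, hL, pow_one] at h1
    exact h1.mp hz
  have hZc : ∀ z ∈ Z, fderiv ℝ f z = 0 := fun z hz =>
    (hZ z).mpr ⟨z, hz, by rw [sub_self]; exact (Lat kd).zero_mem⟩
  have hIco : ∀ z ∈ Z, ∀ i, kd i = Kind.th → z i ∈ Set.Ico (0 : ℝ) 1 := fun z hz i hi =>
    ⟨(hZ1 z hz i hi).1.le, (hZ1 z hz i hi).2⟩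
  have hZ' : ∀ x, (∀ i, kd i = Kind.th → x i ∈ Set.Ico (0 : ℝ) 1) →
      (fderiv ℝ f x = 0 ↔ x ∈ Z) := by
    intro x hx
    constructor
    · intro h
      obtain ⟨z, hz, hxz⟩ := (hZ x).mp h
      rw [em_unique hx (hIco z hz) hxz]
      exact hz
    · exact hZc x
  obtain ⟨r, hr, hrU, hrd⟩ := em_radius kd Z hZ1
  have hiso : ∀ z ∈ Z, ∀ x ∈ Metric.closedBall z r, fderiv ℝ f x = 0 → x = z := by
    intro z hz x hx h0
    have hxZ : x ∈ Z := by
      rw [← hZ' x]
      · exact h0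
      · intro i hi
        have h1 := hrU z hz i hi
        have h2 : |x i - z i| ≤ r := by
          rw [Metric.mem_closedBall, dist_eq_norm] at hx
          have h3 := norm_le_pi_norm (x - z) i
          rw [Pi.sub_apply, Real.norm_eq_abs] at h3
          linarith
        rw [abs_le] at h2
        constructor
        · linarith [h2.1, h1.1]
        · linarith [h2.2, h1.2]
    by_contra hne
    exact Set.disjoint_left.mp (hrd x hxZ z hz hne) (Metric.mem_closedBall_self hr.le) hx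
  -- the permutation
  have hσ : ∀ z : {z // z ∈ Z}, ∃ z' : {z // z ∈ Z}, T z.1 - z'.1 ∈ Lat kd := by
    intro z
    obtain ⟨z', hz', h⟩ := (hZ _).mp (hcritT _ (hZc z.1 z.2))
    exact ⟨⟨z', hz'⟩, h⟩
  choose σ hσ using hσ
  have hσk : ∀ (k : ℕ) (z : {z // z ∈ Z}), (T ^ k) z.1 - (σ^[k] z).1 ∈ Lat kd := by
    intro k z
    induction k with
    | zero =>
      have : (T ^ 0) z.1 - (σ^[0] z).1 = 0 := by simp
      rw [this]
      exact (Lat kd).zero_mem
    | succ k ih =>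
      rw [pow_succ', Module.End.mul_apply, Function.iterate_succ_apply']
      have h1 := hlat1 _ ih
      have h2 : T ((T ^ k) z.1) - (σ (σ^[k] z)).1 =
          T ((T ^ k) z.1 - (σ^[k] z).1) + (T (σ^[k] z).1 - (σ (σ^[k] z)).1) := by
        rw [map_sub]
        abel
      rw [h2, h1]
      exact (Lat kd).add_mem ih (hσ _)
  have hσp : ∀ z : {z // z ∈ Z}, σ^[p] z = z := by
    intro z
    have h := hσk p z
    rw [hT] at h
    exact (Subtype.ext (em_unique (hIco _ z.2) (hIco _ (σ^[p] z).2) h)).symm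
  have hσfix : ∀ z : {z // z ∈ Z}, σ z = z ↔ T z.1 = z.1 := by
    intro z
    constructor
    · intro h
      have he := hσ z
      rw [h] at he
      have hk : ∀ k : ℕ, (T ^ k) z.1 = z.1 + (k : ℝ) • (T z.1 - z.1) := by
        intro k
        induction k with
        | zero => simp
        | succ k ih =>
          rw [pow_succ', Module.End.mul_apply, ih, map_add, map_smul, hlat1 _ he]
          push_cast
          rw [add_smul, one_smul]
          abel
      have h1 := hk p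
      rw [hT] at h1
      have h2 : (p : ℝ) • (T z.1 - z.1) = 0 := by
        have h3 : z.1 = z.1 + (p : ℝ) • (T z.1 - z.1) := h1
        exact left_eq_add.mp h3
      rcases smul_eq_zero.mp h2 with h3 | h3
      · exact absurd (by exact_mod_cast h3) hp.ne_zero
      · exact sub_eq_zero.mp h3
    · intro h
      have he := hσ z
      rw [h] at he
      exact (Subtype.ext (em_unique (hIco _ z.2) (hIco _ (σ z).2) he)).symm
  -- representatives
  let S : Setoid {z // z ∈ Z} :=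
    { r := fun z z' => ∃ j : ℕ, (T ^ j) z.1 - z'.1 ∈ Lat kd
      iseqv := by
        refine ⟨?_, ?_, ?_⟩
        · intro z
          refine ⟨0, ?_⟩
          have : (T ^ 0) z.1 - z.1 = 0 := by simp
          rw [this]
          exact (Lat kd).zero_mem
        · rintro z z' ⟨j, hj⟩
          refine ⟨(p - 1) * j, ?_⟩
          have h1 : T ^ ((p - 1) * j) * T ^ j = 1 := by
            rw [← pow_add]
            have : (p - 1) * j + j = p * j := by
              have := hp.pos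
              obtain ⟨q, rfl⟩ : ∃ q, p = q + 1 := ⟨p - 1, by omega⟩
              simp
              ring
            rw [this, pow_mul, hT, one_pow]
          have h2 := hlat _ hj ((p - 1) * j)
          rw [map_sub, ← Module.End.mul_apply, h1] at h2
          have h3 : (T ^ ((p - 1) * j)) z'.1 - z.1 = -((T ^ j) z.1 - z'.1) := by
            rw [← h2]
            simp
          rw [h3]
          exact (Lat kd).neg_mem hj
        · rintro z z' z'' ⟨j, hj⟩ ⟨k, hk⟩
          refine ⟨k + j, ?_⟩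
          have h1 := hlat _ hj k
          rw [map_sub] at h1
          have h2 : (T ^ (k + j)) z.1 - z''.1 =
              ((T ^ j) z.1 - z'.1) + ((T ^ k) z'.1 - z''.1) := by
            rw [pow_add, Module.End.mul_apply, ← h1]
            abel
          rw [h2]
          exact (Lat kd).add_mem hj hk }
  let rep : {z // z ∈ Z} → {z // z ∈ Z} := fun z => (Quotient.mk S z).out
  have hrep1 : ∀ z, ∃ j : ℕ, (T ^ j) z.1 - (rep z).1 ∈ Lat kd := by
    intro z
    have h : S.r (rep z) z := Quotient.exact (Quotient.out_eq (Quotient.mk S z))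
    exact S.iseqv.symm h
  have hrep2 : ∀ z z', S.r z z' → rep z = rep z' := by
    intro z z' h
    have : Quotient.mk S z = Quotient.mk S z' := Quotient.sound h
    show (Quotient.mk S z).out = (Quotient.mk S z').out
    rw [this]
  have hL : ∀ z : {z // z ∈ Z}, ∃ (L : (ι → ℝ) ≃L[ℝ] (ι → ℝ)) (b : ι → ℝ),
      L z.1 + b = (rep z).1 ∧ ∀ y, f (L y + b) = f y := by
    intro z
    obtain ⟨j, hj⟩ := hrep1 z
    obtain ⟨L, hL⟩ := em_lin T p hp hT j
    refine ⟨L, -((T ^ j) z.1 - (rep z).1), ?_, ?_⟩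
    · rw [hL]
      abel
    · intro y
      rw [em_per hper ((Lat kd).neg_mem hj), hL, hTj]
  choose L b hLb hLf using hL
  -- the small radius
  set C : ℝ := 1 + ∑ z : {z // z ∈ Z},
    ‖((L z).symm : (ι → ℝ) →L[ℝ] (ι → ℝ))‖ with hCdef
  have hsum0 : 0 ≤ ∑ z : {z // z ∈ Z}, ‖((L z).symm : (ι → ℝ) →L[ℝ] (ι → ℝ))‖ :=
    Finset.sum_nonneg fun _ _ => norm_nonneg _
  have hC1 : 1 ≤ C := by linarith
  have hCz : ∀ z : {z // z ∈ Z}, ‖((L z).symm : (ι → ℝ) →L[ℝ] (ι → ℝ))‖ < C := by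
    intro z
    have := Finset.single_le_sum (f := fun z : {z // z ∈ Z} =>
      ‖((L z).symm : (ι → ℝ) →L[ℝ] (ι → ℝ))‖) (fun _ _ => norm_nonneg _) (Finset.mem_univ z)
    linarith
  have hr'0 : 0 < r / C := div_pos hr (by linarith)
  have hr'1 : r / C ≤ r := div_le_self hr.le hC1
  have hr'2 : ∀ z : {z // z ∈ Z}, ‖((L z).symm : (ι → ℝ) →L[ℝ] (ι → ℝ))‖ * (r / C) < r := by
    intro z
    have h1 := mul_lt_mul_of_pos_right (hCz z) hr'0
    have h2 : C * (r / C) = r := by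
      field_simp
    linarith
  have hD : ∀ ρ : {z // z ∈ Z}, ∃ (g : (ι → ℝ) → ℝ) (X : Finset (ι → ℝ)),
      LD f ρ.1 (r / C) g X ∧ (T ρ.1 = ρ.1 → a₁ ≤ sigNeg (hess f ρ.1) →
        sigNeg (hess f ρ.1) < a₂ → ∑ y ∈ X, (-1 : ℤ) ^ sigNeg (hess g y) = s ρ.1) := by
    intro ρ
    have hi : ∀ x ∈ Metric.closedBall ρ.1 (r / C), fderiv ℝ f x = 0 → x = ρ.1 := fun x hx =>
      hiso ρ.1 ρ.2 x (Metric.closedBall_subset_closedBall hr'1 hx)
    by_cases hc : T ρ.1 = ρ.1 ∧ a₁ ≤ sigNeg (hess f ρ.1) ∧ sigNeg (hess f ρ.1) < a₂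
    · obtain ⟨g, X, h1, h2⟩ := hfix ρ.1 ρ.2 hc.1 hc.2.1 hc.2.2 (r / C) hr'0 hi
      exact ⟨g, X, h1, fun _ _ _ => h2⟩
    · obtain ⟨g, X, h1⟩ := perturb f hf ρ.1 (r / C) hr'0 hi
      exact ⟨g, X, h1, fun h2 h3 h4 => absurd ⟨h2, h3, h4⟩ hc⟩
  choose g₀ X₀ hD1 hD2 using hD
  have hloc : ∀ z : ι → ℝ, z ∈ Z → ∃ (U : Set (ι → ℝ)) (g' : (ι → ℝ) → ℝ)
      (X' : Finset (ι → ℝ)),
      (IsClosed U ∧ U ⊆ Metric.ball z r) ∧ ContDiff ℝ 2 g' ∧ (∀ y, y ∉ U → g' y = f y) ∧
      (∀ y ∈ Metric.closedBall z r, (fderiv ℝ g' y = 0 ↔ y ∈ X')) ∧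
      (∀ y ∈ X', y ∈ Metric.ball z r) ∧
      (∀ y ∈ X', sigNeg (hess g' y) + sigPos (hess g' y) = Fintype.card ι ∧
        sigNeg (hess f z) ≤ sigNeg (hess g' y) ∧
        sigNeg (hess g' y) + sigPos (hess f z) ≤ Fintype.card ι) ∧
      ∀ hz : z ∈ Z, emSum a₁ a₂ g' X' = emSum a₁ a₂ (g₀ (rep ⟨z, hz⟩)) (X₀ (rep ⟨z, hz⟩)) := by
    intro z hz
    obtain ⟨U, g', X', h1, h2, h3, h4, h5, h6, h7⟩ := em_transport hf (L ⟨z, hz⟩) (b ⟨z, hz⟩) z
      (rep ⟨z, hz⟩).1 (hLb ⟨z, hz⟩) (hLf ⟨z, hz⟩) r (r / C) hr'0 (hr'2 ⟨z, hz⟩) (hiso z hz)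
      (hD1 (rep ⟨z, hz⟩)) a₁ a₂
    exact ⟨U, g', X', h1, h2, h3, h4, h5, h6, fun _ => h7⟩
  choose! U g X hU hg hgU hX hXb hXn hXs using hloc
  have hcount := local_count kd hth f hf hper hq Z hZ1 hZ' a₁ a₂ h12 ha r hr hrU hrd U hU g X
    hg hgU hX hXb hXn
  have hcount' : ∑ z : {z // z ∈ Z}, emSum a₁ a₂ (g₀ (rep z)) (X₀ (rep z)) = 0 := by
    rw [← hcount, ← Finset.sum_coe_sort Z]
    refine Finset.sum_congr rfl fun z _ => ?_
    exact (hXs z.1 z.2 z.2).symm
  have hn : ∀ z, emSum a₁ a₂ (g₀ (rep (σ z))) (X₀ (rep (σ z))) =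
      emSum a₁ a₂ (g₀ (rep z)) (X₀ (rep z)) := by
    intro z
    rw [hrep2 z (σ z) ⟨1, by rw [pow_one]; exact hσ z⟩]
  have hdvd := em_count p hp σ hσp (fun z => emSum a₁ a₂ (g₀ (rep z)) (X₀ (rep z))) hn
  rw [hcount', zero_sub, dvd_neg] at hdvd
  refine (congrArg (fun u : ℤ => (p : ℤ) ∣ u) ?_).mpr hdvd
  rw [Finset.sum_filter, Finset.sum_filter, ← Finset.sum_coe_sort Z]
  refine Finset.sum_congr rfl fun z _ => ?_
  by_cases hz : T z.1 = z.1
  · rw [if_pos ((hσfix z).mpr hz)]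
    have hrz : rep z = z := by
      obtain ⟨j, hj⟩ := hrep1 z
      rw [em_pow_fix hz j] at hj
      exact (Subtype.ext (em_unique (hIco _ z.2) (hIco _ (rep z).2) hj)).symm
    rw [hrz]
    have ha₁ : a₁ = 0 ∨ ¬ (sigNeg (hess f z.1) ≤ a₁ ∧
        a₁ + sigPos (hess f z.1) ≤ Fintype.card ι) := by
      rcases ha a₁ (Or.inl rfl) with h | h
      · exact Or.inl h
      · exact Or.inr (h.2 z.1 z.2)
    have ha₂ : ¬ (sigNeg (hess f z.1) ≤ a₂ ∧ a₂ + sigPos (hess f z.1) ≤ Fintype.card ι) := by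
      rcases ha a₂ (Or.inr rfl) with h | h
      · omega
      · exact h.2 z.1 z.2
    rw [em_window (hD1 z) a₁ a₂ ha₁ ha₂]
    by_cases hw : a₁ ≤ sigNeg (hess f z.1) ∧ sigNeg (hess f z.1) < a₂
    · rw [if_pos ⟨hz, hw⟩, if_pos hw, hD2 z hz hw.1 hw.2]
    · rw [if_neg (fun h => hw h.2), if_neg hw]
  · rw [if_neg (fun h => hz h.1), if_neg (fun h => hz ((hσfix z).mp h))]

/-- **The equivariant step.** At the `T`-fixed critical points `z` with index in `[a₁, a₂)` the
function can be perturbed with signed number `s z` of critical points (for instance `s z = (-1)^index` if `z` is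
nondegenerate). -/
theorem equivariant (kd : ι → Kind) (hth : ∃ i, kd i = Kind.th) (f : (ι → ℝ) → ℝ)
    (hf : ContDiff ℝ 2 f) (hper : Per kd f) (hq : QuadInf kd f)
    (T : (ι → ℝ) →ₗ[ℝ] (ι → ℝ)) (p : ℕ) (hp : p.Prime) (hT : T ^ p = 1)
    (hTf : ∀ x, f (T x) = f x) (hTe : ∀ i, kd i = Kind.th → T (Pi.single i 1) = Pi.single i 1)
    (Z : Finset (ι → ℝ)) (hZ : ∀ x, fderiv ℝ f x = 0 ↔ ∃ z ∈ Z, x - z ∈ Lat kd)
    (hZd : ∀ z ∈ Z, ∀ z' ∈ Z, z - z' ∈ Lat kd → z = z')
    (a₁ a₂ : ℕ) (h12 : a₁ < a₂)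
    (ha : ∀ a, (a = a₁ ∨ a = a₂) → a = 0 ∨
      ((a < nk kd Kind.up ∨ nk kd Kind.up + nk kd Kind.th < a) ∧
      ∀ z ∈ Z, ¬ (sigNeg (hess f z) ≤ a ∧ a + sigPos (hess f z) ≤ Fintype.card ι)))
    (s : (ι → ℝ) → ℤ)
    (hfix : ∀ z ∈ Z, T z = z → a₁ ≤ sigNeg (hess f z) → sigNeg (hess f z) < a₂ →
      ∀ r > 0, (∀ x ∈ Metric.closedBall z r, fderiv ℝ f x = 0 → x = z) →
      ∃ (g : (ι → ℝ) → ℝ) (X : Finset (ι → ℝ)), LD f z r g X ∧
        ∑ y ∈ X, (-1 : ℤ) ^ sigNeg (hess g y) = s z) :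
    (p : ℤ) ∣ ∑ z ∈ Z.filter (fun z => T z = z ∧ a₁ ≤ sigNeg (hess f z) ∧
      sigNeg (hess f z) < a₂), s z := by
  classical
  -- the translation vector
  have hτ0 : ∀ i, ∃ t : ℝ, ∀ z ∈ Z, ∀ k : ℤ, z i - t ≠ k := by
    intro i
    have hc : (⋃ z ∈ Z, Set.range fun k : ℤ => z i - (k : ℝ)).Countable := by
      refine Set.Countable.biUnion Z.countable_toSet fun z _ => ?_
      exact Set.countable_range _
    obtain ⟨t, ht⟩ := (hc.dense_compl ℝ).nonempty
    refine ⟨t, fun z hz k hk => ht ?_⟩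
    rw [Set.mem_iUnion₂]
    exact ⟨z, hz, k, by show z i - (k : ℝ) = t; linarith⟩
  choose t ht using hτ0
  set τ : ι → ℝ := fun i => if kd i = Kind.th then t i else 0 with hτdef
  have hτ1 : ∀ i, kd i = Kind.th → τ i = t i := fun i hi => by simp [hτdef, hi]
  have hτ2 : ∀ i, kd i ≠ Kind.th → τ i = 0 := fun i hi => by simp [hτdef, hi]
  have hTτ : T τ = τ := em_fix hTe hτ2
  have hlat1 : ∀ e ∈ Lat kd, T e = e := fun e he => em_fix hTe (fun i hi => (he i).2 hi)
  -- the representatives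
  set φ : (ι → ℝ) → (ι → ℝ) := fun z i =>
    if kd i = Kind.th then Int.fract (z i - t i) else z i with hφdef
  have hφ : ∀ z, z - τ - φ z ∈ Lat kd := by
    intro z i
    constructor
    · intro hi
      refine ⟨⌊z i - t i⌋, ?_⟩
      have h1 : φ z i = Int.fract (z i - t i) := by simp [hφdef, hi]
      rw [Pi.sub_apply, Pi.sub_apply, h1, hτ1 i hi]
      exact Int.self_sub_fract _
    · intro hi
      have h1 : φ z i = z i := by simp [hφdef, hi]
      rw [Pi.sub_apply, Pi.sub_apply, h1, hτ2 i hi]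
      ring
  have hφe : ∀ z, ∃ e ∈ Lat kd, φ z + τ = z + e := by
    intro z
    refine ⟨-(z - τ - φ z), (Lat kd).neg_mem (hφ z), by abel⟩
  have hφi : ∀ z ∈ Z, ∀ z' ∈ Z, φ z - φ z' ∈ Lat kd → z = z' := by
    intro z hz z' hz' h
    apply hZd z hz z' hz'
    have h1 : z - z' = (z - τ - φ z) - (z' - τ - φ z') + (φ z - φ z') := by abel
    rw [h1]
    exact (Lat kd).add_mem ((Lat kd).sub_mem (hφ z) (hφ z')) h
  have hφi' : Set.InjOn φ (Z : Set (ι → ℝ)) := by
    intro z hz z' hz' h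
    apply hφi z hz z' hz'
    rw [h, sub_self]
    exact (Lat kd).zero_mem
  -- the translated function
  have hf' : ContDiff ℝ 2 (fun x => f (x + τ)) := hf.comp (contDiff_id.add contDiff_const)
  have hfd : ∀ x, fderiv ℝ (fun x => f (x + τ)) x = fderiv ℝ f (x + τ) := fun x =>
    fderiv_comp_add_right τ
  have hper' : Per kd (fun x => f (x + τ)) := by
    intro x i hi
    show f (x + Pi.single i 1 + τ) = f (x + τ)
    rw [add_right_comm]
    exact hper _ i hi
  have hq' : QuadInf kd (fun x => f (x + τ)) := by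
    obtain ⟨C, hC⟩ := hq
    refine ⟨C, fun x i => ?_⟩
    rw [hfd]
    obtain ⟨h1, h2⟩ := hC (x + τ) i
    constructor
    · intro hi
      have h3 := h1 hi
      rwa [Pi.add_apply, hτ2 i (by rw [hi]; decide), add_zero] at h3
    · intro hi
      have h3 := h2 hi
      rwa [Pi.add_apply, hτ2 i (by rw [hi]; decide), add_zero] at h3
  have hTf' : ∀ x, (fun x => f (x + τ)) (T x) = (fun x => f (x + τ)) x := by
    intro x
    show f (T x + τ) = f (x + τ)
    rw [← hTf (x + τ), map_add, hTτ]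
  have hφh : ∀ z, sigNeg (hess (fun x => f (x + τ)) (φ z)) = sigNeg (hess f z) ∧
      sigPos (hess (fun x => f (x + τ)) (φ z)) = sigPos (hess f z) := by
    intro z
    obtain ⟨e, he, hez⟩ := hφe z
    have h1 := em_sigNeg hf (ContinuousLinearEquiv.refl ℝ (ι → ℝ)) τ (φ z)
    have h2 := em_sigPos hf (ContinuousLinearEquiv.refl ℝ (ι → ℝ)) τ (φ z)
    have h3 := em_sigNeg hf (ContinuousLinearEquiv.refl ℝ (ι → ℝ)) e z
    have h4 := em_sigPos hf (ContinuousLinearEquiv.refl ℝ (ι → ℝ)) e z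
    simp only [ContinuousLinearEquiv.coe_refl', id] at h1 h2 h3 h4
    have h5 : (fun y => f (y + e)) = f := funext fun y => em_per hper he y
    rw [h5] at h3 h4
    rw [h1, h2, hez, h3, h4]
    exact ⟨rfl, rfl⟩
  have hTφ : ∀ z, T (φ z) = φ z → T z = z := by
    intro z h
    obtain ⟨e, he, hez⟩ := hφe z
    have h1 : z = φ z + τ - e := by rw [hez]; abel
    conv_lhs => rw [h1]
    rw [map_sub, map_add, h, hTτ, hlat1 e he, ← h1]
  have hTφ' : ∀ z, T z = z → T (φ z) = φ z := by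
    intro z h
    obtain ⟨e, he, hez⟩ := hφe z
    have h1 : φ z = z + e - τ := by rw [← hez]; abel
    conv_lhs => rw [h1]
    rw [map_sub, map_add, h, hTτ, hlat1 e he, ← h1]
  have key := em_aux kd hth (fun x => f (x + τ)) hf' hper' hq' T p hp hT hTf' hTe (Z.image φ)
    ?_ ?_ a₁ a₂ h12 ?_ (fun x => s (Function.invFunOn φ (Z : Set (ι → ℝ)) x)) ?_
  · refine (congrArg (fun u : ℤ => (p : ℤ) ∣ u) ?_).mpr key
    rw [Finset.sum_filter, Finset.sum_filter, Finset.sum_image (fun x hx y hy h => hφi' hx hy h)]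
    refine Finset.sum_congr rfl fun z hz => ?_
    have h1 : Function.invFunOn φ (Z : Set (ι → ℝ)) (φ z) = z :=
      hφi'.leftInvOn_invFunOn hz
    rw [h1, (hφh z).1]
    by_cases hw : T z = z ∧ a₁ ≤ sigNeg (hess f z) ∧ sigNeg (hess f z) < a₂
    · rw [if_pos hw, if_pos ⟨hTφ' z hw.1, hw.2⟩]
    · rw [if_neg hw, if_neg (fun h => hw ⟨hTφ z h.1, h.2⟩)]
  · intro x
    rw [hfd, hZ]
    constructor
    · rintro ⟨z, hz, h⟩
      refine ⟨φ z, Finset.mem_image_of_mem φ hz, ?_⟩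
      have h1 : x - φ z = (x + τ - z) + (z - τ - φ z) := by abel
      rw [h1]
      exact (Lat kd).add_mem h (hφ z)
    · rintro ⟨z', hz', h⟩
      obtain ⟨z, hz, rfl⟩ := Finset.mem_image.mp hz'
      refine ⟨z, hz, ?_⟩
      have h1 : x + τ - z = (x - φ z) - (z - τ - φ z) := by abel
      rw [h1]
      exact (Lat kd).sub_mem h (hφ z)
  · intro z' hz' i hi
    obtain ⟨z, hz, rfl⟩ := Finset.mem_image.mp hz'
    have h1 : φ z i = Int.fract (z i - t i) := by simp [hφdef, hi]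
    rw [h1]
    refine ⟨lt_of_le_of_ne (Int.fract_nonneg _) ?_, Int.fract_lt_one _⟩
    intro h0
    obtain ⟨k, hk⟩ := Int.fract_eq_zero_iff.mp h0.symm
    exact ht i z hz k hk.symm
  · intro a haa
    rcases ha a haa with h | ⟨h, h'⟩
    · exact Or.inl h
    · refine Or.inr ⟨h, fun z' hz' => ?_⟩
      obtain ⟨z, hz, rfl⟩ := Finset.mem_image.mp hz'
      rw [(hφh z).1, (hφh z).2]
      exact h' z hz
  · intro z' hz' hTz hw1 hw2 r hr hiso
    obtain ⟨z, hz, rfl⟩ := Finset.mem_image.mp hz'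
    rw [(hφh z).1] at hw1 hw2
    have h1 : Function.invFunOn φ (Z : Set (ι → ℝ)) (φ z) = z :=
      hφi'.leftInvOn_invFunOn hz
    simp only [h1]
    obtain ⟨e, he, hez⟩ := hφe z
    have hcz : φ z + (τ - e) = z := by rw [← add_sub_assoc, hez]; abel
    have hfc : ∀ y, f (y + (τ - e)) = f (y + τ) := by
      intro y
      rw [← em_per hper he (y + (τ - e))]
      congr 1
      abel
    have hfc' : (fun y => f (y + (τ - e))) = fun x => f (x + τ) := funext hfc
    obtain ⟨g, X, hLD, hs⟩ := hfix z hz (hTφ z hTz) hw1 hw2 r hr (by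
      intro x hx h0
      have h2 : x - (τ - e) = φ z := by
        apply hiso
        · rw [Metric.mem_closedBall, dist_eq_norm] at hx ⊢
          have : x - (τ - e) - φ z = x - z := by
            have h3 : x - (τ - e) - φ z = x - (φ z + (τ - e)) := by abel
            rw [h3, hcz]
          rw [this]
          exact hx
        · rw [← hfc', fderiv_comp_add_right, sub_add_cancel]
          exact h0
      have h3 : x = x - (τ - e) + (τ - e) := by abel
      rw [h3, h2, hcz])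
    have hgs : ∀ y, sigNeg (hess (fun y => g (y + (τ - e))) y) =
        sigNeg (hess g (y + (τ - e))) ∧
        sigPos (hess (fun y => g (y + (τ - e))) y) = sigPos (hess g (y + (τ - e))) := by
      intro y
      have h1 := em_sigNeg hLD.smooth (ContinuousLinearEquiv.refl ℝ (ι → ℝ)) (τ - e) y
      have h2 := em_sigPos hLD.smooth (ContinuousLinearEquiv.refl ℝ (ι → ℝ)) (τ - e) y
      simp only [ContinuousLinearEquiv.coe_refl', id] at h1 h2
      exact ⟨h1, h2⟩
    have hmem : ∀ y, y ∈ X.image (fun w => w - (τ - e)) ↔ y + (τ - e) ∈ X := by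
      intro y
      rw [Finset.mem_image]
      constructor
      · rintro ⟨w, hw, rfl⟩
        rwa [sub_add_cancel]
      · intro h
        exact ⟨_, h, add_sub_cancel_right _ _⟩
    have hball : ∀ y ρ, y + (τ - e) ∈ Metric.closedBall z ρ ↔ y ∈ Metric.closedBall (φ z) ρ := by
      intro y ρ
      rw [Metric.mem_closedBall, Metric.mem_closedBall, dist_eq_norm, dist_eq_norm]
      have : y + (τ - e) - z = y - φ z := by
        have h3 : y - φ z = y + (τ - e) - (φ z + (τ - e)) := by abel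
        rw [h3, hcz]
      rw [this]
    have hball' : ∀ y ρ, y + (τ - e) ∈ Metric.ball z ρ ↔ y ∈ Metric.ball (φ z) ρ := by
      intro y ρ
      rw [Metric.mem_ball, Metric.mem_ball, dist_eq_norm, dist_eq_norm]
      have : y + (τ - e) - z = y - φ z := by
        have h3 : y - φ z = y + (τ - e) - (φ z + (τ - e)) := by abel
        rw [h3, hcz]
      rw [this]
    refine ⟨fun y => g (y + (τ - e)), X.image (fun w => w - (τ - e)), ⟨?_, ?_, ?_, ?_, ?_, ?_,
      ?_⟩, ?_⟩
    · exact hLD.smooth.comp (contDiff_id.add contDiff_const)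
    · intro y hy
      rw [← hball] at hy
      show g (y + (τ - e)) = f (y + τ)
      rw [hLD.eq _ hy, hfc]
    · intro y hy
      rw [fderiv_comp_add_right, hmem]
      exact hLD.crit _ ((hball y r).mpr hy)
    · intro y hy
      rw [hmem] at hy
      exact (hball' y _).mp (hLD.mem _ hy)
    · intro y hy
      rw [hmem] at hy
      rw [(hgs y).1, (hgs y).2]
      exact hLD.nd _ hy
    · intro y hy
      rw [hmem] at hy
      rw [(hgs y).1, (hφh z).1]
      exact hLD.lo _ hy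
    · intro y hy
      rw [hmem] at hy
      rw [(hgs y).1, (hφh z).2]
      exact hLD.hi _ hy
    · rw [Finset.sum_image (fun x _ y _ h => sub_left_injective h), ← hs]
      refine Finset.sum_congr rfl fun y _ => ?_
      rw [(hgs _).1, sub_add_cancel]

end Pool.Agent.H47.QG
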