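import Pool.Agent.H47.QG.IdxS

/-!
# Invariant functions near a fixed point of the symmetry
-/

set_option autoImplicit false

open Module QuadraticForm

namespace Pool.Agent.H47.QG

/-- first derivative of an invariant function -/
theorem EqA_fderiv {E : Type*} [NormedAddCommGroup E] [NormedSpace ℝ E] (g : E → ℝ)
    (hg : Differentiable ℝ g) (T : E →L[ℝ] E) (hT : ∀ x, g (T x) = g x) (x w : E) :
    fderiv ℝ g (T x) (T w) = fderiv ℝ g x w := by
  have h1 : HasFDerivAt (fun y => g (T y)) ((fderiv ℝ g (T x)).comp T) x :=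
    (hg (T x)).hasFDerivAt.comp x T.hasFDerivAt
  have h2 : (fun y => g (T y)) = g := funext hT
  rw [h2] at h1
  rw [h1.fderiv]
  rfl

/-- second derivative of an invariant function -/
theorem EqA_fderiv2 {E : Type*} [NormedAddCommGroup E] [NormedSpace ℝ E] (g : E → ℝ)
    (hg : ContDiff ℝ 2 g) (T : E →L[ℝ] E) (hT : ∀ x, g (T x) = g x) (x v w : E) :
    fderiv ℝ (fderiv ℝ g) (T x) (T v) (T w) = fderiv ℝ (fderiv ℝ g) x v w := by
  have hd : Differentiable ℝ g := hg.differentiable (by norm_num)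
  have hg1 : ContDiff ℝ 1 (fderiv ℝ g) := hg.fderiv_right (by norm_num)
  have hd1 : Differentiable ℝ (fderiv ℝ g) := hg1.differentiable (by norm_num)
  have h1 : HasFDerivAt (fun y => fderiv ℝ g (T y) (T w))
      ((ContinuousLinearMap.apply ℝ ℝ (T w)).comp ((fderiv ℝ (fderiv ℝ g) (T x)).comp T)) x :=
    (ContinuousLinearMap.apply ℝ ℝ (T w)).hasFDerivAt.comp x
      ((hd1 (T x)).hasFDerivAt.comp x T.hasFDerivAt)
  have h2 : HasFDerivAt (fun y => fderiv ℝ g y w)
      ((ContinuousLinearMap.apply ℝ ℝ w).comp (fderiv ℝ (fderiv ℝ g) x)) x :=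
    (ContinuousLinearMap.apply ℝ ℝ w).hasFDerivAt.comp x (hd1 x).hasFDerivAt
  have h3 : (fun y => fderiv ℝ g (T y) (T w)) = fun y => fderiv ℝ g y w :=
    funext fun y => EqA_fderiv g hd T hT y w
  rw [h3] at h1
  have h4 := h1.unique h2
  have h5 := congrArg (fun L => L v) h4
  exact h5

/-- the averaging operator of a linear map -/
noncomputable def EqA_avg {E : Type*} [NormedAddCommGroup E] [NormedSpace ℝ E] (T : E →L[ℝ] E)
    (p : ℕ) : E →L[ℝ] E := (1 / (p : ℝ)) • ∑ j ∈ Finset.range p, T ^ j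

theorem EqA_avg_apply {E : Type*} [NormedAddCommGroup E] [NormedSpace ℝ E] (T : E →L[ℝ] E)
    (p : ℕ) (x : E) : EqA_avg T p x = (1 / (p : ℝ)) • ∑ j ∈ Finset.range p, (T ^ j) x := by
  simp [EqA_avg]

theorem EqA_avg_fixed {E : Type*} [NormedAddCommGroup E] [NormedSpace ℝ E] (T : E →L[ℝ] E)
    (p : ℕ) (hT : T ^ p = 1) (x : E) : T (EqA_avg T p x) = EqA_avg T p x := by
  rw [EqA_avg_apply, map_smul, map_sum]
  congr 1
  have h1 : ∀ j ∈ Finset.range p, T ((T ^ j) x) = (T ^ (j + 1)) x := by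
    intro j _
    rw [pow_succ']
    rfl
  rw [Finset.sum_congr rfl h1]
  have h2 := Finset.sum_range_succ (fun j => (T ^ j) x) p
  have h3 := Finset.sum_range_succ' (fun j => (T ^ j) x) p
  rw [h3] at h2
  have h4 : (T ^ 0) x = (T ^ p) x := by rw [hT, pow_zero]
  rw [h4] at h2
  exact add_right_cancel h2

theorem EqA_avg_of_fixed {E : Type*} [NormedAddCommGroup E] [NormedSpace ℝ E] (T : E →L[ℝ] E)
    (p : ℕ) (hp : 0 < p) (x : E) (hx : T x = x) : EqA_avg T p x = x := by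
  have h1 : ∀ j : ℕ, (T ^ j) x = x := by
    intro j
    induction j with
    | zero => rfl
    | succ j ih =>
      rw [pow_succ']
      show T ((T ^ j) x) = x
      rw [ih, hx]
  rw [EqA_avg_apply, Finset.sum_congr rfl fun j _ => h1 j, Finset.sum_const, Finset.card_range,
    ← Nat.cast_smul_eq_nsmul ℝ, smul_smul]
  have : (1 / (p : ℝ)) * p = 1 := by
    have : (p : ℝ) ≠ 0 := by exact_mod_cast hp.ne'
    field_simp
  rw [this, one_smul]

/-- a functional invariant under `T` vanishes on `w - avg w` -/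
theorem EqA_avg_functional {E : Type*} [NormedAddCommGroup E] [NormedSpace ℝ E] (T : E →L[ℝ] E)
    (p : ℕ) (hp : 0 < p) (l : E →L[ℝ] ℝ) (hl : ∀ w, l (T w) = l w) (w : E) :
    l (w - EqA_avg T p w) = 0 := by
  have h1 : ∀ j : ℕ, l ((T ^ j) w) = l w := by
    intro j
    induction j with
    | zero => rfl
    | succ j ih =>
      rw [pow_succ']
      show l (T ((T ^ j) w)) = l w
      rw [hl, ih]
  rw [map_sub, EqA_avg_apply, map_smul, map_sum, Finset.sum_congr rfl fun j _ => h1 j,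
    Finset.sum_const, Finset.card_range, nsmul_eq_mul, smul_eq_mul]
  have : (p : ℝ) ≠ 0 := by exact_mod_cast hp.ne'
  field_simp
  ring

/-- general form of `crit_fixed` -/
theorem EqA_main {E : Type*} [NormedAddCommGroup E] [NormedSpace ℝ E] [FiniteDimensional ℝ E]
    (f : E → ℝ) (hf : ContDiff ℝ 2 f) (T : E →ₗ[ℝ] E) (p : ℕ)
    (hp : 0 < p) (hT : T ^ p = 1) (hTf : ∀ x, f (T x) = f x) (z : E) (hz : T z = z)
    (hadm : ∀ v, fderiv ℝ (fderiv ℝ f) z v = 0 → T v = v) :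
    ∃ ρ > 0, ∃ η > 0, ∀ g : E → ℝ, ContDiff ℝ 2 g → (∀ x, g (T x) = g x) →
      (∀ y ∈ Metric.ball z ρ, ‖fderiv ℝ (fderiv ℝ g) y - fderiv ℝ (fderiv ℝ f) y‖ ≤ η) →
      ∀ y ∈ Metric.ball z ρ, fderiv ℝ g y = 0 → T y = y := by
  set Tc : E →L[ℝ] E := LinearMap.toContinuousLinearMap T with hTcdef
  have hTc : ∀ x, Tc x = T x := fun x => rfl
  have hTcp : Tc ^ p = 1 := by
    have h1 : ∀ (j : ℕ) (x : E), (Tc ^ j) x = (T ^ j) x := by
      intro j
      induction j with
      | zero => intro x; rfl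
      | succ j ih =>
        intro x
        rw [pow_succ', pow_succ']
        show Tc ((Tc ^ j) x) = T ((T ^ j) x)
        rw [ih, hTc]
    ext1 x
    rw [h1, hT]
    rfl
  set P : E →L[ℝ] E := EqA_avg Tc p with hP
  set H := fderiv ℝ (fderiv ℝ f) z with hH
  have hHT : ∀ v w, H (Tc v) (Tc w) = H v w := by
    intro v w
    have h1 := EqA_fderiv2 f hf Tc hTf z v w
    have h2 : Tc z = z := hz
    rw [h2] at h1
    exact h1
  -- fixed space and `w - P w` are orthogonal for `H`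
  have hPT : ∀ x, Tc (P x) = P x := EqA_avg_fixed Tc p hTcp
  have horth1 : ∀ a w, Tc a = a → H a (w - P w) = 0 := by
    intro a w ha
    refine EqA_avg_functional Tc p hp (H a) (fun w => ?_) w
    have h1 := hHT a w
    rw [ha] at h1
    exact h1
  have horth2 : ∀ a w, Tc a = a → H (w - P w) a = 0 := by
    intro a w ha
    have h0 := EqA_avg_functional Tc p hp ((ContinuousLinearMap.apply ℝ ℝ a).comp H)
      (fun w => by
        show H (Tc w) a = H w a
        have h1 := hHT w a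
        rw [ha] at h1
        exact h1) w
    exact h0
  -- injectivity
  obtain ⟨K, hK, hanti⟩ : ∃ K > 0, AntilipschitzWith K
      (fun x : E => ((H x, P x) : (E →L[ℝ] ℝ) × E)) := by
    let L : E →ₗ[ℝ] ((E →L[ℝ] ℝ) × E) :=
      LinearMap.prod (H : E →ₗ[ℝ] (E →L[ℝ] ℝ)) (P : E →ₗ[ℝ] E)
    have hL : LinearMap.ker L = ⊥ := by
      rw [LinearMap.ker_eq_bot']
      intro x hx
      have hx1 : H x = 0 := congrArg Prod.fst hx
      have hx2 : P x = 0 := congrArg Prod.snd hx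
      have h1 : Tc x = x := hadm x hx1
      rw [← EqA_avg_of_fixed Tc p hp x h1]
      exact hx2
    exact LinearMap.exists_antilipschitzWith L hL
  have hKpos : (0 : ℝ) < K := by exact_mod_cast hK
  have hlow : ∀ u, P u = 0 → ‖u‖ ≤ K * ‖H u‖ := by
    intro u hu
    have h1 := hanti.le_mul_dist u 0
    rw [dist_zero_right] at h1
    have h2 : dist ((H u, P u) : (E →L[ℝ] ℝ) × E) (H 0, P 0) = ‖H u‖ := by
      rw [map_zero, map_zero, hu, dist_eq_norm, Prod.mk_sub_mk, sub_zero, sub_zero, Prod.norm_mk,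
        norm_zero]
      exact max_eq_left (norm_nonneg _)
    rw [h2] at h1
    exact h1
  set Q : E →L[ℝ] E := 1 - P with hQ
  have hQapp : ∀ x, Q x = x - P x := fun x => rfl
  set ε : ℝ := 1 / (12 * K * (‖Q‖ + 1)) with hε
  have hQn : 0 ≤ ‖Q‖ := norm_nonneg _
  have hεpos : 0 < ε := by
    rw [hε]
    positivity
  have hεmul : 6 * K * ‖Q‖ * ε < 1 := by
    rw [hε]
    rw [mul_one_div, div_lt_one (by positivity)]
    nlinarith
  have hf1 : ContDiff ℝ 1 (fderiv ℝ f) := hf.fderiv_right (by norm_num)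
  have hcont : Continuous (fderiv ℝ (fderiv ℝ f)) := hf1.continuous_fderiv (by norm_num)
  have hcz : ContinuousAt (fderiv ℝ (fderiv ℝ f)) z := hcont.continuousAt
  obtain ⟨ρ, hρ, hρ2⟩ : ∃ ρ > 0, ∀ x ∈ Metric.ball z ρ,
      ‖fderiv ℝ (fderiv ℝ f) x - H‖ < ε := by
    obtain ⟨ρ, hρ, h3⟩ := (Metric.continuousAt_iff (α := E) (β := E →L[ℝ] E →L[ℝ] ℝ)
      (f := fderiv ℝ (fderiv ℝ f)) (a := z)).1 hcz ε hεpos
    refine ⟨ρ, hρ, fun x hx => ?_⟩
    have h4 := h3 (Metric.mem_ball.1 hx)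
    exact (dist_eq_norm (E := E →L[ℝ] E →L[ℝ] ℝ) _ _).symm.trans_lt h4
  refine ⟨ρ, hρ, ε, hεpos, ?_⟩
  intro g hg hTg hclose y hy hcrit
  have hd : Differentiable ℝ g := hg.differentiable (by norm_num)
  have hg1 : ContDiff ℝ 1 (fderiv ℝ g) := hg.fderiv_right (by norm_num)
  have hd1 : Differentiable ℝ (fderiv ℝ g) := hg1.differentiable (by norm_num)
  have hbound : ∀ x ∈ Metric.ball z ρ, ‖fderiv ℝ (fderiv ℝ g) x - H‖ ≤ 2 * ε := by
    intro x hx
    have h1 := hclose x hx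
    have h2 : ‖fderiv ℝ (fderiv ℝ f) x - H‖ ≤ ε := (hρ2 x hx).le
    have h3 : fderiv ℝ (fderiv ℝ g) x - H = (fderiv ℝ (fderiv ℝ g) x - fderiv ℝ (fderiv ℝ f) x) +
        (fderiv ℝ (fderiv ℝ f) x - H) := by abel
    rw [h3]
    refine (norm_add_le (E := E →L[ℝ] E →L[ℝ] ℝ) _ _).trans ?_
    linarith
  -- the non-fixed part of `y`
  set u := y - P y with hu
  have hPP : ∀ x, P (P x) = P x := fun x => EqA_avg_of_fixed Tc p hp _ (hPT x)
  have hPu : P u = 0 := by
    rw [hu, map_sub, hPP, sub_self]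
  have hPz : P z = z := EqA_avg_of_fixed Tc p hp z hz
  -- a fixed point in the ball which is near `y`
  obtain ⟨v, hvT, hvb, hvd⟩ : ∃ v, Tc v = v ∧ v ∈ Metric.ball z ρ ∧ ‖y - v‖ ≤ 3 * ‖u‖ := by
    have hyz : ‖y - z‖ < ρ := by
      rw [← dist_eq_norm]
      exact hy
    have hPyz : ‖P y - z‖ ≤ ‖y - z‖ + ‖u‖ := by
      have h1 : P y - z = (y - z) - u := by rw [hu]; abel
      rw [h1]
      exact norm_sub_le _ _
    by_cases hcase : ρ ≤ ‖u‖
    · refine ⟨z, hz, Metric.mem_ball_self hρ, ?_⟩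
      have := norm_nonneg u
      linarith
    · push Not at hcase
      set l : ℝ := ‖u‖ / ρ with hl
      have hl0 : 0 ≤ l := by positivity
      have hl1 : l < 1 := by rwa [hl, div_lt_one hρ]
      have hlρ : l * ρ = ‖u‖ := by rw [hl]; field_simp
      refine ⟨z + (1 - l) • (P y - z), ?_, ?_, ?_⟩
      · rw [map_add, map_smul, map_sub, hPT]
        have h2 : Tc z = z := hz
        rw [h2]
      · rw [mem_ball_iff_norm, add_sub_cancel_left, norm_smul, Real.norm_of_nonneg (by linarith)]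
        have hun := norm_nonneg u
        have h1 : (1 - l) * ‖P y - z‖ ≤ (1 - l) * (‖y - z‖ + ‖u‖) :=
          mul_le_mul_of_nonneg_left hPyz (by linarith)
        have h2 : (1 - l) * (‖y - z‖ + ‖u‖) < (1 - l) * (ρ + ‖u‖) :=
          mul_lt_mul_of_pos_left (by linarith) (by linarith)
        have h3 : (1 - l) * (ρ + ‖u‖) = ρ - l * ‖u‖ := by
          have : (1 - l) * (ρ + ‖u‖) = ρ + ‖u‖ - l * ρ - l * ‖u‖ := by ring
          rw [this, hlρ]
          ring
        have h4 : 0 ≤ l * ‖u‖ := by positivity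
        linarith
      · have h1 : y - (z + (1 - l) • (P y - z)) = u + l • (P y - z) := by
          rw [hu, sub_smul, one_smul]
          abel
        rw [h1]
        refine (norm_add_le _ _).trans ?_
        rw [norm_smul, Real.norm_of_nonneg hl0]
        have hun := norm_nonneg u
        have h2 : l * ‖P y - z‖ ≤ l * (ρ + ‖u‖) :=
          mul_le_mul_of_nonneg_left (by linarith) hl0
        have h3 : l * (ρ + ‖u‖) = ‖u‖ + l * ‖u‖ := by rw [mul_add, hlρ]
        have h4 : l * ‖u‖ ≤ 1 * ‖u‖ := mul_le_mul_of_nonneg_right hl1.le hun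
        linarith
  have hmv : ‖fderiv ℝ g y - fderiv ℝ g v - H (y - v)‖ ≤ 2 * ε * ‖y - v‖ :=
    (convex_ball z ρ).norm_image_sub_le_of_norm_fderiv_le' (fun x _ => hd1 x) hbound hvb hy
  rw [hcrit, zero_sub] at hmv
  -- compose with `Q`
  have hvQ : (fderiv ℝ g v).comp Q = 0 := by
    ext1 w
    show fderiv ℝ g v (w - P w) = 0
    refine EqA_avg_functional Tc p hp (fderiv ℝ g v) (fun w => ?_) w
    have h1 := EqA_fderiv g hd Tc hTg v w
    rw [hvT] at h1
    exact h1
  have hHu : H u = (H (y - v)).comp Q := by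
    ext1 w
    show H u w = H (y - v) (w - P w)
    have hyv : y - v = u + P (y - v) := by
      have hPv : P v = v := EqA_avg_of_fixed Tc p hp v hvT
      rw [map_sub, hPv, hu]
      abel
    have hw : w = (w - P w) + P w := by abel
    have h1 : H u w = H u (w - P w) := by
      conv_lhs => rw [hw]
      rw [map_add]
      have h2 : H u (P w) = 0 := horth2 (P w) y (hPT w)
      rw [h2, add_zero]
    rw [h1]
    conv_rhs => rw [hyv]
    rw [map_add]
    show H u (w - P w) = H u (w - P w) + H (P (y - v)) (w - P w)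
    rw [horth1 _ w (hPT _), add_zero]
  have hfin : ‖H u‖ ≤ 2 * ε * ‖y - v‖ * ‖Q‖ := by
    have h1 : (-(fderiv ℝ g v) - H (y - v)).comp Q = -(H u) := by
      rw [ContinuousLinearMap.sub_comp, ContinuousLinearMap.neg_comp, hvQ, hHu]
      simp
    have h2 : ‖(-(fderiv ℝ g v) - H (y - v)).comp Q‖ ≤ ‖-(fderiv ℝ g v) - H (y - v)‖ * ‖Q‖ :=
      ContinuousLinearMap.opNorm_comp_le _ _
    rw [h1, norm_neg] at h2
    exact h2.trans (mul_le_mul_of_nonneg_right hmv hQn)
  have hu0 : ‖u‖ = 0 := by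
    by_contra hne
    have hupos : 0 < ‖u‖ := lt_of_le_of_ne (norm_nonneg _) (Ne.symm hne)
    have h1 := hlow u hPu
    have h2 : ‖H u‖ ≤ 2 * ε * (3 * ‖u‖) * ‖Q‖ :=
      hfin.trans (mul_le_mul_of_nonneg_right
        (mul_le_mul_of_nonneg_left hvd (by positivity)) hQn)
    have h3 : K * ‖H u‖ ≤ K * (2 * ε * (3 * ‖u‖) * ‖Q‖) :=
      mul_le_mul_of_nonneg_left h2 hKpos.le
    have h4 : K * (2 * ε * (3 * ‖u‖) * ‖Q‖) = (6 * K * ‖Q‖ * ε) * ‖u‖ := by ring
    have h5 : (6 * K * ‖Q‖ * ε) * ‖u‖ < 1 * ‖u‖ := mul_lt_mul_of_pos_right hεmul hupos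
    linarith
  have hy0 : y = P y := sub_eq_zero.1 (norm_eq_zero.1 hu0)
  have h1 : Tc y = y := by
    rw [hy0]
    exact hPT y
  exact h1

variable {ι : Type*} [Fintype ι] [DecidableEq ι]

omit [DecidableEq ι] in
/-- Invariant perturbations of `f` have only fixed critical points near `z`, if the kernel of the
Hessian of `f` at `z` is contained in the fixed space. -/
theorem crit_fixed (f : (ι → ℝ) → ℝ) (hf : ContDiff ℝ 2 f) (T : (ι → ℝ) →ₗ[ℝ] (ι → ℝ)) (p : ℕ)
    (hp : 0 < p) (hT : T ^ p = 1) (hTf : ∀ x, f (T x) = f x) (z : ι → ℝ) (hz : T z = z)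
    (hadm : ∀ v, fderiv ℝ (fderiv ℝ f) z v = 0 → T v = v) :
    ∃ ρ > 0, ∃ η > 0, ∀ g : (ι → ℝ) → ℝ, ContDiff ℝ 2 g → (∀ x, g (T x) = g x) →
      (∀ y ∈ Metric.ball z ρ, ‖fderiv ℝ (fderiv ℝ g) y - fderiv ℝ (fderiv ℝ f) y‖ ≤ η) →
      ∀ y ∈ Metric.ball z ρ, fderiv ℝ g y = 0 → T y = y :=
  EqA_main f hf T p hp hT hTf z hz hadm

end Pool.Agent.H47.QG
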