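import Pool.Agent.H47.QG.IterD
import Pool.Agent.H47.QG.IdxA

/-!
# Index of iterates
-/

set_option autoImplicit false

open Module QuadraticForm

namespace Pool.Agent.H47.QG

variable {n : ℕ}

variable (S : ℕ → Pt n → ℝ) (f : ℕ → Pt n → Pt n)

/-- next element of `Fin K` -/
theorem IterA_succ (K : ℕ) [NeZero K] (j : Fin K) :
    ((j : ℕ) + 1 < K ∧ ((j + 1 : Fin K) : ℕ) = j + 1) ∨
      ((j : ℕ) + 1 = K ∧ ((j + 1 : Fin K) : ℕ) = 0) := by
  have hK : 0 < K := Nat.pos_of_neZero K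
  have h1 : ((j + 1 : Fin K) : ℕ) = (j + 1) % K := by
    rw [Fin.val_add, Fin.val_one', Nat.add_mod_mod]
  rcases Nat.lt_or_ge ((j : ℕ) + 1) K with h | h
  · exact Or.inl ⟨h, by rw [h1, Nat.mod_eq_of_lt h]⟩
  · have h2 : (j : ℕ) + 1 = K := le_antisymm j.isLt h
    exact Or.inr ⟨h2, by rw [h1, h2, Nat.mod_self]⟩

theorem IterA_oseq {K : ℕ} [NeZero K] {w : Pt n} (hw : flw f K w = w) (j : Fin K) :
    oseq f K w (j + 1) = flw f (j + 1) w := by
  rcases IterA_succ K j with ⟨-, h⟩ | ⟨h1, h⟩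
  · simp only [oseq, h]
  · simp only [oseq, h, h1, hw]
    rfl

/-- concatenation -/
def IterA_app (K1 K2 : ℕ) :
    ((Fin K1 → Pt n) × (Fin K2 → Pt n)) ≃ₗ[ℝ] (Fin (K1 + K2) → Pt n) where
  toFun v := Fin.append v.1 v.2
  map_add' u v := by
    funext j
    refine Fin.addCases (fun i => ?_) (fun i => ?_) j
    · simp [Fin.append_left]
    · simp [Fin.append_right]
  map_smul' c v := by
    funext j
    refine Fin.addCases (fun i => ?_) (fun i => ?_) j
    · simp [Fin.append_left]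
    · simp [Fin.append_right]
  invFun v := (fun i => v (Fin.castAdd K2 i), fun i => v (Fin.natAdd K1 i))
  left_inv v := by
    ext <;> simp [Fin.append_left, Fin.append_right]
  right_inv v := by
    funext j
    refine Fin.addCases (fun i => ?_) (fun i => ?_) j
    · simp [Fin.append_left]
    · simp [Fin.append_right]

theorem IterA_left {K1 K2 : ℕ} [NeZero K1] [NeZero K2] [NeZero (K1 + K2)] (v1 : Fin K1 → Pt n)
    (v2 : Fin K2 → Pt n) (h1 : (v1 0).1 = 0) (h2 : (v2 0).1 = 0) (i : Fin K1) :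
    (Fin.append v1 v2 (Fin.castAdd K2 i + 1)).1 = (v1 (i + 1)).1 := by
  rcases IterA_succ K1 i with ⟨h3, h4⟩ | ⟨h3, h4⟩
  · have h5 : (Fin.castAdd K2 i + 1 : Fin (K1 + K2)) = Fin.castAdd K2 (i + 1) := by
      apply Fin.ext
      rcases IterA_succ (K1 + K2) (Fin.castAdd K2 i) with ⟨-, h6⟩ | ⟨h6, -⟩
      · rw [h6, Fin.val_castAdd, Fin.val_castAdd, h4]
      · rw [Fin.val_castAdd] at h6
        omega
    rw [h5, Fin.append_left]
  · have hK2 : 0 < K2 := Nat.pos_of_neZero K2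
    have h5 : (Fin.castAdd K2 i + 1 : Fin (K1 + K2)) = Fin.natAdd K1 0 := by
      apply Fin.ext
      rcases IterA_succ (K1 + K2) (Fin.castAdd K2 i) with ⟨-, h6⟩ | ⟨h6, -⟩
      · rw [h6, Fin.val_castAdd, Fin.val_natAdd, h3]
        rfl
      · rw [Fin.val_castAdd] at h6
        omega
    have h6 : (i + 1 : Fin K1) = 0 := Fin.ext h4
    rw [h5, Fin.append_right, h6, h1, h2]

theorem IterA_right {K1 K2 : ℕ} [NeZero K1] [NeZero K2] [NeZero (K1 + K2)] (v1 : Fin K1 → Pt n)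
    (v2 : Fin K2 → Pt n) (h1 : (v1 0).1 = 0) (h2 : (v2 0).1 = 0) (i : Fin K2) :
    (Fin.append v1 v2 (Fin.natAdd K1 i + 1)).1 = (v2 (i + 1)).1 := by
  rcases IterA_succ K2 i with ⟨h3, h4⟩ | ⟨h3, h4⟩
  · have h5 : (Fin.natAdd K1 i + 1 : Fin (K1 + K2)) = Fin.natAdd K1 (i + 1) := by
      apply Fin.ext
      rcases IterA_succ (K1 + K2) (Fin.natAdd K1 i) with ⟨-, h6⟩ | ⟨h6, -⟩
      · rw [h6, Fin.val_natAdd, Fin.val_natAdd, h4]
        rfl
      · rw [Fin.val_natAdd] at h6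
        omega
    rw [h5, Fin.append_right]
  · have hK1 : 0 < K1 := Nat.pos_of_neZero K1
    have h5 : (Fin.natAdd K1 i + 1 : Fin (K1 + K2)) = Fin.castAdd K2 0 := by
      apply Fin.ext
      rcases IterA_succ (K1 + K2) (Fin.natAdd K1 i) with ⟨h6, -⟩ | ⟨-, h6⟩
      · rw [Fin.val_natAdd] at h6
        omega
      · rw [h6, Fin.val_castAdd]
        rfl
    have h6 : (i + 1 : Fin K2) = 0 := Fin.ext h4
    rw [h5, Fin.append_left, h6, h1, h2]

theorem IterA_hess (hS : ∀ j, ContDiff ℝ 2 (S j)) {K1 K2 : ℕ} [NeZero K1] [NeZero K2]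
    [NeZero (K1 + K2)] (hS1 : ∀ j, S (K1 + j) = S j) {w : Pt n}
    (hf1 : ∀ j, flw f (K1 + j) w = flw f j w) (hf2 : flw f K2 w = w)
    (v1 : Fin K1 → Pt n) (v2 : Fin K2 → Pt n) (h1 : (v1 0).1 = 0) (h2 : (v2 0).1 = 0) :
    hess (action S (K1 + K2)) (oseq f (K1 + K2) w) (Fin.append v1 v2) =
      hess (action S K1) (oseq f K1 w) v1 + hess (action S K2) (oseq f K2 w) v2 := by
  have hw1 : flw f K1 w = w := hf1 0
  have hw2 : flw f (K1 + K2) w = w := by rw [hf1, hf2]
  rw [hess_action S hS, hess_action S hS, hess_action S hS, Fin.sum_univ_add]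
  congr 1
  · refine Finset.sum_congr rfl fun i _ => ?_
    rw [IterA_left v1 v2 h1 h2, Fin.append_left, IterA_oseq f hw2, IterA_oseq f hw1]
    rfl
  · refine Finset.sum_congr rfl fun i _ => ?_
    rw [IterA_right v1 v2 h1 h2, Fin.append_right, IterA_oseq f hw2, IterA_oseq f hf2,
      Fin.val_natAdd, hS1]
    simp only [oseq, Fin.val_natAdd, add_assoc, hf1]

theorem IterA_core (hS : ∀ j, ContDiff ℝ 2 (S j)) {K1 K2 : ℕ} [NeZero K1] [NeZero K2]
    [NeZero (K1 + K2)] (hS1 : ∀ j, S (K1 + j) = S j) {w : Pt n}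
    (hf1 : ∀ j, flw f (K1 + j) w = flw f j w) (hf2 : flw f K2 w = w) :
    |(sigNeg (hess (action S (K1 + K2)) (oseq f (K1 + K2) w)) : ℝ) -
      sigNeg (hess (action S K1) (oseq f K1 w)) - sigNeg (hess (action S K2) (oseq f K2 w))| ≤
      2 * n := by
  set L : ((Fin K1 → Pt n) × (Fin K2 → Pt n)) →ₗ[ℝ] (Fin n → ℝ) × (Fin n → ℝ) :=
    { toFun := fun v => ((v.1 0).1, (v.2 0).1)
      map_add' := fun _ _ => rfl
      map_smul' := fun _ _ => rfl } with hL
  have hdim : finrank ℝ ((Fin K1 → Pt n) × (Fin K2 → Pt n)) ≤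
      finrank ℝ (LinearMap.ker L) + 2 * n := by
    have h3 := LinearMap.finrank_range_add_finrank_ker L
    have h4 : finrank ℝ (LinearMap.range L) ≤ finrank ℝ ((Fin n → ℝ) × (Fin n → ℝ)) :=
      Submodule.finrank_le _
    have h5 : finrank ℝ ((Fin n → ℝ) × (Fin n → ℝ)) = 2 * n := by
      rw [Module.finrank_prod, Module.finrank_fin_fun]
      ring
    omega
  have hdimE : finrank ℝ (Fin (K1 + K2) → Pt n) =
      finrank ℝ ((Fin K1 → Pt n) × (Fin K2 → Pt n)) := (IterA_app (n := n) K1 K2).finrank_eq.symm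
  set i1 : LinearMap.ker L →ₗ[ℝ] ((Fin K1 → Pt n) × (Fin K2 → Pt n)) :=
    (LinearMap.ker L).subtype with hi1
  have hi1' : Function.Injective i1 := Subtype.val_injective
  set i2 : LinearMap.ker L →ₗ[ℝ] (Fin (K1 + K2) → Pt n) :=
    (IterA_app (n := n) K1 K2).toLinearMap ∘ₗ i1 with hi2
  have hi2' : Function.Injective i2 := (IterA_app (n := n) K1 K2).injective.comp hi1'
  have heq : (hess (action S (K1 + K2)) (oseq f (K1 + K2) w)).comp i2 =
      (QuadraticMap.prod (hess (action S K1) (oseq f K1 w))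
        (hess (action S K2) (oseq f K2 w))).comp i1 := by
    ext v
    have hv : L v = 0 := v.2
    have hv1 : (v.1.1 0).1 = 0 := congrArg Prod.fst hv
    have hv2 : (v.1.2 0).1 = 0 := congrArg Prod.snd hv
    exact IterA_hess S f hS hS1 hf1 hf2 v.1.1 v.1.2 hv1 hv2
  have a1 := sigNeg_comp_le (hess (action S (K1 + K2)) (oseq f (K1 + K2) w)) i2 hi2'
  have a2 := sigNeg_le_comp (hess (action S (K1 + K2)) (oseq f (K1 + K2) w)) i2 hi2'
  have a3 := sigNeg_comp_le (QuadraticMap.prod (hess (action S K1) (oseq f K1 w))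
        (hess (action S K2) (oseq f K2 w))) i1 hi1'
  have a4 := sigNeg_le_comp (QuadraticMap.prod (hess (action S K1) (oseq f K1 w))
        (hess (action S K2) (oseq f K2 w))) i1 hi1'
  rw [heq] at a1 a2
  rw [sigNeg_prod] at a3 a4
  have b1 : sigNeg (hess (action S (K1 + K2)) (oseq f (K1 + K2) w)) ≤
      sigNeg (hess (action S K1) (oseq f K1 w)) + sigNeg (hess (action S K2) (oseq f K2 w)) +
        2 * n := by omega
  have b2 : sigNeg (hess (action S K1) (oseq f K1 w)) + sigNeg (hess (action S K2) (oseq f K2 w)) ≤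
      sigNeg (hess (action S (K1 + K2)) (oseq f (K1 + K2) w)) + 2 * n := by omega
  have c1 : ((sigNeg (hess (action S (K1 + K2)) (oseq f (K1 + K2) w)) : ℕ) : ℝ) ≤
      sigNeg (hess (action S K1) (oseq f K1 w)) + sigNeg (hess (action S K2) (oseq f K2 w)) +
        2 * n := by exact_mod_cast b1
  have c2 : ((sigNeg (hess (action S K1) (oseq f K1 w)) : ℕ) : ℝ) +
      sigNeg (hess (action S K2) (oseq f K2 w)) ≤
      sigNeg (hess (action S (K1 + K2)) (oseq f (K1 + K2) w)) + 2 * n := by exact_mod_cast b2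
  rw [abs_le]
  constructor <;> linarith

theorem IterA_flw {N : ℕ} (hfper : ∀ j, f (j + N) = f j) {w : Pt n} (hw : flw f N w = w)
    (j : ℕ) : flw f (N + j) w = flw f j w := by
  induction j with
  | zero => exact hw
  | succ j ih =>
    show f (N + j) (flw f (N + j) w) = f j (flw f j w)
    rw [ih, Nat.add_comm N j, hfper]

theorem IterA_flw_mul {N : ℕ} (hfper : ∀ j, f (j + N) = f j) {w : Pt n} (hw : flw f N w = w)
    (p j : ℕ) : flw f (p * N + j) w = flw f j w := by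
  induction p with
  | zero => simp
  | succ p ih =>
    rw [Nat.succ_mul, Nat.add_comm (p * N) N, Nat.add_assoc, IterA_flw f hfper hw, ih]

theorem IterA_S_mul {N : ℕ} (hper : ∀ j, S (j + N) = S j) (p j : ℕ) :
    S (p * N + j) = S j := by
  induction p with
  | zero => simp
  | succ p ih =>
    rw [Nat.succ_mul, Nat.add_right_comm, hper, ih]

/-- index of iterates: almost additive -/
theorem ind_add (hS : ∀ j, Gen (S j) (f j)) (N : ℕ) (hN : 0 < N) (hper : ∀ j, S (j + N) = S j)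
    (hfper : ∀ j, f (j + N) = f j) (w : Pt n) (hw : flw f N w = w) (p q : ℕ) (hp : 0 < p)
    (hq : 0 < q) :
    |(ind S f ((p + q) * N) w : ℝ) - ind S f (p * N) w - ind S f (q * N) w| ≤ 2 * n := by
  have h1 : p * N ≠ 0 := (Nat.mul_pos hp hN).ne'
  have h2 : q * N ≠ 0 := (Nat.mul_pos hq hN).ne'
  have h3 : p * N + q * N ≠ 0 := by omega
  have : NeZero (p * N) := ⟨h1⟩
  have : NeZero (q * N) := ⟨h2⟩
  have : NeZero (p * N + q * N) := ⟨h3⟩
  rw [Nat.add_mul]
  unfold ind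
  rw [dif_neg h1, dif_neg h2, dif_neg h3]
  have hq0 : flw f (q * N) w = w := IterA_flw_mul f hfper hw q 0
  exact IterA_core S f (fun j => (hS j).smooth) (IterA_S_mul S hper p)
    (IterA_flw_mul f hfper hw p) hq0

end Pool.Agent.H47.QG
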