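import Pool.Agent.H47.QG.Idx

/-!
# Small regular values
-/

set_option autoImplicit false

open Module QuadraticForm

namespace Pool.Agent.H47.QG

/-- the set of critical values of a differentiable map is a null set -/
theorem sardV_null {ι : Type*} [Fintype ι] (G : (ι → ℝ) → (ι → ℝ))
    (hG : ContDiff ℝ 1 G) :
    MeasureTheory.volume (G '' {x | (fderiv ℝ G x).det = 0}) = 0 := by
  refine MeasureTheory.addHaar_image_eq_zero_of_det_fderivWithin_eq_zero MeasureTheory.volume
    (f' := fun x => fderiv ℝ G x) ?_ ?_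
  · intro x _
    exact ((hG.differentiable (by simp)) x).hasFDerivAt.hasFDerivWithinAt
  · intro x hx
    exact hx

/-- arbitrarily small regular values of a `C^1` map -/
theorem exists_regular_value {ι : Type*} [Fintype ι] (G : (ι → ℝ) → (ι → ℝ))
    (hG : ContDiff ℝ 1 G) (δ : ℝ) (hδ : 0 < δ) :
    ∃ a : ι → ℝ, ‖a‖ < δ ∧ ∀ x, G x = a → (fderiv ℝ G x).det ≠ 0 := by
  have h0 := sardV_null G hG
  have hpos : (0 : ENNReal) < MeasureTheory.volume (Metric.ball (0 : ι → ℝ) δ) :=
    Metric.measure_ball_pos _ _ hδ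
  by_contra hcon
  push Not at hcon
  have hsub : Metric.ball (0 : ι → ℝ) δ ⊆ G '' {x | (fderiv ℝ G x).det = 0} := by
    intro a ha
    obtain ⟨x, hx, hdet⟩ := hcon a (by simpa using ha)
    exact ⟨x, hdet, hx⟩
  have hle := MeasureTheory.measure_mono (μ := MeasureTheory.volume) hsub
  rw [h0] at hle
  exact absurd hle (not_le.mpr hpos)

end Pool.Agent.H47.QG
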