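import Pool.Agent.H47.QG.LocD
import Pool.Agent.H47.QG.IdxS
import Pool.Agent.H47.QG.SardV

/-!
# Local index: nondegenerate points, linear changes
-/

set_option autoImplicit false

open Module QuadraticForm

namespace Pool.Agent.H47.QG

variable {E F : Type*} [NormedAddCommGroup E] [NormedSpace ℝ E] [FiniteDimensional ℝ E]
  [NormedAddCommGroup F] [NormedSpace ℝ F] [FiniteDimensional ℝ F]

omit [FiniteDimensional ℝ E] in
/-- the derivative of a `C^2` function is `C^1` -/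
theorem LocN_c1 (A : E → ℝ) (hA : ContDiff ℝ 2 A) : ContDiff ℝ 1 (fderiv ℝ A) :=
  hA.fderiv_right (m := 1) (by norm_num)

theorem LocN_finrank : finrank ℝ (E →L[ℝ] ℝ) = finrank ℝ E := by
  rw [← (LinearMap.toContinuousLinearMap (𝕜 := ℝ) (E := E) (F' := ℝ)).finrank_eq]
  exact Subspace.dual_finrank_eq

/-- a nondegenerate Hessian has signature sum equal to the dimension -/
theorem LocN_sig (A : E → ℝ) (hA : ContDiff ℝ 2 A) (z : E)
    (hnd : ∀ v, fderiv ℝ (fderiv ℝ A) z v = 0 → v = 0) :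
    sigPos (hess A z) + sigNeg (hess A z) = finrank ℝ E := by
  have h1 := QuadraticForm.sigPos_add_sigNeg_add_radical (Q := hess A z)
  have hsym : IsSymmSndFDerivAt ℝ A z := by
    apply hA.contDiffAt.isSymmSndFDerivAt
    simp
  have h2 : (hess A z).radical = ⊥ := by
    rw [Submodule.eq_bot_iff]
    intro v hv
    have hv' := QuadraticMap.mem_radical_iff'.1 hv
    apply hnd
    ext w
    have h3 := hv'.2 w
    have h4 := hv'.1
    rw [hess_apply] at h3 h4
    rw [hess_apply] at h3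
    simp only [map_add, add_apply] at h3
    have h5 := hsym v w
    simp only [zero_apply]
    linarith
  rw [h2, finrank_bot] at h1
  simpa using h1

omit [FiniteDimensional ℝ E] in
theorem LocN_hess_le (A : E → ℝ) (y z v : E) :
    |hess A y v - hess A z v| ≤
      ‖fderiv ℝ (fderiv ℝ A) y - fderiv ℝ (fderiv ℝ A) z‖ * ‖v‖ ^ 2 := by
  rw [hess_apply, hess_apply]
  have h1 : fderiv ℝ (fderiv ℝ A) y v v - fderiv ℝ (fderiv ℝ A) z v v =
      (fderiv ℝ (fderiv ℝ A) y - fderiv ℝ (fderiv ℝ A) z) v v := rfl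
  rw [h1, ← Real.norm_eq_abs, pow_two, ← mul_assoc]
  exact ContinuousLinearMap.le_opNorm₂ _ _ _

/-- nondegenerate critical points -/
theorem locIdx_nondeg (A : E → ℝ) (hA : ContDiff ℝ 2 A) (z : E) (hz : fderiv ℝ A z = 0)
    (hnd : ∀ v, fderiv ℝ (fderiv ℝ A) z v = 0 → v = 0) :
    LocIdx A z ((-1) ^ sigNeg (hess A z)) := by
  have hG := LocN_c1 A hA
  -- the derivative as an equivalence
  have hinj : Function.Injective (fderiv ℝ (fderiv ℝ A) z : E →ₗ[ℝ] (E →L[ℝ] ℝ)) := by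
    rw [← LinearMap.ker_eq_bot, LinearMap.ker_eq_bot']
    intro v hv
    exact hnd v hv
  let L₀ : E ≃ₗ[ℝ] (E →L[ℝ] ℝ) := LinearEquiv.ofInjectiveOfFinrankEq _ hinj LocN_finrank.symm
  let L : E ≃L[ℝ] (E →L[ℝ] ℝ) := L₀.toContinuousLinearEquiv
  have hL : (L : E →L[ℝ] (E →L[ℝ] ℝ)) = fderiv ℝ (fderiv ℝ A) z := by
    ext v w
    rfl
  have hs : HasStrictFDerivAt (fderiv ℝ A) (L : E →L[ℝ] (E →L[ℝ] ℝ)) z := by
    rw [hL]
    exact hG.contDiffAt.hasStrictFDerivAt one_ne_zero
  let e := hs.toOpenPartialHomeomorph (fderiv ℝ A)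
  have he : (e : E → (E →L[ℝ] ℝ)) = fderiv ℝ A := hs.toOpenPartialHomeomorph_coe
  have hze : z ∈ e.source := hs.mem_toOpenPartialHomeomorph_source
  -- semicontinuity of the index
  obtain ⟨δ0, hδ0, hsc⟩ := sigNeg_semicont (hess A z)
  have hcont : Continuous fun y => ‖fderiv ℝ (fderiv ℝ A) y - fderiv ℝ (fderiv ℝ A) z‖ :=
    ((hG.continuous_fderiv one_ne_zero).sub continuous_const).norm
  obtain ⟨r1, hr1, hr1'⟩ := Metric.continuousAt_iff.1 (hcont.continuousAt (x := z)) δ0 hδ0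
  obtain ⟨r2, hr2, hr2'⟩ := Metric.isOpen_iff.1 e.open_source z hze
  have hr : 0 < min r1 r2 / 2 := half_pos (lt_min hr1 hr2)
  have hlt1 : min r1 r2 / 2 < r1 := by
    have := min_le_left r1 r2
    linarith
  have hlt2 : min r1 r2 / 2 < r2 := by
    have := min_le_right r1 r2
    linarith
  have hsrc : Metric.closedBall z (min r1 r2 / 2) ⊆ e.source :=
    (Metric.closedBall_subset_ball hlt2).trans hr2'
  have hsig : ∀ y ∈ Metric.closedBall z (min r1 r2 / 2),
      sigNeg (hess A y) = sigNeg (hess A z) := by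
    intro y hy
    have h1 : dist y z < r1 := lt_of_le_of_lt (Metric.mem_closedBall.1 hy) hlt1
    have h2 := hr1' h1
    have h3 := hsc (hess A y) (by
      intro v
      refine (LocN_hess_le A y z v).trans ?_
      refine mul_le_mul_of_nonneg_right ?_ (sq_nonneg _)
      have h6 : ‖fderiv ℝ (fderiv ℝ A) z - fderiv ℝ (fderiv ℝ A) z‖ = 0 := by
        have h7 : fderiv ℝ (fderiv ℝ A) z - fderiv ℝ (fderiv ℝ A) z = 0 := sub_self _
        rw [h7]
        exact ContinuousLinearMap.opNorm_zero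
      rw [h6, dist_zero_right, Real.norm_eq_abs] at h2
      exact ((le_abs_self _).trans h2.le))
    have h4 := LocN_sig A hA z hnd
    have h5 := QuadraticForm.sigPos_add_sigNeg_add_radical (Q := hess A y)
    omega
  refine ⟨min r1 r2 / 2, hr, ?_, ?_⟩
  · intro y hy hy0
    apply e.injOn (hsrc hy) hze
    rw [he, hy0, hz]
  · have hopen : IsOpen (fderiv ℝ A '' Metric.ball z (min r1 r2 / 2)) := by
      rw [← he]
      exact e.isOpen_image_of_subset_source Metric.isOpen_ball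
        (Metric.ball_subset_closedBall.trans hsrc)
    have h0 : (0 : E →L[ℝ] ℝ) ∈ fderiv ℝ A '' Metric.ball z (min r1 r2 / 2) :=
      ⟨z, Metric.mem_ball_self hr, hz⟩
    obtain ⟨δ, hδ, hδ'⟩ := Metric.isOpen_iff.1 hopen 0 h0
    refine ⟨δ, hδ, ?_⟩
    intro a ha _
    obtain ⟨y0, hy0, hya⟩ := hδ' (mem_ball_zero_iff.2 ha)
    refine ⟨{y0}, ?_, ?_⟩
    · intro y
      rw [Finset.mem_singleton]
      constructor
      · rintro rfl
        exact ⟨hy0, hya⟩
      · rintro ⟨hy, hy'⟩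
        apply e.injOn (hsrc (Metric.ball_subset_closedBall hy))
          (hsrc (Metric.ball_subset_closedBall hy0))
        rw [he, hy', hya]
    · rw [Finset.sum_singleton, hsig y0 (Metric.ball_subset_closedBall hy0)]

omit [FiniteDimensional ℝ E] [FiniteDimensional ℝ F] in
theorem LocN_fderiv (A : E → ℝ) (hA : ContDiff ℝ 2 A) (e : F ≃L[ℝ] E) (c : ℝ) :
    fderiv ℝ (fun y => c * A (e y)) = fun y => c • (fderiv ℝ A (e y)).comp (e : F →L[ℝ] E) := by
  funext y
  have h1 : HasFDerivAt A (fderiv ℝ A (e y)) (e y) :=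
    (hA.differentiable (by norm_num) (e y)).hasFDerivAt
  have h2 : HasFDerivAt (fun y => A (e y)) ((fderiv ℝ A (e y)).comp (e : F →L[ℝ] E)) y :=
    h1.comp y e.hasFDerivAt
  exact (h2.const_mul c).fderiv

omit [FiniteDimensional ℝ E] [FiniteDimensional ℝ F] in
theorem LocN_fderiv2 (A : E → ℝ) (hA : ContDiff ℝ 2 A) (e : F ≃L[ℝ] E) (c : ℝ) (y v w : F) :
    fderiv ℝ (fderiv ℝ (fun y => c * A (e y))) y v w =
      c * fderiv ℝ (fderiv ℝ A) (e y) (e v) (e w) := by
  rw [LocN_fderiv A hA e c]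
  have h1 : HasFDerivAt (fderiv ℝ A) (fderiv ℝ (fderiv ℝ A) (e y)) (e y) :=
    ((LocN_c1 A hA).differentiable (by norm_num) (e y)).hasFDerivAt
  have h2 : HasFDerivAt (fun y => fderiv ℝ A (e y))
      ((fderiv ℝ (fderiv ℝ A) (e y)).comp (e : F →L[ℝ] E)) y :=
    h1.comp y e.hasFDerivAt
  let K : (E →L[ℝ] ℝ) →L[ℝ] (F →L[ℝ] ℝ) :=
    (ContinuousLinearMap.compL ℝ F E ℝ).flip (e : F →L[ℝ] E)
  have h3 : HasFDerivAt (fun y => c • K (fderiv ℝ A (e y)))
      (c • K.comp ((fderiv ℝ (fderiv ℝ A) (e y)).comp (e : F →L[ℝ] E))) y :=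
    (K.hasFDerivAt.comp y h2).const_smul c
  have h4 : (fun y => c • (fderiv ℝ A (e y)).comp (e : F →L[ℝ] E)) =
      fun y => c • K (fderiv ℝ A (e y)) := rfl
  rw [h4, h3.fderiv]
  rfl

omit [FiniteDimensional ℝ F] in
theorem LocN_sigNeg (A : E → ℝ) (hA : ContDiff ℝ 2 A) (e : F ≃L[ℝ] E) (c : ℝ) (hc : 0 < c)
    (y : F) : sigNeg (hess (fun y => c * A (e y)) y) = sigNeg (hess A (e y)) := by
  rw [← sigNeg_smul (hess A (e y)) c hc]
  apply QuadraticMap.Equivalent.sigNeg_eq
  refine ⟨{ e.toLinearEquiv with map_app' := ?_ }⟩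
  intro v
  show (c • hess A (e y)) (e v) = hess (fun y => c * A (e y)) y v
  rw [smul_apply, hess_apply, hess_apply, LocN_fderiv2 A hA e c, smul_eq_mul]

/-- linear changes of variables and positive multiples -/
theorem locIdx_comp (A : E → ℝ) (hA : ContDiff ℝ 2 A) (z : E) (s : ℤ) (h : LocIdx A z s)
    (e : F ≃L[ℝ] E) (c : ℝ) (hc : 0 < c) :
    LocIdx (fun y => c * A (e y)) (e.symm z) s := by
  classical
  obtain ⟨r, hr, hcrit, δ, hδ, hX⟩ := h
  have hc0 : c ≠ 0 := hc.ne'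
  -- the radius in F
  have hce : ContinuousAt (e : F → E) (e.symm z) := e.continuous.continuousAt
  obtain ⟨r1, hr1, hr1'⟩ := Metric.continuousAt_iff.1 hce r hr
  have hez : (e : F → E) (e.symm z) = z := e.apply_symm_apply z
  have hball : ∀ y ∈ Metric.closedBall (e.symm z) (r1 / 2), e y ∈ Metric.ball z r := by
    intro y hy
    have h1 : dist y (e.symm z) < r1 := by
      have := Metric.mem_closedBall.1 hy
      linarith
    have h2 := hr1' h1
    rw [hez] at h2
    exact h2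
  -- a lower bound for the derivative away from z
  have hGc : Continuous (fderiv ℝ A) := (LocN_c1 A hA).continuous
  have hm : ∃ m > 0, ∀ x ∈ Metric.closedBall z r, ‖fderiv ℝ A x‖ < m →
      e.symm x ∈ Metric.ball (e.symm z) (r1 / 2) := by
    have hK : IsCompact (Metric.closedBall z r \ (e.symm ⁻¹' Metric.ball (e.symm z) (r1 / 2))) :=
      (isCompact_closedBall z r).diff (Metric.isOpen_ball.preimage e.symm.continuous)
    rcases Set.eq_empty_or_nonempty
      (Metric.closedBall z r \ (e.symm ⁻¹' Metric.ball (e.symm z) (r1 / 2))) with hem | hne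
    · refine ⟨1, one_pos, fun x hx _ => ?_⟩
      by_contra hcon
      have : x ∈ Metric.closedBall z r \ (e.symm ⁻¹' Metric.ball (e.symm z) (r1 / 2)) := ⟨hx, hcon⟩
      rw [hem] at this
      exact this
    · obtain ⟨x0, hx0, hmin⟩ := hK.exists_isMinOn hne (f := fun x => ‖fderiv ℝ A x‖)
        hGc.norm.continuousOn
      have hpos : 0 < ‖fderiv ℝ A x0‖ := by
        rw [norm_pos_iff]
        intro h0
        have h1 := hcrit x0 hx0.1 h0
        apply hx0.2
        rw [h1]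
        exact Metric.mem_ball_self (half_pos hr1)
      refine ⟨‖fderiv ℝ A x0‖, hpos, fun x hx hlt => ?_⟩
      by_contra hcon
      exact absurd hlt (not_lt.2 (hmin ⟨hx, hcon⟩))
  obtain ⟨m, hm0, hm1⟩ := hm
  refine ⟨r1 / 2, half_pos hr1, ?_, ?_⟩
  · intro y hy hy0
    rw [LocN_fderiv A hA e c] at hy0
    have h1 : fderiv ℝ A (e y) = 0 := by
      ext w
      have h2 := DFunLike.congr_fun hy0 (e.symm w)
      simp only [smul_apply, ContinuousLinearMap.comp_apply,
        ContinuousLinearEquiv.coe_coe, ContinuousLinearEquiv.apply_symm_apply, smul_eq_mul,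
        zero_apply, mul_eq_zero] at h2
      rcases h2 with h2 | h2
      · exact absurd h2 hc0
      · simpa using h2
    have h2 := hcrit (e y) (Metric.ball_subset_closedBall (hball y hy)) h1
    rw [← h2, e.symm_apply_apply]
  · -- the transported functional
    have hk : 0 < ‖(e.symm : E →L[ℝ] F)‖ + 1 := by positivity
    refine ⟨c * min δ m / (‖(e.symm : E →L[ℝ] F)‖ + 1), by positivity, ?_⟩
    intro b hb hreg
    have hanorm : ‖c⁻¹ • b.comp (e.symm : E →L[ℝ] F)‖ < min δ m := by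
      rw [norm_smul, Real.norm_eq_abs, abs_of_pos (inv_pos.2 hc), inv_mul_lt_iff₀ hc]
      have h1 : ‖b.comp (e.symm : E →L[ℝ] F)‖ ≤ ‖b‖ * ‖(e.symm : E →L[ℝ] F)‖ :=
        ContinuousLinearMap.opNorm_comp_le _ _
      have h2 : ‖b‖ * ‖(e.symm : E →L[ℝ] F)‖ ≤ ‖b‖ * (‖(e.symm : E →L[ℝ] F)‖ + 1) := by
        apply mul_le_mul_of_nonneg_left _ (norm_nonneg _)
        linarith
      have h3 : ‖b‖ * (‖(e.symm : E →L[ℝ] F)‖ + 1) < c * min δ m := by
        rwa [lt_div_iff₀ hk] at hb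
      linarith
    have hiff : ∀ y : F, fderiv ℝ (fun y => c * A (e y)) y = b ↔
        fderiv ℝ A (e y) = c⁻¹ • b.comp (e.symm : E →L[ℝ] F) := by
      intro y
      rw [LocN_fderiv A hA e c]
      constructor
      · intro h1
        ext w
        have h2 := DFunLike.congr_fun h1 (e.symm w)
        simp only [smul_apply, ContinuousLinearMap.comp_apply,
          ContinuousLinearEquiv.coe_coe, ContinuousLinearEquiv.apply_symm_apply,
          smul_eq_mul] at h2 ⊢
        rw [← h2, inv_mul_cancel_left₀ hc0]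
      · intro h1
        ext w
        have h2 := DFunLike.congr_fun h1 (e w)
        simp only [smul_apply, ContinuousLinearMap.comp_apply,
          ContinuousLinearEquiv.coe_coe, ContinuousLinearEquiv.symm_apply_apply,
          smul_eq_mul] at h2 ⊢
        rw [h2, mul_inv_cancel_left₀ hc0]
    have hin : ∀ x ∈ Metric.ball z r,
        fderiv ℝ A x = c⁻¹ • b.comp (e.symm : E →L[ℝ] F) →
        e.symm x ∈ Metric.ball (e.symm z) (r1 / 2) := by
      intro x hx hxa
      apply hm1 x (Metric.ball_subset_closedBall hx)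
      rw [hxa]
      exact lt_of_lt_of_le hanorm (min_le_right _ _)
    obtain ⟨X, hX1, hX2⟩ := hX (c⁻¹ • b.comp (e.symm : E →L[ℝ] F))
      (lt_of_lt_of_le hanorm (min_le_left _ _)) (by
        intro x hx hxa v hv
        have h1 := hin x hx hxa
        have h2 := hreg (e.symm x) h1 ((hiff _).2 (by rw [e.apply_symm_apply]; exact hxa))
          (e.symm v) (by
            ext w
            rw [LocN_fderiv2 A hA e c, e.apply_symm_apply, e.apply_symm_apply, hv]
            simp)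
        have h3 := congrArg e h2
        rw [e.apply_symm_apply, map_zero] at h3
        exact h3)
    refine ⟨X.image e.symm, ?_, ?_⟩
    · intro y
      rw [Finset.mem_image]
      constructor
      · rintro ⟨x, hx, rfl⟩
        obtain ⟨hx1, hx2⟩ := (hX1 x).1 hx
        refine ⟨hin x hx1 hx2, ?_⟩
        rw [hiff, e.apply_symm_apply]
        exact hx2
      · rintro ⟨hy1, hy2⟩
        refine ⟨e y, (hX1 _).2 ⟨hball y (Metric.ball_subset_closedBall hy1), (hiff y).1 hy2⟩, ?_⟩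
        rw [e.symm_apply_apply]
    · rw [Finset.sum_image (fun a _ b _ hab => e.symm.injective hab), ← hX2]
      refine Finset.sum_congr rfl fun x _ => ?_
      rw [LocN_sigNeg A hA e c hc, e.apply_symm_apply]

/-- small regular values of the derivative -/
theorem exists_regular_dual (A : E → ℝ) (hA : ContDiff ℝ 2 A) (δ : ℝ) (hδ : 0 < δ) :
    ∃ a : E →L[ℝ] ℝ, ‖a‖ < δ ∧ ∀ y, fderiv ℝ A y = a →
      ∀ v, fderiv ℝ (fderiv ℝ A) y v = 0 → v = 0 := by
  let Φ : E ≃L[ℝ] (Fin (finrank ℝ E) → ℝ) := ContinuousLinearEquiv.ofFinrankEq (by simp)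
  let Ψ : (E →L[ℝ] ℝ) ≃L[ℝ] (Fin (finrank ℝ E) → ℝ) :=
    ContinuousLinearEquiv.ofFinrankEq (by rw [LocN_finrank]; simp)
  have hG := LocN_c1 A hA
  have hG2 : ContDiff ℝ 1 (fun x => Ψ (fderiv ℝ A (Φ.symm x))) :=
    Ψ.contDiff.comp (hG.comp Φ.symm.contDiff)
  have hk : 0 < ‖(Ψ.symm : (Fin (finrank ℝ E) → ℝ) →L[ℝ] (E →L[ℝ] ℝ))‖ + 1 := by positivity
  obtain ⟨a, ha, hreg⟩ := exists_regular_value _ hG2
    (δ / (‖(Ψ.symm : (Fin (finrank ℝ E) → ℝ) →L[ℝ] (E →L[ℝ] ℝ))‖ + 1)) (by positivity)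
  refine ⟨Ψ.symm a, ?_, ?_⟩
  · have h1 : ‖Ψ.symm a‖ ≤ ‖(Ψ.symm : (Fin (finrank ℝ E) → ℝ) →L[ℝ] (E →L[ℝ] ℝ))‖ * ‖a‖ :=
      ContinuousLinearMap.le_opNorm (Ψ.symm : (Fin (finrank ℝ E) → ℝ) →L[ℝ] (E →L[ℝ] ℝ)) a
    rw [lt_div_iff₀ hk] at ha
    have h2 := norm_nonneg a
    nlinarith
  · intro y hy v hv
    have h1 := hreg (Φ y) (by
      show Ψ (fderiv ℝ A (Φ.symm (Φ y))) = a
      rw [Φ.symm_apply_apply, hy, Ψ.apply_symm_apply])
    have h2 : HasFDerivAt (fun x => Ψ (fderiv ℝ A (Φ.symm x)))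
        ((Ψ : (E →L[ℝ] ℝ) →L[ℝ] (Fin (finrank ℝ E) → ℝ)).comp
          ((fderiv ℝ (fderiv ℝ A) y).comp
            (Φ.symm : (Fin (finrank ℝ E) → ℝ) →L[ℝ] E))) (Φ y) := by
      have h3 : HasFDerivAt (fderiv ℝ A) (fderiv ℝ (fderiv ℝ A) y) (Φ.symm (Φ y)) := by
        rw [Φ.symm_apply_apply]
        exact (hG.differentiable (by norm_num) y).hasFDerivAt
      exact Ψ.hasFDerivAt.comp (Φ y) (h3.comp (Φ y) Φ.symm.hasFDerivAt)
    rw [h2.fderiv] at h1
    have h4 : Φ v = 0 := by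
      by_contra hne
      apply h1
      rw [ContinuousLinearMap.det, LinearMap.det_eq_zero_iff_ker_ne_bot]
      intro hker
      apply hne
      rw [LinearMap.ker_eq_bot'] at hker
      apply hker
      show Ψ (fderiv ℝ (fderiv ℝ A) y (Φ.symm (Φ v))) = 0
      rw [Φ.symm_apply_apply, hv, map_zero]
    have h5 := congrArg Φ.symm h4
    rwa [Φ.symm_apply_apply, map_zero] at h5

end Pool.Agent.H47.QG
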