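import Pool.Agent.H47.QG.Main3
import Pool.Agent.H47.QG.LocN

/-!
# Local index of iterates restricted to the fixed space of the shift
-/

set_option autoImplicit false

open Module QuadraticForm

namespace Pool.Agent.H47.QG

variable {n : ℕ}

/-- The sequence repeated. -/
def LocT_rep (n p N : ℕ) [NeZero N] : (Fin N → Pt n) →ₗ[ℝ] (Fin (p * N) → Pt n) where
  toFun x j := x (Fin.ofNat N j)
  map_add' _ _ := rfl
  map_smul' _ _ := rfl

theorem LocT_rep_apply (p N : ℕ) [NeZero N] (x : Fin N → Pt n) (j : Fin (p * N)) :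
    LocT_rep n p N x j = x (Fin.ofNat N j) := rfl

theorem LocT_ofNat_congr {N : ℕ} [NeZero N] {a b : ℕ} (h : a % N = b % N) :
    Fin.ofNat N a = Fin.ofNat N b := by
  apply Fin.ext
  change a % N = b % N
  exact h

theorem LocT_shift_rep (p N : ℕ) [NeZero N] [NeZero (p * N)] (x : Fin N → Pt n) :
    shiftN n (p * N) N (LocT_rep n p N x) = LocT_rep n p N x := by
  ext1 j
  change x (Fin.ofNat N ((j + Fin.ofNat (p * N) N : Fin (p * N)) : ℕ)) = x (Fin.ofNat N j)
  congr 1
  apply LocT_ofNat_congr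
  rw [Fin.val_add]
  change ((j : ℕ) + N % (p * N)) % (p * N) % N = (j : ℕ) % N
  rw [Nat.mod_mod_of_dvd _ (Dvd.intro_left p rfl), Nat.add_mod,
    Nat.mod_mod_of_dvd _ (Dvd.intro_left p rfl), Nat.mod_self, add_zero, Nat.mod_mod]

theorem LocT_fixed {p N : ℕ} [NeZero N] [NeZero (p * N)] {z : Fin (p * N) → Pt n}
    (hz : shiftN n (p * N) N z = z) (m : ℕ) :
    z (Fin.ofNat (p * N) m) = z (Fin.ofNat (p * N) (m % N)) := by
  have hN : 0 < N := Nat.pos_of_ne_zero (NeZero.ne N)
  induction m using Nat.strong_induction_on with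
  | _ m ih =>
    by_cases h : m < N
    · rw [Nat.mod_eq_of_lt h]
    · push Not at h
      have h1 : m = (m - N) + N := by omega
      have h2 : m % N = (m - N) % N := by
        conv_lhs => rw [h1]
        exact Nat.add_mod_right _ _
      rw [h2, ← ih (m - N) (by omega)]
      have h3 := congrFun hz (Fin.ofNat (p * N) (m - N))
      rw [← h3]
      change _ = z (Fin.ofNat (p * N) (m - N) + Fin.ofNat (p * N) N)
      congr 1
      apply Fin.ext
      rw [Fin.val_add]
      change m % (p * N) = ((m - N) % (p * N) + N % (p * N)) % (p * N)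
      rw [← Nat.add_mod, ← h1]

/-- The isomorphism with the fixed space of the shift. -/
noncomputable def LocT_equiv (n p N : ℕ) [NeZero N] [NeZero (p * N)] :
    (Fin N → Pt n) ≃ₗ[ℝ] LinearMap.ker (TE n p N - 1) where
  toFun x := ⟨(psiE n (p * N)).symm (LocT_rep n p N x), by
    rw [LinearMap.mem_ker, LinearMap.sub_apply, sub_eq_zero, TE_apply,
      ContinuousLinearEquiv.apply_symm_apply, LocT_shift_rep]
    rfl⟩
  map_add' x y := by
    apply Subtype.ext
    change (psiE n (p * N)).symm (LocT_rep n p N (x + y)) =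
      (psiE n (p * N)).symm (LocT_rep n p N x) + (psiE n (p * N)).symm (LocT_rep n p N y)
    rw [map_add, map_add]
  map_smul' c x := by
    apply Subtype.ext
    change (psiE n (p * N)).symm (LocT_rep n p N (c • x)) =
      c • (psiE n (p * N)).symm (LocT_rep n p N x)
    rw [map_smul, map_smul]
  invFun y := fun i => psiE n (p * N) y (Fin.ofNat (p * N) i)
  left_inv x := by
    ext1 i
    change psiE n (p * N) ((psiE n (p * N)).symm (LocT_rep n p N x)) (Fin.ofNat (p * N) i) = x i
    rw [ContinuousLinearEquiv.apply_symm_apply, LocT_rep_apply]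
    congr 1
    apply Fin.ext
    change ((i : ℕ) % (p * N)) % N = i
    rw [Nat.mod_mod_of_dvd _ (Dvd.intro_left p rfl), Nat.mod_eq_of_lt i.2]
  right_inv y := by
    apply Subtype.ext
    change (psiE n (p * N)).symm (LocT_rep n p N
      (fun i => psiE n (p * N) y (Fin.ofNat (p * N) i))) = (y : Ix n (p * N) → ℝ)
    rw [ContinuousLinearEquiv.symm_apply_eq]
    have h1 : TE n p N (y : Ix n (p * N) → ℝ) = y := by
      have := y.2
      rw [LinearMap.mem_ker, LinearMap.sub_apply, sub_eq_zero] at this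
      exact this
    have h2 : shiftN n (p * N) N (psiE n (p * N) y) = psiE n (p * N) y := by
      rw [← psiE_TE, h1]
    ext1 j
    rw [LocT_rep_apply]
    change psiE n (p * N) y (Fin.ofNat (p * N) ((j : ℕ) % N)) = _
    rw [← LocT_fixed h2]
    have h3 : Fin.ofNat (p * N) (j : ℕ) = j := by
      apply Fin.ext
      exact Nat.mod_eq_of_lt j.2
    rw [h3]

theorem LocT_equiv_apply (p N : ℕ) [NeZero N] [NeZero (p * N)]
    (x : Fin N → Pt n) : ((LocT_equiv n p N x : LinearMap.ker (TE n p N - 1)) :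
      Ix n (p * N) → ℝ) = (psiE n (p * N)).symm (LocT_rep n p N x) := rfl

/-- One term of the action. -/
def LocT_term (S : ℕ → Pt n → ℝ) (z : ℕ → Pt n) (j : ℕ) : ℝ :=
  ∑ i, (z j).2 i * ((z (j + 1)).1 i - (z j).1 i) - S j ((z (j + 1)).1, (z j).2)

theorem LocT_action (S : ℕ → Pt n → ℝ) (K : ℕ) [NeZero K] (z : Fin K → Pt n) :
    action S K z = ∑ j ∈ Finset.range K, LocT_term S (fun j => z (Fin.ofNat K j)) j := by
  rw [Finset.sum_range]
  unfold action LocT_term
  refine Finset.sum_congr rfl fun j _ => ?_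
  have h1 : Fin.ofNat K (j : ℕ) = j := by
    apply Fin.ext
    exact Nat.mod_eq_of_lt j.2
  have h2 : Fin.ofNat K ((j : ℕ) + 1) = j + 1 := by
    apply Fin.ext
    rw [Fin.val_add]
    change ((j : ℕ) + 1) % K = ((j : ℕ) + ((1 : Fin K) : ℕ)) % K
    rw [Fin.val_one', Nat.add_mod_mod]
  beta_reduce
  rw [h1, h2]

theorem LocT_sum_mul (g : ℕ → ℝ) {N : ℕ} (hg : ∀ j, g (j + N) = g j) (p : ℕ) :
    ∑ j ∈ Finset.range (p * N), g j = p * ∑ j ∈ Finset.range N, g j := by
  have hg' : ∀ q j, g (q * N + j) = g j := by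
    intro q
    induction q with
    | zero => intro j; rw [zero_mul, zero_add]
    | succ q ih =>
      intro j
      rw [← ih j, ← hg (q * N + j)]
      congr 1
      ring
  induction p with
  | zero => simp
  | succ p ih =>
    rw [Nat.succ_mul, Finset.sum_range_add, ih]
    rw [Finset.sum_congr rfl fun j _ => hg' p j]
    push_cast
    ring

theorem LocT_action_rep {S : ℕ → Pt n → ℝ} {p N : ℕ} [NeZero N] [NeZero (p * N)]
    (hper : ∀ j, S (j + N) = S j) (x : Fin N → Pt n) :
    action S (p * N) (LocT_rep n p N x) = p * action S N x := by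
  rw [LocT_action, LocT_action]
  have h1 : (fun j => LocT_rep n p N x (Fin.ofNat (p * N) j)) = fun j => x (Fin.ofNat N j) := by
    funext j
    rw [LocT_rep_apply]
    congr 1
    apply LocT_ofNat_congr
    change (j % (p * N)) % N = j % N
    exact Nat.mod_mod_of_dvd _ (Dvd.intro_left p rfl)
  rw [h1]
  refine LocT_sum_mul _ (fun j => ?_) p
  unfold LocT_term
  have h2 : Fin.ofNat N (j + N) = Fin.ofNat N j := LocT_ofNat_congr (Nat.add_mod_right _ _)
  have h3 : Fin.ofNat N (j + N + 1) = Fin.ofNat N (j + 1) := LocT_ofNat_congr (by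
    rw [show j + N + 1 = (j + 1) + N by ring]
    exact Nat.add_mod_right _ _)
  beta_reduce
  rw [h2, h3, hper]

/-- The action of `p N`-periodic sequences restricted to the `N`-periodic ones. -/
theorem locIdx_fE {S : ℕ → Pt n → ℝ} {f : ℕ → Pt n → Pt n} (hS : ∀ j, Gen (S j) (f j)) {N : ℕ}
    [NeZero N] (hper : ∀ j, S (j + N) = S j) (hfper : ∀ j, f (j + N) = f j) {p : ℕ} (hp : 2 ≤ p)
    [NeZero (p * N)] (w : Pt n) (hw : flw f N w = w) (s : ℤ)
    (h : LocIdx (action S N) (oseq f N w) s)
    (z : LinearMap.ker (TE n p N - 1)) (hz : (z : Ix n (p * N) → ℝ) = tw f (p * N) w) :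
    LocIdx (fun y : LinearMap.ker (TE n p N - 1) => fE S (p * N) y) z s := by
  have hp0 : 0 < p := by omega
  set e : (Fin N → Pt n) ≃L[ℝ] LinearMap.ker (TE n p N - 1) :=
    (LocT_equiv n p N).toContinuousLinearEquiv with he
  have hea : ∀ x, ((e x : LinearMap.ker (TE n p N - 1)) : Ix n (p * N) → ℝ) =
      (psiE n (p * N)).symm (LocT_rep n p N x) := fun x => rfl
  have hsm : ContDiff ℝ 2 (action S N) := action_smooth S (fun j => (hS j).smooth) N
  have key := locIdx_comp (action S N) hsm (oseq f N w) s h e.symm (p : ℝ)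
    (by exact_mod_cast hp0)
  have h1 : (fun y : LinearMap.ker (TE n p N - 1) => (p : ℝ) * action S N (e.symm y)) =
      fun y : LinearMap.ker (TE n p N - 1) => fE S (p * N) y := by
    funext y
    have h2 : (y : Ix n (p * N) → ℝ) =
        (psiE n (p * N)).symm (LocT_rep n p N (e.symm y)) := by
      rw [← hea, ContinuousLinearEquiv.apply_symm_apply]
    have h3 : psiE n (p * N) (y : Ix n (p * N) → ℝ) = LocT_rep n p N (e.symm y) := by
      rw [h2, ContinuousLinearEquiv.apply_symm_apply]
    change _ = fE S (p * N) (y : Ix n (p * N) → ℝ)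
    unfold fE
    rw [h3, LocT_action_rep hper]
  have h2 : e.symm.symm (oseq f N w) = z := by
    apply Subtype.ext
    change ((e (oseq f N w) : LinearMap.ker (TE n p N - 1)) : Ix n (p * N) → ℝ) = _
    rw [hea, hz]
    unfold tw
    congr 1
    ext1 j
    rw [LocT_rep_apply]
    change flw f ((j : ℕ) % N) w = flw f j w
    exact flw_mod hfper w hw _
  rw [h1, h2] at key
  exact key

end Pool.Agent.H47.QG
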