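import Pool.Agent.H47.QG.Main2

/-!
# The equivariant step for periodic orbits
-/

set_option autoImplicit false

open Module QuadraticForm

namespace Pool.Agent.H47.QG

variable {n : ℕ}

theorem ind_eq (S : ℕ → Pt n → ℝ) (f : ℕ → Pt n → Pt n) (K : ℕ) [h : NeZero K] (w : Pt n) :
    ind S f K w = sigNeg (hess (action S K) (oseq f K w)) := by
  unfold ind
  rw [dif_neg h.ne]

/-- the critical point of the action in coordinates -/
noncomputable def tw (f : ℕ → Pt n → Pt n) (K : ℕ) [NeZero K] (w : Pt n) : Ix n K → ℝ :=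
  (psiE n K).symm (oseq f K w)

theorem psiE_tw (f : ℕ → Pt n → Pt n) (K : ℕ) [NeZero K] (w : Pt n) :
    psiE n K (tw f K w) = oseq f K w := ContinuousLinearEquiv.apply_symm_apply _ _

theorem tw_inj (f : ℕ → Pt n → Pt n) (K : ℕ) [NeZero K] : Function.Injective (tw (n := n) f K) := by
  intro w w' h
  have h1 := congrArg (psiE n K) h
  rw [psiE_tw, psiE_tw] at h1
  have h2 := congrFun h1 0
  have h0 : ((0 : Fin K) : ℕ) = 0 := Fin.val_zero _
  change flw f ((0 : Fin K) : ℕ) w = flw f ((0 : Fin K) : ℕ) w' at h2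
  rw [h0] at h2
  exact h2

theorem sigNeg_tw {S : ℕ → Pt n → ℝ} {f : ℕ → Pt n → Pt n} (hS : ∀ j, Gen (S j) (f j)) (K : ℕ)
    [NeZero K] (w : Pt n) : sigNeg (hess (fE S K) (tw f K w)) = ind S f K w := by
  rw [ind_eq, (fE_hess (fun j => (hS j).smooth) K (tw f K w)).sigNeg_eq, psiE_tw]

theorem sigPos_tw {S : ℕ → Pt n → ℝ} {f : ℕ → Pt n → Pt n} (hS : ∀ j, Gen (S j) (f j)) (K : ℕ)
    [NeZero K] (w : Pt n) :
    sigPos (hess (fE S K) (tw f K w)) = sigPos (hess (action S K) (oseq f K w)) := by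
  rw [(fE_hess (fun j => (hS j).smooth) K (tw f K w)).sigPos_eq, psiE_tw]

/-- **The equivariant step** for the periodic points of a composition of maps with generating
functions. -/
theorem prime_step {S : ℕ → Pt n → ℝ} {f : ℕ → Pt n → Pt n} (hS : ∀ j, Gen (S j) (f j))
    (hn : 0 < n) {N : ℕ} (hN : 0 < N) (hper : ∀ j, S (j + N) = S j)
    (hfper : ∀ j, f (j + N) = f j) {p : ℕ} (hp : p.Prime) [NeZero (p * N)]
    (W : Finset (Pt n)) (hW : ∀ w, flw f (p * N) w = w ↔ ∃ w' ∈ W, w - w' ∈ Zn n)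
    (hWd : ∀ w ∈ W, ∀ w' ∈ W, w - w' ∈ Zn n → w = w')
    (a₁ a₂ : ℕ) (h12 : a₁ < a₂)
    (ha : ∀ a, (a = a₁ ∨ a = a₂) → a = 0 ∨
      ((a < (p * N - 1) * n ∨ (p * N - 1) * n + 2 * n < a) ∧
      ∀ w ∈ W, ¬ (ind S f (p * N) w ≤ a ∧ a ≤ ind S f (p * N) w + 2 * n)))
    (s : Pt n → ℤ)
    (hfix : ∀ w ∈ W, flw f N w = w → a₁ ≤ ind S f (p * N) w → ind S f (p * N) w < a₂ →
      ∀ r > 0, (∀ x ∈ Metric.closedBall (tw f (p * N) w) r, fderiv ℝ (fE S (p * N)) x = 0 →
        x = tw f (p * N) w) →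
      ∃ (g : (Ix n (p * N) → ℝ) → ℝ) (X : Finset (Ix n (p * N) → ℝ)),
        LD (fE S (p * N)) (tw f (p * N) w) r g X ∧
        ∑ y ∈ X, (-1 : ℤ) ^ sigNeg (hess g y) = s w) :
    (p : ℤ) ∣ ∑ w ∈ W.filter (fun w => flw f N w = w ∧ a₁ ≤ ind S f (p * N) w ∧
      ind S f (p * N) w < a₂), s w := by
  classical
  have hsm : ∀ j, ContDiff ℝ 2 (S j) := fun j => (hS j).smooth
  have hcrit : ∀ x, fderiv ℝ (fE S (p * N)) x = 0 ↔
      flw f (p * N) (psiE n (p * N) x 0) = psiE n (p * N) x 0 ∧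
        psiE n (p * N) x = oseq f (p * N) (psiE n (p * N) x 0) := fun x => by
    rw [fE_crit hsm, crit_iff S f hS]
  have hos : ∀ (w e : Pt n), e ∈ Zn n → oseq f (p * N) (w + e) = fun j =>
      oseq f (p * N) w j + e := by
    intro w e he
    ext1 j
    exact flw_add_int hS _ _ _ he
  have hos0 : ∀ w : Pt n, oseq f (p * N) w 0 = w := by
    intro w
    have h0 : ((0 : Fin (p * N)) : ℕ) = 0 := Fin.val_zero _
    change flw f ((0 : Fin (p * N)) : ℕ) w = w
    rw [h0]; rfl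
  have hlat : ∀ x x' : Ix n (p * N) → ℝ, x - x' ∈ Lat (kdx n (p * N)) ↔
      ∃ e ∈ Zn n, ∀ j, psiE n (p * N) x j = psiE n (p * N) x' j + e := by
    intro x x'
    rw [lat_iff]
    simp only [psiE_apply]
  have hinj := tw_inj (n := n) f (p * N)
  have hTfix : ∀ w ∈ W, (TE n p N (tw f (p * N) w) = tw f (p * N) w ↔ flw f N w = w) := by
    intro w hw
    have hw' : flw f (p * N) w = w := (hW w).2 ⟨w, hw, by rw [sub_self]; exact (Zn n).zero_mem⟩
    rw [← shift_oseq hp.two_le hN hfper w hw', ← psiE_tw, ← psiE_TE]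
    exact (psiE n (p * N)).injective.eq_iff.symm
  have key := equivariant (kdx n (p * N)) ⟨Sum.inl (Sum.inl ⟨0, hn⟩), rfl⟩ (fE S (p * N))
    (fE_smooth hsm _) (by rw [fE_eq]; exact action_per S f hS _)
    (by rw [fE_eq]; exact action_quad S f hS _) (TE n p N) p hp (TE_pow p N)
    (fE_TE p N hper) (TE_single p N) (W.image (tw f (p * N)))
    (by
      intro x
      rw [hcrit]
      constructor
      · rintro ⟨h1, h2⟩
        obtain ⟨w', hw', he⟩ := (hW _).1 h1
        refine ⟨tw f (p * N) w', Finset.mem_image_of_mem _ hw', ?_⟩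
        rw [hlat]
        refine ⟨_, he, fun j => ?_⟩
        rw [psiE_tw]
        have h3 : oseq f (p * N) (psiE n (p * N) x 0) = fun j => oseq f (p * N) w' j +
            (psiE n (p * N) x 0 - w') := by
          rw [← hos w' _ he, add_sub_cancel]
        have h4 := congrFun h2 j
        rw [h3] at h4
        exact h4
      · rintro ⟨z, hz, he⟩
        obtain ⟨w', hw', rfl⟩ := Finset.mem_image.1 hz
        rw [hlat] at he
        obtain ⟨e, he, hj⟩ := he
        rw [psiE_tw] at hj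
        have h0 := hj 0
        rw [hos0] at h0
        have h3 : psiE n (p * N) x = oseq f (p * N) (psiE n (p * N) x 0) := by
          rw [h0, hos _ _ he]
          ext1 j
          exact hj j
        refine ⟨?_, h3⟩
        rw [h0, hW]
        exact ⟨w', hw', by rw [add_sub_cancel_left]; exact he⟩)
    (by
      intro z hz z' hz' he
      obtain ⟨w, hw, rfl⟩ := Finset.mem_image.1 hz
      obtain ⟨w', hw', rfl⟩ := Finset.mem_image.1 hz'
      rw [hlat] at he
      obtain ⟨e, he, hj⟩ := he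
      have h0 := hj 0
      rw [psiE_tw, psiE_tw, hos0, hos0] at h0
      rw [hWd w hw w' hw' (by rw [h0, add_sub_cancel_left]; exact he)])
    a₁ a₂ h12
    (by
      intro a haa
      rcases ha a haa with h | ⟨h1, h2⟩
      · exact Or.inl h
      · refine Or.inr ⟨?_, fun z hz => ?_⟩
        · rw [nk_up, nk_th]; exact h1
        · obtain ⟨w, hw, rfl⟩ := Finset.mem_image.1 hz
          rintro ⟨h3, h4⟩
          refine h2 w hw ⟨?_, ?_⟩
          · rw [← sigNeg_tw hS]; exact h3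
          · have h5 := null_le S f hS (p * N) w
            rw [sigPos_tw hS, card_Ix] at h4
            rw [ind_eq]
            omega)
    (fun t => s (psiE n (p * N) t 0))
    (by
      intro z hz hT h1 h2 r hr hiso
      obtain ⟨w, hw, rfl⟩ := Finset.mem_image.1 hz
      rw [sigNeg_tw hS] at h1 h2
      obtain ⟨g, X, hLD, hs⟩ := hfix w hw ((hTfix w hw).1 hT) h1 h2 r hr hiso
      refine ⟨g, X, hLD, ?_⟩
      rw [hs, psiE_tw, hos0])
  have e1 : (W.image (tw f (p * N))).filter (fun z => TE n p N z = z ∧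
      a₁ ≤ sigNeg (hess (fE S (p * N)) z) ∧ sigNeg (hess (fE S (p * N)) z) < a₂) =
      (W.filter (fun w => flw f N w = w ∧ a₁ ≤ ind S f (p * N) w ∧
        ind S f (p * N) w < a₂)).image (tw f (p * N)) := by
    ext z
    simp only [Finset.mem_filter, Finset.mem_image]
    constructor
    · rintro ⟨⟨w, hw, rfl⟩, h1, h2, h3⟩
      rw [sigNeg_tw hS] at h2 h3
      exact ⟨w, ⟨hw, (hTfix w hw).1 h1, h2, h3⟩, rfl⟩
    · rintro ⟨w, ⟨hw, h1, h2, h3⟩, rfl⟩
      rw [sigNeg_tw hS]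
      exact ⟨⟨w, hw, rfl⟩, (hTfix w hw).2 h1, h2, h3⟩
  rw [e1, Finset.sum_image (fun a _ b _ h => hinj h)] at key
  simpa only [psiE_tw, hos0] using key

end Pool.Agent.H47.QG
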