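import Mathlib

/-!
# Almost additive sequences
-/

set_option autoImplicit false

namespace Pool.Agent.H47.QG

/-- multiples -/
theorem almost_additive_mul (a : ℕ → ℝ) (C : ℝ) (h : ∀ p q, 0 < p → 0 < q →
    |a (p + q) - a p - a q| ≤ C) (p : ℕ) (hp : 0 < p) (k : ℕ) :
    |a ((k + 1) * p) - (k + 1) * a p| ≤ k * C := by
  induction k with
  | zero => simp
  | succ k ih =>
    have h1 := h ((k + 1) * p) p (by positivity) hp
    have e : (k + 1 + 1) * p = (k + 1) * p + p := by ring
    rw [e]
    rw [abs_le] at ih h1 ⊢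
    push_cast
    constructor <;> nlinarith [ih.1, ih.2, h1.1, h1.2]

/-- sequences which are almost additive -/
theorem almost_additive (a : ℕ → ℝ) (C : ℝ) (h : ∀ p q, 0 < p → 0 < q →
    |a (p + q) - a p - a q| ≤ C) :
    ∃ L, (∀ p, 0 < p → |a p - p * L| ≤ C) ∧
      Filter.Tendsto (fun p : ℕ => a p / p) Filter.atTop (nhds L) := by
  have hC : 0 ≤ C := (abs_nonneg _).trans (h 1 1 one_pos one_pos)
  -- `|a (k * p) - k * a p| ≤ k * C`
  have hm : ∀ p k : ℕ, 0 < p → 0 < k → |a (k * p) - k * a p| ≤ k * C := by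
    intro p k hp hk
    obtain ⟨k, rfl⟩ : ∃ m, k = m + 1 := ⟨k - 1, by omega⟩
    have := almost_additive_mul a C h p hp k
    push_cast
    refine this.trans ?_
    nlinarith
  -- comparison of quotients
  have hq : ∀ p q : ℕ, 0 < p → 0 < q → |a p / p - a q / q| ≤ C / p + C / q := by
    intro p q hp hq
    have h1 := hm p q hp hq
    have h2 := hm q p hq hp
    rw [Nat.mul_comm q p] at h1
    have hp' : (0 : ℝ) < p := by exact_mod_cast hp
    have hq' : (0 : ℝ) < q := by exact_mod_cast hq
    have h3 : |(q : ℝ) * a p - p * a q| ≤ q * C + p * C := by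
      rw [abs_le] at h1 h2 ⊢
      constructor <;> linarith [h1.1, h1.2, h2.1, h2.2]
    have e1 : a p / p - a q / q = ((q : ℝ) * a p - p * a q) / (p * q) := by
      field_simp
    have e2 : C / p + C / q = ((q : ℝ) * C + p * C) / (p * q) := by
      field_simp
    rw [e1, e2, abs_div, abs_of_pos (mul_pos hp' hq')]
    gcongr
  have hcau : CauchySeq (fun p : ℕ => a p / p) := by
    rw [Metric.cauchySeq_iff]
    intro ε hε
    obtain ⟨N, hN⟩ := exists_nat_gt (2 * C / ε)
    refine ⟨N + 1, fun m hm' n hn' => ?_⟩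
    rw [Real.dist_eq]
    have hmN : (N : ℝ) < m := by exact_mod_cast (by omega : N < m)
    have hnN : (N : ℝ) < n := by exact_mod_cast (by omega : N < n)
    have hm0 : (0 : ℝ) < m := lt_of_le_of_lt (Nat.cast_nonneg N) hmN
    have hn0 : (0 : ℝ) < n := lt_of_le_of_lt (Nat.cast_nonneg N) hnN
    have h1 : C / m < ε / 2 := by
      rw [div_lt_iff₀ hm0]
      rw [div_lt_iff₀ hε] at hN
      nlinarith
    have h2 : C / n < ε / 2 := by
      rw [div_lt_iff₀ hn0]
      rw [div_lt_iff₀ hε] at hN
      nlinarith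
    have := hq m n (by omega) (by omega)
    linarith
  obtain ⟨L, hL⟩ := cauchySeq_tendsto_of_complete hcau
  refine ⟨L, fun p hp => ?_, hL⟩
  have hp' : (0 : ℝ) < p := by exact_mod_cast hp
  have hlim : |a p / p - L| ≤ C / p := by
    have t1 : Filter.Tendsto (fun q : ℕ => |a p / p - a q / q|) Filter.atTop
        (nhds |a p / p - L|) := (tendsto_const_nhds.sub hL).abs
    have t2 : Filter.Tendsto (fun q : ℕ => C / p + C / q) Filter.atTop (nhds (C / p + 0)) :=
      tendsto_const_nhds.add (tendsto_const_div_atTop_nhds_zero_nat C)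
    rw [add_zero] at t2
    refine le_of_tendsto_of_tendsto t1 t2 ?_
    filter_upwards [Filter.eventually_gt_atTop 0] with q hq0
    exact hq p q hp hq0
  have e : a p - p * L = p * (a p / p - L) := by field_simp
  rw [e, abs_mul, abs_of_pos hp']
  calc (p : ℝ) * |a p / p - L| ≤ p * (C / p) := by gcongr
    _ = C := by field_simp

end Pool.Agent.H47.QG
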