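import Pool.Agent.H47.QG.Fin1

/-!
# Definitions for the statement

Short forms of the definitions used in the statement of the growth theorem, and their equivalence
with the working definitions.
-/

set_option autoImplicit false

open Module QuadraticForm Filter Topology Function
open Pool.Agent.H60.QG (Torus projP)

namespace Pool.Agent.H47.QG

section general

variable {E : Type*} [NormedAddCommGroup E] [NormedSpace ℝ E]

/-- The derivative of `f` at `x` in the direction `v`. -/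
noncomputable def dir (f : E → ℝ) (x v : E) : ℝ := fderiv ℝ f x v

/-- The second derivative of `f` at `x` in the directions `v` and `w`. -/
noncomputable def dir2 (f : E → ℝ) (x v w : E) : ℝ := dir (fun y => dir f y w) x v

/-- The Morse index of `f` at `x`: the largest dimension of a subspace on which the second
derivative is negative definite. -/
noncomputable def morse (f : E → ℝ) (x : E) : ℕ :=
  sSup {d : ℕ | ∃ W : Submodule ℝ E, finrank ℝ W = d ∧ ∀ v ∈ W, v ≠ 0 → dir2 f x v v < 0}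

/-- The second derivative of `f` at `x` is nondegenerate. -/
def NondegAt (f : E → ℝ) (x : E) : Prop := ∀ v, (∀ w, dir2 f x v w = 0) → v = 0

/-- The local index of the isolated critical point `z` of `A` is `s`: `z` is the only critical
point in some closed ball about `z`, and for all small linear functionals `a` which are regular
values of the derivative of `A` in the open ball, the sum of `(-1)^index` over the points of the
ball with `dA = a` is `s`. (`(-1)^index` is the sign of the determinant of the Hessian, so `s` is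
the local degree of the gradient of `A` at `z`.) -/
def IsLocIdx (A : E → ℝ) (z : E) (s : ℤ) : Prop :=
  ∃ r > 0, (∀ y ∈ Metric.closedBall z r, (∀ v, dir A y v = 0) → y = z) ∧
    ∃ δ > 0, ∀ a : E →L[ℝ] ℝ, ‖a‖ < δ →
    (∀ y ∈ Metric.ball z r, (∀ v, dir A y v = a v) → NondegAt A y) →
    ∃ X : Finset E, (∀ y, y ∈ X ↔ y ∈ Metric.ball z r ∧ ∀ v, dir A y v = a v) ∧
      ∑ y ∈ X, (-1 : ℤ) ^ morse A y = s

theorem dir2_eq {f : E → ℝ} (hf : ContDiff ℝ 2 f) (x v w : E) :
    dir2 f x v w = fderiv ℝ (fderiv ℝ f) x v w := by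
  unfold dir2 dir
  have h1 : DifferentiableAt ℝ (fderiv ℝ f) x :=
    ((hf.fderiv_right (m := 1) (by norm_num)).differentiable (by norm_num)) x
  have h2 : HasFDerivAt (fun y => fderiv ℝ f y w)
      ((ContinuousLinearMap.apply ℝ ℝ w).comp (fderiv ℝ (fderiv ℝ f) x)) x :=
    (ContinuousLinearMap.apply ℝ ℝ w).hasFDerivAt.comp x h1.hasFDerivAt
  rw [h2.fderiv]
  rfl

theorem hess_eq_dir2 {f : E → ℝ} (hf : ContDiff ℝ 2 f) (x v : E) :
    hess f x v = dir2 f x v v := by
  rw [dir2_eq hf, hess_apply]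

theorem morse_eq [FiniteDimensional ℝ E] {f : E → ℝ} (hf : ContDiff ℝ 2 f) (x : E) :
    morse f x = sigNeg (hess f x) := by
  unfold morse
  apply IsGreatest.csSup_eq
  constructor
  · obtain ⟨W, hW, hd⟩ := exists_sigNeg (hess f x)
    exact ⟨W, hW, fun v hv hne => by rw [← hess_eq_dir2 hf]; exact hd v hv hne⟩
  · rintro d ⟨W, rfl, hd⟩
    exact le_sigNeg _ W fun v hv hne => by rw [hess_eq_dir2 hf]; exact hd v hv hne

theorem nondegAt_iff {f : E → ℝ} (hf : ContDiff ℝ 2 f) (x : E) :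
    NondegAt f x ↔ ∀ v, fderiv ℝ (fderiv ℝ f) x v = 0 → v = 0 := by
  refine forall_congr' fun v => imp_congr_left ?_
  constructor
  · intro h
    ext w
    rw [← dir2_eq hf, h w]
    rfl
  · intro h w
    rw [dir2_eq hf, h]
    rfl

theorem dir_eq_iff (f : E → ℝ) (y : E) (a : E →L[ℝ] ℝ) :
    (∀ v, dir f y v = a v) ↔ fderiv ℝ f y = a :=
  ⟨fun h => ContinuousLinearMap.ext h, fun h v => by rw [← h]; rfl⟩

theorem dir_eq_zero_iff (f : E → ℝ) (y : E) :
    (∀ v, dir f y v = 0) ↔ fderiv ℝ f y = 0 :=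
  ⟨fun h => ContinuousLinearMap.ext h, fun h v => by unfold dir; rw [h]; rfl⟩

theorem isLocIdx_iff [FiniteDimensional ℝ E] {A : E → ℝ} (hA : ContDiff ℝ 2 A) (z : E) (s : ℤ) :
    IsLocIdx A z s ↔ LocIdx A z s := by
  unfold IsLocIdx LocIdx
  simp only [dir_eq_iff, dir_eq_zero_iff, nondegAt_iff hA, morse_eq hA]

end general

section torus

variable {n : ℕ}

/-- `f` is the map of `ℝ^{2n}` with the generating function `S`: `f (x, y) = (x', y')` if and only
if `x' = x + ∂S/∂y (x', y)` and `y' = y - ∂S/∂x (x', y)`. The function `S` is `C^2` and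
`ℤ^{2n}`-periodic, and the matrix `1 - ∂²S/∂x∂y` is invertible everywhere. -/
structure IsGen (S : Pt n → ℝ) (f : Pt n → Pt n) : Prop where
  smooth : ContDiff ℝ 2 S
  periodic : ∀ (z : Pt n) (a b : Fin n → ℤ),
    S (z.1 + (fun i => (a i : ℝ)), z.2 + (fun i => (b i : ℝ))) = S z
  rel : ∀ z z' : Pt n, f z = z' ↔ ∀ i,
    z'.1 i = z.1 i + dir S (z'.1, z.2) (0, Pi.single i 1) ∧
    z'.2 i = z.2 i - dir S (z'.1, z.2) (Pi.single i 1, 0)
  inv : ∀ (z : Pt n) (v : Fin n → ℝ),
    (∀ i, v i = dir2 S z (v, 0) (0, Pi.single i 1)) → v = 0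

theorem isGen_iff (S : Pt n → ℝ) (f : Pt n → Pt n) : IsGen S f ↔ Gen S f := by
  constructor
  · intro h
    refine ⟨h.smooth, h.periodic, h.rel, fun z v hv => h.inv z v fun i => ?_⟩
    rw [dir2_eq h.smooth]
    exact hv i
  · intro h
    refine ⟨h.smooth, h.periodic, h.rel, fun z v hv => h.inv z v fun i => ?_⟩
    rw [← dir2_eq h.smooth]
    exact hv i

/-- `w` and `w'` are lifts of the same point of the torus. -/
def SamePt (w w' : Pt n) : Prop :=
  ∃ a b : Fin n → ℤ, w = w' + ((fun i => (a i : ℝ)), (fun i => (b i : ℝ)))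

theorem samePt_iff (w w' : Pt n) : SamePt w w' ↔ w - w' ∈ Zn n := by
  constructor
  · rintro ⟨a, b, h⟩
    exact ⟨a, b, by rw [h]; abel⟩
  · rintro ⟨a, b, h⟩
    exact ⟨a, b, by rw [← h]; abel⟩

/-- The Morse index of the action at the `K`-periodic orbit of `w`. -/
noncomputable def orbIdx (S : ℕ → Pt n → ℝ) (ψ : ℕ → Pt n → Pt n) (K : ℕ) [NeZero K] (w : Pt n) :
    ℕ := morse (action S K) (oseq ψ K w)

/-- The `K`-periodic orbit of `w` has mean index `t`. -/
def MeanIndex (S : ℕ → Pt n → ℝ) (ψ : ℕ → Pt n → Pt n) (K : ℕ) [NeZero K] (w : Pt n) (t : ℝ) :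
    Prop :=
  Tendsto (fun m : ℕ => (orbIdx S ψ ((m + 1) * K) w : ℝ) / (m + 1)) atTop (𝓝 (t + n * K))

theorem orbIdx_eq {S : ℕ → Pt n → ℝ} {ψ : ℕ → Pt n → Pt n} (hS : ∀ j, Gen (S j) (ψ j)) (K : ℕ)
    [NeZero K] (w : Pt n) : orbIdx S ψ K w = ind S ψ K w := by
  rw [ind_eq, orbIdx, morse_eq (action_smooth S (fun j => (hS j).smooth) K)]

theorem meanIndex_iff {S : ℕ → Pt n → ℝ} {ψ : ℕ → Pt n → Pt n} (hS : ∀ j, Gen (S j) (ψ j)) (K : ℕ)
    [NeZero K] (w : Pt n) (t : ℝ) : MeanIndex S ψ K w t ↔ MeanIdx S ψ K w t := by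
  unfold MeanIndex MeanIdx
  rw [← tendsto_add_atTop_iff_nat (f := fun m : ℕ => (ind S ψ (m * K) w : ℝ) / m) 1]
  refine tendsto_congr fun m => ?_
  rw [orbIdx_eq hS]
  push_cast
  rfl

/-- `φ` is the composition of the `N` maps `ψ 0, …, ψ (N - 1)` with the generating functions
`S 0, …, S (N - 1)` (the sequences are continued `N`-periodically). -/
structure IsDecomp (φ : Torus n → Torus n) (N : ℕ) (S : ℕ → Pt n → ℝ)
    (ψ : ℕ → Pt n → Pt n) : Prop where
  pos : 0 < N
  gen : ∀ j, IsGen (S j) (ψ j)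
  perS : ∀ j, S (j + N) = S j
  perψ : ∀ j, ψ (j + N) = ψ j
  lift : ∀ w, φ (projP w) = projP (flw ψ N w)

theorem isDecomp_iff {φ : Torus n → Torus n} {N : ℕ} {S : ℕ → Pt n → ℝ}
    {ψ : ℕ → Pt n → Pt n} : IsDecomp φ N S ψ ↔ Decomp φ N S ψ :=
  ⟨fun h => ⟨h.pos, fun j => (isGen_iff _ _).1 (h.gen j), h.perS, h.perψ, h.lift⟩,
    fun h => ⟨h.pos, fun j => (isGen_iff _ _).2 (h.gen j), h.perS, h.perψ, h.lift⟩⟩

end torus

end Pool.Agent.H47.QG
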