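import Pool.Agent.H47.QG.Idx

/-!
# Local index of a critical point
-/

set_option autoImplicit false

open Module QuadraticForm

namespace Pool.Agent.H47.QG

/-- The local index of the isolated critical point `z` of `A` is `s`: `z` is the only critical
point in some closed ball about `z`, and for all small linear
functionals `a` which are regular values of the derivative of `A` in the open ball, the
sum of `(-1)^index` over the points of the ball with `dA = a` is `s`. (`(-1)^index` is the sign of
the determinant of the Hessian, so `s` is the local degree of the gradient of `A` at `z`.) -/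
def LocIdx {E : Type*} [NormedAddCommGroup E] [NormedSpace ℝ E] (A : E → ℝ) (z : E) (s : ℤ) :
    Prop :=
  ∃ r > 0, (∀ y ∈ Metric.closedBall z r, fderiv ℝ A y = 0 → y = z) ∧
    ∃ δ > 0, ∀ a : E →L[ℝ] ℝ, ‖a‖ < δ →
    (∀ y ∈ Metric.ball z r, fderiv ℝ A y = a → ∀ v, fderiv ℝ (fderiv ℝ A) y v = 0 → v = 0) →
    ∃ X : Finset E, (∀ y, y ∈ X ↔ y ∈ Metric.ball z r ∧ fderiv ℝ A y = a) ∧
      ∑ y ∈ X, (-1 : ℤ) ^ sigNeg (hess A y) = s

end Pool.Agent.H47.QG
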