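import Pool.Agent.H47.QG.IdxA

/-!
# Index of quadratic forms: parity
-/

set_option autoImplicit false

open Module QuadraticForm

namespace Pool.Agent.H47.QG

/-- A real endomorphism that is injective and skew with respect to an inner product lives on an
even dimensional space. -/
theorem IdxP_skew {N : Type*} [NormedAddCommGroup N] [InnerProductSpace ℝ N]
    [FiniteDimensional ℝ N] (J : N →ₗ[ℝ] N) (hi : Function.Injective J)
    (hs : ∀ u v, inner ℝ (J u) v = - inner ℝ u (J v)) : Even (finrank ℝ N) := by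
  classical
  set f := stdOrthonormalBasis ℝ N with hf
  set M : Matrix (Fin (finrank ℝ N)) (Fin (finrank ℝ N)) ℝ :=
    LinearMap.toMatrix f.toBasis f.toBasis J with hM
  have h1 : ∀ i j, M i j = inner ℝ (f i) (J (f j)) := by
    intro i j
    rw [hM, LinearMap.toMatrix_apply]
    simp [OrthonormalBasis.repr_apply_apply]
  have h2 : M.transpose = -M := by
    ext i j
    rw [Matrix.transpose_apply, Matrix.neg_apply, h1, h1, real_inner_comm, hs]
  have h3 : M.det = LinearMap.det J := by
    rw [hM, LinearMap.det_toMatrix]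
  have h4 : M.det ≠ 0 := by
    rw [h3]
    have h5 : IsUnit J := (LinearMap.isUnit_iff_ker_eq_bot J).2 (LinearMap.ker_eq_bot.2 hi)
    exact (h5.map LinearMap.det).ne_zero
  by_contra h5
  rw [Nat.not_even_iff_odd] at h5
  have h6 : M.det = -M.det := by
    conv_lhs => rw [← Matrix.det_transpose, h2, Matrix.det_neg]
    rw [Fintype.card_fin, h5.neg_one_pow]
    ring
  apply h4
  linarith

/-- even index, invariant inner product -/
theorem IdxP_inner {E : Type*} [NormedAddCommGroup E] [InnerProductSpace ℝ E]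
    [FiniteDimensional ℝ E] (Q : QuadraticForm ℝ E) (T : E →ₗ[ℝ] E) (p : ℕ) (hp : Odd p)
    (hT : T ^ p = 1) (hQ : ∀ v, Q (T v) = Q v) (hK : ∀ v, T v = v → v = 0)
    (hI : ∀ u v, inner ℝ (T u) (T v) = inner ℝ u v) : Even (sigNeg Q) := by
  classical
  set B : E →ₗ[ℝ] E →ₗ[ℝ] ℝ := QuadraticMap.associated (R := ℝ) Q with hB
  have hBQ : ∀ v, B v v = Q v := fun v => QuadraticMap.associated_eq_self_apply ℝ Q v
  have hBs : ∀ u v, B u v = B v u := fun u v => QuadraticMap.associated_isSymm ℝ Q u v
  have hBT : ∀ u v, B (T u) (T v) = B u v := by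
    intro u v
    have e1 := hQ (u + v)
    have e2 := hQ u
    have e3 := hQ v
    rw [← hBQ, ← hBQ] at e1 e2 e3
    rw [map_add] at e1
    simp only [map_add, LinearMap.add_apply] at e1
    rw [hBs (T v) (T u), hBs v u] at e1
    linarith
  -- the inverse
  obtain ⟨m, hm⟩ := hp
  have hp1 : ∀ v, T ((T ^ (2 * m)) v) = v := by
    intro v
    have h1 : (T ^ p) v = v := by rw [hT]; rfl
    rw [hm, pow_succ', Module.End.mul_apply] at h1
    exact h1
  set S : E →ₗ[ℝ] E := T ^ (2 * m) with hS
  have hTS : ∀ v, T (S v) = v := hp1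
  have hST : ∀ v, S (T v) = v := by
    intro v
    have h1 : (T ^ p) v = v := by rw [hT]; rfl
    rw [hm, pow_succ, Module.End.mul_apply] at h1
    exact h1
  -- the operator of the form
  set e := stdOrthonormalBasis ℝ E with he
  set A : E →ₗ[ℝ] E := ∑ i, (B.flip (e i)).smulRight (e i) with hA
  have hAB : ∀ u v, inner ℝ (A u) v = B u v := by
    intro u v
    rw [hA]
    simp only [LinearMap.sum_apply, LinearMap.smulRight_apply, LinearMap.flip_apply, sum_inner,
      inner_smul_left]
    conv_rhs => rw [← e.sum_repr v]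
    rw [map_sum]
    refine Finset.sum_congr rfl fun i _ => ?_
    rw [map_smul, smul_eq_mul, e.repr_apply_apply, mul_comm]
    rfl
  have hAs : A.IsSymmetric := by
    intro u v
    rw [hAB, real_inner_comm, hAB, hBs]
  set g := hAs.eigenvectorBasis rfl with hg
  set w : Fin (finrank ℝ E) → ℝ := hAs.eigenvalues rfl with hw
  have hAg : ∀ i, A (g i) = w i • g i := by
    intro i
    have h := hAs.apply_eigenvectorBasis rfl i
    simp only [RCLike.ofReal_real_eq_id, id_eq] at h
    exact h
  have hBg : ∀ i v, B (g i) v = w i * inner ℝ (g i) v := by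
    intro i v
    rw [← hAB, hAg, inner_smul_left]
    rfl
  -- signature
  have hQw : ∀ v, Q v = ∑ i, w i * (g.repr v i * g.repr v i) := by
    intro v
    have h1 : B v v = B (∑ i, g.repr v i • g i) v := by rw [g.sum_repr]
    rw [← hBQ, h1, map_sum, LinearMap.sum_apply]
    refine Finset.sum_congr rfl fun i _ => ?_
    rw [map_smul, LinearMap.smul_apply, hBg, g.repr_apply_apply, smul_eq_mul]
    ring
  have hsig : sigNeg Q = (Finset.univ.filter fun i => w i < 0).card := by
    have h1 : QuadraticMap.Equivalent Q (QuadraticMap.weightedSumSquares ℝ w) := by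
      refine ⟨{ g.toBasis.equivFun with map_app' := fun v => ?_ }⟩
      rw [hQw, QuadraticMap.weightedSumSquares_apply]
      refine Finset.sum_congr rfl fun i _ => ?_
      simp
    rw [sigNeg_of_equiv_weightedSumSquares h1, ← Set.ncard_coe_finset]
    congr 1
    ext i
    simp
  -- the negative space
  set N : Submodule ℝ E :=
    Submodule.span ℝ (Set.range fun i : {i // w i < 0} => g i.1) with hN
  have hNd : finrank ℝ N = (Finset.univ.filter fun i => w i < 0).card := by
    have h1 : LinearIndependent ℝ fun i : {i // w i < 0} => g i.1 :=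
      g.orthonormal.linearIndependent.comp _ Subtype.val_injective
    rw [hN, finrank_span_eq_card h1, Fintype.card_subtype]
  have hTg : ∀ i j, w i ≠ w j → inner ℝ (g j) (T (g i)) = 0 := by
    intro i j hij
    have h1 : B (g j) (T (g i)) = w j * inner ℝ (g j) (T (g i)) := hBg _ _
    have h2 : B (g j) (T (g i)) = w i * inner ℝ (g j) (T (g i)) := by
      rw [hBs]
      conv_lhs => rw [← hTS (g j), hBT, hBg]
      rw [← hI (g i), hTS, real_inner_comm]
    have h3 : (w i - w j) * inner ℝ (g j) (T (g i)) = 0 := by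
      rw [sub_mul, ← h1, ← h2, sub_self]
    rcases mul_eq_zero.1 h3 with h | h
    · exact absurd (sub_eq_zero.1 h) hij
    · exact h
  have hTN : ∀ v ∈ N, T v ∈ N := by
    intro v hv
    induction hv using Submodule.span_induction with
    | mem x hx =>
      obtain ⟨i, rfl⟩ := hx
      show T (g i.1) ∈ N
      rw [← g.sum_repr (T (g i.1))]
      refine Submodule.sum_mem _ fun j _ => ?_
      by_cases hj : w j < 0
      · exact N.smul_mem _ (Submodule.subset_span ⟨⟨j, hj⟩, rfl⟩)
      · have h1 : w i.1 ≠ w j := by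
          intro h
          exact hj (h ▸ i.2)
        rw [g.repr_apply_apply, hTg _ _ h1, zero_smul]
        exact N.zero_mem
    | zero => rw [map_zero]; exact N.zero_mem
    | add x y _ _ hx hy => rw [map_add]; exact N.add_mem hx hy
    | smul c x _ hx => rw [map_smul]; exact N.smul_mem _ hx
  have hSN : ∀ v ∈ N, S v ∈ N := by
    have h1 : ∀ k : ℕ, ∀ v ∈ N, (T ^ k) v ∈ N := by
      intro k
      induction k with
      | zero => intro v hv; simpa using hv
      | succ k ih =>
        intro v hv
        rw [pow_succ', Module.End.mul_apply]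
        exact hTN _ (ih v hv)
    exact h1 _
  -- the skew operator
  rw [hsig, ← hNd]
  refine IdxP_skew ((T - S).restrict fun v hv => N.sub_mem (hTN v hv) (hSN v hv)) ?_ ?_
  · rw [← LinearMap.ker_eq_bot, LinearMap.ker_eq_bot']
    intro v hv
    have h1 : T v.1 = S v.1 := by
      have h2 := congrArg Subtype.val hv
      have h3 : T v.1 - S v.1 = 0 := h2
      exact sub_eq_zero.1 h3
    have h2 : T (T v.1) = v.1 := by rw [h1, hTS]
    have h3 : ∀ k : ℕ, (T ^ (2 * k)) v.1 = v.1 := by
      intro k
      induction k with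
      | zero => rfl
      | succ k ih =>
        rw [show 2 * (k + 1) = 2 * k + 1 + 1 by ring, pow_succ, pow_succ, Module.End.mul_apply,
          Module.End.mul_apply, h2, ih]
    have h4 : T v.1 = v.1 := by rw [h1, hS, h3]
    exact Subtype.ext (hK _ h4)
  · intro u v
    show inner ℝ (T u.1 - S u.1) v.1 = - inner ℝ u.1 (T v.1 - S v.1)
    rw [inner_sub_left, inner_sub_right]
    have h1 : inner ℝ (T u.1) v.1 = inner ℝ u.1 (S v.1) := by
      rw [← hI u.1, hTS]
    have h2 : inner ℝ (S u.1) v.1 = inner ℝ u.1 (T v.1) := by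
      rw [← hI (S u.1), hTS]
    rw [h1, h2]
    ring

section alg

variable {E F : Type*} [AddCommGroup E] [Module ℝ E] [FiniteDimensional ℝ E]
  [AddCommGroup F] [Module ℝ F] [FiniteDimensional ℝ F]

/-- even index without fixed vectors -/
theorem IdxP_even (Q : QuadraticForm ℝ E) (T : E →ₗ[ℝ] E) (p : ℕ) (hp : Odd p)
    (hT : T ^ p = 1) (hQ : ∀ v, Q (T v) = Q v) (hK : ∀ v, T v = v → v = 0) :
    Even (sigNeg Q) := by
  classical
  set b := Module.finBasis ℝ E with hb
  let c : InnerProductSpace.Core ℝ E :=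
    { inner := fun u v => ∑ k ∈ Finset.range p, ∑ i, b.repr ((T ^ k) u) i * b.repr ((T ^ k) v) i
      conj_inner_symm := fun u v => by
        simp only [conj_trivial]
        refine Finset.sum_congr rfl fun k _ => Finset.sum_congr rfl fun i _ => mul_comm _ _
      re_inner_nonneg := fun u => by
        show (0 : ℝ) ≤ ∑ k ∈ Finset.range p, ∑ i, b.repr ((T ^ k) u) i * b.repr ((T ^ k) u) i
        exact Finset.sum_nonneg fun k _ => Finset.sum_nonneg fun i _ => mul_self_nonneg _
      add_left := fun u v z => by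
        simp only [map_add, Finsupp.add_apply, add_mul, Finset.sum_add_distrib]
      smul_left := fun u v r => by
        simp only [map_smul, Finsupp.smul_apply, smul_eq_mul, conj_trivial, Finset.mul_sum,
          mul_assoc]
      definite := fun u hu => by
        have h0 : 0 ∈ Finset.range p := Finset.mem_range.2 hp.pos
        have hn1 : ∀ k ∈ Finset.range p,
            0 ≤ ∑ i, b.repr ((T ^ k) u) i * b.repr ((T ^ k) u) i :=
          fun k _ => Finset.sum_nonneg fun i _ => mul_self_nonneg _
        have h1 : ∑ i, b.repr ((T ^ 0) u) i * b.repr ((T ^ 0) u) i = 0 :=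
          (Finset.sum_eq_zero_iff_of_nonneg hn1).1 hu 0 h0
        have hn2 : ∀ i ∈ (Finset.univ : Finset (Fin (finrank ℝ E))),
            0 ≤ b.repr ((T ^ 0) u) i * b.repr ((T ^ 0) u) i :=
          fun i _ => mul_self_nonneg _
        have h2 := (Finset.sum_eq_zero_iff_of_nonneg hn2).1 h1
        apply b.repr.injective
        rw [map_zero]
        ext i
        have h3 := mul_self_eq_zero.1 (h2 i (Finset.mem_univ i))
        simpa using h3 }
  let : NormedAddCommGroup E := c.toNormedAddCommGroup
  let : InnerProductSpace ℝ E := InnerProductSpace.ofCore c.toCore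
  refine IdxP_inner Q T p hp hT hQ hK ?_
  intro u v
  show ∑ k ∈ Finset.range p, ∑ i, b.repr ((T ^ k) (T u)) i * b.repr ((T ^ k) (T v)) i =
    ∑ k ∈ Finset.range p, ∑ i, b.repr ((T ^ k) u) i * b.repr ((T ^ k) v) i
  have h1 : ∀ k : ℕ, ∀ x, (T ^ k) (T x) = (T ^ (k + 1)) x := by
    intro k x
    rw [pow_succ, Module.End.mul_apply]
  simp only [h1]
  have h2 := Finset.sum_range_succ
    (fun k => ∑ i, b.repr ((T ^ k) u) i * b.repr ((T ^ k) v) i) p
  have h3 := Finset.sum_range_succ'
    (fun k => ∑ i, b.repr ((T ^ k) u) i * b.repr ((T ^ k) v) i) p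
  have h4 : (T ^ p) u = (T ^ 0) u ∧ (T ^ p) v = (T ^ 0) v := by
    rw [hT, pow_zero]
    exact ⟨rfl, rfl⟩
  rw [h4.1, h4.2] at h2
  rw [h2] at h3
  exact (add_right_cancel h3).symm

/-- **Parity.** If a linear map `T` with `T^p = 1`, `p` odd, preserves `Q`, then the index of `Q`
has the same parity as the index of its restriction to the fixed space of `T`. -/
theorem sigNeg_parity (Q : QuadraticForm ℝ E) (T : E →ₗ[ℝ] E) (p : ℕ) (hp : Odd p)
    (hT : T ^ p = 1) (hQ : ∀ v, Q (T v) = Q v) :
    sigNeg Q ≡ sigNeg (Q.comp (LinearMap.ker (T - 1)).subtype) [MOD 2] := by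
  classical
  set K := LinearMap.ker (T - 1) with hK
  set L := LinearMap.range (T - 1) with hL
  have hKm : ∀ v, v ∈ K ↔ T v = v := by
    intro v
    rw [hK, LinearMap.mem_ker, LinearMap.sub_apply, Module.End.one_apply, sub_eq_zero]
  -- `K ∩ L = 0`
  have hKL : ∀ v ∈ L, T v = v → v = 0 := by
    rintro _ ⟨x, rfl⟩ h1
    have h2 : ∀ k : ℕ, (T ^ k) ((T - 1) x) = (T - 1) x := by
      intro k
      induction k with
      | zero => rfl
      | succ k ih => rw [pow_succ, Module.End.mul_apply, h1, ih]
    have h3 : ∑ k ∈ Finset.range p, (T ^ k) ((T - 1) x) = 0 := by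
      have h4 : ∀ k : ℕ, (T ^ k) ((T - 1) x) = (T ^ (k + 1)) x - (T ^ k) x := by
        intro k
        rw [LinearMap.sub_apply, map_sub, Module.End.one_apply, pow_succ, Module.End.mul_apply]
      simp only [h4]
      rw [Finset.sum_range_sub (fun k => (T ^ k) x), hT, pow_zero, sub_self]
    simp only [h2] at h3
    rw [Finset.sum_const, Finset.card_range, ← Nat.cast_smul_eq_nsmul ℝ] at h3
    have h5 : (p : ℝ) ≠ 0 := Nat.cast_ne_zero.2 hp.pos.ne'
    exact (smul_eq_zero.1 h3).resolve_left h5
  have hdis : Disjoint K L := by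
    rw [Submodule.disjoint_def]
    intro v hv1 hv2
    exact hKL v hv2 ((hKm v).1 hv1)
  have hcompl : IsCompl K L := by
    refine ⟨hdis, ?_⟩
    rw [codisjoint_iff]
    apply Submodule.eq_top_of_finrank_eq
    have h1 := Submodule.finrank_sup_add_finrank_inf_eq K L
    rw [hdis.eq_bot, finrank_bot, add_zero] at h1
    rw [h1, add_comm]
    exact LinearMap.finrank_range_add_finrank_ker (T - 1)
  -- orthogonality
  have hBT : ∀ u v, QuadraticMap.polar Q (T u) (T v) = QuadraticMap.polar Q u v := by
    intro u v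
    unfold QuadraticMap.polar
    rw [← map_add, hQ, hQ, hQ]
  have hort : ∀ u ∈ K, ∀ v ∈ L, QuadraticMap.polar Q u v = 0 := by
    rintro u hu _ ⟨x, rfl⟩
    rw [LinearMap.sub_apply, Module.End.one_apply, QuadraticMap.polar_sub_right]
    have h1 := hBT u x
    rw [(hKm u).1 hu] at h1
    rw [h1, sub_self]
  have hequiv : QuadraticMap.Equivalent (QuadraticMap.prod (Q.comp K.subtype) (Q.comp L.subtype))
      Q := by
    refine ⟨{ Submodule.prodEquivOfIsCompl K L hcompl with map_app' := fun v => ?_ }⟩
    obtain ⟨u, v⟩ := v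
    rw [QuadraticMap.prod_apply]
    show Q ((Submodule.prodEquivOfIsCompl K L hcompl) (u, v)) = _
    rw [Submodule.coe_prodEquivOfIsCompl']
    have h1 := hort u.1 u.2 v.1 v.2
    unfold QuadraticMap.polar at h1
    show Q (u.1 + v.1) = Q u.1 + Q v.1
    linarith
  rw [← hequiv.sigNeg_eq, sigNeg_prod]
  have hTL : ∀ v ∈ L, T v ∈ L := by
    rintro _ ⟨x, rfl⟩
    refine ⟨T x, ?_⟩
    simp only [LinearMap.sub_apply, Module.End.one_apply, map_sub]
  have hev : Even (sigNeg (Q.comp L.subtype)) := by
    refine IdxP_even (Q.comp L.subtype) (T.restrict hTL) p hp ?_ ?_ ?_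
    · rw [Module.End.pow_restrict]
      ext v
      show ((T ^ p) v.1 : E) = v.1
      rw [hT]
      rfl
    · intro v
      exact hQ v.1
    · intro v hv
      exact Subtype.ext (hKL v.1 v.2 (congrArg Subtype.val hv))
  obtain ⟨m, hm⟩ := hev
  unfold Nat.ModEq
  omega

end alg

end Pool.Agent.H47.QG
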