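import Pool.Agent.H47.QG.EqA
import Pool.Agent.H47.QG.EqB
import Pool.Agent.H47.QG.LocN
import Pool.Agent.H47.QG.IdxP

/-!
# Equivariant perturbation at an admissible fixed critical point
-/

set_option autoImplicit false

open Module QuadraticForm

namespace Pool.Agent.H47.QG

variable {ι : Type*} [Fintype ι] [DecidableEq ι]

/-- lower bound on a compact set -/
theorem EqP_low {E G : Type*} [TopologicalSpace E] [NormedAddCommGroup G] (K : Set E)
    (hK : IsCompact K) (φ : E → G) (hφ : Continuous φ) (h0 : ∀ x ∈ K, φ x ≠ 0) :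
    ∃ c > 0, ∀ x ∈ K, c ≤ ‖φ x‖ := by
  rcases K.eq_empty_or_nonempty with rfl | hne
  · exact ⟨1, one_pos, by simp⟩
  · obtain ⟨x0, hx0, hmin⟩ := hK.exists_isMinOn hne (hφ.norm.continuousOn)
    exact ⟨‖φ x0‖, norm_pos_iff.mpr (h0 x0 hx0), fun x hx => hmin hx⟩

/-- upper bound on a compact set -/
theorem EqP_up {E : Type*} [TopologicalSpace E] (K : Set E)
    (hK : IsCompact K) (φ : E → ℝ) (hφ : Continuous φ) :
    ∃ B > 0, ∀ x ∈ K, φ x ≤ B := by
  obtain ⟨C, hC⟩ := hK.exists_bound_of_continuousOn hφ.continuousOn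
  refine ⟨max C 1, lt_max_of_lt_right one_pos, fun x hx => ?_⟩
  exact (le_abs_self _).trans ((hC x hx).trans (le_max_left _ _))

omit [DecidableEq ι] in
theorem EqP_PT (T : (ι → ℝ) →ₗ[ℝ] (ι → ℝ)) (p : ℕ) (hT : T ^ p = 1) (v : ι → ℝ) :
    EqB_P T p (T v) = EqB_P T p v := by
  have h := geom_sum_mul T p
  rw [hT, sub_self] at h
  have h1 := LinearMap.congr_fun h v
  have h2 : EqB_N T p (T v - v) = 0 := h1
  rw [map_sub, sub_eq_zero] at h2
  rw [EqB_P_apply, EqB_P_apply, h2]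

/-- the projection to the fixed space -/
noncomputable def EqP_Q (T : (ι → ℝ) →ₗ[ℝ] (ι → ℝ)) (p : ℕ) (hT : T ^ p = 1) :
    (ι → ℝ) →L[ℝ] LinearMap.ker (T - 1) :=
  (EqB_P T p).codRestrict (LinearMap.ker (T - 1)) (fun v => by
    rw [LinearMap.mem_ker, LinearMap.sub_apply, EqB_TP T p hT, Module.End.one_apply, sub_self])

omit [DecidableEq ι] in
theorem EqP_Q_T (T : (ι → ℝ) →ₗ[ℝ] (ι → ℝ)) (p : ℕ) (hT : T ^ p = 1) (v : ι → ℝ) :
    EqP_Q T p hT (T v) = EqP_Q T p hT v :=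
  Subtype.ext (EqP_PT T p hT v)

theorem EqP_mem (T : (ι → ℝ) →ₗ[ℝ] (ι → ℝ)) (v : ι → ℝ) :
    v ∈ LinearMap.ker (T - 1) ↔ T v = v := by
  rw [LinearMap.mem_ker, LinearMap.sub_apply, Module.End.one_apply, sub_eq_zero]

omit [DecidableEq ι] in
theorem EqP_Q_fix (T : (ι → ℝ) →ₗ[ℝ] (ι → ℝ)) (p : ℕ) (hp : 0 < p) (hT : T ^ p = 1)
    (v : LinearMap.ker (T - 1)) : EqP_Q T p hT v = v := by
  refine Subtype.ext (EqB_Pfix T p hp v ?_)
  have h := v.2
  rw [LinearMap.mem_ker, LinearMap.sub_apply, Module.End.one_apply, sub_eq_zero] at h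
  exact h

/-- derivative of the restriction -/
theorem EqP_F1 (f : (ι → ℝ) → ℝ) (hf : ContDiff ℝ 2 f) (W : Submodule ℝ (ι → ℝ)) :
    fderiv ℝ (fun y : W => f y) = fun y : W => (fderiv ℝ f (y : ι → ℝ)).comp W.subtypeL := by
  funext y
  have hd : Differentiable ℝ f := hf.differentiable (by norm_num)
  have h2 : HasFDerivAt (fun y : W => f y) ((fderiv ℝ f (y : ι → ℝ)).comp W.subtypeL) y :=
    (hd (y : ι → ℝ)).hasFDerivAt.comp y W.subtypeL.hasFDerivAt
  exact h2.fderiv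

/-- second derivative of the restriction -/
theorem EqP_F2 (f : (ι → ℝ) → ℝ) (hf : ContDiff ℝ 2 f) (W : Submodule ℝ (ι → ℝ)) (y v u : W) :
    fderiv ℝ (fderiv ℝ (fun y : W => f y)) y v u = fderiv ℝ (fderiv ℝ f) (y : ι → ℝ) v u := by
  have hd : Differentiable ℝ (fderiv ℝ f) :=
    (hf.fderiv_right (m := 1) (by norm_num)).differentiable (by norm_num)
  have h : HasFDerivAt (fderiv ℝ (fun y : W => f y))
      (((ContinuousLinearMap.compL ℝ W (ι → ℝ) ℝ).flip W.subtypeL).comp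
        ((fderiv ℝ (fderiv ℝ f) (y : ι → ℝ)).comp W.subtypeL)) y := by
    rw [EqP_F1 f hf W]
    have h3 : HasFDerivAt (fun y : W => fderiv ℝ f (y : ι → ℝ))
        ((fderiv ℝ (fderiv ℝ f) (y : ι → ℝ)).comp W.subtypeL) y :=
      (hd (y : ι → ℝ)).hasFDerivAt.comp y W.subtypeL.hasFDerivAt
    have h4 := ((ContinuousLinearMap.compL ℝ W (ι → ℝ) ℝ).flip W.subtypeL).hasFDerivAt
      (x := fderiv ℝ f (y : ι → ℝ))
    exact HasFDerivAt.comp (g := ((ContinuousLinearMap.compL ℝ W (ι → ℝ) ℝ).flip W.subtypeL))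
      (f := fun y : W => fderiv ℝ f (y : ι → ℝ)) y h4 h3
  rw [h.fderiv]
  rfl

/-- nondegenerate Hessians -/
theorem EqP_nd (f : (ι → ℝ) → ℝ) (hf : ContDiff ℝ 2 f) (y : ι → ℝ)
    (h : ∀ v, fderiv ℝ (fderiv ℝ f) y v = 0 → v = 0) :
    sigNeg (hess f y) + sigPos (hess f y) = Fintype.card ι := by
  have hsymm : IsSymmSndFDerivAt ℝ f y := (hf.contDiffAt).isSymmSndFDerivAt (by simp)
  have hrad : (hess f y).radical = ⊥ := by
    rw [eq_bot_iff]
    intro v hv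
    have hv' := QuadraticMap.mem_radical_iff'.1 hv
    rw [Submodule.mem_bot]
    apply h
    ext w
    have h1 := hv'.2 w
    have h2 := hv'.1
    rw [hess_apply] at h2
    rw [hess_apply, hess_apply, map_add] at h1
    have h3 := hsymm.eq v w
    simp only [ContinuousLinearMap.add_apply, map_add] at h1
    have h4 : fderiv ℝ (fderiv ℝ f) y v w = 0 := by linarith
    rw [h4]
    rfl
  have h1 := QuadraticForm.sigPos_add_sigNeg_add_radical (Q := hess f y)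
  rw [hrad, finrank_bot, Module.finrank_fintype_fun_eq_card] at h1
  omega

theorem EqP_zero {G : Type*} [SeminormedAddCommGroup G] (A B : G)
    (h : A = B) (η : ℝ) (hη : 0 < η) : ‖A - B‖ ≤ η := by
  rw [h, sub_self, norm_zero]
  exact hη.le

theorem EqP_c0 {E G : Type*} [PseudoMetricSpace E] [SeminormedAddCommGroup G] (φ : E → G)
    (hφ : Continuous φ) (z : E) (δ : ℝ) (hδ : 0 < δ) :
    ∃ ρ > 0, ∀ y ∈ Metric.ball z ρ, ‖φ y - φ z‖ < δ := by
  obtain ⟨ρ, hρ, h⟩ := Metric.continuous_iff.mp hφ z δ hδ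
  refine ⟨ρ, hρ, fun y hy => ?_⟩
  have h1 := h y hy
  rwa [dist_eq_norm] at h1

/-- continuity of the Hessian -/
theorem EqP_cont {E : Type*} [NormedAddCommGroup E] [NormedSpace ℝ E] (f : E → ℝ)
    (hf : ContDiff ℝ 2 f) (z : E) (δ : ℝ) (hδ : 0 < δ) :
    ∃ ρ > 0, ∀ y ∈ Metric.ball z ρ, ∀ v, |hess f y v - hess f z v| ≤ δ * ‖v‖ ^ 2 := by
  have hcont : Continuous (fderiv ℝ (fderiv ℝ f)) :=
    (hf.fderiv_right (m := 1) (by norm_num)).continuous_fderiv (by norm_num)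
  obtain ⟨ρ, hρ, h⟩ := EqP_c0 (fderiv ℝ (fderiv ℝ f)) hcont z δ hδ
  refine ⟨ρ, hρ, fun y hy v => ?_⟩
  have h1 := h y hy
  have h2 : hess f y v - hess f z v =
      (fderiv ℝ (fderiv ℝ f) y - fderiv ℝ (fderiv ℝ f) z) v v := by
    rw [hess_apply, hess_apply]
    rfl
  rw [h2, ← Real.norm_eq_abs]
  calc ‖(fderiv ℝ (fderiv ℝ f) y - fderiv ℝ (fderiv ℝ f) z) v v‖
      ≤ ‖fderiv ℝ (fderiv ℝ f) y - fderiv ℝ (fderiv ℝ f) z‖ * ‖v‖ * ‖v‖ :=
        ContinuousLinearMap.le_opNorm₂ _ _ _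
    _ ≤ δ * ‖v‖ * ‖v‖ :=
        mul_le_mul_of_nonneg_right (mul_le_mul_of_nonneg_right h1.le (norm_nonneg v))
          (norm_nonneg v)
    _ = δ * ‖v‖ ^ 2 := by ring

/-- derivative of the linear perturbation -/
theorem EqP_lin {E : Type*} [NormedAddCommGroup E] [NormedSpace ℝ E] (a : E →L[ℝ] ℝ) (z x : E) :
    HasFDerivAt (fun x : E => a (x - z)) a x := by
  have h9 : HasFDerivAt (fun x : E => x - z) (ContinuousLinearMap.id ℝ E) x :=
    (hasFDerivAt_id x).sub_const z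
  have h10 : HasFDerivAt (fun x : E => a (x - z)) (a.comp (ContinuousLinearMap.id ℝ E)) x :=
    a.hasFDerivAt.comp x h9
  rw [ContinuousLinearMap.comp_id] at h10
  exact h10

theorem EqP_lin2 {E : Type*} [NormedAddCommGroup E] [NormedSpace ℝ E] (f : E → ℝ)
    (a : E →L[ℝ] ℝ) (x : E) :
    fderiv ℝ (fun x => fderiv ℝ f x - a) x = fderiv ℝ (fderiv ℝ f) x :=
  fderiv_sub_const a

/-- derivative of the perturbation -/
theorem EqP_pertd {E : Type*} [NormedAddCommGroup E] [NormedSpace ℝ E] (f χ : E → ℝ)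
    (hf : Differentiable ℝ f) (hχ : Differentiable ℝ χ) (a : E →L[ℝ] ℝ) (z y : E)
    (h : fderiv ℝ (fun x => f x - χ x * a (x - z)) y = 0) :
    ‖fderiv ℝ f y‖ ≤ ‖a‖ * (|χ y| + ‖y - z‖ * ‖fderiv ℝ χ y‖) := by
  have h8 : HasFDerivAt (fun x => f x - χ x * a (x - z))
      (fderiv ℝ f y - (χ y • a + a (y - z) • fderiv ℝ χ y)) y :=
    (hf y).hasFDerivAt.sub ((hχ y).hasFDerivAt.mul (EqP_lin a z y))
  rw [h8.fderiv, sub_eq_zero] at h
  rw [h]
  calc ‖χ y • a + a (y - z) • fderiv ℝ χ y‖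
      ≤ ‖χ y • a‖ + ‖a (y - z) • fderiv ℝ χ y‖ := norm_add_le _ _
    _ = |χ y| * ‖a‖ + ‖a (y - z)‖ * ‖fderiv ℝ χ y‖ := by
      rw [norm_smul, norm_smul, Real.norm_eq_abs]
    _ ≤ |χ y| * ‖a‖ + (‖a‖ * ‖y - z‖) * ‖fderiv ℝ χ y‖ := by
      gcongr
      exact a.le_opNorm _
    _ = ‖a‖ * (|χ y| + ‖y - z‖ * ‖fderiv ℝ χ y‖) := by ring

/-- **Equivariant perturbation.** If `z` is a `T`-fixed isolated critical point of the `T`-invariant function
`f`, the kernel of the Hessian at `z` consists of `T`-fixed vectors, and the restriction of `f` to the fixed space of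
`T` has local index `s` at `z`, then `f` has a perturbation near `z` with signed number `s` of
critical points. -/
theorem equiv_pert (f : (ι → ℝ) → ℝ) (hf : ContDiff ℝ 2 f) (T : (ι → ℝ) →ₗ[ℝ] (ι → ℝ)) (p : ℕ)
    (hp : Odd p) (hT : T ^ p = 1) (hTf : ∀ x, f (T x) = f x)
    (z : LinearMap.ker (T - 1)) (hz0 : fderiv ℝ f z = 0)
    (hadm : ∀ v, fderiv ℝ (fderiv ℝ f) z v = 0 → T v = v) (s : ℤ)
    (hs : LocIdx (fun y : LinearMap.ker (T - 1) => f y) z s)
    (r : ℝ) (hr : 0 < r)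
    (hiso : ∀ x ∈ Metric.closedBall (z : ι → ℝ) r, fderiv ℝ f x = 0 → x = z) :
    ∃ (g : (ι → ℝ) → ℝ) (X : Finset (ι → ℝ)), LD f z r g X ∧
      ∑ y ∈ X, (-1 : ℤ) ^ sigNeg (hess g y) = s := by
  classical
  have hp0 : 0 < p := hp.pos
  have hTz : T z = z := (EqP_mem T z).1 z.2
  have hmem : ∀ v : LinearMap.ker (T - 1), T v = v := fun v => (EqP_mem T v).1 v.2
  have hdf : Differentiable ℝ f := hf.differentiable (by norm_num)
  haveI : ProperSpace (LinearMap.ker (T - 1)) := FiniteDimensional.proper ℝ _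
  obtain ⟨ρ1, hρ1, η1, hη1, hcf⟩ := crit_fixed f hf T p hp0 hT hTf z hTz hadm
  obtain ⟨ρ2, hρ2, hnf⟩ := nondeg_fixed f hf T p hp0 hT hTf z hTz hadm
  obtain ⟨χ, hχ, hχT, hχ0, hχ1⟩ := exists_bump T p hp0 hT z hTz (r / 2) (by linarith)
  obtain ⟨ρ3, hρ3, hχ1⟩ := Metric.eventually_nhds_iff_ball.mp hχ1
  obtain ⟨δs, hδs, hsemi⟩ := sigNeg_semicont (hess f (z : ι → ℝ))
  obtain ⟨ρ4, hρ4, hcH⟩ := EqP_cont f hf z δs hδs
  obtain ⟨r0, hr0, hz0', δ0, hδ0, hloc⟩ := hs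
  -- the radius
  obtain ⟨ρ, hρ, h1, h2, h3, h4, h5, h6⟩ : ∃ ρ > 0, ρ ≤ ρ1 ∧ ρ ≤ ρ2 ∧ ρ ≤ ρ3 ∧ ρ ≤ ρ4 ∧ ρ ≤ r0 ∧
      ρ ≤ r / 2 :=
    ⟨min (min (min ρ1 ρ2) (min ρ3 ρ4)) (min r0 (r / 2)), by positivity,
      (min_le_left _ _).trans ((min_le_left _ _).trans (min_le_left _ _)),
      (min_le_left _ _).trans ((min_le_left _ _).trans (min_le_right _ _)),
      (min_le_left _ _).trans ((min_le_right _ _).trans (min_le_left _ _)),
      (min_le_left _ _).trans ((min_le_right _ _).trans (min_le_right _ _)),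
      (min_le_right _ _).trans (min_le_left _ _), (min_le_right _ _).trans (min_le_right _ _)⟩
  -- the restriction
  set F : LinearMap.ker (T - 1) → ℝ := fun y : LinearMap.ker (T - 1) => f y with hF
  have hFc : ContDiff ℝ 2 F := hf.comp (LinearMap.ker (T - 1)).subtypeL.contDiff
  have hF1 : fderiv ℝ F = fun y : LinearMap.ker (T - 1) => (fderiv ℝ f (y : ι → ℝ)).comp (LinearMap.ker (T - 1)).subtypeL := EqP_F1 f hf (LinearMap.ker (T - 1))
  -- bounds
  obtain ⟨c1, hc1, hb1⟩ := EqP_low (Metric.closedBall (z : ι → ℝ) r \ Metric.ball (z : ι → ℝ) ρ)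
    ((isCompact_closedBall (z : ι → ℝ) r).diff Metric.isOpen_ball) (fderiv ℝ f)
    ((hf.fderiv_right (m := 1) (by norm_num)).continuous) (by
      rintro x ⟨hx1, hx2⟩ h0
      rw [hiso x hx1 h0] at hx2
      exact hx2 (Metric.mem_ball_self hρ))
  obtain ⟨c2, hc2, hb2⟩ := EqP_low (Metric.closedBall z r0 \ Metric.ball z ρ)
    ((isCompact_closedBall z r0).diff Metric.isOpen_ball) (fderiv ℝ F)
    ((hFc.fderiv_right (m := 1) (by norm_num)).continuous) (by
      rintro x ⟨hx1, hx2⟩ h0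
      rw [hz0' x hx1 h0] at hx2
      exact hx2 (Metric.mem_ball_self hρ))
  obtain ⟨B, hB, hBb⟩ := EqP_up (Metric.closedBall (z : ι → ℝ) r)
    (isCompact_closedBall (z : ι → ℝ) r) (fun x => |χ x| + ‖x - z‖ * ‖fderiv ℝ χ x‖) (by
      have h7 := hχ.continuous
      have h8 := (hχ.fderiv_right (m := 1) (by norm_num)).continuous
      fun_prop)
  -- the functional
  let Q : (ι → ℝ) →L[ℝ] LinearMap.ker (T - 1) := EqP_Q T p hT
  obtain ⟨δ, hδ, hd1, hd2, hd3⟩ : ∃ δ > 0, δ ≤ δ0 ∧ δ ≤ c2 ∧ δ * (‖Q‖ * B) < c1 := by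
    refine ⟨min (min δ0 c2) (c1 / (‖Q‖ * B + 1) / 2), by positivity,
      (min_le_left _ _).trans (min_le_left _ _), (min_le_left _ _).trans (min_le_right _ _), ?_⟩
    have h7 : 0 < ‖Q‖ * B + 1 := by positivity
    calc min (min δ0 c2) (c1 / (‖Q‖ * B + 1) / 2) * (‖Q‖ * B)
        ≤ c1 / (‖Q‖ * B + 1) / 2 * (‖Q‖ * B + 1) := by
          apply mul_le_mul (min_le_right _ _) (by linarith) (by positivity) (by positivity)
      _ = c1 / 2 := by field_simp
      _ < c1 := by linarith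
  obtain ⟨a, ha, hreg⟩ := exists_regular_dual F hFc δ hδ
  obtain ⟨X0, hX0, hsum⟩ := hloc a (ha.trans_le hd1) (fun y _ hy => hreg y hy)
  let a' : (ι → ℝ) →L[ℝ] ℝ := a.comp Q
  have ha' : ∀ v : LinearMap.ker (T - 1), a' v = a v := by
    intro v
    show a (Q v) = a v
    rw [show Q v = v from EqP_Q_fix T p hp0 hT v]
  have haT : ∀ v, a' (T v) = a' v := by
    intro v
    show a (Q (T v)) = a (Q v)
    rw [show Q (T v) = Q v from EqP_Q_T T p hT v]
  have han : ‖a'‖ ≤ ‖a‖ * ‖Q‖ := ContinuousLinearMap.opNorm_comp_le _ _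
  -- the linear perturbation
  let g1 : (ι → ℝ) → ℝ := fun x => f x - a' (x - z)
  have hg1 : ContDiff ℝ 2 g1 := hf.sub (a'.contDiff.comp (contDiff_id.sub contDiff_const))
  have hg1T : ∀ x, g1 (T x) = g1 x := by
    intro x
    show f (T x) - a' (T x - z) = f x - a' (x - z)
    have h7 : T x - z = T (x - z) := by rw [map_sub, hTz]
    rw [h7, haT, hTf]
  have hg1' : ∀ x, HasFDerivAt g1 (fderiv ℝ f x - a') x := by
    intro x
    exact (hdf x).hasFDerivAt.sub (EqP_lin a' (z : ι → ℝ) x)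
  have hg1d : fderiv ℝ g1 = fun x => fderiv ℝ f x - a' := funext fun x => (hg1' x).fderiv
  have hg1dd : ∀ x, fderiv ℝ (fderiv ℝ g1) x = fderiv ℝ (fderiv ℝ f) x := by
    intro x
    rw [hg1d]
    exact EqP_lin2 f a' x
  -- the perturbation
  let g : (ι → ℝ) → ℝ := fun x => f x - χ x * a' (x - z)
  have hg : ContDiff ℝ 2 g :=
    hf.sub (hχ.mul (a'.contDiff.comp (contDiff_id.sub contDiff_const)))
  have hgg1 : ∀ y ∈ Metric.ball (z : ι → ℝ) ρ, g =ᶠ[nhds y] g1 := by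
    intro y hy
    filter_upwards [Metric.isOpen_ball.mem_nhds hy] with x hx
    show f x - χ x * a' (x - z) = f x - a' (x - z)
    rw [hχ1 x (Metric.ball_subset_ball h3 hx), one_mul]
  have hgd : ∀ y ∈ Metric.ball (z : ι → ℝ) ρ, fderiv ℝ g y = fderiv ℝ f y - a' := by
    intro y hy
    rw [(hgg1 y hy).fderiv_eq, hg1d]
  have hgh : ∀ y ∈ Metric.ball (z : ι → ℝ) ρ, hess g y = hess f y := by
    intro y hy
    have h7 : fderiv ℝ (fderiv ℝ g) y = fderiv ℝ (fderiv ℝ f) y := by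
      rw [((hgg1 y hy).fderiv).fderiv_eq, hg1dd]
    unfold hess
    rw [h7]
  have hgo : ∀ y ∈ Metric.closedBall (z : ι → ℝ) r, fderiv ℝ g y = 0 →
      y ∈ Metric.ball (z : ι → ℝ) ρ := by
    intro y hy hgy
    by_contra hcon
    have h7 := hb1 y ⟨hy, hcon⟩
    have h12 := EqP_pertd f χ hdf (hχ.differentiable (by norm_num)) a' (z : ι → ℝ) y hgy
    have h13 : ‖a'‖ * (|χ y| + ‖y - z‖ * ‖fderiv ℝ χ y‖) ≤ (δ * ‖Q‖) * B := by
      apply mul_le_mul _ (hBb y hy) (by positivity) (by positivity)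
      calc ‖a'‖ ≤ ‖a‖ * ‖Q‖ := han
        _ ≤ δ * ‖Q‖ := by gcongr
    have h14 : δ * ‖Q‖ * B = δ * (‖Q‖ * B) := by ring
    linarith
  -- points of X0
  have hX0b : ∀ y ∈ X0, y ∈ Metric.ball z ρ := by
    intro y hy
    obtain ⟨h7, h8⟩ := (hX0 y).1 hy
    by_contra hcon
    have h9 := hb2 y ⟨Metric.ball_subset_closedBall h7, hcon⟩
    rw [h8] at h9
    linarith
  have hX0b' : ∀ y ∈ X0, (y : ι → ℝ) ∈ Metric.ball (z : ι → ℝ) ρ := fun y hy => hX0b y hy
  have hX0d : ∀ y ∈ X0, fderiv ℝ F y = a := fun y hy => ((hX0 y).1 hy).2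
  let X : Finset (ι → ℝ) := X0.image (fun y : LinearMap.ker (T - 1) => (y : ι → ℝ))
  have hXmem : ∀ y, y ∈ X ↔ ∃ w ∈ X0, (w : ι → ℝ) = y := by
    intro y
    simp only [X, Finset.mem_image]
  have hXball : ∀ y ∈ X, y ∈ Metric.ball (z : ι → ℝ) ρ := by
    intro y hy
    obtain ⟨w, hw, rfl⟩ := (hXmem y).1 hy
    exact hX0b' w hw
  have hnd : ∀ y ∈ X, ∀ v, fderiv ℝ (fderiv ℝ f) y v = 0 → v = 0 := by
    intro y hy
    obtain ⟨w, hw, rfl⟩ := (hXmem y).1 hy
    refine hnf w (Metric.ball_subset_ball h2 (hX0b' w hw)) (hmem w) ?_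
    intro v hv hvu
    have h7 : fderiv ℝ (fderiv ℝ F) w ⟨v, (EqP_mem T v).2 hv⟩ = 0 := by
      ext u
      rw [EqP_F2 f hf (LinearMap.ker (T - 1))]
      exact hvu u (hmem u)
    have h8 := hreg w (hX0d w hw) _ h7
    exact congrArg Subtype.val h8
  have hndg : ∀ y ∈ X, sigNeg (hess g y) + sigPos (hess g y) = Fintype.card ι := by
    intro y hy
    rw [hgh y (hXball y hy)]
    exact EqP_nd f hf y (hnd y hy)
  have hsc : ∀ y ∈ X, sigNeg (hess f (z : ι → ℝ)) ≤ sigNeg (hess g y) ∧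
      sigPos (hess f (z : ι → ℝ)) ≤ sigPos (hess g y) := by
    intro y hy
    rw [hgh y (hXball y hy)]
    exact hsemi _ (hcH y (Metric.ball_subset_ball h4 (hXball y hy)))
  refine ⟨g, X, ⟨hg, ?_, ?_, ?_, hndg, ?_, ?_⟩, ?_⟩
  · intro y hy
    show f y - χ y * a' (y - z) = f y
    rw [hχ0 y hy, zero_mul, sub_zero]
  · intro y hy
    constructor
    · intro hgy
      have hyb := hgo y hy hgy
      have h7 : T y = y := by
        refine hcf g1 hg1 hg1T ?_ y (Metric.ball_subset_ball h1 hyb) ?_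
        · intro x _
          exact EqP_zero _ _ (hg1dd x) η1 hη1
        · rw [hg1d]
          exact (hgd y hyb).symm.trans hgy
      have h8 : fderiv ℝ f y = a' := by
        rw [hgd y hyb, sub_eq_zero] at hgy
        exact hgy
      refine (hXmem y).2 ⟨⟨y, (EqP_mem T y).2 h7⟩, (hX0 _).2 ⟨?_, ?_⟩, rfl⟩
      · exact Metric.ball_subset_ball h5 hyb
      · rw [hF1]
        show (fderiv ℝ f y).comp (LinearMap.ker (T - 1)).subtypeL = a
        rw [h8]
        ext v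
        exact ha' v
    · intro hyX
      have hyb := hXball y hyX
      obtain ⟨w, hw, rfl⟩ := (hXmem y).1 hyX
      have h7 : fderiv ℝ g1 (w : ι → ℝ) = 0 := by
        refine deriv_fixed g1 hg1 T p hp0 hT hg1T w (hmem w) ?_
        intro u hu
        rw [hg1d]
        have h8 := hX0d w hw
        rw [hF1] at h8
        have h9 := congrArg (fun L => L (⟨u, (EqP_mem T u).2 hu⟩ : LinearMap.ker (T - 1))) h8
        have h10 : fderiv ℝ f (w : ι → ℝ) u = a ⟨u, (EqP_mem T u).2 hu⟩ := h9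
        have h11 := ha' ⟨u, (EqP_mem T u).2 hu⟩
        show fderiv ℝ f (w : ι → ℝ) u - a' u = 0
        rw [h10, ← h11, sub_self]
      rw [hgd _ hyb]
      rw [hg1d] at h7
      exact h7
  · intro y hy
    exact Metric.ball_subset_ball h6 (hXball y hy)
  · intro y hy
    exact (hsc y hy).1
  · intro y hy
    have h7 := hndg y hy
    have h8 := (hsc y hy).2
    omega
  · rw [← hsum]
    have hinj : Set.InjOn (fun y : LinearMap.ker (T - 1) => (y : ι → ℝ)) (X0 : Set (LinearMap.ker (T - 1))) :=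
      fun x _ y _ h => Subtype.ext h
    rw [Finset.sum_image hinj]
    refine Finset.sum_congr rfl fun y hy => ?_
    rw [hgh _ (hX0b' y hy)]
    have h7 := sigNeg_parity (hess f (y : ι → ℝ)) T p hp hT (fun v => by
      have h8 := EqB_fd2 f hf T hTf (y : ι → ℝ) v v
      rw [hmem y] at h8
      rw [hess_apply, hess_apply]
      exact h8)
    have h8 : (hess f (y : ι → ℝ)).comp (LinearMap.ker (T - 1)).subtype = hess F y := by
      ext v
      rw [QuadraticMap.comp_apply, hess_apply, hess_apply, EqP_F2 f hf (LinearMap.ker (T - 1))]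
      rfl
    rw [h8] at h7
    rw [neg_one_pow_eq_pow_mod_two (n := sigNeg (hess f (y : ι → ℝ))),
      neg_one_pow_eq_pow_mod_two (n := sigNeg (hess F y)), h7]

end Pool.Agent.H47.QG
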