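import Pool.Agent.H47.QG.IterP

/-!
# Admissible primes
-/

set_option autoImplicit false

open Module QuadraticForm

namespace Pool.Agent.H47.QG

/-- For all large primes `p` the vectors fixed by `M ^ p` are fixed by `M`. -/
theorem IterR_prime {E : Type*} [AddCommGroup E] [Module ℝ E] [FiniteDimensional ℝ E]
    (M : E →ₗ[ℝ] E) :
    ∃ P₀ : ℕ, ∀ p : ℕ, p.Prime → P₀ < p → ∀ x, M^[p] x = x → M x = x := by
  classical
  set B : Set ℕ := {p : ℕ | p.Prime ∧ ∃ x, M x ≠ x ∧ M^[p] x = x} with hB
  have hch : ∀ p : B, ∃ x, M x ≠ x ∧ M^[(p : ℕ)] x = x := fun p => p.2.2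
  choose X hX0 hX using hch
  set U : B → E := fun p => M (X p) - X p with hU
  have hU0 : ∀ p, U p ≠ 0 := fun p => sub_ne_zero.2 (hX0 p)
  have hUp : ∀ p : B, M^[(p : ℕ)] (U p) = U p := by
    intro p
    show M^[(p : ℕ)] (M (X p) - X p) = M (X p) - X p
    rw [← Module.End.pow_apply, map_sub, Module.End.pow_apply, Module.End.pow_apply, hX p,
      ← Function.iterate_succ_apply, Function.iterate_succ_apply', hX p]
  have hUf : ∀ p : B, M (U p) ≠ U p := by
    intro p h
    have h1 : ∀ k : ℕ, M^[k] (X p) = X p + (k : ℝ) • U p := by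
      intro k
      induction k with
      | zero => simp
      | succ k ih =>
        have h2 : M (X p) = X p + U p := by
          show M (X p) = X p + (M (X p) - X p)
          abel
        rw [Function.iterate_succ_apply', ih, map_add, map_smul, h, h2]
        push_cast
        rw [add_smul, one_smul]
        abel
    have h3 := h1 p
    rw [hX p] at h3
    have h4 : ((p : ℕ) : ℝ) • U p = 0 := by
      have : X p + ((p : ℕ) : ℝ) • U p = X p + 0 := by rw [← h3, add_zero]
      exact add_left_cancel this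
    rcases smul_eq_zero.1 h4 with h5 | h5
    · exact p.2.1.ne_zero (by exact_mod_cast h5)
    · exact hU0 p h5
  have hli : LinearIndependent ℝ U := by
    rw [linearIndependent_iff']
    intro s g hg q hq
    have hy : g q • U q = - ∑ p ∈ s.erase q, g p • U p := by
      have := Finset.add_sum_erase s (fun p => g p • U p) hq
      rw [hg] at this
      exact eq_neg_of_add_eq_zero_left this
    have h1 : Function.IsPeriodicPt M (∏ p ∈ s.erase q, (p : ℕ)) (g q • U q) := by
      show M^[∏ p ∈ s.erase q, (p : ℕ)] (g q • U q) = g q • U q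
      rw [hy, ← Module.End.pow_apply, map_neg, map_sum]
      congr 1
      refine Finset.sum_congr rfl fun p hp => ?_
      rw [map_smul]
      congr 1
      have h2 : Function.IsPeriodicPt M (p : ℕ) (U p) := hUp p
      have h3 : Function.IsPeriodicPt M (∏ p ∈ s.erase q, (p : ℕ)) (U p) :=
        h2.trans_dvd (Finset.dvd_prod_of_mem _ hp)
      rw [Module.End.pow_apply]
      exact h3
    have h2 : Function.IsPeriodicPt M (q : ℕ) (g q • U q) := by
      show M^[(q : ℕ)] (g q • U q) = g q • U q
      rw [← Module.End.pow_apply, map_smul, Module.End.pow_apply, hUp q]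
    have h3 := h1.gcd h2
    have h4 : Nat.Coprime (∏ p ∈ s.erase q, (p : ℕ)) (q : ℕ) := by
      refine Nat.Coprime.prod_left fun p hp => ?_
      rw [Nat.coprime_primes p.2.1 q.2.1]
      intro h5
      exact Finset.ne_of_mem_erase hp (Subtype.ext h5)
    rw [Nat.Coprime.gcd_eq_one h4] at h3
    have h5 : M (g q • U q) = g q • U q := h3
    rw [map_smul] at h5
    by_contra h6
    exact hUf q (smul_right_injective E h6 h5)
  have : Finite B := hli.finite
  obtain ⟨P, hP⟩ := (Set.toFinite B).bddAbove
  refine ⟨P, fun p hp hlt x hx => ?_⟩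
  by_contra hx0
  have : p ∈ B := ⟨hp, x, hx0, hx⟩
  exact absurd (hP this) (not_le.2 hlt)

variable {n : ℕ} (S : ℕ → Pt n → ℝ) (f : ℕ → Pt n → Pt n)

/-- For all large primes `p` the kernel of the Hessian at the `p`-th iterate of a periodic orbit
consists of `N`-periodic sequences. -/
theorem adm_prime (hS : ∀ j, Gen (S j) (f j)) (N : ℕ) (hN : 0 < N)
    (hper : ∀ j, S (j + N) = S j) (hfper : ∀ j, f (j + N) = f j) (w : Pt n)
    (hw : flw f N w = w) : ∃ P₀, ∀ p : ℕ, p.Prime → P₀ < p → ∀ h : NeZero (p * N),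
      ∀ v : Fin (p * N) → Pt n,
        fderiv ℝ (fderiv ℝ (action S (p * N))) (oseq f (p * N) w) v = 0 →
        shiftN n (p * N) N v = v := by
  have hex : ∀ j, ∃ L : Pt n →ₗ[ℝ] Pt n, ∀ a b,
      IterPRel (fderiv ℝ (fderiv ℝ (S j)) ((flw f (j + 1) w).1, (flw f j w).2)) a b ↔ b = L a :=
    fun j => IterP_exists_L _ ((hS j).inv _)
  choose L hL using hex
  have hflw : ∀ j, flw f (j + N) w = flw f j w := by
    intro j
    induction j with
    | zero => rw [zero_add, hw]; rfl
    | succ j ih =>
      rw [show j + 1 + N = (j + N) + 1 by ring]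
      show f (j + N) (flw f (j + N) w) = f j (flw f j w)
      rw [ih, hfper]
  have hLper : ∀ j, L (j + N) = L j := by
    intro j
    refine LinearMap.ext fun a => ?_
    have h2 := (hL (j + N) a (L (j + N) a)).2 rfl
    rw [show j + N + 1 = j + 1 + N by ring, hflw, hflw, hper] at h2
    exact (hL j _ _).1 h2
  have hLc : ∀ j x, IterPLc L (j + N) x = IterPLc L j (IterPLc L N x) := by
    intro j x
    induction j with
    | zero => rw [zero_add]; rfl
    | succ j ih =>
      rw [show j + 1 + N = (j + N) + 1 by ring]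
      show L (j + N) (IterPLc L (j + N) x) = L j (IterPLc L j (IterPLc L N x))
      rw [ih, hLper]
  have hLp : ∀ p x, IterPLc L (p * N) x = (IterPLc L N)^[p] x := by
    intro p
    induction p with
    | zero => intro x; rw [zero_mul]; rfl
    | succ p ih =>
      intro x
      rw [show (p + 1) * N = p * N + N by ring, hLc, ih, Function.iterate_succ_apply]
  have hflp : ∀ p, flw f (p * N) w = w := by
    intro p
    induction p with
    | zero => rw [zero_mul]; rfl
    | succ p ih => rw [show (p + 1) * N = p * N + N by ring, hflw, ih]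
  have hsm : ∀ j, ContDiff ℝ 2 (S j) := fun j => (hS j).smooth
  obtain ⟨P₀, hP⟩ := IterR_prime (IterPLc L N)
  refine ⟨P₀, fun p hp hlt => ?_⟩
  have hKw := hflp p
  have hLpK := hLp p
  obtain ⟨K, hKdef⟩ : ∃ K, K = p * N := ⟨_, rfl⟩
  rw [← hKdef] at hKw hLpK ⊢
  intro hne v hv
  have hK : K ≠ 0 := hne.out
  have hz : ∀ j : Fin K, oseq f K w (j + 1) = flw f (j + 1 : ℕ) w := by
    intro j
    show flw f ((j + 1 : Fin K) : ℕ) w = _
    by_cases h : (j : ℕ) + 1 < K
    · rw [Fin.val_add_one_of_lt' h]
    · have h1 : (j : ℕ) + 1 = K := by omega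
      have h2 : ((j + 1 : Fin K) : ℕ) = 0 := by
        rw [Fin.val_add, Fin.val_one', Nat.add_mod_mod, h1, Nat.mod_self]
      rw [h2, h1, hKw]
      rfl
  have hv' : ∀ j : Fin K, v (j + 1) = L j (v j) := by
    intro j
    have h1 := (IterP_ker S hsm K (oseq f K w) v).1 hv j
    rw [hz] at h1
    exact (hL j _ _).1 h1
  set x := v ⟨0, Nat.pos_of_ne_zero hK⟩ with hx
  have h1 : ∀ j : ℕ, ∀ hj : j < K, v ⟨j, hj⟩ = IterPLc L j x := by
    intro j
    induction j with
    | zero => intro hj; rfl
    | succ j ih =>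
      intro hj
      have h2 := hv' ⟨j, by omega⟩
      have h3 : (⟨j, by omega⟩ + 1 : Fin K) = ⟨j + 1, hj⟩ := by
        apply Fin.ext
        rw [Fin.val_add_one_of_lt' (by simpa using hj)]
      rw [h3, ih] at h2
      exact h2
  have h0 : IterPLc L K x = x := by
    obtain ⟨k, hk⟩ := Nat.exists_eq_succ_of_ne_zero hK
    have hk' : k < K := by omega
    have h2 := hv' ⟨k, hk'⟩
    have h3 : (⟨k, hk'⟩ + 1 : Fin K) = ⟨0, Nat.pos_of_ne_zero hK⟩ := by
      apply Fin.ext
      rw [Fin.val_add, Fin.val_one', Nat.add_mod_mod]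
      show (k + 1) % K = 0
      have : k + 1 = K := by omega
      rw [this, Nat.mod_self]
    rw [h3, h1 k hk'] at h2
    have h4 : IterPLc L K x = L k (IterPLc L k x) := by
      rw [hk]; rfl
    rw [h4]
    exact h2.symm
  have hMx : IterPLc L N x = x := by
    refine hP p hp hlt x ?_
    rw [← hLpK]
    exact h0
  have hper1 : ∀ j, IterPLc L (j + N) x = IterPLc L j x := by
    intro j; rw [hLc, hMx]
  have hper2 : ∀ m j, IterPLc L (j + m * N) x = IterPLc L j x := by
    intro m
    induction m with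
    | zero => intro j; rw [zero_mul, add_zero]
    | succ m ih =>
      intro j
      rw [show j + (m + 1) * N = (j + m * N) + N by ring, hper1, ih]
  have hmod : ∀ i : ℕ, IterPLc L (i % K) x = IterPLc L i x := by
    intro i
    conv_rhs => rw [← Nat.mod_add_div i K]
    rw [hKdef, show p * N * (i / (p * N)) = (p * (i / (p * N))) * N by ring, hper2]
  funext j
  show v (j + Fin.ofNat K N) = v j
  have e1 : v j = IterPLc L j x := h1 j.1 j.2
  have e2 : v (j + Fin.ofNat K N) = IterPLc L ((j + Fin.ofNat K N : Fin K) : ℕ) x :=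
    h1 (j + Fin.ofNat K N).1 (j + Fin.ofNat K N).2
  have e3 : ((j + Fin.ofNat K N : Fin K) : ℕ) = ((j : ℕ) + N) % K := by
    rw [Fin.val_add, Fin.val_ofNat, Nat.add_mod_mod]
  rw [e1, e2, e3, hmod, hper1]

end Pool.Agent.H47.QG
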