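import Pool.Agent.H60.QG.GenC2

/-!
# Hamiltonian diffeomorphisms of the torus as compositions of maps with generating functions
-/

set_option autoImplicit false

namespace Pool.Agent.H47.QG

open Pool.Agent.H60.QG (Torus PtE projP IsHamiltonian IsTimeOne compose exists_gen)

variable {n : ℕ}

/-- `φ` is the composition of the `N` maps `ψ 0, …, ψ (N - 1)` with the generating functions
`S 0, …, S (N - 1)` (the sequences are continued `N`-periodically). -/
structure Decomp {n : ℕ} (φ : Torus n → Torus n) (N : ℕ) (S : ℕ → Pt n → ℝ)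
    (ψ : ℕ → Pt n → Pt n) : Prop where
  pos : 0 < N
  gen : ∀ j, Gen (S j) (ψ j)
  perS : ∀ j, S (j + N) = S j
  perψ : ∀ j, ψ (j + N) = ψ j
  lift : ∀ w, φ (projP w) = projP (flw ψ N w)

theorem flw_congr {f g : ℕ → Pt n → Pt n} {N : ℕ} (h : ∀ j < N, f j = g j) :
    flw f N = flw g N := by
  induction N with
  | zero => rfl
  | succ N ih =>
    change f N ∘ flw f N = g N ∘ flw g N
    rw [ih (fun j hj => h j (by omega)), h N (by omega)]

/-- Every composition of time-one maps of `C^2` Hamiltonians is a composition of maps with `C^2`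
generating functions. -/
theorem exists_decomp {r : ℕ} (hr : 0 < r) (H : ℕ → ℝ → PtE n → ℝ) (f : ℕ → Torus n → Torus n)
    (hH : ∀ i < r, IsHamiltonian (H i)) (hf : ∀ i < r, IsTimeOne (H i) (f i)) :
    ∃ (N : ℕ) (S : ℕ → Pt n → ℝ) (ψ : ℕ → Pt n → Pt n), Decomp (compose f r) N S ψ := by
  obtain ⟨N, hN, S, ψ, h1, h2⟩ := exists_gen hr H f hH hf
  refine ⟨N, fun j => S (j % N), fun j => ψ (j % N), hN, fun j => h1 _, fun j => ?_, fun j => ?_,
    fun w => ?_⟩
  · simp only [Nat.add_mod_right]
  · simp only [Nat.add_mod_right]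
  · have h3 : flw (fun j => ψ (j % N)) N = flw ψ N := flw_congr fun j hj => by
      rw [Nat.mod_eq_of_lt hj]
    rw [h2, h3]

end Pool.Agent.H47.QG
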