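import Pool.Agent.H47.QG.Main5
import Pool.Agent.H47.QG.Tor
import Pool.Agent.H47.QG.EqP
import Pool.Agent.H47.QG.IterR
import Pool.Agent.H47.QG.LocT

/-!
# The growth theorem on the torus
-/

set_option autoImplicit false

open Module QuadraticForm Filter Topology Function

namespace Pool.Agent.H47.QG

open Pool.Agent.H60.QG (Torus projP P)

variable {n : ℕ}

theorem proj_eq_iff (a b : Pt n) : projP a = projP b ↔ a - b ∈ Zn n := by
  constructor
  · intro h
    have h1 : ∀ i, ((a.1 i : ℝ) : UnitAddCircle) = ((b.1 i : ℝ) : UnitAddCircle) := fun i =>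
      congrFun (congrArg Prod.fst h) i
    have h2 : ∀ i, ((a.2 i : ℝ) : UnitAddCircle) = ((b.2 i : ℝ) : UnitAddCircle) := fun i =>
      congrFun (congrArg Prod.snd h) i
    have key : ∀ x y : ℝ, (x : UnitAddCircle) = (y : UnitAddCircle) → ∃ k : ℤ, x - y = k := by
      intro x y hxy
      have h3 : ((x - y : ℝ) : UnitAddCircle) = 0 := by
        rw [AddCircle.coe_sub, hxy, sub_self]
      obtain ⟨k, hk⟩ := (AddCircle.coe_eq_zero_iff 1).1 h3
      exact ⟨k, by rw [← hk]; simp⟩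
    choose u hu using fun i => key _ _ (h1 i)
    choose v hv using fun i => key _ _ (h2 i)
    exact ⟨u, v, Prod.ext (funext hu) (funext hv)⟩
  · rintro ⟨u, v, h⟩
    have h1 : ∀ i, a.1 i - b.1 i = u i := fun i => congrFun (congrArg Prod.fst h) i
    have h2 : ∀ i, a.2 i - b.2 i = v i := fun i => congrFun (congrArg Prod.snd h) i
    have key : ∀ (x y : ℝ) (k : ℤ), x - y = k → (x : UnitAddCircle) = (y : UnitAddCircle) := by
      intro x y k hk
      have h3 : ((x - y : ℝ) : UnitAddCircle) = 0 := by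
        rw [AddCircle.coe_eq_zero_iff]
        exact ⟨k, by rw [hk]; simp⟩
      rw [AddCircle.coe_sub] at h3
      exact sub_eq_zero.1 h3
    exact Prod.ext (funext fun i => key _ _ _ (h1 i)) (funext fun i => key _ _ _ (h2 i))

theorem Decomp.sys {φ : Torus n → Torus n} {N : ℕ} {S : ℕ → Pt n → ℝ} {ψ : ℕ → Pt n → Pt n}
    (h : Decomp φ N S ψ) : Sys (flw ψ N) φ projP (Zn n) where
  semi := h.lift
  equiv w e he := flw_add_int h.gen N w e he
  ker := proj_eq_iff

/-- Quadratic growth. -/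
def QuadGrowth {n : ℕ} (φ : Torus n → Torus n) : Prop :=
  (∃ A : ℝ, 0 < A ∧ ∀ᶠ T : ℝ in atTop,
      ENNReal.ofReal (A * T ^ 2 / Real.log T) ≤ (P φ T : ENNReal)) ∧
    (2 : EReal) ≤ liminf (fun T : ℝ =>
      ENNReal.log (P φ T : ENNReal) / ((Real.log T : ℝ) : EReal)) atTop

theorem quadGrowth_of {φ : Torus n → Torus n}
    (h : ∃ c' > 0, ∀ᶠ T : ℝ in atTop,
      ENNReal.ofReal (c' * T ^ 2 / Real.log T) ≤ ((orbs φ T).encard : ENNReal)) :
    QuadGrowth φ := by
  obtain ⟨c, hc, h⟩ := h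
  exact ⟨⟨c, hc, h⟩, H60.PO.liminf_of_growth hc h⟩

/-- nondegenerate version -/
theorem quad_nondeg {φ : Torus n → Torus n} (hn : 0 < n) {N : ℕ} {S : ℕ → Pt n → ℝ}
    {ψ : ℕ → Pt n → Pt n} (h : Decomp φ N S ψ) (k : ℕ) (hk : 0 < k) (t : ℝ) (C : Finset (Pt n))
    (hC : ∀ w, (flw ψ (k * N) w = w ∧ MeanIdx S ψ (k * N) w t) ↔ ∃ c ∈ C, w - c ∈ Zn n)
    (hCd : ∀ c ∈ C, ∀ c' ∈ C, c - c' ∈ Zn n → c = c')
    (hnd : ∀ c ∈ C, Nondeg S ψ (k * N) c)
    (hsum : ∑ c ∈ C, (-1 : ℤ) ^ ind S ψ (k * N) c ≠ 0) : QuadGrowth φ :=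
  quadGrowth_of (growth_nondeg h.gen hn h.pos h.perS h.perψ h.sys k hk t C hC hCd hnd hsum)

/-- local index version -/
theorem quad_locIdx {φ : Torus n → Torus n} (hn : 0 < n) {N : ℕ} {S : ℕ → Pt n → ℝ}
    {ψ : ℕ → Pt n → Pt n} (h : Decomp φ N S ψ) (k : ℕ) [hk : NeZero (k * N)] (t : ℝ)
    (C : Finset (Pt n))
    (hC : ∀ w, (flw ψ (k * N) w = w ∧ MeanIdx S ψ (k * N) w t) ↔ ∃ c ∈ C, w - c ∈ Zn n)
    (hCd : ∀ c ∈ C, ∀ c' ∈ C, c - c' ∈ Zn n → c = c') (s : Pt n → ℤ)
    (hs : ∀ c ∈ C, LocIdx (action S (k * N)) (oseq ψ (k * N) c) (s c))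
    (hsum : ∑ c ∈ C, s c ≠ 0) : QuadGrowth φ := by
  have hk0 : 0 < k := Nat.pos_of_ne_zero (fun h0 => hk.out (by rw [h0, zero_mul]))
  have hN'0 : 0 < k * N := Nat.pos_of_ne_zero hk.out
  have hperK : ∀ m j, S (j + m * N) = S j := by
    intro m
    induction m with
    | zero => intro j; rw [zero_mul, add_zero]
    | succ m ih => intro j; rw [Nat.succ_mul, ← add_assoc, h.perS, ih]
  have hperK' : ∀ m j, ψ (j + m * N) = ψ j := by
    intro m
    induction m with
    | zero => intro j; rw [zero_mul, add_zero]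
    | succ m ih => intro j; rw [Nat.succ_mul, ← add_assoc, h.perψ, ih]
  refine quadGrowth_of (growth_general h.gen hn h.pos h.perS h.perψ h.sys k hk0 t C hC hCd s
    hsum ?_)
  intro c hc
  have hcf : flw ψ (k * N) c = c :=
    ((hC c).2 ⟨c, hc, by rw [sub_self]; exact (Zn n).zero_mem⟩).1
  obtain ⟨P₀, hP⟩ := adm_prime S ψ h.gen (k * N) hN'0 (hperK k) (hperK' k) c hcf
  refine ⟨P₀ + 2, fun p hp hpP hne r hr hiso => ?_⟩
  have hodd : Odd p := hp.odd_of_ne_two (by omega)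
  have hsm : ∀ j, ContDiff ℝ 2 (S j) := fun j => (h.gen j).smooth
  have hpf : flw ψ (p * (k * N)) c = c := by
    rw [flw_mul (hperK' k)]
    exact Function.iterate_fixed hcf p
  have hTz : TE n p (k * N) (tw ψ (p * (k * N)) c) = tw ψ (p * (k * N)) c := by
    refine (psiE n (p * (k * N))).injective ?_
    rw [psiE_TE, psiE_tw, shift_oseq hp.two_le hN'0 (hperK' k) c hpf]
    exact hcf
  have hos0 : oseq ψ (p * (k * N)) c 0 = c := by
    have h0 : ((0 : Fin (p * (k * N))) : ℕ) = 0 := Fin.val_zero _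
    change flw ψ ((0 : Fin (p * (k * N))) : ℕ) c = c
    rw [h0]; rfl
  have hcr : fderiv ℝ (fE S (p * (k * N))) (tw ψ (p * (k * N)) c) = 0 := by
    rw [fE_crit hsm, psiE_tw, crit_iff S ψ h.gen, hos0]
    exact ⟨hpf, rfl⟩
  let z : LinearMap.ker (TE n p (k * N) - 1) := ⟨tw ψ (p * (k * N)) c, by
    rw [LinearMap.mem_ker, LinearMap.sub_apply, Module.End.one_apply, hTz, sub_self]⟩
  have hadm : ∀ v, fderiv ℝ (fderiv ℝ (fE S (p * (k * N)))) (z : Ix n (p * (k * N)) → ℝ) v = 0 →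
      TE n p (k * N) v = v := by
    intro v hv
    refine (psiE n (p * (k * N))).injective ?_
    rw [psiE_TE]
    refine hP p hp (by omega) hne _ ?_
    -- the second derivative in coordinates
    have e1 : fderiv ℝ (fE S (p * (k * N))) = fun t => (fderiv ℝ (action S (p * (k * N)))
        (psiE n (p * (k * N)) t)).comp
        (psiE n (p * (k * N)) : (Ix n (p * (k * N)) → ℝ) →L[ℝ] (Fin (p * (k * N)) → Pt n)) := by
      ext1 t
      have h2 : DifferentiableAt ℝ (action S (p * (k * N))) (psiE n (p * (k * N)) t) :=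
        (action_smooth S hsm _).differentiable (by norm_num) _
      exact (h2.hasFDerivAt.comp t (psiE n (p * (k * N))).hasFDerivAt).fderiv
    have hd1 : DifferentiableAt ℝ (fderiv ℝ (action S (p * (k * N))))
        (psiE n (p * (k * N)) (z : Ix n (p * (k * N)) → ℝ)) :=
      ((action_smooth S hsm _).fderiv_right (m := 1) (by norm_num)).differentiable
        (by norm_num) _
    have e2 : fderiv ℝ (fderiv ℝ (fE S (p * (k * N)))) (z : Ix n (p * (k * N)) → ℝ) v =
        (fderiv ℝ (fderiv ℝ (action S (p * (k * N)))) (psiE n (p * (k * N))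
          (z : Ix n (p * (k * N)) → ℝ)) (psiE n (p * (k * N)) v)).comp
        (psiE n (p * (k * N)) : (Ix n (p * (k * N)) → ℝ) →L[ℝ] (Fin (p * (k * N)) → Pt n)) := by
      rw [e1]
      have h3 : HasFDerivAt (fun t => fderiv ℝ (action S (p * (k * N)))
          (psiE n (p * (k * N)) t)) ((fderiv ℝ (fderiv ℝ (action S (p * (k * N))))
          (psiE n (p * (k * N)) (z : Ix n (p * (k * N)) → ℝ))).comp
          (psiE n (p * (k * N)) : (Ix n (p * (k * N)) → ℝ) →L[ℝ] (Fin (p * (k * N)) → Pt n)))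
          (z : Ix n (p * (k * N)) → ℝ) :=
        hd1.hasFDerivAt.comp _ (psiE n (p * (k * N))).hasFDerivAt
      have h4 := (ContinuousLinearMap.compL ℝ _ _ ℝ).flip
        (psiE n (p * (k * N)) : (Ix n (p * (k * N)) → ℝ) →L[ℝ] (Fin (p * (k * N)) → Pt n))
        |>.hasFDerivAt.comp _ h3
      exact congrArg (fun L => L v) h4.fderiv
    rw [e2] at hv
    have e3 : psiE n (p * (k * N)) (z : Ix n (p * (k * N)) → ℝ) = oseq ψ (p * (k * N)) c :=
      psiE_tw _ _ _
    rw [e3] at hv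
    ext1 u
    have := congrArg (fun L => L ((psiE n (p * (k * N))).symm u)) hv
    simpa using this
  exact equiv_pert (fE S (p * (k * N))) (fE_smooth hsm _) (TE n p (k * N)) p hodd
    (TE_pow p (k * N)) (fE_TE p (k * N) (hperK k)) z hcr hadm (s c)
    (locIdx_fE h.gen (hperK k) (hperK' k) hp.two_le c hcf (s c) (hs c hc) z rfl) r hr hiso

end Pool.Agent.H47.QG
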