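import Pool.Agent.H47.QG.ActC

/-!
# Smoothness, periodicity and growth of the action
-/

set_option autoImplicit false

open Module QuadraticForm

namespace Pool.Agent.H47.QG

variable {n : ℕ}

theorem action_smooth (S : ℕ → Pt n → ℝ) (hS : ∀ j, ContDiff ℝ 2 (S j)) (K : ℕ) [NeZero K] :
    ContDiff ℝ 2 (action S K) := by
  unfold action
  refine ContDiff.sum fun j _ => ContDiff.sub (ContDiff.sum fun i _ => ?_) ?_
  · fun_prop
  · have h1 : ContDiff ℝ 2 (fun z : Fin K → Pt n => ((z (j + 1)).1, (z j).2)) := by fun_prop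
    exact (hS j).comp h1

/-- the circle coordinates enter the functions `S j` by integer translations -/
theorem ActQ_psi_single (K : ℕ) [NeZero K] (t : Ix n K → ℝ) (q : Fin n ⊕ Fin n) :
    ∃ a b : Fin n → ℤ, ∀ j, psi n K (t + Pi.single (Sum.inl q) 1) j =
      ((psi n K t j).1 + (fun i => (a i : ℝ)), (psi n K t j).2 + (fun i => (b i : ℝ))) := by
  rcases q with q | q
  · refine ⟨Pi.single q 1, 0, fun j => Prod.ext ?_ ?_⟩
    · funext i
      by_cases h : i = q
      · subst h
        simp [psi, add_right_comm]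
      · simp [psi, Pi.single_apply, h]
    · funext i
      simp [psi]
  · refine ⟨0, Pi.single q 1, fun j => Prod.ext ?_ ?_⟩
    · funext i
      simp [psi]
    · funext i
      by_cases h : i = q
      · subst h
        simp [psi, add_right_comm]
      · simp [psi, Pi.single_apply, h]

theorem action_per (S : ℕ → Pt n → ℝ) (f : ℕ → Pt n → Pt n) (hS : ∀ j, Gen (S j) (f j)) (K : ℕ)
    [NeZero K] : Per (kdx n K) (fun t => action S K (psi n K t)) := by
  intro t i hi
  rcases i with q | q | q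
  · obtain ⟨a, b, hab⟩ := ActQ_psi_single K t q
    simp only [action_psi]
    congr 1
    · refine Finset.sum_congr rfl fun l _ => ?_
      simp
    · refine Finset.sum_congr rfl fun j _ => ?_
      rw [hab, hab]
      exact (hS j).periodic ((psi n K t (j + 1)).1, (psi n K t j).2) a b
  · simp [kdx] at hi
  · simp [kdx] at hi

/-- the gradient of a generating function is bounded -/
theorem ActQ_bdd (S : Pt n → ℝ) (f : Pt n → Pt n) (h : Gen S f) :
    ∃ C, ∀ z, ‖fderiv ℝ S z‖ ≤ C := by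
  have hc : Continuous (fderiv ℝ S) := h.smooth.continuous_fderiv (by norm_num)
  obtain ⟨C, hC⟩ := (isCompact_closedBall (0 : Pt n) 1).exists_bound_of_continuousOn hc.continuousOn
  refine ⟨C, fun z => ?_⟩
  set a : Fin n → ℤ := fun i => ⌊z.1 i⌋ with ha
  set b : Fin n → ℤ := fun i => ⌊z.2 i⌋ with hb
  set z₀ : Pt n := (fun i => Int.fract (z.1 i), fun i => Int.fract (z.2 i)) with hz₀
  set e : Pt n := ((fun i => (a i : ℝ)), (fun i => (b i : ℝ))) with he
  have h1 : z = z₀ + e := by
    refine Prod.ext (funext fun i => ?_) (funext fun i => ?_)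
    · simp [hz₀, he, ha]
    · simp [hz₀, he, hb]
  have h2 : (fun x => S (x + e)) = S := funext fun x => h.periodic x a b
  have h3 : fderiv ℝ S z = fderiv ℝ S z₀ := by
    rw [h1, ← fderiv_comp_add_right, h2]
  rw [h3]
  refine hC z₀ ?_
  rw [mem_closedBall_zero_iff, Prod.norm_def]
  refine max_le ?_ ?_
  · refine (pi_norm_le_iff_of_nonneg zero_le_one).2 fun i => ?_
    rw [Real.norm_eq_abs, abs_of_nonneg (Int.fract_nonneg _)]
    exact (Int.fract_lt_one _).le
  · refine (pi_norm_le_iff_of_nonneg zero_le_one).2 fun i => ?_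
    rw [Real.norm_eq_abs, abs_of_nonneg (Int.fract_nonneg _)]
    exact (Int.fract_lt_one _).le

/-- the quadratic part -/
noncomputable def ActQ_quad (n K : ℕ) (t : Ix n K → ℝ) : ℝ :=
  ∑ l : Fin (K - 1) × Fin n, (t (Sum.inr (Sum.inr l)) ^ 2 - t (Sum.inr (Sum.inl l)) ^ 2)

theorem ActQ_quad_deriv (K : ℕ) (t : Ix n K → ℝ) :
    HasFDerivAt (ActQ_quad n K) (∑ l : Fin (K - 1) × Fin n,
      ((2 * t (Sum.inr (Sum.inr l))) • (ContinuousLinearMap.proj (R := ℝ) (φ := fun _ : Ix n K => ℝ)
          (Sum.inr (Sum.inr l))) -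
        (2 * t (Sum.inr (Sum.inl l))) • (ContinuousLinearMap.proj (R := ℝ)
          (φ := fun _ : Ix n K => ℝ) (Sum.inr (Sum.inl l))))) t := by
  unfold ActQ_quad
  refine HasFDerivAt.fun_sum fun l _ => HasFDerivAt.fun_sub ?_ ?_
  · have h := (hasFDerivAt_apply (𝕜 := ℝ) (Sum.inr (Sum.inr l) : Ix n K) t).pow 2
    simpa using h
  · have h := (hasFDerivAt_apply (𝕜 := ℝ) (Sum.inr (Sum.inl l) : Ix n K) t).pow 2
    simpa using h

theorem action_quad (S : ℕ → Pt n → ℝ) (f : ℕ → Pt n → Pt n) (hS : ∀ j, Gen (S j) (f j)) (K : ℕ)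
    [NeZero K] : QuadInf (kdx n K) (fun t => action S K (psi n K t)) := by
  obtain ⟨e, he⟩ := exists_psi n K
  choose C hC using fun j => ActQ_bdd (S j) (f j) (hS j)
  have hC0 : ∀ j, 0 ≤ C j := fun j => (norm_nonneg _).trans (hC j 0)
  let L : Fin K → (Ix n K → ℝ) →L[ℝ] Pt n := fun j =>
    (((ContinuousLinearMap.fst ℝ (Fin n → ℝ) (Fin n → ℝ)).comp
      (ContinuousLinearMap.proj (R := ℝ) (φ := fun _ : Fin K => Pt n) (j + 1))).prod
    ((ContinuousLinearMap.snd ℝ (Fin n → ℝ) (Fin n → ℝ)).comp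
      (ContinuousLinearMap.proj (R := ℝ) (φ := fun _ : Fin K => Pt n) j))).comp
      (e : (Ix n K → ℝ) →L[ℝ] (Fin K → Pt n))
  have hL : ∀ j t, L j t = ((psi n K t (j + 1)).1, (psi n K t j).2) := by
    intro j t
    rw [← he]
    rfl
  have hfun : (fun t => action S K (psi n K t)) =
      fun t => ActQ_quad n K t - ∑ j : Fin K, S j (L j t) := by
    funext t
    rw [action_psi]
    simp only [hL]
    rfl
  have hd : ∀ t, HasFDerivAt (fun t => action S K (psi n K t))
      ((∑ l : Fin (K - 1) × Fin n,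
      ((2 * t (Sum.inr (Sum.inr l))) • (ContinuousLinearMap.proj (R := ℝ) (φ := fun _ : Ix n K => ℝ)
          (Sum.inr (Sum.inr l))) -
        (2 * t (Sum.inr (Sum.inl l))) • (ContinuousLinearMap.proj (R := ℝ)
          (φ := fun _ : Ix n K => ℝ) (Sum.inr (Sum.inl l))))) -
       ∑ j : Fin K, (fderiv ℝ (S j) (L j t)).comp (L j)) t := by
    intro t
    rw [hfun]
    refine (ActQ_quad_deriv K t).sub (HasFDerivAt.fun_sum fun j _ => ?_)
    exact ((((hS j).smooth.differentiable (by norm_num)) (L j t)).hasFDerivAt).comp t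
      (L j).hasFDerivAt
  have hB : ∀ t i, |∑ j : Fin K, fderiv ℝ (S j) (L j t) (L j (Pi.single i 1))| ≤
      ∑ j : Fin K, C j * ‖L j‖ := by
    intro t i
    refine (Finset.abs_sum_le_sum_abs _ _).trans (Finset.sum_le_sum fun j _ => ?_)
    rw [← Real.norm_eq_abs]
    refine ((fderiv ℝ (S j) (L j t)).le_opNorm _).trans ?_
    refine mul_le_mul (hC j _) ?_ (norm_nonneg _) (hC0 j)
    refine ((L j).le_opNorm _).trans ?_
    have h1 : ‖(Pi.single i 1 : Ix n K → ℝ)‖ ≤ 1 := by
      refine (pi_norm_le_iff_of_nonneg zero_le_one).2 fun k => ?_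
      by_cases h : k = i
      · subst h; simp
      · simp [h]
    calc ‖L j‖ * ‖(Pi.single i 1 : Ix n K → ℝ)‖ ≤ ‖L j‖ * 1 := by
          gcongr
      _ = ‖L j‖ := mul_one _
  refine ⟨∑ j : Fin K, C j * ‖L j‖, fun t i => ⟨fun hi => ?_, fun hi => ?_⟩⟩
  · rcases i with q | q | q
    · simp [kdx] at hi
    · have h := hB t (Sum.inr (Sum.inl q))
      rw [(hd t).fderiv]
      refine le_trans (le_of_eq ?_) h
      rw [← abs_neg]
      congr 1
      simp [Pi.single_apply]
    · simp [kdx] at hi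
  · rcases i with q | q | q
    · simp [kdx] at hi
    · simp [kdx] at hi
    · have h := hB t (Sum.inr (Sum.inr q))
      rw [(hd t).fderiv]
      refine le_trans (le_of_eq ?_) h
      rw [← abs_neg]
      congr 1
      simp [Pi.single_apply]

end Pool.Agent.H47.QG
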