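import Pool.Agent.H47.QG.IterD
import Pool.Agent.H47.QG.IdxA
import Pool.Agent.H47.QG.IdxS
import Pool.Agent.H47.QG.ActQ

/-!
# Invariance of the index
-/

set_option autoImplicit false

open Module QuadraticForm

namespace Pool.Agent.H47.QG

variable {n : ℕ}

variable (S : ℕ → Pt n → ℝ) (f : ℕ → Pt n → Pt n)

/-- the derivative of a periodic function is periodic -/
theorem IterT_fderiv {E F : Type*} [NormedAddCommGroup E] [NormedSpace ℝ E]
    [NormedAddCommGroup F] [NormedSpace ℝ F] (g : E → F) (c : E) (h : ∀ z, g (z + c) = g z)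
    (z : E) : fderiv ℝ g (z + c) = fderiv ℝ g z := by
  rw [← fderiv_comp_add_right]
  congr 1
  funext y
  exact h y

theorem IterT_hess {E : Type*} [NormedAddCommGroup E] [NormedSpace ℝ E] (g : E → ℝ) (c : E)
    (h : ∀ z, g (z + c) = g z) (z : E) : hess g (z + c) = hess g z := by
  have h1 : ∀ z, fderiv ℝ g (z + c) = fderiv ℝ g z := IterT_fderiv g c h
  have h2 : ∀ z, fderiv ℝ (fderiv ℝ g) (z + c) = fderiv ℝ (fderiv ℝ g) z :=
    IterT_fderiv (fderiv ℝ g) c h1
  ext v
  rw [hess_apply, hess_apply, h2]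

/-- the number of negative squares is invariant under injective linear maps of the space -/
theorem IterT_sigNeg {E : Type*} [AddCommGroup E] [Module ℝ E] [FiniteDimensional ℝ E]
    (Q : QuadraticForm ℝ E) (i : E →ₗ[ℝ] E) (hi : Function.Injective i) :
    sigNeg (Q.comp i) = sigNeg Q := by
  have h1 := sigNeg_comp_le Q i hi
  have h2 := sigNeg_le_comp Q i hi
  omega

theorem IterT_gen (hS : ∀ j, Gen (S j) (f j)) (j : ℕ) (a b : Fin n → ℤ) (z : Pt n) :
    f j (z + ((fun i => (a i : ℝ)), (fun i => (b i : ℝ)))) =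
      f j z + ((fun i => (a i : ℝ)), (fun i => (b i : ℝ))) := by
  rw [(hS j).rel]
  have h0 := (hS j).rel z (f j z)
  have h1 := h0.1 rfl
  have hp : ∀ q : Pt n, S j (q + ((fun i => (a i : ℝ)), (fun i => (b i : ℝ)))) = S j q :=
    fun q => (hS j).periodic q a b
  have h2 := IterT_fderiv (S j) ((fun i => (a i : ℝ)), (fun i => (b i : ℝ))) hp
    ((f j z).1, z.2)
  intro i
  obtain ⟨h3, h4⟩ := h1 i
  have e1 : (((f j z + ((fun i => (a i : ℝ)), (fun i => (b i : ℝ)))).1,
      (z + ((fun i => (a i : ℝ)), (fun i => (b i : ℝ)))).2) : Pt n) =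
      ((f j z).1, z.2) + ((fun i => (a i : ℝ)), (fun i => (b i : ℝ))) := rfl
  rw [e1, h2]
  constructor
  · show (f j z).1 i + (a i : ℝ) = z.1 i + (a i : ℝ) + _
    rw [h3]
    ring
  · show (f j z).2 i + (b i : ℝ) = z.2 i + (b i : ℝ) - _
    rw [h4]
    ring

theorem IterT_flw (hS : ∀ j, Gen (S j) (f j)) (a b : Fin n → ℤ) (w : Pt n) (j : ℕ) :
    flw f j (w + ((fun i => (a i : ℝ)), (fun i => (b i : ℝ)))) =
      flw f j w + ((fun i => (a i : ℝ)), (fun i => (b i : ℝ))) := by
  induction j with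
  | zero => rfl
  | succ j ih =>
    show f j (flw f j _) = f j (flw f j w) + _
    rw [ih, IterT_gen S f hS]

theorem IterT_action (hS : ∀ j, Gen (S j) (f j)) (K : ℕ) [NeZero K] (a b : Fin n → ℤ)
    (z : Fin K → Pt n) :
    action S K (z + fun _ => ((fun i => (a i : ℝ)), (fun i => (b i : ℝ)))) = action S K z := by
  have key : ∀ i : Fin n, ∑ j : Fin K, (b i : ℝ) * ((z (j + 1)).1 i - (z j).1 i) = 0 := by
    intro i
    rw [← Finset.mul_sum, Finset.sum_sub_distrib]
    have : ∑ j : Fin K, (z (j + 1)).1 i = ∑ j : Fin K, (z j).1 i :=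
      Fintype.sum_equiv (Equiv.addRight (1 : Fin K)) _ _ fun j => rfl
    rw [this, sub_self, mul_zero]
  have h1 : action S K (z + fun _ => ((fun i => (a i : ℝ)), (fun i => (b i : ℝ)))) =
      action S K z + ∑ i : Fin n, ∑ j : Fin K, (b i : ℝ) * ((z (j + 1)).1 i - (z j).1 i) := by
    rw [Finset.sum_comm]
    unfold action
    rw [← Finset.sum_add_distrib]
    refine Finset.sum_congr rfl fun j _ => ?_
    have hp := (hS j).periodic ((z (j + 1)).1, (z j).2) a b
    show ∑ i, ((z j).2 i + (b i : ℝ)) * ((z (j + 1)).1 i + (a i : ℝ) - ((z j).1 i + (a i : ℝ))) -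
      S j ((z (j + 1)).1 + (fun i => (a i : ℝ)), (z j).2 + (fun i => (b i : ℝ))) = _
    rw [hp, sub_add_eq_add_sub, ← Finset.sum_add_distrib]
    congr 1
    refine Finset.sum_congr rfl fun i _ => ?_
    ring
  rw [h1, Finset.sum_eq_zero fun i _ => key i, add_zero]

theorem IterT_per (N p : ℕ) (hfper : ∀ j, f (j + N) = f j) (j : ℕ) : f (j + p * N) = f j := by
  induction p with
  | zero => simp
  | succ p ih => rw [Nat.succ_mul, ← add_assoc, hfper, ih]

theorem IterT_flw_add (M : ℕ) (hfper : ∀ j, f (j + M) = f j) (j : ℕ) (w : Pt n) :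
    flw f (j + M) w = flw f j (flw f M w) := by
  induction j with
  | zero => rw [Nat.zero_add]; rfl
  | succ j ih =>
    have e : j + 1 + M = (j + M) + 1 := by omega
    rw [e]
    show f (j + M) (flw f (j + M) w) = f j (flw f j (flw f M w))
    rw [hfper, ih]

theorem IterT_shift_inj (K N : ℕ) [NeZero K] : Function.Injective (shiftN n K N) := by
  intro z z' h
  funext j
  have h1 := congrFun h (j - Fin.ofNat K N)
  have h2 : ∀ z : Fin K → Pt n, shiftN n K N z (j - Fin.ofNat K N) = z j := by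
    intro z
    show z (j - Fin.ofNat K N + Fin.ofNat K N) = z j
    rw [sub_add_cancel]
  rwa [h2, h2] at h1

/-- invariance of the index under `w ↦ F w` and integer translations -/
theorem ind_map (hS : ∀ j, Gen (S j) (f j)) (N : ℕ) (hN : 0 < N)
    (hper : ∀ j, S (j + N) = S j) (hfper : ∀ j, f (j + N) = f j) (w : Pt n) (p : ℕ)
    (hw : flw f (p * N) w = w) : ind S f (p * N) (flw f N w) = ind S f (p * N) w := by
  unfold ind
  by_cases h : p * N = 0
  · rw [dif_pos h, dif_pos h]
  rw [dif_neg h, dif_neg h]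
  have : NeZero (p * N) := ⟨h⟩
  have hp : 0 < p := Nat.pos_of_ne_zero fun h0 => h (by rw [h0, Nat.zero_mul])
  have hNK : N ≤ p * N := Nat.le_mul_of_pos_left N hp
  have hz : oseq f (p * N) (flw f N w) = shiftN n (p * N) N (oseq f (p * N) w) := by
    funext j
    show flw f j (flw f N w) = flw f ((j + Fin.ofNat (p * N) N : Fin (p * N)) : ℕ) w
    rw [← IterT_flw_add f N hfper, Fin.val_add]
    have e : ((Fin.ofNat (p * N) N : Fin (p * N)) : ℕ) = N % (p * N) := rfl
    rw [e, Nat.add_mod_mod]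
    by_cases hj : (j : ℕ) + N < p * N
    · rw [Nat.mod_eq_of_lt hj]
    · have hj' : p * N ≤ (j : ℕ) + N := not_lt.1 hj
      have hlt : (j : ℕ) + N - p * N < p * N := by
        have := j.2
        omega
      have e2 : ((j : ℕ) + N) % (p * N) = (j : ℕ) + N - p * N := by
        rw [Nat.mod_eq_sub_mod hj', Nat.mod_eq_of_lt hlt]
      rw [e2]
      have e3 : (j : ℕ) + N = ((j : ℕ) + N - p * N) + p * N := by omega
      conv_lhs => rw [e3]
      rw [IterT_flw_add f (p * N) (IterT_per f N p hfper), hw]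
  rw [hz]
  set A : (Fin (p * N) → Pt n) →L[ℝ] (Fin (p * N) → Pt n) :=
    LinearMap.toContinuousLinearMap (shiftN n (p * N) N) with hA
  have hAA : ∀ v, A v = shiftN n (p * N) N v := fun v => rfl
  have hsm : ContDiff ℝ 2 (action S (p * N)) :=
    action_smooth S (fun j => (hS j).smooth) (p * N)
  have hact : (fun y => action S (p * N) (A y + 0)) = action S (p * N) := by
    funext y
    rw [add_zero, hAA]
    exact action_shift S p N hper y
  have hq : hess (action S (p * N)) (oseq f (p * N) w) =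
      (hess (action S (p * N)) (shiftN n (p * N) N (oseq f (p * N) w))).comp
        (shiftN n (p * N) N) := by
    ext v
    have h1 := hess_comp (action S (p * N)) hsm A 0 (oseq f (p * N) w) v
    rw [hact, add_zero, hAA, hAA] at h1
    rw [h1]
    rfl
  rw [hq, IterT_sigNeg _ _ (IterT_shift_inj (p * N) N)]

theorem ind_translate (hS : ∀ j, Gen (S j) (f j)) (K : ℕ) (w : Pt n) (a b : Fin n → ℤ) :
    ind S f K (w + ((fun i => (a i : ℝ)), (fun i => (b i : ℝ)))) = ind S f K w := by
  unfold ind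
  by_cases h : K = 0
  · rw [dif_pos h, dif_pos h]
  rw [dif_neg h, dif_neg h]
  have : NeZero K := ⟨h⟩
  have hz : oseq f K (w + ((fun i => (a i : ℝ)), (fun i => (b i : ℝ)))) =
      oseq f K w + fun _ => ((fun i => (a i : ℝ)), (fun i => (b i : ℝ))) := by
    funext j
    exact IterT_flw S f hS a b w j
  rw [hz, IterT_hess (action S K) _ (fun z => IterT_action S f hS K a b z)]

end Pool.Agent.H47.QG
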