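import Mathlib
import Pool.Agent.H60.PO.Primes

/-!
# Counting periodic orbits
-/

set_option autoImplicit false

open Filter Topology Function

namespace Pool.Agent.H47.QG

variable {M X : Type*} [AddCommGroup M] [Module ℝ M]

/-- `F` is a lift of `φ`. -/
structure Sys (F : M → M) (φ : X → X) (π : M → X) (Λ : AddSubgroup M) : Prop where
  semi : ∀ w, φ (π w) = π (F w)
  equiv : ∀ w, ∀ e ∈ Λ, F (w + e) = F w + e
  ker : ∀ a b, π a = π b ↔ a - b ∈ Λ

/-- the primitive periodic orbits of period at most `T` -/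
def orbs {X : Type*} (φ : X → X) (T : ℝ) : Set (Set X) :=
  {O : Set X | ∃ x, 0 < minimalPeriod φ x ∧ (minimalPeriod φ x : ℝ) ≤ T ∧
    O = {y | ∃ k : ℕ, y = φ^[k] x}}

section Aux

variable {F : M → M} {φ : X → X} {π : M → X} {Λ : AddSubgroup M}

omit [Module ℝ M] in
theorem Cnt_iter_semi (h : Sys F φ π Λ) (k : ℕ) (w : M) : φ^[k] (π w) = π (F^[k] w) := by
  induction k with
  | zero => rfl
  | succ k ih => rw [iterate_succ_apply', ih, h.semi, iterate_succ_apply']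

omit [Module ℝ M] in
theorem Cnt_iter_equiv (h : Sys F φ π Λ) (k : ℕ) (w e : M) (he : e ∈ Λ) :
    F^[k] (w + e) = F^[k] w + e := by
  induction k with
  | zero => rfl
  | succ k ih => rw [iterate_succ_apply', ih, h.equiv _ e he, iterate_succ_apply']

omit [AddCommGroup M] [Module ℝ M] in
theorem Cnt_shift {n : ℕ} {w : M} (hw : F^[n] w = w) (j : ℕ) :
    F^[n] (F^[j] w) = F^[j] w := by
  rw [← iterate_add_apply, add_comm, iterate_add_apply, hw]

omit [Module ℝ M] in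
theorem Cnt_isPeriodic (h : Sys F φ π Λ) {n : ℕ} {w : M} (hw : F^[n] w = w) :
    IsPeriodicPt φ n (π w) := by
  change φ^[n] (π w) = π w
  rw [Cnt_iter_semi h, hw]

omit [Module ℝ M] in
theorem Cnt_mul (h : Sys F φ π Λ) {k : ℕ} {w : M} (hd : F^[k] w - w ∈ Λ) (p : ℕ) :
    F^[k * p] w = w + p • (F^[k] w - w) := by
  induction p with
  | zero => simp
  | succ p ih =>
    have e : k * (p + 1) = k + k * p := by ring
    rw [e, iterate_add_apply, ih, Cnt_iter_equiv h k w _ (Λ.nsmul_mem hd p), succ_nsmul]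
    abel

theorem Cnt_period (h : Sys F φ π Λ) {k p : ℕ} (hp : p.Prime) {w : M}
    (hw : F^[k * p] w = w) (hne : F^[k] w ≠ w) : minimalPeriod φ^[k] (π w) = p := by
  have h1 : minimalPeriod φ^[k] (π w) ∣ p := by
    refine IsPeriodicPt.minimalPeriod_dvd ?_
    change (φ^[k])^[p] (π w) = π w
    rw [← iterate_mul]
    exact Cnt_isPeriodic h hw
  rcases (Nat.dvd_prime hp).1 h1 with h2 | h2
  · exfalso
    have h3 : φ^[k] (π w) = π w := minimalPeriod_eq_one_iff_isFixedPt.1 h2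
    rw [Cnt_iter_semi h, h.ker] at h3
    have h4 := Cnt_mul h h3 p
    rw [hw] at h4
    have h5 : p • (F^[k] w - w) = 0 := by
      have : p • (F^[k] w - w) = (w + p • (F^[k] w - w)) - w := by abel
      rw [this, ← h4, sub_self]
    exact hne (sub_eq_zero.1 (H60.PO.smul_eq_zero_aux hp.ne_zero h5))
  · exact h2

theorem Cnt_quot (h : Sys F φ π Λ) {k p : ℕ} (hk : 0 < k) (hp : p.Prime) {w : M}
    (hw : F^[k * p] w = w) (hne : F^[k] w ≠ w) :
    minimalPeriod φ (π w) / Nat.gcd (minimalPeriod φ (π w)) k = p := by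
  rw [← minimalPeriod_iterate_eq_div_gcd hk.ne']
  exact Cnt_period h hp hw hne

omit [Module ℝ M] in
theorem Cnt_pos (h : Sys F φ π Λ) {n : ℕ} (hn : 0 < n) {w : M} (hw : F^[n] w = w) :
    0 < minimalPeriod φ (π w) :=
  (Cnt_isPeriodic h hw).minimalPeriod_pos hn

omit [Module ℝ M] in
theorem Cnt_le (h : Sys F φ π Λ) {n : ℕ} (hn : 0 < n) {w : M} (hw : F^[n] w = w) :
    minimalPeriod φ (π w) ≤ n :=
  (Cnt_isPeriodic h hw).minimalPeriod_le hn

theorem Cnt_orb_mem {T : ℝ} {x : X} (hx : 0 < minimalPeriod φ x)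
    (hT : (minimalPeriod φ x : ℝ) ≤ T) : H60.PO.orb φ x ∈ orbs φ T := ⟨x, hx, hT, rfl⟩

omit [Module ℝ M] in
/-- Infinitely many periodic points downstairs give infinitely many orbits. -/
theorem Cnt_infinite (h : Sys F φ π Λ) {n : ℕ} (hn : 0 < n)
    (hinf : (π '' {w | F^[n] w = w}).Infinite) {T : ℝ} (hT : (n : ℝ) ≤ T) :
    (orbs φ T).Infinite := by
  intro hfin
  have h1 : (⋃₀ orbs φ T).Finite := by
    refine Set.Finite.sUnion hfin ?_
    rintro O ⟨x, hx, _, rfl⟩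
    exact H60.PO.orb_finite hx
  refine hinf (h1.subset ?_)
  rintro x ⟨w, hw, rfl⟩
  refine ⟨H60.PO.orb φ (π w), Cnt_orb_mem (Cnt_pos h hn hw) ?_, H60.PO.mem_orb φ _⟩
  exact (Nat.cast_le.2 (Cnt_le h hn hw)).trans hT

end Aux

/-- **Growth.** `v p` is an invariant of the points of `F^[k * p] w = w`, taking at least
`c * p - D` values on those which are not fixed by `F^[k]`. -/
theorem growth {F : M → M} {φ : X → X} {π : M → X} {Λ : AddSubgroup M} (h : Sys F φ π Λ)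
    (k : ℕ) (hk : 0 < k) (v : ℕ → M → ℕ)
    (hv : ∀ p w, F^[k * p] w = w → v p (F w) = v p w)
    (hvΛ : ∀ p w, ∀ e ∈ Λ, F^[k * p] w = w → v p (w + e) = v p w)
    (c D : ℝ) (hc : 0 < c)
    (hN : ∀ p : ℕ, p.Prime → D ≤ c * p → (π '' {w | F^[k * p] w = w}).Finite →
      ∃ A : Finset ℕ, c * p - D ≤ A.card ∧
        ∀ a ∈ A, ∃ w, F^[k * p] w = w ∧ F^[k] w ≠ w ∧ v p w = a) :
    ∃ c' > 0, ∀ᶠ T : ℝ in atTop,
      ENNReal.ofReal (c' * T ^ 2 / Real.log T) ≤ ((orbs φ T).encard : ENNReal) := by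
  classical
  have hkR : (0 : ℝ) < k := by exact_mod_cast hk
  obtain ⟨c₀, hc₀, hsum⟩ := H60.PO.prime_sum c D hc
  have ht : Tendsto (fun T : ℝ => T * (2 / k)) atTop atTop :=
    tendsto_id.atTop_mul_const (by positivity)
  refine ⟨c₀ * 2 / k ^ 2, by positivity, ?_⟩
  filter_upwards [ht.eventually hsum, eventually_ge_atTop (2 : ℝ),
    eventually_gt_atTop (k : ℝ)] with T h1 h2 h3
  obtain ⟨P, hP, hPs⟩ := h1
  -- the elementary inequality
  have hreal : c₀ * 2 / k ^ 2 * T ^ 2 / Real.log T ≤ ∑ p ∈ P, (c * p - D) := by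
    refine le_trans ?_ hPs
    have hlogT : 0 < Real.log T := Real.log_pos (by linarith)
    have hT' : 1 < T * (2 / k) := by
      rw [mul_div_assoc', lt_div_iff₀ hkR]; linarith
    have hlogT' : 0 < Real.log (T * (2 / k)) := Real.log_pos hT'
    have hk1 : (1 : ℝ) ≤ k := by exact_mod_cast hk
    have h4 : Real.log (T * (2 / k)) ≤ 2 * Real.log T := by
      have h5 : T * (2 / k) ≤ T * T := by
        refine mul_le_mul_of_nonneg_left ?_ (by linarith)
        rw [div_le_iff₀ hkR]; nlinarith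
      calc Real.log (T * (2 / k)) ≤ Real.log (T * T) := Real.log_le_log (by linarith) h5
        _ = 2 * Real.log T := by rw [Real.log_mul (by linarith) (by linarith)]; ring
    rw [div_le_div_iff₀ hlogT hlogT']
    have h6 : c₀ * (T * (2 / k)) ^ 2 = 2 * (c₀ * 2 / k ^ 2 * T ^ 2) := by
      field_simp
    rw [h6]
    have h7 : 0 ≤ c₀ * 2 / k ^ 2 * T ^ 2 := by positivity
    calc c₀ * 2 / k ^ 2 * T ^ 2 * Real.log (T * (2 / k))
        ≤ c₀ * 2 / k ^ 2 * T ^ 2 * (2 * Real.log T) := mul_le_mul_of_nonneg_left h4 h7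
      _ = 2 * (c₀ * 2 / k ^ 2 * T ^ 2) * Real.log T := by ring
  by_cases hinf : (orbs φ T).Infinite
  · rw [hinf.encard_eq]; exact le_top
  rw [Set.not_infinite] at hinf
  have hkp : ∀ p ∈ P, ((k * p : ℕ) : ℝ) ≤ T := by
    intro p hp
    have h5 := (hP p hp).2.2.1
    rw [mul_div_assoc', le_div_iff₀ hkR] at h5
    push_cast at h5 ⊢
    nlinarith
  have key : ∀ p ∈ P, ∃ A : Finset ℕ, c * p - D ≤ A.card ∧
      ∀ a ∈ A, ∃ w, F^[k * p] w = w ∧ F^[k] w ≠ w ∧ v p w = a := by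
    intro p hp
    refine hN p (hP p hp).1 (hP p hp).2.2.2 ?_
    by_contra hcon
    exact Cnt_infinite h (Nat.mul_pos hk (hP p hp).1.pos) hcon (hkp p hp) hinf
  choose! A hA hA2 using key
  choose! w hw1 hw2 hw3 using hA2
  have hvj : ∀ p w, F^[k * p] w = w → ∀ j, v p (F^[j] w) = v p w := by
    intro p w hw j
    induction j with
    | zero => rfl
    | succ j ih => rw [iterate_succ_apply', hv p _ (Cnt_shift hw j), ih]
  let S : Finset (Σ _ : ℕ, ℕ) := P.sigma A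
  have hinj : Set.InjOn (fun q : Σ _ : ℕ, ℕ => H60.PO.orb φ (π (w q.1 q.2))) S := by
    rintro ⟨p, a⟩ hq ⟨p', a'⟩ hq' he
    rw [Finset.mem_coe, Finset.mem_sigma] at hq hq'
    simp only at hq hq' he
    have e1 := Cnt_quot h hk (hP p hq.1).1 (hw1 p hq.1 a hq.2) (hw2 p hq.1 a hq.2)
    have e2 := Cnt_quot h hk (hP p' hq'.1).1 (hw1 p' hq'.1 a' hq'.2) (hw2 p' hq'.1 a' hq'.2)
    have hpos' := Cnt_pos h (Nat.mul_pos hk (hP p' hq'.1).1.pos) (hw1 p' hq'.1 a' hq'.2)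
    have e3 := H60.PO.period_of_orb_eq he hpos'
    rw [e3, e2] at e1
    subst e1
    have h1 : π (w p' a) ∈ H60.PO.orb φ (π (w p' a')) := he ▸ H60.PO.mem_orb φ _
    obtain ⟨j, hj⟩ := h1
    rw [Cnt_iter_semi h, h.ker] at hj
    have hs := Cnt_shift (hw1 p' hq'.1 a' hq'.2) j
    have e4 := hvΛ p' (F^[j] (w p' a')) _ hj hs
    rw [add_sub_cancel, hw3 p' hq'.1 a hq.2, hvj p' _ (hw1 p' hq'.1 a' hq'.2) j,
      hw3 p' hq'.1 a' hq'.2] at e4
    rw [e4]
  have h4 : ((S.image (fun q : Σ _ : ℕ, ℕ => H60.PO.orb φ (π (w q.1 q.2))) : Finset (Set X)) :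
      Set (Set X)) ⊆ orbs φ T := by
    intro O hO
    rw [Finset.mem_coe, Finset.mem_image] at hO
    obtain ⟨⟨p, a⟩, hq, rfl⟩ := hO
    rw [Finset.mem_sigma] at hq
    have hn := Nat.mul_pos hk (hP p hq.1).1.pos
    refine Cnt_orb_mem (Cnt_pos h hn (hw1 p hq.1 a hq.2)) ?_
    exact (Nat.cast_le.2 (Cnt_le h hn (hw1 p hq.1 a hq.2))).trans (hkp p hq.1)
  have h5 := Set.encard_le_encard h4
  rw [Set.encard_coe_eq_coe_finsetCard, Finset.card_image_of_injOn hinj, Finset.card_sigma] at h5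
  have h6 : ENNReal.ofReal (c₀ * 2 / k ^ 2 * T ^ 2 / Real.log T) ≤
      ENNReal.ofReal ((∑ p ∈ P, (A p).card : ℕ) : ℝ) := by
    refine ENNReal.ofReal_le_ofReal (hreal.trans ?_)
    rw [Nat.cast_sum]
    exact Finset.sum_le_sum fun p hp => hA p hp
  refine h6.trans ?_
  rw [ENNReal.ofReal_natCast]
  have h7 : (((∑ p ∈ P, (A p).card : ℕ) : ℕ∞) : ENNReal) ≤
      ((orbs φ T).encard : ENNReal) := ENat.toENNReal_le.2 h5
  exact h7

end Pool.Agent.H47.QG
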