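import Pool.Agent.H47.QG.IterD

/-!
# Nondegeneracy of prime iterates
-/

set_option autoImplicit false

open Module QuadraticForm

namespace Pool.Agent.H47.QG

variable {n : ℕ}

/-- A linear map without fixed vectors has no periodic vectors of large prime period. -/
theorem IterP_prime {E : Type*} [AddCommGroup E] [Module ℝ E] [FiniteDimensional ℝ E]
    (M : E →ₗ[ℝ] E) (h : ∀ x, M x = x → x = 0) :
    ∃ P₀ : ℕ, ∀ p : ℕ, p.Prime → P₀ < p → ∀ x, M^[p] x = x → x = 0 := by
  classical
  set B : Set ℕ := {p : ℕ | p.Prime ∧ ∃ x, x ≠ 0 ∧ M^[p] x = x} with hB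
  have hch : ∀ p : B, ∃ x, x ≠ 0 ∧ M^[(p : ℕ)] x = x := fun p => p.2.2
  choose X hX0 hX using hch
  have hli : LinearIndependent ℝ X := by
    rw [linearIndependent_iff']
    intro s g hg q hq
    have hy : g q • X q = - ∑ p ∈ s.erase q, g p • X p := by
      have := Finset.add_sum_erase s (fun p => g p • X p) hq
      rw [hg] at this
      exact eq_neg_of_add_eq_zero_left this
    have h1 : Function.IsPeriodicPt M (∏ p ∈ s.erase q, (p : ℕ)) (g q • X q) := by
      show M^[∏ p ∈ s.erase q, (p : ℕ)] (g q • X q) = g q • X q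
      rw [hy, ← Module.End.pow_apply, map_neg, map_sum]
      congr 1
      refine Finset.sum_congr rfl fun p hp => ?_
      rw [map_smul]
      congr 1
      have h2 : Function.IsPeriodicPt M (p : ℕ) (X p) := hX p
      have h3 : Function.IsPeriodicPt M (∏ p ∈ s.erase q, (p : ℕ)) (X p) :=
        h2.trans_dvd (Finset.dvd_prod_of_mem _ hp)
      rw [Module.End.pow_apply]
      exact h3
    have h2 : Function.IsPeriodicPt M (q : ℕ) (g q • X q) := by
      show M^[(q : ℕ)] (g q • X q) = g q • X q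
      rw [← Module.End.pow_apply, map_smul, Module.End.pow_apply, hX q]
    have h3 := h1.gcd h2
    have h4 : Nat.Coprime (∏ p ∈ s.erase q, (p : ℕ)) (q : ℕ) := by
      refine Nat.Coprime.prod_left fun p hp => ?_
      rw [Nat.coprime_primes p.2.1 q.2.1]
      intro h5
      exact Finset.ne_of_mem_erase hp (Subtype.ext h5)
    rw [Nat.Coprime.gcd_eq_one h4] at h3
    have h5 : M (g q • X q) = g q • X q := h3
    have h6 := h _ h5
    rcases smul_eq_zero.1 h6 with h7 | h7
    · exact h7
    · exact absurd h7 (hX0 q)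
  have : Finite B := hli.finite
  obtain ⟨P, hP⟩ := (Set.toFinite B).bddAbove
  refine ⟨P, fun p hp hlt x hx => ?_⟩
  by_contra hx0
  have : p ∈ B := ⟨hp, x, hx0, hx⟩
  exact absurd (hP this) (not_le.2 hlt)

/-- the linearised relation of one step -/
def IterPRel (G : Pt n →L[ℝ] Pt n →L[ℝ] ℝ) (a b : Pt n) : Prop :=
  ∀ i, b.1 i = a.1 i + G (b.1, a.2) (0, Pi.single i 1) ∧
    b.2 i = a.2 i - G (b.1, a.2) (Pi.single i 1, 0)

theorem IterP_G_split (G : Pt n →L[ℝ] Pt n →L[ℝ] ℝ) (x y : Fin n → ℝ) :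
    G (x, y) = G (x, 0) + G (0, y) := by
  rw [← map_add]
  simp

/-- the relation is the graph of a linear map -/
theorem IterP_exists_L (G : Pt n →L[ℝ] Pt n →L[ℝ] ℝ)
    (hG : ∀ v : Fin n → ℝ, (∀ i, v i = G (v, 0) (0, Pi.single i 1)) → v = 0) :
    ∃ L : Pt n →ₗ[ℝ] Pt n, ∀ a b, IterPRel G a b ↔ b = L a := by
  have hadd1 : ∀ x y : Fin n → ℝ, G (x + y, 0) = G (x, 0) + G (y, 0) := fun x y => by
    rw [← map_add]; simp
  have hadd2 : ∀ x y : Fin n → ℝ, G (0, x + y) = G (0, x) + G (0, y) := fun x y => by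
    rw [← map_add]; simp
  have hsm1 : ∀ (c : ℝ) (x : Fin n → ℝ), G (c • x, 0) = c • G (x, 0) := fun c x => by
    rw [← map_smul]; simp
  have hsm2 : ∀ (c : ℝ) (x : Fin n → ℝ), G (0, c • x) = c • G (0, x) := fun c x => by
    rw [← map_smul]; simp
  let T : (Fin n → ℝ) →ₗ[ℝ] (Fin n → ℝ) :=
    { toFun := fun v i => v i - G (v, 0) (0, Pi.single i 1)
      map_add' := fun x y => by
        ext i
        simp only [hadd1, Pi.add_apply, add_apply]
        ring
      map_smul' := fun c x => by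
        ext i
        simp only [hsm1, Pi.smul_apply, smul_apply, smul_eq_mul,
          RingHom.id_apply]
        ring }
  have hT : Function.Injective T := by
    rw [← LinearMap.ker_eq_bot, LinearMap.ker_eq_bot']
    intro v hv
    refine hG v fun i => ?_
    have := congrFun hv i
    have h2 : v i - G (v, 0) (0, Pi.single i 1) = 0 := this
    linarith
  let e := LinearEquiv.ofInjectiveEndo T hT
  have he : ∀ x, e x = T x := fun x => rfl
  let C : Pt n →ₗ[ℝ] (Fin n → ℝ) :=
    { toFun := fun a i => a.1 i + G (0, a.2) (0, Pi.single i 1)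
      map_add' := fun x y => by
        ext i
        simp only [Prod.fst_add, Prod.snd_add, hadd2, Pi.add_apply,
          add_apply]
        ring
      map_smul' := fun c x => by
        ext i
        simp only [Prod.smul_fst, Prod.smul_snd, hsm2, Pi.smul_apply,
          smul_apply, smul_eq_mul, RingHom.id_apply]
        ring }
  let L1 : Pt n →ₗ[ℝ] (Fin n → ℝ) := e.symm.toLinearMap ∘ₗ C
  let L2 : Pt n →ₗ[ℝ] (Fin n → ℝ) :=
    { toFun := fun a i => a.2 i - G (L1 a, a.2) (Pi.single i 1, 0)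
      map_add' := fun x y => by
        ext i
        have h1 : G (L1 (x + y), x.2 + y.2) = G (L1 x, x.2) + G (L1 y, y.2) := by
          rw [← map_add]; simp
        simp only [Prod.snd_add, h1, Pi.add_apply, add_apply]
        ring
      map_smul' := fun c x => by
        ext i
        have h1 : G (L1 (c • x), c • x.2) = c • G (L1 x, x.2) := by
          rw [← map_smul]; simp
        simp only [Prod.smul_snd, h1, Pi.smul_apply, smul_apply,
          smul_eq_mul, RingHom.id_apply]
        ring }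
  refine ⟨L1.prod L2, fun a b => ?_⟩
  have key : (∀ i, b.1 i = a.1 i + G (b.1, a.2) (0, Pi.single i 1)) ↔ b.1 = L1 a := by
    have h1 : b.1 = L1 a ↔ e b.1 = C a := by
      show b.1 = e.symm (C a) ↔ _
      exact e.eq_symm_apply
    rw [h1, he, funext_iff]
    refine forall_congr' fun i => ?_
    show _ ↔ b.1 i - G (b.1, 0) (0, Pi.single i 1) = a.1 i + G (0, a.2) (0, Pi.single i 1)
    rw [IterP_G_split G b.1 a.2, add_apply]
    constructor <;> intro h <;> linarith
  constructor
  · intro h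
    have h1 := key.1 fun i => (h i).1
    refine Prod.ext h1 ?_
    funext i
    have h2 := (h i).2
    show b.2 i = a.2 i - G (L1 a, a.2) (Pi.single i 1, 0)
    rw [← h1]
    exact h2
  · intro h i
    have h1 : b.1 = L1 a := congrArg Prod.fst h
    have h2 : b.2 = L2 a := congrArg Prod.snd h
    refine ⟨key.2 h1 i, ?_⟩
    rw [h1]
    exact congrFun h2 i

theorem IterP_smooth (S : ℕ → Pt n → ℝ) (hS : ∀ j, ContDiff ℝ 2 (S j)) (K : ℕ) [NeZero K] :
    ContDiff ℝ 2 (action S K) := by
  have h : action S K = fun z : Fin K → Pt n =>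
      ∑ j : Fin K, (∑ i, (z j).2 i * ((z (j + 1)).1 i - (z j).1 i) -
        S j ((z (j + 1)).1, (z j).2)) := rfl
  rw [h]
  refine ContDiff.sum fun j _ => ContDiff.sub ?_ ?_
  · fun_prop
  · exact (hS j).comp (by fun_prop)

/-- the second derivative of the action as a bilinear form -/
theorem IterP_bil (S : ℕ → Pt n → ℝ) (hS : ∀ j, ContDiff ℝ 2 (S j)) (K : ℕ) [NeZero K]
    (z v u : Fin K → Pt n) :
    fderiv ℝ (fderiv ℝ (action S K)) z v u = ∑ j : Fin K,
      (∑ i, ((v j).2 i * ((u (j + 1)).1 i - (u j).1 i) +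
        (u j).2 i * ((v (j + 1)).1 i - (v j).1 i)) -
      fderiv ℝ (fderiv ℝ (S j)) ((z (j + 1)).1, (z j).2) ((v (j + 1)).1, (v j).2)
        ((u (j + 1)).1, (u j).2)) := by
  have hsym : fderiv ℝ (fderiv ℝ (action S K)) z u v =
      fderiv ℝ (fderiv ℝ (action S K)) z v u :=
    ((IterP_smooth S hS K).contDiffAt.isSymmSndFDerivAt (by simp)).eq u v
  have hsymS : ∀ (j : Fin K) (p a b : Pt n), fderiv ℝ (fderiv ℝ (S j)) p a b =
      fderiv ℝ (fderiv ℝ (S j)) p b a := fun j p a b =>
    ((hS j).contDiffAt.isSymmSndFDerivAt (by simp)).eq a b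
  have h1 := hess_action S hS K z (v + u)
  have h2 := hess_action S hS K z v
  have h3 := hess_action S hS K z u
  simp only [hess_apply] at h1 h2 h3
  have h4 : fderiv ℝ (fderiv ℝ (action S K)) z (v + u) (v + u) =
      fderiv ℝ (fderiv ℝ (action S K)) z v v + 2 * fderiv ℝ (fderiv ℝ (action S K)) z v u +
      fderiv ℝ (fderiv ℝ (action S K)) z u u := by
    simp only [map_add, add_apply, hsym]
    ring
  have h5 : 2 * fderiv ℝ (fderiv ℝ (action S K)) z v u = 2 * ∑ j : Fin K,
      (∑ i, ((v j).2 i * ((u (j + 1)).1 i - (u j).1 i) +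
        (u j).2 i * ((v (j + 1)).1 i - (v j).1 i)) -
      fderiv ℝ (fderiv ℝ (S j)) ((z (j + 1)).1, (z j).2) ((v (j + 1)).1, (v j).2)
        ((u (j + 1)).1, (u j).2)) := by
    have h6 : 2 * fderiv ℝ (fderiv ℝ (action S K)) z v u =
        fderiv ℝ (fderiv ℝ (action S K)) z (v + u) (v + u) -
        fderiv ℝ (fderiv ℝ (action S K)) z v v - fderiv ℝ (fderiv ℝ (action S K)) z u u := by
      rw [h4]; ring
    rw [h6, h1, h2, h3, ← Finset.sum_sub_distrib, ← Finset.sum_sub_distrib, Finset.mul_sum]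
    refine Finset.sum_congr rfl fun j _ => ?_
    have h7 : (((v + u) (j + 1)).1, ((v + u) j).2) =
        ((v (j + 1)).1, (v j).2) + ((u (j + 1)).1, (u j).2) := by simp
    rw [h7]
    have h9 := hsymS j ((z (j + 1)).1, (z j).2) ((u (j + 1)).1, (u j).2) ((v (j + 1)).1, (v j).2)
    simp only [map_add, add_apply, h9]
    have h8 : ∑ i, ((v + u) j).2 i * (((v + u) (j + 1)).1 i - ((v + u) j).1 i) =
        ∑ i, (v j).2 i * ((v (j + 1)).1 i - (v j).1 i) +
        ∑ i, (u j).2 i * ((u (j + 1)).1 i - (u j).1 i) +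
        ∑ i, ((v j).2 i * ((u (j + 1)).1 i - (u j).1 i) +
        (u j).2 i * ((v (j + 1)).1 i - (v j).1 i)) := by
      rw [← Finset.sum_add_distrib, ← Finset.sum_add_distrib]
      refine Finset.sum_congr rfl fun i _ => ?_
      simp only [Pi.add_apply, Prod.fst_add, Prod.snd_add]
      ring
    rw [h8]
    ring
  linarith

theorem IterP_G_sum (G : Pt n →L[ℝ] ℝ) (x y : Fin n → ℝ) :
    G (x, y) = ∑ i, (x i * G (Pi.single i 1, 0) + y i * G (0, Pi.single i 1)) := by
  have h1 : ((x, y) : Pt n) = ∑ i, (x i • ((Pi.single i 1, 0) : Pt n) +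
      y i • ((0, Pi.single i 1) : Pt n)) := by
    refine Prod.ext ?_ ?_
    · rw [Prod.fst_sum]
      funext k
      rw [Finset.sum_apply]
      simp [Pi.single_apply]
    · rw [Prod.snd_sum]
      funext k
      rw [Finset.sum_apply]
      simp [Pi.single_apply]
  rw [h1, map_sum]
  refine Finset.sum_congr rfl fun i _ => ?_
  rw [map_add, map_smul, map_smul, smul_eq_mul, smul_eq_mul]

/-- the second derivative, sorted by the coordinates of the second argument -/
theorem IterP_bil2 (S : ℕ → Pt n → ℝ) (hS : ∀ j, ContDiff ℝ 2 (S j)) (K : ℕ) [NeZero K]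
    (z v u : Fin K → Pt n) :
    fderiv ℝ (fderiv ℝ (action S K)) z v u = ∑ j : Fin K, ∑ i,
      ((u j).2 i * ((v (j + 1)).1 i - (v j).1 i -
        fderiv ℝ (fderiv ℝ (S j)) ((z (j + 1)).1, (z j).2) ((v (j + 1)).1, (v j).2)
          (0, Pi.single i 1)) +
      (u (j + 1)).1 i * ((v j).2 i - (v (j + 1)).2 i -
        fderiv ℝ (fderiv ℝ (S j)) ((z (j + 1)).1, (z j).2) ((v (j + 1)).1, (v j).2)
          (Pi.single i 1, 0))) := by
  rw [IterP_bil S hS K z v u]
  have h1 : ∑ j : Fin K, ∑ i, (v j).2 i * (u j).1 i =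
      ∑ j : Fin K, ∑ i, (v (j + 1)).2 i * (u (j + 1)).1 i :=
    (Equiv.sum_comp (Equiv.addRight (1 : Fin K)) fun j => ∑ i, (v j).2 i * (u j).1 i).symm
  have h2 : ∀ j : Fin K, (∑ i, ((v j).2 i * ((u (j + 1)).1 i - (u j).1 i) +
        (u j).2 i * ((v (j + 1)).1 i - (v j).1 i)) -
      fderiv ℝ (fderiv ℝ (S j)) ((z (j + 1)).1, (z j).2) ((v (j + 1)).1, (v j).2)
        ((u (j + 1)).1, (u j).2)) =
      ∑ i, ((u j).2 i * ((v (j + 1)).1 i - (v j).1 i -
        fderiv ℝ (fderiv ℝ (S j)) ((z (j + 1)).1, (z j).2) ((v (j + 1)).1, (v j).2)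
          (0, Pi.single i 1)) +
      (u (j + 1)).1 i * ((v j).2 i - (v (j + 1)).2 i -
        fderiv ℝ (fderiv ℝ (S j)) ((z (j + 1)).1, (z j).2) ((v (j + 1)).1, (v j).2)
          (Pi.single i 1, 0))) +
      (∑ i, (v (j + 1)).2 i * (u (j + 1)).1 i - ∑ i, (v j).2 i * (u j).1 i) := by
    intro j
    rw [IterP_G_sum _ (u (j + 1)).1 (u j).2, ← Finset.sum_sub_distrib,
      ← Finset.sum_sub_distrib, ← Finset.sum_add_distrib]
    refine Finset.sum_congr rfl fun i _ => ?_
    ring
  rw [Finset.sum_congr rfl fun j _ => h2 j, Finset.sum_add_distrib, Finset.sum_sub_distrib, h1,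
    sub_self, add_zero]

theorem IterP_single_snd {K : ℕ} (k b : Fin K) (x : Fin n → ℝ) :
    ((Pi.single k (x, 0) : Fin K → Pt n) b).2 = 0 := by
  by_cases h : b = k
  · subst h; simp
  · simp [Pi.single_eq_of_ne h]

theorem IterP_single_fst {K : ℕ} (k b : Fin K) (x : Fin n → ℝ) :
    ((Pi.single k (0, x) : Fin K → Pt n) b).1 = 0 := by
  by_cases h : b = k
  · subst h; simp
  · simp [Pi.single_eq_of_ne h]

/-- the kernel of the second derivative consists of the solutions of the linearised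
recurrence -/
theorem IterP_ker (S : ℕ → Pt n → ℝ) (hS : ∀ j, ContDiff ℝ 2 (S j)) (K : ℕ) [NeZero K]
    (z v : Fin K → Pt n) :
    fderiv ℝ (fderiv ℝ (action S K)) z v = 0 ↔ ∀ j : Fin K,
      IterPRel (fderiv ℝ (fderiv ℝ (S j)) ((z (j + 1)).1, (z j).2)) (v j) (v (j + 1)) := by
  constructor
  · intro h j i
    constructor
    · have h1 := IterP_bil2 S hS K z v (Pi.single j (0, Pi.single i 1))
      rw [h] at h1
      simp only [IterP_single_fst, Pi.zero_apply, zero_mul, add_zero] at h1
      rw [Finset.sum_eq_single j, Finset.sum_eq_single i] at h1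
      · simp only [Pi.single_eq_same, one_mul] at h1
        have h2 : (0 : ℝ) = _ := h1
        linarith
      · intro b _ hb
        simp [hb]
      · simp
      · intro b _ hb
        refine Finset.sum_eq_zero fun i' _ => ?_
        simp [Pi.single_eq_of_ne hb]
      · simp
    · have h1 := IterP_bil2 S hS K z v (Pi.single (j + 1) (Pi.single i 1, 0))
      rw [h] at h1
      simp only [IterP_single_snd, Pi.zero_apply, zero_mul, zero_add] at h1
      rw [Finset.sum_eq_single j, Finset.sum_eq_single i] at h1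
      · simp only [Pi.single_eq_same, one_mul] at h1
        have h2 : (0 : ℝ) = _ := h1
        linarith
      · intro b _ hb
        simp [hb]
      · simp
      · intro b _ hb
        refine Finset.sum_eq_zero fun i' _ => ?_
        have hb1 : b + 1 ≠ j + 1 := fun h => hb (add_right_cancel h)
        simp only [Pi.single_eq_of_ne hb1]
        simp
      · simp
  · intro h
    ext1 u
    rw [IterP_bil2 S hS K z v u]
    refine Finset.sum_eq_zero fun j _ => Finset.sum_eq_zero fun i _ => ?_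
    have h1 := (h j i).1
    have h2 := (h j i).2
    have h3 : (v (j + 1)).1 i - (v j).1 i -
        fderiv ℝ (fderiv ℝ (S j)) ((z (j + 1)).1, (z j).2) ((v (j + 1)).1, (v j).2)
          (0, Pi.single i 1) = 0 := by linarith
    have h4 : (v j).2 i - (v (j + 1)).2 i -
        fderiv ℝ (fderiv ℝ (S j)) ((z (j + 1)).1, (z j).2) ((v (j + 1)).1, (v j).2)
          (Pi.single i 1, 0) = 0 := by linarith
    rw [h3, h4, mul_zero, mul_zero, add_zero]

/-- composition of the first `j` linear maps -/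
def IterPLc (L : ℕ → Pt n →ₗ[ℝ] Pt n) : ℕ → Pt n →ₗ[ℝ] Pt n
  | 0 => LinearMap.id
  | j + 1 => L j ∘ₗ IterPLc L j

/-- nondegeneracy in terms of the monodromy -/
theorem IterP_nondeg_iff (S : ℕ → Pt n → ℝ) (f : ℕ → Pt n → Pt n)
    (hS : ∀ j, ContDiff ℝ 2 (S j)) (w : Pt n) (L : ℕ → Pt n →ₗ[ℝ] Pt n)
    (hL : ∀ j a b, IterPRel (fderiv ℝ (fderiv ℝ (S j)) ((flw f (j + 1) w).1, (flw f j w).2)) a b ↔
      b = L j a) (K : ℕ) (hK : K ≠ 0) (hw : flw f K w = w) :
    Nondeg S f K w ↔ ∀ x, IterPLc L K x = x → x = 0 := by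
  have : NeZero K := ⟨hK⟩
  have hz : ∀ j : Fin K, oseq f K w (j + 1) = flw f (j + 1 : ℕ) w := by
    intro j
    show flw f ((j + 1 : Fin K) : ℕ) w = _
    by_cases h : (j : ℕ) + 1 < K
    · rw [Fin.val_add_one_of_lt' h]
    · have h1 : (j : ℕ) + 1 = K := by omega
      have h2 : ((j + 1 : Fin K) : ℕ) = 0 := by
        rw [Fin.val_add, Fin.val_one', Nat.add_mod_mod, h1, Nat.mod_self]
      rw [h2, h1, hw]
      rfl
  have hker : ∀ v : Fin K → Pt n,
      fderiv ℝ (fderiv ℝ (action S K)) (oseq f K w) v = 0 ↔ ∀ j : Fin K, v (j + 1) = L j (v j) := by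
    intro v
    rw [IterP_ker S hS K]
    refine forall_congr' fun j => ?_
    rw [hz]
    exact hL j _ _
  have hwrap : ∀ (v : Fin K → Pt n) (x : Pt n), (∀ j : Fin K, v j = IterPLc L j x) →
      ∀ j : Fin K, (j : ℕ) + 1 < K → v (j + 1) = L j (v j) := by
    intro v x hv j h
    rw [hv, hv, Fin.val_add_one_of_lt' h]
    rfl
  constructor
  · intro h x hx
    have h1 := h hK (fun j => IterPLc L j x) ((hker _).2 ?_)
    · have h2 := congrFun h1 ⟨0, Nat.pos_of_ne_zero hK⟩
      exact h2
    · intro j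
      by_cases hj : (j : ℕ) + 1 < K
      · exact hwrap _ x (fun _ => rfl) j hj
      · have h1 : (j : ℕ) + 1 = K := by omega
        have h2 : ((j + 1 : Fin K) : ℕ) = 0 := by
          rw [Fin.val_add, Fin.val_one', Nat.add_mod_mod, h1, Nat.mod_self]
        show IterPLc L ((j + 1 : Fin K) : ℕ) x = L j (IterPLc L j x)
        rw [h2]
        show x = IterPLc L (j + 1) x
        rw [h1, hx]
  · intro h hK' v hv
    have hv' := (hker v).1 hv
    have h1 : ∀ j : ℕ, ∀ hj : j < K, v ⟨j, hj⟩ = IterPLc L j (v ⟨0, Nat.pos_of_ne_zero hK⟩) := by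
      intro j
      induction j with
      | zero => intro hj; rfl
      | succ j ih =>
        intro hj
        have h2 := hv' ⟨j, by omega⟩
        have h3 : (⟨j, by omega⟩ + 1 : Fin K) = ⟨j + 1, hj⟩ := by
          apply Fin.ext
          rw [Fin.val_add_one_of_lt' (by simpa using hj)]
        rw [h3, ih] at h2
        exact h2
    have h0 : v ⟨0, Nat.pos_of_ne_zero hK⟩ = 0 := by
      apply h
      obtain ⟨k, rfl⟩ := Nat.exists_eq_succ_of_ne_zero hK
      have h2 := hv' ⟨k, by omega⟩
      have h3 : (⟨k, by omega⟩ + 1 : Fin (k + 1)) = ⟨0, by omega⟩ := by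
        apply Fin.ext
        rw [Fin.val_add, Fin.val_one', Nat.add_mod_mod]
        simp
      rw [h3, h1 k (by omega)] at h2
      exact h2.symm
    funext j
    rw [h1 j.1 j.2, h0, map_zero]
    rfl

/-- nondegenerate orbits stay nondegenerate for large primes -/
theorem nondeg_prime (S : ℕ → Pt n → ℝ) (f : ℕ → Pt n → Pt n)
    (hS : ∀ j, Gen (S j) (f j)) (N : ℕ) (hN : 0 < N)
    (hper : ∀ j, S (j + N) = S j) (hfper : ∀ j, f (j + N) = f j) (w : Pt n) (hw : flw f N w = w)
    (h1 : Nondeg S f N w) : ∃ P₀, ∀ p : ℕ, p.Prime → P₀ < p → Nondeg S f (p * N) w := by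
  have hex : ∀ j, ∃ L : Pt n →ₗ[ℝ] Pt n, ∀ a b,
      IterPRel (fderiv ℝ (fderiv ℝ (S j)) ((flw f (j + 1) w).1, (flw f j w).2)) a b ↔ b = L a :=
    fun j => IterP_exists_L _ ((hS j).inv _)
  choose L hL using hex
  have hflw : ∀ j, flw f (j + N) w = flw f j w := by
    intro j
    induction j with
    | zero => rw [zero_add, hw]; rfl
    | succ j ih =>
      rw [show j + 1 + N = (j + N) + 1 by ring]
      show f (j + N) (flw f (j + N) w) = f j (flw f j w)
      rw [ih, hfper]
  have hLper : ∀ j, L (j + N) = L j := by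
    intro j
    refine LinearMap.ext fun a => ?_
    have h2 := (hL (j + N) a (L (j + N) a)).2 rfl
    rw [show j + N + 1 = j + 1 + N by ring, hflw, hflw, hper] at h2
    exact (hL j _ _).1 h2
  have hLc : ∀ j x, IterPLc L (j + N) x = IterPLc L j (IterPLc L N x) := by
    intro j x
    induction j with
    | zero => rw [zero_add]; rfl
    | succ j ih =>
      rw [show j + 1 + N = (j + N) + 1 by ring]
      show L (j + N) (IterPLc L (j + N) x) = L j (IterPLc L j (IterPLc L N x))
      rw [ih, hLper]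
  have hLp : ∀ p x, IterPLc L (p * N) x = (IterPLc L N)^[p] x := by
    intro p
    induction p with
    | zero => intro x; rw [zero_mul]; rfl
    | succ p ih =>
      intro x
      rw [show (p + 1) * N = p * N + N by ring, hLc, ih, Function.iterate_succ_apply]
  have hsm : ∀ j, ContDiff ℝ 2 (S j) := fun j => (hS j).smooth
  have h2 := (IterP_nondeg_iff S f hsm w L hL N hN.ne' hw).1 h1
  obtain ⟨P₀, hP⟩ := IterP_prime (IterPLc L N) h2
  refine ⟨P₀, fun p hp hlt => ?_⟩
  have hflp : ∀ p, flw f (p * N) w = w := by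
    intro p
    induction p with
    | zero => rw [zero_mul]; rfl
    | succ p ih => rw [show (p + 1) * N = p * N + N by ring, hflw, ih]
  refine (IterP_nondeg_iff S f hsm w L hL (p * N) (Nat.mul_ne_zero hp.ne_zero hN.ne')
    (hflp p)).2 fun x hx => ?_
  rw [hLp] at hx
  exact hP p hp hlt x hx

end Pool.Agent.H47.QG
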