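import Pool.Agent.H47.QG.IterT
import Pool.Agent.H47.QG.IdxP

/-!
# Parity
-/

set_option autoImplicit false

open Module QuadraticForm

namespace Pool.Agent.H47.QG

variable {n : ℕ}

theorem IterQ_sigNeg_le {E F : Type*} [AddCommGroup E] [Module ℝ E] [FiniteDimensional ℝ E]
    [AddCommGroup F] [Module ℝ F] [FiniteDimensional ℝ F] (Q : QuadraticForm ℝ E)
    (Q' : QuadraticForm ℝ F) (L : E →ₗ[ℝ] F) (hL : Function.Injective L)
    (h : ∀ v, Q v < 0 → Q' (L v) < 0) : sigNeg Q ≤ sigNeg Q' := by
  obtain ⟨W, hW, hd⟩ := exists_sigNeg Q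
  rw [← hW, (Submodule.equivMapOfInjective L hL W).finrank_eq]
  apply le_sigNeg
  rintro _ ⟨v, hv, rfl⟩ hne
  have hv0 : v ≠ 0 := by
    intro h0
    rw [h0, map_zero] at hne
    exact hne rfl
  exact h v (hd v hv hv0)

/-- The sequence repeated. -/
def IterQ_rep (n p N : ℕ) [NeZero N] : (Fin N → Pt n) →ₗ[ℝ] (Fin (p * N) → Pt n) where
  toFun x j := x (Fin.ofNat N j)
  map_add' _ _ := rfl
  map_smul' _ _ := rfl

theorem IterQ_rep_apply (p N : ℕ) [NeZero N] (x : Fin N → Pt n) (j : Fin (p * N)) :
    IterQ_rep n p N x j = x (Fin.ofNat N j) := rfl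

theorem IterQ_ofNat_congr {N : ℕ} [NeZero N] {a b : ℕ} (h : a % N = b % N) :
    Fin.ofNat N a = Fin.ofNat N b := by
  apply Fin.ext
  change a % N = b % N
  exact h

theorem IterQ_shift_rep (p N : ℕ) [NeZero N] [NeZero (p * N)] (x : Fin N → Pt n) :
    shiftN n (p * N) N (IterQ_rep n p N x) = IterQ_rep n p N x := by
  ext1 j
  change x (Fin.ofNat N ((j + Fin.ofNat (p * N) N : Fin (p * N)) : ℕ)) = x (Fin.ofNat N j)
  congr 1
  apply IterQ_ofNat_congr
  rw [Fin.val_add]
  change ((j : ℕ) + N % (p * N)) % (p * N) % N = (j : ℕ) % N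
  rw [Nat.mod_mod_of_dvd _ (Dvd.intro_left p rfl), Nat.add_mod,
    Nat.mod_mod_of_dvd _ (Dvd.intro_left p rfl), Nat.mod_self, add_zero, Nat.mod_mod]

theorem IterQ_fixed {p N : ℕ} [NeZero N] [NeZero (p * N)] {z : Fin (p * N) → Pt n}
    (hz : shiftN n (p * N) N z = z) (m : ℕ) :
    z (Fin.ofNat (p * N) m) = z (Fin.ofNat (p * N) (m % N)) := by
  have hN : 0 < N := Nat.pos_of_ne_zero (NeZero.ne N)
  induction m using Nat.strong_induction_on with
  | _ m ih =>
    by_cases h : m < N
    · rw [Nat.mod_eq_of_lt h]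
    · push Not at h
      have h1 : m = (m - N) + N := by omega
      have h2 : m % N = (m - N) % N := by
        conv_lhs => rw [h1]
        exact Nat.add_mod_right _ _
      rw [h2, ← ih (m - N) (by omega)]
      have h3 := congrFun hz (Fin.ofNat (p * N) (m - N))
      rw [← h3]
      change _ = z (Fin.ofNat (p * N) (m - N) + Fin.ofNat (p * N) N)
      congr 1
      apply Fin.ext
      rw [Fin.val_add]
      change m % (p * N) = ((m - N) % (p * N) + N % (p * N)) % (p * N)
      rw [← Nat.add_mod, ← h1]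

theorem IterQ_rep_inj (p N : ℕ) [NeZero N] [NeZero (p * N)] :
    Function.Injective (IterQ_rep n p N) := by
  intro x y h
  ext1 i
  have h1 := congrFun h (Fin.ofNat (p * N) i)
  rw [IterQ_rep_apply, IterQ_rep_apply] at h1
  have h2 : Fin.ofNat N ((Fin.ofNat (p * N) (i : ℕ) : Fin (p * N)) : ℕ) = i := by
    apply Fin.ext
    change ((i : ℕ) % (p * N)) % N = i
    rw [Nat.mod_mod_of_dvd _ (Dvd.intro_left p rfl), Nat.mod_eq_of_lt i.2]
  rw [h2] at h1
  exact h1

/-- Restriction to the first `N` entries. -/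
def IterQ_res (n p N : ℕ) [NeZero (p * N)] : (Fin (p * N) → Pt n) →ₗ[ℝ] (Fin N → Pt n) where
  toFun z i := z (Fin.ofNat (p * N) i)
  map_add' _ _ := rfl
  map_smul' _ _ := rfl

theorem IterQ_rep_res {p N : ℕ} [NeZero N] [NeZero (p * N)] {z : Fin (p * N) → Pt n}
    (hz : shiftN n (p * N) N z = z) : IterQ_rep n p N (IterQ_res n p N z) = z := by
  ext1 j
  rw [IterQ_rep_apply]
  change z (Fin.ofNat (p * N) ((j : ℕ) % N)) = _
  rw [← IterQ_fixed hz]
  have h3 : Fin.ofNat (p * N) (j : ℕ) = j := by
    apply Fin.ext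
    exact Nat.mod_eq_of_lt j.2
  rw [h3]

/-- One term of the action. -/
def IterQ_term (S : ℕ → Pt n → ℝ) (z : ℕ → Pt n) (j : ℕ) : ℝ :=
  ∑ i, (z j).2 i * ((z (j + 1)).1 i - (z j).1 i) - S j ((z (j + 1)).1, (z j).2)

theorem IterQ_action (S : ℕ → Pt n → ℝ) (K : ℕ) [NeZero K] (z : Fin K → Pt n) :
    action S K z = ∑ j ∈ Finset.range K, IterQ_term S (fun j => z (Fin.ofNat K j)) j := by
  rw [Finset.sum_range]
  unfold action IterQ_term
  refine Finset.sum_congr rfl fun j _ => ?_
  have h1 : Fin.ofNat K (j : ℕ) = j := by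
    apply Fin.ext
    exact Nat.mod_eq_of_lt j.2
  have h2 : Fin.ofNat K ((j : ℕ) + 1) = j + 1 := by
    apply Fin.ext
    rw [Fin.val_add]
    change ((j : ℕ) + 1) % K = ((j : ℕ) + ((1 : Fin K) : ℕ)) % K
    rw [Fin.val_one', Nat.add_mod_mod]
  beta_reduce
  rw [h1, h2]

theorem IterQ_sum_mul (g : ℕ → ℝ) {N : ℕ} (hg : ∀ j, g (j + N) = g j) (p : ℕ) :
    ∑ j ∈ Finset.range (p * N), g j = p * ∑ j ∈ Finset.range N, g j := by
  have hg' : ∀ q j, g (q * N + j) = g j := by
    intro q
    induction q with
    | zero => intro j; rw [zero_mul, zero_add]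
    | succ q ih =>
      intro j
      rw [← ih j, ← hg (q * N + j)]
      congr 1
      ring
  induction p with
  | zero => simp
  | succ p ih =>
    rw [Nat.succ_mul, Finset.sum_range_add, ih]
    rw [Finset.sum_congr rfl fun j _ => hg' p j]
    push_cast
    ring

theorem IterQ_action_rep {S : ℕ → Pt n → ℝ} {p N : ℕ} [NeZero N] [NeZero (p * N)]
    (hper : ∀ j, S (j + N) = S j) (x : Fin N → Pt n) :
    action S (p * N) (IterQ_rep n p N x) = p * action S N x := by
  rw [IterQ_action, IterQ_action]
  have h1 : (fun j => IterQ_rep n p N x (Fin.ofNat (p * N) j)) = fun j => x (Fin.ofNat N j) := by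
    funext j
    rw [IterQ_rep_apply]
    congr 1
    apply IterQ_ofNat_congr
    change (j % (p * N)) % N = j % N
    exact Nat.mod_mod_of_dvd _ (Dvd.intro_left p rfl)
  rw [h1]
  refine IterQ_sum_mul _ (fun j => ?_) p
  unfold IterQ_term
  have h2 : Fin.ofNat N (j + N) = Fin.ofNat N j := IterQ_ofNat_congr (Nat.add_mod_right _ _)
  have h3 : Fin.ofNat N (j + N + 1) = Fin.ofNat N (j + 1) := IterQ_ofNat_congr (by
    rw [show j + N + 1 = (j + 1) + N by ring]
    exact Nat.add_mod_right _ _)
  beta_reduce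
  rw [h2, h3, hper]

variable (S : ℕ → Pt n → ℝ) (f : ℕ → Pt n → Pt n)

theorem IterQ_flw_mod {f : ℕ → Pt n → Pt n} {N : ℕ} (hfper : ∀ j, f (j + N) = f j) (w : Pt n)
    (hw : flw f N w = w) (hN : 0 < N) (j : ℕ) : flw f (j % N) w = flw f j w := by
  induction j using Nat.strong_induction_on with
  | _ j ih =>
    by_cases h : j < N
    · rw [Nat.mod_eq_of_lt h]
    · push Not at h
      have h1 : j = (j - N) + N := by omega
      have h2 : j % N = (j - N) % N := by
        conv_lhs => rw [h1]
        exact Nat.add_mod_right _ _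
      rw [h2, ih (j - N) (by omega)]
      conv_rhs => rw [h1]
      rw [IterT_flw_add f N hfper, hw]

/-- parity of the index of odd iterates -/
theorem ind_parity (hS : ∀ j, Gen (S j) (f j)) (N : ℕ) (hN : 0 < N)
    (hper : ∀ j, S (j + N) = S j) (hfper : ∀ j, f (j + N) = f j) (w : Pt n) (hw : flw f N w = w)
    (p : ℕ) (hp : Odd p) : ind S f (p * N) w ≡ ind S f N w [MOD 2] := by
  have hp0 : 0 < p := hp.pos
  have hK : p * N ≠ 0 := by positivity
  have : NeZero N := ⟨hN.ne'⟩
  have : NeZero (p * N) := ⟨hK⟩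
  unfold ind
  rw [dif_neg hK, dif_neg hN.ne']
  set z := oseq f (p * N) w with hz
  have hzrep : IterQ_rep n p N (oseq f N w) = z := by
    ext1 j
    rw [IterQ_rep_apply]
    change flw f ((j : ℕ) % N) w = flw f j w
    exact IterQ_flw_mod hfper w hw hN _
  have hTz : shiftN n (p * N) N z = z := by
    rw [← hzrep, IterQ_shift_rep]
  set A : (Fin (p * N) → Pt n) →L[ℝ] (Fin (p * N) → Pt n) :=
    LinearMap.toContinuousLinearMap (shiftN n (p * N) N) with hA
  have hAA : ∀ v, A v = shiftN n (p * N) N v := fun v => rfl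
  have hsm : ContDiff ℝ 2 (action S (p * N)) :=
    action_smooth S (fun j => (hS j).smooth) (p * N)
  have hact : (fun y => action S (p * N) (A y + 0)) = action S (p * N) := by
    funext y
    rw [add_zero, hAA]
    exact action_shift S p N hper y
  have hQ : ∀ v, hess (action S (p * N)) z (shiftN n (p * N) N v) =
      hess (action S (p * N)) z v := by
    intro v
    have h1 := hess_comp (action S (p * N)) hsm A 0 z v
    rw [hact, add_zero, hAA, hAA, hTz] at h1
    exact h1.symm
  refine (sigNeg_parity (hess (action S (p * N)) z) (shiftN n (p * N) N) p hp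
    (shiftN_pow p N) hQ).trans ?_
  -- the fixed space
  have hrep : ∀ v, hess (action S (p * N)) z (IterQ_rep n p N v) =
      p * hess (action S N) (oseq f N w) v := by
    intro v
    set B : (Fin N → Pt n) →L[ℝ] (Fin (p * N) → Pt n) :=
      LinearMap.toContinuousLinearMap (IterQ_rep n p N) with hB
    have hBB : ∀ v, B v = IterQ_rep n p N v := fun v => rfl
    have h1 := hess_comp (action S (p * N)) hsm B 0 (oseq f N w) v
    rw [add_zero, hBB, hBB, hzrep] at h1
    rw [← h1]
    have h2 : (fun y => action S (p * N) (B y + 0)) = fun y => (p : ℝ) * action S N y := by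
      funext y
      rw [add_zero, hBB]
      exact IterQ_action_rep hper y
    rw [h2]
    have hsmN : ContDiff ℝ 2 (action S N) := action_smooth S (fun j => (hS j).smooth) N
    have h3 : fderiv ℝ (fun y => (p : ℝ) * action S N y) =
        fun y => (p : ℝ) • fderiv ℝ (action S N) y := by
      funext y
      exact fderiv_const_mul (hsmN.differentiable (by norm_num) _) _
    rw [hess_apply, hess_apply, h3]
    have hd : DifferentiableAt ℝ (fderiv ℝ (action S N)) (oseq f N w) :=
      ((hsmN.fderiv_right (m := 1) (by norm_num)).differentiable (by norm_num)) _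
    have h4 : fderiv ℝ (fun y => (p : ℝ) • fderiv ℝ (action S N) y) (oseq f N w) =
        (p : ℝ) • fderiv ℝ (fderiv ℝ (action S N)) (oseq f N w) :=
      (hd.hasFDerivAt.const_smul (p : ℝ)).fderiv
    rw [h4]
    rfl
  have hpR : (0 : ℝ) < p := by exact_mod_cast hp0
  have h1 : sigNeg ((hess (action S (p * N)) z).comp
      (LinearMap.ker (shiftN n (p * N) N - 1)).subtype) =
      sigNeg (hess (action S N) (oseq f N w)) := by
    apply le_antisymm
    · refine IterQ_sigNeg_le _ _ (IterQ_res n p N ∘ₗ
        (LinearMap.ker (shiftN n (p * N) N - 1)).subtype) ?_ ?_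
      · intro a b hab
        have ha : shiftN n (p * N) N a = a := by
          have := a.2
          rwa [LinearMap.mem_ker, LinearMap.sub_apply, sub_eq_zero] at this
        have hb : shiftN n (p * N) N b = b := by
          have := b.2
          rwa [LinearMap.mem_ker, LinearMap.sub_apply, sub_eq_zero] at this
        apply Subtype.ext
        rw [← IterQ_rep_res ha, ← IterQ_rep_res hb]
        exact congrArg (IterQ_rep n p N) hab
      · intro a ha
        have ha' : shiftN n (p * N) N a = a := by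
          have := a.2
          rwa [LinearMap.mem_ker, LinearMap.sub_apply, sub_eq_zero] at this
        rw [QuadraticMap.comp_apply] at ha
        change hess (action S (p * N)) z (a : Fin (p * N) → Pt n) < 0 at ha
        rw [← IterQ_rep_res ha', hrep] at ha
        change hess (action S N) (oseq f N w) (IterQ_res n p N a) < 0
        by_contra hc
        push Not at hc
        have := mul_nonneg hpR.le hc
        linarith
    · refine IterQ_sigNeg_le _ _ ((IterQ_rep n p N).codRestrict _ (fun v => ?_)) ?_ ?_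
      · rw [LinearMap.mem_ker, LinearMap.sub_apply, IterQ_shift_rep]
        exact sub_self _
      · intro a b hab
        exact IterQ_rep_inj p N (congrArg Subtype.val hab)
      · intro v hv
        rw [QuadraticMap.comp_apply]
        change hess (action S (p * N)) z (IterQ_rep n p N v) < 0
        rw [hrep]
        exact mul_neg_of_pos_of_neg hpR hv
  rw [h1]

end Pool.Agent.H47.QG
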