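import Pool.Agent.H47.QG.Main4
import Pool.Agent.H47.QG.Cnt
import Pool.Agent.H47.QG.IterF
import Pool.Agent.H47.QG.IterA
import Pool.Agent.H47.QG.IterP
import Pool.Agent.H47.QG.IterQ

/-!
# Growth of the number of periodic orbits
-/

set_option autoImplicit false

open Module QuadraticForm Filter Topology Function

namespace Pool.Agent.H47.QG

variable {n : ℕ}

/-- The orbit of the `N`-periodic point `w` has mean index `t`. -/
def MeanIdx (S : ℕ → Pt n → ℝ) (f : ℕ → Pt n → Pt n) (N : ℕ) (w : Pt n) (t : ℝ) : Prop :=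
  Tendsto (fun m : ℕ => (ind S f (m * N) w : ℝ) / m) atTop (𝓝 (t + n * N))

/-- Completing a set of representatives. -/
theorem exists_reps {M X : Type*} [AddCommGroup M] {π : M → X} {Λ : AddSubgroup M}
    (hker : ∀ a b, π a = π b ↔ a - b ∈ Λ) (A : Set M) (hA : ∀ w ∈ A, ∀ e ∈ Λ, w + e ∈ A)
    (hfin : (π '' A).Finite) (C : Finset M) (hC : ∀ c ∈ C, c ∈ A)
    (hCd : ∀ c ∈ C, ∀ c' ∈ C, c - c' ∈ Λ → c = c') :
    ∃ W : Finset M, C ⊆ W ∧ (∀ w, w ∈ A ↔ ∃ w' ∈ W, w - w' ∈ Λ) ∧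
      ∀ w ∈ W, ∀ w' ∈ W, w - w' ∈ Λ → w = w' := by
  classical
  have h1 : ∀ x : X, ∃ w : M, x ∈ π '' A → (π w = x ∧ w ∈ A ∧ ((∃ c ∈ C, π c = x) → w ∈ C)) := by
    intro x
    by_cases h : ∃ c ∈ C, π c = x
    · obtain ⟨c, hc, hx⟩ := h
      exact ⟨c, fun _ => ⟨hx, hC c hc, fun _ => hc⟩⟩
    · by_cases h' : x ∈ π '' A
      · obtain ⟨w, hw, hx⟩ := h'
        exact ⟨w, fun _ => ⟨hx, hw, fun h'' => absurd h'' h⟩⟩
      · exact ⟨0, fun h'' => absurd h'' h'⟩
  choose ℓ hℓ using h1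
  have hmem : ∀ w, w ∈ hfin.toFinset.image ℓ ↔ ∃ x ∈ π '' A, ℓ x = w := by
    intro w
    rw [Finset.mem_image]
    constructor
    · rintro ⟨x, hx, h⟩; exact ⟨x, hfin.mem_toFinset.1 hx, h⟩
    · rintro ⟨x, hx, h⟩; exact ⟨x, hfin.mem_toFinset.2 hx, h⟩
  have hd : ∀ w ∈ hfin.toFinset.image ℓ, ∀ w' ∈ hfin.toFinset.image ℓ, w - w' ∈ Λ → w = w' := by
    intro w hw w' hw' h
    obtain ⟨x, hx, rfl⟩ := (hmem w).1 hw
    obtain ⟨x', hx', rfl⟩ := (hmem w').1 hw'
    rw [← hker, (hℓ x hx).1, (hℓ x' hx').1] at h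
    rw [h]
  refine ⟨hfin.toFinset.image ℓ, fun c hc => ?_, fun w => ⟨fun hw => ?_, ?_⟩, hd⟩
  · rw [hmem]
    have hx : π c ∈ π '' A := ⟨c, hC c hc, rfl⟩
    have h2 := hℓ (π c) hx
    have h3 : ℓ (π c) ∈ C := h2.2.2 ⟨c, hc, rfl⟩
    exact ⟨π c, hx, hCd _ h3 _ hc ((hker _ _).1 h2.1)⟩
  · have hx : π w ∈ π '' A := ⟨w, hw, rfl⟩
    refine ⟨ℓ (π w), (hmem _).2 ⟨π w, hx, rfl⟩, ?_⟩
    rw [← hker]; exact (hℓ (π w) hx).1.symm
  · rintro ⟨w', hw', h⟩
    obtain ⟨x, hx, rfl⟩ := (hmem w').1 hw'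
    have := hA _ (hℓ x hx).2.1 _ h
    rwa [add_sub_cancel] at this

/-- **Growth theorem**, general form: `s c` is the signed number of critical points of
perturbations of the action near the `p`-th iterate of `c`, for all large primes `p`. -/
theorem growth_general {S : ℕ → Pt n → ℝ} {f : ℕ → Pt n → Pt n} (hS : ∀ j, Gen (S j) (f j))
    (hn : 0 < n) {N : ℕ} (hN : 0 < N) (hper : ∀ j, S (j + N) = S j)
    (hfper : ∀ j, f (j + N) = f j) {X : Type*} {φ : X → X} {π : Pt n → X}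
    (hsys : Sys (flw f N) φ π (Zn n)) (k : ℕ) (hk : 0 < k) (t : ℝ) (C : Finset (Pt n))
    (hC : ∀ w, (flw f (k * N) w = w ∧ MeanIdx S f (k * N) w t) ↔ ∃ c ∈ C, w - c ∈ Zn n)
    (hCd : ∀ c ∈ C, ∀ c' ∈ C, c - c' ∈ Zn n → c = c') (s : Pt n → ℤ) (hsum : ∑ c ∈ C, s c ≠ 0)
    (hs : ∀ c ∈ C, ∃ P₀ : ℕ, ∀ p : ℕ, p.Prime → P₀ < p → ∀ h : NeZero (p * (k * N)),
      ∀ r > 0, (∀ x ∈ Metric.closedBall (tw f (p * (k * N)) c) r,
        fderiv ℝ (fE S (p * (k * N))) x = 0 → x = tw f (p * (k * N)) c) →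
      ∃ (g : (Ix n (p * (k * N)) → ℝ) → ℝ) (X : Finset (Ix n (p * (k * N)) → ℝ)),
        LD (fE S (p * (k * N))) (tw f (p * (k * N)) c) r g X ∧
        ∑ y ∈ X, (-1 : ℤ) ^ sigNeg (hess g y) = s c) :
    ∃ c' > 0, ∀ᶠ T : ℝ in atTop,
      ENNReal.ofReal (c' * T ^ 2 / Real.log T) ≤ ((orbs φ T).encard : ENNReal) := by
  classical
  set N' := k * N with hN'
  have hN'0 : 0 < N' := Nat.mul_pos hk hN
  have hperK : ∀ (g : ℕ → Pt n → ℝ), (∀ j, g (j + N) = g j) → ∀ m j, g (j + m * N) = g j := by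
    intro g hg m
    induction m with
    | zero => intro j; rw [zero_mul, add_zero]
    | succ m ih => intro j; rw [Nat.succ_mul, ← add_assoc, hg, ih]
  have hperK' : ∀ (g : ℕ → Pt n → Pt n), (∀ j, g (j + N) = g j) → ∀ m j, g (j + m * N) = g j := by
    intro g hg m
    induction m with
    | zero => intro j; rw [zero_mul, add_zero]
    | succ m ih => intro j; rw [Nat.succ_mul, ← add_assoc, hg, ih]
  have hper' : ∀ j, S (j + N') = S j := hperK S hper k
  have hfper' : ∀ j, f (j + N') = f j := hperK' f hfper k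
  have hit : ∀ (p : ℕ) (w : Pt n), flw f (p * N') w = (flw f N)^[k * p] w := by
    intro p w
    have e1 : p * N' = (k * p) * N := by rw [hN']; ring
    rw [e1, flw_mul hfper]
  have hitk : ∀ w : Pt n, flw f N' w = (flw f N)^[k] w := by
    intro w
    rw [← flw_mul hfper]
  have hiso : ∀ (m : ℕ) (w e : Pt n), e ∈ Zn n → (flw f N)^[m] (w + e) = (flw f N)^[m] w + e := by
    intro m w e he
    rw [← flw_mul hfper, ← flw_mul hfper, flw_add_int hS _ _ _ he]
  have hfixA : ∀ m : ℕ, ∀ w ∈ {w : Pt n | (flw f N)^[m] w = w}, ∀ e ∈ Zn n,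
      w + e ∈ {w : Pt n | (flw f N)^[m] w = w} := by
    intro m w hw e he
    change (flw f N)^[m] (w + e) = w + e
    rw [hiso m w e he]
    rw [show (flw f N)^[m] w = w from hw]
  have hmono : ∀ p : ℕ, {w : Pt n | (flw f N)^[k] w = w} ⊆ {w | (flw f N)^[k * p] w = w} := by
    intro p w hw
    change (flw f N)^[k * p] w = w
    rw [Function.iterate_mul]
    exact Function.iterate_fixed hw p
  have hvmap : ∀ p w, (flw f N)^[k * p] w = w →
      ind S f (p * N') (flw f N w) = ind S f (p * N') w := by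
    intro p w hw
    have e1 : p * N' = (p * k) * N := by rw [hN']; ring
    rw [e1]
    refine ind_map S f hS N hN hper hfper w (p * k) ?_
    rw [← e1, hit]; exact hw
  have hvtr : ∀ p w, ∀ e ∈ Zn n, (flw f N)^[k * p] w = w →
      ind S f (p * N') (w + e) = ind S f (p * N') w := by
    rintro p w _ ⟨a, b, rfl⟩ _
    exact ind_translate S f hS _ w a b
  by_cases hfin : (π '' {w | (flw f N)^[k] w = w}).Finite
  swap
  · refine growth hsys k hk (fun p w => ind S f (p * N') w) hvmap hvtr 1 0 one_pos ?_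
    intro p hp _ hf
    exact absurd (hf.subset (Set.image_mono (hmono p))) hfin
  -- limits
  have hlim : ∀ w : Pt n, flw f N' w = w → ∃ L : ℝ,
      (∀ p : ℕ, 0 < p → |(ind S f (p * N') w : ℝ) - p * L| ≤ 2 * n) ∧
      Tendsto (fun p : ℕ => (ind S f (p * N') w : ℝ) / p) atTop (𝓝 L) := by
    intro w hw
    exact almost_additive (fun p => (ind S f (p * N') w : ℝ)) (2 * n)
      (fun p q hp hq => ind_add S f hS N' hN'0 hper' hfper' w hw p q hp hq)
  have hlim' : ∀ w : Pt n, ∃ L : ℝ, flw f N' w = w →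
      (∀ p : ℕ, 0 < p → |(ind S f (p * N') w : ℝ) - p * L| ≤ 2 * n) ∧
      Tendsto (fun p : ℕ => (ind S f (p * N') w : ℝ) / p) atTop (𝓝 L) := by
    intro w
    by_cases hw : flw f N' w = w
    · obtain ⟨L, hL⟩ := hlim w hw
      exact ⟨L, fun _ => hL⟩
    · exact ⟨0, fun h => absurd h hw⟩
  choose Lf hLf using hlim'
  have hCfix : ∀ c ∈ C, flw f N' c = c ∧ MeanIdx S f N' c t := fun c hc =>
    (hC c).2 ⟨c, hc, by rw [sub_self]; exact (Zn n).zero_mem⟩
  obtain ⟨Fx, hCF, hFx, hFxd⟩ := exists_reps hsys.ker {w | (flw f N)^[k] w = w} (hfixA k) hfin C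
    (fun c hc => by
      change (flw f N)^[k] c = c
      rw [← hitk]; exact (hCfix c hc).1) hCd
  have hFxfix : ∀ w ∈ Fx, flw f N' w = w := by
    intro w hw
    rw [hitk]
    exact (hFx w).2 ⟨w, hw, by rw [sub_self]; exact (Zn n).zero_mem⟩
  have hcl : ∀ w, flw f N' w = w → (Lf w = t + n * N' ↔ MeanIdx S f N' w t) := by
    intro w hw
    constructor
    · intro h
      have := (hLf w hw).2
      rw [h] at this
      exact this
    · intro h
      exact tendsto_nhds_unique (hLf w hw).2 h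
  have hfilter : Fx.filter (fun w => Lf w = t + n * N') = C := by
    ext w
    rw [Finset.mem_filter]
    constructor
    · rintro ⟨hw, h⟩
      have hfw := hFxfix w hw
      obtain ⟨c, hc, he⟩ := (hC w).1 ⟨hfw, (hcl w hfw).1 h⟩
      rw [hFxd w hw c (hCF hc) he]
      exact hc
    · intro hw
      exact ⟨hCF hw, (hcl w (hCfix w hw).1).2 (hCfix w hw).2⟩
  obtain ⟨c, hc, D, hcD⟩ := cluster_values hS hn hN'0 hper' hfper' Lf
    (fun w hw => (hLf w hw).1) Fx (t + n * N') s hFxfix (by rw [hfilter]; exact hsum)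
    (fun w hw h => hs w (by rw [← hfilter]; exact Finset.mem_filter.2 ⟨hw, h⟩))
  refine growth hsys k hk (fun p w => ind S f (p * N') w) hvmap hvtr c D hc ?_
  intro p hp hD hpf
  obtain ⟨W, hFW, hW, hWd⟩ := exists_reps hsys.ker {w | (flw f N)^[k * p] w = w} (hfixA (k * p))
    hpf Fx (fun w hw => by
      refine hmono p ?_
      change (flw f N)^[k] w = w
      rw [← hitk]; exact hFxfix w hw) hFxd
  obtain ⟨A, hA, hA'⟩ := hcD p hp hD W
    (fun w => by rw [hit]; exact hW w) hWd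
    (fun w => by
      constructor
      · intro hw
        exact ⟨hFW hw, hFxfix w hw⟩
      · rintro ⟨hw, hfw⟩
        rw [hitk] at hfw
        obtain ⟨w', hw', he⟩ := (hFx w).1 hfw
        rw [hWd w hw w' (hFW hw') he]
        exact hw')
  refine ⟨A, hA, fun a ha => ?_⟩
  obtain ⟨w, h1, h2, h3⟩ := hA' a ha
  rw [hit] at h1
  rw [hitk] at h2
  exact ⟨w, h1, h2, h3⟩

/-- **Growth theorem**, nondegenerate form. -/
theorem growth_nondeg {S : ℕ → Pt n → ℝ} {f : ℕ → Pt n → Pt n} (hS : ∀ j, Gen (S j) (f j))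
    (hn : 0 < n) {N : ℕ} (hN : 0 < N) (hper : ∀ j, S (j + N) = S j)
    (hfper : ∀ j, f (j + N) = f j) {X : Type*} {φ : X → X} {π : Pt n → X}
    (hsys : Sys (flw f N) φ π (Zn n)) (k : ℕ) (hk : 0 < k) (t : ℝ) (C : Finset (Pt n))
    (hC : ∀ w, (flw f (k * N) w = w ∧ MeanIdx S f (k * N) w t) ↔ ∃ c ∈ C, w - c ∈ Zn n)
    (hCd : ∀ c ∈ C, ∀ c' ∈ C, c - c' ∈ Zn n → c = c')
    (hnd : ∀ c ∈ C, Nondeg S f (k * N) c)
    (hsum : ∑ c ∈ C, (-1 : ℤ) ^ ind S f (k * N) c ≠ 0) :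
    ∃ c' > 0, ∀ᶠ T : ℝ in atTop,
      ENNReal.ofReal (c' * T ^ 2 / Real.log T) ≤ ((orbs φ T).encard : ENNReal) := by
  have hN'0 : 0 < k * N := Nat.mul_pos hk hN
  have hperK : ∀ m j, S (j + m * N) = S j := by
    intro m
    induction m with
    | zero => intro j; rw [zero_mul, add_zero]
    | succ m ih => intro j; rw [Nat.succ_mul, ← add_assoc, hper, ih]
  have hperK' : ∀ m j, f (j + m * N) = f j := by
    intro m
    induction m with
    | zero => intro j; rw [zero_mul, add_zero]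
    | succ m ih => intro j; rw [Nat.succ_mul, ← add_assoc, hfper, ih]
  refine growth_general hS hn hN hper hfper hsys k hk t C hC hCd
    (fun c => (-1 : ℤ) ^ ind S f (k * N) c) hsum ?_
  intro c hc
  have hcf : flw f (k * N) c = c :=
    ((hC c).2 ⟨c, hc, by rw [sub_self]; exact (Zn n).zero_mem⟩).1
  obtain ⟨P₀, hP⟩ := nondeg_prime S f hS (k * N) hN'0 (hperK k) (hperK' k) c hcf (hnd c hc)
  refine ⟨P₀ + 2, fun p hp hpP h r hr hiso => ?_⟩
  have hodd : Odd p := hp.odd_of_ne_two (by omega)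
  have hpf : flw f (p * (k * N)) c = c := by
    rw [flw_mul (hperK' k)]
    exact Function.iterate_fixed hcf p
  obtain ⟨g, Y, h1, h2⟩ := nondeg_LD hS (p * (k * N)) c hpf (hP p hp (by omega)) r hr hiso
  refine ⟨g, Y, h1, ?_⟩
  rw [h2]
  have hpar := ind_parity S f hS (k * N) hN'0 (hperK k) (hperK' k) c hcf p hodd
  exact neg_one_pow_congr (by
    rw [Nat.even_iff, Nat.even_iff]
    rw [show ind S f (p * (k * N)) c % 2 = ind S f (k * N) c % 2 from hpar])

end Pool.Agent.H47.QG
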