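import Pool.Agent.H47.QG.IterD

/-!
# Nullity
-/

set_option autoImplicit false

open Module QuadraticForm

namespace Pool.Agent.H47.QG

variable {n : ℕ}

variable (S : ℕ → Pt n → ℝ) (f : ℕ → Pt n → Pt n)

theorem iterN_sym {E : Type*} [NormedAddCommGroup E] [NormedSpace ℝ E] {g : E → ℝ}
    (hg : ContDiff ℝ 2 g) (x v w : E) :
    fderiv ℝ (fderiv ℝ g) x v w = fderiv ℝ (fderiv ℝ g) x w v :=
  (hg.contDiffAt (x := x)).isSymmSndFDerivAt (by simp) v w

theorem iterN_rad {E : Type*} [NormedAddCommGroup E] [NormedSpace ℝ E] {g : E → ℝ}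
    (hg : ContDiff ℝ 2 g) (x v : E) :
    v ∈ (hess g x).radical ↔ fderiv ℝ (fderiv ℝ g) x v = 0 := by
  rw [QuadraticMap.mem_radical_iff']
  simp only [hess_apply]
  have hs := iterN_sym hg x
  constructor
  · rintro ⟨h1, h2⟩
    ext w
    have h3 := h2 w
    simp only [map_add, ContinuousLinearMap.add_apply] at h3
    have h4 := hs v w
    simp only [ContinuousLinearMap.zero_apply]
    linarith
  · intro h
    refine ⟨by simp [h], fun w => ?_⟩
    have h4 := hs v w
    simp only [map_add, ContinuousLinearMap.add_apply]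
    rw [h] at h4 ⊢
    simp only [ContinuousLinearMap.zero_apply] at h4 ⊢
    linarith

theorem iterN_contDiff (hS : ∀ j, ContDiff ℝ 2 (S j)) (K : ℕ) [NeZero K] :
    ContDiff ℝ 2 (action S K) := by
  unfold action
  refine ContDiff.sum fun j _ => ContDiff.sub (ContDiff.sum fun i _ => ?_) ?_
  · fun_prop
  · exact (hS j).comp (by fun_prop)

/-- the polarised Hessian -/
theorem iterN_polar (hS : ∀ j, ContDiff ℝ 2 (S j)) (K : ℕ) [NeZero K] (z v u : Fin K → Pt n) :
    fderiv ℝ (fderiv ℝ (action S K)) z v u = ∑ j : Fin K,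
      (∑ i, ((v j).2 i * ((u (j + 1)).1 i - (u j).1 i) + (u j).2 i * ((v (j + 1)).1 i - (v j).1 i)) -
      fderiv ℝ (fderiv ℝ (S j)) ((z (j + 1)).1, (z j).2) ((v (j + 1)).1, (v j).2)
        ((u (j + 1)).1, (u j).2)) := by
  have hc := iterN_contDiff S hS K
  have h1 := hess_action S hS K z v
  have h2 := hess_action S hS K z u
  have h3 := hess_action S hS K z (v + u)
  simp only [hess_apply] at h1 h2 h3
  have h4 := iterN_sym hc z v u
  have h5 : fderiv ℝ (fderiv ℝ (action S K)) z (v + u) (v + u) =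
      fderiv ℝ (fderiv ℝ (action S K)) z v v + fderiv ℝ (fderiv ℝ (action S K)) z u u +
      2 * fderiv ℝ (fderiv ℝ (action S K)) z v u := by
    simp only [map_add, ContinuousLinearMap.add_apply]
    rw [← h4]
    ring
  rw [h3, h1, h2, ← Finset.sum_add_distrib] at h5
  have h6 : ∀ j : Fin K, (2 * ∑ i, ((v + u) j).2 i * (((v + u) (j + 1)).1 i - ((v + u) j).1 i) -
      fderiv ℝ (fderiv ℝ (S j)) ((z (j + 1)).1, (z j).2) (((v + u) (j + 1)).1, ((v + u) j).2)
        (((v + u) (j + 1)).1, ((v + u) j).2)) =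
      ((2 * ∑ i, (v j).2 i * ((v (j + 1)).1 i - (v j).1 i) -
      fderiv ℝ (fderiv ℝ (S j)) ((z (j + 1)).1, (z j).2) ((v (j + 1)).1, (v j).2)
        ((v (j + 1)).1, (v j).2)) +
      (2 * ∑ i, (u j).2 i * ((u (j + 1)).1 i - (u j).1 i) -
      fderiv ℝ (fderiv ℝ (S j)) ((z (j + 1)).1, (z j).2) ((u (j + 1)).1, (u j).2)
        ((u (j + 1)).1, (u j).2))) +
      2 * (∑ i, ((v j).2 i * ((u (j + 1)).1 i - (u j).1 i) +
        (u j).2 i * ((v (j + 1)).1 i - (v j).1 i)) -
      fderiv ℝ (fderiv ℝ (S j)) ((z (j + 1)).1, (z j).2) ((v (j + 1)).1, (v j).2)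
        ((u (j + 1)).1, (u j).2)) := by
    intro j
    have e1 : (((v + u) (j + 1)).1, ((v + u) j).2) =
        ((v (j + 1)).1, (v j).2) + ((u (j + 1)).1, (u j).2) := rfl
    have e2 := iterN_sym (hS j) ((z (j + 1)).1, (z j).2) ((v (j + 1)).1, (v j).2)
      ((u (j + 1)).1, (u j).2)
    rw [e1]
    have e3 : ∑ i, ((v + u) j).2 i * (((v + u) (j + 1)).1 i - ((v + u) j).1 i) =
        ∑ i, (v j).2 i * ((v (j + 1)).1 i - (v j).1 i) +
        ∑ i, (u j).2 i * ((u (j + 1)).1 i - (u j).1 i) +
        ∑ i, ((v j).2 i * ((u (j + 1)).1 i - (u j).1 i) +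
        (u j).2 i * ((v (j + 1)).1 i - (v j).1 i)) := by
      rw [← Finset.sum_add_distrib, ← Finset.sum_add_distrib]
      refine Finset.sum_congr rfl fun i _ => ?_
      simp only [Pi.add_apply, Prod.fst_add, Prod.snd_add]
      ring
    rw [e3]
    simp only [map_add, ContinuousLinearMap.add_apply]
    rw [← e2]
    ring
  rw [Finset.sum_congr rfl fun j _ => h6 j, Finset.sum_add_distrib, ← Finset.mul_sum] at h5
  linarith

theorem iterN_step (hS : ∀ j, Gen (S j) (f j)) (K : ℕ) [NeZero K] (z v : Fin K → Pt n)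
    (hv : fderiv ℝ (fderiv ℝ (action S K)) z v = 0) (j : Fin K) (hj : j + 1 ≠ j)
    (h0 : v j = 0) : v (j + 1) = 0 := by
  have hpol := iterN_polar S (fun j => (hS j).smooth) K z v
  have hinj : ∀ l : Fin K, l + 1 = j + 1 ↔ l = j := fun l => add_left_inj 1
  have hx : (v (j + 1)).1 = 0 := by
    refine (hS j).inv ((z (j + 1)).1, (z j).2) _ fun i => ?_
    have h := hpol (Pi.single j (0, Pi.single i 1))
    rw [hv, ContinuousLinearMap.zero_apply, Finset.sum_eq_single j] at h
    · have ha : ((Pi.single j ((0 : Fin n → ℝ), (Pi.single i 1 : Fin n → ℝ)) : Fin K → Pt n)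
          (j + 1)) = 0 := Pi.single_eq_of_ne hj _
      rw [ha] at h
      simp only [Pi.single_eq_same, h0, Prod.fst_zero, Prod.snd_zero, Pi.zero_apply, sub_zero,
        mul_zero, zero_add] at h
      have hb : ∑ m, (Pi.single i 1 : Fin n → ℝ) m * (v (j + 1)).1 m = (v (j + 1)).1 i := by
        rw [Finset.sum_eq_single i]
        · simp
        · intro m _ hm
          simp [Pi.single_eq_of_ne hm]
        · simp
      rw [hb] at h
      linarith
    · intro l _ hl
      have ha : ((Pi.single j ((0 : Fin n → ℝ), (Pi.single i 1 : Fin n → ℝ)) : Fin K → Pt n)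
          l) = 0 := Pi.single_eq_of_ne hl _
      have hb : ((Pi.single j ((0 : Fin n → ℝ), (Pi.single i 1 : Fin n → ℝ)) : Fin K → Pt n)
          (l + 1)).1 = 0 := by
        by_cases hc : l + 1 = j
        · rw [hc, Pi.single_eq_same]
        · rw [Pi.single_eq_of_ne hc]
          rfl
      have hz : ((0 : Fin n → ℝ), (0 : Pt n).2) = (0 : Pt n) := rfl
      rw [ha, hb, hz]
      simp
    · simp
  have hy : (v (j + 1)).2 = 0 := by
    funext i
    have h := hpol (Pi.single (j + 1) (Pi.single i 1, 0))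
    rw [hv, ContinuousLinearMap.zero_apply] at h
    set u : Fin K → Pt n := Pi.single (j + 1) (Pi.single i 1, 0) with hu
    have hu2 : ∀ l, (u l).2 = 0 := by
      intro l
      by_cases hc : l = j + 1
      · rw [hu, hc, Pi.single_eq_same]
      · rw [hu, Pi.single_eq_of_ne hc]
        rfl
    have hu1 : (u (j + 1)).1 = Pi.single i 1 := by rw [hu, Pi.single_eq_same]
    have hu0 : ∀ l, l ≠ j + 1 → (u l).1 = 0 := by
      intro l hc
      rw [hu, Pi.single_eq_of_ne hc]
      rfl
    have hdot : ∀ w : Fin n → ℝ, ∑ m, w m * (Pi.single i 1 : Fin n → ℝ) m = w i := by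
      intro w
      rw [Finset.sum_eq_single i]
      · simp
      · intro m _ hm
        simp [Pi.single_eq_of_ne hm]
      · simp
    have hterm : ∀ l : Fin K, (∑ i, ((v l).2 i * ((u (l + 1)).1 i - (u l).1 i) +
        (u l).2 i * ((v (l + 1)).1 i - (v l).1 i)) -
      fderiv ℝ (fderiv ℝ (S l)) ((z (l + 1)).1, (z l).2) ((v (l + 1)).1, (v l).2)
        ((u (l + 1)).1, (u l).2)) = if l = j + 1 then - (v (j + 1)).2 i else 0 := by
      intro l
      rw [hu2 l]
      by_cases h1 : l = j
      · subst h1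
        rw [hu1, hu0 l (fun hc => hj hc.symm), h0, hx, if_neg (fun hc => hj hc.symm)]
        have : ((0 : Fin n → ℝ), (0 : Pt n).2) = (0 : Pt n) := rfl
        rw [this]
        simp
      · have h2 : (u (l + 1)).1 = 0 := hu0 _ (fun hc => h1 ((hinj l).1 hc))
        rw [h2]
        have h3 : ((0 : Fin n → ℝ), (0 : Fin n → ℝ)) = (0 : Pt n) := rfl
        rw [h3, map_zero, sub_zero]
        by_cases h4 : l = j + 1
        · rw [if_pos h4, h4, hu1]
          simp only [Pi.zero_apply, zero_sub, zero_mul, add_zero, mul_neg,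
            Finset.sum_neg_distrib, hdot]
        · rw [if_neg h4, hu0 l h4]
          simp
    rw [Finset.sum_congr rfl fun l _ => hterm l] at h
    simp only [Finset.sum_ite_eq', Finset.mem_univ, if_true] at h
    simp only [Pi.zero_apply]
    linarith
  exact Prod.ext hx hy

theorem iterN_inj (hS : ∀ j, Gen (S j) (f j)) (K : ℕ) [NeZero K] (z v : Fin K → Pt n)
    (hv : fderiv ℝ (fderiv ℝ (action S K)) z v = 0) (h0 : v 0 = 0) : v = 0 := by
  have hK : 0 < K := Nat.pos_of_ne_zero (NeZero.ne K)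
  have key : ∀ m : ℕ, ∀ hm : m < K, v ⟨m, hm⟩ = 0 := by
    intro m
    induction m with
    | zero =>
      intro hm
      have : (⟨0, hm⟩ : Fin K) = 0 := by
        apply Fin.ext
        simp
      rw [this, h0]
    | succ m ih =>
      intro hm
      have hm' : m < K := by omega
      have h1 : (⟨m, hm'⟩ : Fin K) + 1 = ⟨m + 1, hm⟩ := by
        apply Fin.ext
        have h2 : ((1 : Fin K) : ℕ) = 1 % K := Fin.val_one' K
        rw [Fin.val_add, h2]
        simp only [Nat.add_mod_mod]
        exact Nat.mod_eq_of_lt hm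
      have h3 := iterN_step S f hS K z v hv ⟨m, hm'⟩ (by
        rw [h1]
        intro hc
        have := congrArg Fin.val hc
        simp at this) (ih hm')
      rw [h1] at h3
      exact h3
  funext j
  exact key j j.2

/-- the nullity is at most `2n` -/
theorem null_le (hS : ∀ j, Gen (S j) (f j)) (K : ℕ) [NeZero K] (w : Pt n) :
    finrank ℝ (Fin K → Pt n) ≤ sigNeg (hess (action S K) (oseq f K w)) +
      sigPos (hess (action S K) (oseq f K w)) + 2 * n := by
  have hc := iterN_contDiff S (fun j => (hS j).smooth) K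
  have h := sigPos_add_sigNeg_add_radical (Q := hess (action S K) (oseq f K w))
  have h1 : finrank ℝ (hess (action S K) (oseq f K w)).radical ≤ finrank ℝ (Pt n) := by
    let e : (hess (action S K) (oseq f K w)).radical →ₗ[ℝ] Pt n :=
      (LinearMap.proj (R := ℝ) (φ := fun _ : Fin K => Pt n) (0 : Fin K)).comp
        (Submodule.subtype _)
    refine LinearMap.finrank_le_finrank_of_injective (f := e) ?_
    rw [← LinearMap.ker_eq_bot, LinearMap.ker_eq_bot']
    rintro ⟨v, hv⟩ h0
    have := iterN_inj S f hS K (oseq f K w) v ((iterN_rad hc _ _).1 hv) h0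
    exact Subtype.ext this
  have h2 : finrank ℝ (Pt n) = 2 * n := by
    rw [Module.finrank_prod]
    simp
    ring
  omega

theorem nondeg_iff (hS : ∀ j, Gen (S j) (f j)) (K : ℕ) [NeZero K] (w : Pt n) :
    Nondeg S f K w ↔ sigNeg (hess (action S K) (oseq f K w)) +
      sigPos (hess (action S K) (oseq f K w)) = finrank ℝ (Fin K → Pt n) := by
  have hc := iterN_contDiff S (fun j => (hS j).smooth) K
  have h := sigPos_add_sigNeg_add_radical (Q := hess (action S K) (oseq f K w))
  have h1 : Nondeg S f K w ↔ (hess (action S K) (oseq f K w)).radical = ⊥ := by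
    rw [Submodule.eq_bot_iff]
    constructor
    · intro hn v hv
      exact hn (NeZero.ne K) v ((iterN_rad hc _ _).1 hv)
    · intro hn hK v hv
      exact hn v ((iterN_rad hc _ _).2 hv)
  rw [h1, ← Submodule.finrank_eq_zero (R := ℝ)]
  omega

end Pool.Agent.H47.QG
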