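import Pool.Agent.H47.QG.Act

/-!
# Critical points and Hessian of the action
-/

set_option autoImplicit false

open Module QuadraticForm

namespace Pool.Agent.H47.QG

variable {n : ℕ}

/-- the point `(x_{j+1}, y_j)` as a continuous linear function of the sequence -/
noncomputable def ActH_P (n K : ℕ) [NeZero K] (j : Fin K) : (Fin K → Pt n) →L[ℝ] Pt n :=
  ((ContinuousLinearMap.fst ℝ (Fin n → ℝ) (Fin n → ℝ)).comp
      (ContinuousLinearMap.proj (R := ℝ) (φ := fun _ : Fin K => Pt n) (j + 1))).prod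
    ((ContinuousLinearMap.snd ℝ (Fin n → ℝ) (Fin n → ℝ)).comp
      (ContinuousLinearMap.proj (R := ℝ) (φ := fun _ : Fin K => Pt n) j))

/-- the coordinate `x_{j,i}` -/
noncomputable def ActH_x (n K : ℕ) (j : Fin K) (i : Fin n) : (Fin K → Pt n) →L[ℝ] ℝ :=
  (ContinuousLinearMap.proj (R := ℝ) (φ := fun _ : Fin n => ℝ) i).comp
    ((ContinuousLinearMap.fst ℝ (Fin n → ℝ) (Fin n → ℝ)).comp
      (ContinuousLinearMap.proj (R := ℝ) (φ := fun _ : Fin K => Pt n) j))

/-- the coordinate `y_{j,i}` -/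
noncomputable def ActH_y (n K : ℕ) (j : Fin K) (i : Fin n) : (Fin K → Pt n) →L[ℝ] ℝ :=
  (ContinuousLinearMap.proj (R := ℝ) (φ := fun _ : Fin n => ℝ) i).comp
    ((ContinuousLinearMap.snd ℝ (Fin n → ℝ) (Fin n → ℝ)).comp
      (ContinuousLinearMap.proj (R := ℝ) (φ := fun _ : Fin K => Pt n) j))

theorem ActH_P_apply (K : ℕ) [NeZero K] (j : Fin K) (z : Fin K → Pt n) :
    ActH_P n K j z = ((z (j + 1)).1, (z j).2) := rfl

theorem ActH_x_apply (K : ℕ) (j : Fin K) (i : Fin n) (z : Fin K → Pt n) :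
    ActH_x n K j i z = (z j).1 i := rfl

theorem ActH_y_apply (K : ℕ) (j : Fin K) (i : Fin n) (z : Fin K → Pt n) :
    ActH_y n K j i z = (z j).2 i := rfl

/-- the difference `x_{j+1,i} - x_{j,i}` -/
noncomputable def ActH_d (n K : ℕ) [NeZero K] (j : Fin K) (i : Fin n) :
    (Fin K → Pt n) →L[ℝ] ℝ := ActH_x n K (j + 1) i - ActH_x n K j i

theorem ActH_d_apply (K : ℕ) [NeZero K] (j : Fin K) (i : Fin n) (z : Fin K → Pt n) :
    ActH_d n K j i z = (z (j + 1)).1 i - (z j).1 i := rfl

/-- the derivative of the action -/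
noncomputable def ActH_D (S : ℕ → Pt n → ℝ) (K : ℕ) [NeZero K] (z : Fin K → Pt n) :
    (Fin K → Pt n) →L[ℝ] ℝ :=
  ∑ j : Fin K, (∑ i, (ActH_y n K j i z • ActH_d n K j i + ActH_d n K j i z • ActH_y n K j i) -
    (fderiv ℝ (S j) (ActH_P n K j z)).comp (ActH_P n K j))

theorem ActH_hasFDerivAt (S : ℕ → Pt n → ℝ) (hS : ∀ j, Differentiable ℝ (S j)) (K : ℕ)
    [NeZero K] (z : Fin K → Pt n) : HasFDerivAt (action S K) (ActH_D S K z) z := by
  have h1 : action S K = fun z => ∑ j : Fin K, (∑ i, ActH_y n K j i z * ActH_d n K j i z -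
      S j (ActH_P n K j z)) := rfl
  rw [h1]
  unfold ActH_D
  refine HasFDerivAt.fun_sum fun j _ => ?_
  refine HasFDerivAt.sub ?_ ?_
  · refine HasFDerivAt.fun_sum fun i _ => ?_
    exact (ActH_y n K j i).hasFDerivAt.mul (ActH_d n K j i).hasFDerivAt
  · exact (hS j _).hasFDerivAt.comp z (ActH_P n K j).hasFDerivAt

/-- **The Hessian of the action.** -/
theorem hess_action (S : ℕ → Pt n → ℝ) (hS : ∀ j, ContDiff ℝ 2 (S j)) (K : ℕ) [NeZero K]
    (z v : Fin K → Pt n) :
    hess (action S K) z v = ∑ j : Fin K, (2 * ∑ i, (v j).2 i * ((v (j + 1)).1 i - (v j).1 i) -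
      hess (S j) ((z (j + 1)).1, (z j).2) ((v (j + 1)).1, (v j).2)) := by
  have h1 : fderiv ℝ (action S K) = ActH_D S K := by
    funext y
    exact (ActH_hasFDerivAt S (fun j => (hS j).differentiable (by norm_num)) K y).fderiv
  have h2 : HasFDerivAt (ActH_D S K) (∑ j : Fin K,
      (∑ i, ((ActH_y n K j i).smulRight (ActH_d n K j i) +
        (ActH_d n K j i).smulRight (ActH_y n K j i)) -
      (((ContinuousLinearMap.compL ℝ (Fin K → Pt n) (Pt n) ℝ).flip (ActH_P n K j))).comp
        ((fderiv ℝ (fderiv ℝ (S j)) (ActH_P n K j z)).comp (ActH_P n K j)))) z := by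
    have h3 : ActH_D S K = fun z => ∑ j : Fin K, (∑ i, (ActH_y n K j i z • ActH_d n K j i +
        ActH_d n K j i z • ActH_y n K j i) -
      (fderiv ℝ (S j) (ActH_P n K j z)).comp (ActH_P n K j)) := rfl
    rw [h3]
    refine HasFDerivAt.fun_sum fun j _ => ?_
    refine HasFDerivAt.sub ?_ ?_
    · refine HasFDerivAt.fun_sum fun i _ => ?_
      exact ((ActH_y n K j i).hasFDerivAt.smul_const (ActH_d n K j i)).add
        ((ActH_d n K j i).hasFDerivAt.smul_const (ActH_y n K j i))
    · have h4 : HasFDerivAt (fderiv ℝ (S j)) (fderiv ℝ (fderiv ℝ (S j)) (ActH_P n K j z))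
          (ActH_P n K j z) := by
        have h5 : ContDiff ℝ 1 (fderiv ℝ (S j)) := (hS j).fderiv_right (by norm_num)
        exact (h5.differentiable (by norm_num) _).hasFDerivAt
      exact (((ContinuousLinearMap.compL ℝ (Fin K → Pt n) (Pt n) ℝ).flip
        (ActH_P n K j)).hasFDerivAt).comp z (h4.comp z (ActH_P n K j).hasFDerivAt)
  rw [hess_apply, h1, h2.fderiv, ContinuousLinearMap.sum_apply, ContinuousLinearMap.sum_apply]
  refine Finset.sum_congr rfl fun j _ => ?_
  rw [hess_apply, ContinuousLinearMap.sub_apply, ContinuousLinearMap.sub_apply,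
    ContinuousLinearMap.sum_apply, ContinuousLinearMap.sum_apply, Finset.mul_sum]
  congr 1
  refine Finset.sum_congr rfl fun i _ => ?_
  rw [ContinuousLinearMap.add_apply, ContinuousLinearMap.add_apply,
    ContinuousLinearMap.smulRight_apply, ContinuousLinearMap.smulRight_apply,
    ContinuousLinearMap.smul_apply, ContinuousLinearMap.smul_apply, smul_eq_mul, smul_eq_mul,
    ActH_y_apply, ActH_d_apply]
  ring

/-- the derivative in Euler-Lagrange form -/
theorem ActH_EL (S : ℕ → Pt n → ℝ) (K : ℕ) [NeZero K] (z v : Fin K → Pt n) :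
    ActH_D S K z v = ∑ j : Fin K, ∑ i,
      ((v j).2 i * ((z (j + 1)).1 i - (z j).1 i -
          fderiv ℝ (S j) ((z (j + 1)).1, (z j).2) (0, Pi.single i 1)) +
        (v (j + 1)).1 i * ((z j).2 i - (z (j + 1)).2 i -
          fderiv ℝ (S j) ((z (j + 1)).1, (z j).2) (Pi.single i 1, 0))) := by
  classical
  have h1 : ∀ (L : Pt n →L[ℝ] ℝ) (a b : Fin n → ℝ),
      L (a, b) = ∑ i, (a i * L (Pi.single i 1, 0) + b i * L (0, Pi.single i 1)) := by
    intro L a b
    have h2 : (a, b) = ∑ i, (a i • ((Pi.single i 1, 0) : Pt n) +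
        b i • ((0, Pi.single i 1) : Pt n)) := by
      apply Prod.ext
      · rw [Prod.fst_sum]
        funext k
        rw [Finset.sum_apply]
        simp [Pi.single_apply]
      · rw [Prod.snd_sum]
        funext k
        rw [Finset.sum_apply]
        simp [Pi.single_apply]
    rw [h2, map_sum]
    refine Finset.sum_congr rfl fun i _ => ?_
    rw [map_add, map_smul, map_smul, smul_eq_mul, smul_eq_mul]
  have h3 : ∀ i : Fin n, ∑ j : Fin K, (z j).2 i * (v j).1 i =
      ∑ j : Fin K, (z (j + 1)).2 i * (v (j + 1)).1 i := fun i =>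
    (Equiv.sum_comp (Equiv.addRight (1 : Fin K)) (fun j => (z j).2 i * (v j).1 i)).symm
  have h4 : ActH_D S K z v = ∑ j : Fin K, (∑ i, ((z j).2 i * ((v (j + 1)).1 i - (v j).1 i) +
      ((z (j + 1)).1 i - (z j).1 i) * (v j).2 i) -
      fderiv ℝ (S j) ((z (j + 1)).1, (z j).2) ((v (j + 1)).1, (v j).2)) := by
    unfold ActH_D
    rw [ContinuousLinearMap.sum_apply]
    refine Finset.sum_congr rfl fun j _ => ?_
    rw [ContinuousLinearMap.sub_apply, ContinuousLinearMap.sum_apply]
    rfl
  rw [h4]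
  have h5 : ∀ j : Fin K, (∑ i, ((z j).2 i * ((v (j + 1)).1 i - (v j).1 i) +
      ((z (j + 1)).1 i - (z j).1 i) * (v j).2 i) -
      fderiv ℝ (S j) ((z (j + 1)).1, (z j).2) ((v (j + 1)).1, (v j).2)) =
      ∑ i, ((v j).2 i * ((z (j + 1)).1 i - (z j).1 i -
          fderiv ℝ (S j) ((z (j + 1)).1, (z j).2) (0, Pi.single i 1)) +
        (v (j + 1)).1 i * ((z j).2 i -
          fderiv ℝ (S j) ((z (j + 1)).1, (z j).2) (Pi.single i 1, 0))) -
      ∑ i, (z j).2 i * (v j).1 i := by
    intro j
    rw [h1, ← Finset.sum_sub_distrib, ← Finset.sum_sub_distrib]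
    refine Finset.sum_congr rfl fun i _ => ?_
    ring
  have h6 : ∑ j : Fin K, ∑ i, (z j).2 i * (v j).1 i =
      ∑ j : Fin K, ∑ i, (z (j + 1)).2 i * (v (j + 1)).1 i := by
    rw [Finset.sum_comm, Finset.sum_comm (s := Finset.univ) (t := Finset.univ)
      (f := fun (j : Fin K) i => (z (j + 1)).2 i * (v (j + 1)).1 i)]
    exact Finset.sum_congr rfl fun i _ => h3 i
  rw [Finset.sum_congr rfl fun j _ => h5 j, Finset.sum_sub_distrib, h6, ← Finset.sum_sub_distrib]
  refine Finset.sum_congr rfl fun j _ => ?_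
  rw [← Finset.sum_sub_distrib]
  refine Finset.sum_congr rfl fun i _ => ?_
  ring

theorem ActH_val (K : ℕ) [NeZero K] (j : Fin K) : ((j + 1 : Fin K) : ℕ) = ((j : ℕ) + 1) % K := by
  rw [Fin.val_add]
  show ((j : ℕ) + 1 % K) % K = _
  rw [Nat.add_mod_mod]

/-- discrete Euler-Lagrange equations -/
theorem ActH_crit (S : ℕ → Pt n → ℝ) (f : ℕ → Pt n → Pt n) (hS : ∀ j, Gen (S j) (f j)) (K : ℕ)
    [NeZero K] (z : Fin K → Pt n) :
    fderiv ℝ (action S K) z = 0 ↔ ∀ j : Fin K, f j (z j) = z (j + 1) := by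
  classical
  rw [(ActH_hasFDerivAt S (fun j => (hS j).smooth.differentiable (by norm_num)) K z).fderiv]
  constructor
  · intro h0 j
    rw [(hS j).rel]
    intro i
    constructor
    · have h1 : ActH_D S K z (Pi.single j (0, Pi.single i 1)) = 0 := by rw [h0]; rfl
      rw [ActH_EL, Finset.sum_eq_single j, Finset.sum_eq_single i] at h1
      · have h2 : ((Pi.single j ((0, Pi.single i 1) : Pt n) : Fin K → Pt n) (j + 1)).1 i = 0 := by
          by_cases hj : j + 1 = j
          · rw [hj, Pi.single_eq_same]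
            rfl
          · rw [Pi.single_eq_of_ne hj]
            rfl
        rw [h2, Pi.single_eq_same] at h1
        simp only [Pi.single_eq_same, one_mul, zero_mul, add_zero] at h1
        linarith
      · intro k _ hk
        have h2 : ((Pi.single j ((0, Pi.single i 1) : Pt n) : Fin K → Pt n) (j + 1)).1 k = 0 := by
          by_cases hj : j + 1 = j
          · rw [hj, Pi.single_eq_same]
            rfl
          · rw [Pi.single_eq_of_ne hj]
            rfl
        rw [h2, Pi.single_eq_same]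
        simp [Pi.single_eq_of_ne hk]
      · intro h; exact absurd (Finset.mem_univ _) h
      · intro k _ hk
        refine Finset.sum_eq_zero fun l _ => ?_
        have h2 : ((Pi.single j ((0, Pi.single i 1) : Pt n) : Fin K → Pt n) (k + 1)).1 l = 0 := by
          by_cases hj : k + 1 = j
          · rw [hj, Pi.single_eq_same]
            rfl
          · rw [Pi.single_eq_of_ne hj]
            rfl
        rw [h2, Pi.single_eq_of_ne hk]
        simp
      · intro h; exact absurd (Finset.mem_univ _) h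
    · have h1 : ActH_D S K z (Pi.single (j + 1) (Pi.single i 1, 0)) = 0 := by rw [h0]; rfl
      have h3 : ∀ k l, ((Pi.single (j + 1) ((Pi.single i 1, 0) : Pt n) : Fin K → Pt n) k).2 l =
          0 := by
        intro k l
        by_cases hj : k = j + 1
        · rw [hj, Pi.single_eq_same]
          rfl
        · rw [Pi.single_eq_of_ne hj]
          rfl
      rw [ActH_EL, Finset.sum_eq_single j, Finset.sum_eq_single i] at h1
      · rw [h3, Pi.single_eq_same] at h1
        simp only [Pi.single_eq_same, one_mul, zero_mul, zero_add] at h1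
        linarith
      · intro k _ hk
        rw [h3, Pi.single_eq_same]
        simp [Pi.single_eq_of_ne hk]
      · intro h; exact absurd (Finset.mem_univ _) h
      · intro k _ hk
        refine Finset.sum_eq_zero fun l _ => ?_
        have hk' : k + 1 ≠ j + 1 := fun h => hk (add_right_cancel h)
        rw [h3, Pi.single_eq_of_ne hk']
        simp
      · intro h; exact absurd (Finset.mem_univ _) h
  · intro h
    ext1 v
    rw [ActH_EL]
    show _ = (0 : ℝ)
    refine Finset.sum_eq_zero fun j _ => Finset.sum_eq_zero fun i _ => ?_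
    obtain ⟨h1, h2⟩ := ((hS j).rel (z j) (z (j + 1))).1 (h j) i
    rw [h1, h2]
    ring

/-- critical points are orbits -/
theorem crit_iff (S : ℕ → Pt n → ℝ) (f : ℕ → Pt n → Pt n) (hS : ∀ j, Gen (S j) (f j)) (K : ℕ)
    [NeZero K] (z : Fin K → Pt n) :
    fderiv ℝ (action S K) z = 0 ↔ flw f K (z 0) = z 0 ∧ z = oseq f K (z 0) := by
  rw [ActH_crit S f hS K z]
  constructor
  · intro h
    have h1 : ∀ (m : ℕ) (hm : m < K), z ⟨m, hm⟩ = flw f m (z 0) := by
      intro m
      induction m with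
      | zero =>
        intro hm
        show z _ = z 0
        congr 1
      | succ m ih =>
        intro hm
        have hm' : m < K := by omega
        have h2 := h ⟨m, hm'⟩
        rw [ih hm'] at h2
        show z _ = f m (flw f m (z 0))
        have h3 : (⟨m + 1, hm⟩ : Fin K) = ⟨m, hm'⟩ + 1 := by
          apply Fin.ext
          rw [ActH_val]
          exact (Nat.mod_eq_of_lt hm).symm
        rw [h3, ← h2]
    refine ⟨?_, ?_⟩
    · have hK : K ≠ 0 := NeZero.ne K
      obtain ⟨m, rfl⟩ : ∃ m, K = m + 1 := ⟨K - 1, by omega⟩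
      have h2 := h ⟨m, by omega⟩
      rw [h1 m (by omega)] at h2
      show f m (flw f m (z 0)) = z 0
      have h3 : (⟨m, by omega⟩ + 1 : Fin (m + 1)) = 0 := by
        apply Fin.ext
        rw [ActH_val]
        show (m + 1) % (m + 1) = 0
        exact Nat.mod_self _
      rw [h3] at h2
      exact h2
    · funext j
      exact h1 j j.2
  · rintro ⟨h1, h2⟩ j
    have h3 : ∀ j : Fin K, z j = flw f j (z 0) := fun j => congrFun h2 j
    rw [h3 j, h3 (j + 1), ActH_val]
    show flw f ((j : ℕ) + 1) (z 0) = _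
    by_cases hj : (j : ℕ) + 1 < K
    · rw [Nat.mod_eq_of_lt hj]
    · have hj' : (j : ℕ) + 1 = K := by have := j.2; omega
      rw [hj', Nat.mod_self, h1]
      rfl

end Pool.Agent.H47.QG
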