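import Pool.Agent.H47.QG.Act

/-!
# Shifts
-/

set_option autoImplicit false

open Module QuadraticForm

namespace Pool.Agent.H47.QG

variable {n : ℕ}

theorem actS_pow_apply (K : ℕ) [NeZero K] (N m : ℕ) (z : Fin K → Pt n) (j : Fin K) :
    (shiftN n K N ^ m) z j = z (j + Fin.ofNat K (m * N)) := by
  induction m generalizing z with
  | zero =>
    have : Fin.ofNat K (0 * N) = 0 := by
      apply Fin.ext
      simp
    rw [this]
    simp
  | succ m ih =>
    rw [pow_succ, Module.End.mul_apply, ih]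
    change z (j + Fin.ofNat K (m * N) + Fin.ofNat K N) = _
    congr 1
    apply Fin.ext
    simp only [Fin.val_add, Fin.val_ofNat, Nat.mod_add_mod, Nat.add_mod_mod]
    have e : (j : ℕ) + m * N + N = j + (m + 1) * N := by ring
    rw [← e, Nat.add_assoc, ← Nat.add_mod_mod]

theorem shiftN_pow (p N : ℕ) [NeZero (p * N)] : shiftN n (p * N) N ^ p = 1 := by
  apply LinearMap.ext
  intro z
  funext j
  rw [actS_pow_apply]
  have : Fin.ofNat (p * N) (p * N) = 0 := by
    apply Fin.ext
    simp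
  rw [this]
  simp

theorem actS_per (S : ℕ → Pt n → ℝ) (N : ℕ) (hN : ∀ j, S (j + N) = S j) (t r : ℕ) :
    S (r + N * t) = S r := by
  induction t with
  | zero => simp
  | succ t ih => rw [Nat.mul_succ, ← Nat.add_assoc, hN, ih]

theorem actS_mod (S : ℕ → Pt n → ℝ) (p N : ℕ) (hN : ∀ j, S (j + N) = S j) (m : ℕ) :
    S (m % (p * N)) = S m := by
  conv_rhs => rw [← Nat.mod_add_div m (p * N)]
  have : m % (p * N) + p * N * (m / (p * N)) = m % (p * N) + N * (p * (m / (p * N))) := by ring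
  rw [this, actS_per S N hN]

theorem action_shift (S : ℕ → Pt n → ℝ) (p N : ℕ) [NeZero (p * N)] (hN : ∀ j, S (j + N) = S j)
    (z : Fin (p * N) → Pt n) : action S (p * N) (shiftN n (p * N) N z) = action S (p * N) z := by
  unfold action
  rw [← Equiv.sum_comp (Equiv.addRight (Fin.ofNat (p * N) N))
    (fun j : Fin (p * N) => (∑ i, (z j).2 i * ((z (j + 1)).1 i - (z j).1 i) -
      S j ((z (j + 1)).1, (z j).2)))]
  refine Finset.sum_congr rfl fun j _ => ?_
  have hS : S ((j + Fin.ofNat (p * N) N : Fin (p * N)) : ℕ) = S j := by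
    rw [Fin.val_add, Fin.val_ofNat, Nat.add_mod_mod, actS_mod S p N hN, hN]
  have e : j + 1 + Fin.ofNat (p * N) N = j + Fin.ofNat (p * N) N + 1 := by
    rw [add_assoc, add_comm 1, ← add_assoc]
  simp only [Equiv.coe_addRight, hS]
  change (∑ i, (z (j + Fin.ofNat (p * N) N)).2 i * ((z (j + 1 + Fin.ofNat (p * N) N)).1 i -
    (z (j + Fin.ofNat (p * N) N)).1 i) - S j ((z (j + 1 + Fin.ofNat (p * N) N)).1,
    (z (j + Fin.ofNat (p * N) N)).2)) = _
  rw [e]

end Pool.Agent.H47.QG
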