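import Pool.Agent.H47.QG.DiscD

/-!
# Discretisation: ties, compactness
-/

set_option autoImplicit false

namespace Pool.Agent.H47.QG

variable {ι : Type*} [Fintype ι] [DecidableEq ι]

/-- Dyadic meshes have no ties for large exponents. -/
theorem no_tie (z : ℝ) : ∀ᶠ M : ℕ in Filter.atTop, ∀ a : ℤ, z * 2 ^ M ≠ a + 1 / 2 := by
  by_cases h : ∃ (M0 : ℕ) (a0 : ℤ), z * 2 ^ M0 = a0 + 1 / 2
  · obtain ⟨M0, a0, h0⟩ := h
    filter_upwards [Filter.eventually_gt_atTop M0] with M hM a ha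
    obtain ⟨d, rfl⟩ : ∃ d : ℕ, M = M0 + (d + 1) := ⟨M - M0 - 1, by omega⟩
    rw [pow_add, ← mul_assoc, h0, pow_succ] at ha
    have h1 : ((2 * (2 ^ d * (2 * a0 + 1)) : ℤ) : ℝ) = ((2 * a + 1 : ℤ) : ℝ) := by
      push_cast
      linarith
    have h2 : 2 * (2 ^ d * (2 * a0 + 1)) = 2 * a + 1 := by exact_mod_cast h1
    omega
  · push Not at h
    exact Filter.Eventually.of_forall fun M a => h M a

/-- Compactness: away from the critical points some partial derivative is bounded below, with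
constant sign on small cubes. -/
theorem exists_dir (g : (ι → ℝ) → ℝ) (hg : ContDiff ℝ 1 g) (K : Set (ι → ℝ)) (hK : IsCompact K)
    (h0 : ∀ x ∈ K, fderiv ℝ g x ≠ 0) :
    ∃ h₀ > 0, ∀ x ∈ K, ∃ (i : ι) (s : Bool), ∀ y, (∀ j, |y j - x j| ≤ h₀) →
      sg s * fderiv ℝ g y (Pi.single i 1) < 0 := by
  have hcont : ∀ i : ι, Continuous fun y => fderiv ℝ g y (Pi.single i 1) := fun i =>
    (hg.continuous_fderiv one_ne_zero).clm_apply continuous_const
  have hopen : ∀ p : ι × Bool, IsOpen {y | sg p.2 * fderiv ℝ g y (Pi.single p.1 1) < 0} :=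
    fun p => isOpen_lt (continuous_const.mul (hcont p.1)) continuous_const
  have hcov : K ⊆ ⋃ p : ι × Bool, {y | sg p.2 * fderiv ℝ g y (Pi.single p.1 1) < 0} := by
    intro x hx
    have h1 : ∃ i : ι, fderiv ℝ g x (Pi.single i 1) ≠ 0 := by
      by_contra hcon
      push Not at hcon
      apply h0 x hx
      ext v
      have h2 := LinearMap.pi_apply_eq_sum_univ ((fderiv ℝ g x : (ι → ℝ) →L[ℝ] ℝ) :
        (ι → ℝ) →ₗ[ℝ] ℝ) v
      rw [ContinuousLinearMap.coe_coe] at h2
      rw [h2]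
      apply Finset.sum_eq_zero
      intro i _
      have h3 := hcon i
      have h4 : (fun j => if i = j then (1 : ℝ) else 0) = Pi.single i 1 := by
        ext j
        by_cases hij : i = j
        · subst hij
          simp
        · rw [if_neg hij, Pi.single_eq_of_ne (Ne.symm hij)]
      rw [h4, h3, smul_zero]
    obtain ⟨i, hi⟩ := h1
    rw [Set.mem_iUnion]
    rcases lt_or_gt_of_ne hi with h | h
    · refine ⟨(i, true), ?_⟩
      simpa [sg] using h
    · refine ⟨(i, false), ?_⟩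
      simpa [sg] using h
  obtain ⟨δ, hδ, hL⟩ := lebesgue_number_lemma_of_metric hK hopen hcov
  refine ⟨δ / 2, half_pos hδ, fun x hx => ?_⟩
  obtain ⟨p, hp⟩ := hL x hx
  refine ⟨p.1, p.2, fun y hy => ?_⟩
  apply hp
  rw [Metric.mem_ball]
  refine lt_of_le_of_lt ?_ (half_lt_self hδ)
  rw [dist_pi_le_iff (half_pos hδ).le]
  intro j
  rw [Real.dist_eq]
  exact hy j

end Pool.Agent.H47.QG
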