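import Pool.Agent.H47.QG.DiscD

/-!
# Discretisation: lifting of neighbours
-/

set_option autoImplicit false

namespace Pool.Agent.H47.QG

variable {ι : Type*} [Fintype ι] [DecidableEq ι]

/-- periodicity for integer translations in the circle coordinates -/
theorem DiscL_per (kd : ι → Kind) (g : (ι → ℝ) → ℝ) (hg : Per kd g) (z : ι → ℤ)
    (hz : ∀ i, kd i ≠ Kind.th → z i = 0) (x : ι → ℝ) : g (x + fun i => (z i : ℝ)) = g x := by
  have hnat : ∀ (n : ℕ) (i : ι), kd i = Kind.th → ∀ y : ι → ℝ,
      g (y + Pi.single i (n : ℝ)) = g y := by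
    intro n
    induction n with
    | zero =>
      intro i _ y
      simp
    | succ n ih =>
      intro i hi y
      have h1 : y + Pi.single i ((n + 1 : ℕ) : ℝ) = (y + Pi.single i (n : ℝ)) + Pi.single i 1 := by
        rw [add_assoc, ← Pi.single_add]
        push_cast
        rfl
      rw [h1, hg _ i hi, ih i hi]
  have hint : ∀ (n : ℤ) (i : ι), kd i = Kind.th → ∀ y : ι → ℝ,
      g (y + Pi.single i (n : ℝ)) = g y := by
    intro n i hi y
    obtain ⟨k, rfl | rfl⟩ := n.eq_nat_or_neg
    · exact_mod_cast hnat k i hi y
    · have h1 := hnat k i hi (y + Pi.single i (((-(k : ℤ) : ℤ)) : ℝ))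
      rw [← h1, add_assoc, ← Pi.single_add]
      simp
  have hsum : ∀ T : Finset ι, g (x + ∑ i ∈ T, Pi.single i (z i : ℝ)) = g x := by
    intro T
    induction T using Finset.induction_on with
    | empty => simp
    | insert a T ha ih =>
      rw [Finset.sum_insert ha]
      have hc : x + (Pi.single a (z a : ℝ) + ∑ i ∈ T, (Pi.single i (z i : ℝ) : ι → ℝ)) =
          (x + ∑ i ∈ T, (Pi.single i (z i : ℝ) : ι → ℝ)) + Pi.single a (z a : ℝ) := by
        abel
      rw [hc]
      by_cases hk : kd a = Kind.th
      · rw [hint _ a hk, ih]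
      · rw [hz a hk]
        simpa using ih
  have h := hsum Finset.univ
  rw [Finset.univ_sum_single (fun i => (z i : ℝ))] at h
  exact h

/-- one step in one coordinate -/
theorem DiscL_step (k : Kind) {m : ℕ} [NeZero m] (hm : 2 ≤ m) (a : ZMod m) (s : Bool)
    (hok : ok1 m k (edg a s)) (hup : k = Kind.up → a ≠ 0 ∧ a + stp m s ≠ 0) :
    ∃ z : ℤ, (k ≠ Kind.th → z = 0) ∧
      (((a + stp m s).val : ℝ)) / m = (a.val : ℝ) / m + sg s / m + z := by
  have hm0 : (m : ℝ) ≠ 0 := by
    have := NeZero.ne m
    exact_mod_cast this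
  have : Fact (1 < m) := ⟨by omega⟩
  cases s with
  | true =>
    have hst : stp m true = 1 := rfl
    have hsg : sg true = 1 := rfl
    rw [hst, hsg]
    rw [hst] at hup
    by_cases h : a.val + 1 < m
    · refine ⟨0, fun _ => rfl, ?_⟩
      have h1 : (a + 1).val = a.val + 1 := by
        rw [ZMod.val_add, ZMod.val_one, Nat.mod_eq_of_lt h]
      rw [h1]
      push_cast
      ring
    · have h2 : a.val + 1 = m := by
        have := a.val_lt
        omega
      have h3 : a + 1 = 0 := by
        have h4 : (a + 1).val = 0 := by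
          rw [ZMod.val_add, ZMod.val_one, h2, Nat.mod_self]
        exact (ZMod.val_eq_zero _).1 h4
      refine ⟨-1, fun hk => ?_, ?_⟩
      · exfalso
        cases k with
        | th => exact hk rfl
        | up => exact (hup rfl).2 h3
        | dn =>
          apply hok.2 rfl
          show (a, true) = (-1, true)
          rw [eq_neg_of_add_eq_zero_left h3]
      · rw [h3, ZMod.val_zero]
        have h5 : (a.val : ℝ) = m - 1 := by
          have : ((a.val + 1 : ℕ) : ℝ) = m := by rw [h2]
          push_cast at this
          linarith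
        rw [h5]
        field_simp
        push_cast
        ring
  | false =>
    have hst : stp m false = -1 := rfl
    have hsg : sg false = -1 := rfl
    rw [hst, hsg]
    rw [hst] at hup
    by_cases h : a = 0
    · subst h
      refine ⟨1, fun hk => ?_, ?_⟩
      · exfalso
        cases k with
        | th => exact hk rfl
        | up => exact (hup rfl).1 rfl
        | dn =>
          apply hok.2 rfl
          show ((0 : ZMod m) - 1, true) = (-1, true)
          rw [zero_sub]
      · have h4 : ((0 : ZMod m) + -1).val = m - 1 := by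
          rw [zero_add, ZMod.neg_val, if_neg one_ne_zero, ZMod.val_one]
        rw [h4, ZMod.val_zero]
        have h5 : ((m - 1 : ℕ) : ℝ) = m - 1 := by
          rw [Nat.cast_sub (by omega)]
          simp
        rw [h5]
        field_simp
        push_cast
        ring
    · refine ⟨0, fun _ => rfl, ?_⟩
      have hpos : 0 < a.val := Nat.pos_of_ne_zero fun h' => h ((ZMod.val_eq_zero _).1 h')
      have h1 : (a + -1).val + 1 = a.val := by
        have h2 : ((a + -1) + 1).val = ((a + -1).val + 1) % m := by
          rw [ZMod.val_add, ZMod.val_one]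
        have h3 : (a + -1) + 1 = a := by ring
        rw [h3] at h2
        have h4 : (a + -1).val < m := ZMod.val_lt _
        by_cases h5 : (a + -1).val + 1 < m
        · rw [Nat.mod_eq_of_lt h5] at h2
          exact h2.symm
        · exfalso
          have h6 : (a + -1).val + 1 = m := by omega
          rw [h6, Nat.mod_self] at h2
          omega
      have h7 : ((a + -1).val : ℝ) = a.val - 1 := by
        have : (((a + -1).val + 1 : ℕ) : ℝ) = a.val := by rw [h1]
        push_cast at this
        linarith
      rw [h7]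
      push_cast
      ring

theorem DiscL_stp_ne {m : ℕ} (hm : 2 ≤ m) (s : Bool) : stp m s ≠ 0 := by
  have : Fact (1 < m) := ⟨by omega⟩
  cases s with
  | true => exact one_ne_zero
  | false => exact neg_ne_zero.2 one_ne_zero

/-- Lifting of neighbours: if `w` is near `v` (both not removed) then the value at `w` is the
value of `g` at the corresponding neighbour of `pos v` in `ℝ^ι`. -/
theorem lift_near (kd : ι → Kind) {m : ℕ} [NeZero m] (hm : 4 ≤ m) (g : (ι → ℝ) → ℝ)
    (hg : Per kd g) (v w : ι → ZMod m) (hv : ¬ Rem kd v) (hw : ¬ Rem kd w)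
    (hn : Near kd v w) :
    ∃ t : ι → ℝ, (∀ i, (w i = v i ∧ t i = 0) ∨ ∃ s, w i = v i + stp m s ∧ t i = sg s / m) ∧
      g (pos w) = g (pos v + t) ∧
      ∀ i s, w i = v i → ok1 m (kd i) (edg (v i) s) → ¬ Rem kd (mv w i s) →
        g (pos (mv w i s)) = g (pos v + t + Pi.single i (sg s / m)) := by
  have key : ∀ i, ∃ (t : ℝ) (z : ℤ), ((w i = v i ∧ t = 0) ∨ ∃ s, w i = v i + stp m s ∧
      t = sg s / m) ∧ (kd i ≠ Kind.th → z = 0) ∧ pos w i = pos v i + t + z := by
    intro i
    by_cases h : w i = v i
    · refine ⟨0, 0, Or.inl ⟨h, rfl⟩, fun _ => rfl, ?_⟩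
      simp [pos, h]
    · rcases hn i with h' | ⟨s, hok, hs⟩
      · exact absurd h' h
      · obtain ⟨z, hz, he⟩ := DiscL_step (kd i) (by omega) (v i) s hok fun hk =>
          ⟨fun h0 => hv ⟨i, hk, h0⟩, fun h0 => hw ⟨i, hk, by rw [hs, h0]⟩⟩
        refine ⟨sg s / m, z, Or.inr ⟨s, hs, rfl⟩, hz, ?_⟩
        show ((w i).val : ℝ) / m = ((v i).val : ℝ) / m + sg s / m + z
        rw [hs, he]
  choose t z ht hz hp using key
  refine ⟨t, ht, ?_, ?_⟩
  · have h1 : pos w = (pos v + t) + fun i => (z i : ℝ) := funext fun i => hp i
    rw [h1, DiscL_per kd g hg z hz]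
  · intro i s hi hok hrem
    have hti : t i = 0 := by
      rcases ht i with ⟨-, h⟩ | ⟨s', h, -⟩
      · exact h
      · exfalso
        rw [hi] at h
        exact DiscL_stp_ne (m := m) (by omega) s' (by
          have h2 : v i + 0 = v i + stp m s' := by rw [add_zero]; exact h
          exact (add_left_cancel h2).symm)
    have hmvi : mv w i s i = v i + stp m s := by simp [mv, hi]
    obtain ⟨z', hz', he⟩ := DiscL_step (kd i) (by omega) (v i) s hok fun hk =>
      ⟨fun h0 => hv ⟨i, hk, h0⟩, fun h0 => hrem ⟨i, hk, by rw [hmvi, h0]⟩⟩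
    have h1 : pos (mv w i s) = (pos v + t + Pi.single i (sg s / m)) +
        fun j => ((Function.update z i z' j : ℤ) : ℝ) := by
      funext j
      by_cases hj : j = i
      · subst hj
        show ((mv w j s j).val : ℝ) / m = _
        rw [hmvi, he]
        simp [pos, hti]
      · have h2 : mv w i s j = w j := by simp [mv, hj]
        show ((mv w i s j).val : ℝ) / m = _
        rw [h2]
        have h3 : ((w j).val : ℝ) / m = pos v j + t j + z j := hp j
        rw [h3]
        simp [hj]
    rw [h1, DiscL_per kd g hg]
    intro j hj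
    by_cases hji : j = i
    · subst hji
      rw [Function.update_self]
      exact hz' hj
    · rw [Function.update_of_ne hji]
      exact hz j hj

omit [Fintype ι] [DecidableEq ι] in
theorem DiscL_near_self (kd : ι → Kind) {m : ℕ} (v : ι → ZMod m) : Near kd v v :=
  fun _ => Or.inl rfl

/-- the value at a single neighbour -/
theorem DiscL_single (kd : ι → Kind) {m : ℕ} [NeZero m] (hm : 4 ≤ m) (g : (ι → ℝ) → ℝ)
    (hg : Per kd g) (v : ι → ZMod m) (hv : ¬ Rem kd v) (i : ι) (s : Bool)
    (hok : ok1 m (kd i) (edg (v i) s)) (hr : ¬ Rem kd (mv v i s)) :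
    g (pos (mv v i s)) = g (pos v + Pi.single i (sg s / m)) := by
  obtain ⟨t, ht, -, h3⟩ := lift_near kd hm g hg v v hv hv (DiscL_near_self kd v)
  have ht0 : t = 0 := by
    funext j
    rcases ht j with ⟨-, h⟩ | ⟨s', h, -⟩
    · exact h
    · exfalso
      exact DiscL_stp_ne (m := m) (by omega) s' (by
        have h2 : v j + 0 = v j + stp m s' := by rw [add_zero]; exact h
        exact (add_left_cancel h2).symm)
  have h4 := h3 i s rfl hok hr
  rw [ht0, add_zero] at h4
  exact h4

/-- Regular vertices: if `g` decreases in direction `s` of coordinate `i` from all points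
`pos v + t` with `|t j| ≤ 1/m`, `t i = 0`, and increases from `pos v` in the other direction, and
the boundary is respected, then `v` is regular. -/
theorem reg_of (kd : ι → Kind) {m : ℕ} [NeZero m] (hm : 4 ≤ m) (g : (ι → ℝ) → ℝ)
    (hg : Per kd g) (v : ι → ZMod m) (hv : ¬ Rem kd v) (i : ι) (s : Bool)
    (he : ok1 m (kd i) (edg (v i) s))
    (hr : kd i = Kind.up → v i + stp m (!s) ≠ 0)
    (h1 : ∀ t : ι → ℝ, t i = 0 → (∀ j, |t j| ≤ 1 / m) →
      g (pos v + t + Pi.single i (sg s / m)) < g (pos v + t))
    (h2 : g (pos v) < g (pos v + Pi.single i (sg (!s) / m))) :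
    Reg kd (fun v => g (pos v)) v i s := by
  refine ⟨he, ?_, ?_⟩
  · intro w hnear hwi hw hmw
    obtain ⟨t, ht, h3, h4⟩ := lift_near kd hm g hg v w hv hw hnear
    have hti : t i = 0 := by
      rcases ht i with ⟨-, h⟩ | ⟨s', h, -⟩
      · exact h
      · exfalso
        rw [hwi] at h
        exact DiscL_stp_ne (m := m) (by omega) s' (by
          have h2 : v i + 0 = v i + stp m s' := by rw [add_zero]; exact h
          exact (add_left_cancel h2).symm)
    have htb : ∀ j, |t j| ≤ 1 / m := by
      intro j
      rcases ht j with ⟨-, h⟩ | ⟨s', -, h⟩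
      · rw [h, abs_zero]
        positivity
      · rw [h]
        cases s' with
        | true => simp [sg]
        | false => simp [sg, abs_div]
    show g (pos (mv w i s)) < g (pos w)
    rw [h4 i s hwi he hmw, h3]
    exact h1 t hti htb
  · intro hok
    have hnr : ¬ Rem kd (mv v i (!s)) := by
      rintro ⟨j, hj, hj0⟩
      by_cases hji : j = i
      · subst hji
        apply hr hj
        simpa [mv] using hj0
      · apply hv
        refine ⟨j, hj, ?_⟩
        simpa [mv, hji] using hj0
    refine ⟨hnr, ?_⟩
    show g (pos v) < g (pos (mv v i (!s)))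
    rw [DiscL_single kd hm g hg v hv i (!s) hok hnr]
    exact h2

/-- Critical vertices. -/
theorem cri_of (kd : ι → Kind) {m : ℕ} [NeZero m] (hm : 4 ≤ m) (g : (ι → ℝ) → ℝ)
    (hg : Per kd g) (v : ι → ZMod m) (hv : ¬ Rem kd v) (e : ι → Bool)
    (hin : ∀ i, kd i ≠ Kind.th → 1 < (v i).val ∧ (v i).val < m - 1)
    (h1 : ∀ i, e i = false → ∀ s, g (pos v) < g (pos v + Pi.single i (sg s / m)))
    (h2 : ∀ t : ι → ℝ, (∀ i, e i = false → t i = 0) → (∀ j, t j = 0 ∨ t j = 1 / m ∨ t j = -(1 / m)) →
      t ≠ 0 → g (pos v + t) < g (pos v)) :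
    Cri kd (fun v => g (pos v)) v e := by
  have : Fact (1 < m) := ⟨by omega⟩
  have hstep : ∀ i s, kd i ≠ Kind.th → v i + stp m s ≠ 0 := by
    intro i s hk h0
    obtain ⟨ha, hb⟩ := hin i hk
    cases s with
    | true =>
      have h3 : (v i + 1).val = (v i).val + 1 := by
        rw [ZMod.val_add, ZMod.val_one, Nat.mod_eq_of_lt (by omega)]
      have h4 : v i + 1 = 0 := h0
      rw [h4, ZMod.val_zero] at h3
      omega
    | false =>
      have h4 : v i + -1 = 0 := h0
      have h5 : v i = 1 := by
        have h6 : v i = (v i + -1) + 1 := by ring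
        rw [h6, h4, zero_add]
      rw [h5, ZMod.val_one] at ha
      omega
  have hedge : ∀ i s, ok1 m (kd i) (edg (v i) s) := by
    intro i s
    refine ⟨fun _ h => ?_, fun hk h => ?_⟩
    · cases s with
      | true => exact absurd (congrArg Prod.snd h) (by simp [edg])
      | false => exact absurd (congrArg Prod.snd h) (by simp [edg])
    · have hk' : kd i ≠ Kind.th := by rw [hk]; simp
      cases s with
      | true =>
        have h3 : v i = -1 := congrArg Prod.fst h
        apply hstep i true hk'
        show v i + 1 = 0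
        rw [h3]
        ring
      | false =>
        have h3 : v i - 1 = -1 := congrArg Prod.fst h
        have h4 : v i = 0 := by
          have h5 : v i = (v i - 1) + 1 := by ring
          rw [h5, h3]
          ring
        obtain ⟨ha, -⟩ := hin i hk'
        rw [h4, ZMod.val_zero] at ha
        omega
  refine ⟨fun i _ s => hedge i s, ?_, ?_⟩
  · intro i hi s hok
    have hnr : ¬ Rem kd (mv v i s) := by
      rintro ⟨j, hj, hj0⟩
      by_cases hji : j = i
      · subst hji
        apply hstep j s (by rw [hj]; simp)
        simpa [mv] using hj0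
      · apply hv
        refine ⟨j, hj, ?_⟩
        simpa [mv, hji] using hj0
    refine ⟨hnr, ?_⟩
    show g (pos v) < g (pos (mv v i s))
    rw [DiscL_single kd hm g hg v hv i s hok hnr]
    exact h1 i hi s
  · intro w hnear hwe hne hw
    obtain ⟨t, ht, h3, -⟩ := lift_near kd hm g hg v w hv hw hnear
    have ht0 : ∀ i, w i = v i → t i = 0 := by
      intro i hi
      rcases ht i with ⟨-, h⟩ | ⟨s', h, -⟩
      · exact h
      · exfalso
        rw [hi] at h
        exact DiscL_stp_ne (m := m) (by omega) s' (by
          have h2 : v i + 0 = v i + stp m s' := by rw [add_zero]; exact h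
          exact (add_left_cancel h2).symm)
    show g (pos w) < g (pos v)
    rw [h3]
    refine h2 t (fun i hi => ht0 i (hwe i hi)) ?_ ?_
    · intro j
      rcases ht j with ⟨-, h⟩ | ⟨s', -, h⟩
      · exact Or.inl h
      · cases s' with
        | true =>
          right; left
          rw [h]
          rfl
        | false =>
          right; right
          rw [h]
          show (-1 : ℝ) / m = -(1 / m)
          ring
    · intro h0
      apply hne
      funext i
      rcases ht i with ⟨h, -⟩ | ⟨s', -, h⟩
      · exact h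
      · exfalso
        have hmr : (m : ℝ) ≠ 0 := by
          have := NeZero.ne m
          exact_mod_cast this
        have h5 : sg s' / (m : ℝ) = 0 := by
          rw [← h, h0]
          rfl
        rcases div_eq_zero_iff.1 h5 with h6 | h6
        · cases s' with
          | true => simp [sg] at h6
          | false => simp [sg] at h6
        · exact hmr h6

end Pool.Agent.H47.QG
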