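import Pool.Agent.H47.QG.DiscD

/-!
# Discretisation: quadratic functions, monotone functions
-/

set_option autoImplicit false

namespace Pool.Agent.H47.QG

variable {ι : Type*} [Fintype ι] [DecidableEq ι]

/-- change of one coordinate in a sum of squares -/
theorem DiscQ_sum (y z c : ι → ℝ) (i : ι) (d : ℝ) :
    ∑ j, c j * ((y + Pi.single i d : ι → ℝ) j - z j) ^ 2 =
      ∑ j, c j * (y j - z j) ^ 2 + c i * (2 * (y i - z i) * d + d ^ 2) := by
  have h1 : ∀ j, c j * ((y + Pi.single i d : ι → ℝ) j - z j) ^ 2 =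
      c j * (y j - z j) ^ 2 + if j = i then c i * (2 * (y i - z i) * d + d ^ 2) else 0 := by
    intro j
    by_cases hj : j = i
    · subst hj
      rw [if_pos rfl, Pi.add_apply, Pi.single_eq_same]
      ring
    · rw [if_neg hj, Pi.add_apply, Pi.single_eq_of_ne hj, add_zero, add_zero]
  rw [Finset.sum_congr rfl (fun j _ => h1 j), Finset.sum_add_distrib, Finset.sum_ite_eq']
  simp

theorem DiscQ_sg (s : Bool) : sg s = 1 ∨ sg s = -1 := by
  cases s
  · right; simp [sg]
  · left; simp [sg]

theorem DiscQ_tt : sg true = 1 := by simp [sg]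

theorem DiscQ_ff : sg false = -1 := by simp [sg]

theorem DiscQ_not (s : Bool) : sg (!s) = - sg s := by
  cases s <;> simp [sg]

theorem DiscQ_abs (s : Bool) (h : ℝ) (hh : 0 < h) : |sg s * h| = h := by
  rcases DiscQ_sg s with h1 | h1 <;> rw [h1]
  · rw [one_mul, abs_of_pos hh]
  · rw [neg_one_mul, abs_neg, abs_of_pos hh]

/-- the change of `g` along one coordinate -/
theorem DiscQ_step (z c : ι → ℝ) (h : ℝ) (hh : 0 < h) (r : ℝ) (g : (ι → ℝ) → ℝ)
    (hst : ∀ y, (∀ i, |y i - z i| < r) → g y = g z + ∑ i, c i * (y i - z i) ^ 2)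
    (y : ι → ℝ) (hy : ∀ i, |y i - z i| < r - h) (i : ι) (s : Bool) :
    g (y + Pi.single i (sg s * h)) = g y + c i * h * (2 * (y i - z i) * sg s + h) := by
  have h1 : ∀ j, |(y + Pi.single i (sg s * h) : ι → ℝ) j - z j| < r := by
    intro j
    by_cases hj : j = i
    · subst hj
      rw [Pi.add_apply, Pi.single_eq_same]
      have h2 : y j + sg s * h - z j = (y j - z j) + sg s * h := by ring
      rw [h2]
      calc |(y j - z j) + sg s * h| ≤ |y j - z j| + |sg s * h| := abs_add_le _ _
        _ < r := by rw [DiscQ_abs s h hh]; linarith [hy j]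
    · rw [Pi.add_apply, Pi.single_eq_of_ne hj, add_zero]
      linarith [hy j]
  have h2 : ∀ j, |y j - z j| < r := fun j => by linarith [hy j]
  rw [hst _ h1, hst _ h2, DiscQ_sum]
  have h3 : sg s ^ 2 = 1 := by
    rcases DiscQ_sg s with h1 | h1 <;> rw [h1] <;> norm_num
  have h4 : c i * (2 * (y i - z i) * (sg s * h) + (sg s * h) ^ 2) =
      c i * h * (2 * (y i - z i) * sg s + sg s ^ 2 * h) := by ring
  rw [h4, h3]
  ring

/-- Near a point where `g` is `const + ∑ c i (x i - z i)^2`: a grid point which is not the one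
nearest to `z`. Here `a i` is the grid coordinate of `pos v + (integers)` near `z i` and
`z i` is not the middle of two neighbouring grid points. -/
theorem quad_reg (x z c : ι → ℝ) (h : ℝ) (hh : 0 < h) (r : ℝ) (g : (ι → ℝ) → ℝ)
    (hc : ∀ i, c i ≠ 0) (hst : ∀ y, (∀ i, |y i - z i| < r) → g y = g z + ∑ i, c i * (y i - z i) ^ 2)
    (hx : ∀ i, |x i - z i| < r - 2 * h) (i : ι) (hi : h / 2 < |x i - z i|) :
    ∃ s : Bool, (∀ t : ι → ℝ, t i = 0 → (∀ j, |t j| ≤ h) →
      g (x + t + Pi.single i (sg s * h)) < g (x + t)) ∧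
      g x < g (x + Pi.single i (sg (!s) * h)) := by
  -- it is enough to choose the sign
  have key : ∃ s : Bool, c i * (2 * (x i - z i) * sg s + h) < 0 ∧
      0 < c i * (2 * (x i - z i) * sg (!s) + h) := by
    rcases lt_or_gt_of_ne (hc i) with hc' | hc'
    · rcases lt_abs.mp hi with h1 | h1
      · refine ⟨true, ?_, ?_⟩
        · apply mul_neg_of_neg_of_pos hc'
          rw [DiscQ_tt]; linarith
        · apply mul_pos_of_neg_of_neg hc'
          rw [DiscQ_not, DiscQ_tt]; linarith
      · refine ⟨false, ?_, ?_⟩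
        · apply mul_neg_of_neg_of_pos hc'
          rw [DiscQ_ff]; linarith
        · apply mul_pos_of_neg_of_neg hc'
          rw [DiscQ_not, DiscQ_ff]; linarith
    · rcases lt_abs.mp hi with h1 | h1
      · refine ⟨false, ?_, ?_⟩
        · apply mul_neg_of_pos_of_neg hc'
          rw [DiscQ_ff]; linarith
        · apply mul_pos hc'
          rw [DiscQ_not, DiscQ_ff]; linarith
      · refine ⟨true, ?_, ?_⟩
        · apply mul_neg_of_pos_of_neg hc'
          rw [DiscQ_tt]; linarith
        · apply mul_pos hc'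
          rw [DiscQ_not, DiscQ_tt]; linarith
  obtain ⟨s, hs1, hs2⟩ := key
  refine ⟨s, ?_, ?_⟩
  · intro t ht0 ht
    have hy : ∀ j, |(x + t) j - z j| < r - h := by
      intro j
      have h2 : (x + t) j - z j = (x j - z j) + t j := by rw [Pi.add_apply]; ring
      rw [h2]
      calc |(x j - z j) + t j| ≤ |x j - z j| + |t j| := abs_add_le _ _
        _ < r - h := by linarith [hx j, ht j]
    rw [DiscQ_step z c h hh r g hst (x + t) hy i s]
    have h3 : (x + t) i - z i = x i - z i := by rw [Pi.add_apply, ht0, add_zero]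
    rw [h3]
    have h4 : c i * h * (2 * (x i - z i) * sg s + h) = (c i * (2 * (x i - z i) * sg s + h)) * h := by
      ring
    rw [h4]
    have := mul_neg_of_neg_of_pos hs1 hh
    linarith
  · have hy : ∀ j, |x j - z j| < r - h := fun j => by linarith [hx j]
    rw [DiscQ_step z c h hh r g hst x hy i (!s)]
    have h4 : c i * h * (2 * (x i - z i) * sg (!s) + h) =
        (c i * (2 * (x i - z i) * sg (!s) + h)) * h := by ring
    rw [h4]
    have := mul_pos hs2 hh
    linarith

/-- Near a point where `g` is `const + ∑ c i (x i - z i)^2`: the nearest grid point. -/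
theorem quad_cri (x z c : ι → ℝ) (h : ℝ) (hh : 0 < h) (r : ℝ) (g : (ι → ℝ) → ℝ)
    (hc : ∀ i, c i ≠ 0) (hst : ∀ y, (∀ i, |y i - z i| < r) → g y = g z + ∑ i, c i * (y i - z i) ^ 2)
    (hr : 2 * h < r) (hx : ∀ i, |x i - z i| < h / 2) :
    (∀ i, 0 < c i → ∀ s, g x < g (x + Pi.single i (sg s * h))) ∧
    (∀ t : ι → ℝ, (∀ i, 0 < c i → t i = 0) → (∀ j, t j = 0 ∨ t j = h ∨ t j = -h) →
      t ≠ 0 → g (x + t) < g x) := by
  constructor
  · intro i hci s
    have hy : ∀ j, |x j - z j| < r - h := fun j => by linarith [hx j]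
    rw [DiscQ_step z c h hh r g hst x hy i s]
    have h1 : 0 < 2 * (x i - z i) * sg s + h := by
      have h2 := abs_lt.mp (hx i)
      rcases DiscQ_sg s with h3 | h3 <;> rw [h3] <;> linarith [h2.1, h2.2]
    have h4 := mul_pos (mul_pos hci hh) h1
    linarith
  · intro t ht0 ht htne
    have habs : ∀ j, |t j| ≤ h := by
      intro j
      rcases ht j with h1 | h1 | h1 <;> rw [h1]
      · rw [abs_zero]; exact hh.le
      · rw [abs_of_pos hh]
      · rw [abs_neg, abs_of_pos hh]
    have h1 : ∀ j, |(x + t) j - z j| < r := by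
      intro j
      have h2 : (x + t) j - z j = (x j - z j) + t j := by rw [Pi.add_apply]; ring
      rw [h2]
      calc |(x j - z j) + t j| ≤ |x j - z j| + |t j| := abs_add_le _ _
        _ < r := by linarith [hx j, habs j]
    have h2 : ∀ j, |x j - z j| < r := fun j => by linarith [hx j]
    rw [hst _ h1, hst _ h2]
    have hterm : ∀ j, c j * ((x + t) j - z j) ^ 2 ≤ c j * (x j - z j) ^ 2 ∧
        (t j ≠ 0 → c j * ((x + t) j - z j) ^ 2 < c j * (x j - z j) ^ 2) := by
      intro j
      by_cases htj : t j = 0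
      · rw [Pi.add_apply, htj, add_zero]
        exact ⟨le_refl _, fun hne => absurd rfl hne⟩
      · have hcj : c j < 0 := by
          rcases lt_or_gt_of_ne (hc j) with h5 | h5
          · exact h5
          · exact absurd (ht0 j h5) htj
        have h6 : (x j - z j) ^ 2 < ((x + t) j - z j) ^ 2 := by
          have h7 := abs_lt.mp (hx j)
          have h8 : ((x + t) j - z j) ^ 2 = (x j - z j) ^ 2 + t j * (2 * (x j - z j) + t j) := by
            rw [Pi.add_apply]; ring
          rw [h8]
          have h9 : 0 < t j * (2 * (x j - z j) + t j) := by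
            rcases ht j with h10 | h10 | h10
            · exact absurd h10 htj
            · rw [h10]
              exact mul_pos hh (by linarith [h7.1])
            · rw [h10]
              exact mul_pos_of_neg_of_neg (by linarith) (by linarith [h7.2])
          linarith
        have h11 := mul_lt_mul_of_neg_left h6 hcj
        exact ⟨h11.le, fun _ => h11⟩
    obtain ⟨j, hj⟩ : ∃ j, t j ≠ 0 := by
      by_contra hcon
      push Not at hcon
      exact htne (funext hcon)
    have h12 : ∑ j, c j * ((x + t) j - z j) ^ 2 < ∑ j, c j * (x j - z j) ^ 2 :=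
      Finset.sum_lt_sum (fun k _ => (hterm k).1) ⟨j, Finset.mem_univ j, (hterm j).2 hj⟩
    linarith

/-- monotonicity along a coordinate line -/
theorem DiscQ_anti (g : (ι → ℝ) → ℝ) (hg : ContDiff ℝ 1 g) (x t : ι → ℝ) (h : ℝ)
    (i : ι) (s : Bool) (ht0 : t i = 0) (ht : ∀ j, |t j| ≤ h)
    (hs : ∀ y, (∀ j, |y j - x j| ≤ h) → sg s * fderiv ℝ g y (Pi.single i 1) < 0) :
    StrictAntiOn (fun v : ℝ => g (x + t + Pi.single i (sg s * v))) (Set.Icc (-h) h) := by
  have hd : ∀ v : ℝ, HasDerivAt (fun v : ℝ => g (x + t + Pi.single i (sg s * v)))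
      (sg s * fderiv ℝ g (x + t + Pi.single i (sg s * v)) (Pi.single i 1)) v := by
    intro v
    have h1 : HasDerivAt (fun v : ℝ => x + t + v • (Pi.single i (sg s) : ι → ℝ))
        (Pi.single i (sg s) : ι → ℝ) v := by
      have h2 := ((hasDerivAt_id v).smul_const (Pi.single i (sg s) : ι → ℝ)).const_add (x + t)
      simpa using h2
    have heq : ∀ v : ℝ, x + t + v • (Pi.single i (sg s) : ι → ℝ) =
        x + t + Pi.single i (sg s * v) := by
      intro v
      congr 1
      ext j
      by_cases hj : j = i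
      · subst hj
        simp [mul_comm]
      · simp [Pi.single_eq_of_ne hj]
    have h3 : HasFDerivAt g (fderiv ℝ g (x + t + v • (Pi.single i (sg s) : ι → ℝ)))
        (x + t + v • (Pi.single i (sg s) : ι → ℝ)) :=
      ((hg.differentiable one_ne_zero) _).hasFDerivAt
    have h4 := h3.comp_hasDerivAt v h1
    have h5 : (g ∘ fun v : ℝ => x + t + v • (Pi.single i (sg s) : ι → ℝ)) =
        fun v : ℝ => g (x + t + Pi.single i (sg s * v)) := by
      funext v
      simp only [Function.comp_apply, heq]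
    rw [h5, heq v] at h4
    have h6 : (Pi.single i (sg s) : ι → ℝ) = sg s • (Pi.single i 1 : ι → ℝ) := by
      ext j
      by_cases hj : j = i
      · subst hj
        simp
      · simp [Pi.single_eq_of_ne hj]
    rw [h6, map_smul, smul_eq_mul] at h4
    exact h4
  apply strictAntiOn_of_deriv_neg (convex_Icc _ _)
  · exact fun v _ => (hd v).continuousAt.continuousWithinAt
  · intro v hv
    rw [interior_Icc] at hv
    rw [(hd v).deriv]
    apply hs
    intro j
    by_cases hj : j = i
    · subst hj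
      have h7 : (x + t + Pi.single j (sg s * v) : ι → ℝ) j - x j = sg s * v := by
        simp [ht0]
      rw [h7, abs_mul]
      have h8 : |sg s| = 1 := by
        rcases DiscQ_sg s with h9 | h9 <;> rw [h9] <;> norm_num
      rw [h8, one_mul]
      exact abs_le.mpr ⟨hv.1.le, hv.2.le⟩
    · have h7 : (x + t + Pi.single i (sg s * v) : ι → ℝ) j - x j = t j := by
        simp [Pi.single_eq_of_ne hj]
      rw [h7]
      exact ht j

/-- Points with a large partial derivative: by the mean value theorem. -/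
theorem grad_reg (g : (ι → ℝ) → ℝ) (hg : ContDiff ℝ 1 g) (x : ι → ℝ) (h : ℝ) (hh : 0 < h) (i : ι)
    (s : Bool) (hs : ∀ y, (∀ j, |y j - x j| ≤ h) → sg s * fderiv ℝ g y (Pi.single i 1) < 0) :
    (∀ t : ι → ℝ, t i = 0 → (∀ j, |t j| ≤ h) →
      g (x + t + Pi.single i (sg s * h)) < g (x + t)) ∧
      g x < g (x + Pi.single i (sg (!s) * h)) := by
  constructor
  · intro t ht0 ht
    have h1 := DiscQ_anti g hg x t h i s ht0 ht hs
    have h2 := h1 (⟨by linarith, hh.le⟩ : (0 : ℝ) ∈ Set.Icc (-h) h)
      (⟨by linarith, le_refl _⟩ : h ∈ Set.Icc (-h) h) hh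
    simpa using h2
  · have h1 := DiscQ_anti g hg x 0 h i s rfl (fun j => by simp [hh.le]) hs
    have h2 := h1 (⟨le_refl _, by linarith⟩ : (-h) ∈ Set.Icc (-h) h)
      (⟨by linarith, hh.le⟩ : (0 : ℝ) ∈ Set.Icc (-h) h) (by linarith)
    rw [DiscQ_not]
    simpa using h2

end Pool.Agent.H47.QG
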