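import Pool.Agent.H47.QG.Comp
import Pool.Agent.H47.QG.DiscL
import Pool.Agent.H47.QG.DiscQ
import Pool.Agent.H47.QG.DiscK
import Pool.Agent.H47.QG.Idx

/-!
# The gap theorem on the unit cube
-/

set_option autoImplicit false

namespace Pool.Agent.H47.QG

variable {ι : Type*} [Fintype ι] [DecidableEq ι]

theorem CG_per_one (kd : ι → Kind) (g : (ι → ℝ) → ℝ) (hg : Per kd g) (x : ι → ℝ) (i : ι)
    (hi : kd i = Kind.th) (n : ℤ) : g (x + Pi.single i (n : ℝ)) = g x := by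
  induction n using Int.induction_on with
  | zero => simp
  | succ n ih =>
    have h : x + Pi.single i ((((n : ℤ) + 1 : ℤ)) : ℝ) =
        (x + Pi.single i (((n : ℤ)) : ℝ)) + Pi.single i 1 := by
      rw [add_assoc, ← Pi.single_add]; push_cast; rfl
    rw [h, hg _ _ hi, ih]
  | pred n ih =>
    have h : x + Pi.single i (((-(n : ℤ) : ℤ)) : ℝ) =
        (x + Pi.single i (((-(n : ℤ) - 1 : ℤ)) : ℝ)) + Pi.single i 1 := by
      rw [add_assoc, ← Pi.single_add]; congr 2; push_cast; ring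
    rw [← hg _ _ hi, ← h, ih]

theorem CG_per (kd : ι → Kind) (g : (ι → ℝ) → ℝ) (hg : Per kd g) (x : ι → ℝ) (k : ι → ℤ)
    (hk : ∀ i, kd i ≠ Kind.th → k i = 0) : g (x + fun i => (k i : ℝ)) = g x := by
  have h : ∀ s : Finset ι, g (x + ∑ i ∈ s, Pi.single i (k i : ℝ)) = g x := by
    intro s
    induction s using Finset.induction_on with
    | empty => simp
    | insert i s hi ih =>
      rw [Finset.sum_insert hi, add_comm (Pi.single i _), ← add_assoc]
      by_cases hth : kd i = Kind.th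
      · rw [CG_per_one kd g hg _ i hth, ih]
      · rw [hk i hth]; simpa using ih
  have h1 := h Finset.univ
  rwa [Finset.univ_sum_single (fun i => (k i : ℝ))] at h1

theorem CG_fderiv (kd : ι → Kind) (g : (ι → ℝ) → ℝ) (hg : Per kd g) (x : ι → ℝ) (k : ι → ℤ)
    (hk : ∀ i, kd i ≠ Kind.th → k i = 0) :
    fderiv ℝ g (x + fun i => (k i : ℝ)) = fderiv ℝ g x := by
  have h : (fun y => g (y + fun i => (k i : ℝ))) = g := funext fun y => CG_per kd g hg y k hk
  have h2 := fderiv_comp_add_right (𝕜 := ℝ) (f := g) (x := x) (fun i => (k i : ℝ))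
  rw [h] at h2
  exact h2.symm

theorem CG_nneg (c : ι → ℝ) : nneg (fun i => decide (c i < 0)) = neg c := by
  classical
  unfold nneg neg
  rw [Nat.card_eq_fintype_card, Fintype.card_subtype]
  congr 1
  ext i
  simp

theorem CG_inner (kd : ι → Kind) (g : (ι → ℝ) → ℝ) (del : ℝ)
    (hup : ∀ x i, (∀ j, kd j ≠ Kind.th → x j ∈ Set.Icc (0 : ℝ) 1) → kd i = Kind.up →
      (x i ≤ del → 0 < fderiv ℝ g x (Pi.single i 1)) ∧
      (1 - del ≤ x i → fderiv ℝ g x (Pi.single i 1) < 0))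
    (hdn : ∀ x i, (∀ j, kd j ≠ Kind.th → x j ∈ Set.Icc (0 : ℝ) 1) → kd i = Kind.dn →
      (x i ≤ del → fderiv ℝ g x (Pi.single i 1) < 0) ∧
      (1 - del ≤ x i → 0 < fderiv ℝ g x (Pi.single i 1)))
    (x : ι → ℝ) (hx : ∀ j, kd j ≠ Kind.th → x j ∈ Set.Icc (0 : ℝ) 1)
    (h0 : fderiv ℝ g x = 0) (i : ι) (hi : kd i ≠ Kind.th) : del < x i ∧ x i < 1 - del := by
  have h0' : fderiv ℝ g x (Pi.single i 1) = 0 := by rw [h0]; rfl
  cases hk : kd i with
  | th => exact absurd hk hi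
  | up =>
    obtain ⟨h1, h2⟩ := hup x i hx hk
    constructor
    · by_contra h
      have := h1 (not_lt.mp h)
      linarith
    · by_contra h
      have := h2 (not_lt.mp h)
      linarith
  | dn =>
    obtain ⟨h1, h2⟩ := hdn x i hx hk
    constructor
    · by_contra h
      have := h1 (not_lt.mp h)
      linarith
    · by_contra h
      have := h2 (not_lt.mp h)
      linarith

theorem CG_crit (kd : ι → Kind) (g : (ι → ℝ) → ℝ) (hper : Per kd g) (del : ℝ) (hdel : 0 < del)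
    (hup : ∀ x i, (∀ j, kd j ≠ Kind.th → x j ∈ Set.Icc (0 : ℝ) 1) → kd i = Kind.up →
      (x i ≤ del → 0 < fderiv ℝ g x (Pi.single i 1)) ∧
      (1 - del ≤ x i → fderiv ℝ g x (Pi.single i 1) < 0))
    (hdn : ∀ x i, (∀ j, kd j ≠ Kind.th → x j ∈ Set.Icc (0 : ℝ) 1) → kd i = Kind.dn →
      (x i ≤ del → fderiv ℝ g x (Pi.single i 1) < 0) ∧
      (1 - del ≤ x i → 0 < fderiv ℝ g x (Pi.single i 1)))
    (Z : Finset (ι → ℝ))
    (hZ : ∀ x, (∀ i, x i ∈ Set.Ico (0 : ℝ) 1) → (fderiv ℝ g x = 0 ↔ x ∈ Z))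
    (x : ι → ℝ) (hx : ∀ i, x i ∈ Set.Icc (0 : ℝ) 1) (h0 : fderiv ℝ g x = 0) :
    ∃ z ∈ Z, ∃ k : ι → ℤ, (∀ i, kd i ≠ Kind.th → k i = 0) ∧ ∀ i, x i - k i - z i = 0 := by
  classical
  let k : ι → ℤ := fun i => if kd i = Kind.th ∧ x i = 1 then 1 else 0
  have hk : ∀ i, kd i ≠ Kind.th → k i = 0 := by
    intro i hi
    simp [k, hi]
  let z : ι → ℝ := fun i => x i - k i
  have hzx : x = z + fun i => (k i : ℝ) := by
    ext i
    simp [z]
  refine ⟨z, ?_, k, hk, fun i => by simp [z]⟩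
  rw [← hZ z ?_]
  · rw [← CG_fderiv kd g hper z k hk, ← hzx]
    exact h0
  · intro i
    by_cases hi : kd i = Kind.th
    · by_cases h1 : x i = 1
      · simp [z, k, hi, h1]
      · have h2 := hx i
        simp only [z, k, hi, h1, and_false, if_false, Int.cast_zero, sub_zero]
        exact ⟨h2.1, lt_of_le_of_ne h2.2 h1⟩
    · have h2 := CG_inner kd g del hup hdn x (fun j _ => hx j) h0 i hi
      simp only [z, k, hi, false_and, if_false, Int.cast_zero, sub_zero]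
      exact ⟨by linarith, by linarith⟩

theorem CG_pos_mem {m : ℕ} [NeZero m] (v : ι → ZMod m) (i : ι) :
    pos v i ∈ Set.Ico (0 : ℝ) 1 := by
  have hm : (0 : ℝ) < m := by exact_mod_cast Nat.pos_of_ne_zero (NeZero.ne m)
  have h1 : ((v i).val : ℝ) < m := by exact_mod_cast ZMod.val_lt (v i)
  constructor
  · unfold pos; positivity
  · unfold pos; rw [div_lt_one hm]; exact h1

/-- values at the ends -/
theorem CG_val_neg_one {m : ℕ} [NeZero m] (hm : 4 ≤ m) (a : ZMod m) (ha : a = -1) :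
    a.val = m - 1 := by
  obtain ⟨n, rfl⟩ : ∃ n, m = n + 1 := ⟨m - 1, by omega⟩
  rw [ha, ZMod.val_neg_one]
  simp

theorem CG_val_one {m : ℕ} [NeZero m] (hm : 4 ≤ m) (a : ZMod m) (ha : a = 1) :
    a.val = 1 := by
  haveI : Fact (1 < m) := ⟨by omega⟩
  rw [ha, ZMod.val_one]

theorem CG_val_zero {m : ℕ} [NeZero m] (a : ZMod m) (ha : a = 0) :
    a.val = 0 := by
  rw [ha, ZMod.val_zero]

/-- the boundary conditions hold for inner coordinates -/
theorem CG_ends_inner (kd : ι → Kind) {m : ℕ} [NeZero m] (hm : 4 ≤ m) (v : ι → ZMod m) (i : ι)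
    (s : Bool) (hin : kd i ≠ Kind.th → 1 < (v i).val ∧ (v i).val < m - 1) :
    ok1 m (kd i) (edg (v i) s) ∧ (kd i = Kind.up → v i + stp m (!s) ≠ 0) := by
  refine ⟨⟨fun _ => ?_, fun hk => ?_⟩, fun hk => ?_⟩
  · cases s <;> simp [edg]
  · obtain ⟨h1, h2⟩ := hin (by rw [hk]; simp)
    cases s
    · simp only [edg, Bool.false_eq_true, if_false, ne_eq, Prod.mk.injEq, and_true]
      intro h
      have := CG_val_zero (v i) (by linear_combination h)
      omega
    · simp only [edg, if_true, ne_eq, Prod.mk.injEq, and_true]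
      intro h
      have := CG_val_neg_one hm (v i) h
      omega
  · obtain ⟨h1, h2⟩ := hin (by rw [hk]; simp)
    cases s
    · simp only [stp, Bool.not_false, if_true]
      intro h
      have := CG_val_neg_one hm (v i) (by linear_combination h)
      omega
    · simp only [stp, Bool.not_true, Bool.false_eq_true, if_false]
      intro h
      have := CG_val_one hm (v i) (by linear_combination h)
      omega

/-- the boundary conditions hold for the direction of decrease -/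
theorem CG_ends (kd : ι → Kind) (g : (ι → ℝ) → ℝ) (del : ℝ) (hdel : 0 < del)
    (hup : ∀ x i, (∀ j, kd j ≠ Kind.th → x j ∈ Set.Icc (0 : ℝ) 1) → kd i = Kind.up →
      (x i ≤ del → 0 < fderiv ℝ g x (Pi.single i 1)) ∧
      (1 - del ≤ x i → fderiv ℝ g x (Pi.single i 1) < 0))
    (hdn : ∀ x i, (∀ j, kd j ≠ Kind.th → x j ∈ Set.Icc (0 : ℝ) 1) → kd i = Kind.dn →
      (x i ≤ del → fderiv ℝ g x (Pi.single i 1) < 0) ∧
      (1 - del ≤ x i → 0 < fderiv ℝ g x (Pi.single i 1)))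
    {m : ℕ} [NeZero m] (hm : 4 ≤ m) (hmd : 1 / (m : ℝ) ≤ del) (v : ι → ZMod m) (i : ι)
    (s : Bool) (hs : sg s * fderiv ℝ g (pos v) (Pi.single i 1) < 0) :
    ok1 m (kd i) (edg (v i) s) ∧ (kd i = Kind.up → v i + stp m (!s) ≠ 0) := by
  have hm0 : (0 : ℝ) < m := by exact_mod_cast Nat.pos_of_ne_zero (NeZero.ne m)
  have hx : ∀ j, kd j ≠ Kind.th → pos v j ∈ Set.Icc (0 : ℝ) 1 := fun j _ =>
    Set.Ico_subset_Icc_self (CG_pos_mem v j)
  have e1 : ∀ {a : ZMod m}, a = -1 → 1 - del ≤ (a.val : ℝ) / m := by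
    intro a ha
    rw [CG_val_neg_one hm a ha, Nat.cast_sub (by omega), sub_div, div_self hm0.ne', Nat.cast_one]
    linarith
  refine ⟨⟨fun _ => ?_, fun hk => ?_⟩, fun hk => ?_⟩
  · cases s <;> simp [edg]
  · obtain ⟨h1, h2⟩ := hdn (pos v) i hx hk
    cases s
    · simp only [edg, Bool.false_eq_true, if_false, ne_eq, Prod.mk.injEq, and_true]
      intro h
      have h3 := CG_val_zero (v i) (by linear_combination h)
      have h4 : pos v i ≤ del := by
        unfold pos; rw [h3]; simpa using hdel.le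
      have h5 := h1 h4
      simp only [sg, Bool.false_eq_true, if_false] at hs
      linarith
    · simp only [edg, if_true, ne_eq, Prod.mk.injEq, and_true]
      intro h
      have h5 := h2 (e1 h)
      simp only [sg, if_true] at hs
      linarith
  · obtain ⟨h1, h2⟩ := hup (pos v) i hx hk
    cases s
    · simp only [stp, Bool.not_false, if_true]
      intro h
      have h5 := h2 (e1 (show v i = -1 by linear_combination h))
      simp only [sg, Bool.false_eq_true, if_false] at hs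
      linarith
    · simp only [stp, Bool.not_true, Bool.false_eq_true, if_false]
      intro h
      have h3 := CG_val_one hm (v i) (by linear_combination h)
      have h4 : pos v i ≤ del := by
        unfold pos; rw [h3]; simpa using hmd
      have h5 := h1 h4
      simp only [sg, if_true] at hs
      linarith

/-- far from the critical points -/
theorem CG_far (kd : ι → Kind) (g : (ι → ℝ) → ℝ) (hg : ContDiff ℝ 1 g) (hper : Per kd g)
    (del : ℝ) (hdel : 0 < del)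
    (hup : ∀ x i, (∀ j, kd j ≠ Kind.th → x j ∈ Set.Icc (0 : ℝ) 1) → kd i = Kind.up →
      (x i ≤ del → 0 < fderiv ℝ g x (Pi.single i 1)) ∧
      (1 - del ≤ x i → fderiv ℝ g x (Pi.single i 1) < 0))
    (hdn : ∀ x i, (∀ j, kd j ≠ Kind.th → x j ∈ Set.Icc (0 : ℝ) 1) → kd i = Kind.dn →
      (x i ≤ del → fderiv ℝ g x (Pi.single i 1) < 0) ∧
      (1 - del ≤ x i → 0 < fderiv ℝ g x (Pi.single i 1)))
    {m : ℕ} [NeZero m] (hm : 4 ≤ m) (hmd : 1 / (m : ℝ) ≤ del) (v : ι → ZMod m)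
    (hv : ¬ Rem kd v) (i : ι) (s : Bool)
    (hs : ∀ y, (∀ j, |y j - pos v j| ≤ 1 / (m : ℝ)) → sg s * fderiv ℝ g y (Pi.single i 1) < 0) :
    Reg kd (fun v => g (pos v)) v i s := by
  have hm0 : (0 : ℝ) < m := by exact_mod_cast Nat.pos_of_ne_zero (NeZero.ne m)
  obtain ⟨e1, e2⟩ := CG_ends kd g del hdel hup hdn hm hmd v i s
    (hs (pos v) (fun j => by simp))
  obtain ⟨h1, h2⟩ := grad_reg g hg (pos v) (1 / (m : ℝ)) (by positivity) i s hs
  simp only [mul_one_div] at h1 h2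
  exact reg_of kd hm g hper v hv i s e1 e2 h1 h2

/-- regular vertices near the critical points -/
theorem CG_near_reg (kd : ι → Kind) (g : (ι → ℝ) → ℝ) (hper : Per kd g) (del : ℝ)
    {m : ℕ} [NeZero m] (hm : 4 ≤ m) (v : ι → ZMod m) (hv : ¬ Rem kd v) (z c : ι → ℝ)
    (k : ι → ℤ) (hk : ∀ i, kd i ≠ Kind.th → k i = 0) (r : ℝ) (hr : 4 / (m : ℝ) < r)
    (hrd : r ≤ del) (hz : ∀ i, kd i ≠ Kind.th → del < z i ∧ z i < 1 - del)
    (hc : ∀ i, c i ≠ 0)
    (hst : ∀ y, (∀ i, |y i - z i| < r) → g y = g z + ∑ i, c i * (y i - z i) ^ 2)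
    (hn : ∀ i, |pos v i - k i - z i| < r / 2) (i : ι)
    (hi : 1 / (m : ℝ) / 2 < |pos v i - k i - z i|) :
    ∃ i s, Reg kd (fun v => g (pos v)) v i s := by
  have hm0 : (0 : ℝ) < m := by exact_mod_cast Nat.pos_of_ne_zero (NeZero.ne m)
  have hm1 : 4 / (m : ℝ) = 4 * (1 / (m : ℝ)) := by ring
  let x : ι → ℝ := fun i => pos v i - k i
  have hxu : ∀ u : ι → ℝ, g (x + u) = g (pos v + u) := by
    intro u
    have h1 : x + u = (pos v + u) + fun i => (((-k i : ℤ)) : ℝ) := by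
      ext j
      simp only [x, Pi.add_apply]
      push_cast
      ring
    rw [h1]
    exact CG_per kd g hper _ (fun i => -k i) (fun i hi => by simp [hk i hi])
  have hx0 : g x = g (pos v) := by
    have := hxu 0
    simpa using this
  obtain ⟨s, h1, h2⟩ := quad_reg x z c (1 / (m : ℝ)) (by positivity) r g hc hst
    (fun j => by have := hn j; simp only [x]; linarith) i hi
  have hin : kd i ≠ Kind.th → 1 < (v i).val ∧ (v i).val < m - 1 := by
    intro hki
    obtain ⟨hz1, hz2⟩ := hz i hki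
    have hni := hn i
    rw [hk i hki, Int.cast_zero, sub_zero, abs_lt] at hni
    have hp : pos v i = ((v i).val : ℝ) / m := rfl
    have h3 : ((v i).val : ℝ) = pos v i * m := by rw [hp]; field_simp
    have h4 : (1 / (m : ℝ)) * m = 1 := by field_simp
    have h5 : 2 * (1 / (m : ℝ)) < pos v i := by linarith
    have h6 : pos v i < 1 - 2 * (1 / (m : ℝ)) := by linarith
    have h7 : (2 : ℝ) < ((v i).val : ℝ) := by
      rw [h3]
      have := mul_lt_mul_of_pos_right h5 hm0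
      nlinarith
    have h8 : ((v i).val : ℝ) < m - 2 := by
      rw [h3]
      have := mul_lt_mul_of_pos_right h6 hm0
      nlinarith
    have h9 : 2 < (v i).val := by exact_mod_cast h7
    have h10 : (v i).val + 2 < m := by
      have : ((v i).val : ℝ) + 2 < m := by linarith
      exact_mod_cast this
    omega
  obtain ⟨e1, e2⟩ := CG_ends_inner kd hm v i s hin
  refine ⟨i, s, reg_of kd hm g hper v hv i s e1 e2 ?_ ?_⟩
  · intro t ht1 ht2
    have h3 := h1 t ht1 ht2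
    rw [mul_one_div] at h3
    rwa [add_assoc, hxu, ← add_assoc, hxu] at h3
  · rw [mul_one_div] at h2
    rwa [hxu, hx0] at h2

theorem CG_near_in (kd : ι → Kind) (del : ℝ)
    {m : ℕ} [NeZero m] (hm : 4 ≤ m) (v : ι → ZMod m) (z : ι → ℝ)
    (k : ι → ℤ) (hk : ∀ i, kd i ≠ Kind.th → k i = 0) (hr : 4 / (m : ℝ) < del)
    (hz : ∀ i, kd i ≠ Kind.th → del < z i ∧ z i < 1 - del)
    (hn : ∀ i, |pos v i - k i - z i| < 1 / (m : ℝ) / 2) (i : ι) (hki : kd i ≠ Kind.th) :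
    1 < (v i).val ∧ (v i).val < m - 1 := by
  have hm0 : (0 : ℝ) < m := by exact_mod_cast Nat.pos_of_ne_zero (NeZero.ne m)
  have hm1 : 4 / (m : ℝ) = 4 * (1 / (m : ℝ)) := by ring
  have hm2 : 0 < 1 / (m : ℝ) := by positivity
  obtain ⟨hz1, hz2⟩ := hz i hki
  have hni := hn i
  rw [hk i hki, Int.cast_zero, sub_zero, abs_lt] at hni
  have hp : pos v i = ((v i).val : ℝ) / m := rfl
  have h3 : ((v i).val : ℝ) = pos v i * m := by rw [hp]; field_simp
  have h4 : (1 / (m : ℝ)) * m = 1 := by field_simp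
  have h5 : 2 * (1 / (m : ℝ)) < pos v i := by linarith
  have h6 : pos v i < 1 - 2 * (1 / (m : ℝ)) := by linarith
  have h7 : (2 : ℝ) < ((v i).val : ℝ) := by
    rw [h3]
    have := mul_lt_mul_of_pos_right h5 hm0
    nlinarith
  have h8 : ((v i).val : ℝ) < m - 2 := by
    rw [h3]
    have := mul_lt_mul_of_pos_right h6 hm0
    nlinarith
  have h9 : 2 < (v i).val := by exact_mod_cast h7
  have h10 : (v i).val + 2 < m := by
    have : ((v i).val : ℝ) + 2 < m := by linarith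
    exact_mod_cast this
  omega

/-- critical vertices -/
theorem CG_near_cri (kd : ι → Kind) (g : (ι → ℝ) → ℝ) (hper : Per kd g) (del : ℝ)
    {m : ℕ} [NeZero m] (hm : 4 ≤ m) (v : ι → ZMod m) (hv : ¬ Rem kd v) (z c : ι → ℝ)
    (k : ι → ℤ) (hk : ∀ i, kd i ≠ Kind.th → k i = 0) (r : ℝ) (hr : 4 / (m : ℝ) < r)
    (hrd : r ≤ del) (hz : ∀ i, kd i ≠ Kind.th → del < z i ∧ z i < 1 - del)
    (hc : ∀ i, c i ≠ 0)
    (hst : ∀ y, (∀ i, |y i - z i| < r) → g y = g z + ∑ i, c i * (y i - z i) ^ 2)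
    (hn : ∀ i, |pos v i - k i - z i| < 1 / (m : ℝ) / 2) :
    Cri kd (fun v => g (pos v)) v (fun i => decide (c i < 0)) := by
  have hm0 : (0 : ℝ) < m := by exact_mod_cast Nat.pos_of_ne_zero (NeZero.ne m)
  have hm1 : 4 / (m : ℝ) = 4 * (1 / (m : ℝ)) := by ring
  have hm2 : 0 < 1 / (m : ℝ) := by positivity
  let x : ι → ℝ := fun i => pos v i - k i
  have hxu : ∀ u : ι → ℝ, g (x + u) = g (pos v + u) := by
    intro u
    have h1 : x + u = (pos v + u) + fun i => (((-k i : ℤ)) : ℝ) := by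
      ext j
      simp only [x, Pi.add_apply]
      push_cast
      ring
    rw [h1]
    exact CG_per kd g hper _ (fun i => -k i) (fun i hi => by simp [hk i hi])
  have hx0 : g x = g (pos v) := by
    have := hxu 0
    simpa using this
  obtain ⟨h1, h2⟩ := quad_cri x z c (1 / (m : ℝ)) (by positivity) r g hc hst
    (by linarith) hn
  have hin := CG_near_in kd del hm v z k hk (lt_of_lt_of_le hr hrd) hz hn
  have hpos : ∀ i, decide (c i < 0) = false → 0 < c i := by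
    intro i hi
    rw [decide_eq_false_iff_not] at hi
    exact lt_of_le_of_ne (not_lt.mp hi) (hc i).symm
  refine cri_of kd hm g hper v hv _ hin ?_ ?_
  · intro i hi s
    have h3 := h1 i (hpos i hi) s
    rw [mul_one_div] at h3
    rwa [hxu, hx0] at h3
  · intro t ht1 ht2 ht0
    have h3 := h2 t (fun i hi => ht1 i (by simpa using hi.le)) ht2 ht0
    rwa [hxu, hx0] at h3

/-- uniform radius -/
theorem CG_radius (g : (ι → ℝ) → ℝ) (Z : Finset (ι → ℝ)) (c : (ι → ℝ) → ι → ℝ) (del : ℝ)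
    (hdel : 0 < del)
    (hst : ∀ z ∈ Z, ∃ r > 0, ∀ y, (∀ i, |y i - z i| < r) →
      g y = g z + ∑ i, c z i * (y i - z i) ^ 2) :
    ∃ r > 0, r ≤ del ∧ ∀ z ∈ Z, ∀ y, (∀ i, |y i - z i| < r) →
      g y = g z + ∑ i, c z i * (y i - z i) ^ 2 := by
  classical
  induction Z using Finset.induction_on with
  | empty => exact ⟨del, hdel, le_rfl, by simp⟩
  | insert a s ha ih =>
    obtain ⟨r, hr, hrd, h1⟩ := ih (fun z hz => hst z (Finset.mem_insert_of_mem hz))
    obtain ⟨r', hr', h2⟩ := hst a (Finset.mem_insert_self a s)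
    refine ⟨min r r', lt_min hr hr', (min_le_left _ _).trans hrd, ?_⟩
    intro z hz y hy
    rw [Finset.mem_insert] at hz
    rcases hz with rfl | hz
    · exact h2 y fun i => (hy i).trans_le (min_le_right _ _)
    · exact h1 z hz y fun i => (hy i).trans_le (min_le_left _ _)

/-- separation of two points modulo integers -/
theorem CG_sep2 (a b : ℝ) (ha : a ∈ Set.Ico (0 : ℝ) 1) (hb : b ∈ Set.Ico (0 : ℝ) 1)
    (hab : a ≠ b) : ∃ η > 0, ∀ n : ℤ, η ≤ |a - b + n| := by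
  obtain ⟨ha1, ha2⟩ := ha
  obtain ⟨hb1, hb2⟩ := hb
  have ht : 0 < |a - b| := abs_pos.mpr (sub_ne_zero.mpr hab)
  have ht1 : |a - b| < 1 := by rw [abs_lt]; constructor <;> linarith
  refine ⟨min |a - b| (1 - |a - b|), lt_min ht (by linarith), ?_⟩
  intro n
  by_cases hn : n = 0
  · rw [hn]; simp
  · have h1 : (1 : ℝ) ≤ |(n : ℝ)| := by
      have : (1 : ℤ) ≤ |n| := Int.one_le_abs hn
      exact_mod_cast this
    have h2 : |(n : ℝ)| ≤ |a - b + n| + |a - b| := by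
      have := abs_sub (a - b + n) (a - b)
      rwa [add_sub_cancel_left] at this
    exact (min_le_right _ _).trans (by linarith)

/-- separation -/
theorem CG_sep (Z : Finset (ι → ℝ)) (hZ1 : ∀ z ∈ Z, ∀ i, z i ∈ Set.Ico (0 : ℝ) 1) :
    ∃ η > 0, ∀ z ∈ Z, ∀ z' ∈ Z, z ≠ z' → ∃ i, ∀ n : ℤ, η ≤ |z i - z' i + n| := by
  classical
  have h1 : ∀ p : (ι → ℝ) × (ι → ℝ), ∃ η > 0, p.1 ∈ Z → p.2 ∈ Z → p.1 ≠ p.2 →
      ∃ i, ∀ n : ℤ, η ≤ |p.1 i - p.2 i + n| := by
    intro p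
    by_cases hp : p.1 ∈ Z ∧ p.2 ∈ Z ∧ p.1 ≠ p.2
    · obtain ⟨hp1, hp2, hp3⟩ := hp
      obtain ⟨i, hi⟩ := Function.ne_iff.mp hp3
      obtain ⟨η, hη, h⟩ := CG_sep2 (p.1 i) (p.2 i) (hZ1 _ hp1 i) (hZ1 _ hp2 i) hi
      exact ⟨η, hη, fun _ _ _ => ⟨i, h⟩⟩
    · exact ⟨1, one_pos, fun a b c => absurd ⟨a, b, c⟩ hp⟩
  choose η hη h using h1
  have h2 : ∀ S : Finset ((ι → ℝ) × (ι → ℝ)), ∃ e > 0, ∀ p ∈ S, e ≤ η p := by
    intro S
    induction S using Finset.induction_on with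
    | empty => exact ⟨1, one_pos, by simp⟩
    | insert a s ha ih =>
      obtain ⟨e, he, h3⟩ := ih
      refine ⟨min e (η a), lt_min he (hη a), ?_⟩
      intro p hp
      rw [Finset.mem_insert] at hp
      rcases hp with rfl | hp
      · exact min_le_right _ _
      · exact (min_le_left _ _).trans (h3 p hp)
  obtain ⟨e, he, h3⟩ := h2 (Z ×ˢ Z)
  refine ⟨e, he, ?_⟩
  intro z hz z' hz' hne
  obtain ⟨i, hi⟩ := h (z, z') hz hz' hne
  exact ⟨i, fun n => (h3 (z, z') (Finset.mk_mem_product hz hz')).trans (hi n)⟩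

/-- the unit cube without neighbourhoods of the critical points -/
def CG_K (kd : ι → Kind) (Z : Finset (ι → ℝ)) (r : ℝ) : Set (ι → ℝ) :=
  {x | (∀ i, x i ∈ Set.Icc (0 : ℝ) 1) ∧ ∀ z ∈ Z, ∀ k : ι → ℤ, (∀ i, kd i ≠ Kind.th → k i = 0) →
    ∃ i, r / 2 ≤ |x i - k i - z i|}

theorem CG_K_compact (kd : ι → Kind) (Z : Finset (ι → ℝ)) (r : ℝ) : IsCompact (CG_K kd Z r) := by
  have h1 : IsCompact {x : ι → ℝ | ∀ i, x i ∈ Set.Icc (0 : ℝ) 1} := by
    have := isCompact_univ_pi (fun _ : ι => (isCompact_Icc : IsCompact (Set.Icc (0 : ℝ) 1)))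
    have h3 : {x : ι → ℝ | ∀ i, x i ∈ Set.Icc (0 : ℝ) 1} =
        Set.univ.pi fun _ => Set.Icc (0 : ℝ) 1 := by
      ext x
      simp only [Set.mem_setOf_eq, Set.mem_univ_pi]
    rw [h3]
    exact this
  have h2 : CG_K kd Z r = {x : ι → ℝ | ∀ i, x i ∈ Set.Icc (0 : ℝ) 1} ∩
      ⋂ z ∈ Z, ⋂ k : ι → ℤ, ⋂ _ : (∀ i, kd i ≠ Kind.th → k i = 0),
        ⋃ i, {x : ι → ℝ | r / 2 ≤ |x i - k i - z i|} := by
    ext x
    simp [CG_K]
  rw [h2]
  refine h1.inter_right ?_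
  refine isClosed_biInter fun z _ => isClosed_iInter fun k => isClosed_iInter fun _ =>
    isClosed_iUnion_of_finite fun i => ?_
  exact isClosed_le continuous_const (by fun_prop)

/-- choice of the mesh -/
theorem CG_mesh (Z : Finset (ι → ℝ)) (r h0 η : ℝ) (hr : 0 < r) (hh0 : 0 < h0) (hη : 0 < η) :
    ∃ M : ℕ, 2 ≤ M ∧ (∀ z ∈ Z, ∀ i, ∀ a : ℤ, z i * 2 ^ M ≠ a + 1 / 2) ∧
      4 / ((2 : ℝ) ^ M) < r ∧ 1 / ((2 : ℝ) ^ M) ≤ h0 ∧ 1 / ((2 : ℝ) ^ M) < η := by
  have h1 : ∀ᶠ M : ℕ in Filter.atTop, ∀ z ∈ Z, ∀ i, ∀ a : ℤ, z i * 2 ^ M ≠ a + 1 / 2 := by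
    rw [Filter.eventually_all_finset]
    intro z _
    rw [Filter.eventually_all]
    intro i
    exact no_tie (z i)
  have h2 : Filter.Tendsto (fun M : ℕ => 1 / ((2 : ℝ) ^ M)) Filter.atTop (nhds 0) := by
    have := tendsto_pow_atTop_nhds_zero_of_lt_one (r := (1 / 2 : ℝ)) (by norm_num) (by norm_num)
    simpa [one_div, inv_pow] using this
  have h3 : ∀ e : ℝ, 0 < e → ∀ᶠ M : ℕ in Filter.atTop, 1 / ((2 : ℝ) ^ M) < e := fun e he =>
    h2.eventually_lt_const he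
  have h4 := h3 (r / 4) (by linarith)
  obtain ⟨M, hM⟩ := (((h1.and h4).and (h3 h0 hh0)).and ((h3 η hη).and
    (Filter.eventually_ge_atTop 2))).exists
  obtain ⟨⟨⟨a1, a2⟩, a3⟩, a4, a5⟩ := hM
  refine ⟨M, a5, a1, ?_, a3.le, a4⟩
  have : 4 / ((2 : ℝ) ^ M) = 4 * (1 / ((2 : ℝ) ^ M)) := by ring
  rw [this]
  linarith

/-- the grid vertex `v` is the nearest one of `z` -/
def CG_N (kd : ι → Kind) (m : ℕ) (Z : Finset (ι → ℝ)) (v : ι → ZMod m) (z : ι → ℝ) : Prop :=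
  z ∈ Z ∧ ∃ k : ι → ℤ, (∀ i, kd i ≠ Kind.th → k i = 0) ∧
    ∀ i, |pos v i - k i - z i| < 1 / (m : ℝ) / 2

/-- the nearest vertex -/
noncomputable def CG_F (m : ℕ) (z : ι → ℝ) : ι → ZMod m := fun i => ((round (m * z i) : ℤ) : ZMod m)

theorem CG_N_F (kd : ι → Kind) {m : ℕ} [NeZero m] (Z : Finset (ι → ℝ)) (z : ι → ℝ) (hz : z ∈ Z)
    (hZ1 : ∀ i, z i ∈ Set.Ico (0 : ℝ) 1) (del : ℝ) (hd : 1 / (m : ℝ) < del)
    (hin : ∀ i, kd i ≠ Kind.th → del < z i ∧ z i < 1 - del)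
    (ht : ∀ i, ∀ a : ℤ, z i * m ≠ a + 1 / 2) : CG_N kd m Z (CG_F m z) z := by
  have hm0 : (0 : ℝ) < m := by exact_mod_cast Nat.pos_of_ne_zero (NeZero.ne m)
  have hm3 : (0 : ℤ) < m := by exact_mod_cast Nat.pos_of_ne_zero (NeZero.ne m)
  have hr : ∀ i, |(round (m * z i) : ℝ) - m * z i| < 1 / 2 := by
    intro i
    refine lt_of_le_of_ne ?_ ?_
    · rw [abs_sub_comm]; exact abs_sub_round _
    · intro h
      rcases eq_or_eq_neg_of_abs_eq h with h | h
      · exact ht i (round (m * z i) - 1) (by push_cast; linarith)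
      · exact ht i (round (m * z i)) (by linarith)
  refine ⟨hz, fun i => -(round (m * z i) / (m : ℤ)), ?_, ?_⟩
  · intro i hi
    obtain ⟨h1, h2⟩ := hin i hi
    have h3 := abs_lt.mp (hr i)
    have h4 : (1 / (m : ℝ)) * m = 1 := by field_simp
    have h5 : 1 < m * z i := by nlinarith
    have h6 : m * z i < m - 1 := by nlinarith
    have h7 : (0 : ℝ) < (round (m * z i) : ℝ) := by linarith
    have h8 : (round (m * z i) : ℝ) < (m : ℝ) := by linarith
    have h9 : (0 : ℤ) < round (m * z i) := by exact_mod_cast h7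
    have h10 : round (m * z i) < (m : ℤ) := by exact_mod_cast h8
    rw [neg_eq_zero]
    exact Int.ediv_eq_zero_of_lt h9.le h10
  · intro i
    have h1 : pos (CG_F m z) i = (((round (m * z i)) % (m : ℤ) : ℤ) : ℝ) / m := by
      unfold pos CG_F
      rw [← ZMod.val_intCast]
      simp
    have h2 : (((round (m * z i)) % (m : ℤ) : ℤ) : ℝ) +
        m * (((round (m * z i)) / (m : ℤ) : ℤ) : ℝ) = (round (m * z i) : ℝ) := by
      have := Int.emod_add_mul_ediv (round (m * z i)) (m : ℤ)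
      exact_mod_cast this
    have h3 : pos (CG_F m z) i - ((-(round (m * z i) / (m : ℤ)) : ℤ) : ℝ) - z i =
        ((round (m * z i) : ℝ) - m * z i) / m := by
      rw [h1, ← h2]
      push_cast
      field_simp
      ring
    rw [h3, abs_div, abs_of_pos hm0, div_right_comm (1 : ℝ) (m : ℝ) 2]
    exact div_lt_div_of_pos_right (hr i) hm0

theorem CG_N_uniq_v (kd : ι → Kind) {m : ℕ} [NeZero m] (Z : Finset (ι → ℝ)) (z : ι → ℝ)
    (v v' : ι → ZMod m) (h : CG_N kd m Z v z) (h' : CG_N kd m Z v' z) : v = v' := by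
  have hm0 : (0 : ℝ) < m := by exact_mod_cast Nat.pos_of_ne_zero (NeZero.ne m)
  obtain ⟨-, k, -, h1⟩ := h
  obtain ⟨-, k', -, h1'⟩ := h'
  ext i
  have h2 := abs_lt.mp (h1 i)
  have h2' := abs_lt.mp (h1' i)
  have h3 : |(pos v i - k i) - (pos v' i - k' i)| < 1 / (m : ℝ) := by
    rw [abs_lt]; constructor <;> linarith
  have h4 : (pos v i - k i) - (pos v' i - k' i) =
      ((((v i).val : ℤ) - m * k i - (((v' i).val : ℤ) - m * k' i) : ℤ) : ℝ) / m := by
    unfold pos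
    push_cast
    field_simp
  rw [h4, abs_div, abs_of_pos hm0, div_lt_div_iff_of_pos_right hm0] at h3
  have h5 : |(((v i).val : ℤ) - m * k i - (((v' i).val : ℤ) - m * k' i) : ℤ)| < 1 := by
    exact_mod_cast h3
  rw [Int.abs_lt_one_iff] at h5
  have h6 : ((((v i).val : ℤ) - m * k i - (((v' i).val : ℤ) - m * k' i) : ℤ) : ZMod m) = 0 := by
    rw [h5]; simp
  push_cast at h6
  simp only [ZMod.natCast_self, zero_mul, sub_zero, ZMod.natCast_val, ZMod.cast_id', id_eq] at h6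
  exact sub_eq_zero.mp h6

theorem CG_N_uniq_z (kd : ι → Kind) {m : ℕ} (Z : Finset (ι → ℝ)) (η : ℝ)
    (hη : 1 / (m : ℝ) < η)
    (hsep : ∀ z ∈ Z, ∀ z' ∈ Z, z ≠ z' → ∃ i, ∀ n : ℤ, η ≤ |z i - z' i + n|)
    (z z' : ι → ℝ) (v : ι → ZMod m) (h : CG_N kd m Z v z) (h' : CG_N kd m Z v z') : z = z' := by
  by_contra hne
  obtain ⟨hz, k, -, h1⟩ := h
  obtain ⟨hz', k', -, h1'⟩ := h'
  obtain ⟨i, hi⟩ := hsep z hz z' hz' hne
  have h2 := abs_lt.mp (h1 i)
  have h2' := abs_lt.mp (h1' i)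
  have h3 := hi (k i - k' i)
  have h4 : |z i - z' i + ((k i - k' i : ℤ) : ℝ)| < 1 / (m : ℝ) := by
    push_cast
    rw [abs_lt]; constructor <;> linarith
  linarith

/-- local data -/
noncomputable def CG_D (kd : ι → Kind) (m : ℕ) (Z : Finset (ι → ℝ)) (c : (ι → ℝ) → ι → ℝ)
    (v : ι → ZMod m) : Option (ι → Bool) := by
  classical
  exact if h : ∃ z, CG_N kd m Z v z then some (fun i => decide (c h.choose i < 0)) else none

theorem CG_D_some (kd : ι → Kind) (m : ℕ) (Z : Finset (ι → ℝ)) (c : (ι → ℝ) → ι → ℝ)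
    (v : ι → ZMod m) (e : ι → Bool) (h : CG_D kd m Z c v = some e) :
    ∃ z, CG_N kd m Z v z ∧ e = fun i => decide (c z i < 0) := by
  unfold CG_D at h
  split_ifs at h with h1
  refine ⟨h1.choose, h1.choose_spec, ?_⟩
  exact (Option.some.inj h).symm

theorem CG_D_none (kd : ι → Kind) (m : ℕ) (Z : Finset (ι → ℝ)) (c : (ι → ℝ) → ι → ℝ)
    (v : ι → ZMod m) (h : CG_D kd m Z c v = none) : ¬ ∃ z, CG_N kd m Z v z := by
  unfold CG_D at h
  split_ifs at h with h1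
  exact h1

theorem CG_D_of (kd : ι → Kind) (m : ℕ) (Z : Finset (ι → ℝ)) (c : (ι → ℝ) → ι → ℝ)
    (v : ι → ZMod m) (h : ∃ z, CG_N kd m Z v z) :
    ∃ z, CG_N kd m Z v z ∧ CG_D kd m Z c v = some (fun i => decide (c z i < 0)) := by
  refine ⟨h.choose, h.choose_spec, ?_⟩
  unfold CG_D
  rw [dif_pos h]

/-- the number of critical vertices -/
theorem CG_card (kd : ι → Kind) {m : ℕ} [NeZero m] (hm : 4 ≤ m) (Z : Finset (ι → ℝ))
    (hZ1 : ∀ z ∈ Z, ∀ i, z i ∈ Set.Ico (0 : ℝ) 1) (c : (ι → ℝ) → ι → ℝ) (del η : ℝ)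
    (hd : 4 / (m : ℝ) < del)
    (hin : ∀ z ∈ Z, ∀ i, kd i ≠ Kind.th → del < z i ∧ z i < 1 - del)
    (ht : ∀ z ∈ Z, ∀ i, ∀ a : ℤ, z i * m ≠ a + 1 / 2) (hη : 1 / (m : ℝ) < η)
    (hsep : ∀ z ∈ Z, ∀ z' ∈ Z, z ≠ z' → ∃ i, ∀ n : ℤ, η ≤ |z i - z' i + n|) (k : ℕ) :
    Nat.card {v : ι → ZMod m // ¬ Rem kd v ∧ ∃ e, CG_D kd m Z c v = some e ∧ nneg e = k} =
      (Z.filter fun z => neg (c z) = k).card := by
  classical
  have hm0 : (0 : ℝ) < m := by exact_mod_cast Nat.pos_of_ne_zero (NeZero.ne m)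
  have hm1 : 4 / (m : ℝ) = 4 * (1 / (m : ℝ)) := by ring
  have hm2 : 0 < 1 / (m : ℝ) := by positivity
  have hNF : ∀ z ∈ Z, CG_N kd m Z (CG_F m z) z := fun z hz =>
    CG_N_F kd Z z hz (hZ1 z hz) del (by linarith) (hin z hz) (ht z hz)
  have hrem : ∀ z v, CG_N kd m Z v z → ¬ Rem kd v := by
    intro z v h
    obtain ⟨hz, k, hk, h1⟩ := h
    rintro ⟨i, hi, hv⟩
    have h2 := CG_near_in kd del hm v z k hk hd (hin z hz) h1 i (by rw [hi]; simp)
    rw [hv, ZMod.val_zero] at h2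
    omega
  have hset : {v : ι → ZMod m | ¬ Rem kd v ∧ ∃ e, CG_D kd m Z c v = some e ∧ nneg e = k} =
      CG_F m '' (Z.filter fun z => neg (c z) = k : Finset (ι → ℝ)) := by
    ext v
    simp only [Set.mem_setOf_eq, Set.mem_image, Finset.coe_filter]
    constructor
    · rintro ⟨-, e, he, hk⟩
      obtain ⟨z, hz, rfl⟩ := CG_D_some kd m Z c v e he
      rw [CG_nneg] at hk
      exact ⟨z, ⟨hz.1, hk⟩, CG_N_uniq_v kd Z z _ _ (hNF z hz.1) hz⟩
    · rintro ⟨z, ⟨hz, hk⟩, rfl⟩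
      refine ⟨hrem z _ (hNF z hz), ?_⟩
      obtain ⟨z', hz', h2⟩ := CG_D_of kd m Z c (CG_F m z) ⟨z, hNF z hz⟩
      have h3 := CG_N_uniq_z kd Z η hη hsep z z' _ (hNF z hz) hz'
      subst h3
      exact ⟨_, h2, by rw [CG_nneg]; exact hk⟩
  have hinj : Set.InjOn (CG_F m) ((Z.filter fun z => neg (c z) = k : Finset (ι → ℝ)) : Set (ι → ℝ)) := by
    intro z hz z' hz' h
    rw [Finset.coe_filter] at hz hz'
    refine CG_N_uniq_z kd Z η hη hsep z z' (CG_F m z) (hNF z hz.1) ?_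
    rw [h]
    exact hNF z' hz'.1
  have h1 : Nat.card {v : ι → ZMod m // ¬ Rem kd v ∧ ∃ e, CG_D kd m Z c v = some e ∧ nneg e = k} =
      Set.ncard {v : ι → ZMod m | ¬ Rem kd v ∧ ∃ e, CG_D kd m Z c v = some e ∧ nneg e = k} := rfl
  rw [h1, hset, Set.ncard_image_of_injOn hinj, Set.ncard_coe_finset]

theorem CG_sum (Z : Finset (ι → ℝ)) (n : (ι → ℝ) → ℕ) (d : ℕ) :
    ∑ k ∈ Finset.range (d + 1), (-1 : ℤ) ^ k * ((Z.filter fun z => n z = k).card : ℤ) =
      ∑ z ∈ Z.filter (fun z => n z ≤ d), (-1 : ℤ) ^ n z := by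
  classical
  have h1 : ∀ z ∈ Z.filter (fun z => n z ≤ d), n z ∈ Finset.range (d + 1) := by
    intro z hz
    rw [Finset.mem_filter] at hz
    rw [Finset.mem_range]
    omega
  rw [← Finset.sum_fiberwise_of_maps_to h1]
  refine Finset.sum_congr rfl fun k hk => ?_
  rw [Finset.mem_range] at hk
  have h2 : (Z.filter (fun z => n z ≤ d)).filter (fun z => n z = k) =
      Z.filter (fun z => n z = k) := by
    ext z
    simp only [Finset.mem_filter]
    constructor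
    · rintro ⟨⟨a, _⟩, b⟩; exact ⟨a, b⟩
    · rintro ⟨a, b⟩; exact ⟨⟨a, by omega⟩, b⟩
  rw [h2, Finset.sum_congr rfl (g := fun _ => (-1 : ℤ) ^ k)
    (fun z hz => by rw [(Finset.mem_filter.mp hz).2])]
  rw [Finset.sum_const, nsmul_eq_mul, mul_comm]

/-- **Cube gap theorem.** `g` is `C^1`, periodic in the circle coordinates, increasing at the left
end and decreasing at the right end in the `up` coordinates, and vice versa in the `dn`
coordinates. `Z` is the set of the critical points in the half open unit cube, `g` is a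
nondegenerate diagonal quadratic polynomial near each of them. -/
theorem cube_gap (kd : ι → Kind) (hth : ∃ i, kd i = Kind.th) (g : (ι → ℝ) → ℝ)
    (hg : ContDiff ℝ 1 g) (hper : Per kd g) (del : ℝ) (hdel : 0 < del)
    (hup : ∀ x i, (∀ j, kd j ≠ Kind.th → x j ∈ Set.Icc (0 : ℝ) 1) → kd i = Kind.up →
      (x i ≤ del → 0 < fderiv ℝ g x (Pi.single i 1)) ∧
      (1 - del ≤ x i → fderiv ℝ g x (Pi.single i 1) < 0))
    (hdn : ∀ x i, (∀ j, kd j ≠ Kind.th → x j ∈ Set.Icc (0 : ℝ) 1) → kd i = Kind.dn →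
      (x i ≤ del → fderiv ℝ g x (Pi.single i 1) < 0) ∧
      (1 - del ≤ x i → 0 < fderiv ℝ g x (Pi.single i 1)))
    (Z : Finset (ι → ℝ)) (hZ1 : ∀ z ∈ Z, ∀ i, z i ∈ Set.Ico (0 : ℝ) 1)
    (hZ : ∀ x, (∀ i, x i ∈ Set.Ico (0 : ℝ) 1) → (fderiv ℝ g x = 0 ↔ x ∈ Z))
    (c : (ι → ℝ) → ι → ℝ) (hc : ∀ z ∈ Z, ∀ i, c z i ≠ 0)
    (hst : ∀ z ∈ Z, ∃ r > 0, ∀ y, (∀ i, |y i - z i| < r) →
      g y = g z + ∑ i, c z i * (y i - z i) ^ 2)
    (d : ℕ) (hd : ∀ z ∈ Z, neg (c z) ≠ d + 1)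
    (hb : d + 1 < nk kd Kind.up ∨ nk kd Kind.up + nk kd Kind.th < d + 1) :
    ∑ z ∈ Z.filter (fun z => neg (c z) ≤ d), (-1 : ℤ) ^ neg (c z) = 0 := by
  have hin : ∀ z ∈ Z, ∀ i, kd i ≠ Kind.th → del < z i ∧ z i < 1 - del := by
    intro z hz i hi
    exact CG_inner kd g del hup hdn z (fun j _ => Set.Ico_subset_Icc_self (hZ1 z hz j))
      ((hZ z (hZ1 z hz)).mpr hz) i hi
  obtain ⟨r, hr, hrd, hst'⟩ := CG_radius g Z c del hdel hst
  have hK0 : ∀ x ∈ CG_K kd Z r, fderiv ℝ g x ≠ 0 := by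
    rintro x ⟨hx1, hx2⟩ h0
    obtain ⟨z, hz, k, hk, h1⟩ := CG_crit kd g hper del hdel hup hdn Z hZ x hx1 h0
    obtain ⟨i, hi⟩ := hx2 z hz k hk
    rw [h1 i, abs_zero] at hi
    linarith
  obtain ⟨h0, hh0, hdir⟩ := exists_dir g hg (CG_K kd Z r) (CG_K_compact kd Z r) hK0
  obtain ⟨η, hη, hsep⟩ := CG_sep Z hZ1
  obtain ⟨M, hM2, htie, hM3, hM4, hM5⟩ := CG_mesh Z r h0 η hr hh0 hη
  have hm4 : 4 ≤ 2 ^ M := by
    calc 4 = 2 ^ 2 := by norm_num
      _ ≤ 2 ^ M := Nat.pow_le_pow_right (by norm_num) hM2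
  haveI : NeZero (2 ^ M) := ⟨by positivity⟩
  have he : Even (2 ^ M) := (Nat.even_pow.mpr ⟨by norm_num, by omega⟩)
  have hcast : ((2 ^ M : ℕ) : ℝ) = (2 : ℝ) ^ M := by push_cast; rfl
  generalize hmM : 2 ^ M = m at *
  rw [← hcast] at hM3 hM4 hM5
  have htie' : ∀ z ∈ Z, ∀ i, ∀ a : ℤ, z i * (m : ℝ) ≠ a + 1 / 2 := by
    intro z hz i a
    rw [hcast]
    exact htie z hz i a
  have hm0 : (0 : ℝ) < m := by exact_mod_cast Nat.pos_of_ne_zero (NeZero.ne m)
  have hm1 : 4 / (m : ℝ) = 4 * (1 / (m : ℝ)) := by ring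
  have hm2 : 0 < 1 / (m : ℝ) := by positivity
  have hreg : ∀ v, ¬ Rem kd v → CG_D kd m Z c v = none →
      ∃ i s, Reg kd (fun v => g (pos v)) v i s := by
    intro v hv hD
    have hD' := CG_D_none kd m Z c v hD
    by_cases hK : pos v ∈ CG_K kd Z r
    · obtain ⟨i, s, hs⟩ := hdir (pos v) hK
      refine ⟨i, s, CG_far kd g hg hper del hdel hup hdn hm4 (by linarith) v hv i s ?_⟩
      intro y hy
      exact hs y fun j => (hy j).trans hM4
    · have h1 : ∃ z ∈ Z, ∃ k : ι → ℤ, (∀ i, kd i ≠ Kind.th → k i = 0) ∧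
          ∀ i, |pos v i - k i - z i| < r / 2 := by
        by_contra hcon
        apply hK
        refine ⟨fun i => Set.Ico_subset_Icc_self (CG_pos_mem v i), ?_⟩
        intro z hz k hk
        by_contra hcon2
        push Not at hcon2
        exact hcon ⟨z, hz, k, hk, hcon2⟩
      obtain ⟨z, hz, k, hk, h1⟩ := h1
      have h2 : ∃ i, 1 / (m : ℝ) / 2 < |pos v i - k i - z i| := by
        by_contra hcon
        push Not at hcon
        refine hD' ⟨z, hz, k, hk, fun i => lt_of_le_of_ne (hcon i) ?_⟩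
        intro heq
        have h3 : pos v i = ((v i).val : ℝ) / m := rfl
        rcases eq_or_eq_neg_of_abs_eq heq with h | h
        · refine htie' z hz i ((v i).val - m * k i - 1) ?_
          rw [h3] at h
          push_cast
          field_simp at h ⊢
          linarith
        · refine htie' z hz i ((v i).val - m * k i) ?_
          rw [h3] at h
          push_cast
          field_simp at h ⊢
          linarith
      obtain ⟨i, hi⟩ := h2
      exact CG_near_reg kd g hper del hm4 v hv z (c z) k hk r hM3 hrd (hin z hz) (hc z hz)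
        (hst' z hz) h1 i hi
  have hcri : ∀ v e, ¬ Rem kd v → CG_D kd m Z c v = some e →
      Cri kd (fun v => g (pos v)) v e := by
    intro v e hv hD
    obtain ⟨z, ⟨hz, k, hk, h1⟩, rfl⟩ := CG_D_some kd m Z c v e hD
    exact CG_near_cri kd g hper del hm4 v hv z (c z) k hk r hM3 hrd (hin z hz) (hc z hz)
      (hst' z hz) h1
  have hdd : ∀ v e, ¬ Rem kd v → CG_D kd m Z c v = some e → nneg e ≠ d + 1 := by
    intro v e _ hD
    obtain ⟨z, ⟨hz, _⟩, rfl⟩ := CG_D_some kd m Z c v e hD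
    rw [CG_nneg]
    exact hd z hz
  letI : LinearOrder ι := LinearOrder.lift' (Fintype.equivFin ι) (Fintype.equivFin ι).injective
  have hmain := grid_gap kd hm4 he hth (fun v => g (pos v)) (CG_D kd m Z c) hreg hcri d hdd hb
  simp_rw [CG_card kd hm4 Z hZ1 c del η (lt_of_lt_of_le hM3 hrd) hin htie' hM5 hsep] at hmain
  rw [← CG_sum Z (fun z => neg (c z)) d]
  exact hmain

end Pool.Agent.H47.QG
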