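import Pool.Agent.H47.QG.CompD

/-!
# The comparison function: number of critical vertices
-/

set_option autoImplicit false

namespace Pool.Agent.H47.QG

variable {ι : Type*} [Fintype ι] [DecidableEq ι]

theorem CompN_half {m : ℕ} (hm : 4 ≤ m) : ((m / 2 : ℕ) : ZMod m) ≠ 0 := by
  intro h
  rw [ZMod.natCast_eq_zero_iff] at h
  have h1 := Nat.le_of_dvd (by omega) h
  omega

/-- the vertex with circle coordinates `0` on `A` -/
def CompN_v (m : ℕ) (A : Finset ι) (i : ι) : ZMod m := if i ∈ A then 0 else ((m / 2 : ℕ) : ZMod m)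

theorem CompN_inj {m : ℕ} (hm : 4 ≤ m) :
    Function.Injective (fun A : Finset ι => (CompN_v m A : ι → ZMod m)) := by
  intro A B h
  ext i
  have h1 : CompN_v m A i = CompN_v m B i := congrFun h i
  have hz := CompN_half hm
  unfold CompN_v at h1
  by_cases hA : i ∈ A <;> by_cases hB : i ∈ B
  · simp [hA, hB]
  · rw [if_pos hA, if_neg hB] at h1
    exact absurd h1.symm hz
  · rw [if_neg hA, if_pos hB] at h1
    exact absurd h1 hz
  · simp [hA, hB]

theorem CompN_count (kd : ι → Kind) {m : ℕ} (v : ι → ZMod m) (A : Finset ι)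
    (hA : A ⊆ Finset.univ.filter fun i => kd i = Kind.th) (hv : ∀ i, v i = 0 ↔ i ∈ A) :
    nneg (fun i => decide (kd i = Kind.up ∨ v i = 0)) = nk kd Kind.up + A.card := by
  classical
  unfold nneg nk
  have h1 : (Finset.univ.filter fun i => (decide (kd i = Kind.up ∨ v i = 0)) = true) =
      (Finset.univ.filter fun i => kd i = Kind.up) ∪ A := by
    ext i
    simp [hv i]
  rw [h1, Finset.card_union_of_disjoint]
  rw [Finset.disjoint_left]
  intro i hi hiA
  have h2 := hA hiA
  rw [Finset.mem_filter] at hi h2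
  rw [hi.2] at h2
  exact absurd h2.2 (by decide)

theorem CompN_iff (kd : ι → Kind) {m : ℕ} [NeZero m] (hm : 4 ≤ m) (k : ℕ) (v : ι → ZMod m) :
    (¬ Rem kd v ∧ ∃ e, cmpD kd m v = some e ∧ nneg e = k) ↔
      ∃ A : Finset ι, A ⊆ (Finset.univ.filter fun i => kd i = Kind.th) ∧
        nk kd Kind.up + A.card = k ∧ CompN_v m A = v := by
  classical
  have hz := CompN_half hm
  constructor
  · rintro ⟨-, e, he, hk⟩
    unfold cmpD at he
    split_ifs at he with h
    have he' := Option.some.inj he
    have hA : (Finset.univ.filter fun i => v i = 0) ⊆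
        (Finset.univ.filter fun i => kd i = Kind.th) := by
      intro i hi
      rw [Finset.mem_filter] at hi ⊢
      refine ⟨Finset.mem_univ _, ?_⟩
      rcases h i with h1 | h1
      · exact absurd (h1.symm.trans hi.2) hz
      · exact h1.1
    refine ⟨Finset.univ.filter fun i => v i = 0, hA, ?_, ?_⟩
    · rw [← CompN_count kd v _ hA (fun i => by simp), ← hk, ← he']
    · funext i
      unfold CompN_v
      by_cases hi : v i = 0
      · rw [if_pos (by simp [hi]), hi]
      · rw [if_neg (by simp [hi])]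
        rcases h i with h1 | h1
        · exact h1.symm
        · exact absurd h1.2 hi
  · rintro ⟨A, hA, hk, rfl⟩
    have hv : ∀ i, CompN_v m A i = 0 ↔ i ∈ A := by
      intro i
      unfold CompN_v
      by_cases hi : i ∈ A
      · simp [hi]
      · rw [if_neg hi]
        simp [hi, hz]
    have hth : ∀ i ∈ A, kd i = Kind.th := fun i hi => (Finset.mem_filter.1 (hA hi)).2
    refine ⟨?_, fun i => decide (kd i = Kind.up ∨ CompN_v m A i = 0), ?_, ?_⟩
    · rintro ⟨i, hi, hi0⟩
      rw [hth i ((hv i).1 hi0)] at hi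
      exact absurd hi (by decide)
    · unfold cmpD
      rw [if_pos]
      intro i
      by_cases hi : i ∈ A
      · exact Or.inr ⟨hth i hi, (hv i).2 hi⟩
      · left
        unfold CompN_v
        rw [if_neg hi]
    · rw [CompN_count kd _ A hA hv, hk]

theorem cmp_card (kd : ι → Kind) {m : ℕ} [NeZero m] (hm : 4 ≤ m) (he : Even m) (k : ℕ) :
    Nat.card {v : ι → ZMod m // ¬ Rem kd v ∧ ∃ e, cmpD kd m v = some e ∧ nneg e = k} =
      if nk kd Kind.up ≤ k then (nk kd Kind.th).choose (k - nk kd Kind.up) else 0 := by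
  classical
  split_ifs with hk
  · have h1 : {v : ι → ZMod m | ¬ Rem kd v ∧ ∃ e, cmpD kd m v = some e ∧ nneg e = k} =
        (((Finset.univ.filter fun i => kd i = Kind.th).powersetCard (k - nk kd Kind.up)).image
          (fun A : Finset ι => (CompN_v m A : ι → ZMod m)) : Finset (ι → ZMod m)) := by
      ext v
      rw [Set.mem_ofPred_eq, CompN_iff kd hm k v]
      simp only [Finset.coe_image, Set.mem_image, Finset.mem_coe, Finset.mem_powersetCard]
      constructor
      · rintro ⟨A, hA, hc, hv⟩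
        exact ⟨A, ⟨hA, by omega⟩, hv⟩
      · rintro ⟨A, ⟨hA, hc⟩, hv⟩
        exact ⟨A, hA, by omega, hv⟩
    have h2 : Nat.card {v : ι → ZMod m // ¬ Rem kd v ∧ ∃ e, cmpD kd m v = some e ∧ nneg e = k} =
        Set.ncard {v : ι → ZMod m | ¬ Rem kd v ∧ ∃ e, cmpD kd m v = some e ∧ nneg e = k} := rfl
    rw [h2, h1, Set.ncard_coe_finset, Finset.card_image_of_injective _ (CompN_inj hm),
      Finset.card_powersetCard]
    rfl
  · have : IsEmpty {v : ι → ZMod m // ¬ Rem kd v ∧ ∃ e, cmpD kd m v = some e ∧ nneg e = k} := by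
      refine ⟨fun x => ?_⟩
      obtain ⟨A, -, hc, -⟩ := (CompN_iff kd hm k x.1).1 x.2
      omega
    exact Nat.card_of_isEmpty

end Pool.Agent.H47.QG
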