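import Pool.Agent.H47.QG.CompD

/-!
# The comparison function: local data
-/

set_option autoImplicit false

namespace Pool.Agent.H47.QG

variable {ι : Type*} [Fintype ι] [DecidableEq ι]

/-- distance from the middle -/
noncomputable def CompRG (m : ℕ) (a : ZMod m) : ℝ := |(a.val : ℝ) - m / 2|

theorem CompR_th (m : ℕ) (a : ZMod m) : cmp1 m Kind.th a = CompRG m a := rfl

theorem CompR_dn (m : ℕ) (a : ZMod m) : cmp1 m Kind.dn a = CompRG m a := rfl

theorem CompR_up (m : ℕ) (a : ZMod m) : cmp1 m Kind.up a = -CompRG m a := rfl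

theorem CompR_far1 {x y : ℕ} {h : ℝ} (hxy : x < y) (hy : (y : ℝ) ≤ h) :
    |(y : ℝ) - h| < |(x : ℝ) - h| := by
  have h1 : (x : ℝ) < y := by exact_mod_cast hxy
  rw [abs_of_nonpos (by linarith), abs_of_nonpos (by linarith)]
  linarith

theorem CompR_far2 {x y : ℕ} {h : ℝ} (hxy : y < x) (hy : h ≤ (y : ℝ)) :
    |(y : ℝ) - h| < |(x : ℝ) - h| := by
  have h1 : (y : ℝ) < x := by exact_mod_cast hxy
  rw [abs_of_nonneg (by linarith), abs_of_nonneg (by linarith)]
  linarith

theorem CompR_half {m : ℕ} (he : Even m) : ((m / 2 : ℕ) : ℝ) = (m : ℝ) / 2 := by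
  obtain ⟨k, hk⟩ := he
  have h1 : m / 2 = k := by omega
  rw [h1, hk]
  push_cast
  ring

theorem CompR_val_succ {m : ℕ} [NeZero m] (a : ZMod m) (h : a.val + 1 < m) :
    (a + 1).val = a.val + 1 := by
  have h1 : a + 1 = ((a.val + 1 : ℕ) : ZMod m) := by
    push_cast
    rw [ZMod.natCast_zmod_val]
  rw [h1, ZMod.val_natCast, Nat.mod_eq_of_lt h]

theorem CompR_succ_zero {m : ℕ} [NeZero m] (a : ZMod m) (h : a.val + 1 = m) : a + 1 = 0 := by
  have h1 : a + 1 = ((a.val + 1 : ℕ) : ZMod m) := by
    push_cast
    rw [ZMod.natCast_zmod_val]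
  rw [h1, h, ZMod.natCast_self]

theorem CompR_val_pred {m : ℕ} [NeZero m] (a : ZMod m) (h : 0 < a.val) :
    (a - 1).val = a.val - 1 := by
  have h1 : a - 1 = ((a.val - 1 : ℕ) : ZMod m) := by
    rw [Nat.cast_sub (by omega)]
    rw [ZMod.natCast_zmod_val]
    push_cast
    rfl
  have h2 := ZMod.val_lt a
  rw [h1, ZMod.val_natCast, Nat.mod_eq_of_lt (by omega)]

theorem CompR_val_pred0 {m : ℕ} [NeZero m] (hm : 1 ≤ m) : ((0 : ZMod m) - 1).val = m - 1 := by
  have h1 : (0 : ZMod m) - 1 = ((m - 1 : ℕ) : ZMod m) := by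
    rw [Nat.cast_sub hm, ZMod.natCast_self]
    push_cast
    rfl
  rw [h1, ZMod.val_natCast, Nat.mod_eq_of_lt (by omega)]

/-- towards the middle from below -/
theorem CompR_succ_lt {m : ℕ} [NeZero m] (hm : 4 ≤ m) (he : Even m) (a : ZMod m)
    (h : a.val < m / 2) : CompRG m (a + 1) < CompRG m a := by
  unfold CompRG
  rw [CompR_val_succ a (by omega)]
  refine CompR_far1 (by omega) ?_
  rw [← CompR_half he]
  exact_mod_cast h

/-- towards the middle from above -/
theorem CompR_pred_lt {m : ℕ} [NeZero m] (he : Even m) (a : ZMod m)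
    (h : m / 2 < a.val) : CompRG m (a - 1) < CompRG m a := by
  unfold CompRG
  rw [CompR_val_pred a (by omega)]
  refine CompR_far2 (by omega) ?_
  rw [← CompR_half he]
  have h2 : m / 2 ≤ a.val - 1 := by omega
  exact_mod_cast h2

/-- away from the middle, downwards -/
theorem CompR_lt_pred {m : ℕ} [NeZero m] (he : Even m) (a : ZMod m) (h0 : 0 < a.val)
    (h : a.val ≤ m / 2) : CompRG m a < CompRG m (a - 1) := by
  unfold CompRG
  rw [CompR_val_pred a h0]
  refine CompR_far1 (by omega) ?_
  rw [← CompR_half he]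
  exact_mod_cast h

/-- away from the middle, upwards -/
theorem CompR_lt_succ {m : ℕ} [NeZero m] (he : Even m) (a : ZMod m)
    (h : m / 2 ≤ a.val) : CompRG m a < CompRG m (a + 1) := by
  have h1 := ZMod.val_lt a
  have hc : ((m / 2 : ℕ) : ℝ) ≤ (a.val : ℝ) := by exact_mod_cast h
  by_cases h2 : a.val + 1 < m
  · unfold CompRG
    rw [CompR_val_succ a h2]
    refine CompR_far2 (by omega) ?_
    rw [← CompR_half he]
    exact hc
  · have h3 : a.val + 1 = m := by omega
    have h4 : (a.val : ℝ) + 1 = m := by exact_mod_cast h3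
    unfold CompRG
    rw [CompR_succ_zero a h3, ZMod.val_zero]
    rw [CompR_half he] at hc
    rw [abs_of_nonneg (by linarith), abs_of_nonpos (by push_cast; linarith [Nat.cast_nonneg (α := ℝ) m])]
    push_cast
    linarith

theorem CompR_zero_pred {m : ℕ} [NeZero m] (hm : 4 ≤ m) :
    CompRG m ((0 : ZMod m) - 1) < CompRG m (0 : ZMod m) := by
  have h4 : (4 : ℝ) ≤ m := by exact_mod_cast hm
  unfold CompRG
  rw [CompR_val_pred0 (by omega), ZMod.val_zero, Nat.cast_sub (by omega)]
  push_cast
  rw [abs_of_nonneg (by linarith), abs_of_nonpos (by linarith)]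
  linarith

theorem CompR_val_half {m : ℕ} [NeZero m] (hm : 4 ≤ m) : ((m / 2 : ℕ) : ZMod m).val = m / 2 := by
  rw [ZMod.val_natCast, Nat.mod_eq_of_lt (by omega)]

theorem CompR_eq_half {m : ℕ} [NeZero m] {a : ZMod m} (h : a.val = m / 2) :
    a = ((m / 2 : ℕ) : ZMod m) := by
  rw [← h, ZMod.natCast_zmod_val]

theorem CompR_half_ne {m : ℕ} [NeZero m] (hm : 4 ≤ m) : ((m / 2 : ℕ) : ZMod m) ≠ 0 := by
  intro h
  have h1 := CompR_val_half (m := m) hm
  rw [h, ZMod.val_zero] at h1
  omega

theorem CompR_neg_one {m : ℕ} [NeZero m] (hm : 4 ≤ m) : (-1 : ZMod m).val = m - 1 := by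
  rw [← zero_sub, CompR_val_pred0 (by omega)]

theorem CompR_stp_true (m : ℕ) (a : ZMod m) : a + stp m true = a + 1 := rfl

theorem CompR_stp_false (m : ℕ) (a : ZMod m) : a + stp m false = a - 1 := by
  show a + (-1) = a - 1
  ring

/-- only the coordinate `i` moves -/
theorem CompR_mv {m : ℕ} (kd : ι → Kind) (w : ι → ZMod m) (i : ι) (s : Bool)
    (h : cmp1 m (kd i) (w i + stp m s) < cmp1 m (kd i) (w i)) :
    cmp kd m (mv w i s) < cmp kd m w := by
  unfold cmp
  refine Finset.sum_lt_sum ?_ ⟨i, Finset.mem_univ i, ?_⟩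
  · intro j _
    by_cases hj : j = i
    · subst hj
      simp only [mv, Function.update_self]
      exact h.le
    · simp only [mv, Function.update_of_ne hj]
      exact le_refl _
  · simp only [mv, Function.update_self]
    exact h

theorem CompR_mv' {m : ℕ} (kd : ι → Kind) (w : ι → ZMod m) (i : ι) (s : Bool)
    (h : cmp1 m (kd i) (w i) < cmp1 m (kd i) (w i + stp m s)) :
    cmp kd m w < cmp kd m (mv w i s) := by
  unfold cmp
  refine Finset.sum_lt_sum ?_ ⟨i, Finset.mem_univ i, ?_⟩
  · intro j _
    by_cases hj : j = i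
    · subst hj
      simp only [mv, Function.update_self]
      exact h.le
    · simp only [mv, Function.update_of_ne hj]
      exact le_refl _
  · simp only [mv, Function.update_self]
    exact h

theorem CompR_not_rem {m : ℕ} (kd : ι → Kind) (v : ι → ZMod m) (hv : ¬ Rem kd v) (i : ι)
    (s : Bool) (h : kd i = Kind.up → v i + stp m s ≠ 0) : ¬ Rem kd (mv v i s) := by
  rintro ⟨j, hj, h0⟩
  by_cases hji : j = i
  · subst hji
    simp only [mv, Function.update_self] at h0
    exact h hj h0
  · simp only [mv, Function.update_of_ne hji] at h0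
    exact hv ⟨j, hj, h0⟩

/-- one dimensional data for a regular coordinate -/
theorem CompR_reg {m : ℕ} [NeZero m] (kd : ι → Kind) (v : ι → ZMod m) (hv : ¬ Rem kd v)
    (i : ι) (s : Bool) (h1 : ok1 m (kd i) (edg (v i) s))
    (h2 : cmp1 m (kd i) (v i + stp m s) < cmp1 m (kd i) (v i))
    (h3 : ok1 m (kd i) (edg (v i) (!s)) →
      cmp1 m (kd i) (v i) < cmp1 m (kd i) (v i + stp m (!s)))
    (h4 : kd i = Kind.up → v i + stp m (!s) ≠ 0) : Reg kd (cmp kd m) v i s where
  edge := h1
  down := by
    intro w _ hw _ _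
    apply CompR_mv
    rw [hw]
    exact h2
  up := by
    intro h
    exact ⟨CompR_not_rem kd v hv i _ h4, CompR_mv' kd v i _ (h3 h)⟩

theorem cmp_reg (kd : ι → Kind) {m : ℕ} [NeZero m] (hm : 4 ≤ m) (he : Even m)
    (v : ι → ZMod m) (hv : ¬ Rem kd v) (hD : cmpD kd m v = none) :
    ∃ i s, Reg kd (cmp kd m) v i s := by
  have hex : ∃ i, ¬ (v i = ((m / 2 : ℕ) : ZMod m) ∨ (kd i = Kind.th ∧ v i = 0)) := by
    by_contra hcon
    push Not at hcon
    unfold cmpD at hD
    rw [if_pos] at hD
    · exact absurd hD (by simp)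
    · exact hcon
  obtain ⟨i, hi⟩ := hex
  have hne : v i ≠ ((m / 2 : ℕ) : ZMod m) := fun h => hi (Or.inl h)
  have hnv : (v i).val ≠ m / 2 := fun h => hne (CompR_eq_half h)
  have hth : kd i = Kind.th → v i ≠ 0 := fun h h0 => hi (Or.inr ⟨h, h0⟩)
  have hup : kd i = Kind.up → v i ≠ 0 := fun h h0 => hv ⟨i, h, h0⟩
  have hlt := ZMod.val_lt (v i)
  have hpos : v i ≠ 0 → 0 < (v i).val := by
    intro h
    rcases Nat.eq_zero_or_pos (v i).val with h0 | h0
    · exact absurd ((ZMod.val_eq_zero (v i)).1 h0) h
    · exact h0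
  refine ⟨i, ?_⟩
  cases hk : kd i with
  | th =>
    have h0 := hpos (hth hk)
    rcases Nat.lt_or_gt_of_ne hnv with hc | hc
    · refine ⟨true, CompR_reg kd v hv i true ?_ ?_ ?_ ?_⟩
      · rw [hk]
        exact ⟨fun h => by simp at h, fun h => by simp at h⟩
      · rw [hk, CompR_th, CompR_th, CompR_stp_true]
        exact CompR_succ_lt hm he _ hc
      · intro _
        rw [hk, CompR_th, CompR_th, Bool.not_true, CompR_stp_false]
        exact CompR_lt_pred he _ h0 hc.le
      · intro h
        rw [hk] at h
        simp at h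
    · refine ⟨false, CompR_reg kd v hv i false ?_ ?_ ?_ ?_⟩
      · rw [hk]
        exact ⟨fun h => by simp at h, fun h => by simp at h⟩
      · rw [hk, CompR_th, CompR_th, CompR_stp_false]
        exact CompR_pred_lt he _ hc
      · intro _
        rw [hk, CompR_th, CompR_th, Bool.not_false, CompR_stp_true]
        exact CompR_lt_succ he _ hc.le
      · intro h
        rw [hk] at h
        simp at h
  | up =>
    have h0 := hpos (hup hk)
    rcases Nat.lt_or_gt_of_ne hnv with hc | hc
    · refine ⟨false, CompR_reg kd v hv i false ?_ ?_ ?_ ?_⟩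
      · rw [hk]
        exact ⟨fun _ h => by simp [edg] at h, fun h => by simp at h⟩
      · rw [hk, CompR_up, CompR_up, CompR_stp_false]
        exact neg_lt_neg (CompR_lt_pred he _ h0 hc.le)
      · intro _
        rw [hk, CompR_up, CompR_up, Bool.not_false, CompR_stp_true]
        exact neg_lt_neg (CompR_succ_lt hm he _ hc)
      · intro _
        rw [Bool.not_false, CompR_stp_true]
        intro h
        have h1 := CompR_val_succ (v i) (by omega)
        rw [h, ZMod.val_zero] at h1
        omega
    · refine ⟨true, CompR_reg kd v hv i true ?_ ?_ ?_ ?_⟩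
      · rw [hk]
        exact ⟨fun _ h => by simp [edg] at h, fun h => by simp at h⟩
      · rw [hk, CompR_up, CompR_up, CompR_stp_true]
        exact neg_lt_neg (CompR_lt_succ he _ hc.le)
      · intro _
        rw [hk, CompR_up, CompR_up, Bool.not_true, CompR_stp_false]
        exact neg_lt_neg (CompR_pred_lt he _ hc)
      · intro _
        rw [Bool.not_true, CompR_stp_false]
        intro h
        have h1 := CompR_val_pred (v i) h0
        rw [h, ZMod.val_zero] at h1
        omega
  | dn =>
    rcases Nat.lt_or_gt_of_ne hnv with hc | hc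
    · refine ⟨true, CompR_reg kd v hv i true ?_ ?_ ?_ ?_⟩
      · rw [hk]
        refine ⟨fun h => by simp at h, fun _ h => ?_⟩
        have h1 : v i = -1 := by
          have := congrArg Prod.fst h
          simpa [edg] using this
        rw [h1, CompR_neg_one hm] at hc
        omega
      · rw [hk, CompR_dn, CompR_dn, CompR_stp_true]
        exact CompR_succ_lt hm he _ hc
      · intro hok
        rw [hk, CompR_dn, CompR_dn, Bool.not_true, CompR_stp_false]
        rw [hk, Bool.not_true] at hok
        have h0 : v i ≠ 0 := by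
          intro h0
          refine hok.2 rfl ?_
          simp [edg, h0]
        exact CompR_lt_pred he _ (hpos h0) hc.le
      · intro h
        rw [hk] at h
        simp at h
    · refine ⟨false, CompR_reg kd v hv i false ?_ ?_ ?_ ?_⟩
      · rw [hk]
        refine ⟨fun h => by simp at h, fun _ h => ?_⟩
        have h1 : v i - 1 = -1 := by
          have := congrArg Prod.fst h
          simpa [edg] using this
        have h2 : v i = 0 := by
          have := congrArg (· + 1) h1
          simpa using this
        rw [h2, ZMod.val_zero] at hc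
        omega
      · rw [hk, CompR_dn, CompR_dn, CompR_stp_false]
        exact CompR_pred_lt he _ hc
      · intro _
        rw [hk, CompR_dn, CompR_dn, Bool.not_false, CompR_stp_true]
        exact CompR_lt_succ he _ hc.le
      · intro h
        rw [hk] at h
        simp at h

theorem cmp_cri (kd : ι → Kind) {m : ℕ} [NeZero m] (hm : 4 ≤ m) (he : Even m)
    (v : ι → ZMod m) (e : ι → Bool) (hv : ¬ Rem kd v) (hD : cmpD kd m v = some e) :
    Cri kd (cmp kd m) v e := by
  unfold cmpD at hD
  split_ifs at hD with hsp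
  have hee : ∀ i, e i = decide (kd i = Kind.up ∨ v i = 0) := by
    intro i
    have := congrFun (Option.some.inj hD) i
    exact this.symm
  have hval : ∀ i, v i = ((m / 2 : ℕ) : ZMod m) → (v i).val = m / 2 := by
    intro i h
    rw [h, CompR_val_half hm]
  -- one dimensional strict inequalities at the critical positions
  have hmid : ∀ i, v i = ((m / 2 : ℕ) : ZMod m) → ∀ s, CompRG m (v i) < CompRG m (v i + stp m s) := by
    intro i h s
    have h1 := hval i h
    cases s
    · rw [CompR_stp_false]
      exact CompR_lt_pred he _ (by omega) (by omega)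
    · rw [CompR_stp_true]
      exact CompR_lt_succ he _ (by omega)
  have hzero : ∀ i, v i = 0 → ∀ s, CompRG m (v i + stp m s) < CompRG m (v i) := by
    intro i h s
    cases s
    · rw [CompR_stp_false, h]
      exact CompR_zero_pred hm
    · rw [CompR_stp_true]
      refine CompR_succ_lt hm he _ ?_
      rw [h, ZMod.val_zero]
      omega
  constructor
  · intro i hi s
    rw [hee i, decide_eq_true_eq] at hi
    rcases hi with h | h
    · rw [h]
      refine ⟨fun _ h1 => ?_, fun h1 => by simp at h1⟩
      cases s <;> simp [edg] at h1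
    · rcases hsp i with h1 | h1
      · exact absurd (h1.symm.trans h) (CompR_half_ne hm)
      · rw [h1.1]
        exact ⟨fun h2 => by simp at h2, fun h2 => by simp at h2⟩
  · intro i hi s _
    rw [hee i, decide_eq_false_iff_not] at hi
    push Not at hi
    have h1 : v i = ((m / 2 : ℕ) : ZMod m) := by
      rcases hsp i with h1 | h1
      · exact h1
      · exact absurd h1.2 hi.2
    refine ⟨CompR_not_rem kd v hv i s (fun h => absurd h hi.1), CompR_mv' kd v i s ?_⟩
    have h2 := hmid i h1 s
    cases hk : kd i with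
    | th => exact h2
    | up => exact absurd hk hi.1
    | dn => exact h2
  · intro w hw hfix hne _
    have hloc : ∀ i, w i ≠ v i → cmp1 m (kd i) (w i) < cmp1 m (kd i) (v i) := by
      intro i hi
      have he1 : e i = true := by
        by_contra hcon
        exact hi (hfix i (by simpa using hcon))
      rw [hee i, decide_eq_true_eq] at he1
      rcases hw i with h | ⟨s, _, hs⟩
      · exact absurd h hi
      · rw [hs]
        rcases he1 with h | h
        · rw [h, CompR_up, CompR_up]
          have h1 : v i = ((m / 2 : ℕ) : ZMod m) := by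
            rcases hsp i with h1 | h1
            · exact h1
            · rw [h] at h1
              exact absurd h1.1 (by simp)
          exact neg_lt_neg (hmid i h1 s)
        · rcases hsp i with h1 | h1
          · exact absurd (h1.symm.trans h) (CompR_half_ne hm)
          · rw [h1.1, CompR_th, CompR_th]
            exact hzero i h s
    obtain ⟨i, hi⟩ := Function.ne_iff.1 hne
    unfold cmp
    refine Finset.sum_lt_sum ?_ ⟨i, Finset.mem_univ i, hloc i hi⟩
    intro j _
    by_cases hj : w j = v j
    · rw [hj]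
    · exact (hloc j hj).le

end Pool.Agent.H47.QG
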