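import Pool.Agent.H47.QG.Star
import Pool.Agent.H47.QG.CompR
import Pool.Agent.H47.QG.CompN

/-!
# The grid gap theorem
-/

set_option autoImplicit false

namespace Pool.Agent.H47.QG

/-- truncated alternating sum of shifted binomial coefficients, `n` not zero, all terms present -/
theorem Comp_alt (u n d : ℕ) (hn : n ≠ 0) (hd : u + n ≤ d) :
    ∑ k ∈ Finset.range (d + 1), (-1 : ℤ) ^ k *
      ((if u ≤ k then n.choose (k - u) else 0 : ℕ) : ℤ) = 0 := by
  obtain ⟨e, rfl⟩ := Nat.exists_eq_add_of_le hd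
  have h1 : u + n + e + 1 = u + (n + 1 + e) := by omega
  rw [h1, Finset.sum_range_add]
  have h2 : ∑ k ∈ Finset.range u, (-1 : ℤ) ^ k *
      ((if u ≤ k then n.choose (k - u) else 0 : ℕ) : ℤ) = 0 := by
    apply Finset.sum_eq_zero
    intro k hk
    rw [Finset.mem_range] at hk
    rw [if_neg (by omega)]
    simp
  rw [h2, zero_add, Finset.sum_range_add]
  have h3 : ∑ k ∈ Finset.range e, (-1 : ℤ) ^ (u + (n + 1 + k)) *
      ((if u ≤ u + (n + 1 + k) then n.choose (u + (n + 1 + k) - u) else 0 : ℕ) : ℤ) = 0 := by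
    apply Finset.sum_eq_zero
    intro k hk
    rw [if_pos (by omega), Nat.choose_eq_zero_of_lt (by omega)]
    simp
  rw [h3, add_zero]
  have h4 : ∑ k ∈ Finset.range (n + 1), (-1 : ℤ) ^ (u + k) *
      ((if u ≤ u + k then n.choose (u + k - u) else 0 : ℕ) : ℤ) =
      (-1 : ℤ) ^ u * ∑ k ∈ Finset.range (n + 1), ((-1) ^ k * n.choose k : ℤ) := by
    rw [Finset.mul_sum]
    apply Finset.sum_congr rfl
    intro k _
    rw [if_pos (by omega), Nat.add_sub_cancel_left, pow_add]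
    ring
  rw [h4, Int.alternating_sum_range_choose_of_ne hn, mul_zero]

variable {ι : Type*} [Fintype ι] [DecidableEq ι]

/-- **Grid gap theorem.** -/
theorem grid_gap [LinearOrder ι] (kd : ι → Kind) {m : ℕ} [NeZero m] (hm : 4 ≤ m) (he : Even m)
    (hth : ∃ i, kd i = Kind.th)
    (f : (ι → ZMod m) → ℝ) (D : (ι → ZMod m) → Option (ι → Bool))
    (hreg : ∀ v, ¬ Rem kd v → D v = none → ∃ i s, Reg kd f v i s)
    (hcri : ∀ v e, ¬ Rem kd v → D v = some e → Cri kd f v e)
    (d : ℕ) (hd : ∀ v e, ¬ Rem kd v → D v = some e → nneg e ≠ d + 1)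
    (hb : d + 1 < nk kd Kind.up ∨ nk kd Kind.up + nk kd Kind.th < d + 1) :
    ∑ k ∈ Finset.range (d + 1), (-1 : ℤ) ^ k *
      Nat.card {v : ι → ZMod m // ¬ Rem kd v ∧ ∃ e, D v = some e ∧ nneg e = k} = 0 := by
  classical
  have hm3 : 3 ≤ m := by omega
  obtain ⟨M, hM⟩ := exists_mat kd hm3 f D hreg hcri
  obtain ⟨M', hM'⟩ := exists_mat kd hm3 (cmp kd m) (cmpD kd m)
    (fun v hv hD => cmp_reg kd hm he v hv hD) (fun v e hv hD => cmp_cri kd hm he v e hv hD)
  have hc : ∀ k, M.crit k =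
      Nat.card {v : ι → ZMod m // ¬ Rem kd v ∧ ∃ e, D v = some e ∧ nneg e = k} := by
    intro k
    rw [← hM k]
    unfold Mat.crit
    congr
  have hc' : ∀ k, M'.crit k =
      if nk kd Kind.up ≤ k then (nk kd Kind.th).choose (k - nk kd Kind.up) else 0 := by
    intro k
    rw [← cmp_card kd hm he k, ← hM' k]
    unfold Mat.crit
    congr
  have h0 : M.crit (d + 1) = 0 := by
    rw [hc]
    have : IsEmpty {v : ι → ZMod m // ¬ Rem kd v ∧ ∃ e, D v = some e ∧ nneg e = d + 1} := by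
      refine ⟨fun x => ?_⟩
      obtain ⟨e, h1, h2⟩ := x.2.2
      exact hd x.1 e x.2.1 h1 h2
    exact Nat.card_of_isEmpty
  have h0' : M'.crit (d + 1) = 0 := by
    rw [hc']
    rcases hb with hb | hb
    · rw [if_neg (by omega)]
    · rw [if_pos (by omega), Nat.choose_eq_zero_of_lt (by omega)]
  have h1 := gap M M' d h0 h0'
  have h2 : ∑ k ∈ Finset.range (d + 1), (-1 : ℤ) ^ k *
      Nat.card {v : ι → ZMod m // ¬ Rem kd v ∧ ∃ e, D v = some e ∧ nneg e = k} =
      ∑ i ∈ Finset.range (d + 1), (-1 : ℤ) ^ i * M.crit i := by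
    apply Finset.sum_congr rfl
    intro k _
    rw [hc k]
  rw [h2, h1]
  have h3 : ∑ i ∈ Finset.range (d + 1), (-1 : ℤ) ^ i * (M'.crit i : ℤ) =
      ∑ k ∈ Finset.range (d + 1), (-1 : ℤ) ^ k *
        ((if nk kd Kind.up ≤ k then (nk kd Kind.th).choose (k - nk kd Kind.up) else 0 : ℕ) : ℤ) := by
    apply Finset.sum_congr rfl
    intro k _
    rw [hc' k]
  rw [h3]
  rcases hb with hb | hb
  · apply Finset.sum_eq_zero
    intro k hk
    rw [Finset.mem_range] at hk
    rw [if_neg (by omega)]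
    simp
  · apply Comp_alt
    · obtain ⟨i, hi⟩ := hth
      unfold nk
      rw [Finset.card_ne_zero]
      exact ⟨i, by simp [hi]⟩
    · omega

end Pool.Agent.H47.QG
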