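import Pool.Agent.H47.QG.StarD

/-!
# The comparison function
-/

set_option autoImplicit false

namespace Pool.Agent.H47.QG

variable {ι : Type*} [Fintype ι] [DecidableEq ι]

/-- number of coordinates of a given kind -/
def nk (kd : ι → Kind) (k : Kind) : ℕ := (Finset.univ.filter fun i => kd i = k).card

/-- one dimensional comparison function -/
noncomputable def cmp1 (m : ℕ) (k : Kind) (a : ZMod m) : ℝ :=
  match k with
  | Kind.th => |(a.val : ℝ) - m / 2|
  | Kind.up => -|(a.val : ℝ) - m / 2|
  | Kind.dn => |(a.val : ℝ) - m / 2|

/-- the comparison function -/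
noncomputable def cmp (kd : ι → Kind) (m : ℕ) (v : ι → ZMod m) : ℝ := ∑ i, cmp1 m (kd i) (v i)

open Classical in
/-- local data of the comparison function: all coordinates are `m / 2`, or `0` for the circle
coordinates, the latter being the negative directions besides the `up` coordinates. -/
noncomputable def cmpD (kd : ι → Kind) (m : ℕ) (v : ι → ZMod m) : Option (ι → Bool) :=
  if ∀ i, v i = ((m / 2 : ℕ) : ZMod m) ∨ (kd i = Kind.th ∧ v i = 0) then
    some fun i => decide (kd i = Kind.up ∨ v i = 0)
  else none

end Pool.Agent.H47.QG
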