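import Pool.Agent.H47.QG.StarD

/-!
# Discretisation: definitions
-/

set_option autoImplicit false

namespace Pool.Agent.H47.QG

variable {ι : Type*} [Fintype ι] [DecidableEq ι]

/-- The point of the unit cube with grid coordinates `v`. -/
noncomputable def pos {m : ℕ} (v : ι → ZMod m) : ι → ℝ := fun i => ((v i).val : ℝ) / m

/-- `g` is periodic in the circle coordinates. -/
def Per (kd : ι → Kind) (g : (ι → ℝ) → ℝ) : Prop :=
  ∀ x i, kd i = Kind.th → g (x + Pi.single i 1) = g x

/-- sign of a direction -/
noncomputable def sg (s : Bool) : ℝ := if s then 1 else -1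

end Pool.Agent.H47.QG
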