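import Pool.Agent.H47.QG.ModF

/-!
# Modification near a nondegenerate critical point
-/

set_option autoImplicit false

open Module QuadraticForm

namespace Pool.Agent.H47.QG

theorem Mod_smooth_bound : ∃ C : ℝ, 0 ≤ C ∧ ∀ v, |deriv Real.smoothTransition v| ≤ C := by
  have h1 : Continuous (deriv Real.smoothTransition) :=
    (Real.smoothTransition.contDiff (n := 1)).continuous_deriv le_rfl
  obtain ⟨C, hC⟩ := (isCompact_Icc (a := (0 : ℝ)) (b := 1)).exists_bound_of_continuousOn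
    h1.continuousOn
  refine ⟨max C 0, le_max_right _ _, fun v => ?_⟩
  by_cases h0 : v < 0
  · have h2 : Real.smoothTransition =ᶠ[nhds v] fun _ => (0 : ℝ) := by
      filter_upwards [Iio_mem_nhds h0] with u hu
      exact Real.smoothTransition.zero_of_nonpos (le_of_lt hu)
    rw [h2.deriv_eq, deriv_const, abs_zero]
    exact le_max_right _ _
  · by_cases h1' : 1 < v
    · have h2 : Real.smoothTransition =ᶠ[nhds v] fun _ => (1 : ℝ) := by
        filter_upwards [Ioi_mem_nhds h1'] with u hu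
        exact Real.smoothTransition.one_of_one_le (le_of_lt hu)
      rw [h2.deriv_eq, deriv_const, abs_zero]
      exact le_max_right _ _
    · exact (hC v ⟨not_lt.1 h0, not_lt.1 h1'⟩).trans (le_max_left _ _)

/-- slow cut-off functions -/
theorem Mod_cut (ε β : ℝ) (hε : 0 < ε) (hβ : 0 < β) : ∃ (ρ : ℝ → ℝ) (α : ℝ), 0 < α ∧ α < β ∧
    ContDiff ℝ 2 ρ ∧ (∀ u, 0 ≤ ρ u ∧ ρ u ≤ 1) ∧ (∀ u, u ≤ α → ρ u = 1) ∧
    (∀ u, β ≤ u → ρ u = 0) ∧ ∀ u, |u * deriv ρ u| ≤ ε := by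
  obtain ⟨C, hC0, hC⟩ := Mod_smooth_bound
  obtain ⟨Λ, hΛ, hΛC⟩ : ∃ Λ : ℝ, 0 < Λ ∧ C ≤ ε * Λ := by
    refine ⟨C / ε + 1, by positivity, ?_⟩
    rw [mul_add, mul_div_cancel₀ _ hε.ne']
    linarith
  let φ : ℝ → ℝ := fun u => Real.smoothTransition ((Real.log β - Real.log u) / Λ)
  let ρ : ℝ → ℝ := fun u => if u ≤ 0 then 1 else φ u
  have hα : 0 < β * Real.exp (-Λ) := by positivity
  have hαβ : β * Real.exp (-Λ) < β := by
    have h1 : Real.exp (-Λ) < 1 := by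
      rw [← Real.exp_zero]
      exact Real.exp_lt_exp.2 (by linarith)
    nlinarith
  have h1 : ∀ u, u ≤ β * Real.exp (-Λ) → ρ u = 1 := by
    intro u hu
    by_cases h0 : u ≤ 0
    · exact if_pos h0
    · have h2 : ρ u = φ u := if_neg h0
      rw [h2]
      apply Real.smoothTransition.one_of_one_le
      rw [le_div_iff₀ hΛ, one_mul]
      have h3 := Real.log_le_log (not_le.1 h0) hu
      rw [Real.log_mul hβ.ne' (Real.exp_pos _).ne', Real.log_exp] at h3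
      linarith
  have hev1 : ∀ u, u < β * Real.exp (-Λ) → ρ =ᶠ[nhds u] fun _ => (1 : ℝ) := by
    intro u hu
    filter_upwards [Iio_mem_nhds hu] with v hv
    exact h1 v (le_of_lt hv)
  have hev2 : ∀ u, 0 < u → ρ =ᶠ[nhds u] φ := by
    intro u hu
    filter_upwards [Ioi_mem_nhds hu] with v hv
    exact if_neg (not_le.2 hv)
  have hφ : ∀ u, 0 < u → HasDerivAt φ
      (deriv Real.smoothTransition ((Real.log β - Real.log u) / Λ) * (-u⁻¹ / Λ)) u := by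
    intro u hu
    have h2 : HasDerivAt (fun u => (Real.log β - Real.log u) / Λ) (-u⁻¹ / Λ) u :=
      ((Real.hasDerivAt_log hu.ne').const_sub _).div_const Λ
    have h3 : HasDerivAt Real.smoothTransition
        (deriv Real.smoothTransition ((Real.log β - Real.log u) / Λ))
        ((Real.log β - Real.log u) / Λ) :=
      (((Real.smoothTransition.contDiff (n := 1)).differentiable one_ne_zero) _).hasDerivAt
    exact h3.comp u h2
  refine ⟨ρ, β * Real.exp (-Λ), hα, hαβ, ?_, ?_, h1, ?_, ?_⟩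
  · rw [contDiff_iff_contDiffAt]
    intro u
    by_cases hu : u < β * Real.exp (-Λ)
    · exact contDiffAt_const.congr_of_eventuallyEq (hev1 u hu)
    · have hu0 : 0 < u := hα.trans_le (not_lt.1 hu)
      refine ContDiffAt.congr_of_eventuallyEq ?_ (hev2 u hu0)
      have h2 : ContDiffAt ℝ 2 (fun u => (Real.log β - Real.log u) / Λ) u :=
        (contDiffAt_const.sub (contDiffAt_id.log hu0.ne')).div_const Λ
      exact (Real.smoothTransition.contDiff (n := 2)).contDiffAt.comp u h2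
  · intro u
    by_cases h0 : u ≤ 0
    · have h2 : ρ u = 1 := if_pos h0
      rw [h2]
      exact ⟨zero_le_one, le_rfl⟩
    · have h2 : ρ u = φ u := if_neg h0
      rw [h2]
      exact ⟨Real.smoothTransition.nonneg _, Real.smoothTransition.le_one _⟩
  · intro u hu
    have hu0 : 0 < u := hβ.trans_le hu
    have h2 : ρ u = φ u := if_neg (not_le.2 hu0)
    rw [h2]
    apply Real.smoothTransition.zero_of_nonpos
    have h3 := Real.log_le_log hβ hu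
    apply div_nonpos_of_nonpos_of_nonneg _ hΛ.le
    linarith
  · intro u
    by_cases hu : u < β * Real.exp (-Λ)
    · rw [(hev1 u hu).deriv_eq, deriv_const, mul_zero, abs_zero]
      exact hε.le
    · have hu0 : 0 < u := hα.trans_le (not_lt.1 hu)
      rw [(hev2 u hu0).deriv_eq, (hφ u hu0).deriv]
      have h3 : u * (deriv Real.smoothTransition ((Real.log β - Real.log u) / Λ) * (-u⁻¹ / Λ)) =
          -(deriv Real.smoothTransition ((Real.log β - Real.log u) / Λ) / Λ) := by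
        field_simp
      rw [h3, abs_neg, abs_div, abs_of_pos hΛ, div_le_iff₀ hΛ]
      exact (hC _).trans hΛC

section taylor

variable {E : Type*} [NormedAddCommGroup E] [NormedSpace ℝ E]

/-- the remainder -/
noncomputable def ModR (f : E → ℝ) (z x : E) : ℝ := f (z + x) - f z - hess f z x / 2

theorem Mod_hasFDerivAt_hess {f : E → ℝ} (hf : ContDiff ℝ 2 f) (z x : E) :
    HasFDerivAt (fun x => hess f z x / 2) (fderiv ℝ (fderiv ℝ f) z x) x := by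
  have hsym : ∀ v w, fderiv ℝ (fderiv ℝ f) z v w = fderiv ℝ (fderiv ℝ f) z w v := by
    have h := (hf.contDiffAt (x := z)).isSymmSndFDerivAt
      (by rw [minSmoothness_of_isRCLikeNormedField])
    exact fun v w => h v w
  have h1 : HasFDerivAt (fun x => fderiv ℝ (fderiv ℝ f) z x x)
      (((fderiv ℝ (fderiv ℝ f) z x).comp (ContinuousLinearMap.id ℝ E)) +
        ((fderiv ℝ (fderiv ℝ f) z).flip x)) x := by
    have h2 : HasFDerivAt (fun x => fderiv ℝ (fderiv ℝ f) z x) (fderiv ℝ (fderiv ℝ f) z) x :=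
      (fderiv ℝ (fderiv ℝ f) z).hasFDerivAt
    exact h2.clm_apply (hasFDerivAt_id x)
  have h3 := h1.const_mul ((2 : ℝ)⁻¹)
  have h5 : (fun x => hess f z x / 2) = fun x => (2 : ℝ)⁻¹ * (fderiv ℝ (fderiv ℝ f) z x x) := by
    ext x
    rw [hess_apply]
    ring
  have h4 : (2 : ℝ)⁻¹ • (((fderiv ℝ (fderiv ℝ f) z x).comp (ContinuousLinearMap.id ℝ E)) +
        ((fderiv ℝ (fderiv ℝ f) z).flip x)) = fderiv ℝ (fderiv ℝ f) z x := by
    ext y
    simp only [ContinuousLinearMap.smul_apply, ContinuousLinearMap.add_apply,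
      ContinuousLinearMap.comp_apply, ContinuousLinearMap.id_apply,
      ContinuousLinearMap.flip_apply, smul_eq_mul]
    rw [hsym y x]
    ring
  rw [← h4, h5]
  exact h3

theorem Mod_hasFDerivAt_R {f : E → ℝ} (hf : ContDiff ℝ 2 f) (z x : E) :
    HasFDerivAt (ModR f z) (fderiv ℝ f (z + x) - fderiv ℝ (fderiv ℝ f) z x) x := by
  have h1 : HasFDerivAt (fun x => f (z + x)) (fderiv ℝ f (z + x)) x := by
    have h2 : HasFDerivAt f (fderiv ℝ f (z + x)) (z + x) :=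
      (hf.differentiable two_ne_zero _).hasFDerivAt
    have h3 : HasFDerivAt (fun x : E => z + x) (ContinuousLinearMap.id ℝ E) x :=
      (hasFDerivAt_id x).const_add z
    have h4 := h2.comp x h3
    rwa [ContinuousLinearMap.comp_id] at h4
  exact (h1.sub_const (f z)).sub (Mod_hasFDerivAt_hess hf z x)

theorem Mod_contDiff_R {f : E → ℝ} (hf : ContDiff ℝ 2 f) (z : E) : ContDiff ℝ 2 (ModR f z) := by
  have h1 : ContDiff ℝ 2 fun x => f (z + x) := hf.comp (contDiff_const.add contDiff_id)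
  have h2 : ContDiff ℝ 2 fun x => fderiv ℝ (fderiv ℝ f) z x x :=
    (fderiv ℝ (fderiv ℝ f) z).contDiff.clm_apply contDiff_id
  exact (h1.sub contDiff_const).sub (h2.div_const 2)

theorem Mod_R_small {f : E → ℝ} (hf : ContDiff ℝ 2 f) (z : E) (hz0 : fderiv ℝ f z = 0) (η : ℝ)
    (hη : 0 < η) : ∃ s : ℝ, 0 < s ∧ ∀ x : E, ‖x‖ ≤ s →
      |ModR f z x| ≤ η * ‖x‖ ^ 2 ∧ ‖fderiv ℝ (ModR f z) x‖ ≤ η * ‖x‖ := by
  have hd : HasFDerivAt (fderiv ℝ f) (fderiv ℝ (fderiv ℝ f) z) z :=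
    (((hf.fderiv_right (m := 1) (by norm_num)).differentiable one_ne_zero) z).hasFDerivAt
  have h1 := hd.isLittleO.def hη
  rw [Metric.eventually_nhds_iff] at h1
  obtain ⟨s, hs, hs2⟩ := h1
  have h2 : ∀ x : E, ‖x‖ ≤ s / 2 → ‖fderiv ℝ (ModR f z) x‖ ≤ η * ‖x‖ := by
    intro x hx
    have h3 := hs2 (y := z + x) (by rw [dist_eq_norm, add_sub_cancel_left]; linarith)
    rw [(Mod_hasFDerivAt_R hf z x).fderiv]
    rw [hz0, sub_zero, add_sub_cancel_left] at h3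
    exact h3
  refine ⟨s / 2, half_pos hs, fun x hx => ⟨?_, h2 x hx⟩⟩
  have h4 : ∀ y ∈ Metric.closedBall (0 : E) ‖x‖, ‖fderiv ℝ (ModR f z) y‖ ≤ η * ‖x‖ := by
    intro y hy
    rw [mem_closedBall_zero_iff] at hy
    refine (h2 y (hy.trans hx)).trans ?_
    gcongr
  have h5 := (convex_closedBall (0 : E) ‖x‖).norm_image_sub_le_of_norm_fderiv_le
    (fun y _ => (Mod_hasFDerivAt_R hf z y).differentiableAt) h4
    (Metric.mem_closedBall_self (norm_nonneg x)) (mem_closedBall_zero_iff.2 le_rfl : x ∈ _)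
  have h6 : ModR f z 0 = 0 := by
    unfold ModR
    rw [add_zero, QuadraticMap.map_zero]
    ring
  rw [h6, sub_zero, sub_zero, Real.norm_eq_abs] at h5
  calc |ModR f z x| ≤ η * ‖x‖ * ‖x‖ := h5
    _ = η * ‖x‖ ^ 2 := by ring

end taylor

section norm

variable {ι : Type*} [Fintype ι]

/-- square of the euclidean norm -/
def ModN (x : ι → ℝ) : ℝ := ∑ i, x i ^ 2

theorem Mod_N_ge (x : ι → ℝ) : ‖x‖ ^ 2 ≤ ModN x := by
  have h0 : 0 ≤ ModN x := Finset.sum_nonneg fun i _ => sq_nonneg _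
  have h1 : ‖x‖ ≤ Real.sqrt (ModN x) := by
    rw [pi_norm_le_iff_of_nonneg (Real.sqrt_nonneg _)]
    intro i
    apply Real.le_sqrt_of_sq_le
    rw [Real.norm_eq_abs, sq_abs]
    exact Finset.single_le_sum (f := fun i => x i ^ 2) (fun i _ => sq_nonneg _)
      (Finset.mem_univ i)
  have h2 := pow_le_pow_left₀ (norm_nonneg x) h1 2
  rwa [Real.sq_sqrt h0] at h2

theorem Mod_contDiff_N : ContDiff ℝ 2 (ModN : (ι → ℝ) → ℝ) := by
  unfold ModN
  fun_prop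

theorem Mod_hasFDerivAt_N (x : ι → ℝ) : ∃ L : (ι → ℝ) →L[ℝ] ℝ, HasFDerivAt ModN L x ∧
    ∀ y, |L y| ≤ 2 * (Fintype.card ι : ℝ) * ‖x‖ * ‖y‖ := by
  have h1 : HasFDerivAt (ModN : (ι → ℝ) → ℝ)
      (∑ i, (2 * x i) • (ContinuousLinearMap.proj i : (ι → ℝ) →L[ℝ] ℝ)) x := by
    have h2 : ∀ i ∈ Finset.univ, HasFDerivAt (fun x : ι → ℝ => x i ^ 2)
        ((2 * x i) • (ContinuousLinearMap.proj i : (ι → ℝ) →L[ℝ] ℝ)) x := by
      intro i _
      have h3 : HasFDerivAt (fun x : ι → ℝ => x i)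
          (ContinuousLinearMap.proj i : (ι → ℝ) →L[ℝ] ℝ) x :=
        (ContinuousLinearMap.proj i : (ι → ℝ) →L[ℝ] ℝ).hasFDerivAt
      have h4 := h3.pow 2
      simpa using h4
    exact HasFDerivAt.fun_sum h2
  refine ⟨_, h1, fun y => ?_⟩
  rw [_root_.sum_apply]
  calc |∑ i, ((2 * x i) • (ContinuousLinearMap.proj i : (ι → ℝ) →L[ℝ] ℝ)) y|
      ≤ ∑ i, |((2 * x i) • (ContinuousLinearMap.proj i : (ι → ℝ) →L[ℝ] ℝ)) y| :=
        Finset.abs_sum_le_sum_abs _ _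
    _ ≤ ∑ _i : ι, 2 * ‖x‖ * ‖y‖ := by
        apply Finset.sum_le_sum
        intro i _
        have h5 : ((2 * x i) • (ContinuousLinearMap.proj i : (ι → ℝ) →L[ℝ] ℝ)) y =
            2 * x i * y i := rfl
        rw [h5, abs_mul, abs_mul, abs_two]
        have h6 : |x i| ≤ ‖x‖ := norm_le_pi_norm x i
        have h7 : |y i| ≤ ‖y‖ := norm_le_pi_norm y i
        gcongr
    _ = 2 * (Fintype.card ι : ℝ) * ‖x‖ * ‖y‖ := by
        rw [Finset.sum_const, Finset.card_univ, nsmul_eq_mul]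
        ring

/-- the cut-off functions `ρ (N x)` have small logarithmic derivative -/
theorem Mod_cut_deriv {ρ : ℝ → ℝ} (hρ : ContDiff ℝ 2 ρ) {ε : ℝ}
    (hρε : ∀ u, |u * deriv ρ u| ≤ ε) (x : ι → ℝ) (hx : x ≠ 0) :
    ∃ L : (ι → ℝ) →L[ℝ] ℝ, HasFDerivAt (fun x => ρ (ModN x)) L x ∧
      ∀ y, |L y| * ‖x‖ ≤ 2 * (Fintype.card ι : ℝ) * ε * ‖y‖ := by
  obtain ⟨L, hL, hL2⟩ := Mod_hasFDerivAt_N x
  have h1 : HasDerivAt ρ (deriv ρ (ModN x)) (ModN x) :=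
    (hρ.differentiable two_ne_zero _).hasDerivAt
  have h2 := h1.comp_hasFDerivAt x hL
  refine ⟨_, h2, fun y => ?_⟩
  have hx0 : 0 < ‖x‖ := norm_pos_iff.2 hx
  have h3 := Mod_N_ge x
  have h4 : (deriv ρ (ModN x) • L) y = deriv ρ (ModN x) * L y := rfl
  rw [h4, abs_mul]
  have h5 : |deriv ρ (ModN x)| * ‖x‖ ^ 2 ≤ ε := by
    calc |deriv ρ (ModN x)| * ‖x‖ ^ 2 ≤ |deriv ρ (ModN x)| * ModN x := by gcongr
      _ = |ModN x * deriv ρ (ModN x)| := by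
        rw [abs_mul, abs_of_nonneg ((sq_nonneg _).trans h3), mul_comm]
      _ ≤ ε := hρε _
  have hn : (0 : ℝ) ≤ Fintype.card ι := Nat.cast_nonneg _
  have hy : 0 ≤ ‖y‖ := norm_nonneg y
  calc |deriv ρ (ModN x)| * |L y| * ‖x‖
      ≤ |deriv ρ (ModN x)| * (2 * (Fintype.card ι : ℝ) * ‖x‖ * ‖y‖) * ‖x‖ := by
        gcongr
        exact hL2 y
    _ = 2 * (Fintype.card ι : ℝ) * (|deriv ρ (ModN x)| * ‖x‖ ^ 2) * ‖y‖ := by ring
    _ ≤ 2 * (Fintype.card ι : ℝ) * ε * ‖y‖ := by gcongr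

end norm

/-- the derivative of the modified function does not vanish -/
theorem Mod_main {ι : Type*} [Fintype ι] {q : ℝ → (ι → ℝ) → ℝ} {a b : ℝ} (ha : 0 < a)
    (hb : 0 < b) (hq : ContDiff ℝ 2 fun p : ℝ × (ι → ℝ) => q p.1 p.2)
    (hest : ∀ t ∈ Set.Icc (0 : ℝ) 1, ∀ x, ∃ y, ‖y‖ ≤ b * ‖x‖ ∧
      a * ‖x‖ ^ 2 ≤ fderiv ℝ (q t) x y ∧ |fderiv ℝ (fun t => q t x) t 1| ≤ b * ‖x‖ ^ 2)
    {ρ₁ ρ₂ : ℝ → ℝ} {ε η A : ℝ} (hρ₁ : ContDiff ℝ 2 ρ₁) (hρ₂ : ContDiff ℝ 2 ρ₂)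
    (h01 : ∀ u, 0 ≤ ρ₁ u ∧ ρ₁ u ≤ 1) (h02 : ∀ u, 0 ≤ ρ₂ u ∧ ρ₂ u ≤ 1)
    (hd1 : ∀ u, |u * deriv ρ₁ u| ≤ ε) (hd2 : ∀ u, |u * deriv ρ₂ u| ≤ 1)
    (hε0 : 0 ≤ ε) (hη0 : 0 ≤ η)
    (hε : (Fintype.card ι : ℝ) * b ^ 2 * ε ≤ a / 8)
    (hη : (2 * (Fintype.card ι : ℝ) + 1) * b * η ≤ a / 8)
    {R : (ι → ℝ) → ℝ} {x : ι → ℝ} (hx : x ≠ 0) (hR : DifferentiableAt ℝ R x)
    (hR1 : |R x| ≤ η * ‖x‖ ^ 2) (hR2 : ‖fderiv ℝ R x‖ ≤ η * ‖x‖) :
    fderiv ℝ (fun x => A + 2⁻¹ * q (ρ₁ (ModN x)) x + (1 - ρ₂ (ModN x)) * R x) x ≠ 0 := by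
  intro h0
  have hx0 : 0 < ‖x‖ := norm_pos_iff.2 hx
  obtain ⟨y, hy, hB, hA⟩ := hest (ρ₁ (ModN x)) ⟨(h01 _).1, (h01 _).2⟩ x
  obtain ⟨L₁, hL₁, hL₁2⟩ := Mod_cut_deriv hρ₁ hd1 x hx
  obtain ⟨L₂, hL₂, hL₂2⟩ := Mod_cut_deriv hρ₂ hd2 x hx
  have hΦ : HasFDerivAt (fun p : ℝ × (ι → ℝ) => q p.1 p.2)
      (fderiv ℝ (fun p : ℝ × (ι → ℝ) => q p.1 p.2) (ρ₁ (ModN x), x)) (ρ₁ (ModN x), x) :=
    (hq.differentiable two_ne_zero _).hasFDerivAt
  set Φ' := fderiv ℝ (fun p : ℝ × (ι → ℝ) => q p.1 p.2) (ρ₁ (ModN x), x) with hΦ'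
  have e1 : fderiv ℝ (fun t => q t x) (ρ₁ (ModN x)) 1 = Φ' (1, 0) := by
    have h1 : HasFDerivAt (fun t : ℝ => (t, x))
        ((ContinuousLinearMap.id ℝ ℝ).prod (0 : ℝ →L[ℝ] (ι → ℝ))) (ρ₁ (ModN x)) :=
      (hasFDerivAt_id _).prodMk (hasFDerivAt_const _ _)
    have h2 := HasFDerivAt.comp (ρ₁ (ModN x)) hΦ h1
    have h3 : HasFDerivAt (fun t => q t x)
        (Φ'.comp ((ContinuousLinearMap.id ℝ ℝ).prod (0 : ℝ →L[ℝ] (ι → ℝ)))) (ρ₁ (ModN x)) := h2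
    rw [h3.fderiv]
    rfl
  have e2 : fderiv ℝ (q (ρ₁ (ModN x))) x y = Φ' (0, y) := by
    have h1 : HasFDerivAt (fun v : ι → ℝ => (ρ₁ (ModN x), v))
        ((0 : (ι → ℝ) →L[ℝ] ℝ).prod (ContinuousLinearMap.id ℝ (ι → ℝ))) x :=
      (hasFDerivAt_const _ _).prodMk (hasFDerivAt_id _)
    have h2 := HasFDerivAt.comp x hΦ h1
    have h3 : HasFDerivAt (q (ρ₁ (ModN x)))
        (Φ'.comp ((0 : (ι → ℝ) →L[ℝ] ℝ).prod (ContinuousLinearMap.id ℝ (ι → ℝ)))) x := h2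
    rw [h3.fderiv]
    rfl
  have h3 : HasFDerivAt (fun x => q (ρ₁ (ModN x)) x)
      (Φ'.comp (L₁.prod (ContinuousLinearMap.id ℝ (ι → ℝ)))) x := by
    have h1 : HasFDerivAt (fun v : ι → ℝ => (ρ₁ (ModN v), v))
        (L₁.prod (ContinuousLinearMap.id ℝ (ι → ℝ))) x := hL₁.prodMk (hasFDerivAt_id _)
    exact HasFDerivAt.comp (f := fun v : ι → ℝ => (ρ₁ (ModN v), v)) x hΦ h1
  have h4 : HasFDerivAt (fun x => A + 2⁻¹ * q (ρ₁ (ModN x)) x + (1 - ρ₂ (ModN x)) * R x)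
      ((2 : ℝ)⁻¹ • (Φ'.comp (L₁.prod (ContinuousLinearMap.id ℝ (ι → ℝ)))) +
        ((1 - ρ₂ (ModN x)) • fderiv ℝ R x + R x • (-L₂))) x :=
    ((h3.const_mul ((2 : ℝ)⁻¹)).const_add A).add ((hL₂.const_sub 1).mul hR.hasFDerivAt)
  rw [h4.fderiv] at h0
  have h5 : (2 : ℝ)⁻¹ * Φ' (L₁ y, y) + ((1 - ρ₂ (ModN x)) * fderiv ℝ R x y + R x * (-L₂ y)) = 0 :=
    DFunLike.congr_fun h0 y
  have h6 : Φ' (L₁ y, y) = L₁ y * Φ' (1, 0) + Φ' (0, y) := by
    have h7 : ((L₁ y, y) : ℝ × (ι → ℝ)) = L₁ y • ((1, 0) : ℝ × (ι → ℝ)) + (0, y) := by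
      ext
      · simp
      · simp
    rw [h7, map_add, map_smul, smul_eq_mul]
  rw [h6, ← e1, ← e2] at h5
  have hn : (0 : ℝ) ≤ Fintype.card ι := Nat.cast_nonneg _
  -- the estimates
  have k1 : |L₁ y * fderiv ℝ (fun t => q t x) (ρ₁ (ModN x)) 1| ≤
      2 * ((Fintype.card ι : ℝ) * b ^ 2 * ε) * ‖x‖ ^ 2 := by
    rw [abs_mul]
    calc |L₁ y| * |fderiv ℝ (fun t => q t x) (ρ₁ (ModN x)) 1|
        ≤ |L₁ y| * (b * ‖x‖ ^ 2) := by gcongr
      _ = (|L₁ y| * ‖x‖) * (b * ‖x‖) := by ring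
      _ ≤ (2 * (Fintype.card ι : ℝ) * ε * ‖y‖) * (b * ‖x‖) :=
        mul_le_mul_of_nonneg_right (hL₁2 y) (by positivity)
      _ ≤ (2 * (Fintype.card ι : ℝ) * ε * (b * ‖x‖)) * (b * ‖x‖) := by gcongr
      _ = 2 * ((Fintype.card ι : ℝ) * b ^ 2 * ε) * ‖x‖ ^ 2 := by ring
  have k2 : |R x * (-L₂ y)| ≤ (2 * (Fintype.card ι : ℝ)) * b * η * ‖x‖ ^ 2 := by
    rw [abs_mul, abs_neg]
    calc |R x| * |L₂ y| ≤ (η * ‖x‖ ^ 2) * |L₂ y| := by gcongr
      _ = (|L₂ y| * ‖x‖) * (η * ‖x‖) := by ring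
      _ ≤ (2 * (Fintype.card ι : ℝ) * 1 * ‖y‖) * (η * ‖x‖) :=
        mul_le_mul_of_nonneg_right (hL₂2 y) (by positivity)
      _ ≤ (2 * (Fintype.card ι : ℝ) * 1 * (b * ‖x‖)) * (η * ‖x‖) := by gcongr
      _ = (2 * (Fintype.card ι : ℝ)) * b * η * ‖x‖ ^ 2 := by ring
  have k3 : |(1 - ρ₂ (ModN x)) * fderiv ℝ R x y| ≤ b * η * ‖x‖ ^ 2 := by
    rw [abs_mul]
    have h8 : |1 - ρ₂ (ModN x)| ≤ 1 := by
      rw [abs_le]
      have h9 := h02 (ModN x)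
      constructor <;> linarith
    have h9 : |fderiv ℝ R x y| ≤ η * ‖x‖ * ‖y‖ := by
      have h10 := (fderiv ℝ R x).le_opNorm y
      rw [Real.norm_eq_abs] at h10
      refine h10.trans ?_
      gcongr
    calc |1 - ρ₂ (ModN x)| * |fderiv ℝ R x y| ≤ 1 * (η * ‖x‖ * ‖y‖) := by gcongr
      _ ≤ 1 * (η * ‖x‖ * (b * ‖x‖)) := by gcongr
      _ = b * η * ‖x‖ ^ 2 := by ring
  have l1 := neg_abs_le (L₁ y * fderiv ℝ (fun t => q t x) (ρ₁ (ModN x)) 1)
  have l2 := neg_abs_le (R x * (-L₂ y))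
  have l3 := neg_abs_le ((1 - ρ₂ (ModN x)) * fderiv ℝ R x y)
  have hxx : 0 < ‖x‖ ^ 2 := by positivity
  have m1 : (Fintype.card ι : ℝ) * b ^ 2 * ε * ‖x‖ ^ 2 ≤ a / 8 * ‖x‖ ^ 2 := by gcongr
  have m2 : (2 * (Fintype.card ι : ℝ) + 1) * b * η * ‖x‖ ^ 2 ≤ a / 8 * ‖x‖ ^ 2 := by gcongr
  have m3 : 0 < a * ‖x‖ ^ 2 := by positivity
  nlinarith

/-- **Modification near a nondegenerate critical point**: there is a function which is equal to
`f` outside a small ball, has no other critical point than `z` in the ball and is a diagonal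
quadratic polynomial near `z`, with the same index. -/
theorem modify {ι : Type*} [Fintype ι] [DecidableEq ι] (f : (ι → ℝ) → ℝ) (hf : ContDiff ℝ 2 f)
    (z : ι → ℝ) (r : ℝ) (hr : 0 < r) (hz0 : fderiv ℝ f z = 0)
    (hz : ∀ x ∈ Metric.closedBall z r, fderiv ℝ f x = 0 → x = z)
    (hnd : sigNeg (hess f z) + sigPos (hess f z) = Fintype.card ι) :
    ∃ (g : (ι → ℝ) → ℝ) (c : ι → ℝ), ContDiff ℝ 1 g ∧
      (∀ y, y ∉ Metric.closedBall z (r / 2) → g y = f y) ∧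
      (∀ y ∈ Metric.closedBall z r, fderiv ℝ g y = 0 ↔ y = z) ∧
      (∀ i, c i ≠ 0) ∧ neg c = sigNeg (hess f z) ∧
      ∃ r' > 0, ∀ y, (∀ i, |y i - z i| < r') → g y = g z + ∑ i, c i * (y i - z i) ^ 2 := by
  obtain ⟨q, c, a, b, ha, hb, hq, hq0, hq1, hc, hneg, hest⟩ := exists_form_path (hess f z) hnd
  have hn : (0 : ℝ) ≤ Fintype.card ι := Nat.cast_nonneg _
  obtain ⟨ε, hε0, hε⟩ : ∃ ε : ℝ, 0 < ε ∧ (Fintype.card ι : ℝ) * b ^ 2 * ε ≤ a / 8 := by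
    refine ⟨a / 8 / ((Fintype.card ι : ℝ) * b ^ 2 + 1), by positivity, ?_⟩
    rw [← mul_div_assoc, div_le_iff₀ (by positivity)]
    nlinarith
  obtain ⟨η, hη0, hη⟩ : ∃ η : ℝ, 0 < η ∧
      (2 * (Fintype.card ι : ℝ) + 1) * b * η ≤ a / 8 := by
    refine ⟨a / 8 / ((2 * (Fintype.card ι : ℝ) + 1) * b + 1), by positivity, ?_⟩
    rw [← mul_div_assoc, div_le_iff₀ (by positivity)]
    nlinarith
  obtain ⟨s, hs, hR⟩ := Mod_R_small hf z hz0 η hη0
  have hm : 0 < min s (r / 2) := lt_min hs (half_pos hr)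
  have hβ : 0 < (min s (r / 2)) ^ 2 := by positivity
  have hNβ : ∀ x : ι → ℝ, ModN x ≤ (min s (r / 2)) ^ 2 → ‖x‖ ≤ min s (r / 2) := fun x hx =>
    (sq_le_sq₀ (norm_nonneg x) hm.le).1 ((Mod_N_ge x).trans hx)
  obtain ⟨ρ₂, α₂, hα₂, hαβ₂, hρ₂, h02, h12, h20, hd2⟩ := Mod_cut 1 _ one_pos hβ
  obtain ⟨ρ₁, α₁, hα₁, hαβ₁, hρ₁, h01, h11, h10, hd1⟩ := Mod_cut ε α₂ hε0 hα₂
  let G : (ι → ℝ) → ℝ := fun x =>
    f z + 2⁻¹ * q (ρ₁ (ModN x)) x + (1 - ρ₂ (ModN x)) * ModR f z x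
  have hG1 : ContDiff ℝ 2 G := by
    have h1 : ContDiff ℝ 2 fun x : ι → ℝ => (ρ₁ (ModN x), x) :=
      (hρ₁.comp Mod_contDiff_N).prodMk contDiff_id
    have h2 : ContDiff ℝ 2 fun x : ι → ℝ => q (ρ₁ (ModN x)) x := hq.comp h1
    have h3 : ContDiff ℝ 2 fun x : ι → ℝ => ρ₂ (ModN x) := hρ₂.comp Mod_contDiff_N
    exact (contDiff_const.add (contDiff_const.mul h2)).add
      ((contDiff_const.sub h3).mul (Mod_contDiff_R hf z))
  have hG2 : ∀ x, (min s (r / 2)) ^ 2 ≤ ModN x → G x = f (z + x) := by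
    intro x hx
    show f z + 2⁻¹ * q (ρ₁ (ModN x)) x + (1 - ρ₂ (ModN x)) * ModR f z x = f (z + x)
    rw [h10 _ (hαβ₂.le.trans hx), h20 _ hx, hq0]
    unfold ModR
    ring
  have hG3 : ∀ x, ModN x ≤ α₁ → G x = f z + 2⁻¹ * ∑ i, c i * x i ^ 2 := by
    intro x hx
    show f z + 2⁻¹ * q (ρ₁ (ModN x)) x + (1 - ρ₂ (ModN x)) * ModR f z x = _
    rw [h11 _ hx, h12 _ (hx.trans hαβ₁.le), hq1]
    ring
  have hG4 : ∀ x, x ≠ 0 → ‖x‖ ≤ s → fderiv ℝ G x ≠ 0 := fun x hx hxs =>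
    Mod_main ha hb hq hest hρ₁ hρ₂ h01 h02 hd1 hd2 hε0.le hη0.le hε hη hx
      (Mod_hasFDerivAt_R hf z x).differentiableAt (hR x hxs).1 (hR x hxs).2
  have hN0 : ModN (0 : ι → ℝ) = 0 := by
    unfold ModN
    simp
  have hG0 : G 0 = f z := by
    rw [hG3 0 (by rw [hN0]; exact hα₁.le)]
    simp
  have hG5 : fderiv ℝ G 0 = 0 := by
    have h1 : G =ᶠ[nhds 0] fun x => f z + 2⁻¹ * ∑ i, c i * x i ^ 2 := by
      have h2 : IsOpen {x : ι → ℝ | ModN x < α₁} :=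
        isOpen_lt Mod_contDiff_N.continuous continuous_const
      filter_upwards [h2.mem_nhds (by rw [Set.mem_ofPred_eq, hN0]; exact hα₁)] with x hx
      exact hG3 x (le_of_lt hx)
    rw [h1.fderiv_eq]
    have h3 : HasFDerivAt (fun x : ι → ℝ => ∑ i, c i * x i ^ 2) (0 : (ι → ℝ) →L[ℝ] ℝ) 0 := by
      have h4 : ∀ i ∈ (Finset.univ : Finset ι), HasFDerivAt (fun x : ι → ℝ => c i * x i ^ 2)
          (0 : (ι → ℝ) →L[ℝ] ℝ) 0 := by
        intro i _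
        have h5 : HasFDerivAt (fun x : ι → ℝ => x i)
            (ContinuousLinearMap.proj i : (ι → ℝ) →L[ℝ] ℝ) 0 :=
          (ContinuousLinearMap.proj i : (ι → ℝ) →L[ℝ] ℝ).hasFDerivAt
        have h6 := (h5.pow 2).const_mul (c i)
        simpa using h6
      have h7 := HasFDerivAt.fun_sum h4
      simpa using h7
    have h8 := (h3.const_mul ((2 : ℝ)⁻¹)).const_add (f z)
    rw [h8.fderiv, smul_zero]
  have hg : ∀ y, fderiv ℝ (fun y => G (y - z)) y = fderiv ℝ G (y - z) := fun y =>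
    fderiv_comp_sub z
  refine ⟨fun y => G (y - z), fun i => c i / 2, ?_, ?_, ?_, ?_, ?_, ?_⟩
  · exact (hG1.comp (contDiff_id.sub contDiff_const)).of_le (by norm_num)
  · intro y hy
    show G (y - z) = f y
    rw [Metric.mem_closedBall, not_le, dist_eq_norm] at hy
    rw [hG2, add_sub_cancel]
    refine le_trans ?_ (Mod_N_ge (y - z))
    exact pow_le_pow_left₀ hm.le ((min_le_right _ _).trans hy.le) 2
  · intro y hy
    rw [hg]
    constructor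
    · intro h0
      by_contra hne
      have hne' : y - z ≠ 0 := sub_ne_zero.2 hne
      by_cases hN : ModN (y - z) ≤ (min s (r / 2)) ^ 2
      · exact hG4 _ hne' ((hNβ _ hN).trans (min_le_left _ _)) h0
      · rw [not_le] at hN
        have h1 : G =ᶠ[nhds (y - z)] fun x => f (z + x) := by
          have h2 : IsOpen {x : ι → ℝ | (min s (r / 2)) ^ 2 < ModN x} :=
            isOpen_lt continuous_const Mod_contDiff_N.continuous
          filter_upwards [h2.mem_nhds hN] with x hx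
          exact hG2 x (le_of_lt hx)
        rw [h1.fderiv_eq] at h0
        have h3 : fderiv ℝ (fun x => f (z + x)) (y - z) = fderiv ℝ f (z + (y - z)) :=
          fderiv_comp_add_left z
        rw [h3, add_sub_cancel] at h0
        exact hne (hz y hy h0)
    · intro h0
      rw [h0, sub_self]
      exact hG5
  · intro i
    exact div_ne_zero (hc i) two_ne_zero
  · rw [← hneg]
    unfold neg
    apply Nat.card_congr
    apply Equiv.subtypeEquivRight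
    intro i
    constructor
    · intro h
      linarith
    · intro h
      linarith
  · refine ⟨min 1 (α₁ / ((Fintype.card ι : ℝ) + 1)), lt_min one_pos (by positivity), ?_⟩
    intro y hy
    show G (y - z) = G (z - z) + ∑ i, c i / 2 * (y i - z i) ^ 2
    have h1 : ModN (y - z) ≤ α₁ := by
      have h2 : ∀ i ∈ (Finset.univ : Finset ι), (y - z) i ^ 2 ≤ α₁ / ((Fintype.card ι : ℝ) + 1) := by
        intro i _
        have h3 := hy i
        have h4 : |y i - z i| ≤ 1 := h3.le.trans (min_le_left _ _)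
        have h5 : |y i - z i| ≤ α₁ / ((Fintype.card ι : ℝ) + 1) := h3.le.trans (min_le_right _ _)
        calc (y - z) i ^ 2 = |y i - z i| ^ 2 := (sq_abs _).symm
          _ = |y i - z i| * |y i - z i| := sq _
          _ ≤ 1 * |y i - z i| := by gcongr
          _ ≤ α₁ / ((Fintype.card ι : ℝ) + 1) := by rw [one_mul]; exact h5
      have h3 := Finset.sum_le_sum h2
      rw [Finset.sum_const, Finset.card_univ, nsmul_eq_mul] at h3
      refine le_trans h3 ?_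
      rw [← mul_div_assoc, div_le_iff₀ (by positivity)]
      nlinarith
    rw [sub_self, hG0, hG3 _ h1, Finset.mul_sum]
    congr 1
    apply Finset.sum_congr rfl
    intro i _
    rw [Pi.sub_apply]
    ring

end Pool.Agent.H47.QG
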