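import Pool.Agent.H47.QG.Mg
import Pool.Agent.H47.QG.Mod
import Pool.Agent.H47.QG.IdxS

/-!
# Combination of local models
-/

set_option autoImplicit false

open Module QuadraticForm

namespace Pool.Agent.H47.QG

variable {ι : Type*} [Fintype ι] [DecidableEq ι]

/-- A common small radius. -/
theorem EmL_radius (Z : Finset (ι → ℝ)) (X : (ι → ℝ) → Finset (ι → ℝ)) (r : ℝ)
    (hXb : ∀ z ∈ Z, ∀ y ∈ X z, y ∈ Metric.ball z r) :
    ∃ ρ > 0, ∀ z ∈ Z, ∀ y ∈ X z, Metric.closedBall y ρ ⊆ Metric.ball z r ∧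
      ∀ y' ∈ X z, y' ≠ y → Disjoint (Metric.closedBall y ρ) (Metric.closedBall y' ρ) := by
  have h : ∀ᶠ ρ in nhdsWithin (0 : ℝ) (Set.Ioi 0), ∀ z ∈ Z, ∀ y ∈ X z,
      Metric.closedBall y ρ ⊆ Metric.ball z r ∧
      ∀ y' ∈ X z, y' ≠ y → Disjoint (Metric.closedBall y ρ) (Metric.closedBall y' ρ) := by
    rw [Filter.eventually_all_finset]
    intro z hz
    rw [Filter.eventually_all_finset]
    intro y hy
    apply eventually_nhdsWithin_of_eventually_nhds
    have h1 : ∀ᶠ ρ in nhds (0 : ℝ), ρ < r - dist y z :=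
      eventually_lt_nhds (by have := Metric.mem_ball.1 (hXb z hz y hy); linarith)
    have h2 : ∀ᶠ ρ in nhds (0 : ℝ), ∀ y' ∈ X z, y' ≠ y → ρ < dist y y' / 2 := by
      rw [Filter.eventually_all_finset]
      intro y' _
      by_cases hne : y' = y
      · exact Filter.Eventually.of_forall fun _ h => absurd hne h
      · have h3 : 0 < dist y y' / 2 := half_pos (dist_pos.2 (Ne.symm hne))
        filter_upwards [eventually_lt_nhds h3] with a ha _
        exact ha
    filter_upwards [h1, h2] with a ha1 ha2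
    refine ⟨Metric.closedBall_subset_ball' (by linarith), fun y' hy' hne => ?_⟩
    apply Metric.closedBall_disjoint_closedBall
    have := ha2 y' hy' hne
    linarith
  obtain ⟨ρ, hρ, h1⟩ := (Filter.Eventually.and (self_mem_nhdsWithin :
    Set.Ioi (0 : ℝ) ∈ nhdsWithin (0 : ℝ) (Set.Ioi 0)) h).exists
  exact ⟨ρ, hρ, h1⟩

omit [DecidableEq ι] in
/-- Points near `x` avoid finitely many closed sets not containing `x`. -/
theorem EmL_notin {α : Type*} (s : Finset α) (C : α → Set (ι → ℝ)) (P : α → Prop)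
    (hC : ∀ a ∈ s, IsClosed (C a)) (x : ι → ℝ) (hx : ∀ a ∈ s, P a → x ∉ C a) :
    ∀ᶠ y in nhds x, ∀ a ∈ s, P a → y ∉ C a := by
  rw [Filter.eventually_all_finset]
  intro a ha
  by_cases h : P a
  · filter_upwards [(hC a ha).isOpen_compl.mem_nhds (hx a ha h)] with y hy _
    exact hy
  · exact Filter.Eventually.of_forall fun _ h' => absurd h' h

/-- Adding a function with bounded gradient. -/
theorem EmL_quad {kd : ι → Kind} {f H : (ι → ℝ) → ℝ} (hf : ContDiff ℝ 1 f) (hH : ContDiff ℝ 1 H)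
    (hq : QuadInf kd f) (hB : ∃ B, ∀ x, ‖fderiv ℝ H x‖ ≤ B) :
    QuadInf kd fun x => f x + H x := by
  obtain ⟨C, hC⟩ := hq
  obtain ⟨B, hB⟩ := hB
  have h1 : ∀ x, fderiv ℝ (fun x => f x + H x) x = fderiv ℝ f x + fderiv ℝ H x := fun x =>
    fderiv_fun_add (hf.differentiable one_ne_zero x) (hH.differentiable one_ne_zero x)
  have h2 : ∀ x i, |fderiv ℝ H x (Pi.single i 1)| ≤ B := by
    intro x i
    have h3 := (fderiv ℝ H x).le_opNorm (Pi.single i 1)
    have h4 : ‖(Pi.single i 1 : ι → ℝ)‖ ≤ 1 := by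
      rw [pi_norm_le_iff_of_nonneg zero_le_one]
      intro j
      by_cases hj : j = i
      · subst hj
        simp
      · simp [Pi.single_eq_of_ne hj]
    rw [Real.norm_eq_abs] at h3
    calc _ ≤ ‖fderiv ℝ H x‖ * ‖(Pi.single i 1 : ι → ℝ)‖ := h3
      _ ≤ ‖fderiv ℝ H x‖ * 1 := by gcongr
      _ ≤ B := by rw [mul_one]; exact hB x
  refine ⟨C + B, fun x i => ⟨fun hi => ?_, fun hi => ?_⟩⟩
  · have h3 := (hC x i).1 hi
    have h4 := h2 x i
    rw [h1, ContinuousLinearMap.add_apply]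
    rw [abs_le] at h3 h4 ⊢
    constructor <;> linarith [h3.1, h3.2, h4.1, h4.2]
  · have h3 := (hC x i).2 hi
    have h4 := h2 x i
    rw [h1, ContinuousLinearMap.add_apply]
    rw [abs_le] at h3 h4 ⊢
    constructor <;> linarith [h3.1, h3.2, h4.1, h4.2]

/-- Difference of two truncated sums. -/
theorem EmL_sub (W : Finset (ι → ℝ)) (n : (ι → ℝ) → ℕ) (a₁ a₂ : ℕ) (h12 : a₁ < a₂)
    (h1 : ∑ y ∈ W.filter (fun y => n y < a₁), (-1 : ℤ) ^ n y = 0)
    (h2 : ∑ y ∈ W.filter (fun y => n y < a₂), (-1 : ℤ) ^ n y = 0) :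
    ∑ y ∈ W.filter (fun y => a₁ ≤ n y ∧ n y < a₂), (-1 : ℤ) ^ n y = 0 := by
  have h3 : W.filter (fun y => n y < a₂) = W.filter (fun y => n y < a₁) ∪
      W.filter (fun y => a₁ ≤ n y ∧ n y < a₂) := by
    ext y
    simp only [Finset.mem_filter, Finset.mem_union]
    constructor
    · intro h
      by_cases h4 : n y < a₁
      · exact Or.inl ⟨h.1, h4⟩
      · exact Or.inr ⟨h.1, by omega, h.2⟩
    · rintro (h | h)
      · exact ⟨h.1, by omega⟩
      · exact ⟨h.1, h.2.2⟩
  rw [h3, Finset.sum_union, h1, zero_add] at h2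
  · exact h2
  · rw [Finset.disjoint_left]
    intro y hy hy'
    rw [Finset.mem_filter] at hy hy'
    omega

/-- Local models: `g z` is a perturbation of `f` near the critical point `z`, `X z` its critical
points. The total signed number of the critical points with `a₁ ≤ index < a₂` is `0`. -/
theorem local_count (kd : ι → Kind) (hth : ∃ i, kd i = Kind.th) (f : (ι → ℝ) → ℝ)
    (hf : ContDiff ℝ 2 f) (hper : Per kd f) (hq : QuadInf kd f)
    (Z : Finset (ι → ℝ)) (hZ1 : ∀ z ∈ Z, ∀ i, kd i = Kind.th → z i ∈ Set.Ioo (0 : ℝ) 1)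
    (hZ : ∀ x, (∀ i, kd i = Kind.th → x i ∈ Set.Ico (0 : ℝ) 1) → (fderiv ℝ f x = 0 ↔ x ∈ Z))
    (a₁ a₂ : ℕ) (h12 : a₁ < a₂)
    (ha : ∀ a, (a = a₁ ∨ a = a₂) → a = 0 ∨
      ((a < nk kd Kind.up ∨ nk kd Kind.up + nk kd Kind.th < a) ∧
      ∀ z ∈ Z, ¬ (sigNeg (hess f z) ≤ a ∧ a + sigPos (hess f z) ≤ Fintype.card ι)))
    (r : ℝ) (hr : 0 < r)
    (hrU : ∀ z ∈ Z, ∀ i, kd i = Kind.th → r < z i ∧ z i < 1 - r)
    (hrd : ∀ z ∈ Z, ∀ z' ∈ Z, z ≠ z' → Disjoint (Metric.closedBall z r) (Metric.closedBall z' r))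
    -- a perturbation near each critical point
    (U : (ι → ℝ) → Set (ι → ℝ)) (hU : ∀ z ∈ Z, IsClosed (U z) ∧ U z ⊆ Metric.ball z r)
    (g : (ι → ℝ) → (ι → ℝ) → ℝ) (X : (ι → ℝ) → Finset (ι → ℝ))
    (hg : ∀ z ∈ Z, ContDiff ℝ 2 (g z)) (hgU : ∀ z ∈ Z, ∀ y, y ∉ U z → g z y = f y)
    (hX : ∀ z ∈ Z, ∀ y ∈ Metric.closedBall z r, (fderiv ℝ (g z) y = 0 ↔ y ∈ X z))
    (hXb : ∀ z ∈ Z, ∀ y ∈ X z, y ∈ Metric.ball z r)
    (hXn : ∀ z ∈ Z, ∀ y ∈ X z, sigNeg (hess (g z) y) + sigPos (hess (g z) y) = Fintype.card ι ∧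
        sigNeg (hess f z) ≤ sigNeg (hess (g z) y) ∧
        sigNeg (hess (g z) y) + sigPos (hess f z) ≤ Fintype.card ι) :
    ∑ z ∈ Z, ∑ y ∈ (X z).filter (fun y => a₁ ≤ sigNeg (hess (g z) y) ∧
      sigNeg (hess (g z) y) < a₂), (-1 : ℤ) ^ sigNeg (hess (g z) y) = 0 := by
  classical
  obtain ⟨ρ, hρ, hρX⟩ := EmL_radius Z X r hXb
  have hcf : ∀ z ∈ Z, ∀ y ∈ X z, fderiv ℝ (g z) y = 0 := fun z hz y hy =>
    (hX z hz y (Metric.ball_subset_closedBall (hXb z hz y hy))).2 hy
  have hmod : ∀ z y, ∃ (k : (ι → ℝ) → ℝ) (c : ι → ℝ), z ∈ Z → y ∈ X z → (ContDiff ℝ 1 k ∧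
      (∀ x, x ∉ Metric.closedBall y (ρ / 2) → k x = g z x) ∧
      (∀ x ∈ Metric.closedBall y ρ, fderiv ℝ k x = 0 ↔ x = y) ∧
      (∀ i, c i ≠ 0) ∧ neg c = sigNeg (hess (g z) y) ∧
      ∃ r' > 0, ∀ x, (∀ i, |x i - y i| < r') → k x = k y + ∑ i, c i * (x i - y i) ^ 2) := by
    intro z y
    by_cases h : z ∈ Z ∧ y ∈ X z
    · have hu : ∀ x ∈ Metric.closedBall y ρ, fderiv ℝ (g z) x = 0 → x = y := by
        intro x hx hx0
        by_contra hne
        have h1 := (hρX z h.1 y h.2).1 hx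
        have h2 := (hX z h.1 x (Metric.ball_subset_closedBall h1)).1 hx0
        have h3 := (hρX z h.1 y h.2).2 x h2 hne
        exact Set.disjoint_left.1 h3 hx (Metric.mem_closedBall_self hρ.le)
      obtain ⟨k, c, hk⟩ := modify (g z) (hg z h.1) y ρ hρ (hcf z h.1 y h.2) hu
        (hXn z h.1 y h.2).1
      exact ⟨k, c, fun _ _ => hk⟩
    · exact ⟨0, 0, fun h1 h2 => absurd ⟨h1, h2⟩ h⟩
  choose k c hk using hmod
  let T : (ι → ℝ) → (ι → ℝ) → ℝ := fun z x => (g z x - f x) + ∑ y ∈ X z, (k z y x - g z x)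
  have hT0 : ∀ z ∈ Z, ∀ x, x ∉ Metric.closedBall z r → T z x = 0 := by
    intro z hz x hx
    have h1 : g z x = f x :=
      hgU z hz x fun h => hx (Metric.ball_subset_closedBall ((hU z hz).2 h))
    have h2 : ∀ y ∈ X z, k z y x - g z x = 0 := by
      intro y hy
      rw [(hk z y hz hy).2.1 x, sub_self]
      intro h
      apply hx
      apply Metric.ball_subset_closedBall
      apply (hρX z hz y hy).1
      exact Metric.closedBall_subset_closedBall (by linarith) h
    show (g z x - f x) + ∑ y ∈ X z, (k z y x - g z x) = 0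
    rw [Finset.sum_eq_zero h2, h1]
    ring
  have hf1 : ContDiff ℝ 1 f := hf.of_le one_le_two
  have hg1 : ∀ z ∈ Z, ContDiff ℝ 1 (g z) := fun z hz => (hg z hz).of_le one_le_two
  let h : (ι → ℝ) → ℝ := fun x => ∑ z ∈ Z, T z x
  have hh : ContDiff ℝ 1 h := by
    apply ContDiff.sum
    intro z hz
    apply ((hg1 z hz).sub hf1).add
    apply ContDiff.sum
    intro y hy
    exact (hk z y hz hy).1.sub (hg1 z hz)
  let K : Set (ι → ℝ) := ⋃ z ∈ Z, Metric.closedBall z r
  have hKc : IsCompact K := Z.isCompact_biUnion fun z _ => isCompact_closedBall z r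
  have hKm : ∀ x, x ∈ K ↔ ∃ z ∈ Z, x ∈ Metric.closedBall z r := by
    intro x
    simp only [K, Set.mem_iUnion, exists_prop]
  have hco : ∀ z ∈ Z, ∀ x ∈ Metric.closedBall z r, ∀ i, kd i = Kind.th → 0 < x i ∧ x i < 1 := by
    intro z hz x hx i hi
    have h1 := hrU z hz i hi
    have h2 : |x i - z i| ≤ r := by
      have h3 := dist_le_pi_dist x z i
      rw [Real.dist_eq] at h3
      exact h3.trans (Metric.mem_closedBall.1 hx)
    rw [abs_le] at h2
    constructor <;> linarith [h1.1, h1.2, h2.1, h2.2]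
  have hK1 : ∀ x ∈ K, ∀ i, kd i = Kind.th → 0 < x i ∧ x i < 1 := by
    intro x hx
    obtain ⟨z, hz, hxz⟩ := (hKm x).1 hx
    exact hco z hz x hxz
  have hs : ∀ x, x ∉ K → h x = 0 := by
    intro x hx
    apply Finset.sum_eq_zero
    intro z hz
    exact hT0 z hz x fun hxz => hx ((hKm x).2 ⟨z, hz, hxz⟩)
  obtain ⟨H, hH1, hH2, hH3, hH4, hH5⟩ := periodize kd h hh K hKc hK1 hs
  let G : (ι → ℝ) → ℝ := fun x => f x + H x
  have hG1 : ContDiff ℝ 1 G := hf1.add hH1
  have hG2 : Per kd G := by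
    intro x i hi
    show f _ + H _ = f x + H x
    rw [hper x i hi, hH2 x i hi]
  have hG3 : QuadInf kd G := EmL_quad hf1 hH1 hq hH3
  -- the local forms
  have hloc0 : ∀ x, (∀ i, kd i = Kind.th → 0 < x i ∧ x i < 1) →
      (∀ z ∈ Z, x ∉ Metric.closedBall z r) → G =ᶠ[nhds x] f := by
    intro x hx1 hx2
    have h1 := EmL_notin Z (fun z => Metric.closedBall z r) (fun _ => True)
      (fun _ _ => Metric.isClosed_closedBall) x (fun z hz _ => hx2 z hz)
    filter_upwards [hH4 x hx1, h1] with y hy1 hy2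
    show f y + H y = f y
    rw [hy1]
    have h2 : h y = 0 := Finset.sum_eq_zero fun z hz => hT0 z hz y (hy2 z hz trivial)
    rw [h2, add_zero]
  have hloc1 : ∀ z ∈ Z, ∀ x ∈ Metric.closedBall z r, ∀ᶠ y in nhds x, G y = f y + T z y := by
    intro z hz x hx
    have h1 := EmL_notin Z (fun z => Metric.closedBall z r) (fun z' => z' ≠ z)
      (fun _ _ => Metric.isClosed_closedBall) x
      (fun z' hz' hne hx' => Set.disjoint_left.1 (hrd z' hz' z hz hne) hx' hx)
    filter_upwards [hH4 x (hco z hz x hx), h1] with y hy1 hy2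
    show f y + H y = f y + T z y
    rw [hy1]
    have h2 : h y = T z y := by
      apply Finset.sum_eq_single z
      · intro z' hz' hne
        exact hT0 z' hz' y (hy2 z' hz' hne)
      · intro h3
        exact absurd hz h3
    rw [h2]
  have hloc2 : ∀ z ∈ Z, ∀ y ∈ X z, ∀ x ∈ Metric.closedBall y ρ, G =ᶠ[nhds x] k z y := by
    intro z hz y hy x hx
    have hx1 : x ∈ Metric.closedBall z r :=
      Metric.ball_subset_closedBall ((hρX z hz y hy).1 hx)
    have h1 := EmL_notin (X z) (fun y' => Metric.closedBall y' ρ) (fun y' => y' ≠ y)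
      (fun _ _ => Metric.isClosed_closedBall) x
      (fun y' hy' hne hx' => Set.disjoint_left.1 ((hρX z hz y hy).2 y' hy' hne) hx hx')
    filter_upwards [hloc1 z hz x hx1, h1] with w hw1 hw2
    rw [hw1]
    show f w + ((g z w - f w) + ∑ y' ∈ X z, (k z y' w - g z w)) = k z y w
    have h2 : ∑ y' ∈ X z, (k z y' w - g z w) = k z y w - g z w := by
      apply Finset.sum_eq_single y
      · intro y' hy' hne
        rw [(hk z y' hz hy').2.1 w, sub_self]
        intro h3
        exact hw2 y' hy' hne (Metric.closedBall_subset_closedBall (by linarith) h3)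
      · intro h3
        exact absurd hy h3
    rw [h2]
    ring
  have hloc3 : ∀ z ∈ Z, ∀ x ∈ Metric.closedBall z r, (∀ y ∈ X z, x ∉ Metric.closedBall y ρ) →
      G =ᶠ[nhds x] g z := by
    intro z hz x hx hx2
    have h1 := EmL_notin (X z) (fun y' => Metric.closedBall y' ρ) (fun _ => True)
      (fun _ _ => Metric.isClosed_closedBall) x (fun y' hy' _ => hx2 y' hy')
    filter_upwards [hloc1 z hz x hx, h1] with w hw1 hw2
    rw [hw1]
    show f w + ((g z w - f w) + ∑ y' ∈ X z, (k z y' w - g z w)) = g z w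
    have h2 : ∑ y' ∈ X z, (k z y' w - g z w) = 0 := by
      apply Finset.sum_eq_zero
      intro y' hy'
      rw [(hk z y' hz hy').2.1 w, sub_self]
      intro h3
      exact hw2 y' hy' trivial (Metric.closedBall_subset_closedBall (by linarith) h3)
    rw [h2]
    ring
  let W : Finset (ι → ℝ) := Z.biUnion X
  have hWm : ∀ x, x ∈ W ↔ ∃ z ∈ Z, x ∈ X z := fun x => Finset.mem_biUnion
  have hXd : ∀ z ∈ Z, ∀ z' ∈ Z, ∀ y, y ∈ X z → y ∈ X z' → z = z' := by
    intro z hz z' hz' y hy hy'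
    by_contra hne
    exact Set.disjoint_left.1 (hrd z hz z' hz' hne)
      (Metric.ball_subset_closedBall (hXb z hz y hy))
      (Metric.ball_subset_closedBall (hXb z' hz' y hy'))
  have hWr : ∀ z ∈ Z, ∀ x ∈ Metric.closedBall z r, (x ∈ W ↔ x ∈ X z) := by
    intro z hz x hx
    rw [hWm]
    constructor
    · rintro ⟨z', hz', hx'⟩
      by_cases hne : z' = z
      · rw [← hne]
        exact hx'
      · exact absurd hx fun h => Set.disjoint_left.1 (hrd z' hz' z hz hne)
          (Metric.ball_subset_closedBall (hXb z' hz' x hx')) h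
    · intro h
      exact ⟨z, hz, h⟩
  have hW1 : ∀ x ∈ W, ∀ i, kd i = Kind.th → x i ∈ Set.Ico (0 : ℝ) 1 := by
    intro x hx i hi
    obtain ⟨z, hz, hxz⟩ := (hWm x).1 hx
    have h1 := hco z hz x (Metric.ball_subset_closedBall (hXb z hz x hxz)) i hi
    exact ⟨h1.1.le, h1.2⟩
  have hW2 : ∀ x, (∀ i, kd i = Kind.th → x i ∈ Set.Ico (0 : ℝ) 1) →
      (fderiv ℝ G x = 0 ↔ x ∈ W) := by
    intro x hx
    by_cases hx0 : ∃ i, kd i = Kind.th ∧ x i = 0
    · have h1 : G =ᶠ[nhds x] f := by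
        filter_upwards [hH5 x hx0] with y hy
        show f y + H y = f y
        rw [hy, add_zero]
      rw [h1.fderiv_eq, hZ x hx]
      obtain ⟨i, hi, hxi⟩ := hx0
      constructor
      · intro h2
        have := (hZ1 x h2 i hi).1
        linarith
      · intro h2
        obtain ⟨z, hz, hxz⟩ := (hWm x).1 h2
        have := (hco z hz x (Metric.ball_subset_closedBall (hXb z hz x hxz)) i hi).1
        linarith
    · have hx1 : ∀ i, kd i = Kind.th → 0 < x i ∧ x i < 1 := by
        intro i hi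
        have h1 := hx i hi
        refine ⟨lt_of_le_of_ne h1.1 fun h2 => hx0 ⟨i, hi, h2.symm⟩, h1.2⟩
      by_cases hx2 : ∃ z ∈ Z, x ∈ Metric.closedBall z r
      · obtain ⟨z, hz, hxz⟩ := hx2
        rw [hWr z hz x hxz]
        by_cases hx3 : ∃ y ∈ X z, x ∈ Metric.closedBall y ρ
        · obtain ⟨y, hy, hxy⟩ := hx3
          rw [(hloc2 z hz y hy x hxy).fderiv_eq, (hk z y hz hy).2.2.1 x hxy]
          constructor
          · intro h1
            rw [h1]
            exact hy
          · intro h1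
            by_contra hne
            exact Set.disjoint_left.1 ((hρX z hz y hy).2 x h1 hne) hxy
              (Metric.mem_closedBall_self hρ.le)
        · have hx4 : ∀ y ∈ X z, x ∉ Metric.closedBall y ρ := fun y hy h => hx3 ⟨y, hy, h⟩
          rw [(hloc3 z hz x hxz hx4).fderiv_eq]
          exact hX z hz x hxz
      · have hx3 : ∀ z ∈ Z, x ∉ Metric.closedBall z r := fun z hz h => hx2 ⟨z, hz, h⟩
        rw [(hloc0 x hx1 hx3).fderiv_eq, hZ x hx]
        constructor
        · intro h1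
          exact absurd (Metric.mem_closedBall_self hr.le) (hx3 x h1)
        · intro h1
          obtain ⟨z, hz, hxz⟩ := (hWm x).1 h1
          exact absurd (Metric.ball_subset_closedBall (hXb z hz x hxz)) (hx3 z hz)
  -- the coefficients
  have hcoef : ∀ y, ∃ e : ι → ℝ, y ∈ W → ((∀ i, e i ≠ 0) ∧
      (∀ z ∈ Z, y ∈ X z → neg e = sigNeg (hess (g z) y)) ∧
      ∃ r' > 0, ∀ x, (∀ i, |x i - y i| < r') → G x = G y + ∑ i, e i * (x i - y i) ^ 2) := by
    intro y
    by_cases hy : y ∈ W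
    · obtain ⟨z, hz, hyz⟩ := (hWm y).1 hy
      obtain ⟨-, -, -, h1, h2, r', hr', h3⟩ := hk z y hz hyz
      refine ⟨c z y, fun _ => ⟨h1, ?_, ?_⟩⟩
      · intro z' hz' hyz'
        rw [hXd z' hz' z hz y hyz' hyz]
        exact h2
      · have h4 := hloc2 z hz y hyz y (Metric.mem_closedBall_self hρ.le)
        have h5 := h4.self_of_nhds
        obtain ⟨s, hs, h6⟩ := Metric.eventually_nhds_iff.1 h4
        refine ⟨min r' s, lt_min hr' hs, fun x hx => ?_⟩
        have h7 : dist x y < s := by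
          rw [dist_pi_lt_iff hs]
          intro i
          rw [Real.dist_eq]
          exact (hx i).trans_le (min_le_right _ _)
        rw [h6 h7, h5]
        exact h3 x fun i => (hx i).trans_le (min_le_left _ _)
    · exact ⟨0, fun h1 => absurd h1 hy⟩
  choose e he using hcoef
  have hsum : ∀ a, (a = a₁ ∨ a = a₂) →
      ∑ y ∈ W.filter (fun y => neg (e y) < a), (-1 : ℤ) ^ neg (e y) = 0 := by
    intro a ha'
    rcases ha a ha' with h0 | ⟨h1, h2⟩
    · rw [h0]
      apply Finset.sum_eq_zero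
      intro y hy
      rw [Finset.mem_filter] at hy
      exact absurd hy.2 (Nat.not_lt_zero _)
    · by_cases h0 : a = 0
      · rw [h0]
        apply Finset.sum_eq_zero
        intro y hy
        rw [Finset.mem_filter] at hy
        exact absurd hy.2 (Nat.not_lt_zero _)
      · obtain ⟨d, rfl⟩ : ∃ d, a = d + 1 := ⟨a - 1, by omega⟩
        have h3 := morse_gap kd hth G hG1 hG2 hG3 W hW1 hW2 e (fun z hz => (he z hz).1)
          (fun z hz => (he z hz).2.2) d ?_ h1
        · have h4 : W.filter (fun y => neg (e y) < d + 1) = W.filter (fun y => neg (e y) ≤ d) := by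
            apply Finset.filter_congr
            intro y _
            exact Nat.lt_succ_iff
          rw [h4]
          exact h3
        · intro y hy h4
          obtain ⟨z, hz, hyz⟩ := (hWm y).1 hy
          have h5 := (he y hy).2.1 z hz hyz
          have h6 := hXn z hz y hyz
          rw [← h5, h4] at h6
          exact h2 z hz h6.2
  have hfin := EmL_sub W (fun y => neg (e y)) a₁ a₂ h12 (hsum a₁ (Or.inl rfl))
    (hsum a₂ (Or.inr rfl))
  rw [← hfin, Finset.filter_biUnion, Finset.sum_biUnion]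
  · apply Finset.sum_congr rfl
    intro z hz
    have h1 : ∀ y ∈ X z, neg (e y) = sigNeg (hess (g z) y) := fun y hy =>
      (he y ((hWm y).2 ⟨z, hz, hy⟩)).2.1 z hz hy
    have h2 : (X z).filter (fun y => a₁ ≤ sigNeg (hess (g z) y) ∧
        sigNeg (hess (g z) y) < a₂) = (X z).filter (fun y => a₁ ≤ neg (e y) ∧ neg (e y) < a₂) := by
      apply Finset.filter_congr
      intro y hy
      rw [h1 y hy]
    rw [h2]
    apply Finset.sum_congr rfl
    intro y hy
    rw [h1 y (Finset.mem_filter.1 hy).1]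
  · intro z hz z' hz' hne
    rw [Function.onFun, Finset.disjoint_left]
    intro y hy hy'
    exact hne (hXd z hz z' hz' y (Finset.mem_filter.1 hy).1 (Finset.mem_filter.1 hy').1)

end Pool.Agent.H47.QG
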