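import Mathlib

/-!
# Gap lemma for acyclic matchings over `F_2`
-/

set_option autoImplicit false

namespace Pool.Agent.H47.QG

/-- A finite chain complex over `F_2` with a basis of cells. -/
structure Cx (C : Type*) [Fintype C] where
  /-- dimension of a cell -/
  dim : C → ℕ
  /-- incidence number of a cell and a face -/
  bd : C → C → ZMod 2
  bd_dim : ∀ s t, bd s t ≠ 0 → dim s = dim t + 1
  bd_bd : ∀ s r, ∑ t, bd s t * bd t r = 0

/-- An acyclic matching. A cell is critical if `mu c = c`; it is matched up if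
`dim (mu c) = dim c + 1`. -/
structure Mat {C : Type*} [Fintype C] (X : Cx C) where
  /-- the involution -/
  mu : C → C
  /-- the type of ranks -/
  R : Type
  /-- order on the ranks -/
  ord : LinearOrder R
  /-- the rank -/
  rk : C → R
  invol : ∀ c, mu (mu c) = c
  dims : ∀ c, mu c ≠ c → X.dim (mu c) = X.dim c + 1 ∨ X.dim c = X.dim (mu c) + 1
  inc : ∀ c, X.dim (mu c) = X.dim c + 1 → X.bd (mu c) c ≠ 0
  acyc : ∀ t t', X.dim (mu t) = X.dim t + 1 → X.dim (mu t') = X.dim t' + 1 → t' ≠ t →
    X.bd (mu t) t' ≠ 0 → ord.lt (rk t') (rk t)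

variable {C : Type*} [Fintype C] [DecidableEq C] {X : Cx C}

/-- number of critical cells of dimension `k` -/
def Mat.crit (M : Mat X) (k : ℕ) : ℕ :=
  (Finset.univ.filter fun c => M.mu c = c ∧ X.dim c = k).card

/-- the boundary matrix from dimension `k + 1` to dimension `k` -/
def gapMat (X : Cx C) (k : ℕ) : Matrix {s : C // X.dim s = k + 1} {t : C // X.dim t = k} (ZMod 2) :=
  fun s t => X.bd s.1 t.1

/-- the number of cells of dimension `k` matched up -/
def gapQ (M : Mat X) (k : ℕ) : ℕ :=
  (Finset.univ.filter fun c => X.dim c = k ∧ X.dim (M.mu c) = k + 1).card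

theorem gap_mul (X : Cx C) (k : ℕ) : gapMat X (k + 1) * gapMat X k = 0 := by
  ext s r
  rw [Matrix.mul_apply, Matrix.zero_apply]
  have h := X.bd_bd s.1 r.1
  rw [← h]
  have h2 : ∑ t : C, X.bd s.1 t * X.bd t r.1 =
      ∑ t ∈ Finset.univ.filter (fun t => X.dim t = k + 1), X.bd s.1 t * X.bd t r.1 := by
    symm
    apply Finset.sum_subset (Finset.filter_subset _ _)
    intro t _ ht
    rw [Finset.mem_filter, not_and] at ht
    have ht2 := ht (Finset.mem_univ t)
    by_contra hne
    have h3 : X.bd t r.1 ≠ 0 := right_ne_zero_of_mul hne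
    have h4 := X.bd_dim _ _ h3
    rw [r.2] at h4
    exact ht2 h4
  rw [h2]
  symm
  exact Finset.sum_subtype (Finset.univ.filter (fun t => X.dim t = k + 1))
    (fun t => by simp) (fun t => X.bd s.1 t * X.bd t r.1)

theorem gap_rank_le (M : Mat X) (k : ℕ) : gapQ M k ≤ (gapMat X k).rank := by
  letI := M.ord
  let ι := {c : C // X.dim c = k ∧ X.dim (M.mu c) = k + 1}
  let v : ι → ({t : C // X.dim t = k} → ZMod 2) := fun c => (gapMat X k).row ⟨M.mu c.1, c.2.2⟩
  have hv : LinearIndependent (ZMod 2) v := by
    rw [Fintype.linearIndependent_iff]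
    intro g hg
    by_contra hcon
    push Not at hcon
    obtain ⟨i0, hi0⟩ := hcon
    have hne : (Finset.univ.filter fun i => g i ≠ 0).Nonempty := ⟨i0, by simp [hi0]⟩
    obtain ⟨t, ht, hmax⟩ := Finset.exists_max_image _ (fun i : ι => M.rk i.1) hne
    rw [Finset.mem_filter] at ht
    have h1 := congrFun hg ⟨t.1, t.2.1⟩
    rw [Finset.sum_apply] at h1
    rw [Finset.sum_eq_single t] at h1
    · have h2 : g t * X.bd (M.mu t.1) t.1 = 0 := h1
      have h3 := M.inc t.1 (by rw [t.2.1, t.2.2])
      rcases mul_eq_zero.mp h2 with h4 | h4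
      · exact ht.2 h4
      · exact h3 h4
    · intro s _ hst
      have h2 : (g s • v s) ⟨t.1, t.2.1⟩ = g s * X.bd (M.mu s.1) t.1 := rfl
      rw [h2]
      by_contra hne2
      have h3 : g s ≠ 0 := left_ne_zero_of_mul hne2
      have h4 : X.bd (M.mu s.1) t.1 ≠ 0 := right_ne_zero_of_mul hne2
      have h5 : t.1 ≠ s.1 := fun h => hst (Subtype.ext h.symm)
      have h6 := M.acyc s.1 t.1 (by rw [s.2.1, s.2.2]) (by rw [t.2.1, t.2.2]) h5 h4
      have h7 := hmax s (by simp [h3])
      exact absurd h6 (not_lt.mpr h7)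
    · intro h
      exact absurd (Finset.mem_univ t) h
  have h1 : Module.finrank (ZMod 2) (Submodule.span (ZMod 2) (Set.range v)) = Fintype.card ι :=
    finrank_span_eq_card hv
  have h2 : Fintype.card ι = gapQ M k := Fintype.card_subtype _
  rw [← h2, ← h1, Matrix.rank_eq_finrank_span_row]
  apply Submodule.finrank_mono
  apply Submodule.span_mono
  rintro _ ⟨c, rfl⟩
  exact ⟨_, rfl⟩

theorem gap_card_zero (M : Mat X) :
    (Finset.univ.filter fun c => X.dim c = 0).card = M.crit 0 + gapQ M 0 := by
  unfold Mat.crit gapQ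
  rw [← Finset.card_union_of_disjoint]
  · congr 1
    ext c
    simp only [Finset.mem_filter, Finset.mem_univ, true_and, Finset.mem_union]
    constructor
    · intro h
      by_cases hc : M.mu c = c
      · exact Or.inl ⟨hc, h⟩
      · rcases M.dims c hc with h1 | h1
        · exact Or.inr ⟨h, by omega⟩
        · omega
    · rintro (h | h)
      · exact h.2
      · exact h.1
  · rw [Finset.disjoint_left]
    intro c h1 h2
    simp only [Finset.mem_filter, Finset.mem_univ, true_and] at h1 h2
    rw [h1.1] at h2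
    omega

theorem gap_card_succ (M : Mat X) (i : ℕ) :
    (Finset.univ.filter fun c => X.dim c = i + 1).card =
      M.crit (i + 1) + gapQ M (i + 1) + gapQ M i := by
  have h0 : gapQ M i =
      (Finset.univ.filter fun c => X.dim c = i + 1 ∧ X.dim (M.mu c) = i).card := by
    unfold gapQ
    apply Finset.card_bij (fun c _ => M.mu c)
    · intro c hc
      simp only [Finset.mem_filter, Finset.mem_univ, true_and] at hc ⊢
      rw [M.invol]
      exact ⟨hc.2, hc.1⟩
    · intro a _ b _ hab
      rw [← M.invol a, ← M.invol b, hab]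
    · intro b hb
      simp only [Finset.mem_filter, Finset.mem_univ, true_and] at hb
      refine ⟨M.mu b, ?_, M.invol b⟩
      simp only [Finset.mem_filter, Finset.mem_univ, true_and]
      rw [M.invol]
      exact ⟨hb.2, hb.1⟩
  rw [h0]
  unfold Mat.crit gapQ
  rw [← Finset.card_union_of_disjoint, ← Finset.card_union_of_disjoint]
  · congr 1
    ext c
    simp only [Finset.mem_filter, Finset.mem_univ, true_and, Finset.mem_union]
    constructor
    · intro h
      by_cases hc : M.mu c = c
      · exact Or.inl (Or.inl ⟨hc, h⟩)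
      · rcases M.dims c hc with h1 | h1
        · exact Or.inl (Or.inr ⟨h, by omega⟩)
        · exact Or.inr ⟨h, by omega⟩
    · rintro ((h | h) | h)
      · exact h.2
      · exact h.1
      · exact h.1
  · rw [Finset.disjoint_left]
    intro c h1 h2
    simp only [Finset.mem_filter, Finset.mem_univ, true_and, Finset.mem_union] at h1 h2
    rcases h1 with h1 | h1
    · rw [h1.1] at h2
      omega
    · omega
  · rw [Finset.disjoint_left]
    intro c h1 h2
    simp only [Finset.mem_filter, Finset.mem_univ, true_and] at h1 h2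
    rw [h1.1] at h2
    omega

theorem gap_rank_eq (M : Mat X) (k : ℕ) (h : M.crit (k + 1) = 0) :
    gapQ M k = (gapMat X k).rank := by
  have h1 := gap_rank_le M k
  have h2 := gap_rank_le M (k + 1)
  have h3 := Matrix.rank_add_rank_le_card_of_mul_eq_zero (gap_mul X k)
  have h4 := gap_card_succ M k
  have h5 : Fintype.card {s : C // X.dim s = k + 1} =
      (Finset.univ.filter fun c => X.dim c = k + 1).card := Fintype.card_subtype _
  rw [h5, h4, h] at h3
  omega

theorem gap_tele (M : Mat X) (k : ℕ) :
    ∑ i ∈ Finset.range (k + 1), (-1 : ℤ) ^ i * M.crit i =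
      ∑ i ∈ Finset.range (k + 1), (-1 : ℤ) ^ i *
        ((Finset.univ.filter fun c => X.dim c = i).card : ℤ) - (-1) ^ k * gapQ M k := by
  induction k with
  | zero =>
    rw [Finset.sum_range_one, Finset.sum_range_one, gap_card_zero M]
    push_cast
    ring
  | succ k ih =>
    rw [Finset.sum_range_succ, ih, Finset.sum_range_succ _ (k + 1), gap_card_succ M k]
    push_cast
    ring

/-- **Gap lemma.** If two acyclic matchings of the same complex have no critical cell in dimension
`k + 1`, then the truncated alternating sums of the numbers of critical cells agree. -/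
theorem gap (M M' : Mat X) (k : ℕ) (h : M.crit (k + 1) = 0) (h' : M'.crit (k + 1) = 0) :
    ∑ i ∈ Finset.range (k + 1), (-1 : ℤ) ^ i * M.crit i =
      ∑ i ∈ Finset.range (k + 1), (-1 : ℤ) ^ i * M'.crit i := by
  rw [gap_tele M k, gap_tele M' k, gap_rank_eq M k h, gap_rank_eq M' k h']

end Pool.Agent.H47.QG
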