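import Pool.Agent.H47.QG.Gap

/-!
# The cubical grid complex
-/

set_option autoImplicit false

namespace Pool.Agent.H47.QG

/-- Kinds of coordinates: `th` circle, `up` interval relative to its end points (vertex `0`
removed from the circle), `dn` interval (edge from `-1` to `0` removed from the circle). -/
inductive Kind
  | th
  | up
  | dn
  deriving DecidableEq

/-- One dimensional cells of the circle with `m` vertices: `(a, false)` is the vertex `a`,
`(a, true)` is the edge from `a` to `a + 1`. -/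
def ok1 (m : ℕ) (k : Kind) (c : ZMod m × Bool) : Prop :=
  (k = Kind.up → c ≠ (0, false)) ∧ (k = Kind.dn → c ≠ (-1, true))

variable {ι : Type*} [Fintype ι] [DecidableEq ι]

/-- Allowed cells. -/
abbrev Cell (kd : ι → Kind) (m : ℕ) := {c : ι → ZMod m × Bool // ∀ i, ok1 m (kd i) (c i)}

noncomputable instance (kd : ι → Kind) (m : ℕ) [NeZero m] : Fintype (Cell kd m) :=
  Fintype.ofFinite _

/-- Dimension of a cell. -/
def cdim {m : ℕ} (c : ι → ZMod m × Bool) : ℕ := (Finset.univ.filter fun i => (c i).2 = true).card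

/-- `c'` is the face of `c` obtained by replacing the edge of coordinate `i` by an end point. -/
def FaceAt {m : ℕ} (c c' : ι → ZMod m × Bool) (i : ι) : Prop :=
  (c i).2 = true ∧ (c' i = ((c i).1, false) ∨ c' i = ((c i).1 + 1, false)) ∧
    ∀ j, j ≠ i → c' j = c j

open Classical in
/-- Incidence number. -/
noncomputable def inc {m : ℕ} (c c' : ι → ZMod m × Bool) : ZMod 2 :=
  if ∃ i, FaceAt c c' i then 1 else 0

theorem inc_dim {m : ℕ} (c c' : ι → ZMod m × Bool) (h : inc c c' ≠ 0) :
    cdim c = cdim c' + 1 := by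
  classical
  have hex : ∃ i, FaceAt c c' i := by
    by_contra hcon
    exact h (by unfold inc; rw [if_neg hcon])
  obtain ⟨i, hi, hi', hj⟩ := hex
  have hc' : (c' i).2 = false := by
    rcases hi' with h1 | h1 <;> rw [h1]
  have hset : (Finset.univ.filter fun l => (c l).2 = true) =
      insert i (Finset.univ.filter fun l => (c' l).2 = true) := by
    ext l
    simp only [Finset.mem_filter, Finset.mem_univ, true_and, Finset.mem_insert]
    by_cases hl : l = i
    · subst hl
      simp only [hi, true_or]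
    · rw [hj l hl]
      simp only [hl, false_or]
  have hnot : i ∉ (Finset.univ.filter fun l => (c' l).2 = true) := by
    simp only [Finset.mem_filter, Finset.mem_univ, true_and, hc', Bool.false_eq_true,
      not_false_eq_true]
  unfold cdim
  rw [hset, Finset.card_insert_of_notMem hnot]

/-- the other cell between `s` and `r` -/
def gridSwap {m : ℕ} (s r t : ι → ZMod m × Bool) : ι → ZMod m × Bool :=
  fun l => if t l = s l then r l else s l

theorem gridSwap_spec {m : ℕ} {s r t : ι → ZMod m × Bool} {i j : ι} (h1 : FaceAt s t i)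
    (h2 : FaceAt t r j) : FaceAt s (gridSwap s r t) j ∧ FaceAt (gridSwap s r t) r i ∧
      gridSwap s r t ≠ t ∧ gridSwap s r (gridSwap s r t) = t := by
  obtain ⟨h1a, h1b, h1c⟩ := h1
  obtain ⟨h2a, h2b, h2c⟩ := h2
  have hti : (t i).2 = false := by
    rcases h1b with h | h <;> rw [h]
  have hij : i ≠ j := by
    intro h
    rw [h, h2a] at hti
    exact Bool.noConfusion hti
  have hji : j ≠ i := fun h => hij h.symm
  have hne : t i ≠ s i := by
    intro h
    rw [h, h1a] at hti
    exact Bool.noConfusion hti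
  have htj : t j = s j := h1c j hji
  have hri : r i = t i := h2c i hij
  have hrj : (r j).2 = false := by
    rcases h2b with h | h <;> rw [h]
  have hrsj : r j ≠ s j := by
    intro h
    rw [← htj] at h
    rw [h, h2a] at hrj
    exact Bool.noConfusion hrj
  have hwi : gridSwap s r t i = s i := if_neg hne
  have hwj : gridSwap s r t j = r j := if_pos htj
  have hoth : ∀ l, l ≠ i → l ≠ j → t l = s l ∧ r l = s l := by
    intro l hl1 hl2
    have h3 := h1c l hl1
    have h4 := h2c l hl2
    exact ⟨h3, by rw [h4, h3]⟩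
  have hwl : ∀ l, l ≠ i → l ≠ j → gridSwap s r t l = s l := by
    intro l hl1 hl2
    obtain ⟨h3, h4⟩ := hoth l hl1 hl2
    have h5 : gridSwap s r t l = r l := if_pos h3
    rw [h5, h4]
  refine ⟨⟨?_, ?_, ?_⟩, ⟨?_, ?_, ?_⟩, ?_, ?_⟩
  · rw [← htj]
    exact h2a
  · rw [hwj, ← htj]
    exact h2b
  · intro l hl
    by_cases hli : l = i
    · rw [hli]
      exact hwi
    · exact hwl l hli hl
  · rw [hwi]
    exact h1a
  · rw [hwi, hri]
    exact h1b
  · intro l hl
    by_cases hlj : l = j
    · rw [hlj]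
      exact hwj.symm
    · rw [hwl l hl hlj]
      exact (hoth l hl hlj).2
  · intro h
    apply hne
    rw [← h]
    exact hwi
  · funext l
    by_cases hli : l = i
    · have h6 : gridSwap s r (gridSwap s r t) l = r l := by
        apply if_pos
        rw [hli]
        exact hwi
      rw [h6, hli]
      exact hri
    · by_cases hlj : l = j
      · have h6 : gridSwap s r (gridSwap s r t) l = s l := by
          apply if_neg
          rw [hlj, hwj]
          exact hrsj
        rw [h6, hlj]
        exact htj.symm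
      · have h6 : gridSwap s r (gridSwap s r t) l = r l := if_pos (hwl l hli hlj)
        obtain ⟨h3, h4⟩ := hoth l hli hlj
        rw [h6, h4, h3]

theorem grid_inc_ne {m : ℕ} {c c' : ι → ZMod m × Bool} (h : inc c c' ≠ 0) : ∃ i, FaceAt c c' i := by
  by_contra hcon
  exact h (by unfold inc; rw [if_neg hcon])

theorem grid_inc_one {m : ℕ} {c c' : ι → ZMod m × Bool} {i : ι} (h : FaceAt c c' i) :
    inc c c' = 1 := by
  unfold inc
  rw [if_pos ⟨i, h⟩]

theorem inc_inc (kd : ι → Kind) {m : ℕ} [NeZero m] (hm : 3 ≤ m) (s r : Cell kd m) :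
    ∑ t : Cell kd m, inc s.1 t.1 * inc t.1 r.1 = 0 := by
  classical
  rw [← Finset.sum_filter_ne_zero]
  have hsw : ∀ t ∈ Finset.univ.filter
      (fun t : Cell kd m => inc s.1 t.1 * inc t.1 r.1 ≠ 0),
      ∃ t' : Cell kd m, t'.1 = gridSwap s.1 r.1 t.1 := by
    intro t _
    refine ⟨⟨gridSwap s.1 r.1 t.1, fun l => ?_⟩, rfl⟩
    unfold gridSwap
    split_ifs with h
    · exact r.2 l
    · exact s.2 l
  choose g hg using hsw
  have key : ∀ t ht, (∃ i j, FaceAt s.1 t.1 i ∧ FaceAt t.1 r.1 j) ∧
      (∃ i j, FaceAt s.1 (g t ht).1 j ∧ FaceAt (g t ht).1 r.1 i) ∧ (g t ht).1 ≠ t.1 ∧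
        gridSwap s.1 r.1 (g t ht).1 = t.1 := by
    intro t ht
    have hne : inc s.1 t.1 * inc t.1 r.1 ≠ 0 := (Finset.mem_filter.mp ht).2
    obtain ⟨i, hi⟩ := grid_inc_ne (left_ne_zero_of_mul hne)
    obtain ⟨j, hj⟩ := grid_inc_ne (right_ne_zero_of_mul hne)
    obtain ⟨h1, h2, h3, h4⟩ := gridSwap_spec hi hj
    rw [← hg t ht] at h1 h2 h3 h4
    exact ⟨⟨i, j, hi, hj⟩, ⟨i, j, h1, h2⟩, h3, h4⟩
  have hval : ∀ t ht, inc s.1 (g t ht).1 * inc (g t ht).1 r.1 = 1 := by
    intro t ht
    obtain ⟨_, ⟨i, j, h1, h2⟩, _, _⟩ := key t ht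
    rw [grid_inc_one h1, grid_inc_one h2, mul_one]
  have hval0 : ∀ t (ht : t ∈ Finset.univ.filter
      (fun t : Cell kd m => inc s.1 t.1 * inc t.1 r.1 ≠ 0)), inc s.1 t.1 * inc t.1 r.1 = 1 := by
    intro t ht
    obtain ⟨⟨i, j, h1, h2⟩, _, _, _⟩ := key t ht
    rw [grid_inc_one h1, grid_inc_one h2, mul_one]
  have hmem : ∀ t ht, g t ht ∈ Finset.univ.filter
      (fun t : Cell kd m => inc s.1 t.1 * inc t.1 r.1 ≠ 0) := by
    intro t ht
    rw [Finset.mem_filter]
    refine ⟨Finset.mem_univ _, ?_⟩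
    rw [hval t ht]
    exact one_ne_zero
  refine Finset.sum_involution g ?_ ?_ hmem ?_
  · intro t ht
    rw [hval t ht, hval0 t ht]
    decide
  · intro t ht _ h
    obtain ⟨_, _, h3, _⟩ := key t ht
    exact h3 (congrArg Subtype.val h)
  · intro t ht
    obtain ⟨_, _, _, h4⟩ := key t ht
    apply Subtype.ext
    rw [hg (g t ht) (hmem t ht)]
    exact h4

/-- The grid complex. -/
noncomputable def grid (kd : ι → Kind) (m : ℕ) [NeZero m] (hm : 3 ≤ m) : Cx (Cell kd m) where
  dim c := cdim c.1
  bd c c' := inc c.1 c'.1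
  bd_dim s t h := inc_dim _ _ h
  bd_bd := inc_inc kd hm

end Pool.Agent.H47.QG
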