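import Pool.Agent.H47.QG.ActH
import Pool.Agent.H47.QG.ActS
import Pool.Agent.H47.QG.ActC

/-!
# Index of orbits: definitions
-/

set_option autoImplicit false

open Module QuadraticForm

namespace Pool.Agent.H47.QG

variable {n : ℕ}

/-- Morse index of the action of `K`-periodic sequences at the orbit of `w`. -/
noncomputable def ind (S : ℕ → Pt n → ℝ) (f : ℕ → Pt n → Pt n) (K : ℕ) (w : Pt n) : ℕ :=
  if h : K = 0 then 0 else
    haveI : NeZero K := ⟨h⟩
    sigNeg (hess (action S K) (oseq f K w))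

/-- The orbit of `w` is a nondegenerate critical point of the action of `K`-periodic
sequences. -/
def Nondeg (S : ℕ → Pt n → ℝ) (f : ℕ → Pt n → Pt n) (K : ℕ) (w : Pt n) : Prop :=
  ∀ h : K ≠ 0, haveI : NeZero K := ⟨h⟩
    ∀ v : Fin K → Pt n, fderiv ℝ (fderiv ℝ (action S K)) (oseq f K w) v = 0 → v = 0

end Pool.Agent.H47.QG
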