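import Pool.Agent.H47.QG.Em
import Pool.Agent.H47.QG.ActQ
import Pool.Agent.H47.QG.IterN
import Pool.Agent.H47.QG.IterT
import Pool.Agent.H47.QG.IdxS

/-!
# The equivariant step for the action functional
-/

set_option autoImplicit false

open Module QuadraticForm

namespace Pool.Agent.H47.QG

variable {n : ℕ}

/-- The integer lattice. -/
def Zn (n : ℕ) : AddSubgroup (Pt n) where
  carrier := {e | ∃ a b : Fin n → ℤ, e = ((fun i => (a i : ℝ)), (fun i => (b i : ℝ)))}
  zero_mem' := ⟨0, 0, by ext i <;> simp⟩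
  add_mem' := by
    rintro _ _ ⟨a, b, rfl⟩ ⟨a', b', rfl⟩
    exact ⟨a + a', b + b', by ext i <;> simp⟩
  neg_mem' := by
    rintro _ ⟨a, b, rfl⟩
    exact ⟨-a, -b, by ext i <;> simp⟩

/-- coordinates of the sequence space, as an equivalence -/
noncomputable def psiE (n K : ℕ) [NeZero K] : (Ix n K → ℝ) ≃L[ℝ] (Fin K → Pt n) :=
  (exists_psi n K).choose

theorem psiE_apply (K : ℕ) [NeZero K] (t : Ix n K → ℝ) : psiE n K t = psi n K t :=
  (exists_psi n K).choose_spec t

theorem card_Ix (K : ℕ) [NeZero K] : Fintype.card (Ix n K) = finrank ℝ (Fin K → Pt n) := by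
  have h := LinearEquiv.finrank_eq (psiE n K).toLinearEquiv
  rw [← h, Module.finrank_pi]

theorem nk_up (K : ℕ) : nk (kdx n K) Kind.up = (K - 1) * n := by
  have : nk (kdx n K) Kind.up = Fintype.card (Fin (K - 1) × Fin n) := by
    unfold nk
    rw [← Finset.card_univ]
    symm
    refine Finset.card_bij (fun a _ => Sum.inr (Sum.inl a)) ?_ ?_ ?_
    · intro a _
      rw [Finset.mem_filter]
      exact ⟨Finset.mem_univ _, rfl⟩
    · intro a _ b _ h
      simpa using h
    · intro b hb
      rw [Finset.mem_filter] at hb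
      rcases b with b | b | b
      · exact absurd hb.2 (by simp [kdx])
      · exact ⟨b, Finset.mem_univ _, rfl⟩
      · exact absurd hb.2 (by simp [kdx])
  rw [this]
  simp

theorem nk_th (K : ℕ) : nk (kdx n K) Kind.th = 2 * n := by
  have : nk (kdx n K) Kind.th = Fintype.card (Fin n ⊕ Fin n) := by
    unfold nk
    rw [← Finset.card_univ]
    symm
    refine Finset.card_bij (fun a _ => Sum.inl a) ?_ ?_ ?_
    · intro a _
      rw [Finset.mem_filter]
      exact ⟨Finset.mem_univ _, rfl⟩
    · intro a _ b _ h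
      simpa using h
    · intro b hb
      rw [Finset.mem_filter] at hb
      rcases b with b | b | b
      · exact ⟨b, Finset.mem_univ _, rfl⟩
      · exact absurd hb.2 (by simp [kdx])
      · exact absurd hb.2 (by simp [kdx])
  rw [this]
  simp
  ring

/-- Lattice translations in coordinates are constant integer translations. -/
theorem lat_iff (K : ℕ) [NeZero K] (t t' : Ix n K → ℝ) :
    t - t' ∈ Lat (kdx n K) ↔ ∃ e ∈ Zn n, ∀ j, psi n K t j = psi n K t' j + e := by
  have hK : 0 < K := Nat.pos_of_ne_zero (NeZero.ne K)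
  constructor
  · intro h
    choose a ha using fun i : Fin n => (h (Sum.inl (Sum.inl i))).1 rfl
    choose b hb using fun i : Fin n => (h (Sum.inl (Sum.inr i))).1 rfl
    have hu : ∀ l, t (Sum.inr (Sum.inl l)) = t' (Sum.inr (Sum.inl l)) := fun l =>
      sub_eq_zero.1 ((h (Sum.inr (Sum.inl l))).2 (by simp [kdx]))
    have hw : ∀ l, t (Sum.inr (Sum.inr l)) = t' (Sum.inr (Sum.inr l)) := fun l =>
      sub_eq_zero.1 ((h (Sum.inr (Sum.inr l))).2 (by simp [kdx]))
    refine ⟨_, ⟨a, b, rfl⟩, fun j => ?_⟩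
    have ha' : ∀ i, t (Sum.inl (Sum.inl i)) = t' (Sum.inl (Sum.inl i)) + a i := fun i => by
      have := ha i
      rw [Pi.sub_apply] at this
      linarith
    have hb' : ∀ i, t (Sum.inl (Sum.inr i)) = t' (Sum.inl (Sum.inr i)) + b i := fun i => by
      have := hb i
      rw [Pi.sub_apply] at this
      linarith
    refine Prod.ext (funext fun i => ?_) (funext fun i => ?_)
    · simp only [psi, Prod.fst_add, Pi.add_apply, ha', hu, hw]
      ring
    · simp only [psi, Prod.snd_add, Pi.add_apply, hb', hu, hw]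
      ring
  · rintro ⟨e, ⟨a, b, rfl⟩, he⟩
    -- use injectivity of the coordinates
    let d : Ix n K → ℝ := fun i => match i with
      | Sum.inl (Sum.inl i) => (a i : ℝ)
      | Sum.inl (Sum.inr i) => (b i : ℝ)
      | Sum.inr _ => 0
    have hd : psi n K d = fun _ => ((fun i => (a i : ℝ)), (fun i => (b i : ℝ))) := by
      ext j i
      · simp [psi, d]
      · simp [psi, d]
    have h1 : psiE n K (t - t' - d) = 0 := by
      rw [map_sub, map_sub, psiE_apply, psiE_apply, psiE_apply, hd]
      ext1 j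
      rw [Pi.sub_apply, Pi.sub_apply, he j]
      simp
    have h2 : t - t' - d = 0 := (psiE n K).injective (h1.trans (map_zero _).symm)
    have h3 : t - t' = d := sub_eq_zero.1 h2
    rw [h3]
    intro i
    rcases i with (i | i) | i
    · exact ⟨fun _ => ⟨a i, rfl⟩, fun h => absurd rfl h⟩
    · exact ⟨fun _ => ⟨b i, rfl⟩, fun h => absurd rfl h⟩
    · refine ⟨fun h => ?_, fun _ => rfl⟩
      rcases i with i | i <;> exact absurd h (by simp [kdx])

/-- the action in coordinates -/
noncomputable def fE (S : ℕ → Pt n → ℝ) (K : ℕ) [NeZero K] (t : Ix n K → ℝ) : ℝ :=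
  action S K (psiE n K t)

theorem fE_eq (S : ℕ → Pt n → ℝ) (K : ℕ) [NeZero K] :
    fE S K = fun t => action S K (psi n K t) := by
  ext t; rw [fE, psiE_apply]

theorem fE_smooth {S : ℕ → Pt n → ℝ} (hS : ∀ j, ContDiff ℝ 2 (S j)) (K : ℕ) [NeZero K] :
    ContDiff ℝ 2 (fE S K) :=
  (action_smooth S hS K).comp (psiE n K).contDiff

theorem fE_crit {S : ℕ → Pt n → ℝ} (hS : ∀ j, ContDiff ℝ 2 (S j)) (K : ℕ) [NeZero K]
    (t : Ix n K → ℝ) : fderiv ℝ (fE S K) t = 0 ↔ fderiv ℝ (action S K) (psiE n K t) = 0 := by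
  have h1 : fderiv ℝ (fE S K) t =
      (fderiv ℝ (action S K) (psiE n K t)).comp (psiE n K : (Ix n K → ℝ) →L[ℝ] (Fin K → Pt n)) := by
    have h2 : DifferentiableAt ℝ (action S K) (psiE n K t) :=
      (action_smooth S hS K).differentiable (by norm_num) _
    exact (h2.hasFDerivAt.comp t (psiE n K).hasFDerivAt).fderiv
  rw [h1]
  constructor
  · intro h
    ext1 v
    have := congrArg (fun L => L ((psiE n K).symm v)) h
    simpa using this
  · intro h
    rw [h, ContinuousLinearMap.zero_comp]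

theorem fE_hess {S : ℕ → Pt n → ℝ} (hS : ∀ j, ContDiff ℝ 2 (S j)) (K : ℕ) [NeZero K]
    (t : Ix n K → ℝ) :
    (hess (fE S K) t).Equivalent (hess (action S K) (psiE n K t)) := by
  refine ⟨⟨(psiE n K).toLinearEquiv, fun v => ?_⟩⟩
  have := hess_comp (action S K) (action_smooth S hS K)
    (psiE n K : (Ix n K → ℝ) →L[ℝ] (Fin K → Pt n)) 0 t v
  simp only [add_zero] at this
  exact this.symm

end Pool.Agent.H47.QG
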