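import Pool.Agent.H47.QG.Main1

/-!
# The equivariant step for the action functional, continued
-/

set_option autoImplicit false

open Module QuadraticForm

namespace Pool.Agent.H47.QG

variable {n : ℕ}

/-! ### flows -/

theorem flw_add (f : ℕ → Pt n → Pt n) (a j : ℕ) (w : Pt n) :
    flw f (a + j) w = flw (fun i => f (a + i)) j (flw f a w) := by
  induction j with
  | zero => rfl
  | succ j ih =>
    change f (a + j) (flw f (a + j) w) = f (a + j) (flw (fun i => f (a + i)) j (flw f a w))
    rw [ih]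

theorem flw_add_per {f : ℕ → Pt n → Pt n} {N : ℕ} (hf : ∀ j, f (j + N) = f j) (j : ℕ) (w : Pt n) :
    flw f (N + j) w = flw f j (flw f N w) := by
  rw [flw_add]
  have : (fun i => f (N + i)) = f := by
    ext1 i; rw [add_comm]; exact hf i
  rw [this]

theorem flw_mul {f : ℕ → Pt n → Pt n} {N : ℕ} (hf : ∀ j, f (j + N) = f j) (p : ℕ) (w : Pt n) :
    flw f (p * N) w = (flw f N)^[p] w := by
  induction p generalizing w with
  | zero => rw [zero_mul]; rfl
  | succ p ih =>
    rw [Nat.succ_mul, add_comm, flw_add_per hf, ih, Function.iterate_succ_apply]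

theorem Gen.add_int {S : Pt n → ℝ} {f : Pt n → Pt n} (h : Gen S f) (w e : Pt n) (he : e ∈ Zn n) :
    f (w + e) = f w + e := by
  obtain ⟨a, b, rfl⟩ := he
  rw [h.rel]
  intro i
  have h1 := (h.rel w (f w)).1 rfl i
  have hper : ∀ z : Pt n, S (z + ((fun i => (a i : ℝ)), (fun i => (b i : ℝ)))) = S z := fun z =>
    h.periodic z a b
  have h2 : ∀ z : Pt n, fderiv ℝ S (z + ((fun i => (a i : ℝ)), (fun i => (b i : ℝ)))) =
      fderiv ℝ S z := by
    intro z
    rw [← fderiv_comp_add_right]
    congr 1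
    ext z
    exact hper z
  have h3 := h2 ((f w).1, w.2)
  have e1 : (((f w + ((fun i => (a i : ℝ)), (fun i => (b i : ℝ)))).1,
      (w + ((fun i => (a i : ℝ)), (fun i => (b i : ℝ)))).2) : Pt n) =
      ((f w).1, w.2) + ((fun i => (a i : ℝ)), (fun i => (b i : ℝ))) := rfl
  rw [e1, h3]
  constructor
  · change (f w).1 i + a i = w.1 i + a i + _
    rw [h1.1]; ring
  · change (f w).2 i + b i = w.2 i + b i - _
    rw [h1.2]; ring

theorem flw_add_int {S : ℕ → Pt n → ℝ} {f : ℕ → Pt n → Pt n} (hS : ∀ j, Gen (S j) (f j)) (j : ℕ)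
    (w e : Pt n) (he : e ∈ Zn n) : flw f j (w + e) = flw f j w + e := by
  induction j with
  | zero => rfl
  | succ j ih =>
    change f j (flw f j (w + e)) = f j (flw f j w) + e
    rw [ih, (hS j).add_int _ _ he]

theorem flw_mod {f : ℕ → Pt n → Pt n} {K : ℕ} (hf : ∀ j, f (j + K) = f j) (w : Pt n)
    (hw : flw f K w = w) (m : ℕ) : flw f (m % K) w = flw f m w := by
  induction m using Nat.strong_induction_on with
  | _ m ih =>
    by_cases h : m < K
    · rw [Nat.mod_eq_of_lt h]
    · by_cases hK : K = 0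
      · subst hK; rw [Nat.mod_zero]
      · push Not at h
        have h1 : m = K + (m - K) := by omega
        have h2 : m % K = (m - K) % K := by
          conv_lhs => rw [h1]
          exact Nat.add_mod_left K _
        rw [h2, ih (m - K) (by omega)]
        conv_rhs => rw [h1, flw_add_per hf, hw]

/-! ### the shift in coordinates -/

theorem shift_oseq {f : ℕ → Pt n → Pt n} {p N : ℕ} (hp : 2 ≤ p) (hN : 0 < N) [NeZero (p * N)]
    (hf : ∀ j, f (j + N) = f j) (w : Pt n) (hw : flw f (p * N) w = w) :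
    shiftN n (p * N) N (oseq f (p * N) w) = oseq f (p * N) w ↔ flw f N w = w := by
  have hfK : ∀ j, f (j + p * N) = f j := by
    intro j
    clear hw hp
    induction p with
    | zero => rw [zero_mul, add_zero]
    | succ p ih =>
      by_cases h0 : p = 0
      · subst h0; rw [zero_add, one_mul]; exact hf j
      · have : NeZero (p * N) := ⟨Nat.mul_ne_zero h0 hN.ne'⟩
        rw [Nat.succ_mul, ← add_assoc, hf, ih]
  have hlt : N < p * N := by nlinarith
  have hval : ((Fin.ofNat (p * N) N : Fin (p * N)) : ℕ) = N := by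
    change N % (p * N) = N
    exact Nat.mod_eq_of_lt hlt
  have key : ∀ j : Fin (p * N), shiftN n (p * N) N (oseq f (p * N) w) j =
      flw f (j + N) w := by
    intro j
    change flw f ((j + Fin.ofNat (p * N) N : Fin (p * N)) : ℕ) w = _
    rw [Fin.val_add, hval, flw_mod hfK w hw]
  constructor
  · intro h
    have h1 := congrFun h 0
    rw [key] at h1
    have h0 : ((0 : Fin (p * N)) : ℕ) = 0 := Fin.val_zero _
    change flw f (((0 : Fin (p * N)) : ℕ) + N) w = flw f ((0 : Fin (p * N)) : ℕ) w at h1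
    rw [h0, zero_add] at h1
    exact h1
  · intro h
    ext1 j
    rw [key, add_comm, flw_add_per hf, h]
    rfl

/-- The shift in coordinates. -/
noncomputable def TE (n p N : ℕ) [NeZero (p * N)] :
    (Ix n (p * N) → ℝ) →ₗ[ℝ] (Ix n (p * N) → ℝ) :=
  ((psiE n (p * N)).symm.toLinearEquiv.toLinearMap ∘ₗ shiftN n (p * N) N) ∘ₗ
    (psiE n (p * N)).toLinearEquiv.toLinearMap

theorem TE_apply (p N : ℕ) [NeZero (p * N)] (t : Ix n (p * N) → ℝ) :
    TE n p N t = (psiE n (p * N)).symm (shiftN n (p * N) N (psiE n (p * N) t)) := rfl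

theorem psiE_TE (p N : ℕ) [NeZero (p * N)] (t : Ix n (p * N) → ℝ) :
    psiE n (p * N) (TE n p N t) = shiftN n (p * N) N (psiE n (p * N) t) := by
  rw [TE_apply, ContinuousLinearEquiv.apply_symm_apply]

theorem TE_pow (p N : ℕ) [NeZero (p * N)] : TE n p N ^ p = 1 := by
  have h : ∀ (m : ℕ) (t : Ix n (p * N) → ℝ),
      psiE n (p * N) ((TE n p N ^ m) t) = (shiftN n (p * N) N ^ m) (psiE n (p * N) t) := by
    intro m
    induction m with
    | zero => intro t; rfl
    | succ m ih =>
      intro t
      rw [pow_succ, pow_succ]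
      change psiE n (p * N) ((TE n p N ^ m) (TE n p N t)) =
        (shiftN n (p * N) N ^ m) (shiftN n (p * N) N (psiE n (p * N) t))
      rw [ih, psiE_TE]
  refine LinearMap.ext fun t => (psiE n (p * N)).injective ?_
  rw [h, shiftN_pow]
  rfl

theorem TE_single (p N : ℕ) [NeZero (p * N)] (i : Ix n (p * N)) (hi : kdx n (p * N) i = Kind.th) :
    TE n p N (Pi.single i 1) = Pi.single i 1 := by
  have h1 : ∃ e : Pt n, psiE n (p * N) (Pi.single i 1) = fun _ => e := by
    rcases i with (i | i) | (i | i)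
    · refine ⟨(Pi.single i 1, 0), ?_⟩
      rw [psiE_apply]
      ext j l
      · simp [psi, Pi.single_apply]
      · simp [psi]
    · refine ⟨(0, Pi.single i 1), ?_⟩
      rw [psiE_apply]
      ext j l
      · simp [psi]
      · simp [psi, Pi.single_apply]
    · exact absurd hi (by simp [kdx])
    · exact absurd hi (by simp [kdx])
  obtain ⟨e, he⟩ := h1
  refine (psiE n (p * N)).injective ?_
  rw [psiE_TE, he]
  rfl

theorem fE_TE {S : ℕ → Pt n → ℝ} (p N : ℕ) [NeZero (p * N)] (hper : ∀ j, S (j + N) = S j)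
    (t : Ix n (p * N) → ℝ) : fE S (p * N) (TE n p N t) = fE S (p * N) t := by
  unfold fE
  rw [psiE_TE, action_shift S p N hper]

end Pool.Agent.H47.QG
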