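import Pool.Agent.H47.QG.Main3

/-!
# Counting the values of the index on primitive orbits of prime period
-/

set_option autoImplicit false

open Module QuadraticForm Filter

namespace Pool.Agent.H47.QG

variable {n : ℕ}

/-- Nondegenerate orbits need no perturbation. -/
theorem nondeg_LD {S : ℕ → Pt n → ℝ} {f : ℕ → Pt n → Pt n} (hS : ∀ j, Gen (S j) (f j)) (K : ℕ)
    [NeZero K] (w : Pt n) (hw : flw f K w = w) (hnd : Nondeg S f K w) (r : ℝ) (hr : 0 < r)
    (hiso : ∀ x ∈ Metric.closedBall (tw f K w) r, fderiv ℝ (fE S K) x = 0 → x = tw f K w) :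
    ∃ (g : (Ix n K → ℝ) → ℝ) (X : Finset (Ix n K → ℝ)), LD (fE S K) (tw f K w) r g X ∧
      ∑ y ∈ X, (-1 : ℤ) ^ sigNeg (hess g y) = (-1) ^ ind S f K w := by
  have hsm : ∀ j, ContDiff ℝ 2 (S j) := fun j => (hS j).smooth
  have hos0 : oseq f K w 0 = w := by
    have h0 : ((0 : Fin K) : ℕ) = 0 := Fin.val_zero _
    change flw f ((0 : Fin K) : ℕ) w = w
    rw [h0]; rfl
  have hc : fderiv ℝ (fE S K) (tw f K w) = 0 := by
    rw [fE_crit hsm, psiE_tw, crit_iff S f hS, hos0]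
    exact ⟨hw, rfl⟩
  have hsum : sigNeg (hess (fE S K) (tw f K w)) + sigPos (hess (fE S K) (tw f K w)) =
      Fintype.card (Ix n K) := by
    rw [sigNeg_tw hS, sigPos_tw hS, ind_eq, card_Ix]
    exact (nondeg_iff S f hS K w).1 hnd
  refine ⟨fE S K, {tw f K w}, ⟨fE_smooth hsm K, fun _ _ => rfl, fun y hy => ?_, ?_, ?_, ?_, ?_⟩, ?_⟩
  · rw [Finset.mem_singleton]
    exact ⟨fun h => hiso y hy h, fun h => h ▸ hc⟩
  · intro y hy
    rw [Finset.mem_singleton.1 hy]
    exact Metric.mem_ball_self (by linarith)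
  · intro y hy
    rw [Finset.mem_singleton.1 hy]; exact hsum
  · intro y hy
    rw [Finset.mem_singleton.1 hy]
  · intro y hy
    rw [Finset.mem_singleton.1 hy]; exact hsum.le
  · rw [Finset.sum_singleton, sigNeg_tw hS]

/-- Natural numbers in an interval. -/
theorem exists_nats (x y : ℝ) (hx : 0 ≤ x) : ∃ J : Finset ℕ, y - x - 1 ≤ J.card ∧
    ∀ a ∈ J, x < a ∧ (a : ℝ) < y := by
  refine ⟨Finset.Ico (⌊x⌋₊ + 1) ⌈y⌉₊, ?_, fun a ha => ?_⟩
  · rw [Nat.card_Ico]
    have h1 : y ≤ (⌈y⌉₊ : ℝ) := Nat.le_ceil y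
    have h2 : (⌊x⌋₊ : ℝ) ≤ x := Nat.floor_le hx
    have h3 : (⌈y⌉₊ : ℝ) ≤ ((⌈y⌉₊ - (⌊x⌋₊ + 1) : ℕ) : ℝ) + (⌊x⌋₊ + 1) := by
      have : ⌈y⌉₊ ≤ (⌈y⌉₊ - (⌊x⌋₊ + 1)) + (⌊x⌋₊ + 1) := by omega
      exact_mod_cast this
    linarith
  · rw [Finset.mem_Ico] at ha
    constructor
    · have h1 := Nat.lt_floor_add_one x
      have h2 : ((⌊x⌋₊ + 1 : ℕ) : ℝ) ≤ a := by exact_mod_cast ha.1
      push_cast at h2
      linarith
    · exact Nat.lt_ceil.1 ha.2

/-- An interval of numbers which are all blocked by windows of length `m`. -/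
theorem card_blocked (J A : Finset ℕ) (m : ℕ) (h : ∀ a ∈ J, ∃ v ∈ A, v ≤ a ∧ a ≤ v + m) :
    J.card ≤ (m + 1) * A.card := by
  have h1 : J ⊆ A.biUnion fun v => Finset.Icc v (v + m) := by
    intro a ha
    obtain ⟨v, hv, h1, h2⟩ := h a ha
    exact Finset.mem_biUnion.2 ⟨v, hv, Finset.mem_Icc.2 ⟨h1, h2⟩⟩
  refine (Finset.card_le_card h1).trans ((Finset.card_biUnion_le).trans ?_)
  rw [Finset.sum_congr rfl (g := fun _ => m + 1) (fun v _ => by rw [Nat.card_Icc]; omega)]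
  rw [Finset.sum_const, smul_eq_mul, mul_comm]

/-- **Values of the index on primitive orbits of prime period.** -/
theorem cluster_values {S : ℕ → Pt n → ℝ} {f : ℕ → Pt n → Pt n} (hS : ∀ j, Gen (S j) (f j))
    (hn : 0 < n) {N : ℕ} (hN : 0 < N) (hper : ∀ j, S (j + N) = S j)
    (hfper : ∀ j, f (j + N) = f j) (Lf : Pt n → ℝ)
    (hL : ∀ w, flw f N w = w → ∀ p : ℕ, 0 < p → |(ind S f (p * N) w : ℝ) - p * Lf w| ≤ 2 * n)
    (Fx : Finset (Pt n)) (L₀ : ℝ) (s : Pt n → ℤ)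
    (hFx : ∀ w ∈ Fx, flw f N w = w)
    (hsum : ∑ w ∈ Fx.filter (fun w => Lf w = L₀), s w ≠ 0)
    (hs : ∀ w ∈ Fx, Lf w = L₀ → ∃ P₀ : ℕ, ∀ p : ℕ, p.Prime → P₀ < p → ∀ h : NeZero (p * N),
      ∀ r > 0, (∀ x ∈ Metric.closedBall (tw f (p * N) w) r, fderiv ℝ (fE S (p * N)) x = 0 →
        x = tw f (p * N) w) →
      ∃ (g : (Ix n (p * N) → ℝ) → ℝ) (X : Finset (Ix n (p * N) → ℝ)),
        LD (fE S (p * N)) (tw f (p * N) w) r g X ∧
        ∑ y ∈ X, (-1 : ℤ) ^ sigNeg (hess g y) = s w) :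
    ∃ c > 0, ∃ D : ℝ, ∀ p : ℕ, p.Prime → D ≤ c * p → ∀ W : Finset (Pt n),
      (∀ w, flw f (p * N) w = w ↔ ∃ w' ∈ W, w - w' ∈ Zn n) →
      (∀ w ∈ W, ∀ w' ∈ W, w - w' ∈ Zn n → w = w') →
      (∀ w, w ∈ Fx ↔ w ∈ W ∧ flw f N w = w) →
      ∃ A : Finset ℕ, c * p - D ≤ A.card ∧
        ∀ a ∈ A, ∃ w, flw f (p * N) w = w ∧ flw f N w ≠ w ∧ ind S f (p * N) w = a := by
  classical
  -- the cluster is not empty
  obtain ⟨w₀, hw₀⟩ : (Fx.filter (fun w => Lf w = L₀)).Nonempty := by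
    by_contra h
    rw [Finset.not_nonempty_iff_eq_empty] at h
    exact hsum (by rw [h, Finset.sum_empty])
  rw [Finset.mem_filter] at hw₀
  have hnn : ∀ w ∈ Fx, 0 ≤ Lf w := by
    intro w hw
    by_contra h
    push Not at h
    obtain ⟨p, hp⟩ := exists_nat_gt ((2 * n : ℝ) / (-Lf w))
    have h0 : 0 < -Lf w := by linarith
    have hp0 : 0 < p := by
      have : (0 : ℝ) ≤ (2 * n : ℝ) / (-Lf w) := by positivity
      exact_mod_cast this.trans_lt hp
    rw [div_lt_iff₀ h0] at hp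
    have h1 := (abs_le.1 (hL w (hFx w hw) p hp0)).2
    have h2 : (0 : ℝ) ≤ ind S f (p * N) w := Nat.cast_nonneg _
    nlinarith
  have hL0 : 0 ≤ L₀ := hw₀.2 ▸ hnn w₀ hw₀.1
  -- choice of epsilon
  have hev : ∀ x : ℝ, ∀ᶠ e in nhdsWithin (0 : ℝ) (Set.Ioi 0), x = L₀ ∨ 8 * e ≤ |x - L₀| := by
    intro x
    by_cases h : x = L₀
    · exact Eventually.of_forall fun _ => Or.inl h
    · have h1 : 0 < |x - L₀| / 8 := by
        have := abs_pos.2 (sub_ne_zero.2 h)
        linarith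
      filter_upwards [Ioo_mem_nhdsGT h1] with e he
      right
      have := he.2
      linarith
  have hev2 : ∀ᶠ e in nhdsWithin (0 : ℝ) (Set.Ioi 0), (∀ w ∈ Fx, Lf w = L₀ ∨ 8 * e ≤ |Lf w - L₀|) ∧
      ((n * N : ℝ) = L₀ ∨ 8 * e ≤ |(n * N : ℝ) - L₀|) ∧ ((0 : ℝ) = L₀ ∨ 8 * e ≤ |(0 : ℝ) - L₀|) ∧
      0 < e := by
    refine Eventually.and ?_ (Eventually.and (hev _) (Eventually.and (hev _) ?_))
    · rw [Filter.eventually_all_finset]
      intro w _
      exact hev _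
    · exact self_mem_nhdsWithin
  obtain ⟨e, he1, he2, he3, he0⟩ := hev2.exists
  -- choice of P₀
  have hP : ∃ P₀ : ℕ, ∀ w ∈ Fx, Lf w = L₀ → ∀ p : ℕ, p.Prime → P₀ < p → ∀ h : NeZero (p * N),
      ∀ r > 0, (∀ x ∈ Metric.closedBall (tw f (p * N) w) r, fderiv ℝ (fE S (p * N)) x = 0 →
        x = tw f (p * N) w) →
      ∃ (g : (Ix n (p * N) → ℝ) → ℝ) (X : Finset (Ix n (p * N) → ℝ)),
        LD (fE S (p * N)) (tw f (p * N) w) r g X ∧
        ∑ y ∈ X, (-1 : ℤ) ^ sigNeg (hess g y) = s w := by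
    choose! Q hQ using hs
    refine ⟨Fx.sup Q, fun w hw h p hp hpQ => hQ w hw h p hp (lt_of_le_of_lt (Finset.le_sup hw) hpQ)⟩
  obtain ⟨P₀, hP₀⟩ := hP
  obtain ⟨P₁, hP₁⟩ := exists_nat_gt ((10 * n + 10 : ℝ) / e)
  set P₂ : ℕ := P₀ + P₁ + (∑ w ∈ Fx.filter (fun w => Lf w = L₀), s w).natAbs + 3 with hP₂
  have hm : (0 : ℝ) < 2 * n + 1 := by positivity
  set c : ℝ := e / (2 * n + 1) with hc
  have hcpos : 0 < c := div_pos he0 hm
  refine ⟨c, hcpos, 1 + c * P₂, fun p hp hD W hW hWd hFW => ?_⟩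
  have hpP : (P₂ : ℝ) < p := by
    by_contra h
    push Not at h
    have : c * p ≤ c * P₂ := by gcongr
    linarith
  have hpP' : P₂ < p := by exact_mod_cast hpP
  have hp0 : 0 < p := hp.pos
  have hpr : (0 : ℝ) < p := by exact_mod_cast hp0
  have hne : NeZero (p * N) := ⟨Nat.mul_ne_zero hp0.ne' hN.ne'⟩
  have hpe : (10 * n + 10 : ℝ) < p * e := by
    have h1 : ((P₁ : ℕ) : ℝ) < p := by
      have : P₁ < p := by omega
      exact_mod_cast this
    rw [div_lt_iff₀ he0] at hP₁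
    nlinarith
  have hnr : (0 : ℝ) ≤ n := Nat.cast_nonneg n
  refine ⟨(W.filter (fun w => flw f N w ≠ w)).image (ind S f (p * N)), ?_, ?_⟩
  swap
  · intro a ha
    obtain ⟨w, hw, rfl⟩ := Finset.mem_image.1 ha
    rw [Finset.mem_filter] at hw
    exact ⟨w, (hW w).2 ⟨w, hw.1, by rw [sub_self]; exact (Zn n).zero_mem⟩, hw.2, rfl⟩
  set A := (W.filter (fun w => flw f N w ≠ w)).image (ind S f (p * N)) with hA
  -- it is enough that a long interval is blocked
  have hfin : ∀ J : Finset ℕ, p * e - 1 ≤ J.card → (∀ a ∈ J, ∃ v ∈ A, v ≤ a ∧ a ≤ v + 2 * n) →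
      c * p - (1 + c * P₂) ≤ A.card := by
    intro J hJ hb
    have h1 := card_blocked J A (2 * n) hb
    have h2 : (J.card : ℝ) ≤ (2 * n + 1) * A.card := by exact_mod_cast h1
    have h3 : c * p * (2 * n + 1) = p * e := by
      rw [hc]; field_simp
    have h4 : 0 ≤ c * P₂ := by positivity
    have h5 : (c * p - 1) * (2 * n + 1) ≤ A.card * (2 * n + 1) := by
      have : (c * p - 1) * (2 * n + 1) = p * e - (2 * n + 1) := by rw [sub_mul, h3, one_mul]
      rw [this]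
      nlinarith
    have h6 := le_of_mul_le_mul_right h5 hm
    linarith
  obtain ⟨J₂, hJ₂, hJ₂'⟩ := exists_nats (p * (L₀ + e)) (p * (L₀ + 2 * e)) (by positivity)
  by_cases hb2 : ∀ a ∈ J₂, ∃ v ∈ A, v ≤ a ∧ a ≤ v + 2 * n
  · exact hfin J₂ (by nlinarith) hb2
  push Not at hb2
  obtain ⟨a₂, ha₂, ha₂'⟩ := hb2
  have ha₂J := hJ₂' a₂ ha₂
  -- the lower threshold
  have hlow : (c * p - (1 + c * P₂) ≤ A.card) ∨ ((∃ a₁ : ℕ, (a₁ : ℝ) ≤ p * (L₀ - e) ∧
      p * (L₀ - 2 * e) ≤ a₁ ∧ (∀ v ∈ A, v ≤ a₁ → v + 2 * n < a₁)) ∨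
      ∃ a₁ : ℕ, a₁ = 0 ∧ L₀ = 0) := by
    rcases he3 with h0 | h0
    · exact Or.inr (Or.inr ⟨0, rfl, h0.symm⟩)
    · have h1 : 8 * e ≤ L₀ := by
        rw [zero_sub, abs_neg, abs_of_nonneg hL0] at h0
        exact h0
      obtain ⟨J₁, hJ₁, hJ₁'⟩ := exists_nats (p * (L₀ - 2 * e)) (p * (L₀ - e))
        (by have : 0 ≤ L₀ - 2 * e := by linarith
            positivity)
      by_cases hb1 : ∀ a ∈ J₁, ∃ v ∈ A, v ≤ a ∧ a ≤ v + 2 * n
      · exact Or.inl (hfin J₁ (by nlinarith) hb1)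
      push Not at hb1
      obtain ⟨a₁, ha₁, ha₁'⟩ := hb1
      have := hJ₁' a₁ ha₁
      exact Or.inr (Or.inl ⟨a₁, by linarith, by linarith, ha₁'⟩)
  rcases hlow with h | hlow
  · exact h
  exfalso
  obtain ⟨a₁, hu, hl, hblock⟩ : ∃ a₁ : ℕ, ((a₁ : ℝ) ≤ p * (L₀ - e) ∨ (a₁ = 0 ∧ L₀ = 0)) ∧
      (p * (L₀ - 2 * e) ≤ a₁) ∧ (a₁ = 0 ∨ ∀ v ∈ A, v ≤ a₁ → v + 2 * n < a₁) := by
    rcases hlow with ⟨a₁, h1, h2, h3⟩ | ⟨a₁, h1, h2⟩
    · exact ⟨a₁, Or.inl (by linarith), h2, Or.inr h3⟩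
    · refine ⟨0, Or.inr ⟨rfl, h2⟩, ?_, Or.inl rfl⟩
      rw [h2]
      push_cast
      nlinarith
  have hu' : (a₁ : ℝ) ≤ p * L₀ := by
    rcases hu with h | ⟨h, h'⟩
    · nlinarith
    · rw [h, h']; simp
  have h12 : a₁ < a₂ := by
    have h1 := ha₂J.1
    have : (a₁ : ℝ) < a₂ := by nlinarith
    exact_mod_cast this
  -- positions of the fixed windows
  have hfixpos : ∀ w ∈ W, flw f N w = w → (Lf w = L₀ ∧ |(ind S f (p * N) w : ℝ) - p * L₀| ≤ 2 * n) ∨
      (Lf w ≠ L₀ ∧ 8 * (p * e) - 2 * n ≤ |(ind S f (p * N) w : ℝ) - p * L₀|) := by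
    intro w hw hfw
    have hwF : w ∈ Fx := (hFW w).2 ⟨hw, hfw⟩
    have h1 := hL w hfw p hp0
    by_cases h : Lf w = L₀
    · left; exact ⟨h, by rw [← h]; exact h1⟩
    · right
      refine ⟨h, ?_⟩
      have h2 : 8 * e ≤ |Lf w - L₀| := (he1 w hwF).resolve_left h
      have h3 : |(p : ℝ) * Lf w - p * L₀| = p * |Lf w - L₀| := by
        rw [← mul_sub, abs_mul, abs_of_pos hpr]
      have h4 : |(p : ℝ) * Lf w - p * L₀| ≤ |(ind S f (p * N) w : ℝ) - p * Lf w| +
          |(ind S f (p * N) w : ℝ) - p * L₀| := by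
        have := abs_sub_le ((p : ℝ) * Lf w) (ind S f (p * N) w) (p * L₀)
        rw [abs_sub_comm ((p : ℝ) * Lf w) (ind S f (p * N) w)] at this
        exact this
      nlinarith
  have key := prime_step hS hn hN hper hfper hp W hW hWd a₁ a₂ h12
    (by
      intro a haa
      by_cases ha0 : a = 0
      · exact Or.inl ha0
      right
      -- distance of a from p L₀
      have hd : p * e ≤ |(a : ℝ) - p * L₀| ∧ |(a : ℝ) - p * L₀| ≤ 2 * (p * e) := by
        rcases haa with rfl | rfl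
        · have h1 : (a : ℝ) ≤ p * (L₀ - e) := by
            rcases hu with h | ⟨h, _⟩
            · exact h
            · exact absurd h ha0
          rw [abs_of_nonpos (by nlinarith)]
          constructor <;> nlinarith
        · rw [abs_of_nonneg (by nlinarith [ha₂J.1])]
          constructor <;> nlinarith [ha₂J.1, ha₂J.2]
      refine ⟨?_, fun w hw => ?_⟩
      · -- the ambient topology
        have hK1 : 1 ≤ p * N := Nat.one_le_iff_ne_zero.2 hne.ne
        have hb : (((p * N - 1) * n : ℕ) : ℝ) = p * (n * N) - n := by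
          rw [Nat.cast_mul, Nat.cast_sub hK1]
          push_cast
          ring
        by_contra hcon
        rw [not_or, not_lt, not_lt] at hcon
        have h1 : (((p * N - 1) * n : ℕ) : ℝ) ≤ a := by exact_mod_cast hcon.1
        have h2 : (a : ℝ) ≤ (((p * N - 1) * n : ℕ) : ℝ) + 2 * n := by exact_mod_cast hcon.2
        rw [hb] at h1 h2
        have h3 : |(a : ℝ) - p * (n * N)| ≤ n := by
          rw [abs_le]; constructor <;> linarith
        rcases he2 with h4 | h4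
        · rw [h4] at h3
          linarith
        · have h5 : |(p : ℝ) * (n * N) - p * L₀| = p * |(n * N : ℝ) - L₀| := by
            rw [← mul_sub, abs_mul, abs_of_pos hpr]
          have h6 : |(p : ℝ) * (n * N) - p * L₀| ≤ |(a : ℝ) - p * (n * N)| +
              |(a : ℝ) - p * L₀| := by
            have := abs_sub_le ((p : ℝ) * (n * N)) a (p * L₀)
            rw [abs_sub_comm ((p : ℝ) * (n * N)) (a : ℝ)] at this
            exact this
          nlinarith
      · rintro ⟨h1, h2⟩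
        have h1' : (ind S f (p * N) w : ℝ) ≤ a := by exact_mod_cast h1
        have h2' : (a : ℝ) ≤ ind S f (p * N) w + 2 * n := by exact_mod_cast h2
        by_cases hfw : flw f N w = w
        · rcases hfixpos w hw hfw with ⟨_, h3⟩ | ⟨_, h3⟩
          · have h4 : |(a : ℝ) - p * L₀| ≤ |(a : ℝ) - ind S f (p * N) w| +
              |(ind S f (p * N) w : ℝ) - p * L₀| := abs_sub_le _ _ _
            have h5 : |(a : ℝ) - ind S f (p * N) w| ≤ 2 * n := by
              rw [abs_le]; constructor <;> linarith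
            linarith
          · have h4 : |(ind S f (p * N) w : ℝ) - p * L₀| ≤ |(a : ℝ) - ind S f (p * N) w| +
              |(a : ℝ) - p * L₀| := by
              have := abs_sub_le (ind S f (p * N) w : ℝ) a (p * L₀)
              rw [abs_sub_comm (ind S f (p * N) w : ℝ) (a : ℝ)] at this
              exact this
            have h5 : |(a : ℝ) - ind S f (p * N) w| ≤ 2 * n := by
              rw [abs_le]; constructor <;> linarith
            linarith
        · have hv : ind S f (p * N) w ∈ A :=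
            Finset.mem_image_of_mem _ (Finset.mem_filter.2 ⟨hw, hfw⟩)
          rcases haa with rfl | rfl
          · rcases hblock with h | h
            · exact ha0 h
            · have := h _ hv h1
              omega
          · have := ha₂' _ hv h1
            omega)
    s
    (by
      intro w hw hfw h1 h2 r hr hiso
      have hwF : w ∈ Fx := (hFW w).2 ⟨hw, hfw⟩
      have hcl : Lf w = L₀ := by
        rcases hfixpos w hw hfw with ⟨h3, _⟩ | ⟨_, h3⟩
        · exact h3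
        · exfalso
          have h1' : (a₁ : ℝ) ≤ ind S f (p * N) w := by exact_mod_cast h1
          have h2' : (ind S f (p * N) w : ℝ) < a₂ := by exact_mod_cast h2
          have h4 : |(ind S f (p * N) w : ℝ) - p * L₀| ≤ 2 * (p * e) := by
            rw [abs_le]
            constructor
            · nlinarith
            · nlinarith [ha₂J.2]
          linarith
      exact hP₀ w hwF hcl p hp (by omega) hne r hr hiso)
  have hset : W.filter (fun w => flw f N w = w ∧ a₁ ≤ ind S f (p * N) w ∧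
      ind S f (p * N) w < a₂) = Fx.filter (fun w => Lf w = L₀) := by
    ext w
    simp only [Finset.mem_filter]
    constructor
    · rintro ⟨hw, hfw, h1, h2⟩
      refine ⟨(hFW w).2 ⟨hw, hfw⟩, ?_⟩
      rcases hfixpos w hw hfw with ⟨h3, _⟩ | ⟨_, h3⟩
      · exact h3
      · exfalso
        have h1' : (a₁ : ℝ) ≤ ind S f (p * N) w := by exact_mod_cast h1
        have h2' : (ind S f (p * N) w : ℝ) < a₂ := by exact_mod_cast h2
        have h4 : |(ind S f (p * N) w : ℝ) - p * L₀| ≤ 2 * (p * e) := by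
          rw [abs_le]
          constructor
          · nlinarith
          · nlinarith [ha₂J.2]
        linarith
    · rintro ⟨hwF, hcl⟩
      obtain ⟨hw, hfw⟩ := (hFW w).1 hwF
      refine ⟨hw, hfw, ?_⟩
      rcases hfixpos w hw hfw with ⟨_, h3⟩ | ⟨h3, _⟩
      · rw [abs_le] at h3
        constructor
        · have : (a₁ : ℝ) ≤ ind S f (p * N) w := by
            rcases hu with h | ⟨h, _⟩
            · nlinarith
            · rw [h]; simp
          exact_mod_cast this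
        · have : (ind S f (p * N) w : ℝ) < a₂ := by nlinarith [ha₂J.1]
          exact_mod_cast this
      · exact absurd hcl h3
  rw [hset] at key
  have h1 := Int.le_of_dvd (Int.natAbs_pos.2 hsum |> fun h => by exact_mod_cast h)
    (Int.dvd_natAbs.2 key)
  have h2 : (∑ w ∈ Fx.filter (fun w => Lf w = L₀), s w).natAbs < p := by omega
  omega

end Pool.Agent.H47.QG
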