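import Pool.Agent.H47.QG.DiscD

/-!
# Periodization
-/

set_option autoImplicit false

namespace Pool.Agent.H47.QG

variable {ι : Type*} [Fintype ι] [DecidableEq ι]

/-- fractional part in the circle coordinates -/
noncomputable def perZfr (kd : ι → Kind) (y : ι → ℝ) : ι → ℝ :=
  open Classical in fun i => if kd i = Kind.th then Int.fract (y i) else y i

omit [Fintype ι] [DecidableEq ι] in
theorem perZfr_th (kd : ι → Kind) (y : ι → ℝ) {i : ι} (hi : kd i = Kind.th) :
    perZfr kd y i = Int.fract (y i) := by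
  simp [perZfr, hi]

omit [Fintype ι] [DecidableEq ι] in
theorem perZfr_not (kd : ι → Kind) (y : ι → ℝ) {i : ι} (hi : kd i ≠ Kind.th) :
    perZfr kd y i = y i := by
  simp [perZfr, hi]

/-- the integer part in the circle coordinates -/
noncomputable def perZfl (kd : ι → Kind) (y : ι → ℝ) : ι → ℝ :=
  open Classical in fun i => if kd i = Kind.th then (⌊y i⌋ : ℝ) else 0

omit [Fintype ι] in
theorem perZ_add_single (kd : ι → Kind) (x : ι → ℝ) {i : ι} (hi : kd i = Kind.th) :
    perZfr kd (x + Pi.single i 1) = perZfr kd x := by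
  funext j
  by_cases hj : kd j = Kind.th
  · rw [perZfr_th kd _ hj, perZfr_th kd _ hj]
    by_cases hij : j = i
    · subst hij
      simp
    · simp [Pi.single_eq_of_ne hij]
  · have hij : j ≠ i := fun h => hj (h ▸ hi)
    rw [perZfr_not kd _ hj, perZfr_not kd _ hj]
    simp [Pi.single_eq_of_ne hij]

omit [DecidableEq ι] in
/-- near a point whose circle coordinates are not integers, the integer part is constant -/
theorem perZ_near (kd : ι → Kind) (x : ι → ℝ)
    (hx : ∀ i, kd i = Kind.th → Int.fract (x i) ≠ 0) :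
    ∀ᶠ y in nhds x, perZfr kd y = y - perZfl kd x := by
  have h1 : ∀ i, ∀ᶠ y in nhds x, perZfr kd y i = y i - perZfl kd x i := by
    intro i
    by_cases hi : kd i = Kind.th
    · have h2 : (⌊x i⌋ : ℝ) < x i := by
        have h3 := Int.fract_nonneg (x i)
        have h4 : Int.fract (x i) = x i - ⌊x i⌋ := rfl
        rcases lt_or_eq_of_le h3 with h5 | h5
        · linarith
        · exact absurd h5.symm (hx i hi)
      have h3 : x i < (⌊x i⌋ : ℝ) + 1 := Int.lt_floor_add_one _
      have h4 : ∀ᶠ y in nhds x, y i ∈ Set.Ioo (⌊x i⌋ : ℝ) ((⌊x i⌋ : ℝ) + 1) :=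
        (continuous_apply i).continuousAt.eventually_mem (Ioo_mem_nhds h2 h3)
      filter_upwards [h4] with y hy
      rw [perZfr_th kd _ hi]
      have h5 : ⌊y i⌋ = ⌊x i⌋ := by
        rw [Int.floor_eq_iff]
        exact ⟨hy.1.le, hy.2⟩
      have h6 : perZfl kd x i = (⌊x i⌋ : ℝ) := by simp [perZfl, hi]
      rw [h6, ← h5]
      rfl
    · filter_upwards with y
      rw [perZfr_not kd _ hi]
      simp [perZfl, hi]
  have h2 := Filter.eventually_all.2 h1
  filter_upwards [h2] with y hy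
  funext i
  exact hy i

omit [Fintype ι] [DecidableEq ι] in
/-- near a point with an integer circle coordinate, the fractional parts stay away from a compact
set whose circle coordinates are in `(0, 1)` -/
theorem perZ_far (kd : ι → Kind) (K : Set (ι → ℝ)) (hK : IsCompact K)
    (hK1 : ∀ x ∈ K, ∀ i, kd i = Kind.th → 0 < x i ∧ x i < 1) (x : ι → ℝ) {i : ι}
    (hi : kd i = Kind.th) (hx : Int.fract (x i) = 0) :
    ∀ᶠ y in nhds x, perZfr kd y ∉ K := by
  have hC : IsCompact ((fun z : ι → ℝ => z i) '' K) := hK.image (continuous_apply i)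
  have hO : IsOpen ((fun z : ι → ℝ => z i) '' K)ᶜ := hC.isClosed.isOpen_compl
  have h0 : (0 : ℝ) ∈ ((fun z : ι → ℝ => z i) '' K)ᶜ := by
    rintro ⟨z, hz, hz0⟩
    have := (hK1 z hz i hi).1
    simp only at hz0
    linarith
  have h1 : (1 : ℝ) ∈ ((fun z : ι → ℝ => z i) '' K)ᶜ := by
    rintro ⟨z, hz, hz0⟩
    have := (hK1 z hz i hi).2
    simp only at hz0
    linarith
  obtain ⟨e0, he0, h0'⟩ := Metric.isOpen_iff.1 hO 0 h0
  obtain ⟨e1, he1, h1'⟩ := Metric.isOpen_iff.1 hO 1 h1
  have h4 : ∀ᶠ y in nhds x, y i ∈ Metric.ball (x i) (min (min e0 e1) 1) :=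
    (continuous_apply i).continuousAt.eventually_mem
      (Metric.ball_mem_nhds _ (lt_min (lt_min he0 he1) one_pos))
  have hxi : (⌊x i⌋ : ℝ) = x i := by
    have h5 : Int.fract (x i) = x i - ⌊x i⌋ := rfl
    linarith
  filter_upwards [h4] with y hy hyK
  rw [Metric.mem_ball, Real.dist_eq, lt_min_iff, lt_min_iff, abs_lt, abs_lt, abs_lt] at hy
  obtain ⟨⟨⟨ha, hb⟩, ⟨hc, hd⟩⟩, ⟨he, hf⟩⟩ := hy
  have hmem : Int.fract (y i) ∈ (fun z : ι → ℝ => z i) '' K :=
    ⟨perZfr kd y, hyK, perZfr_th kd y hi⟩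
  rcases le_or_gt (x i) (y i) with h6 | h6
  · have h7 : ⌊y i⌋ = ⌊x i⌋ := by
      rw [Int.floor_eq_iff]
      constructor
      · rw [hxi]; exact h6
      · rw [hxi]; linarith
    have h8 : Int.fract (y i) = y i - x i := by
      have h9 : Int.fract (y i) = y i - ⌊y i⌋ := rfl
      rw [h9, h7, hxi]
    apply h0' _ hmem
    rw [Metric.mem_ball, Real.dist_eq, h8, abs_lt]
    constructor <;> linarith
  · have h7 : ⌊y i⌋ = ⌊x i⌋ - 1 := by
      rw [Int.floor_eq_iff]
      push_cast
      constructor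
      · rw [hxi]; linarith
      · rw [hxi]; linarith
    have h8 : Int.fract (y i) = y i - x i + 1 := by
      have h9 : Int.fract (y i) = y i - ⌊y i⌋ := rfl
      rw [h9, h7]
      push_cast
      rw [hxi]
      ring
    apply h1' _ hmem
    rw [Metric.mem_ball, Real.dist_eq, h8, abs_lt]
    constructor <;> linarith

/-- **Periodization** of a function supported in a compact set whose circle coordinates are in
`(0, 1)`. -/
theorem periodize (kd : ι → Kind) (h : (ι → ℝ) → ℝ) (hh : ContDiff ℝ 1 h) (K : Set (ι → ℝ))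
    (hK : IsCompact K) (hK1 : ∀ x ∈ K, ∀ i, kd i = Kind.th → 0 < x i ∧ x i < 1)
    (hs : ∀ x, x ∉ K → h x = 0) :
    ∃ H : (ι → ℝ) → ℝ, ContDiff ℝ 1 H ∧ Per kd H ∧ (∃ B, ∀ x, ‖fderiv ℝ H x‖ ≤ B) ∧
      (∀ x, (∀ i, kd i = Kind.th → 0 < x i ∧ x i < 1) → ∀ᶠ y in nhds x, H y = h y) ∧
      ∀ x, (∃ i, kd i = Kind.th ∧ x i = 0) → ∀ᶠ y in nhds x, H y = 0 := by
  have hcs : HasCompactSupport h := by
    apply HasCompactSupport.of_support_subset_isCompact hK
    intro x hx
    by_contra hxK
    exact hx (hs x hxK)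
  have hcont : Continuous (fderiv ℝ h) := hh.continuous_fderiv one_ne_zero
  obtain ⟨B, hB⟩ := hcont.bounded_above_of_compact_support (hcs.fderiv ℝ)
  have hB0 : 0 ≤ B := (norm_nonneg _).trans (hB 0)
  have near : ∀ x : ι → ℝ, (∀ i, kd i = Kind.th → Int.fract (x i) ≠ 0) →
      (fun y => h (perZfr kd y)) =ᶠ[nhds x] fun y => h (y - perZfl kd x) := by
    intro x hx
    filter_upwards [perZ_near kd x hx] with y hy
    rw [hy]
  have far : ∀ x : ι → ℝ, (∃ i, kd i = Kind.th ∧ Int.fract (x i) = 0) →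
      (fun y => h (perZfr kd y)) =ᶠ[nhds x] fun _ => 0 := by
    rintro x ⟨i, hi, hx⟩
    filter_upwards [perZ_far kd K hK hK1 x hi hx] with y hy
    exact hs _ hy
  refine ⟨fun y => h (perZfr kd y), ?_, ?_, ⟨B, ?_⟩, ?_, ?_⟩
  · rw [contDiff_iff_contDiffAt]
    intro x
    by_cases hx : ∀ i, kd i = Kind.th → Int.fract (x i) ≠ 0
    · refine ContDiffAt.congr_of_eventuallyEq ?_ (near x hx)
      exact (hh.comp (contDiff_id.sub contDiff_const)).contDiffAt
    · push Not at hx
      exact contDiffAt_const.congr_of_eventuallyEq (far x hx)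
  · intro x i hi
    show h (perZfr kd (x + Pi.single i 1)) = h (perZfr kd x)
    rw [perZ_add_single kd x hi]
  · intro x
    by_cases hx : ∀ i, kd i = Kind.th → Int.fract (x i) ≠ 0
    · rw [(near x hx).fderiv_eq]
      have h1 : fderiv ℝ (fun y => h (y - perZfl kd x)) x = fderiv ℝ h (x - perZfl kd x) :=
        fderiv_comp_sub (f := h) (x := x) (perZfl kd x)
      rw [h1]
      exact hB _
    · push Not at hx
      rw [(far x hx).fderiv_eq]
      simpa using hB0
  · intro x hx
    have hx0 : ∀ i, kd i = Kind.th → Int.fract (x i) ≠ 0 := by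
      intro i hi h0
      have h1 := hx i hi
      have h2 : Int.fract (x i) = x i := Int.fract_eq_self.2 ⟨h1.1.le, h1.2⟩
      rw [h2] at h0
      linarith
    have hfl : perZfl kd x = 0 := by
      funext i
      by_cases hi : kd i = Kind.th
      · have h1 := hx i hi
        have h2 : ⌊x i⌋ = 0 := by
          rw [Int.floor_eq_iff]
          constructor
          · simpa using h1.1.le
          · simpa using h1.2
        simp [perZfl, hi, h2]
      · simp [perZfl, hi]
    filter_upwards [perZ_near kd x hx0] with y hy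
    rw [hy, hfl, sub_zero]
  · rintro x ⟨i, hi, hxi⟩
    exact far x ⟨i, hi, by rw [hxi]; exact Int.fract_zero⟩

/-- `g + |u|^2 - |w|^2` has bounded gradient. -/
def QuadInf (kd : ι → Kind) (g : (ι → ℝ) → ℝ) : Prop :=
  ∃ C : ℝ, ∀ x i, (kd i = Kind.up → |fderiv ℝ g x (Pi.single i 1) + 2 * x i| ≤ C) ∧
    (kd i = Kind.dn → |fderiv ℝ g x (Pi.single i 1) - 2 * x i| ≤ C)

end Pool.Agent.H47.QG
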