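import Pool.Agent.H47.QG.CG
import Pool.Agent.H47.QG.PerZ

/-!
# The Morse gap theorem for functions quadratic at infinity
-/

set_option autoImplicit false

namespace Pool.Agent.H47.QG

variable {ι : Type*} [Fintype ι] [DecidableEq ι]

/-- scaling factors -/
noncomputable def Mg_a (kd : ι → Kind) (R : ℝ) (i : ι) : ℝ :=
  open Classical in if kd i = Kind.th then 1 else 2 * R

/-- shifts -/
noncomputable def Mg_b (kd : ι → Kind) (R : ℝ) (i : ι) : ℝ :=
  open Classical in if kd i = Kind.th then 0 else -R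

/-- the affine scaling -/
noncomputable def Mg_L (kd : ι → Kind) (R : ℝ) (y : ι → ℝ) : ι → ℝ :=
  fun i => Mg_a kd R i * y i + Mg_b kd R i

/-- the inverse scaling -/
noncomputable def Mg_I (kd : ι → Kind) (R : ℝ) (x : ι → ℝ) : ι → ℝ :=
  fun i => (x i - Mg_b kd R i) / Mg_a kd R i

/-- the linear part -/
noncomputable def Mg_D (kd : ι → Kind) (R : ℝ) : (ι → ℝ) →L[ℝ] (ι → ℝ) :=
  ContinuousLinearMap.pi fun i => Mg_a kd R i • ContinuousLinearMap.proj i

omit [Fintype ι] [DecidableEq ι] in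
theorem Mg_a_pos (kd : ι → Kind) {R : ℝ} (hR : 0 < R) (i : ι) : 0 < Mg_a kd R i := by
  unfold Mg_a
  split_ifs
  · exact one_pos
  · positivity

omit [Fintype ι] [DecidableEq ι] in
theorem Mg_a_le (kd : ι → Kind) {R : ℝ} (hR : 1 ≤ R) (i : ι) : Mg_a kd R i ≤ 2 * R := by
  unfold Mg_a
  split_ifs
  · linarith
  · exact le_rfl

omit [Fintype ι] [DecidableEq ι] in
theorem Mg_LI (kd : ι → Kind) {R : ℝ} (hR : 0 < R) (x : ι → ℝ) :
    Mg_L kd R (Mg_I kd R x) = x := by
  funext i
  have := (Mg_a_pos kd hR i).ne'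
  unfold Mg_L Mg_I
  field_simp
  ring

omit [Fintype ι] [DecidableEq ι] in
theorem Mg_IL (kd : ι → Kind) {R : ℝ} (hR : 0 < R) (x : ι → ℝ) :
    Mg_I kd R (Mg_L kd R x) = x := by
  funext i
  have := (Mg_a_pos kd hR i).ne'
  unfold Mg_L Mg_I
  field_simp
  ring

omit [Fintype ι] [DecidableEq ι] in
theorem Mg_L_th (kd : ι → Kind) (R : ℝ) (y : ι → ℝ) {i : ι} (hi : kd i = Kind.th) :
    Mg_L kd R y i = y i := by
  simp [Mg_L, Mg_a, Mg_b, hi]

omit [Fintype ι] [DecidableEq ι] in
theorem Mg_L_nth (kd : ι → Kind) (R : ℝ) (y : ι → ℝ) {i : ι} (hi : kd i ≠ Kind.th) :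
    Mg_L kd R y i = 2 * R * y i - R := by
  simp [Mg_L, Mg_a, Mg_b, hi, sub_eq_add_neg]

omit [DecidableEq ι] in
theorem Mg_L_deriv (kd : ι → Kind) (R : ℝ) (y : ι → ℝ) :
    HasFDerivAt (Mg_L kd R) (Mg_D kd R) y := by
  rw [hasFDerivAt_pi']
  intro i
  have h1 : HasFDerivAt (fun y : ι → ℝ => Mg_a kd R i * y i + Mg_b kd R i)
      (Mg_a kd R i • (ContinuousLinearMap.proj i : (ι → ℝ) →L[ℝ] ℝ)) y := by
    have h2 : HasFDerivAt (fun y : ι → ℝ => y i)
        (ContinuousLinearMap.proj i : (ι → ℝ) →L[ℝ] ℝ) y := hasFDerivAt_apply i y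
    exact (h2.const_mul (Mg_a kd R i)).add_const _
  exact h1

omit [DecidableEq ι] in
theorem Mg_fderiv (kd : ι → Kind) (R : ℝ) (g : (ι → ℝ) → ℝ) (hg : ContDiff ℝ 1 g)
    (y v : ι → ℝ) :
    fderiv ℝ (fun y => g (Mg_L kd R y)) y v = fderiv ℝ g (Mg_L kd R y) (Mg_D kd R v) := by
  have h1 : HasFDerivAt g (fderiv ℝ g (Mg_L kd R y)) (Mg_L kd R y) :=
    ((hg.differentiable one_ne_zero) _).hasFDerivAt
  have h2 := (h1.comp y (Mg_L_deriv kd R y)).fderiv
  have h3 : fderiv ℝ (fun y => g (Mg_L kd R y)) y =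
      (fderiv ℝ g (Mg_L kd R y)).comp (Mg_D kd R) := h2
  rw [h3]
  rfl

omit [Fintype ι] in
theorem Mg_D_single (kd : ι → Kind) (R : ℝ) (i : ι) :
    Mg_D kd R (Pi.single i 1) = Mg_a kd R i • (Pi.single i (1 : ℝ) : ι → ℝ) := by
  funext j
  simp only [Mg_D, ContinuousLinearMap.coe_pi', ContinuousLinearMap.smul_apply,
    ContinuousLinearMap.proj_apply, Pi.smul_apply, smul_eq_mul]
  by_cases h : j = i
  · subst h; rfl
  · simp [Pi.single_eq_of_ne h]

omit [DecidableEq ι] in
theorem Mg_zero (kd : ι → Kind) {R : ℝ} (hR : 0 < R) (g : (ι → ℝ) → ℝ) (hg : ContDiff ℝ 1 g)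
    (y : ι → ℝ) :
    fderiv ℝ (fun y => g (Mg_L kd R y)) y = 0 ↔ fderiv ℝ g (Mg_L kd R y) = 0 := by
  constructor
  · intro h
    ext v
    have h1 : Mg_D kd R (fun i => v i / Mg_a kd R i) = v := by
      funext i
      have := (Mg_a_pos kd hR i).ne'
      simp only [Mg_D, ContinuousLinearMap.coe_pi', ContinuousLinearMap.smul_apply,
        ContinuousLinearMap.proj_apply, smul_eq_mul]
      field_simp
    rw [← h1, ← Mg_fderiv kd R g hg, h]
    rfl
  · intro h
    ext v
    rw [Mg_fderiv kd R g hg, h]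
    rfl

theorem Mg_neg (c a : ι → ℝ) (ha : ∀ i, 0 < a i) : neg (fun i => c i * a i ^ 2) = neg c := by
  unfold neg
  have h : ∀ i, (c i * a i ^ 2 < 0 ↔ c i < 0) := by
    intro i
    have h1 : 0 < a i ^ 2 := pow_pos (ha i) 2
    constructor
    · intro h2
      by_contra h3
      have := mul_nonneg (not_lt.mp h3) h1.le
      linarith
    · intro h2
      exact mul_neg_of_neg_of_pos h2 h1
  simp only [h]

/-- **Morse gap theorem.** -/
theorem morse_gap (kd : ι → Kind) (hth : ∃ i, kd i = Kind.th) (g : (ι → ℝ) → ℝ)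
    (hg : ContDiff ℝ 1 g) (hper : Per kd g) (hq : QuadInf kd g)
    (Z : Finset (ι → ℝ)) (hZ1 : ∀ z ∈ Z, ∀ i, kd i = Kind.th → z i ∈ Set.Ico (0 : ℝ) 1)
    (hZ : ∀ x, (∀ i, kd i = Kind.th → x i ∈ Set.Ico (0 : ℝ) 1) → (fderiv ℝ g x = 0 ↔ x ∈ Z))
    (c : (ι → ℝ) → ι → ℝ) (hc : ∀ z ∈ Z, ∀ i, c z i ≠ 0)
    (hst : ∀ z ∈ Z, ∃ r > 0, ∀ y, (∀ i, |y i - z i| < r) →
      g y = g z + ∑ i, c z i * (y i - z i) ^ 2)
    (d : ℕ) (hd : ∀ z ∈ Z, neg (c z) ≠ d + 1)
    (hb : d + 1 < nk kd Kind.up ∨ nk kd Kind.up + nk kd Kind.th < d + 1) :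
    ∑ z ∈ Z.filter (fun z => neg (c z) ≤ d), (-1 : ℤ) ^ neg (c z) = 0 := by
  classical
  obtain ⟨C, hC⟩ := hq
  -- a bound for the critical points
  obtain ⟨B, hB⟩ : ∃ B : ℝ, ∀ z ∈ Z, ∀ i, |z i| ≤ B := by
    refine ⟨∑ z ∈ Z, ∑ i, |z i|, fun z hz i => ?_⟩
    calc |z i| ≤ ∑ i, |z i| := Finset.single_le_sum (fun i _ => abs_nonneg (z i))
          (Finset.mem_univ i)
      _ ≤ ∑ z ∈ Z, ∑ i, |z i| := Finset.single_le_sum
          (f := fun z : ι → ℝ => ∑ i, |z i|)
          (fun z _ => Finset.sum_nonneg fun i _ => abs_nonneg (z i)) hz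
  obtain ⟨R, hR1, hRC, hRB⟩ : ∃ R : ℝ, 1 ≤ R ∧ C < R ∧ B < R := by
    refine ⟨max 1 (max (C + 1) (B + 1)), le_max_left _ _, ?_, ?_⟩
    · exact lt_of_lt_of_le (by linarith : C < C + 1)
        ((le_max_left _ _).trans (le_max_right _ _))
    · exact lt_of_lt_of_le (by linarith : B < B + 1)
        ((le_max_right _ _).trans (le_max_right _ _))
  have hR : 0 < R := by linarith
  have hLI := Mg_LI kd hR
  have hIL := Mg_IL kd hR
  have hfs : ∀ y i, kd i ≠ Kind.th →
      fderiv ℝ (fun y => g (Mg_L kd R y)) y (Pi.single i 1) =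
        2 * R * fderiv ℝ g (Mg_L kd R y) (Pi.single i 1) := by
    intro y i hi
    rw [Mg_fderiv kd R g hg, Mg_D_single, map_smul, smul_eq_mul]
    simp [Mg_a, hi]
  have hmain := cube_gap kd hth (fun y => g (Mg_L kd R y))
    (by
      refine hg.comp ?_
      rw [contDiff_pi]
      intro i
      exact (contDiff_const.mul (contDiff_apply ℝ ℝ i)).add contDiff_const)
    (by
      intro x i hi
      have h1 : Mg_L kd R (x + Pi.single i 1) = Mg_L kd R x + Pi.single i 1 := by
        funext j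
        by_cases hj : j = i
        · subst hj
          rw [Pi.add_apply, Mg_L_th kd R _ hi, Mg_L_th kd R _ hi, Pi.add_apply]
        · simp [Mg_L, Pi.single_eq_of_ne hj]
      show g (Mg_L kd R (x + Pi.single i 1)) = g (Mg_L kd R x)
      rw [h1, hper _ i hi])
    (1 / 4) (by norm_num)
    (by
      intro x i _ hk
      have hi : kd i ≠ Kind.th := by rw [hk]; simp
      rw [hfs x i hi]
      have h1 := abs_le.mp ((hC (Mg_L kd R x) i).1 hk)
      have h2 := Mg_L_nth kd R x hi
      constructor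
      · intro h3
        have h4 : Mg_L kd R x i ≤ -(R / 2) := by
          rw [h2]
          nlinarith
        have h5 : 0 < fderiv ℝ g (Mg_L kd R x) (Pi.single i 1) := by linarith [h1.1]
        positivity
      · intro h3
        have h4 : R / 2 ≤ Mg_L kd R x i := by
          rw [h2]
          nlinarith
        have h5 : fderiv ℝ g (Mg_L kd R x) (Pi.single i 1) < 0 := by linarith [h1.2]
        exact mul_neg_of_pos_of_neg (by positivity) h5)
    (by
      intro x i _ hk
      have hi : kd i ≠ Kind.th := by rw [hk]; simp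
      rw [hfs x i hi]
      have h1 := abs_le.mp ((hC (Mg_L kd R x) i).2 hk)
      have h2 := Mg_L_nth kd R x hi
      constructor
      · intro h3
        have h4 : Mg_L kd R x i ≤ -(R / 2) := by
          rw [h2]
          nlinarith
        have h5 : fderiv ℝ g (Mg_L kd R x) (Pi.single i 1) < 0 := by linarith [h1.2]
        exact mul_neg_of_pos_of_neg (by positivity) h5
      · intro h3
        have h4 : R / 2 ≤ Mg_L kd R x i := by
          rw [h2]
          nlinarith
        have h5 : 0 < fderiv ℝ g (Mg_L kd R x) (Pi.single i 1) := by linarith [h1.1]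
        positivity)
    (Z.image (Mg_I kd R))
    (by
      intro z hz i
      obtain ⟨w, hw, rfl⟩ := Finset.mem_image.mp hz
      by_cases hi : kd i = Kind.th
      · have h1 : Mg_I kd R w i = w i := by simp [Mg_I, Mg_a, Mg_b, hi]
        rw [h1]
        exact hZ1 w hw i hi
      · have h1 : Mg_I kd R w i = (w i + R) / (2 * R) := by simp [Mg_I, Mg_a, Mg_b, hi]
        have h2 := abs_le.mp (hB w hw i)
        rw [h1]
        constructor
        · exact div_nonneg (by linarith [h2.1]) (by positivity)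
        · rw [div_lt_one (by positivity)]
          linarith [h2.2])
    (by
      intro x hx
      rw [Mg_zero kd hR g hg, hZ (Mg_L kd R x) (fun i hi => by
        rw [Mg_L_th kd R x hi]; exact hx i), Finset.mem_image]
      constructor
      · intro h
        exact ⟨_, h, hIL x⟩
      · rintro ⟨w, hw, rfl⟩
        rw [hLI]
        exact hw)
    (fun y i => c (Mg_L kd R y) i * Mg_a kd R i ^ 2)
    (by
      intro z hz i
      obtain ⟨w, hw, rfl⟩ := Finset.mem_image.mp hz
      rw [hLI]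
      exact mul_ne_zero (hc w hw i) (pow_ne_zero 2 (Mg_a_pos kd hR i).ne'))
    (by
      intro z hz
      obtain ⟨w, hw, rfl⟩ := Finset.mem_image.mp hz
      obtain ⟨r, hr, h⟩ := hst w hw
      refine ⟨r / (2 * R), by positivity, fun y hy => ?_⟩
      have hdiff : ∀ i, Mg_L kd R y i - w i = Mg_a kd R i * (y i - Mg_I kd R w i) := by
        intro i
        have h1 : w i = Mg_L kd R (Mg_I kd R w) i := by rw [hLI]
        rw [h1]
        unfold Mg_L
        ring
      have h2 := h (Mg_L kd R y) (fun i => by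
        rw [hdiff i, abs_mul, abs_of_pos (Mg_a_pos kd hR i)]
        have h3 := hy i
        rw [lt_div_iff₀ (by positivity)] at h3
        calc Mg_a kd R i * |y i - Mg_I kd R w i|
            ≤ 2 * R * |y i - Mg_I kd R w i| :=
              mul_le_mul_of_nonneg_right (Mg_a_le kd hR1 i) (abs_nonneg _)
          _ = |y i - Mg_I kd R w i| * (2 * R) := by ring
          _ < r := h3)
      show g (Mg_L kd R y) = g (Mg_L kd R (Mg_I kd R w)) +
        ∑ i, c (Mg_L kd R (Mg_I kd R w)) i * Mg_a kd R i ^ 2 * (y i - Mg_I kd R w i) ^ 2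
      rw [hLI, h2]
      congr 1
      refine Finset.sum_congr rfl fun i _ => ?_
      rw [hdiff i]
      ring)
    d
    (by
      intro z hz
      obtain ⟨w, hw, rfl⟩ := Finset.mem_image.mp hz
      rw [Mg_neg _ _ (Mg_a_pos kd hR), hLI]
      exact hd w hw)
    hb
  have hinj : Function.Injective (Mg_I kd R) := Function.LeftInverse.injective hLI
  rw [Finset.filter_image, Finset.sum_image (fun x _ y _ h => hinj h)] at hmain
  rw [← hmain]
  have hneg : ∀ z, neg (fun i => c (Mg_L kd R (Mg_I kd R z)) i * Mg_a kd R i ^ 2) =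
      neg (c z) := by
    intro z
    rw [Mg_neg _ _ (Mg_a_pos kd hR), hLI]
  simp only [hneg]

end Pool.Agent.H47.QG
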