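import Pool.Agent.H47.QG.ModP

/-!
# Path of quadratic forms
-/

set_option autoImplicit false

open Module QuadraticForm

namespace Pool.Agent.H47.QG

/-- uniform bound for a continuous family of matrices -/
theorem ModF_bd {ι : Type*} [Fintype ι] (A : ℝ → Matrix ι ι ℝ)
    (hA : ∀ i j, Continuous fun t => A t i j) :
    ∃ K : ℝ, 0 < K ∧ ∀ t ∈ Set.Icc (0 : ℝ) 1, ∀ (x : ι → ℝ) (i : ι),
      |(A t).mulVec x i| ≤ K * ‖x‖ := by
  have hc : Continuous fun t => ∑ i, ∑ j, |A t i j| :=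
    continuous_finsetSum _ fun i _ => continuous_finsetSum _ fun j _ => (hA i j).abs
  obtain ⟨C, hC⟩ := isCompact_Icc.exists_bound_of_continuousOn (s := Set.Icc (0 : ℝ) 1)
    hc.continuousOn
  refine ⟨|C| + 1, by positivity, fun t ht x i => ?_⟩
  have h1 : |(A t).mulVec x i| ≤ (∑ j, |A t i j|) * ‖x‖ := by
    rw [Matrix.mulVec, dotProduct, Finset.sum_mul]
    refine (Finset.abs_sum_le_sum_abs _ _).trans (Finset.sum_le_sum fun j _ => ?_)
    rw [abs_mul]
    refine mul_le_mul_of_nonneg_left ?_ (abs_nonneg _)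
    rw [← Real.norm_eq_abs]
    exact norm_le_pi_norm x j
  have h2 : (∑ j, |A t i j|) ≤ ∑ i, ∑ j, |A t i j| :=
    Finset.single_le_sum (f := fun i => ∑ j, |A t i j|)
      (fun i _ => Finset.sum_nonneg fun j _ => abs_nonneg _) (Finset.mem_univ i)
  have h3 := (le_abs_self _).trans ((Real.norm_eq_abs _).symm.le.trans (hC t ht))
  have h4 := le_abs_self C
  refine h1.trans (mul_le_mul_of_nonneg_right ?_ (norm_nonneg x))
  linarith

/-- sup norm and sums of squares -/
theorem ModF_sq {ι : Type*} [Fintype ι] (x : ι → ℝ) : ‖x‖ ^ 2 ≤ ∑ i, x i ^ 2 := by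
  have h0 : (0 : ℝ) ≤ ∑ i, x i ^ 2 := Finset.sum_nonneg fun i _ => sq_nonneg _
  have h1 : ‖x‖ ≤ Real.sqrt (∑ i, x i ^ 2) := by
    rw [pi_norm_le_iff_of_nonneg (Real.sqrt_nonneg _)]
    intro i
    rw [Real.norm_eq_abs]
    apply Real.abs_le_sqrt
    exact Finset.single_le_sum (f := fun i => x i ^ 2) (fun i _ => sq_nonneg _)
      (Finset.mem_univ i)
  calc ‖x‖ ^ 2 ≤ Real.sqrt (∑ i, x i ^ 2) ^ 2 := by
        exact pow_le_pow_left₀ (norm_nonneg x) h1 2
    _ = _ := Real.sq_sqrt h0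

/-- derivative in `x` -/
theorem ModF_fderiv {ι : Type*} [Fintype ι] (A : Matrix ι ι ℝ) (s : ι → ℝ) (x y : ι → ℝ) :
    fderiv ℝ (fun x : ι → ℝ => ∑ i, s i * (A.mulVec x i) ^ 2) x y =
      ∑ i, s i * (2 * A.mulVec x i * A.mulVec y i) := by
  let L : ι → ((ι → ℝ) →L[ℝ] ℝ) := fun i =>
    (ContinuousLinearMap.proj i).comp (LinearMap.toContinuousLinearMap (Matrix.mulVecLin A))
  have hL : ∀ i z, L i z = A.mulVec z i := fun i z => rfl
  have h1 : HasFDerivAt (fun x : ι → ℝ => ∑ i, s i * (A.mulVec x i) ^ 2)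
      (∑ i, s i • ((2 * A.mulVec x i) • L i)) x := by
    refine HasFDerivAt.fun_sum fun i _ => ?_
    have h2 := ((L i).hasFDerivAt (x := x)).pow 2
    have h3 := h2.const_mul (s i)
    have h4 : (2 • (L i) x ^ (2 - 1)) = 2 * A.mulVec x i := by
      rw [hL, nsmul_eq_mul, pow_one, Nat.cast_ofNat]
    rw [h4] at h3
    exact h3
  rw [h1.fderiv, sum_apply]
  refine Finset.sum_congr rfl fun i _ => ?_
  rw [smul_apply, smul_apply, hL, smul_eq_mul, smul_eq_mul]

/-- derivative in `t` -/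
theorem ModF_deriv {ι : Type*} [Fintype ι] (γ : ℝ → Matrix ι ι ℝ)
    (hγ : ∀ i j, ContDiff ℝ 2 fun t => γ t i j) (s : ι → ℝ) (x : ι → ℝ) (t : ℝ) :
    fderiv ℝ (fun t => ∑ i, s i * ((γ t).mulVec x i) ^ 2) t 1 =
      ∑ i, s i * (2 * (γ t).mulVec x i *
        (Matrix.of fun i j => deriv (fun t => γ t i j) t).mulVec x i) := by
  have h1 : ∀ i, HasDerivAt (fun t => (γ t).mulVec x i)
      ((Matrix.of fun i j => deriv (fun t => γ t i j) t).mulVec x i) t := by
    intro i
    show HasDerivAt (fun t => ∑ j, γ t i j * x j) (∑ j, deriv (fun t => γ t i j) t * x j) t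
    refine HasDerivAt.fun_sum fun j _ => ?_
    exact (((hγ i j).differentiable (by norm_num)) t).hasDerivAt.mul_const (x j)
  have h2 : HasDerivAt (fun t => ∑ i, s i * ((γ t).mulVec x i) ^ 2)
      (∑ i, s i * (2 * (γ t).mulVec x i *
        (Matrix.of fun i j => deriv (fun t => γ t i j) t).mulVec x i)) t := by
    refine HasDerivAt.fun_sum fun i _ => ?_
    have h3 := ((h1 i).pow 2).const_mul (s i)
    have h4 : ((2 : ℕ) : ℝ) * ((γ t).mulVec x i) ^ (2 - 1) = 2 * (γ t).mulVec x i := by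
      rw [pow_one, Nat.cast_ofNat]
    rw [h4] at h3
    exact h3
  rw [fderiv_apply_one_eq_deriv, h2.deriv]

/-- The path of quadratic forms. -/
theorem exists_form_path {ι : Type*} [Fintype ι] [DecidableEq ι] (Q : QuadraticForm ℝ (ι → ℝ))
    (hQ : sigNeg Q + sigPos Q = Fintype.card ι) :
    ∃ (q : ℝ → (ι → ℝ) → ℝ) (c : ι → ℝ) (a b : ℝ), 0 < a ∧ 0 < b ∧
      (ContDiff ℝ 2 fun p : ℝ × (ι → ℝ) => q p.1 p.2) ∧ (∀ x, q 0 x = Q x) ∧
      (∀ x, q 1 x = ∑ i, c i * x i ^ 2) ∧ (∀ i, c i ≠ 0) ∧ neg c = sigNeg Q ∧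
      (∀ t ∈ Set.Icc (0 : ℝ) 1, ∀ x, ∃ y, ‖y‖ ≤ b * ‖x‖ ∧
        a * ‖x‖ ^ 2 ≤ fderiv ℝ (q t) x y ∧ |fderiv ℝ (fun t => q t x) t 1| ≤ b * ‖x‖ ^ 2) := by
  obtain ⟨M, s, hM, hs, hneg, hQx⟩ := exists_diag Q hQ
  obtain ⟨γ, d, hγ, hdet, h0, h1, hd⟩ := exists_path M hM
  have hs2 : ∀ i, s i * s i = 1 := by
    intro i
    rcases hs i with h | h <;> rw [h] <;> norm_num
  have hsa : ∀ i, |s i| = 1 := by
    intro i
    rcases hs i with h | h <;> rw [h] <;> norm_num
  have hs0 : ∀ i, s i ≠ 0 := by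
    intro i h
    have := hs2 i
    rw [h] at this
    norm_num at this
  have hγc : ∀ i j, Continuous fun t => γ t i j := fun i j => (hγ i j).continuous
  have hγm : Continuous γ := continuous_pi fun i => continuous_pi fun j => hγc i j
  -- the inverse
  let B : ℝ → Matrix ι ι ℝ := fun t => (γ t).det⁻¹ • (γ t).adjugate
  have hB : ∀ i j, Continuous fun t => B t i j := by
    intro i j
    show Continuous fun t => (γ t).det⁻¹ * (γ t).adjugate i j
    exact (hγm.matrix_det.inv₀ hdet).mul (hγm.matrix_adjugate.matrix_elem i j)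
  have hBl : ∀ t, B t * γ t = 1 := by
    intro t
    show ((γ t).det⁻¹ • (γ t).adjugate) * γ t = 1
    rw [Matrix.smul_mul, Matrix.adjugate_mul, smul_smul, inv_mul_cancel₀ (hdet t), one_smul]
  have hBr : ∀ t, γ t * B t = 1 := fun t => mul_eq_one_comm.1 (hBl t)
  obtain ⟨K1, hK1, hb1⟩ := ModF_bd γ hγc
  obtain ⟨K2, hK2, hb2⟩ := ModF_bd B hB
  obtain ⟨K3, hK3, hb3⟩ := ModF_bd (fun t => Matrix.of fun i j => deriv (fun t => γ t i j) t)
    (fun i j => (hγ i j).continuous_deriv (by norm_num))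
  refine ⟨fun t x => ∑ i, s i * ((γ t).mulVec x i) ^ 2, fun i => s i * d i ^ 2,
    2 / K2 ^ 2, K2 * K1 + 2 * Fintype.card ι * K1 * K3, by positivity, by positivity,
    ?_, fun x => ?_, fun x => ?_, fun i => mul_ne_zero (hs0 i) (pow_ne_zero 2 (hd i)), ?_, ?_⟩
  · refine ContDiff.sum fun i _ => contDiff_const.mul (ContDiff.pow ?_ 2)
    show ContDiff ℝ 2 fun p : ℝ × (ι → ℝ) => ∑ j, γ p.1 i j * p.2 j
    refine ContDiff.sum fun j _ => ContDiff.mul ?_ ?_
    · exact (hγ i j).comp contDiff_fst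
    · exact (contDiff_apply ℝ ℝ j).comp contDiff_snd
  · show ∑ i, s i * ((γ 0).mulVec x i) ^ 2 = Q x
    rw [h0, hQx]
  · show ∑ i, s i * ((γ 1).mulVec x i) ^ 2 = _
    rw [h1]
    refine Finset.sum_congr rfl fun i _ => ?_
    rw [Matrix.mulVec_diagonal]
    ring
  · rw [← hneg, neg, neg]
    refine Nat.card_congr (Equiv.subtypeEquivRight fun i => ?_)
    have h2 : 0 < d i ^ 2 := by
      have := hd i
      positivity
    refine ⟨fun h => ?_, fun h => mul_neg_of_neg_of_pos h h2⟩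
    by_contra hh
    exact absurd h (not_lt.2 (mul_nonneg (not_lt.1 hh) h2.le))
  · intro t ht x
    have hx : (B t).mulVec ((γ t).mulVec x) = x := by
      rw [Matrix.mulVec_mulVec, hBl, Matrix.one_mulVec]
    have hle : ‖(γ t).mulVec x‖ ≤ K1 * ‖x‖ := by
      rw [pi_norm_le_iff_of_nonneg (by positivity)]
      intro i
      rw [Real.norm_eq_abs]
      exact hb1 t ht x i
    have hge : ‖x‖ ≤ K2 * ‖(γ t).mulVec x‖ := by
      rw [pi_norm_le_iff_of_nonneg (by positivity)]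
      intro i
      rw [Real.norm_eq_abs]
      have h2 := hb2 t ht ((γ t).mulVec x) i
      rwa [hx] at h2
    refine ⟨(B t).mulVec fun i => s i * (γ t).mulVec x i, ?_, ?_, ?_⟩
    · have h2 : ‖fun i => s i * (γ t).mulVec x i‖ ≤ ‖(γ t).mulVec x‖ := by
        rw [pi_norm_le_iff_of_nonneg (norm_nonneg _)]
        intro i
        rw [Real.norm_eq_abs, abs_mul, hsa, one_mul, ← Real.norm_eq_abs]
        exact norm_le_pi_norm _ i
      have h3 : ‖(B t).mulVec fun i => s i * (γ t).mulVec x i‖ ≤ K2 * (K1 * ‖x‖) := by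
        rw [pi_norm_le_iff_of_nonneg (by positivity)]
        intro i
        rw [Real.norm_eq_abs]
        refine (hb2 t ht _ i).trans (mul_le_mul_of_nonneg_left (h2.trans hle) hK2.le)
      refine h3.trans ?_
      have h4 : 0 ≤ 2 * (Fintype.card ι : ℝ) * K1 * K3 * ‖x‖ := by positivity
      nlinarith
    · rw [ModF_fderiv]
      have h2 : ∀ i, (γ t).mulVec ((B t).mulVec fun i => s i * (γ t).mulVec x i) i =
          s i * (γ t).mulVec x i := by
        intro i
        rw [Matrix.mulVec_mulVec, hBr, Matrix.one_mulVec]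
      have h3 : ∑ i, s i * (2 * (γ t).mulVec x i *
          (γ t).mulVec ((B t).mulVec fun i => s i * (γ t).mulVec x i) i) =
          2 * ∑ i, ((γ t).mulVec x i) ^ 2 := by
        rw [Finset.mul_sum]
        refine Finset.sum_congr rfl fun i _ => ?_
        rw [h2]
        have h4 := hs2 i
        linear_combination (2 * ((γ t).mulVec x i) ^ 2) * h4
      rw [h3, div_mul_eq_mul_div, div_le_iff₀ (by positivity)]
      have h5 := ModF_sq ((γ t).mulVec x)
      have h6 : ‖x‖ ^ 2 ≤ (K2 * ‖(γ t).mulVec x‖) ^ 2 := pow_le_pow_left₀ (norm_nonneg x) hge 2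
      have h7 : (K2 * ‖(γ t).mulVec x‖) ^ 2 ≤ (∑ i, ((γ t).mulVec x i) ^ 2) * K2 ^ 2 := by
        rw [mul_pow, mul_comm]
        exact mul_le_mul_of_nonneg_right h5 (by positivity)
      linarith
    · rw [ModF_deriv γ hγ]
      have h2 : ∀ i, |s i * (2 * (γ t).mulVec x i *
          (Matrix.of fun i j => deriv (fun t => γ t i j) t).mulVec x i)| ≤
          2 * (K1 * ‖x‖) * (K3 * ‖x‖) := by
        intro i
        rw [abs_mul, hsa, one_mul, abs_mul, abs_mul, abs_two]
        have h3 := hb1 t ht x i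
        have h4 := hb3 t ht x i
        exact mul_le_mul (mul_le_mul_of_nonneg_left h3 (by norm_num)) h4 (abs_nonneg _)
          (by positivity)
      have h3 := (Finset.abs_sum_le_sum_abs (fun i => s i * (2 * (γ t).mulVec x i *
          (Matrix.of fun i j => deriv (fun t => γ t i j) t).mulVec x i)) Finset.univ).trans
          (Finset.sum_le_sum fun i _ => h2 i)
      rw [Finset.sum_const, Finset.card_univ, nsmul_eq_mul] at h3
      refine h3.trans ?_
      have h4 : 0 ≤ K2 * K1 * ‖x‖ ^ 2 := by positivity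
      nlinarith

end Pool.Agent.H47.QG
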