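import Pool.Agent.H47.QG.IdxA

/-!
# Paths of matrices, diagonalisation
-/

set_option autoImplicit false

open Module QuadraticForm

namespace Pool.Agent.H47.QG

/-- the entries of a product of matrices with `C^2` entries -/
theorem ModP_mul {ι : Type*} [Fintype ι] (a b : ℝ → Matrix ι ι ℝ)
    (ha : ∀ i j, ContDiff ℝ 2 fun t => a t i j) (hb : ∀ i j, ContDiff ℝ 2 fun t => b t i j)
    (i j : ι) : ContDiff ℝ 2 fun t => (a t * b t) i j := by
  have h : (fun t => (a t * b t) i j) = fun t => ∑ k, a t i k * b t k j := by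
    funext t
    rw [Matrix.mul_apply]
  rw [h]
  exact ContDiff.sum fun k _ => (ha i k).mul (hb k j)

/-- Path from an invertible matrix to an invertible diagonal matrix through invertible matrices. -/
theorem exists_path {ι : Type*} [Fintype ι] [DecidableEq ι] (M : Matrix ι ι ℝ) (hM : M.det ≠ 0) :
    ∃ (γ : ℝ → Matrix ι ι ℝ) (d : ι → ℝ), (∀ i j, ContDiff ℝ 2 fun t => γ t i j) ∧
      (∀ t, (γ t).det ≠ 0) ∧ γ 0 = M ∧ γ 1 = Matrix.diagonal d ∧ ∀ i, d i ≠ 0 := by
  refine Matrix.diagonal_transvection_induction_of_det_ne_zero (fun M =>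
    ∃ (γ : ℝ → Matrix ι ι ℝ) (d : ι → ℝ), (∀ i j, ContDiff ℝ 2 fun t => γ t i j) ∧
      (∀ t, (γ t).det ≠ 0) ∧ γ 0 = M ∧ γ 1 = Matrix.diagonal d ∧ ∀ i, d i ≠ 0) M hM
    (fun D hD => ?_) (fun t => ?_) (fun A B hA hB PA PB => ?_)
  · refine ⟨fun _ => Matrix.diagonal D, D, fun i j => contDiff_const, fun _ => hD, rfl, rfl,
      fun i h0 => hD ?_⟩
    rw [Matrix.det_diagonal]
    exact Finset.prod_eq_zero (Finset.mem_univ i) h0
  · refine ⟨fun s => Matrix.transvection t.i t.j ((1 - s) * t.c), fun _ => 1, fun i j => ?_,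
      fun s => ?_, ?_, ?_, fun _ => one_ne_zero⟩
    · have h : (fun s : ℝ => Matrix.transvection t.i t.j ((1 - s) * t.c) i j) =
          fun s => (1 : Matrix ι ι ℝ) i j + ((1 - s) * t.c) * Matrix.single t.i t.j 1 i j := by
        funext s
        rw [Matrix.transvection, Matrix.add_apply, Matrix.single_apply, Matrix.single_apply]
        split_ifs <;> simp
      rw [h]
      exact contDiff_const.add (((contDiff_const.sub contDiff_id).mul contDiff_const).mul
        contDiff_const)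
    · rw [Matrix.det_transvection_of_ne _ _ t.hij]
      exact one_ne_zero
    · show Matrix.transvection t.i t.j ((1 - 0) * t.c) = t.toMatrix
      rw [sub_zero, one_mul]
      rfl
    · show Matrix.transvection t.i t.j ((1 - 1) * t.c) = Matrix.diagonal fun _ => 1
      rw [sub_self, zero_mul, Matrix.transvection_zero, Matrix.diagonal_one]
  · obtain ⟨a, d, ha, had, ha0, ha1, hd⟩ := PA
    obtain ⟨b, e, hb, hbd, hb0, hb1, he⟩ := PB
    refine ⟨fun t => a t * b t, fun i => d i * e i, ModP_mul a b ha hb, fun t => ?_, ?_, ?_,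
      fun i => mul_ne_zero (hd i) (he i)⟩
    · rw [Matrix.det_mul]
      exact mul_ne_zero (had t) (hbd t)
    · show a 0 * b 0 = A * B
      rw [ha0, hb0]
    · show a 1 * b 1 = _
      rw [ha1, hb1, Matrix.diagonal_mul_diagonal]

/-- A nondegenerate quadratic form on `ℝ^ι` is `∑ s i (M x)_i^2`, with `s i = 1, -1`. -/
theorem exists_diag {ι : Type*} [Fintype ι] [DecidableEq ι] (Q : QuadraticForm ℝ (ι → ℝ))
    (hQ : sigNeg Q + sigPos Q = Fintype.card ι) :
    ∃ (M : Matrix ι ι ℝ) (s : ι → ℝ), M.det ≠ 0 ∧ (∀ i, s i = 1 ∨ s i = -1) ∧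
      neg s = sigNeg Q ∧ ∀ x, Q x = ∑ i, s i * (M.mulVec x i) ^ 2 := by
  obtain ⟨w, hw, he⟩ := Q.equivalent_one_zero_neg_one_weighted_sum_squared
  have hn := sigNeg_of_equiv_weightedSumSquares he
  have hp := sigPos_of_equiv_weightedSumSquares he
  obtain ⟨e⟩ := he
  have hc : finrank ℝ (ι → ℝ) = Fintype.card ι := Module.finrank_pi ℝ
  have h0 : ∀ j, w j ≠ 0 := by
    intro j hj
    have h1 : {i | w i < 0}.ncard + {i | 0 < w i}.ncard = ({i | w i < 0} ∪ {i | 0 < w i}).ncard := by
      rw [Set.ncard_union_eq]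
      rw [Set.disjoint_left]
      intro i hi hi'
      exact lt_asymm (show w i < 0 from hi) (show 0 < w i from hi')
    have h2 : ({i | w i < 0} ∪ {i | 0 < w i}) ⊂ (Set.univ : Set (Fin (finrank ℝ (ι → ℝ)))) := by
      rw [Set.ssubset_univ_iff]
      intro h3
      have h4 : j ∈ ({i | w i < 0} ∪ {i | 0 < w i}) := by
        rw [h3]
        trivial
      rcases h4 with h4 | h4
      · exact absurd (show w j < 0 from h4) (by rw [hj]; exact lt_irrefl _)
      · exact absurd (show 0 < w j from h4) (by rw [hj]; exact lt_irrefl _)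
    have h3 := Set.ncard_lt_ncard h2
    rw [Set.ncard_univ, Nat.card_fin, ← h1, ← hn, ← hp, hQ] at h3
    exact lt_irrefl _ (hc ▸ h3)
  let σ : ι ≃ Fin (finrank ℝ (ι → ℝ)) := (Fintype.equivFin ι).trans (finCongr hc.symm)
  let L : (ι → ℝ) ≃ₗ[ℝ] (ι → ℝ) := e.toLinearEquiv.trans (LinearEquiv.funCongrLeft ℝ ℝ σ)
  have hL : ∀ x i, L x i = e x (σ i) := fun x i => rfl
  refine ⟨LinearMap.toMatrix' L.toLinearMap, fun i => w (σ i), ?_, fun i => ?_, ?_, fun x => ?_⟩
  · rw [LinearMap.det_toMatrix']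
    exact (LinearEquiv.isUnit_det' L).ne_zero
  · rcases hw (σ i) with h | h | h
    · exact Or.inr h
    · exact absurd h (h0 _)
    · exact Or.inl h
  · rw [hn, neg, Set.ncard, Set.encard]
    exact Nat.card_congr (Equiv.subtypeEquiv σ fun i => Iff.rfl)
  · have h1 := e.map_app x
    rw [QuadraticMap.weightedSumSquares_apply] at h1
    rw [← h1, ← Equiv.sum_comp σ]
    refine Finset.sum_congr rfl fun i _ => ?_
    rw [LinearMap.toMatrix'_mulVec, smul_eq_mul, sq]
    rfl

end Pool.Agent.H47.QG
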