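import Pool.Agent.H47.QG.StarD

/-!
# Critical stars
-/

set_option autoImplicit false

namespace Pool.Agent.H47.QG

variable {ι : Type*} [Fintype ι] [DecidableEq ι]

/-- **Critical stars**: description of the cells with top `v`. -/
theorem cri_top (kd : ι → Kind) {m : ℕ} [NeZero m] (hm : 3 ≤ m) (f : (ι → ZMod m) → ℝ)
    (en : (ι → ZMod m) → ℕ) (v : ι → ZMod m) (hv : ¬ Rem kd v) (e : ι → Bool)
    (hr : Cri kd f v e) (c : ι → ZMod m × Bool) :
    ((∀ j, ok1 m (kd j) (c j)) ∧ IsTop kd f en c v) ↔
      ∀ i, c i = (v i, false) ∨ (e i = true ∧ ∃ s, c i = edg (v i) s) := by
  constructor
  · rintro ⟨hok, hc, -, htop⟩ i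
    by_cases hi : (c i).2 = true
    · right
      have hs : ∃ s, c i = edg (v i) s := by
        rcases hc i with h | ⟨-, h⟩
        · refine ⟨true, ?_⟩
          rw [h]
          exact Prod.ext rfl hi
        · refine ⟨false, ?_⟩
          have h2 : v i - 1 = (c i).1 := by rw [h]; ring
          show c i = (v i - 1, true)
          rw [h2]
          exact Prod.ext rfl hi
      refine ⟨?_, hs⟩
      by_contra he
      have he' : e i = false := by simpa using he
      obtain ⟨s, hs⟩ := hs
      have hoki := hok i
      rw [hs] at hoki
      obtain ⟨h1, h2⟩ := hr.pos i he' s hoki
      have hcor : Corner c (mv v i s) := by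
        intro j
        by_cases hj : j = i
        · subst hj
          have h3 : mv v j s j = v j + stp m s := by simp [mv]
          rw [h3, hs]
          cases s with
          | true =>
            right
            exact ⟨rfl, rfl⟩
          | false =>
            left
            show v j + (-1) = v j - 1
            ring
        · have h3 : mv v i s j = v j := by simp [mv, hj]
          rw [h3]
          exact hc j
      have hne : mv v i s ≠ v := by
        intro h
        rw [h] at h2
        exact lt_irrefl _ h2
      have hlt := htop _ hcor h1 hne
      rw [key, key, Prod.Lex.toLex_lt_toLex] at hlt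
      rcases hlt with h | ⟨h, -⟩
      · exact lt_asymm h h2
      · exact absurd h2 (by
          have h' : f (mv v i s) = f v := h
          rw [h']
          exact lt_irrefl _)
    · left
      rcases hc i with h | ⟨h, -⟩
      · rw [h]
        exact Prod.ext rfl (by simpa using hi)
      · exact absurd h hi
  · intro h
    refine ⟨?_, ?_, hv, ?_⟩
    · intro j
      rcases h j with h1 | ⟨h1, s, h2⟩
      · rw [h1]
        refine ⟨fun hk h3 => hv ⟨j, hk, ?_⟩, fun _ h3 => ?_⟩
        · exact congrArg Prod.fst h3
        · exact absurd (congrArg Prod.snd h3) (by simp)
      · rw [h2]
        exact hr.edges j h1 s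
    · intro i
      rcases h i with h1 | ⟨-, s, h2⟩
      · left
        rw [h1]
      · rw [h2]
        cases s with
        | true =>
          left
          rfl
        | false =>
          right
          refine ⟨rfl, ?_⟩
          show v i = v i - 1 + 1
          ring
    · intro w hw hrem hne
      have hnear : Near kd v w := by
        intro i
        rcases h i with h1 | ⟨he, s, h2⟩
        · left
          have h3 := hw i
          rw [h1] at h3
          rcases h3 with h3 | ⟨h3, -⟩
          · exact h3
          · exact absurd h3 (by simp)
        · have h3 := hw i
          rw [h2] at h3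
          cases s with
          | true =>
            rcases h3 with h3 | ⟨-, h3⟩
            · left
              exact h3
            · right
              exact ⟨true, hr.edges i he true, h3⟩
          | false =>
            rcases h3 with h3 | ⟨-, h3⟩
            · right
              refine ⟨false, hr.edges i he false, ?_⟩
              have h4 : w i = v i - 1 := h3
              rw [h4]
              show v i - 1 = v i + (-1)
              ring
            · left
              have h4 : w i = v i - 1 + 1 := h3
              rw [h4]
              ring
      have hlt : f w < f v := by
        refine hr.neg w hnear ?_ hne hrem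
        intro i he
        rcases h i with h1 | ⟨h1, -⟩
        · have h3 := hw i
          rw [h1] at h3
          rcases h3 with h3 | ⟨h3, -⟩
          · exact h3
          · exact absurd h3 (by simp)
        · rw [he] at h1
          exact absurd h1 (by simp)
      rw [key, key, Prod.Lex.toLex_lt_toLex]
      exact Or.inl hlt

end Pool.Agent.H47.QG
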