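import Pool.Agent.H47.QG.StarT
import Pool.Agent.H47.QG.StarC

/-!
# The lower star matching of a function on the vertices of the grid
-/

set_option autoImplicit false

namespace Pool.Agent.H47.QG

variable {ι : Type*} [Fintype ι] [DecidableEq ι]

omit [Fintype ι] [DecidableEq ι] in
theorem Star_edg_snd {m : ℕ} (a : ZMod m) (s : Bool) : (edg a s).2 = true := by
  cases s <;> rfl

theorem Star_edg_ne {m : ℕ} (a : ZMod m) (s : Bool) : edg a s ≠ (a, false) := by
  intro h
  have h1 := Star_edg_snd a s
  rw [h] at h1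
  exact Bool.noConfusion h1

theorem Star_edg_tf {m : ℕ} (hm : 3 ≤ m) (a : ZMod m) : edg a true ≠ edg a false := by
  intro h
  have h1 : a = a - 1 := congrArg Prod.fst h
  have h2 : (1 : ZMod m) = 0 := by
    have h3 : a - (a - 1) = 0 := sub_eq_zero.2 h1
    rwa [sub_sub_cancel] at h3
  have : Fact (1 < m) := ⟨by omega⟩
  exact one_ne_zero h2

theorem Star_face {m : ℕ} (a : ZMod m) (s : Bool) :
    (a, false) = ((edg a s).1, false) ∨ (a, false) = ((edg a s).1 + 1, false) := by
  cases s
  · right
    show (a, false) = (a - 1 + 1, false)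
    rw [sub_add_cancel]
  · left
    rfl

theorem Star_cdim_up {m : ℕ} (c : ι → ZMod m × Bool) (i : ι) (a : ZMod m × Bool)
    (h : (c i).2 = false) (ha : a.2 = true) : cdim (Function.update c i a) = cdim c + 1 := by
  unfold cdim
  have h1 : (Finset.univ.filter fun j => (Function.update c i a j).2 = true) =
      insert i (Finset.univ.filter fun j => (c j).2 = true) := by
    ext j
    simp only [Finset.mem_filter, Finset.mem_univ, true_and, Finset.mem_insert]
    by_cases hj : j = i
    · subst hj
      simp [ha]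
    · simp [hj]
  rw [h1, Finset.card_insert_of_notMem]
  simp [h]

open Classical in
/-- replace a cell if the new one is allowed -/
noncomputable def Star_mk (kd : ι → Kind) {m : ℕ} (c : Cell kd m) (x : ι → ZMod m × Bool) :
    Cell kd m :=
  if h : ∀ j, ok1 m (kd j) (x j) then ⟨x, h⟩ else c

open Classical in
/-- toggle the active coordinate -/
noncomputable def Star_mu (kd : ι → Kind) {m : ℕ} (T : Cell kd m → ι → ZMod m)
    (A : Cell kd m → Option (ι × Bool)) (c : Cell kd m) : Cell kd m :=
  match A c with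
  | none => c
  | some p => if c.1 p.1 = (T c p.1, false) then
      Star_mk kd c (Function.update c.1 p.1 (edg (T c p.1) p.2))
    else Star_mk kd c (Function.update c.1 p.1 (T c p.1, false))

/-- active coordinates -/
structure Star_Act (kd : ι → Kind) {m : ℕ} (T : Cell kd m → ι → ZMod m)
    (A : Cell kd m → Option (ι × Bool)) : Prop where
  val : ∀ c i s, A c = some (i, s) → (c.1 i = (T c i, false) ∨ c.1 i = edg (T c i) s)
  upd : ∀ c i s, A c = some (i, s) → ∀ a, (a = (T c i, false) ∨ a = edg (T c i) s) →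
    ∃ h : (∀ j, ok1 m (kd j) (Function.update c.1 i a j)),
      T ⟨Function.update c.1 i a, h⟩ = T c ∧ A ⟨Function.update c.1 i a, h⟩ = some (i, s)

theorem Star_mu_none (kd : ι → Kind) {m : ℕ} (T : Cell kd m → ι → ZMod m)
    (A : Cell kd m → Option (ι × Bool)) (c : Cell kd m) (h : A c = none) :
    Star_mu kd T A c = c := by
  unfold Star_mu
  rw [h]

theorem Star_mu_lo (kd : ι → Kind) {m : ℕ} (T : Cell kd m → ι → ZMod m)
    (A : Cell kd m → Option (ι × Bool)) (hA : Star_Act kd T A) (c : Cell kd m) (i : ι) (s : Bool)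
    (h : A c = some (i, s)) (hc : c.1 i = (T c i, false)) :
    (Star_mu kd T A c).1 = Function.update c.1 i (edg (T c i) s) ∧
      T (Star_mu kd T A c) = T c ∧ A (Star_mu kd T A c) = some (i, s) := by
  obtain ⟨h1, h2, h3⟩ := hA.upd c i s h _ (Or.inr rfl)
  have h4 : Star_mu kd T A c = ⟨Function.update c.1 i (edg (T c i) s), h1⟩ := by
    unfold Star_mu
    rw [h]
    simp only
    rw [if_pos hc]
    unfold Star_mk
    rw [dif_pos h1]
  rw [h4]
  exact ⟨rfl, h2, h3⟩

theorem Star_mu_hi (kd : ι → Kind) {m : ℕ} (T : Cell kd m → ι → ZMod m)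
    (A : Cell kd m → Option (ι × Bool)) (hA : Star_Act kd T A) (c : Cell kd m) (i : ι) (s : Bool)
    (h : A c = some (i, s)) (hc : c.1 i = edg (T c i) s) :
    (Star_mu kd T A c).1 = Function.update c.1 i (T c i, false) ∧
      T (Star_mu kd T A c) = T c ∧ A (Star_mu kd T A c) = some (i, s) := by
  obtain ⟨h1, h2, h3⟩ := hA.upd c i s h _ (Or.inl rfl)
  have h4 : Star_mu kd T A c = ⟨Function.update c.1 i (T c i, false), h1⟩ := by
    unfold Star_mu
    rw [h]
    simp only
    rw [if_neg (by rw [hc]; exact Star_edg_ne _ _)]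
    unfold Star_mk
    rw [dif_pos h1]
  rw [h4]
  exact ⟨rfl, h2, h3⟩

theorem Star_mu_ne (kd : ι → Kind) {m : ℕ} (T : Cell kd m → ι → ZMod m)
    (A : Cell kd m → Option (ι × Bool)) (hA : Star_Act kd T A) (c : Cell kd m) (i : ι) (s : Bool)
    (h : A c = some (i, s)) : Star_mu kd T A c ≠ c := by
  intro h1
  rcases hA.val c i s h with h2 | h2
  · have h3 := (Star_mu_lo kd T A hA c i s h h2).1
    rw [h1] at h3
    have h4 := congrFun h3 i
    rw [Function.update_self, h2] at h4
    exact Star_edg_ne _ _ h4.symm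
  · have h3 := (Star_mu_hi kd T A hA c i s h h2).1
    rw [h1] at h3
    have h4 := congrFun h3 i
    rw [Function.update_self, h2] at h4
    exact Star_edg_ne _ _ h4

theorem Star_invol (kd : ι → Kind) {m : ℕ} (T : Cell kd m → ι → ZMod m)
    (A : Cell kd m → Option (ι × Bool)) (hA : Star_Act kd T A) (c : Cell kd m) :
    Star_mu kd T A (Star_mu kd T A c) = c := by
  rcases hq : A c with _ | ⟨i, s⟩
  · rw [Star_mu_none kd T A c hq, Star_mu_none kd T A c hq]
  · rcases hA.val c i s hq with h2 | h2
    · obtain ⟨h3, h4, h5⟩ := Star_mu_lo kd T A hA c i s hq h2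
      have h6 := (Star_mu_hi kd T A hA (Star_mu kd T A c) i s h5
        (by rw [h3, Function.update_self, h4])).1
      apply Subtype.ext
      rw [h6, h3, h4, Function.update_idem, ← h2, Function.update_eq_self]
    · obtain ⟨h3, h4, h5⟩ := Star_mu_hi kd T A hA c i s hq h2
      have h6 := (Star_mu_lo kd T A hA (Star_mu kd T A c) i s h5
        (by rw [h3, Function.update_self, h4])).1
      apply Subtype.ext
      rw [h6, h3, h4, Function.update_idem, ← h2, Function.update_eq_self]

theorem Star_dim_lo (kd : ι → Kind) {m : ℕ} (T : Cell kd m → ι → ZMod m)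
    (A : Cell kd m → Option (ι × Bool)) (hA : Star_Act kd T A) (c : Cell kd m) (i : ι) (s : Bool)
    (h : A c = some (i, s)) (hc : c.1 i = (T c i, false)) :
    cdim (Star_mu kd T A c).1 = cdim c.1 + 1 := by
  rw [(Star_mu_lo kd T A hA c i s h hc).1]
  exact Star_cdim_up _ _ _ (by rw [hc]) (Star_edg_snd _ _)

theorem Star_dim_hi (kd : ι → Kind) {m : ℕ} (T : Cell kd m → ι → ZMod m)
    (A : Cell kd m → Option (ι × Bool)) (hA : Star_Act kd T A) (c : Cell kd m) (i : ι) (s : Bool)
    (h : A c = some (i, s)) (hc : c.1 i = edg (T c i) s) :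
    cdim c.1 = cdim (Star_mu kd T A c).1 + 1 := by
  have h1 := Star_mu_hi kd T A hA c i s h hc
  have h2 := Star_dim_lo kd T A hA (Star_mu kd T A c) i s h1.2.2
    (by rw [h1.1, Function.update_self, h1.2.1])
  rw [Star_invol kd T A hA c] at h2
  exact h2

/-- a cell which is matched up -/
theorem Star_up (kd : ι → Kind) {m : ℕ} (T : Cell kd m → ι → ZMod m)
    (A : Cell kd m → Option (ι × Bool)) (hA : Star_Act kd T A) (c : Cell kd m)
    (h : cdim (Star_mu kd T A c).1 = cdim c.1 + 1) :
    ∃ i s, A c = some (i, s) ∧ c.1 i = (T c i, false) := by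
  rcases hq : A c with _ | ⟨i, s⟩
  · rw [Star_mu_none kd T A c hq] at h
    omega
  · rcases hA.val c i s hq with h2 | h2
    · exact ⟨i, s, rfl, h2⟩
    · have := Star_dim_hi kd T A hA c i s hq h2
      omega

/-- the matching defined by active coordinates -/
noncomputable def Star_mat (kd : ι → Kind) {m : ℕ} [NeZero m] (hm : 3 ≤ m)
    (T : Cell kd m → ι → ZMod m)
    (A : Cell kd m → Option (ι × Bool)) (hA : Star_Act kd T A) {R : Type} [inst : LinearOrder R]
    (rk : Cell kd m → R)
    (hac : ∀ (t t' : Cell kd m) (i : ι) (s : Bool) (i' : ι) (s' : Bool) (j : ι),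
      A t = some (i, s) → t.1 i = (T t i, false) → A t' = some (i', s') →
      t'.1 i' = (T t' i', false) → t' ≠ t → FaceAt (Star_mu kd T A t).1 t'.1 j →
      rk t' < rk t) : Mat (grid kd m hm) where
  mu := Star_mu kd T A
  R := R
  ord := inst
  rk := rk
  invol := Star_invol kd T A hA
  dims := by
    intro c hc
    rcases hq : A c with _ | ⟨i, s⟩
    · exact absurd (Star_mu_none kd T A c hq) hc
    · rcases hA.val c i s hq with h2 | h2
      · exact Or.inl (Star_dim_lo kd T A hA c i s hq h2)
      · exact Or.inr (Star_dim_hi kd T A hA c i s hq h2)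
  inc := by
    intro c hc
    obtain ⟨i, s, h1, h2⟩ := Star_up kd T A hA c hc
    obtain ⟨h3, h4, h5⟩ := Star_mu_lo kd T A hA c i s h1 h2
    have h6 : FaceAt (Star_mu kd T A c).1 c.1 i := by
      refine ⟨?_, ?_, ?_⟩
      · rw [h3, Function.update_self]
        exact Star_edg_snd _ _
      · rw [h3, Function.update_self, h2]
        exact Star_face _ _
      · intro j hj
        rw [h3, Function.update_of_ne hj]
    show inc (Star_mu kd T A c).1 c.1 ≠ 0
    unfold inc
    rw [if_pos ⟨i, h6⟩]
    exact one_ne_zero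
  acyc := by
    intro t t' h1 h2 h3 h4
    obtain ⟨i, s, h5, h6⟩ := Star_up kd T A hA t h1
    obtain ⟨i', s', h7, h8⟩ := Star_up kd T A hA t' h2
    have h9 : ∃ j, FaceAt (Star_mu kd T A t).1 t'.1 j := by
      by_contra h10
      apply h4
      show inc (Star_mu kd T A t).1 t'.1 = 0
      unfold inc
      rw [if_neg h10]
    obtain ⟨j, hj⟩ := h9
    exact hac t t' i s i' s' j h5 h6 h7 h8 h3 hj

omit [Fintype ι] [DecidableEq ι] in
theorem Star_key_inj {m : ℕ} (f : (ι → ZMod m) → ℝ) (en : (ι → ZMod m) → ℕ)
    (hen : Function.Injective en) (v w : ι → ZMod m) (h : key f en v = key f en w) : v = w := by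
  unfold key at h
  have h1 : ((f v, en v) : ℝ × ℕ) = (f w, en w) := toLex.injective h
  exact hen (congrArg Prod.snd h1)

omit [DecidableEq ι] in
theorem Star_rank_lt [LinearOrder ι] (i i' : ι) (h : i' < i) :
    (Finset.univ.filter fun j : ι => j < i').card < (Finset.univ.filter fun j : ι => j < i).card := by
  apply Finset.card_lt_card
  refine ⟨?_, ?_⟩
  · intro j hj
    simp only [Finset.mem_filter, Finset.mem_univ, true_and] at hj ⊢
    exact hj.trans h
  · intro h1
    have h2 := h1 (show i' ∈ Finset.univ.filter fun j : ι => j < i by simpa using h)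
    simp at h2

/-- the coordinates which can be toggled at a critical star -/
def Star_F {m : ℕ} (e : ι → Bool) (v : ι → ZMod m) (c : ι → ZMod m × Bool) : Finset ι :=
  Finset.univ.filter fun i => e i = true ∧ c i ≠ edg (v i) false

open Classical in
/-- choice of a coordinate at a critical star -/
noncomputable def Star_Q [LinearOrder ι] {m : ℕ} (e : ι → Bool) (v : ι → ZMod m)
    (c : ι → ZMod m × Bool) : Option (ι × Bool) :=
  if h : (Star_F e v c).Nonempty then some ((Star_F e v c).min' h, true) else none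

open Classical in
/-- choice of a coordinate at a regular star -/
noncomputable def Star_P (kd : ι → Kind) {m : ℕ} (f : (ι → ZMod m) → ℝ) (v : ι → ZMod m) :
    Option (ι × Bool) :=
  if h : ∃ p : ι × Bool, Reg kd f v p.1 p.2 then some h.choose else none

/-- choice of a coordinate -/
noncomputable def Star_A [LinearOrder ι] (kd : ι → Kind) {m : ℕ} (f : (ι → ZMod m) → ℝ)
    (D : (ι → ZMod m) → Option (ι → Bool)) (T : Cell kd m → ι → ZMod m) (c : Cell kd m) :
    Option (ι × Bool) :=
  match D (T c) with
  | none => Star_P kd f (T c)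
  | some e => Star_Q e (T c) c.1

theorem Star_P_some (kd : ι → Kind) {m : ℕ} (f : (ι → ZMod m) → ℝ) (v : ι → ZMod m) (i : ι)
    (s : Bool) (h : Star_P kd f v = some (i, s)) : Reg kd f v i s := by
  unfold Star_P at h
  split_ifs at h with h1
  have h2 := h1.choose_spec
  have h3 : h1.choose = (i, s) := Option.some.inj h
  rw [h3] at h2
  exact h2

theorem Star_P_ne (kd : ι → Kind) {m : ℕ} (f : (ι → ZMod m) → ℝ) (v : ι → ZMod m)
    (h : ∃ i s, Reg kd f v i s) : Star_P kd f v ≠ none := by
  obtain ⟨i, s, h1⟩ := h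
  have h2 : ∃ p : ι × Bool, Reg kd f v p.1 p.2 := ⟨(i, s), h1⟩
  unfold Star_P
  rw [dif_pos h2]
  exact Option.some_ne_none _

omit [DecidableEq ι] in
theorem Star_Q_none [LinearOrder ι] {m : ℕ} (e : ι → Bool) (v : ι → ZMod m)
    (c : ι → ZMod m × Bool) :
    Star_Q e v c = none ↔ ∀ i, e i = true → c i = edg (v i) false := by
  unfold Star_Q
  split_ifs with h
  · constructor
    · intro h1
      exact h1.elim
    · intro h1
      obtain ⟨i, hi⟩ := h
      unfold Star_F at hi
      rw [Finset.mem_filter] at hi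
      exact absurd (h1 i hi.2.1) hi.2.2
  · constructor
    · intro _ i hi
      by_contra h1
      apply h
      refine ⟨i, ?_⟩
      unfold Star_F
      rw [Finset.mem_filter]
      exact ⟨Finset.mem_univ _, hi, h1⟩
    · intro _
      rfl

omit [DecidableEq ι] in
theorem Star_Q_some [LinearOrder ι] {m : ℕ} (e : ι → Bool) (v : ι → ZMod m)
    (c : ι → ZMod m × Bool) (i : ι) (s : Bool) :
    Star_Q e v c = some (i, s) ↔ s = true ∧ e i = true ∧ c i ≠ edg (v i) false ∧
      ∀ j, e j = true → c j ≠ edg (v j) false → i ≤ j := by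
  unfold Star_Q
  split_ifs with h
  · constructor
    · intro h1
      have h2 := Option.some.inj h1
      have h3 : (Star_F e v c).min' h = i := congrArg Prod.fst h2
      have h4 : true = s := congrArg Prod.snd h2
      have h5 := (Star_F e v c).min'_mem h
      rw [h3] at h5
      unfold Star_F at h5
      rw [Finset.mem_filter] at h5
      refine ⟨h4.symm, h5.2.1, h5.2.2, ?_⟩
      intro j hj1 hj2
      rw [← h3]
      apply Finset.min'_le
      unfold Star_F
      rw [Finset.mem_filter]
      exact ⟨Finset.mem_univ _, hj1, hj2⟩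
    · rintro ⟨h1, h2, h3, h4⟩
      have h5 : (Star_F e v c).min' h = i := by
        apply le_antisymm
        · apply Finset.min'_le
          unfold Star_F
          rw [Finset.mem_filter]
          exact ⟨Finset.mem_univ _, h2, h3⟩
        · have h6 := (Star_F e v c).min'_mem h
          have h7 : e ((Star_F e v c).min' h) = true ∧
              c ((Star_F e v c).min' h) ≠ edg (v ((Star_F e v c).min' h)) false := by
            have h8 : (Star_F e v c).min' h ∈
              Finset.univ.filter fun i => e i = true ∧ c i ≠ edg (v i) false := h6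
            rw [Finset.mem_filter] at h8
            exact h8.2
          exact h4 _ h7.1 h7.2
      rw [h5, h1]
  · constructor
    · intro h1
      exact h1.elim
    · rintro ⟨_, h2, h3, _⟩
      exfalso
      apply h
      refine ⟨i, ?_⟩
      unfold Star_F
      rw [Finset.mem_filter]
      exact ⟨Finset.mem_univ _, h2, h3⟩

theorem Star_A_none [LinearOrder ι] (kd : ι → Kind) {m : ℕ} (f : (ι → ZMod m) → ℝ)
    (D : (ι → ZMod m) → Option (ι → Bool)) (T : Cell kd m → ι → ZMod m) (c : Cell kd m)
    (v : ι → ZMod m) (hv : T c = v) (h : D v = none) : Star_A kd f D T c = Star_P kd f v := by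
  unfold Star_A
  rw [hv, h]

theorem Star_A_some [LinearOrder ι] (kd : ι → Kind) {m : ℕ} (f : (ι → ZMod m) → ℝ)
    (D : (ι → ZMod m) → Option (ι → Bool)) (T : Cell kd m → ι → ZMod m) (c : Cell kd m)
    (v : ι → ZMod m) (hv : T c = v) (e : ι → Bool) (h : D v = some e) :
    Star_A kd f D T c = Star_Q e v c.1 := by
  unfold Star_A
  rw [hv, h]

theorem Star_isAct [LinearOrder ι] (kd : ι → Kind) {m : ℕ} [NeZero m] (hm : 3 ≤ m)
    (f : (ι → ZMod m) → ℝ) (D : (ι → ZMod m) → Option (ι → Bool))
    (hcri : ∀ v e, ¬ Rem kd v → D v = some e → Cri kd f v e)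
    (en : (ι → ZMod m) → ℕ) (T : Cell kd m → ι → ZMod m)
    (hT : ∀ c, IsTop kd f en c.1 (T c)) (hU : ∀ (c : Cell kd m) v, IsTop kd f en c.1 v → v = T c) :
    Star_Act kd T (Star_A kd f D T) := by
  constructor
  · intro c i s h
    rcases hD : D (T c) with _ | e
    · rw [Star_A_none kd f D T c (T c) rfl hD] at h
      exact (reg_top kd hm f en (T c) i s (Star_P_some kd f _ i s h) c (hT c)).1
    · rw [Star_A_some kd f D T c (T c) rfl e hD, Star_Q_some] at h
      obtain ⟨h1, h2, h3, h4⟩ := h
      have h5 := (cri_top kd hm f en (T c) (hT c).2.1 e (hcri _ _ (hT c).2.1 hD) c.1).1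
        ⟨c.2, hT c⟩ i
      rcases h5 with h5 | ⟨_, s', h5⟩
      · exact Or.inl h5
      · right
        cases s'
        · exact absurd h5 h3
        · rw [h1]
          exact h5
  · intro c i s h a ha
    rcases hD : D (T c) with _ | e
    · have h0 := h
      rw [Star_A_none kd f D T c (T c) rfl hD] at h
      obtain ⟨h1, h2⟩ := (reg_top kd hm f en (T c) i s (Star_P_some kd f _ i s h) c (hT c)).2 a ha
      have h3 : T ⟨Function.update c.1 i a, h1⟩ = T c := (hU ⟨Function.update c.1 i a, h1⟩ _ h2).symm
      refine ⟨h1, h3, ?_⟩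
      rw [Star_A_none kd f D T _ (T c) h3 hD]
      exact h
    · rw [Star_A_some kd f D T c (T c) rfl e hD, Star_Q_some] at h
      obtain ⟨h1, h2, h3, h4⟩ := h
      have h5 := (cri_top kd hm f en (T c) (hT c).2.1 e (hcri _ _ (hT c).2.1 hD) c.1).1
        ⟨c.2, hT c⟩
      have h6 := (cri_top kd hm f en (T c) (hT c).2.1 e (hcri _ _ (hT c).2.1 hD)
        (Function.update c.1 i a)).2 (by
          intro j
          by_cases hj : j = i
          · subst hj
            rw [Function.update_self]
            rcases ha with ha | ha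
            · exact Or.inl ha
            · exact Or.inr ⟨h2, s, ha⟩
          · rw [Function.update_of_ne hj]
            exact h5 j)
      have h7 : T ⟨Function.update c.1 i a, h6.1⟩ = T c :=
        (hU ⟨Function.update c.1 i a, h6.1⟩ _ h6.2).symm
      refine ⟨h6.1, h7, ?_⟩
      rw [Star_A_some kd f D T _ (T c) h7 e hD, Star_Q_some]
      refine ⟨h1, h2, ?_, ?_⟩
      · show Function.update c.1 i a i ≠ edg (T c i) false
        rw [Function.update_self]
        rcases ha with ha | ha
        · rw [ha]
          exact fun h8 => Star_edg_ne _ _ h8.symm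
        · rw [ha, h1]
          exact Star_edg_tf hm _
      · intro j hj1 hj2
        by_cases hj : j = i
        · exact le_of_eq hj.symm
        · apply h4 j hj1
          intro h8
          apply hj2
          show Function.update c.1 i a j = edg (T c j) false
          rw [Function.update_of_ne hj]
          exact h8

/-- the second component of the rank -/
def Star_r [LinearOrder ι] (o : Option (ι × Bool)) : ℕ :=
  match o with
  | none => 0
  | some p => (Finset.univ.filter fun j : ι => j < p.1).card

/-- the rank -/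
noncomputable def Star_rk [LinearOrder ι] (kd : ι → Kind) {m : ℕ} (f : (ι → ZMod m) → ℝ)
    (en : (ι → ZMod m) → ℕ) (T : Cell kd m → ι → ZMod m) (A : Cell kd m → Option (ι × Bool))
    (c : Cell kd m) : (ℝ ×ₗ ℕ) ×ₗ ℕ :=
  toLex (key f en (T c), Star_r (A c))

theorem Star_acyc [LinearOrder ι] (kd : ι → Kind) {m : ℕ} [NeZero m] (hm : 3 ≤ m)
    (f : (ι → ZMod m) → ℝ) (D : (ι → ZMod m) → Option (ι → Bool))
    (hcri : ∀ v e, ¬ Rem kd v → D v = some e → Cri kd f v e)
    (en : (ι → ZMod m) → ℕ) (hen : Function.Injective en) (T : Cell kd m → ι → ZMod m)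
    (hT : ∀ c, IsTop kd f en c.1 (T c)) (hU : ∀ (c : Cell kd m) v, IsTop kd f en c.1 v → v = T c)
    (t t' : Cell kd m) (i : ι) (s : Bool) (i' : ι) (s' : Bool) (j : ι)
    (h1 : Star_A kd f D T t = some (i, s)) (h2 : t.1 i = (T t i, false))
    (h3 : Star_A kd f D T t' = some (i', s')) (h4 : t'.1 i' = (T t' i', false)) (h5 : t' ≠ t)
    (h6 : FaceAt (Star_mu kd T (Star_A kd f D T) t).1 t'.1 j) :
    Star_rk kd f en T (Star_A kd f D T) t' < Star_rk kd f en T (Star_A kd f D T) t := by
  obtain ⟨m1, m2, m3⟩ := Star_mu_lo kd T _ (Star_isAct kd hm f D hcri en T hT hU) t i s h1 h2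
  have k1 := face_top kd f en _ t' j h6 _ _ (hT _) (hT t')
  rw [m2] at k1
  unfold Star_rk
  rw [Prod.Lex.toLex_lt_toLex]
  rcases lt_or_eq_of_le k1 with k2 | k2
  · exact Or.inl k2
  right
  refine ⟨k2, ?_⟩
  have k3 : T t' = T t := Star_key_inj f en hen _ _ k2
  have hji : j ≠ i → t'.1 i = edg (T t i) s := by
    intro hj
    rw [h6.2.2 i (Ne.symm hj), m1, Function.update_self]
  have hoff : ∀ l, l ≠ j → l ≠ i → t'.1 l = t.1 l := by
    intro l hl1 hl2
    rw [h6.2.2 l hl1, m1, Function.update_of_ne hl2]
  rcases hD : D (T t) with _ | e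
  · exfalso
    have g1 := h1
    rw [Star_A_none kd f D T t (T t) rfl hD] at g1
    have g2 := h3
    rw [Star_A_none kd f D T t' (T t) k3 hD, g1] at g2
    have g3 : i = i' := congrArg Prod.fst (Option.some.inj g2)
    subst g3
    have g4 : j = i := by
      by_contra hj
      have g5 := hji hj
      rw [h4, k3] at g5
      exact Star_edg_ne _ _ g5.symm
    subst g4
    apply h5
    apply Subtype.ext
    funext l
    by_cases hl : l = j
    · rw [hl, h4, h2, k3]
    · exact hoff l hl hl
  · have g1 := h1
    rw [Star_A_some kd f D T t (T t) rfl e hD, Star_Q_some] at g1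
    have g2 := h3
    rw [Star_A_some kd f D T t' (T t) k3 e hD, Star_Q_some] at g2
    have hne : j ≠ i := by
      intro hj
      subst hj
      apply h5
      apply Subtype.ext
      funext l
      by_cases hl : l = j
      · rw [hl, h2]
        have g3 := (cri_top kd hm f en (T t) (hT t).2.1 e (hcri _ _ (hT t).2.1 hD) t'.1).1
          ⟨t'.2, by rw [← k3]; exact hT t'⟩ j
        rcases g3 with g3 | ⟨_, s'', g3⟩
        · exact g3
        · exfalso
          have g4 := Star_edg_snd (T t j) s''
          rw [← g3] at g4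
          rcases h6.2.1 with g5 | g5
          · rw [g5] at g4
            exact Bool.noConfusion g4
          · rw [g5] at g4
            exact Bool.noConfusion g4
      · exact hoff l hl hl
    have g3 := hji hne
    have g4 : t'.1 i ≠ edg (T t i) false := by
      rw [g3, g1.1]
      exact Star_edg_tf hm _
    have g5 := g2.2.2.2 i g1.2.1 g4
    have g6 : i' ≠ i := by
      intro g7
      rw [g7, k3, g3] at h4
      exact Star_edg_ne _ _ h4
    rw [h1, h3]
    exact Star_rank_lt i i' (lt_of_le_of_ne g5 g6)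

/-- the critical cell of a critical vertex -/
def Star_cc {m : ℕ} (v : ι → ZMod m) (e : ι → Bool) (i : ι) : ZMod m × Bool :=
  if e i = true then edg (v i) false else (v i, false)

omit [DecidableEq ι] in
theorem Star_cc_dim {m : ℕ} (v : ι → ZMod m) (e : ι → Bool) : cdim (Star_cc v e) = nneg e := by
  unfold cdim nneg
  congr 1
  ext i
  simp only [Finset.mem_filter, Finset.mem_univ, true_and]
  unfold Star_cc
  by_cases h : e i = true
  · rw [if_pos h]
    exact ⟨fun _ => h, fun _ => Star_edg_snd _ _⟩
  · rw [if_neg h]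
    constructor
    · intro h1
      exact Bool.noConfusion h1
    · intro h1
      exact absurd h1 h

/-- the cells which are not matched -/
theorem Star_crit [LinearOrder ι] (kd : ι → Kind) {m : ℕ} [NeZero m] (hm : 3 ≤ m)
    (f : (ι → ZMod m) → ℝ) (D : (ι → ZMod m) → Option (ι → Bool))
    (hreg : ∀ v, ¬ Rem kd v → D v = none → ∃ i s, Reg kd f v i s)
    (hcri : ∀ v e, ¬ Rem kd v → D v = some e → Cri kd f v e)
    (en : (ι → ZMod m) → ℕ) (T : Cell kd m → ι → ZMod m)
    (hT : ∀ c, IsTop kd f en c.1 (T c)) (c : Cell kd m) :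
    Star_A kd f D T c = none ↔ ∃ e, D (T c) = some e ∧ c.1 = Star_cc (T c) e := by
  constructor
  · intro h
    rcases hD : D (T c) with _ | e
    · rw [Star_A_none kd f D T c (T c) rfl hD] at h
      exact absurd h (Star_P_ne kd f _ (hreg _ (hT c).2.1 hD))
    · refine ⟨e, rfl, ?_⟩
      rw [Star_A_some kd f D T c (T c) rfl e hD, Star_Q_none] at h
      have h1 := (cri_top kd hm f en (T c) (hT c).2.1 e (hcri _ _ (hT c).2.1 hD) c.1).1
        ⟨c.2, hT c⟩
      funext i
      unfold Star_cc
      by_cases hi : e i = true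
      · rw [if_pos hi]
        exact h i hi
      · rw [if_neg hi]
        rcases h1 i with h2 | ⟨h2, _⟩
        · exact h2
        · exact absurd h2 hi
  · rintro ⟨e, hD, h⟩
    rw [Star_A_some kd f D T c (T c) rfl e hD, Star_Q_none]
    intro i hi
    rw [h]
    unfold Star_cc
    rw [if_pos hi]

/-- **Lower star matching.** `mu c` for a cell `c` with top `v`: if `D v = none` choose `i, s`
with `Reg kd f v i s` and toggle coordinate `i` between `(v i, false)` and `edg (v i) s`; if
`D v = some e` take the first coordinate `i` with `e i = true` and `c i ≠ edg (v i) false` and toggle it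
between `(v i, false)` and `edg (v i) true`; if there is none, `c` is critical, of dimension
`nneg e`. Rank: `(key (top c), first coordinate)` lexicographically. -/
theorem exists_mat [LinearOrder ι] (kd : ι → Kind) {m : ℕ} [NeZero m] (hm : 3 ≤ m)
    (f : (ι → ZMod m) → ℝ) (D : (ι → ZMod m) → Option (ι → Bool))
    (hreg : ∀ v, ¬ Rem kd v → D v = none → ∃ i s, Reg kd f v i s)
    (hcri : ∀ v e, ¬ Rem kd v → D v = some e → Cri kd f v e) :
    ∃ M : Mat (grid kd m hm), ∀ k, (Finset.univ.filter fun c => M.mu c = c ∧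
      (grid kd m hm).dim c = k).card =
      Nat.card {v : ι → ZMod m // ¬ Rem kd v ∧ ∃ e, D v = some e ∧ nneg e = k} := by
  let en : (ι → ZMod m) → ℕ := fun v => (Fintype.equivFin (ι → ZMod m) v : ℕ)
  have hen : Function.Injective en := by
    intro v w h
    exact (Fintype.equivFin (ι → ZMod m)).injective (Fin.ext h)
  have hex := exists_top kd hm f en hen
  choose T hT0 using hex
  have hT : ∀ c, IsTop kd f en c.1 (T c) := fun c => (hT0 c).1
  have hU : ∀ (c : Cell kd m) v, IsTop kd f en c.1 v → v = T c := fun c v h => (hT0 c).2 v h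
  have hA := Star_isAct kd hm f D hcri en T hT hU
  refine ⟨Star_mat kd hm T (Star_A kd f D T) hA (Star_rk kd f en T (Star_A kd f D T))
    (fun t t' i s i' s' j h1 h2 h3 h4 h5 h6 =>
      Star_acyc kd hm f D hcri en hen T hT hU t t' i s i' s' j h1 h2 h3 h4 h5 h6), ?_⟩
  intro k
  show (Finset.univ.filter fun c : Cell kd m => Star_mu kd T (Star_A kd f D T) c = c ∧
      cdim c.1 = k).card = _
  have hmu : ∀ c, Star_mu kd T (Star_A kd f D T) c = c ↔ Star_A kd f D T c = none := by
    intro c
    constructor
    · intro h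
      rcases hq : Star_A kd f D T c with _ | ⟨i, s⟩
      · rfl
      · exact absurd h (Star_mu_ne kd T _ hA c i s hq)
    · exact Star_mu_none kd T _ c
  have hc := Star_crit kd hm f D hreg hcri en T hT
  rw [← Fintype.card_subtype, ← Nat.card_eq_fintype_card]
  apply Nat.card_eq_of_bijective (fun c : {c : Cell kd m //
      Star_mu kd T (Star_A kd f D T) c = c ∧ cdim c.1 = k} =>
    (⟨T c.1, (hT c.1).2.1, by
      obtain ⟨e, h1, h2⟩ := (hc c.1).1 ((hmu c.1).1 c.2.1)
      refine ⟨e, h1, ?_⟩
      rw [← Star_cc_dim (T c.1) e, ← h2]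
      exact c.2.2⟩ : {v : ι → ZMod m // ¬ Rem kd v ∧ ∃ e, D v = some e ∧ nneg e = k}))
  constructor
  · intro c c' h
    have h1 : T c.1 = T c'.1 := congrArg Subtype.val h
    obtain ⟨e, h2, h3⟩ := (hc c.1).1 ((hmu c.1).1 c.2.1)
    obtain ⟨e', h2', h3'⟩ := (hc c'.1).1 ((hmu c'.1).1 c'.2.1)
    rw [← h1, h2] at h2'
    have h4 : e = e' := Option.some.inj h2'
    subst h4
    rw [← h1] at h3'
    exact Subtype.ext (Subtype.ext (h3.trans h3'.symm))
  · rintro ⟨v, hv, e, hD, hk⟩
    have h1 := (cri_top kd hm f en v hv e (hcri _ _ hv hD) (Star_cc v e)).2 (by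
      intro i
      unfold Star_cc
      by_cases hi : e i = true
      · rw [if_pos hi]
        exact Or.inr ⟨hi, false, rfl⟩
      · rw [if_neg hi]
        exact Or.inl rfl)
    have h2 : v = T ⟨Star_cc v e, h1.1⟩ := hU ⟨Star_cc v e, h1.1⟩ v h1.2
    have h3 : Star_A kd f D T ⟨Star_cc v e, h1.1⟩ = none := by
      rw [hc]
      exact ⟨e, by rw [← h2]; exact hD, by rw [← h2]⟩
    refine ⟨⟨⟨Star_cc v e, h1.1⟩, (hmu _).2 h3, ?_⟩, ?_⟩
    · rw [Star_cc_dim]
      exact hk
    · exact Subtype.ext h2.symm

end Pool.Agent.H47.QG
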