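import Pool.Agent.H47.QG.Grid

/-!
# Definitions for the lower star matching
-/

set_option autoImplicit false

namespace Pool.Agent.H47.QG

variable {ι : Type*} [Fintype ι] [DecidableEq ι]

/-- A removed vertex. -/
def Rem (kd : ι → Kind) {m : ℕ} (v : ι → ZMod m) : Prop := ∃ i, kd i = Kind.up ∧ v i = 0

/-- step of direction `s` (`true`: forward) -/
def stp (m : ℕ) (s : Bool) : ZMod m := if s then 1 else -1

/-- the edge at the vertex `a` in direction `s` -/
def edg {m : ℕ} (a : ZMod m) (s : Bool) : ZMod m × Bool := if s then (a, true) else (a - 1, true)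

/-- `w` is obtained from `v` by moving along allowed edges (one step in some coordinates), i.e.
`v` and `w` are corners of a common cell. -/
def Near (kd : ι → Kind) {m : ℕ} (v w : ι → ZMod m) : Prop :=
  ∀ i, w i = v i ∨ ∃ s, ok1 m (kd i) (edg (v i) s) ∧ w i = v i + stp m s

/-- `v` moved by one step of direction `s` in coordinate `i`. -/
def mv {m : ℕ} (v : ι → ZMod m) (i : ι) (s : Bool) : ι → ZMod m :=
  Function.update v i (v i + stp m s)

/-- `v` is regular: `f` decreases in direction `s` of coordinate `i`. -/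
structure Reg (kd : ι → Kind) {m : ℕ} (f : (ι → ZMod m) → ℝ) (v : ι → ZMod m) (i : ι)
    (s : Bool) : Prop where
  edge : ok1 m (kd i) (edg (v i) s)
  down : ∀ w, Near kd v w → w i = v i → ¬ Rem kd w → ¬ Rem kd (mv w i s) → f (mv w i s) < f w
  up : ok1 m (kd i) (edg (v i) (!s)) → ¬ Rem kd (mv v i (!s)) ∧ f v < f (mv v i (!s))

/-- `v` is critical with negative directions `{i | e i = true}`. -/
structure Cri (kd : ι → Kind) {m : ℕ} (f : (ι → ZMod m) → ℝ) (v : ι → ZMod m)
    (e : ι → Bool) : Prop where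
  edges : ∀ i, e i = true → ∀ s, ok1 m (kd i) (edg (v i) s)
  pos : ∀ i, e i = false → ∀ s, ok1 m (kd i) (edg (v i) s) →
    ¬ Rem kd (mv v i s) ∧ f v < f (mv v i s)
  neg : ∀ w, Near kd v w → (∀ i, e i = false → w i = v i) → w ≠ v → ¬ Rem kd w → f w < f v

/-- number of negative directions -/
def nneg (e : ι → Bool) : ℕ := (Finset.univ.filter fun i => e i = true).card

/-- the corners of a cell -/
def Corner {m : ℕ} (c : ι → ZMod m × Bool) (v : ι → ZMod m) : Prop :=
  ∀ i, v i = (c i).1 ∨ ((c i).2 = true ∧ v i = (c i).1 + 1)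

/-- order of the vertices: first `f`, ties are broken by the injective enumeration `en` -/
def key {m : ℕ} (f : (ι → ZMod m) → ℝ) (en : (ι → ZMod m) → ℕ) (v : ι → ZMod m) : ℝ ×ₗ ℕ :=
  toLex (f v, en v)

/-- `v` is the top corner of the cell `c` (among the corners which are not removed) -/
def IsTop (kd : ι → Kind) {m : ℕ} (f : (ι → ZMod m) → ℝ) (en : (ι → ZMod m) → ℕ)
    (c : ι → ZMod m × Bool) (v : ι → ZMod m) : Prop :=
  Corner c v ∧ ¬ Rem kd v ∧ ∀ w, Corner c w → ¬ Rem kd w → w ≠ v → key f en w < key f en v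

end Pool.Agent.H47.QG
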