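import Pool.Agent.H47.QG.StarD

/-!
# Top corners, regular stars
-/

set_option autoImplicit false

namespace Pool.Agent.H47.QG

variable {ι : Type*} [Fintype ι] [DecidableEq ι]

omit [Fintype ι] [DecidableEq ι] in
theorem StarT_key_inj {m : ℕ} {f : (ι → ZMod m) → ℝ}
    {en : (ι → ZMod m) → ℕ} (hen : Function.Injective en) {v w : ι → ZMod m}
    (h : key f en v = key f en w) : v = w := by
  have h1 : (f v, en v) = (f w, en w) := toLex.injective h
  exact hen (Prod.ext_iff.mp h1).2

omit [Fintype ι] [DecidableEq ι] in
theorem StarT_key_lt_of {m : ℕ} {f : (ι → ZMod m) → ℝ}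
    {en : (ι → ZMod m) → ℕ} {v w : ι → ZMod m}
    (h : f v < f w) : key f en v < key f en w := by
  unfold key
  rw [Prod.Lex.toLex_lt_toLex]
  exact Or.inl h

omit [Fintype ι] [DecidableEq ι] in
theorem StarT_le_of_key {m : ℕ} {f : (ι → ZMod m) → ℝ}
    {en : (ι → ZMod m) → ℕ} {v w : ι → ZMod m}
    (h : key f en v < key f en w) : f v ≤ f w := by
  unfold key at h
  rw [Prod.Lex.toLex_lt_toLex] at h
  rcases h with h | h
  · exact h.le
  · exact h.1.le

omit [Fintype ι] [DecidableEq ι] in
theorem StarT_corner (kd : ι → Kind) {m : ℕ} (hm : 3 ≤ m) (c : Cell kd m) :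
    ∃ v, Corner c.1 v ∧ ¬ Rem kd v := by
  classical
  have h10 : (1 : ZMod m) ≠ 0 := by
    have : Fact (1 < m) := ⟨by omega⟩
    exact one_ne_zero
  have hex : ∀ i, ∃ a : ZMod m, (a = (c.1 i).1 ∨ ((c.1 i).2 = true ∧ a = (c.1 i).1 + 1)) ∧
      (kd i = Kind.up → a ≠ 0) := by
    intro i
    by_cases h : (c.1 i).1 = 0
    · by_cases h2 : (c.1 i).2 = true
      · refine ⟨(c.1 i).1 + 1, Or.inr ⟨h2, rfl⟩, fun _ => ?_⟩
        rw [h, zero_add]
        exact h10
      · refine ⟨(c.1 i).1, Or.inl rfl, fun hu => ?_⟩
        exfalso
        apply (c.2 i).1 hu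
        have h3 : (c.1 i).2 = false := by simpa using h2
        exact Prod.ext h h3
    · exact ⟨(c.1 i).1, Or.inl rfl, fun _ => h⟩
  choose v hv1 hv2 using hex
  refine ⟨v, hv1, ?_⟩
  rintro ⟨i, hi1, hi2⟩
  exact hv2 i hi1 hi2

/-- every allowed cell has a unique top corner -/
theorem exists_top (kd : ι → Kind) {m : ℕ} [NeZero m] (hm : 3 ≤ m) (f : (ι → ZMod m) → ℝ)
    (en : (ι → ZMod m) → ℕ) (hen : Function.Injective en) (c : Cell kd m) :
    ∃! v, IsTop kd f en c.1 v := by
  classical
  obtain ⟨v0, hv0⟩ := StarT_corner kd hm c
  set F : Finset (ι → ZMod m) := Finset.univ.filter fun v => Corner c.1 v ∧ ¬ Rem kd v with hF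
  have hne : F.Nonempty := ⟨v0, by simp [hF, hv0.1, hv0.2]⟩
  obtain ⟨v, hvF, hmax⟩ := Finset.exists_max_image F (key f en) hne
  have hv : Corner c.1 v ∧ ¬ Rem kd v := by
    simpa [hF] using hvF
  refine ⟨v, ⟨hv.1, hv.2, fun w hw1 hw2 hne' => ?_⟩, ?_⟩
  · have hwF : w ∈ F := by simp [hF, hw1, hw2]
    refine lt_of_le_of_ne (hmax w hwF) fun h => hne' (StarT_key_inj hen h)
  · intro w hw
    by_contra hne'
    have h1 := hw.2.2 v hv.1 hv.2 (fun h => hne' h.symm)
    have hwF : w ∈ F := by simp [hF, hw.1, hw.2.1]
    exact absurd h1 (not_lt.mpr (hmax w hwF))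

/-- the top corner of a face is not above the top corner of the cell -/
theorem face_top (kd : ι → Kind) {m : ℕ} (f : (ι → ZMod m) → ℝ) (en : (ι → ZMod m) → ℕ)
    (c c' : Cell kd m) (i : ι) (hf : FaceAt c.1 c'.1 i) (v v' : ι → ZMod m)
    (hv : IsTop kd f en c.1 v) (hv' : IsTop kd f en c'.1 v') : key f en v' ≤ key f en v := by
  have hc : Corner c.1 v' := by
    intro j
    have hj := hv'.1 j
    by_cases hji : j = i
    · subst hji
      rcases hf.2.1 with h | h
      · rw [h] at hj
        rcases hj with hj | hj
        · exact Or.inl hj
        · exact absurd hj.1 (by simp)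
      · rw [h] at hj
        rcases hj with hj | hj
        · exact Or.inr ⟨hf.1, hj⟩
        · exact absurd hj.1 (by simp)
    · rw [hf.2.2 j hji] at hj
      exact hj
  by_cases h : v' = v
  · rw [h]
  · exact (hv.2.2 v' hc hv'.2.1 h).le

/-- **Regular stars**: the cells with top `v` are invariant under toggling coordinate `i`. -/
theorem reg_top (kd : ι → Kind) {m : ℕ} [NeZero m] (hm : 3 ≤ m) (f : (ι → ZMod m) → ℝ)
    (en : (ι → ZMod m) → ℕ) (v : ι → ZMod m) (i : ι) (s : Bool) (hr : Reg kd f v i s)
    (c : Cell kd m) (hc : IsTop kd f en c.1 v) :
    (c.1 i = (v i, false) ∨ c.1 i = edg (v i) s) ∧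
    ∀ a, (a = (v i, false) ∨ a = edg (v i) s) →
      (∀ j, ok1 m (kd j) (Function.update c.1 i a j)) ∧ IsTop kd f en (Function.update c.1 i a) v := by
  -- the edge in the opposite direction is impossible
  have hopp : c.1 i ≠ edg (v i) (!s) := by
    intro h
    have hok : ok1 m (kd i) (edg (v i) (!s)) := by rw [← h]; exact c.2 i
    obtain ⟨h1, h2⟩ := hr.up hok
    have hcor : Corner c.1 (mv v i (!s)) := by
      intro j
      by_cases hji : j = i
      · subst hji
        rw [h]
        cases s
        · right
          simp [mv, edg, stp]
        · left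
          simp [mv, edg, stp, sub_eq_add_neg]
      · have := hc.1 j
        simpa [mv, Function.update_of_ne hji] using this
    have hne : mv v i (!s) ≠ v := by
      intro he
      rw [he] at h2
      exact lt_irrefl _ h2
    have := StarT_le_of_key (hc.2.2 _ hcor h1 hne)
    exact absurd h2 (not_lt.mpr this)
  have hfirst : c.1 i = (v i, false) ∨ c.1 i = edg (v i) s := by
    rcases hc.1 i with h | h
    · by_cases h2 : (c.1 i).2 = true
      · have h3 : c.1 i = edg (v i) true := by
          simp only [edg, if_true]
          exact Prod.ext h.symm h2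
        cases s
        · exact absurd h3 hopp
        · exact Or.inr h3
      · left
        have h3 : (c.1 i).2 = false := by simpa using h2
        exact Prod.ext h.symm h3
    · have h3 : c.1 i = edg (v i) false := by
        simp only [edg, Bool.false_eq_true, if_false]
        refine Prod.ext ?_ h.1
        simp [h.2]
      cases s
      · exact Or.inr h3
      · exact absurd h3 hopp
  refine ⟨hfirst, fun a ha => ⟨fun j => ?_, ?_, hc.2.1, fun w hw hwr hwv => ?_⟩⟩
  · by_cases hji : j = i
    · subst hji
      rw [Function.update_self]
      rcases ha with ha | ha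
      · rw [ha]
        refine ⟨fun hu he => ?_, fun _ he => ?_⟩
        · exact hc.2.1 ⟨j, hu, (Prod.ext_iff.mp he).1⟩
        · exact absurd (Prod.ext_iff.mp he).2 (by simp)
      · rw [ha]
        exact hr.edge
    · rw [Function.update_of_ne hji]
      exact c.2 j
  · intro j
    by_cases hji : j = i
    · subst hji
      rw [Function.update_self]
      rcases ha with ha | ha
      · rw [ha]
        exact Or.inl rfl
      · rw [ha]
        cases s
        · right
          simp [edg]
        · left
          simp [edg]
    · rw [Function.update_of_ne hji]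
      exact hc.1 j
  · -- `w` a corner of the toggled cell
    set w0 : ι → ZMod m := Function.update w i (v i) with hw0
    have hw0i : w0 i = v i := by rw [hw0, Function.update_self]
    have hw0j : ∀ j, j ≠ i → w0 j = w j := fun j hj => by rw [hw0, Function.update_of_ne hj]
    have hcw : ∀ j, j ≠ i → (w j = (c.1 j).1 ∨ ((c.1 j).2 = true ∧ w j = (c.1 j).1 + 1)) := by
      intro j hj
      have := hw j
      rwa [Function.update_of_ne hj] at this
    have hcor0 : Corner c.1 w0 := by
      intro j
      by_cases hji : j = i
      · subst hji
        rw [hw0i]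
        exact hc.1 j
      · rw [hw0j j hji]
        exact hcw j hji
    have hrem0 : ¬ Rem kd w0 := by
      rintro ⟨j, hj1, hj2⟩
      by_cases hji : j = i
      · subst hji
        rw [hw0i] at hj2
        exact hc.2.1 ⟨j, hj1, hj2⟩
      · rw [hw0j j hji] at hj2
        exact hwr ⟨j, hj1, hj2⟩
    have hkey0 : key f en w0 ≤ key f en v := by
      by_cases h : w0 = v
      · rw [h]
      · exact (hc.2.2 w0 hcor0 hrem0 h).le
    by_cases hwi : w i = v i
    · have hww : w0 = w := by
        rw [hw0, ← hwi, Function.update_eq_self]
      rw [hww] at hcor0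
      exact hc.2.2 w hcor0 hwr hwv
    · have hmv : mv w0 i s = w := by
        have hwi' : w i = v i + stp m s := by
          have := hw i
          rw [Function.update_self] at this
          rcases ha with ha | ha
          · rw [ha] at this
            rcases this with h | h
            · exact absurd h hwi
            · exact absurd h.1 (by simp)
          · rw [ha] at this
            cases s
            · simp only [edg, Bool.false_eq_true, if_false] at this
              rcases this with h | h
              · rw [h]; simp [stp, sub_eq_add_neg]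
              · exfalso
                apply hwi
                rw [h.2]; ring
            · simp only [edg, if_true] at this
              rcases this with h | h
              · exact absurd h hwi
              · rw [h.2]; simp [stp]
        funext j
        by_cases hji : j = i
        · subst hji
          rw [mv, Function.update_self, hw0i, hwi']
        · rw [mv, Function.update_of_ne hji, hw0j j hji]
      have hnear : Near kd v w0 := by
        intro j
        by_cases hji : j = i
        · subst hji
          exact Or.inl hw0i
        · rw [hw0j j hji]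
          rcases hcw j hji with h1 | h1
          · rcases hc.1 j with h2 | h2
            · left; rw [h1, h2]
            · right
              refine ⟨false, ?_, ?_⟩
              · have : edg (v j) false = c.1 j := by
                  simp only [edg, Bool.false_eq_true, if_false]
                  refine Prod.ext ?_ h2.1.symm
                  simp [h2.2]
                rw [this]
                exact c.2 j
              · rw [h1, h2.2]
                simp [stp]
          · rcases hc.1 j with h2 | h2
            · right
              refine ⟨true, ?_, ?_⟩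
              · have : edg (v j) true = c.1 j := by
                  simp only [edg, if_true]
                  exact Prod.ext h2 h1.1.symm
                rw [this]
                exact c.2 j
              · rw [h1.2, h2]
                simp [stp]
            · left; rw [h1.2, h2.2]
      have hlt : f (mv w0 i s) < f w0 := by
        apply hr.down w0 hnear hw0i hrem0
        rw [hmv]
        exact hwr
      rw [hmv] at hlt
      exact lt_of_lt_of_le (StarT_key_lt_of hlt) hkey0

end Pool.Agent.H47.QG
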